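import Pool.Agent.ParkerGL.A06
import Pool.Agent.Parker.P06
import Pool.Agent.Parker.P11
import Pool.Agent.Parker.P13
import Pool.Agent.Parker.P17
import Pool.Agent.Parker.P23

/-!
# MP_6c3636_al, GL_n(q), module E01: good representations, inflation and block idempotents (helper7)

* `good_pb`: `GoodV` for `τ` of `G'` gives `GoodV` for `τ ∘ f`, `f : G → G'` surjective: same form, same operator: it is
  `∑ s g' • τ g'` and each `τ g'` is `(τ ∘ f) g` (see the end of the proof of `good_of_quot` in P13).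
* `good_blk'`: the proof of `Parker.good_blk_even` (P17) with `good_of_propA hA …` replaced by the hypothesis `hg` (copy it; the private or
  auxiliary lemmas are in the namespace `Parker.P17_aux`).
* `blk_crit`: `E = act (rs H ρ) (es α)`, an idempotent commuting with `H` (P15), `W = range E` has dimension `mul * dg α = dg α`, it
  is the isotypic component of `α`, irreducible under `H` with character `α`. `ρ` is irreducible, so `V` is the sum of the
  `ρ(q.out) W`, `q ∈ G ⧸ H`; by dimensions (`finrank V = index * dg α`) the sum is direct. Let `E'` be the projection onto `W` along `⊕_{q ≠ 1} ρ(q.out) W`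
  (this complement is `H`-stable: `H` permutes the cosets `≠ H`). `E'` commutes with `H`. `E' = E`: `1 - E` projects onto the sum of the other isotypic components for `H`; `E' (1 - E)`
  is an `H`-homomorphism from a module without constituent `α` to `W`, so `0` (compare characters, or: `E' (1 - E) = E' (act (rs H ρ) (es α)) (1 - E)` since
  `E'` commutes with `H` and `E` is the identity on `W`: `E' x = E (E' x) = E' (E x)` as `E` is a polynomial in `H`!). So `E' = E' E`, and `E' E = E` because `E'` is the identity on `W`. For `g ∉ H`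
  `ρ g W ⊆ ⊕_{q ≠ 1}`, so `E g E = E' g E = 0`.
-/

namespace ParkerGL

noncomputable section

open Classical

variable {Ω : Type} [Field Ω] [IsAlgClosed Ω] [CharZero Ω] {c : Parker.Ctx Ω}
  {Γ : Subgroup (RingAut Ω)} {G : Type} [Group G] [Finite G] {H : Type} [Group H] [Finite H]
  {V : Type} [AddCommGroup V] [Module Ω V] [FiniteDimensional Ω V]
  {W : Type} [AddCommGroup W] [Module Ω W] [FiniteDimensional Ω W]

theorem good_pb {f : G →* H} (hf : Function.Surjective f) {τ : Representation Ω H V}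
    (h : Parker.GoodV c Γ τ) : Parker.GoodV c Γ (MonoidHom.comp τ f : Representation Ω G V) := by
  obtain ⟨B, hB, T, hT, hk, hd, hsq⟩ := h
  refine ⟨B, ⟨hB.symm, hB.nondeg, fun g x y => hB.inv (f g) x y⟩, T, ?_, hk, hd, hsq⟩
  obtain ⟨s, hs, rfl⟩ := hT
  let _ := Fintype.ofFinite H
  rw [Parker.act_eq]
  refine Parker.rat_sum fun q _ => Parker.rat_smul (hs q) ?_
  obtain ⟨g, rfl⟩ := hf q
  exact Parker.rat_rho Γ (MonoidHom.comp τ f : Representation Ω G V) g

theorem good_blk' {P : Subgroup G} {ρ : Representation Ω G V} {E : Module.End Ω V}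
    (h : Parker.Blk ρ P E) (hρ : ρ.IsIrreducible) {B : LinearMap.BilinForm Ω V}
    (hB : Parker.InvForm ρ B) (hadj : Parker.SelfAdj B E) (hE : E ∈ Parker.Rat Γ ρ)
    (hg : Parker.GoodV c Γ h.rep) : Parker.GoodV c Γ ρ := by
  let _ : Fintype (G ⧸ P) := Fintype.ofFinite _
  obtain ⟨B', hB', T', hT', hsk', hd', hsq'⟩ := hg
  obtain ⟨s, hs1, hs2, hs3⟩ := Parker.exists_skew hB' hT' hsk'
  have hBH : Parker.InvForm (Parker.rs P ρ) B :=
    ⟨hB.symm, hB.nondeg, fun g x y => hB.inv g x y⟩
  have hskA : Parker.Skew B (Parker.act (Parker.rs P ρ) s) := Parker.skew_of_skew hBH hs2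
  have hcomm : Parker.act (Parker.rs P ρ) s * E = E * Parker.act (Parker.rs P ρ) s := by
    let _ := Fintype.ofFinite P
    rw [Parker.act_eq, Finset.sum_mul, Finset.mul_sum]
    apply Finset.sum_congr rfl
    intro x _
    rw [smul_mul_assoc, mul_smul_comm]
    have h1 : (Parker.rs P ρ) x * E = E * (Parker.rs P ρ) x := h.comm x x.2
    rw [h1]
  have hskE : ∀ x y, B ((Parker.act (Parker.rs P ρ) s * E) x) y =
      - B x ((Parker.act (Parker.rs P ρ) s * E) y) := by
    intro x y
    rw [Module.End.mul_apply, hskA, hadj]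
    have h1 : E (Parker.act (Parker.rs P ρ) s y) = (Parker.act (Parker.rs P ρ) s * E) y := by
      rw [hcomm]; rfl
    rw [h1]
  refine ⟨B, hB, ∑ q : G ⧸ P, ρ q.out * (Parker.act (Parker.rs P ρ) s * E) * ρ q.out⁻¹,
    ?_, ?_, ?_, ?_⟩
  · apply Parker.rat_sum
    intro q _
    exact Parker.rat_mul (Parker.rat_mul (Parker.rat_rho Γ ρ _)
      (Parker.rat_mul (Parker.rat_res ⟨s, hs1, rfl⟩) hE)) (Parker.rat_rho Γ ρ _)
  · intro x y
    simp only [LinearMap.sum_apply, map_sum]
    rw [← Finset.sum_neg_distrib]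
    apply Finset.sum_congr rfl
    intro q _
    exact Parker.P17_aux.conj_skew hB hskE _ x y
  · rw [Parker.blk_det h hρ, hs3]
    exact pow_ne_zero _ hd'
  · rw [Parker.blk_det h hρ, hs3, map_pow]
    exact Parker.sqV_pow hsq' _

theorem blk_crit {P : Subgroup G} {ρ : Representation Ω G V} (hρ : ρ.IsIrreducible)
    {α : P → Ω} (hα : α ∈ Parker.irr Ω P) (hm : Parker.mul (Parker.rs P ρ).character α = 1)
    (hd : Module.finrank Ω V = P.index * Parker.dg α) :
    ∃ h : Parker.Blk ρ P (Parker.act (Parker.rs P ρ) (Parker.es α)), h.rep.character = α := by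
  let _ : Fintype (G ⧸ P) := Fintype.ofFinite _
  set E : Module.End Ω V := Parker.act (Parker.rs P ρ) (Parker.es α) with hE
  have hidem : E * E = E := Parker.idem_idem (Parker.rs P ρ) hα
  have hne : E ≠ 0 := (Parker.idem_ne_zero_iff (Parker.rs P ρ) hα).2 (by rw [hm]; exact one_ne_zero)
  have hcomm : ∀ p ∈ P, ρ p * E = E * ρ p := fun p hp =>
    Parker.idem_comm (Parker.rs P ρ) hα ⟨p, hp⟩
  have hfr : Module.finrank Ω (LinearMap.range E) = Parker.dg α := by
    rw [hE, Parker.idem_finrank (Parker.rs P ρ) hα, hm, one_mul]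
  have hW : ∀ p ∈ P, ∀ w ∈ LinearMap.range E, ρ p w ∈ LinearMap.range E := by
    rintro p hp _ ⟨v, rfl⟩
    exact ⟨ρ p v, (congrArg (fun f : Module.End Ω V => f v) (hcomm p hp)).symm⟩
  -- the complement
  let Φ : ({q : G ⧸ P // q ≠ (1 : G)} → LinearMap.range E) →ₗ[Ω] V :=
    ∑ q : {q : G ⧸ P // q ≠ (1 : G)},
      (ρ q.1.out) ∘ₗ (LinearMap.range E).subtype ∘ₗ LinearMap.proj q
  have hΦ : ∀ f, Φ f = ∑ q, ρ q.1.out (f q : V) := by
    intro f
    simp only [Φ, LinearMap.sum_apply]
    rfl
  have hU1 : ∀ g, g ∉ P → ∀ w ∈ LinearMap.range E, ρ g w ∈ LinearMap.range Φ := by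
    intro g hg w hw
    have hq : (QuotientGroup.mk g : G ⧸ P) ≠ (1 : G) := by
      intro h
      rw [QuotientGroup.eq, mul_one] at h
      exact hg (by simpa using P.inv_mem h)
    have hmem : (QuotientGroup.mk g : G ⧸ P).out⁻¹ * g ∈ P := by
      rw [← QuotientGroup.eq, QuotientGroup.out_eq']
    refine ⟨Pi.single ⟨QuotientGroup.mk g, hq⟩ ⟨_, hW _ hmem w hw⟩, ?_⟩
    rw [hΦ, Finset.sum_eq_single ⟨QuotientGroup.mk g, hq⟩]
    · rw [Pi.single_eq_same]
      show ρ (QuotientGroup.mk g : G ⧸ P).out (ρ ((QuotientGroup.mk g : G ⧸ P).out⁻¹ * g) w) = _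
      rw [← Module.End.mul_apply, ← map_mul, mul_inv_cancel_left]
    · intro b _ hb
      rw [Pi.single_eq_of_ne hb]
      exact map_zero _
    · intro h
      exact absurd (Finset.mem_univ _) h
  have hU2 : ∀ g, ∀ u ∈ LinearMap.range Φ,
      ρ g u ∈ LinearMap.range E ⊔ LinearMap.range Φ := by
    rintro g _ ⟨f, rfl⟩
    rw [hΦ, map_sum]
    refine Submodule.sum_mem _ fun q _ => ?_
    rw [← Module.End.mul_apply, ← map_mul]
    by_cases hg : g * q.1.out ∈ P
    · exact Submodule.mem_sup_left (hW _ hg _ (f q).2)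
    · exact Submodule.mem_sup_right (hU1 _ hg _ (f q).2)
  have hU3 : ∀ p ∈ P, ∀ u ∈ LinearMap.range Φ, ρ p u ∈ LinearMap.range Φ := by
    rintro p hp _ ⟨f, rfl⟩
    rw [hΦ, map_sum]
    refine Submodule.sum_mem _ fun q _ => ?_
    rw [← Module.End.mul_apply, ← map_mul]
    refine hU1 _ ?_ _ (f q).2
    intro hmem
    apply q.2
    have h1 : q.1.out ∈ P := by
      have := P.mul_mem (P.inv_mem hp) hmem
      rwa [inv_mul_cancel_left] at this
    rw [← QuotientGroup.out_eq' q.1, QuotientGroup.eq, mul_one]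
    exact P.inv_mem h1
  have hinv : ∀ g, ∀ x ∈ LinearMap.range E ⊔ LinearMap.range Φ,
      ρ g x ∈ LinearMap.range E ⊔ LinearMap.range Φ := by
    intro g x hx
    obtain ⟨w, hw, u, hu, rfl⟩ := Submodule.mem_sup.1 hx
    rw [map_add]
    refine Submodule.add_mem _ ?_ (hU2 g u hu)
    by_cases hg : g ∈ P
    · exact Submodule.mem_sup_left (hW _ hg _ hw)
    · exact Submodule.mem_sup_right (hU1 _ hg _ hw)
  have htop : LinearMap.range E ⊔ LinearMap.range Φ = ⊤ := by
    rcases Parker.irr_sub hρ hinv with h | h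
    · exfalso
      apply hne
      rw [← LinearMap.range_eq_bot]
      exact (sup_eq_bot_iff.1 h).1
    · exact h
  have hcard : Fintype.card {q : G ⧸ P // q ≠ (1 : G)} + 1 = P.index := by
    have h1 : Fintype.card {q : G ⧸ P // q ≠ (1 : G)} = Fintype.card (G ⧸ P) - 1 := by
      rw [Fintype.card_subtype_compl, Fintype.card_subtype_eq]
    have h2 : 0 < Fintype.card (G ⧸ P) := Fintype.card_pos
    rw [Subgroup.index, Nat.card_eq_fintype_card, h1, Nat.sub_add_cancel h2]
  have hUfr : Module.finrank Ω (LinearMap.range Φ) ≤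
      Fintype.card {q : G ⧸ P // q ≠ (1 : G)} * Parker.dg α := by
    refine (LinearMap.finrank_range_le Φ).trans ?_
    rw [Module.finrank_pi_fintype, Finset.sum_const, Finset.card_univ, smul_eq_mul, hfr]
  have hinf : LinearMap.range E ⊓ LinearMap.range Φ = ⊥ := by
    have h1 := Submodule.finrank_sup_add_finrank_inf_eq (LinearMap.range E) (LinearMap.range Φ)
    rw [htop, finrank_top, hd, hfr, ← hcard] at h1
    rw [← Submodule.finrank_eq_zero (R := Ω)]
    rw [add_mul, one_mul] at h1
    omega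
  have hact : ∀ u ∈ LinearMap.range Φ, E u ∈ LinearMap.range Φ := by
    intro u hu
    let _ := Fintype.ofFinite P
    have h1 : E u = ∑ p : P, Parker.es α p • ρ (p : G) u := by
      rw [hE, Parker.act_eq, LinearMap.sum_apply]
      rfl
    rw [h1]
    exact Submodule.sum_mem _ fun p _ => Submodule.smul_mem _ _ (hU3 p p.2 u hu)
  have hzero : ∀ u ∈ LinearMap.range Φ, E u = 0 := by
    intro u hu
    have h1 : E u ∈ LinearMap.range E ⊓ LinearMap.range Φ := ⟨⟨u, rfl⟩, hact u hu⟩
    rw [hinf] at h1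
    exact (Submodule.mem_bot Ω).1 h1
  have hb : Parker.Blk ρ P E := by
    refine ⟨hidem, hne, hcomm, fun g hg => ?_⟩
    apply LinearMap.ext
    intro v
    show E (ρ g (E v)) = 0
    exact hzero _ (hU1 g hg _ ⟨v, rfl⟩)
  refine ⟨hb, ?_⟩
  funext x
  rw [Parker.blk_char hb x]
  have h1 := Parker.idem_trace (Parker.rs P ρ) hα x
  rw [hm, Nat.cast_one, one_mul] at h1
  exact h1

end

end ParkerGL
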