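import Pool.Agent.ParkerGL.E07
import Pool.Agent.ParkerGL.E01
import Pool.Agent.Parker.P29

/-!
# MP_6c3636_al, GL_n(q), module E04: normal subgroups of odd index with abelian quotient, quotients (helper7)

`propA_normal`: `G`, `N` normal, `|G : N|` odd, `G ⧸ N` abelian, `PropA c 1 G`. Let `Γ`, `θ` (irreducible orthogonal of even degree, `Γ`-fixed character, of `N`), `s : N → Ω` skew, fixed,
`det θ(s) ≠ 0` be given. Let `m = |G|`. By `Parker.exists_two` (P29) there is `Γ' ≤ Γ` of odd relative index with `Ok c m Γ'`; by `Parker.sqV_odd` (P02) and since `det θ(s)` is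
fixed by `Γ` (`Parker.det_fx`, so its absolute value is in `InV c Γ`) it is enough to prove `SqV c Γ'`. So assume `Ok c m Γ`.

(1)-(4) are done in E07 (`exists_over`): `χ`, `e`, the orbit `O`.

(5) `χ` is orthogonal: it is real, so it has a nondegenerate invariant form, symmetric or alternating (`Parker.exists_form`); if alternating, restrict to `N`: the multiplicity of the
orthogonal `θ` in a symplectic representation is even (as in `Parker.even_mul`, P10, for the other type; a proof: `Hom_N(θ, χ|N)` carries the nondegenerate alternating form induced by the two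
forms), but `e` is odd.
(6) Let `ρ` afford `χ`. `ρ|N` has only constituents `θ^g`, orthogonal of even degree, so `NoOdd`; choose `s₀ : N → ℚ` skew with `det (act (rs N ρ) s₀) ≠ 0` (`Parker.exists_skew_rat`). Extended by zero to `G` it
is skew, so `SqV` of this determinant by `PropA c 1 G`. It is `∏ (detc θ' s₀) ^ e` over the orbit (`Parker.det_eq_prod`). For `θ' = θ^g` `detc θ' s₀ = detc θ (s₀^g)` with the conjugate function `s₀^g`, again
skew and rational, and by `Parker.det_ratio` (P06) the class of `detc θ (s₀^g)` is the class of `detc θ s₀ = det θ(s₀)` and the class of `det θ(s)`. So `av (det θ(s)) ^ (e |orbit|)` is in `SqV`, up to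
`SqV`, and `e |orbit|` is odd, `av (det θ(s))` in `InV`: so it is in `SqV` (`x = x ^ (2 k + 1) / (x ^ k) ^ 2`).

`propA_quot`: `f : G → H` surjective. `ρ` of `H`; `ρ ∘ f` is irreducible, orthogonal, fixed character. The given `s : H → Ω` is the push forward of `t g = s (f g) * |ker f|⁻¹`, which is skew and fixed, and
`act (ρ ∘ f) t = act ρ s`. (`Parker.act_push`, or directly.)
-/

namespace ParkerGL

noncomputable section

open Classical

variable {Ω : Type} [Field Ω] [IsAlgClosed Ω] [CharZero Ω] {G : Type} [Group G] [Finite G]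

namespace E04_aux

open Parker Parker.P10_aux Parker.P13_aux

/-- an irreducible orthogonal representation `τ` has even multiplicity in a symplectic
representation -/
theorem even_mul' {V U : Type} [AddCommGroup V] [Module Ω V] [FiniteDimensional Ω V]
    [AddCommGroup U] [Module Ω U] [FiniteDimensional Ω U] {ρ : Representation Ω G V}
    {B : LinearMap.BilinForm Ω V} (hB1 : ∀ x y, B x y = - B y x)
    (hB2 : ∀ x, (∀ y, B x y = 0) → x = 0) (hB3 : ∀ g x y, B (ρ g x) (ρ g y) = B x y)
    {τ : Representation Ω G U}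
    (hτ : τ.IsIrreducible) {b : LinearMap.BilinForm Ω U} (hb : ∀ x y, b x y = b y x)
    (hnd : ∀ x, (∀ y, b x y = 0) → x = 0) (hinv : ∀ g x y, b (τ g x) (τ g y) = b x y) :
    Even (Parker.mul ρ.character τ.character) := by
  have hmul : Parker.mul ρ.character τ.character = Module.finrank Ω (τ.IntertwiningMap ρ) := by
    have h1 := mul_spec ρ (mem_irr.mpr (mem_irrSet hτ))
    rw [ip_eq_finrank τ ρ] at h1
    exact_mod_cast h1
  rw [hmul]
  have hpos := irr_pos hτ
  have : Nontrivial U := Module.finrank_pos_iff.mp hpos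
  obtain ⟨x0, hx0⟩ := exists_ne (0 : U)
  obtain ⟨y0, hy0⟩ : ∃ y, b x0 y ≠ 0 := by
    by_contra hcon
    push Not at hcon
    exact hx0 (hnd x0 hcon)
  have hfin : FiniteDimensional Ω (τ.IntertwiningMap ρ) := by
    let L : τ.IntertwiningMap ρ →ₗ[Ω] (U →ₗ[Ω] V) :=
      { toFun := fun f => f.toLinearMap
        map_add' := fun f g => rfl
        map_smul' := fun a f => rfl }
    exact Module.Finite.of_injective L
      (Representation.IntertwiningMap.toLinearMap_injective τ ρ)
  let c : LinearMap.BilinForm Ω (τ.IntertwiningMap ρ) :=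
    LinearMap.mk₂ Ω (fun f f' => B (f x0) (f' y0) * (b x0 y0)⁻¹)
      (by
        intro f f' f''
        simp [Representation.IntertwiningMap.coe_add, add_mul])
      (by
        intro a f f'
        simp [Representation.IntertwiningMap.coe_smul, mul_assoc])
      (by
        intro f f' f''
        simp [Representation.IntertwiningMap.coe_add, add_mul])
      (by
        intro a f f'
        simp [Representation.IntertwiningMap.coe_smul, mul_assoc])
  have hcdef : ∀ f f' : τ.IntertwiningMap ρ, c f f' = B (f x0) (f' y0) * (b x0 y0)⁻¹ :=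
    fun f f' => rfl
  have hc : ∀ (f f' : τ.IntertwiningMap ρ) (x y : U), B (f x) (f' y) = c f f' * b x y := by
    intro f f' x y
    obtain ⟨a, ha⟩ := prop_form hτ (B := b)
      (C := B.compl₁₂ f.toLinearMap f'.toLinearMap) hnd hinv (by
        intro g x y
        simp only [LinearMap.compl₁₂_apply]
        have e1 : f.toLinearMap (τ g x) = ρ g (f.toLinearMap x) :=
          Representation.IntertwiningMap.isIntertwining _ _ f g x
        have e2 : f'.toLinearMap (τ g y) = ρ g (f'.toLinearMap y) :=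
          Representation.IntertwiningMap.isIntertwining _ _ f' g y
        rw [e1, e2, hB3])
    simp only [LinearMap.compl₁₂_apply] at ha
    have h1 : c f f' = a := by
      rw [hcdef]
      have h2 : B (f x0) (f' y0) = a * b x0 y0 := ha x0 y0
      rw [h2, mul_assoc, mul_inv_cancel₀ hy0, mul_one]
    rw [h1]
    exact ha x y
  refine even_of_alt (two_ne_zero) (B := c) ?_ ?_
  · intro f f'
    have h1 := hc f f' x0 y0
    rw [hB1, hc f' f y0 x0, hb y0 x0] at h1
    have h2 : (- c f' f) * b x0 y0 = c f f' * b x0 y0 := by rw [← h1]; ring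
    exact (mul_right_cancel₀ hy0 h2).symm
  · intro f hf
    by_contra hf0
    have hnd' : ∀ x, (∀ y, (LinearMap.flip b) x y = 0) → x = 0 := by
      intro x hx
      refine hnd x (fun y => ?_)
      rw [hb]
      have := hx y
      rw [LinearMap.flip_apply] at this
      exact this
    let Φ : V →ₗ[Ω] U := (toDual (B := (LinearMap.flip b)) hnd').symm.toLinearMap ∘ₗ
      ((LinearMap.flip B).compl₁₂ LinearMap.id f.toLinearMap)
    have hΦ : ∀ v x, b x (Φ v) = B (f x) v := by
      intro v x
      have h1 : toDual (B := (LinearMap.flip b)) hnd' (Φ v) =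
          ((LinearMap.flip B).compl₁₂ LinearMap.id f.toLinearMap) v := by
        simp [Φ]
      have h2 := congrArg (fun l : Module.Dual Ω U => l x) h1
      simpa [toDual_apply] using h2
    have hnd2 : ∀ u u' : U, (∀ x, b x u = b x u') → u = u' := by
      intro u u' hu
      have := hnd' (u - u') (fun y => by
        rw [LinearMap.flip_apply, map_sub, hu y, sub_self])
      exact sub_eq_zero.mp this
    have hΦg : ∀ g v, Φ (ρ g v) = τ g (Φ v) := by
      intro g v
      apply hnd2
      intro x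
      rw [hΦ]
      have h1 : b x (τ g (Φ v)) = b (τ g⁻¹ x) (Φ v) := by
        rw [inv_apply hinv g⁻¹ x (Φ v), inv_inv]
      rw [h1, hΦ]
      have h2 : f (τ g⁻¹ x) = ρ g⁻¹ (f x) :=
        Representation.IntertwiningMap.isIntertwining _ _ f g⁻¹ x
      rw [h2, inv_apply hB3 g⁻¹ (f x) v, inv_inv]
    let Φi : ρ.IntertwiningMap τ := LinearMap.intertwiningMap_of_isIntertwiningMap ρ τ Φ hΦg
    have hΦ0 : Φi ≠ 0 := by
      intro h0
      apply hf0
      ext x
      apply hB2
      intro v
      have h1 : Φ v = 0 := by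
        have := congrArg (fun l : ρ.IntertwiningMap τ => l v) h0
        exact this
      have h2 := hΦ v x
      rw [h1, map_zero] at h2
      exact h2.symm
    have hsurj : Function.Surjective Φ := by
      have := hτ
      rcases Representation.IsIrreducible.surjective_or_eq_zero Φi with h1 | h1
      · exact h1
      · exact absurd h1 hΦ0
    obtain ⟨s, hs⟩ := LinearMap.exists_rightInverse_of_surjective Φ
      (LinearMap.range_eq_top.mpr hsurj)
    have hs' : ∀ u, Φ (s u) = u := fun u => by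
      have := congrArg (fun l : U →ₗ[Ω] U => l u) hs
      exact this
    let _ := Fintype.ofFinite G
    let F : U →ₗ[Ω] V := ((Nat.card G : Ω)⁻¹) • ∑ g : G, (ρ g) ∘ₗ s ∘ₗ (τ g⁻¹)
    have hF : ∀ u, F u = ((Nat.card G : Ω)⁻¹) • ∑ g : G, ρ g (s (τ g⁻¹ u)) := by
      intro u
      simp [F, LinearMap.sum_apply]
    have hFg : ∀ g u, F (τ g u) = ρ g (F u) := by
      intro h u
      rw [hF, hF, map_smul, map_sum]
      congr 1
      rw [← Equiv.sum_comp (Equiv.mulLeft h)]
      refine Finset.sum_congr rfl (fun k _ => ?_)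
      simp only [Equiv.coe_mulLeft, mul_inv_rev, map_mul, Module.End.mul_apply]
      rw [Representation.inv_self_apply]
    let f' : τ.IntertwiningMap ρ := LinearMap.intertwiningMap_of_isIntertwiningMap τ ρ F hFg
    have hcard : (Nat.card G : Ω) ≠ 0 := by
      exact_mod_cast Nat.card_pos.ne'
    have hΦF : ∀ u, Φ (F u) = u := by
      intro u
      rw [hF, map_smul, map_sum]
      have : ∀ g : G, Φ (ρ g (s (τ g⁻¹ u))) = u := by
        intro g
        rw [hΦg, hs', Representation.self_inv_apply]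
      rw [Finset.sum_congr rfl (fun g _ => this g), Finset.sum_const, Finset.card_univ,
        ← Nat.card_eq_fintype_card, ← Nat.cast_smul_eq_nsmul Ω, smul_smul,
        inv_mul_cancel₀ hcard, one_smul]
    have h1 := hc f f' x0 y0
    rw [hf f', zero_mul] at h1
    have h2 : B (f x0) (f' y0) = b x0 y0 := by
      have h3 : f' y0 = F y0 := rfl
      rw [h3, ← hΦ, hΦF]
    rw [h2] at h1
    exact hy0 h1

omit [IsAlgClosed Ω] [CharZero Ω] in
/-- odd powers -/
theorem sqV_of_odd_pow {c : Parker.Ctx Ω} {Γ : Subgroup (RingAut Ω)} {r : ℝ} (h : InV c Γ r)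
    {k : ℕ} (hk : Odd k) (hs : SqV c Γ (r ^ k)) : SqV c Γ r := by
  obtain ⟨l, rfl⟩ := hk
  have h1 := inV_pow h l
  have h2 : SqV c Γ (r ^ (2 * l + 1) / (r ^ l) ^ 2) := sqV_div hs (sqV_sq h1)
  have h3 : r ^ (2 * l + 1) / (r ^ l) ^ 2 = r := by
    have h4 := (inV_pos h).ne'
    rw [← pow_mul, pow_succ, mul_comm 2 l, mul_div_assoc, mul_comm, div_mul_cancel₀]
    exact pow_ne_zero _ h4
  rwa [h3] at h2

/-- the determinant for a conjugate character -/
theorem detc_cj (N : Subgroup G) [N.Normal] (g : G) {n : ℕ}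
    {τ : Representation Ω N (Fin n → Ω)} (hτ : τ.IsIrreducible) (s : N → Ω) :
    detc (cj N g τ.character) s =
      LinearMap.det (act τ (fun x => s ((MulAut.conjNormal g⁻¹ : N ≃* N).symm x))) := by
  let τ' : Representation Ω N (Fin n → Ω) :=
    pb (MulAut.conjNormal g⁻¹ : N ≃* N).toMonoidHom τ
  have h1 : τ'.IsIrreducible := pb_irr (MulAut.conjNormal g⁻¹ : N ≃* N).surjective hτ
  have h2 : τ'.character = cj N g τ.character := rfl
  let _ := Fintype.ofFinite N
  rw [← h2, detc_char h1]
  congr 1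
  rw [act_eq, act_eq]
  refine Fintype.sum_equiv (MulAut.conjNormal g⁻¹ : N ≃* N).toEquiv _ _ fun x => ?_
  show s x • τ ((MulAut.conjNormal g⁻¹ : N ≃* N) x) =
    s ((MulAut.conjNormal g⁻¹ : N ≃* N).symm ((MulAut.conjNormal g⁻¹ : N ≃* N) x)) •
      τ ((MulAut.conjNormal g⁻¹ : N ≃* N) x)
  rw [MulEquiv.symm_apply_apply]

end E04_aux

open E04_aux

theorem propA_normal (c : Parker.Ctx Ω) (hA : Parker.PropA c 1 G) (N : Subgroup G) [N.Normal]
    (hN : Odd N.index) (hab : ∀ x y : G, x * y * x⁻¹ * y⁻¹ ∈ N) : Parker.PropA c 1 N := by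
  have hm : Nat.card G ≠ 0 := Nat.card_pos.ne'
  refine Parker.propA_one hm (Subgroup.card_subgroup_dvd_card N) ?_
  intro Γ hΓ n τ hτ hn hO hF s hs hk hd
  have hθ : τ.character ∈ Parker.irr Ω N := Parker.mem_irr.2 (Parker.mem_irrSet hτ)
  have hsd : Parker.SD τ := Parker.sd_of_orth hO
  have hdu : Parker.du τ.character = τ.character := funext hsd
  obtain ⟨χ, e, O, hχ, hχd, hχf, he, hOc, hθO, hcj, hres⟩ :=
    exists_over hm dvd_rfl hΓ N hN hab hθ hdu hF
  have hOirr : ∀ θ' ∈ O, θ' ∈ Parker.irr Ω N := by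
    intro θ' h
    obtain ⟨g, rfl⟩ := hcj θ' h
    exact Parker.cj_mem_irr N hθ g
  obtain ⟨k, ρ, hρ, hρχ⟩ := Parker.mem_irr.1 hχ
  have hch : (Parker.rs N ρ).character = (e : Ω) • ∑ θ' ∈ O, θ' := by
    funext x
    have h1 : (Parker.rs N ρ).character x = χ x := by rw [← hρχ]; rfl
    rw [h1, hres x, Pi.smul_apply, Finset.sum_apply, smul_eq_mul]
  have hmul : ∀ φ ∈ Parker.irr Ω N,
      Parker.mul (Parker.rs N ρ).character φ = if φ ∈ O then e else 0 := by
    intro φ hφ
    have h1 := Parker.mul_spec (Parker.rs N ρ) hφ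
    have h2 : Parker.ip (Parker.rs N ρ).character φ = ((if φ ∈ O then e else 0 : ℕ) : Ω) := by
      rw [hch, Parker.ip_smul_left, Parker.ip_sum_left]
      split_ifs with h
      · rw [Finset.sum_eq_single φ]
        · rw [Parker.ip_irr hφ hφ, if_pos rfl, mul_one]
        · intro b hb hne
          rw [Parker.ip_irr (hOirr b hb) hφ, if_neg hne]
        · intro h'
          exact absurd h h'
      · rw [Finset.sum_eq_zero, mul_zero, Nat.cast_zero]
        intro b hb
        rw [Parker.ip_irr (hOirr b hb) hφ, if_neg]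
        rintro rfl
        exact h hb
    rw [h2] at h1
    exact Nat.cast_injective h1
  have hρO : Parker.Orth ρ := by
    have hρsd : Parker.SD ρ := by
      intro g
      rw [hρχ]
      exact congrFun hχd g
    rcases Parker.exists_form hρ hρsd with h | ⟨B, hB1, hB2, hB3⟩
    · exact h
    · exfalso
      obtain ⟨b, hb⟩ := hO
      have h1 := even_mul' (ρ := Parker.rs N ρ) hB1 hB2 (fun g x y => hB3 g x y) hτ hb.symm
        hb.nondeg hb.inv
      rw [hmul _ hθ, if_pos hθO] at h1
      exact Nat.not_even_iff_odd.2 he h1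
  have hdg : ∀ θ' ∈ O, Parker.dg θ' = n := by
    intro θ' h
    obtain ⟨g, rfl⟩ := hcj θ' h
    rw [Parker.dg_cj, Parker.dg_char, Module.finrank_fin_fun]
  have hkev : Even k := by
    have h1 := Parker.finrank_eq_sum (Parker.rs N ρ)
    rw [Module.finrank_fin_fun] at h1
    rw [h1]
    refine Finset.even_sum _ fun φ hφ => ?_
    rw [hmul φ hφ]
    split_ifs with h
    · rw [hdg φ h]
      exact hn.mul_left e
    · rw [zero_mul]
      exact ⟨0, rfl⟩
  have hno : Parker.NoOdd (Parker.rs N ρ) := by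
    rw [Parker.noOdd_iff]
    intro φ hφ hm' _
    rw [hmul φ hφ] at hm'
    by_cases h : φ ∈ O
    · rw [hdg φ h]
      exact hn
    · rw [if_neg h] at hm'
      exact absurd rfl hm'
  obtain ⟨s₀, hs₀, hd₀⟩ := Parker.exists_skew_rat hno
  have hs1 : ∀ x, Parker.Fx Γ ((s₀ x : ℚ) : Ω) := fun x => Parker.fx_ratCast Γ (s₀ x)
  have hs2 : ∀ x, ((s₀ x⁻¹ : ℚ) : Ω) = - ((s₀ x : ℚ) : Ω) := fun x => by
    rw [hs₀ x, Rat.cast_neg]
  have hact : Parker.act (Parker.rs N ρ) (fun x => (s₀ x : Ω)) =
      Parker.act ρ (Parker.push N.subtype (fun x => (s₀ x : Ω))) :=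
    Parker.act_push N.subtype ρ _
  have hsq := hA Γ (Parker.ok_one hΓ) k ρ hρ hkev hρO (fun g => by rw [hρχ]; exact hχf g)
    (Parker.push N.subtype (fun x => (s₀ x : Ω)))
    (Parker.push_fx N.subtype hs1) (Parker.push_skew N.subtype _ hs2) (by rw [← hact]; exact hd₀)
  rw [← hact] at hsq
  have hprod : LinearMap.det (Parker.act (Parker.rs N ρ) (fun x => (s₀ x : Ω))) =
      (∏ θ' ∈ O, Parker.detc θ' (fun x => (s₀ x : Ω))) ^ e := by
    rw [Parker.det_eq_prod, ← Finset.prod_pow]
    symm
    refine Finset.prod_subset_one_on_sdiff (fun φ hφ => hOirr φ hφ) ?_ ?_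
    · intro φ hφ
      rw [Finset.mem_sdiff] at hφ
      rw [hmul φ hφ.1, if_neg hφ.2, pow_zero]
    · intro φ hφ
      rw [hmul φ (hOirr φ hφ), if_pos hφ]
  obtain ⟨B, hB⟩ := hO
  set d := LinearMap.det (Parker.act τ s) with hdd
  have hdV : Parker.InV c Γ (c.av d) := Parker.inV_of_fx hd (Parker.det_fx hτ hF ⟨s, hs, rfl⟩)
  have hdc : ∀ θ' ∈ O, Parker.detc θ' (fun x => (s₀ x : Ω)) ≠ 0 := by
    rw [hprod] at hd₀
    have h1 : ∏ θ' ∈ O, Parker.detc θ' (fun x => (s₀ x : Ω)) ≠ 0 := by
      intro h0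
      rw [h0, zero_pow] at hd₀
      · exact hd₀ rfl
      · rintro rfl
        exact absurd he (by decide)
    exact Finset.prod_ne_zero_iff.1 h1
  have hrat : ∀ θ' ∈ O, Parker.SqV c Γ
      (c.av (Parker.detc θ' (fun x => (s₀ x : Ω))) / c.av d) := by
    intro θ' h
    obtain ⟨g, hg⟩ := hcj θ' h
    have h1 : Parker.detc θ' (fun x => (s₀ x : Ω)) = LinearMap.det (Parker.act τ
        (fun x => (s₀ ((MulAut.conjNormal g⁻¹ : N ≃* N).symm x) : Ω))) := by
      rw [hg]
      exact detc_cj N g hτ (fun x => (s₀ x : Ω))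
    have h2 := hdc θ' h
    rw [h1] at h2
    obtain ⟨x, hx0, hxf, hx⟩ := Parker.det_ratio hτ hF hB
      (T₁ := Parker.act τ (fun x => (s₀ ((MulAut.conjNormal g⁻¹ : N ≃* N).symm x) : Ω)))
      (T₂ := Parker.act τ s) ⟨_, fun y => hs1 _, rfl⟩ ⟨s, hs, rfl⟩
      (Parker.skew_of_skew hB (fun y => by rw [map_inv]; exact hs2 _))
      (Parker.skew_of_skew hB hk) h2 hd
    refine ⟨x, hx0, hxf, ?_⟩
    rw [h1, hx, map_mul, map_pow, mul_div_assoc, div_self, mul_one]
    exact c.av.ne_zero hd
  have hall : Parker.SqV c Γ ((c.av d ^ O.card) ^ e) := by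
    have h1 : Parker.SqV c Γ ((∏ θ' ∈ O,
        (c.av (Parker.detc θ' (fun x => (s₀ x : Ω))) / c.av d)) ^ e) :=
      Parker.sqV_pow (Parker.sqV_prod hrat) e
    have h2 := Parker.sqV_div hsq h1
    have h3 : c.av (LinearMap.det (Parker.act (Parker.rs N ρ) (fun x => (s₀ x : Ω)))) /
        (∏ θ' ∈ O, (c.av (Parker.detc θ' (fun x => (s₀ x : Ω))) / c.av d)) ^ e =
        (c.av d ^ O.card) ^ e := by
      rw [hprod, map_pow, map_prod, ← div_pow, Finset.prod_div_distrib, Finset.prod_const,
        div_div_cancel₀]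
      exact Finset.prod_ne_zero_iff.2 fun θ' h => c.av.ne_zero (hdc θ' h)
    rwa [h3] at h2
  rw [← pow_mul] at hall
  exact sqV_of_odd_pow hdV (hOc.mul he) hall

theorem propA_quot (c : Parker.Ctx Ω) {H : Type} [Group H] [Finite H] (hA : Parker.PropA c 1 G)
    (f : G →* H) (hf : Function.Surjective f) : Parker.PropA c 1 H := by
  intro Γ hΓ n ρ hρ hn hO hF s hs hk hd
  let _ := Fintype.ofFinite G
  let _ := Fintype.ofFinite H
  have hcard : (Nat.card f.ker : Ω) ≠ 0 := by
    exact_mod_cast Nat.card_pos.ne'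
  have hpush : Parker.push f (fun g => s (f g) * (Nat.card f.ker : Ω)⁻¹) = s := by
    funext y
    obtain ⟨g₀, rfl⟩ := hf y
    show ∑ g, (if f g = f g₀ then s (f g) * (Nat.card f.ker : Ω)⁻¹ else 0) = s (f g₀)
    have h1 : ∀ g, (if f g = f g₀ then s (f g) * (Nat.card f.ker : Ω)⁻¹ else 0) =
        if f g = f g₀ then s (f g₀) * (Nat.card f.ker : Ω)⁻¹ else 0 := by
      intro g
      split_ifs with h
      · rw [h]
      · rfl
    rw [Finset.sum_congr rfl fun g _ => h1 g, ← Finset.sum_filter, Finset.sum_const, nsmul_eq_mul]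
    have h2 : (Finset.univ.filter fun g => f g = f g₀).card = Nat.card f.ker := by
      rw [Nat.card_eq_fintype_card, ← Finset.card_univ]
      symm
      refine Finset.card_bij (fun (x : f.ker) _ => g₀ * (x : G)) ?_ ?_ ?_
      · intro x _
        rw [Finset.mem_filter]
        refine ⟨Finset.mem_univ _, ?_⟩
        rw [map_mul, f.mem_ker.1 x.2, mul_one]
      · intro x _ y _ hxy
        exact Subtype.ext (mul_left_cancel hxy)
      · intro g hg
        rw [Finset.mem_filter] at hg
        refine ⟨⟨g₀⁻¹ * g, ?_⟩, Finset.mem_univ _, ?_⟩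
        · rw [f.mem_ker, map_mul, map_inv, hg.2, inv_mul_cancel]
        · exact mul_inv_cancel_left g₀ g
    rw [h2, mul_comm, mul_assoc, inv_mul_cancel₀ hcard, mul_one]
  have hact : Parker.act (Parker.P13_aux.pb f ρ) (fun g => s (f g) * (Nat.card f.ker : Ω)⁻¹) =
      Parker.act ρ s := by
    have h1 := Parker.act_push f ρ (fun g => s (f g) * (Nat.card f.ker : Ω)⁻¹)
    rw [hpush] at h1
    exact h1
  have h := hA Γ hΓ n (Parker.P13_aux.pb f ρ) (Parker.P13_aux.pb_irr hf hρ) hn
    (Parker.P13_aux.pb_orth _ hO) (Parker.P13_aux.pb_fxC _ hF)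
    (fun g => s (f g) * (Nat.card f.ker : Ω)⁻¹)
    (fun g => Parker.fx_mul (hs (f g)) (Parker.fx_inv (Parker.fx_natCast Γ _)))
    (fun g => by rw [map_inv, hk (f g), neg_mul]) (by rw [hact]; exact hd)
  rwa [hact] at h

end

end ParkerGL
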