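import Pool.Agent.ParkerGL.A10
import Pool.Agent.Parker.P08
import Pool.Agent.Parker.P12
import Pool.Agent.Parker.P30

/-!
# MP_6c3636_al, GL_n(q), module E03: groups in which odd powers are conjugate (helper7)

`OP G`: if `x ^ (2 ^ k * r) = 1`, `r` and `j` odd, `j ≡ 1 mod r`, then `x ^ j` is conjugate to `x`.

* `op_gl`: `conj_pow` of A10.
* `op_normal`: `N` normal of odd index in `G`, `x ∈ N`, `g x g⁻¹ = x ^ j`. Write the order of `g` as `2 ^ a * b`, `b` odd; choose `m` with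
  `m ≡ 1 mod 2 ^ a`, `m ≡ 0 mod b`, `g' = g ^ m` has `2`-power order, so `g' ∈ N` (its image in `G ⧸ N`, of odd order, is trivial). `g' x g'⁻¹ = x ^ (j ^ m)`.
  We need `j ^ m ≡ j` modulo the order of `x`: modulo `r` both are `1`; modulo `2 ^ k`: `j ^ (2^a) …`: `g ^ (2 ^ a * b) = 1` gives `x ^ (j ^ (2^a b)) = x`; the order `e` of `j` in
  `(ℤ/2^k)ˣ` (a `2`-group) restricted to `⟨x⟩`: let `o` be the order of `x`; the multiplicative order of `j` modulo `o` is a power of `2` (modulo the odd part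
  `j ≡ 1`, modulo the `2`-part the unit group is a `2`-group) and divides `2 ^ a * b`, hence divides `2 ^ a`, and `m ≡ 1 mod 2 ^ a`. So `j ^ m ≡ j mod o`.
* `op_quot`: `x̄ ∈ G ⧸ M` with `x̄ ^ (2 ^ k * r) = 1`, `j`. Lift to `x ∈ G`, of order `2 ^ k' * r'`, `r'` odd. Choose `j' ≡ j mod 2 ^ (max k k')`, `j' ≡ 1 mod r * r'` (coprime moduli), `j'` odd.
  `x ^ j'` is conjugate to `x`, and `x̄ ^ j' = x̄ ^ j` since `j' ≡ j mod 2 ^ k * r` (both `≡ 1 mod r`).
* `op_fixed`: `σ` fixes the `r`-th roots of unity, all `x ∈ G` satisfy `x ^ (2 ^ k * r) = 1`. On the `2 ^ k * r`-th roots of unity `σ ζ = ζ ^ j` (primitive root); `j` is prime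
  to `2 ^ k * r`, if `k = 0` add `r` if necessary to make it odd; `j ≡ 1 mod r`. `σ (χ x) = χ (x ^ j)` (`Parker.char_sum`: the eigenvalues of `ρ (x ^ j) = ρ(x) ^ j` are the `j`-th powers;
  or `Parker.char_comm`-like arguments) `= χ x`.
* `op_propB`: in `PropB` `d` is fixed by every `σ ∈ Γ` which fixes the `r`-th roots of unity (`Fixes σ ρ` by `op_fixed`), `|G| = 2 ^ k * r`: `Parker.inV_unramified` (P30).
-/

namespace ParkerGL

noncomputable section

open Classical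

/-- odd powers which are trivial on the odd part are conjugate -/
def OP (G : Type) [Group G] : Prop :=
  ∀ (x : G) (k r j : ℕ), x ^ (2 ^ k * r) = 1 → Odd r → Odd j → j ≡ 1 [MOD r] →
    ∃ g : G, g * x * g⁻¹ = x ^ j

theorem op_gl {F : Type} [Field F] [Finite F] [CharP F 2] (n : ℕ) : OP (Gn F n) := by
  intro x k r j hx hr hj hjr
  exact conj_pow x hx hr hjr hj

namespace E03_aux

/-- an odd number to the power `2 ^ k` is `1` modulo `2 ^ k` -/
theorem odd_pow_two_pow {j : ℕ} (hj : Odd j) (k : ℕ) : j ^ (2 ^ k) ≡ 1 [MOD 2 ^ k] := by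
  induction k with
  | zero => exact Nat.modEq_one
  | succ k ih =>
    -- `j ^ (2 ^ (k + 1)) - 1 = (j ^ (2 ^ k) - 1) (j ^ (2 ^ k) + 1)`
    have h1 : 1 ≤ j ^ 2 ^ k := Nat.one_le_iff_ne_zero.2 (pow_ne_zero _ hj.pos.ne')
    obtain ⟨a, ha⟩ := (Nat.modEq_iff_dvd' h1).1 ih.symm
    have h2 : Odd (j ^ 2 ^ k) := hj.pow
    obtain ⟨b, hb⟩ := h2
    have h3 : j ^ 2 ^ k = 2 ^ k * a + 1 := by omega
    have h4 : 1 ≤ j ^ 2 ^ (k + 1) := Nat.one_le_iff_ne_zero.2 (pow_ne_zero _ hj.pos.ne')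
    refine ((Nat.modEq_iff_dvd' h4).2 ?_).symm
    have h5 : j ^ 2 ^ (k + 1) = j ^ 2 ^ k * j ^ 2 ^ k := by
      rw [pow_succ 2 k, mul_two, pow_add]
    have h6 : j ^ 2 ^ (k + 1) - 1 = 2 ^ k * a * (2 * (b + 1)) := by
      rw [h5]
      have h7 : j ^ 2 ^ k + 1 = 2 * (b + 1) := by omega
      rw [← h7]
      have h8 : 2 ^ k * a = j ^ 2 ^ k - 1 := by omega
      rw [h8]
      obtain ⟨c, hc⟩ := Nat.exists_eq_add_of_le h1
      rw [hc]
      have : (1 + c) * (1 + c) = 1 + (c * (1 + c + 1)) := by ring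
      rw [this]
      simp
    rw [h6, pow_succ]
    exact ⟨a * (b + 1), by ring⟩

theorem pow_conj {G : Type} [Group G] {g x : G} {j : ℕ} (h : g * x * g⁻¹ = x ^ j) (m : ℕ) :
    g ^ m * x * (g ^ m)⁻¹ = x ^ (j ^ m) := by
  induction m with
  | zero => simp
  | succ m ih =>
    have h1 : g ^ (m + 1) * x * (g ^ (m + 1))⁻¹ = g * (g ^ m * x * (g ^ m)⁻¹) * g⁻¹ := by
      rw [pow_succ' g m]
      group
    rw [h1, ih]
    have h2 : g * x ^ (j ^ m) * g⁻¹ = (g * x * g⁻¹) ^ (j ^ m) := by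
      rw [_root_.conj_pow]
    rw [h2, h, ← pow_mul, pow_succ' j m]

theorem pow_of_modEq {G : Type} [Group G] {x : G} {n a b : ℕ} (hx : x ^ n = 1)
    (h : a ≡ b [MOD n]) : x ^ a = x ^ b :=
  pow_eq_pow_iff_modEq.2 (h.of_dvd (orderOf_dvd_of_pow_eq_one hx))

/-- odd `j ≡ 1 mod r` has order a power of two modulo `2 ^ k * r` -/
theorem pow_two_pow_modEq {j k r : ℕ} (hj : Odd j) (hr : Odd r) (hjr : j ≡ 1 [MOD r]) :
    j ^ (2 ^ k) ≡ 1 [MOD 2 ^ k * r] := by
  have hcop : Nat.Coprime (2 ^ k) r := (Nat.coprime_two_left.2 hr).pow_left k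
  rw [← Nat.modEq_and_modEq_iff_modEq_mul hcop]
  refine ⟨odd_pow_two_pow hj k, ?_⟩
  simpa using hjr.pow (2 ^ k)

end E03_aux

open E03_aux

theorem op_normal {G : Type} [Group G] [Finite G] (h : OP G) (N : Subgroup G) [N.Normal]
    (hN : Odd N.index) : OP N := by
  intro x k r j hx hr hj hjr
  have hx' : (x : G) ^ (2 ^ k * r) = 1 := by
    have := congrArg (Subtype.val : N → G) hx
    simpa using this
  obtain ⟨g, hg⟩ := h (x : G) k r j hx' hr hj hjr
  obtain ⟨a, b, hb, hab⟩ := Nat.exists_eq_two_pow_mul_odd (n := orderOf g) (orderOf_pos g).ne'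
  have hcop : Nat.Coprime (2 ^ a) b := (Nat.coprime_two_left.2 hb).pow_left a
  obtain ⟨m0, hm1, hm2⟩ := Nat.chineseRemainder hcop 1 0
  -- a positive solution
  obtain ⟨t, s, hmt⟩ : ∃ t s : ℕ, 1 + 2 ^ a * t = b * s := by
    have h1 : m0 + 2 ^ a * b ≡ 1 [MOD 2 ^ a] := by
      have : 2 ^ a * b ≡ 0 [MOD 2 ^ a] := (Nat.modEq_zero_iff_dvd).2 (dvd_mul_right _ _)
      simpa using hm1.add this
    have hpos : 1 ≤ m0 + 2 ^ a * b := by
      have : 0 < 2 ^ a * b := Nat.mul_pos (by positivity) hb.pos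
      omega
    obtain ⟨t, ht⟩ := (Nat.modEq_iff_dvd' hpos).1 h1.symm
    obtain ⟨s, hs⟩ := (Nat.modEq_zero_iff_dvd).1 hm2
    refine ⟨t, s + 2 ^ a, ?_⟩
    have : m0 + 2 ^ a * b = b * (s + 2 ^ a) := by rw [hs]; ring
    omega
  set m := 1 + 2 ^ a * t with hm
  -- `g ^ m` lies in `N`
  have hgm : (g ^ m) ^ (2 ^ a) = 1 := by
    have h1 : m * 2 ^ a = orderOf g * s := by rw [hmt, hab]; ring
    rw [← pow_mul, h1, pow_mul, pow_orderOf_eq_one, one_pow]
  have hmem : g ^ m ∈ N := by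
    rw [← QuotientGroup.eq_one_iff, ← orderOf_eq_one_iff]
    have h1 : orderOf ((g ^ m : G) : G ⧸ N) ∣ 2 ^ a := by
      apply orderOf_dvd_of_pow_eq_one
      rw [← QuotientGroup.mk_pow, hgm]
      rfl
    have h2 : orderOf ((g ^ m : G) : G ⧸ N) ∣ N.index := by
      apply orderOf_dvd_of_pow_eq_one
      rw [← QuotientGroup.mk_pow, QuotientGroup.eq_one_iff]
      exact N.pow_index_mem _
    exact Nat.eq_one_of_dvd_coprimes ((Nat.coprime_two_left.2 hN).pow_left a) h1 h2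
  -- the exponent
  have hpow : (x : G) ^ (j ^ m) = (x : G) ^ j := by
    set o := orderOf (x : G) with ho
    have ho1 : o ∣ 2 ^ k * r := orderOf_dvd_of_pow_eq_one hx'
    set e := orderOf (j : ZMod o) with he
    have he1 : e ∣ 2 ^ k := by
      apply orderOf_dvd_of_pow_eq_one
      have := (pow_two_pow_modEq (k := k) hj hr hjr).of_dvd ho1
      have := (ZMod.natCast_eq_natCast_iff _ _ _).2 this
      push_cast at this
      exact this
    have he2 : e ∣ 2 ^ a * b := by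
      apply orderOf_dvd_of_pow_eq_one
      have h1 := pow_conj hg (2 ^ a * b)
      rw [← hab, pow_orderOf_eq_one] at h1
      have h2 : (x : G) ^ (j ^ orderOf g) = (x : G) ^ 1 := by
        rw [← h1]; simp
      have h3 := pow_eq_pow_iff_modEq.1 h2
      have h4 := (ZMod.natCast_eq_natCast_iff _ _ _).2 h3
      push_cast at h4
      rw [← hab]
      exact h4
    have he3 : e ∣ 2 ^ a := by
      obtain ⟨i, -, hi⟩ := (Nat.dvd_prime_pow Nat.prime_two).1 he1
      rw [hi] at he2 ⊢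
      exact (((Nat.coprime_two_left.2 hb).pow_left i).dvd_of_dvd_mul_right he2)
    have h5 : (j : ZMod o) ^ m = (j : ZMod o) := by
      obtain ⟨u, hu⟩ := he3
      rw [hm, pow_add, pow_one, hu, mul_assoc, pow_mul (j : ZMod o) e, he, pow_orderOf_eq_one,
        one_pow, mul_one]
    apply pow_eq_pow_iff_modEq.2
    rw [← ZMod.natCast_eq_natCast_iff]
    push_cast
    exact h5
  refine ⟨⟨g ^ m, hmem⟩, ?_⟩
  apply Subtype.ext
  show g ^ m * (x : G) * (g ^ m)⁻¹ = _
  rw [pow_conj hg m, hpow]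
  simp

theorem op_quot {G H : Type} [Group G] [Finite G] [Group H] (h : OP G) (f : G →* H)
    (hf : Function.Surjective f) : OP H := by
  intro y k r j hy hr hj hjr
  obtain ⟨x, rfl⟩ := hf y
  obtain ⟨k', r', hr', hc⟩ := Nat.exists_eq_two_pow_mul_odd (n := Nat.card G) Nat.card_pos.ne'
  have hcop : Nat.Coprime (2 ^ (k + k' + 1)) (r * r') :=
    (Nat.coprime_two_left.2 (hr.mul hr')).pow_left _
  obtain ⟨i, hi1, hi2⟩ := Nat.chineseRemainder hcop j 1
  have hiodd : Odd i := by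
    have h1 : i ≡ j [MOD 2] := hi1.of_dvd (dvd_pow_self 2 (by omega))
    rw [Nat.odd_iff] at hj ⊢
    rw [← hj]
    exact h1
  obtain ⟨g, hg⟩ := h x k' r' i (by rw [← hc]; exact pow_card_eq_one') hr' hiodd
    (hi2.of_dvd (dvd_mul_left _ _))
  refine ⟨f g, ?_⟩
  have h1 : f g * f x * (f g)⁻¹ = (f x) ^ i := by
    rw [← map_inv, ← map_mul, ← map_mul, hg, map_pow]
  rw [h1]
  apply pow_of_modEq hy
  have hcop2 : Nat.Coprime (2 ^ k) r := (Nat.coprime_two_left.2 hr).pow_left k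
  rw [← Nat.modEq_and_modEq_iff_modEq_mul hcop2]
  refine ⟨hi1.of_dvd (pow_dvd_pow 2 (by omega)), ?_⟩
  exact (hi2.of_dvd (dvd_mul_right _ _)).trans hjr.symm

variable {Ω : Type} [Field Ω] [IsAlgClosed Ω] [CharZero Ω] {G : Type} [Group G] [Finite G]

namespace E03_aux

/-- if `T ^ n = 1` and `σ ζ = ζ ^ j` on the `n`-th roots of unity, then `σ (tr T) = tr (T ^ j)` -/
theorem trace_pow {V : Type} [AddCommGroup V] [Module Ω V] [FiniteDimensional Ω V]
    (T : Module.End Ω V) {n j : ℕ} (hn : n ≠ 0) (hT : T ^ n = 1) {σ : RingAut Ω}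
    (hσ : ∀ ζ : Ω, ζ ^ n = 1 → σ ζ = ζ ^ j) :
    σ (LinearMap.trace Ω V T) = LinearMap.trace Ω V (T ^ j) := by
  have hss : T.IsSemisimple := by
    have hsq : Squarefree (Polynomial.X ^ n - 1 : Polynomial Ω) := by
      apply Polynomial.Separable.squarefree
      have := Polynomial.separable_X_pow_sub_C (1 : Ω) (n := n) (by exact_mod_cast hn) one_ne_zero
      simpa using this
    refine Module.End.isSemisimple_of_squarefree_aeval_eq_zero hsq ?_
    rw [map_sub, map_pow, Polynomial.aeval_X, map_one, hT, sub_self]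
  have hint : DirectSum.IsInternal (fun μ : Ω => T.eigenspace μ) :=
    DirectSum.isInternal_submodule_of_iSupIndep_of_iSup_eq_top T.eigenspaces_iSupIndep
      hss.iSup_eigenspace_eq_top
  have hfin : {μ : Ω | T.eigenspace μ ≠ ⊥}.Finite :=
    WellFoundedGT.finite_ne_bot_of_iSupIndep T.eigenspaces_iSupIndep
  -- powers of `T` on the eigenspaces
  have hpow : ∀ (i : ℕ) (μ : Ω) (v : V), v ∈ T.eigenspace μ → (T ^ i) v = μ ^ i • v := by
    intro i μ v hv
    induction i with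
    | zero => simp
    | succ i ih =>
      rw [pow_succ', Module.End.mul_apply, ih, map_smul, Module.End.mem_eigenspace_iff.1 hv,
        smul_smul, pow_succ]
  have htr : ∀ i : ℕ, LinearMap.trace Ω V (T ^ i) =
      ∑ μ ∈ hfin.toFinset, μ ^ i * (Module.finrank Ω (T.eigenspace μ) : Ω) := by
    intro i
    have hmaps : ∀ μ : Ω, Set.MapsTo (T ^ i) (T.eigenspace μ) (T.eigenspace μ) := by
      intro μ v hv
      rw [hpow i μ v hv]
      exact (T.eigenspace μ).smul_mem _ hv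
    rw [LinearMap.trace_eq_sum_trace_restrict' hint hfin hmaps]
    refine Finset.sum_congr rfl fun μ _ => ?_
    have h1 : (T ^ i).restrict (hmaps μ) = μ ^ i • LinearMap.id := by
      ext v
      show (T ^ i) (v : V) = _
      rw [hpow i μ v v.2]
      rfl
    rw [h1, map_smul, LinearMap.trace_id, smul_eq_mul]
  have hroot : ∀ μ ∈ hfin.toFinset, μ ^ n = 1 := by
    intro μ hμ
    rw [Set.Finite.mem_toFinset, Set.mem_ofPred_eq, Submodule.ne_bot_iff] at hμ
    obtain ⟨v, hv, hv0⟩ := hμ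
    have h1 := hpow n μ v hv
    rw [hT, Module.End.one_apply] at h1
    have h2 : (μ ^ n - 1) • v = 0 := by rw [sub_smul, one_smul, ← h1, sub_self]
    rcases smul_eq_zero.1 h2 with h3 | h3
    · exact sub_eq_zero.1 h3
    · exact absurd h3 hv0
  rw [← pow_one T, htr 1, ← pow_mul, one_mul, htr j, map_sum]
  refine Finset.sum_congr rfl fun μ hμ => ?_
  rw [map_mul, map_natCast, pow_one, hσ μ (hroot μ hμ)]

end E03_aux

theorem op_fixed (h : OP G) {k r : ℕ} (hx : ∀ x : G, x ^ (2 ^ k * r) = 1) (hr : Odd r)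
    {V : Type} [AddCommGroup V] [Module Ω V] [FiniteDimensional Ω V]
    (ρ : Representation Ω G V) {σ : RingAut Ω} (hσ : ∀ ζ : Ω, ζ ^ r = 1 → σ ζ = ζ) (g : G) :
    σ (ρ.character g) = ρ.character g := by
  have hn : 2 ^ k * r ≠ 0 := mul_ne_zero (pow_ne_zero _ two_ne_zero) hr.pos.ne'
  have : NeZero (2 ^ k * r) := ⟨hn⟩
  obtain ⟨ζ, hζ⟩ := HasEnoughRootsOfUnity.exists_primitiveRoot Ω (2 ^ k * r)
  -- the exponent
  obtain ⟨j, hj, hjr, hσj⟩ : ∃ j : ℕ, Odd j ∧ j ≡ 1 [MOD r] ∧ σ ζ = ζ ^ j := by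
    rcases Nat.eq_zero_or_pos k with rfl | hk
    · refine ⟨1, odd_one, rfl, ?_⟩
      rw [pow_one]
      apply hσ
      have := hζ.pow_eq_one
      rwa [pow_zero, one_mul] at this
    · have h3 : (σ ζ) ^ (2 ^ k * r) = 1 := by rw [← map_pow, hζ.pow_eq_one, map_one]
      obtain ⟨j, -, hj⟩ := hζ.eq_pow_of_pow_eq_one h3
      have hprim : IsPrimitiveRoot (ζ ^ j) (2 ^ k * r) := by
        rw [hj]
        exact hζ.map_of_injective (f := (σ : Ω →+* Ω)) σ.injective
      have hcop : Nat.Coprime j (2 ^ k * r) :=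
        (hζ.pow_iff_coprime (Nat.pos_of_ne_zero hn) j).1 hprim
      refine ⟨j, ?_, ?_, hj.symm⟩
      · have : Nat.Coprime j 2 :=
          Nat.Coprime.coprime_dvd_right ((dvd_pow_self 2 hk.ne').mul_right r) hcop
        exact Nat.coprime_two_right.1 this
      · -- `ζ ^ (2 ^ k)` is fixed
        have h4 : σ (ζ ^ 2 ^ k) = ζ ^ 2 ^ k := by
          apply hσ
          rw [← pow_mul, hζ.pow_eq_one]
        rw [map_pow, ← hj, ← pow_mul] at h4
        have h5 : j * 2 ^ k ≡ 1 * 2 ^ k [MOD 2 ^ k * r] := by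
          have := pow_eq_pow_iff_modEq (x := (hζ.isUnit hn).unit) (n := j * 2 ^ k) (m := 2 ^ k)
          have h6 : (hζ.isUnit hn).unit ^ (j * 2 ^ k) = (hζ.isUnit hn).unit ^ (2 ^ k) := by
            apply Units.ext
            push_cast
            exact h4
          have h7 := this.1 h6
          rw [← orderOf_units, IsUnit.unit_spec, ← hζ.eq_orderOf] at h7
          rw [one_mul]
          exact h7
        rw [mul_comm j, mul_comm 1] at h5
        exact Nat.ModEq.mul_left_cancel' (pow_ne_zero k two_ne_zero) h5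
  have hall : ∀ ξ : Ω, ξ ^ (2 ^ k * r) = 1 → σ ξ = ξ ^ j := by
    intro ξ hξ
    obtain ⟨i, -, hi⟩ := hζ.eq_pow_of_pow_eq_one hξ
    rw [← hi, map_pow, hσj, ← pow_mul, ← pow_mul, mul_comm]
  have h1 : σ (ρ.character g) = ρ.character (g ^ j) := by
    show σ (LinearMap.trace Ω V (ρ g)) = LinearMap.trace Ω V (ρ (g ^ j))
    rw [map_pow]
    apply trace_pow _ hn _ hall
    rw [← map_pow, hx g, map_one]
  obtain ⟨y, hy⟩ := h g k r j (hx g) hr hj hjr
  rw [h1, ← hy]
  exact Representation.char_conj ρ g y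

theorem op_propB (h : OP G) (c : Parker.Ctx Ω) : Parker.PropB c 1 G := by
  intro Γ hΓ n ρ _ _ _ d hd hd'
  obtain ⟨k, r, hr, hc⟩ := Nat.exists_eq_two_pow_mul_odd (n := Nat.card G) Nat.card_pos.ne'
  refine Parker.inV_unramified hΓ hr hd fun σ hσ hζ => ?_
  rw [hd' σ hσ, if_pos]
  intro g
  exact op_fixed h (k := k) (r := r) (fun x => by rw [← hc]; exact pow_card_eq_one') hr ρ hζ g

end

end ParkerGL
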