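import Pool.Agent.ParkerGL.E02
import Pool.Agent.ParkerGL.E03
import Pool.Agent.ParkerGL.E04
import Pool.Agent.Parker.N01
import Pool.Agent.Parker.P46
import Pool.Agent.Parker.P50

/-!
# MP_6c3636_al, GL_n(q), module E05: assembly (helper7)

* `gl_propA`: given `Γ` (`Parker.Ok c 1 Γ`), let `|Gn F n| = 2 ^ k * r`, `r` odd, `Γ' = {σ ∈ Γ : σ ζ = ζ for ζ ^ r = 1}`. For `m ≤ n` `|Gn F m|` divides `|Gn F n|` (`Gn F m` embeds: `y ↦ blk (ext y 1 0)`), so `x ^ (2 ^ k * r) = 1`
  for all `x ∈ Gn F m`, and `AllFx F Γ' n` by `op_gl`, `op_fixed`. By `good_all` and `Parker.sqV_of_good` (P06) the absolute value of the determinant is in `SqV c Γ'`, so in `SqV c Γ` by `Parker.sqV_unram` (N01).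
* `gl_parker`: for every group `H` which is an image of a normal subgroup `N` of odd index and abelian quotient of `GL_n(F)`: `PropA`, `PropB` for `Gn F n ≃ GL (Fin n) F`, then `propA_normal`,
  `op_normal`, `propA_quot`, `op_quot`, `op_propB`, `Parker.parker_of_AB`.
* `sl_index`: `SL_n(F)` is the kernel of `det : GL_n(F) → Fˣ`, `|Fˣ| = q - 1` is odd. A subgroup `N` of `GL_n(F)` containing `SL_n(F)` is normal with abelian quotient and index dividing `q - 1`.
-/

namespace ParkerGL

noncomputable section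

open Classical Matrix

variable {F : Type} [Field F] [Finite F] [CharP F 2]

/-- `Gn F m` embeds in `Gn F n` -/
private def emb {m k n : ℕ} (h : m + k = n) : Gn F m →* Gn F n where
  toFun y := blk F h (ext y 1 0)
  map_one' := by
    have h1 : (ext (1 : Gn F m) (1 : Gn F k) 0 : GV F ((Fin m → F) × (Fin k → F))) = 1 := by
      ext1 p
      apply Prod.ext
      · show p.1 + 0 = p.1
        simp
      · rfl
    rw [h1, map_one]
  map_mul' y y' := by
    have h1 : (ext (y * y') (1 : Gn F k) 0 : GV F ((Fin m → F) × (Fin k → F))) =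
        ext y 1 0 * ext y' 1 0 := by
      ext1 p
      apply Prod.ext
      · show y (y' p.1) + 0 = y (y' p.1 + 0) + 0
        simp
      · rfl
    rw [h1, map_mul]

private theorem emb_inj {m k n : ℕ} (h : m + k = n) :
    Function.Injective (emb (F := F) h) := by
  intro y y' hy
  have h1 : (ext y (1 : Gn F k) 0 : GV F ((Fin m → F) × (Fin k → F))) = ext y' 1 0 :=
    (blk F h).injective hy
  ext1 v
  have h2 : (ext y (1 : Gn F k) 0 : GV F ((Fin m → F) × (Fin k → F))) (v, 0) =
      ext y' (1 : Gn F k) 0 (v, 0) := by rw [h1]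
  rw [ext_apply, ext_apply] at h2
  have h3 := congrArg Prod.fst h2
  simpa using h3

/-- the elements of `Γ` which fix the `r`-th roots of unity -/
private def fixRoots {Ω : Type} [Field Ω] (Γ : Subgroup (RingAut Ω)) (r : ℕ) :
    Subgroup (RingAut Ω) where
  carrier := {σ | σ ∈ Γ ∧ ∀ ζ : Ω, ζ ^ r = 1 → σ ζ = ζ}
  one_mem' := ⟨Γ.one_mem, fun _ _ => rfl⟩
  mul_mem' := by
    rintro σ τ ⟨h1, h2⟩ ⟨h3, h4⟩
    refine ⟨Γ.mul_mem h1 h3, fun ζ hζ => ?_⟩
    rw [RingAut.mul_apply, h4 ζ hζ, h2 ζ hζ]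
  inv_mem' := by
    rintro σ ⟨h1, h2⟩
    refine ⟨Γ.inv_mem h1, fun ζ hζ => ?_⟩
    have h3 : σ⁻¹ (σ ζ) = ζ := by
      rw [← RingAut.mul_apply, inv_mul_cancel, RingAut.one_apply]
    rw [h2 ζ hζ] at h3
    exact h3

theorem gl_propA {Ω : Type} [Field Ω] [IsAlgClosed Ω] [CharZero Ω] (c : Parker.Ctx Ω) (n : ℕ) :
    Parker.PropA c 1 (Gn F n) := by
  intro Γ hΓ d ρ hρ hev hO hF s hs hk hd
  obtain ⟨k, r, hr, hcard⟩ := Nat.exists_eq_two_pow_mul_odd
    (n := Nat.card (Gn F n)) (Nat.card_pos.ne')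
  have hle : ∀ σ ∈ fixRoots Γ r, σ ∈ Γ := fun σ hσ => hσ.1
  have hAll : AllFx F (fixRoots Γ r) n := by
    intro m hm φ hφ g σ hσ
    obtain ⟨d', ρ', _, rfl⟩ := Parker.mem_irr.1 hφ
    have hx : ∀ x : Gn F m, x ^ (2 ^ k * r) = 1 := by
      intro x
      apply emb_inj (F := F) (Nat.add_sub_cancel' hm)
      rw [map_pow, map_one, ← hcard]
      exact pow_card_eq_one'
    exact op_fixed (op_gl m) hx hr ρ' hσ.2 g
  have hFx' : Parker.FxC (fixRoots Γ r) ρ := fun g σ hσ => hF g σ (hle σ hσ)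
  have hgood : Parker.GoodV c (fixRoots Γ r) ρ :=
    good_all hAll le_rfl hρ (by rw [Module.finrank_fin_fun]; exact hev) hO
  have hsq := Parker.sqV_of_good hρ hFx' hgood (fun g σ hσ => hs g σ (hle σ hσ)) hk hd
  have hback : ∀ σ ∈ Γ, (∀ ζ : Ω, ζ ^ r = 1 → σ ζ = ζ) → σ ∈ fixRoots Γ r :=
    fun σ hσ h => ⟨hσ, h⟩
  exact Parker.sqV_unram hΓ.pres hr hback hsq

/-- the group of the automorphisms of `F^n` is the matrix group -/
private def gle (n : ℕ) : Gn F n ≃* GL (Fin n) F :=
  (Matrix.GeneralLinearGroup.toLin.trans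
    (LinearMap.GeneralLinearGroup.generalLinearEquiv F (Fin n → F))).symm

private theorem odd_units : Odd (Nat.card Fˣ) := by
  have h1 : Even (Nat.card F) := by
    let _ := Fintype.ofFinite F
    obtain ⟨m, _, hm⟩ := FiniteField.card F 2
    rw [Nat.card_eq_fintype_card, hm]
    exact (Nat.even_pow' m.ne_zero).2 even_two
  rw [Nat.card_units]
  exact Nat.Even.sub_odd Nat.card_pos h1 odd_one

/-- images of groups between `SL_n(F)` and `GL_n(F)` -/
theorem gl_parker (n : ℕ) (N : Subgroup (GL (Fin n) F))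
    (hN : ∀ g : GL (Fin n) F, (g : Matrix (Fin n) (Fin n) F).det = 1 → g ∈ N)
    {H : Type} [Group H] (f : N →* H) (hf : Function.Surjective f) : Parker.ParkerOdd H := by
  have hfin : Finite (GL (Fin n) F) := Finite.of_equiv _ (gle (F := F) n).toEquiv
  have hA0 : Parker.PropA Parker.ctx2 1 (GL (Fin n) F) :=
    Parker.propA_congr (gle (F := F) n) (gl_propA Parker.ctx2 n)
  have hO0 : OP (GL (Fin n) F) :=
    op_quot (op_gl (F := F) n) (gle (F := F) n).toMonoidHom (gle (F := F) n).surjective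
  have hker : ∀ g : GL (Fin n) F, g ∈ (Matrix.GeneralLinearGroup.det (n := Fin n) (R := F)).ker →
      g ∈ N := by
    intro g hg
    apply hN
    rw [MonoidHom.mem_ker] at hg
    have h1 := congrArg Units.val hg
    rwa [Matrix.GeneralLinearGroup.val_det_apply, Units.val_one] at h1
  have hab : ∀ x y : GL (Fin n) F, x * y * x⁻¹ * y⁻¹ ∈ N := by
    intro x y
    apply hker
    rw [MonoidHom.mem_ker, map_mul, map_mul, map_mul, map_inv, map_inv,
      mul_comm (Matrix.GeneralLinearGroup.det x), mul_inv_cancel_right, mul_inv_cancel]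
  have hnor : N.Normal := by
    constructor
    intro x hx g
    have h1 : g * x * g⁻¹ = (g * x * g⁻¹ * x⁻¹) * x := by rw [inv_mul_cancel_right]
    rw [h1]
    exact N.mul_mem (hab g x) hx
  have hodd : Odd N.index := by
    have h1 : N.index ∣ (Matrix.GeneralLinearGroup.det (n := Fin n) (R := F)).ker.index :=
      Subgroup.index_dvd_of_le hker
    rw [Subgroup.index_ker] at h1
    have h2 := h1.trans (Subgroup.card_subgroup_dvd_card _)
    exact Odd.of_dvd_nat (odd_units (F := F)) h2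
  have hfH : Finite H := Finite.of_surjective f hf
  have hA1 := propA_normal Parker.ctx2 hA0 N hodd hab
  have hO1 := op_normal hO0 N hodd
  have hA2 := propA_quot Parker.ctx2 hA1 f hf
  have hO2 := op_quot hO1 f hf
  exact Parker.parker_of_AB hA2 (op_propB hO2 Parker.ctx2)

end

end ParkerGL
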