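import Pool.Agent.Parker.P06
import Pool.Agent.Parker.P18
import Pool.Agent.Parker.P26
import Pool.Agent.Parker.P29
import Pool.Agent.Parker.P32
import Pool.Agent.Parker.N02

/-!
# MP_6c3636_al, module F02: index two (helper7)

* `propA_two`: `Parker.good_index_two` (P18) with `m = 1` and `Parker.sqV_of_good` (P06).
* `propB_two`: `ρ` irreducible of odd dimension `n` with character `ψ`, `γ`, `d` as in `PropB c 1 G`. Let `τ = rs H ρ`.
  (a) If `x` has order `2 ^ k`, then `c.av (ψ x) = 1` (`av_char_two`): `ψ x` is a sum of `n` (odd)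
  `2 ^ k`-th roots of unity, so `ψ x ^ (2 ^ k) = n + 2 w` with `w` integral.
  (b) `τ` is irreducible: otherwise `ψ = sg ψ` vanishes outside of `H`.
  (c) If some `σ ∈ Γ` with `¬ Fixes σ ρ` has `Fixes σ τ`, then for all `σ ∈ Γ` with
  `¬ Fixes σ ρ` one has `σ ψ = sg ψ`; let `x ∉ H` be a `2`-element and `e = ψ x`, `c.av e = 1`. Then `σ e = e` if `σ` fixes `ρ` and
  `σ e = - e` otherwise, so `Parker.P26_aux.compare` (P26) gives the claim.
  (d) Otherwise `Fixes σ τ ↔ Fixes σ ρ` for all `σ ∈ Γ`, and `PropB` for `H` (`Parker.propB_gen` in P13, for `τ`) gives the claim.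
-/

namespace ParkerGL

noncomputable section

open Classical

namespace F02_aux

open Parker

section av

variable {Ω : Type} [Field Ω] [IsAlgClosed Ω] [CharZero Ω] {c : Parker.Ctx Ω}

theorem av_int {x : Ω} (hx : IsIntegral ℤ x) : c.av x ≤ 1 := by
  have h1 : IsIntegral (vr c) x := hx.tower_top
  obtain ⟨y, hy⟩ := IsIntegrallyClosed.isIntegral_iff.1 h1
  rw [← hy]
  exact y.2

theorem av_nat (h2 : c.av 2 = 1) {n : ℕ} (hn : n ≠ 0) : c.av (n : Ω) = 1 := by
  obtain ⟨a, r, hr, hnr⟩ := Nat.exists_eq_two_pow_mul_odd hn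
  rw [hnr]
  push_cast
  rw [map_mul, map_pow, h2, one_pow, one_mul]
  exact c.odd r hr

theorem av_eq_one (h2 : c.av 2 = 1) {x : Ω} (hx : IsIntegral ℤ x) (h0 : x ≠ 0) :
    c.av x = 1 := by
  refine le_antisymm (av_int hx) ?_
  have hxi : IsAlgebraic ℤ x⁻¹ := hx.isAlgebraic.inv
  obtain ⟨z, hz0, hz⟩ := hxi.exists_integral_multiple
  have h3 := av_int (c := c) hz
  have h4 : c.av (z : Ω) = 1 := by
    have h5 : ((z.natAbs : ℕ) : Ω) = (z : Ω) ∨ ((z.natAbs : ℕ) : Ω) = -(z : Ω) := by
      rcases Int.natAbs_eq z with h | h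
      · left
        have := congrArg (fun t : ℤ => (t : Ω)) h
        simpa using this.symm
      · right
        have := congrArg (fun t : ℤ => (t : Ω)) h
        simp only [Int.cast_neg, Int.cast_natCast] at this
        rw [this, neg_neg]
    have h6 := av_nat (c := c) h2 (n := z.natAbs) (by simpa using hz0)
    rcases h5 with h | h
    · rw [← h]; exact h6
    · rw [h, AbsoluteValue.map_neg] at h6; exact h6
  have h7 : z • x⁻¹ = (z : Ω) * x⁻¹ := by simp
  rw [h7, map_mul, h4, one_mul, map_inv₀] at h3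
  have h8 : 0 < c.av x := c.av.pos h0
  by_contra hlt
  push Not at hlt
  have := (one_lt_inv₀ h8).2 hlt
  linarith

theorem sq_sum (s : Multiset Ω) (hs : ∀ x ∈ s, IsIntegral ℤ x) :
    ∃ w : Ω, IsIntegral ℤ w ∧ s.sum ^ 2 = (s.map (fun x => x ^ 2)).sum + 2 * w := by
  induction s using Multiset.induction_on with
  | empty => exact ⟨0, isIntegral_zero, by simp⟩
  | cons a s ih =>
    obtain ⟨w, hw, h⟩ := ih fun x hx => hs x (Multiset.mem_cons_of_mem hx)
    have ha := hs a (Multiset.mem_cons_self a s)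
    have hS : IsIntegral ℤ s.sum :=
      IsIntegral.multiset_sum fun x hx => hs x (Multiset.mem_cons_of_mem hx)
    refine ⟨w + a * s.sum, hw.add (ha.mul hS), ?_⟩
    rw [Multiset.sum_cons, Multiset.map_cons, Multiset.sum_cons]
    linear_combination h

theorem pow_sum (s : Multiset Ω) (hs : ∀ x ∈ s, IsIntegral ℤ x) (k : ℕ) :
    ∃ w : Ω, IsIntegral ℤ w ∧
      s.sum ^ (2 ^ k) = (s.map (fun x => x ^ (2 ^ k))).sum + 2 * w := by
  induction k with
  | zero => exact ⟨0, isIntegral_zero, by simp⟩
  | succ k ih =>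
    obtain ⟨w, hw, h⟩ := ih
    have hs' : ∀ y ∈ s.map (fun x => x ^ (2 ^ k)), IsIntegral ℤ y := by
      intro y hy
      obtain ⟨x, hx, rfl⟩ := Multiset.mem_map.1 hy
      exact (hs x hx).pow _
    obtain ⟨w', hw', h'⟩ := sq_sum _ hs'
    have hS : IsIntegral ℤ (s.map (fun x => x ^ (2 ^ k))).sum := IsIntegral.multiset_sum hs'
    have h2 : IsIntegral ℤ (2 : Ω) := by
      have : (2 : Ω) = algebraMap ℤ Ω 2 := by simp
      rw [this]; exact isIntegral_algebraMap
    refine ⟨w' + 2 * (s.map (fun x => x ^ (2 ^ k))).sum * w + 2 * w ^ 2,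
      (hw'.add ((h2.mul hS).mul hw)).add (h2.mul (hw.pow 2)), ?_⟩
    rw [pow_succ, pow_mul, h]
    have h3 : (s.map (fun x => x ^ (2 ^ k * 2))).sum =
        ((s.map (fun x => x ^ (2 ^ k))).map (fun x => x ^ 2)).sum := by
      rw [Multiset.map_map]
      congr 1
      apply Multiset.map_congr rfl
      intro x _
      simp only [Function.comp_apply]
      rw [pow_mul]
    rw [h3]
    linear_combination h'

end av

section main

variable {Ω : Type} [Field Ω] [IsAlgClosed Ω] [CharZero Ω] {c : Parker.Ctx Ω}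
  {G : Type} [Group G] [Finite G]

/-- the value of a character of odd degree at a `2`-element is a unit -/
theorem av_char_two {n : ℕ} (ρ : Representation Ω G (Fin n → Ω)) (hn : Odd n) {x : G} {k : ℕ}
    (hx : x ^ (2 ^ k) = 1) : c.av (ρ.character x) = 1 := by
  obtain ⟨h1, h2⟩ := P08_aux.char_sum ρ hx
  have hint : ∀ ζ ∈ (ρ x).charpoly.roots, IsIntegral ℤ ζ := by
    intro ζ hζ
    refine IsIntegral.of_pow (n := 2 ^ k) (by positivity) ?_
    rw [h2 ζ hζ]
    exact isIntegral_one
  obtain ⟨w, hw, h3⟩ := pow_sum _ hint k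
  have h4 : ((ρ x).charpoly.roots.map (fun x => x ^ (2 ^ k))).sum = (n : Ω) := by
    have h5 : (ρ x).charpoly.roots.map (fun x => x ^ (2 ^ k)) =
        (ρ x).charpoly.roots.map (fun _ => (1 : Ω)) :=
      Multiset.map_congr rfl fun ζ hζ => h2 ζ hζ
    rw [h5, Multiset.map_const', Multiset.sum_replicate, nsmul_eq_mul, mul_one]
    congr 1
    have h6 : (ρ x).charpoly.roots.card = (ρ x).charpoly.natDegree :=
      (IsAlgClosed.splits (ρ x).charpoly).natDegree_eq_card_roots.symm
    rw [h6, LinearMap.charpoly_natDegree, Module.finrank_fin_fun]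
  rw [← h1, h4] at h3
  have hE : IsIntegral ℤ (ρ.character x) := P32_aux.char_integral ρ x
  have hodd := c.odd n hn
  have key : c.av ((n : Ω) + 2 * w) = 1 := by
    have h2le : c.av (2 : Ω) ≤ 1 := by
      have : (2 : Ω) = 1 + 1 := by norm_num
      rw [this]
      refine (c.na 1 1).trans ?_
      rw [map_one, max_self]
    rcases lt_or_eq_of_le h2le with hlt | heq
    · have h5 : c.av (2 * w) < 1 := by
        rw [map_mul]
        have := av_int (c := c) hw
        have h6 := c.av.nonneg w
        have h7 := c.av.nonneg (2 : Ω)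
        nlinarith
      apply le_antisymm
      · refine (c.na _ _).trans (max_le hodd.le h5.le)
      · have h6 := c.na ((n : Ω) + 2 * w) (-(2 * w))
        rw [add_neg_cancel_right, hodd, AbsoluteValue.map_neg] at h6
        rcases le_max_iff.1 h6 with h | h
        · exact h
        · linarith
    · apply av_eq_one heq
      · rw [← h3]; exact hE.pow _
      · intro h0
        have h5 : 2 * (-w) = ((n : ℤ) : Ω) := by
          push_cast
          linear_combination -h0
        obtain ⟨m, hm⟩ := P32_aux.exists_int_of_two_mul hw.neg h5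
        obtain ⟨r, hr⟩ := hn
        omega
  rw [← h3, map_pow] at key
  exact (pow_eq_one_iff_of_nonneg (c.av.nonneg _) (by positivity)).1 key

/-- a `2`-element outside of a subgroup of index two -/
theorem exists_two_elt {H : Subgroup G} (hH : H.index = 2) :
    ∃ (x : G) (k : ℕ), x ∉ H ∧ x ^ (2 ^ k) = 1 := by
  obtain ⟨y, hy⟩ : ∃ y, y ∉ H := by
    by_contra hcon
    push Not at hcon
    have : H = ⊤ := by
      rw [eq_top_iff]
      intro y _
      exact hcon y
    rw [this, Subgroup.index_top] at hH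
    omega
  obtain ⟨a, r, hr, hnr⟩ := Nat.exists_eq_two_pow_mul_odd (orderOf_pos y).ne'
  refine ⟨y ^ r, a, ?_, ?_⟩
  · obtain ⟨m, hm⟩ := hr
    rw [hm, pow_succ, pow_mul]
    have h1 : (y ^ 2) ^ m ∈ H := H.pow_mem (Subgroup.sq_mem_of_index_two hH y) m
    rw [Subgroup.mul_mem_iff_of_index_two hH]
    simp [h1, hy]
  · rw [← pow_mul, mul_comm, ← hnr, pow_orderOf_eq_one]

/-- restriction to a subgroup of index two -/
theorem ip_res {H : Subgroup G} (hH : H.index = 2) (f g : G → Ω) :
    ip (fun y : H => f y) (fun y : H => g y) =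
      ip f g + ip f (fun x => P18_aux.sg Ω H x * g x) := by
  have := Fintype.ofFinite G
  have : Fintype H := Fintype.ofFinite H
  have hcard : (Nat.card G : Ω) = 2 * (Nat.card H : Ω) := by
    have := H.card_mul_index
    rw [hH] at this
    rw [← this]; push_cast; ring
  have hH0 : (Nat.card H : Ω) ≠ 0 := by
    have : Nat.card H ≠ 0 := Nat.card_pos.ne'
    exact_mod_cast this
  rw [ip_eq, ip_eq, ip_eq, ← mul_add, ← Finset.sum_add_distrib, hcard]
  have h3 : ∑ x : G, (f x * g x⁻¹ + f x * (P18_aux.sg Ω H x⁻¹ * g x⁻¹)) =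
      ∑ x : G, if x ∈ H then 2 * (f x * g x⁻¹) else 0 := by
    refine Finset.sum_congr rfl fun x _ => ?_
    rw [P18_aux.sg_inv]
    by_cases hg : x ∈ H
    · simp [P18_aux.sg, hg]; ring
    · simp [P18_aux.sg, hg]
  rw [h3, ← Finset.sum_filter]
  have h4 : ∑ x ∈ Finset.univ.filter (fun x : G => x ∈ H), 2 * (f x * g x⁻¹) =
      ∑ y : H, 2 * (f y * g ((y⁻¹ : H) : G)) := by
    symm
    refine Finset.sum_bij (fun (y : H) _ => (y : G)) ?_ ?_ ?_ ?_
    · intro y _; simp
    · intro y _ y' _ h; exact Subtype.ext h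
    · intro x hx
      simp only [Finset.mem_filter, Finset.mem_univ, true_and] at hx
      exact ⟨⟨x, hx⟩, Finset.mem_univ _, rfl⟩
    · intro y _; rfl
  rw [h4, ← Finset.mul_sum]
  field_simp

end main

end F02_aux

variable {Ω : Type} [Field Ω] [IsAlgClosed Ω] [CharZero Ω] {c : Parker.Ctx Ω}
  {G : Type} [Group G] [Finite G]

theorem propA_two {H : Subgroup G} (hH : H.index = 2) (hA : Parker.PropA c 1 H)
    (hB : Parker.PropB c 1 H) : Parker.PropA c 1 G := by
  refine Parker.propA_of_good fun Γ hΓ n ρ hρ hn hO hF => ?_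
  exact Parker.good_index_two hρ (by rw [Module.finrank_fin_fun]; exact hn) hO hF hΓ hH hA hB

theorem propB_two {H : Subgroup G} (hH : H.index = 2) (hB : Parker.PropB c 1 H) :
    Parker.PropB c 1 G := by
  intro Γ hΓ n ρ hρ hn hγ d hd hσ
  obtain ⟨x, k, hx, hxk⟩ := F02_aux.exists_two_elt hH
  have hav : c.av (ρ.character x) = 1 := F02_aux.av_char_two ρ hn hxk
  have he0 : ρ.character x ≠ 0 := by
    intro h0
    rw [h0, map_zero] at hav
    exact zero_ne_one hav
  set ψ' := Parker.P18_aux.twist ρ H hH with hψ'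
  have hirr' : ψ'.IsIrreducible := Parker.P18_aux.twist_irr hρ hH
  have hch' : (fun g => Parker.P18_aux.sg Ω H g * ρ.character g) = ψ'.character := by
    funext g
    exact (Parker.P18_aux.twist_char ρ hH g).symm
  have hsgx : Parker.P18_aux.sg Ω H x = -1 := by
    simp [Parker.P18_aux.sg, hx]
  have hne : ρ.character ≠ ψ'.character := by
    intro h
    have h1 := congrFun h x
    rw [← hch'] at h1
    simp only [hsgx] at h1
    apply he0
    have h2 : 2 * ρ.character x = 0 := by linear_combination h1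
    rcases mul_eq_zero.1 h2 with h3 | h3
    · exact absurd h3 two_ne_zero
    · exact h3
  -- the restriction is irreducible
  have hτ : (Parker.rs H ρ).IsIrreducible := by
    rw [Parker.irr_iff_ip]
    have h1 := F02_aux.ip_res hH ρ.character ρ.character
    have h2 : Parker.ip ρ.character ρ.character = 1 := (Parker.irr_iff_ip ρ).1 hρ
    rw [hch', Parker.ip_of_ne hρ hirr' hne, h2, add_zero] at h1
    exact h1
  -- automorphisms fixing the restriction
  have hfix : ∀ σ : RingAut Ω, Parker.Fixes σ (Parker.rs H ρ) → ¬ Parker.Fixes σ ρ →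
      ∀ g, σ (ρ.character g) = Parker.P18_aux.sg Ω H g * ρ.character g := by
    intro σ h1 h2
    have hti := Parker.tw_irr σ hρ
    have hne1 : (Parker.tw σ ρ).character ≠ ρ.character := by
      intro h
      apply h2
      intro g
      rw [← Parker.tw_char, h]
    have h3 := F02_aux.ip_res hH (Parker.tw σ ρ).character ρ.character
    rw [hch', Parker.ip_of_ne hti hρ hne1, zero_add] at h3
    have h4 : Parker.ip (fun y : H => (Parker.tw σ ρ).character y)
        (fun y : H => ρ.character y) = 1 := by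
      have h5 : (fun y : H => (Parker.tw σ ρ).character y) = (Parker.rs H ρ).character := by
        funext y
        rw [Parker.tw_char]
        exact h1 y
      rw [h5]
      exact (Parker.irr_iff_ip (Parker.rs H ρ)).1 hτ
    rw [h4] at h3
    have h6 : (Parker.tw σ ρ).character = ψ'.character := by
      by_contra hcon
      rw [Parker.ip_of_ne hti hirr' hcon] at h3
      exact one_ne_zero h3
    intro g
    rw [← Parker.tw_char, h6, ← hch']
  by_cases hex : ∃ σ ∈ Γ, Parker.Fixes σ (Parker.rs H ρ) ∧ ¬ Parker.Fixes σ ρ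
  · obtain ⟨σ₀, hσ₀, h1, h2⟩ := hex
    refine Parker.P26_aux.compare (P := fun σ => Parker.Fixes σ ρ) hd he0 hσ ?_ hav
    intro σ hs
    by_cases h3 : Parker.Fixes σ ρ
    · rw [if_pos h3]
      exact h3 x
    · rw [if_neg h3]
      have h4 : σ d = -d := by rw [hσ σ hs, if_neg h3]
      have h5 : σ₀ d = -d := by rw [hσ σ₀ hσ₀, if_neg h2]
      have hmem : σ₀⁻¹ * σ ∈ Γ := Γ.mul_mem (Γ.inv_mem hσ₀) hs
      have h6 : (σ₀⁻¹ * σ) d = d := by
        rw [RingAut.mul_apply, h4, ← h5]
        exact RingEquiv.symm_apply_apply σ₀ d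
      have h7 : Parker.Fixes (σ₀⁻¹ * σ) ρ := by
        by_contra hcon
        have h8 := hσ _ hmem
        rw [if_neg hcon, h6] at h8
        exact hd (self_eq_neg.1 h8)
      have h8 := h7 x
      rw [RingAut.mul_apply] at h8
      have h9 : σ (ρ.character x) = σ₀ (ρ.character x) := by
        have h10 := congrArg σ₀ h8
        have h11 : σ₀ (σ₀⁻¹ (σ (ρ.character x))) = σ (ρ.character x) :=
          RingEquiv.apply_symm_apply σ₀ _
        rw [h11] at h10
        exact h10
      rw [h9, hfix σ₀ h1 h2 x, hsgx]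
      ring
  · push Not at hex
    obtain ⟨γ, hγ1, hγ2⟩ := hγ
    refine Parker.propB_gen hB hΓ hτ (by rw [Module.finrank_fin_fun]; exact hn)
      ⟨γ, hγ1, fun g => hγ2 g⟩ hd ?_
    intro σ hs
    have hiff : Parker.Fixes σ (Parker.rs H ρ) ↔ Parker.Fixes σ ρ :=
      ⟨hex σ hs, fun h g => h g⟩
    rw [hσ σ hs]
    by_cases h : Parker.Fixes σ ρ
    · rw [if_pos h, if_pos (hiff.2 h)]
    · rw [if_neg h, if_neg (fun h' => h (hiff.1 h'))]

end

end ParkerGL
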