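import Pool.Agent.ParkerGL.E07
import Pool.Agent.Parker.P06
import Pool.Agent.Parker.P26
import Pool.Agent.Parker.P27
import Pool.Agent.Parker.P29

/-!
# MP_6c3636_al, module F03: normal subgroups of odd index with abelian quotient, going up (helper7)

* `twist_of_common`: `χ, χ'` irreducible characters of `G` whose restrictions to `N` have a common irreducible constituent. Then `χ'` is a twist `l χ`, `l` trivial on `N`: by
  `E07_aux.ip_res` `0 < ip (χ|N) (χ'|N) = ∑_l ip (l χ) χ'` (`E07_aux.ip_nat` for the left side), so some `ip (l χ) χ' ≠ 0`; both are irreducible (`E07_aux.tw_mem_irr`).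
* `odd_below`: if an irreducible constituent `θ` of `ρ|N` has odd degree, then `ρ` has odd degree: let `I` be the induced character of `θ`, of degree `|G : N| * dg θ`, odd. It is the sum of
  irreducible characters `χ` with `ip (χ|N) θ ≠ 0` (Frobenius reciprocity), all of them are twists of `ρ.character`, with the same degree `n`, so `n` divides an odd number.
  Without induced characters: the class function `I := ∑_{χ ∈ irr} mul (χ|N) θ • χ` has `I 1 = |G : N| * dg θ`, because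
  `∑_χ χ 1 * χ (n)⁻ = 0` for `n ≠ 1` and `|G|` for `n = 1` (column orthogonality, or the regular representation restricted to `N` is `|G : N|` copies of the regular representation of `N`).
* `propA_up_odd`: `ρ` irreducible, orthogonal, even dimension, `Γ`-fixed character. By `odd_below` all irreducible constituents of `rs N ρ` have even dimension, so `NoOdd (rs N ρ)` and
  `Parker.good_of_res` (P13) gives `GoodV`, then `Parker.sqV_of_good` (P06).
-/

namespace ParkerGL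

noncomputable section

open Classical

variable {Ω : Type} [Field Ω] [IsAlgClosed Ω] [CharZero Ω] {c : Parker.Ctx Ω}
  {G : Type} [Group G] [Finite G]

namespace F03_aux

/-- `∑ χ, mul (χ|N) θ * χ 1 = |G : N| * θ 1` -/
theorem sum_mul_deg (N : Subgroup G) [N.Normal] (θ : N → Ω) :
    ∑ χ ∈ Parker.irr Ω G, Parker.ip θ (E07_aux.rN N χ) * χ 1 = (N.index : Ω) * θ 1 := by
  have _ := Fintype.ofFinite G
  have _ := Fintype.ofFinite N
  let θ0 : G → Ω := fun g => if h : g ∈ N then θ ⟨g, h⟩ else 0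
  let Θ : G → Ω := fun x => ∑ g : G, θ0 (g * x * g⁻¹)
  have hcls : ∀ g x, Θ (g * x * g⁻¹) = Θ x := by
    intro g x
    show ∑ h, θ0 (h * (g * x * g⁻¹) * h⁻¹) = ∑ h, θ0 (h * x * h⁻¹)
    refine Fintype.sum_equiv (Equiv.mulRight g) _ _ (fun h => ?_)
    congr 1
    simp only [Equiv.coe_mulRight]
    group
  have hsub : ∀ χ : G → Ω, ∑ y, θ0 y * χ y⁻¹ = ∑ n : N, θ n * χ ((n : G))⁻¹ := by
    intro χ
    have h1 : ∀ y : G, θ0 y * χ y⁻¹ = if y ∈ N then θ0 y * χ y⁻¹ else 0 := by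
      intro y
      split_ifs with h
      · rfl
      · show (if h : y ∈ N then θ ⟨y, h⟩ else 0) * χ y⁻¹ = 0
        rw [dif_neg h, zero_mul]
    rw [Finset.sum_congr rfl (fun y _ => h1 y), E07_aux.sum_sub N (fun y => θ0 y * χ y⁻¹)]
    refine Finset.sum_congr rfl (fun n _ => ?_)
    show (if h : (n : G) ∈ N then θ ⟨n, h⟩ else 0) * χ (n : G)⁻¹ = _
    rw [dif_pos n.2]
  have hN : (Nat.card N : Ω) ≠ 0 := by
    rw [Nat.cast_ne_zero]; exact Nat.card_pos.ne'
  have hG : (Nat.card G : Ω) ≠ 0 := by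
    rw [Nat.cast_ne_zero]; exact Nat.card_pos.ne'
  have hip : ∀ χ ∈ Parker.irr Ω G, Parker.ip Θ χ =
      (Nat.card N : Ω) * Parker.ip θ (E07_aux.rN N χ) := by
    intro χ hχ
    rw [Parker.ip_eq, Parker.ip_eq]
    have h2 : ∀ g, ∑ x, θ0 (g * x * g⁻¹) * χ x⁻¹ = ∑ y, θ0 y * χ y⁻¹ := by
      intro g
      refine Fintype.sum_equiv (MulAut.conj g).toEquiv _ _ (fun x => ?_)
      show θ0 (g * x * g⁻¹) * χ x⁻¹ = θ0 (g * x * g⁻¹) * χ (g * x * g⁻¹)⁻¹
      have e : (g * x * g⁻¹)⁻¹ = g * x⁻¹ * g⁻¹ := by group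
      rw [e, Parker.P15_aux.irr_class hχ]
    have h4 : ∑ x, Θ x * χ x⁻¹ = (Nat.card G : Ω) * ∑ n : N, θ n * χ ((n : G))⁻¹ := by
      have h5 : ∀ x, Θ x * χ x⁻¹ = ∑ g, θ0 (g * x * g⁻¹) * χ x⁻¹ := by
        intro x
        show (∑ g, θ0 (g * x * g⁻¹)) * χ x⁻¹ = _
        rw [Finset.sum_mul]
      rw [Finset.sum_congr rfl (fun x _ => h5 x), Finset.sum_comm,
        Finset.sum_congr rfl (fun g _ => (h2 g).trans (hsub χ)), Finset.sum_const,
        Finset.card_univ, ← Nat.card_eq_fintype_card, nsmul_eq_mul]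
    rw [h4, ← mul_assoc, inv_mul_cancel₀ hG, one_mul, ← mul_assoc, mul_inv_cancel₀ hN, one_mul]
    rfl
  have h0 := class_expand hcls 1
  have h1 : Θ 1 = (Nat.card G : Ω) * θ 1 := by
    show ∑ g : G, θ0 (g * 1 * g⁻¹) = _
    have h2 : ∀ g : G, θ0 (g * 1 * g⁻¹) = θ 1 := by
      intro g
      rw [mul_one, mul_inv_cancel]
      show (if h : (1 : G) ∈ N then θ ⟨1, h⟩ else 0) = θ 1
      rw [dif_pos N.one_mem]
      rfl
    rw [Finset.sum_congr rfl (fun g _ => h2 g), Finset.sum_const, Finset.card_univ,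
      ← Nat.card_eq_fintype_card, nsmul_eq_mul]
  rw [h1, Finset.sum_congr rfl (fun χ hχ => by rw [hip χ hχ])] at h0
  have h3 : (Nat.card G : Ω) = (Nat.card N : Ω) * (N.index : Ω) := by
    rw [← Nat.cast_mul, Subgroup.card_mul_index]
  have h4 : ∑ χ ∈ Parker.irr Ω G, (Nat.card N : Ω) * Parker.ip θ (E07_aux.rN N χ) * χ 1 =
      (Nat.card N : Ω) * ∑ χ ∈ Parker.irr Ω G, Parker.ip θ (E07_aux.rN N χ) * χ 1 := by
    rw [Finset.mul_sum]
    exact Finset.sum_congr rfl (fun χ _ => mul_assoc _ _ _)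
  rw [h4, h3, mul_assoc] at h0
  exact (mul_left_cancel₀ hN h0).symm

end F03_aux

theorem twist_of_common (N : Subgroup G) [N.Normal] (hab : ∀ x y : G, x * y * x⁻¹ * y⁻¹ ∈ N)
    {a b : ℕ} {ρ : Representation Ω G (Fin a → Ω)} {τ : Representation Ω G (Fin b → Ω)}
    (hρ : ρ.IsIrreducible) (hτ : τ.IsIrreducible) {θ : N → Ω} (hθ : θ ∈ Parker.irr Ω N)
    (h1 : Parker.mul (Parker.rs N ρ).character θ ≠ 0)
    (h2 : Parker.mul (Parker.rs N τ).character θ ≠ 0) :
    ∃ l : G →* Ωˣ, (∀ n ∈ N, l n = 1) ∧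
      ∀ g, τ.character g = ((l g : Ωˣ) : Ω) * ρ.character g := by
  obtain ⟨Λ, -, -, hΛ, hsum⟩ := lin_sum Ω N hab
  have hne : Parker.ip (E07_aux.rN N ρ.character) (E07_aux.rN N τ.character) ≠ 0 := by
    have hchar : ∀ {n : ℕ} (ρ : Representation Ω G (Fin n → Ω)),
      E07_aux.rN N ρ.character = (Parker.rs N ρ).character := fun ρ => rfl
    rw [hchar, hchar, E07_aux.ip_nat, Nat.cast_ne_zero]
    intro h0
    rw [Finset.sum_eq_zero_iff] at h0
    exact (mul_ne_zero h1 h2) (h0 θ hθ)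
  rw [E07_aux.ip_res hsum] at hne
  obtain ⟨l, hl, hl'⟩ := Finset.exists_ne_zero_of_sum_ne_zero hne
  refine ⟨l, (hΛ l).1 hl, fun g => ?_⟩
  rw [Parker.ip_irr (E07_aux.tw_mem_irr (Parker.mem_irr.2 (Parker.mem_irrSet hρ)) l)
    (Parker.mem_irr.2 (Parker.mem_irrSet hτ))] at hl'
  by_contra hcon
  rw [if_neg (fun h => hcon (congrFun h g).symm)] at hl'
  exact hl' rfl

theorem odd_below (N : Subgroup G) [N.Normal] (hN : Odd N.index)
    (hab : ∀ x y : G, x * y * x⁻¹ * y⁻¹ ∈ N) {n : ℕ} {ρ : Representation Ω G (Fin n → Ω)}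
    (hρ : ρ.IsIrreducible) {θ : N → Ω} (hθ : θ ∈ Parker.irr Ω N)
    (h1 : Parker.mul (Parker.rs N ρ).character θ ≠ 0) (hodd : Odd (Parker.dg θ)) : Odd n := by
  have hkey := F03_aux.sum_mul_deg (G := G) N θ
  -- the multiplicities
  have hm : ∀ χ ∈ Parker.irr Ω G, ∃ k : ℕ, Parker.ip θ (E07_aux.rN N χ) = (k : Ω) ∧
      (k ≠ 0 → χ 1 = (n : Ω)) := by
    intro χ hχ
    obtain ⟨b, τ, hτ, rfl⟩ := Parker.mem_irr.1 hχ
    refine ⟨Parker.mul (Parker.rs N τ).character θ, ?_, fun hk => ?_⟩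
    · rw [Parker.mul_spec _ hθ, Parker.ip_comm]
      rfl
    · obtain ⟨l, -, hl⟩ := twist_of_common N hab hρ hτ hθ h1 hk
      rw [hl 1, map_one, Units.val_one, one_mul, Representation.char_one, Module.finrank_fin_fun]
  choose! k hk hk' using hm
  have hsum : ∑ χ ∈ Parker.irr Ω G, Parker.ip θ (E07_aux.rN N χ) * χ 1 =
      ((n * ∑ χ ∈ Parker.irr Ω G, k χ : ℕ) : Ω) := by
    rw [Nat.cast_mul, Nat.cast_sum, Finset.mul_sum]
    refine Finset.sum_congr rfl (fun χ hχ => ?_)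
    rw [hk χ hχ]
    by_cases h0 : k χ = 0
    · rw [h0, Nat.cast_zero, zero_mul, mul_zero]
    · rw [hk' χ hχ h0, mul_comm]
  rw [hsum, ← (Parker.dg_spec hθ).1, ← Nat.cast_mul, Nat.cast_inj] at hkey
  have h2 : Odd (n * ∑ χ ∈ Parker.irr Ω G, k χ) := by
    rw [hkey]
    exact hN.mul hodd
  exact (Nat.odd_mul.1 h2).1

theorem propA_up_odd (N : Subgroup G) [N.Normal] (hN : Odd N.index)
    (hab : ∀ x y : G, x * y * x⁻¹ * y⁻¹ ∈ N) (hA : Parker.PropA c 1 N)
    (hB : Parker.PropB c 1 N) : Parker.PropA c 1 G := by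
  refine Parker.propA_of_good ?_
  intro Γ hΓ n ρ hρ hn hO hF
  refine Parker.good_of_res N hA hB hΓ hO hF ?_
  rw [Parker.noOdd_iff]
  intro φ hφ hm _
  by_contra hev
  rw [Nat.not_even_iff_odd] at hev
  exact (Nat.not_even_iff_odd.2 (odd_below N hN hab hρ hφ hm hev)) hn

end

end ParkerGL
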