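import Pool.Agent.ParkerGL.F03

/-!
# MP_6c3636_al, module F05: property (B), normal subgroups of odd prime index, going up (helper7)

* `propB_up_prime`: by `Parker.propB_one` (P29) it is enough to prove `PropB c m G` with `m = |G|`; `PropB c m N` by `Parker.propB_mono`. Let `ρ`, `γ`, `d` be given. `Parker.exists_theta` (P27):
  `θ ∈ irr Ω N` with `mul (rs N ρ).character θ ≠ 0`, odd degree, `σ θ = θ` if `σ` fixes `ρ`, `γ θ = θ*`. Let `T` be the inertia group, `T = N` or `T = G` as the index of `N` is prime.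
  If all `σ ∈ Γ` fix `ρ`, `d` is fixed, done. If `σ θ ≠ θ` for all `σ ∈ Γ` which do not fix `ρ`: `PropB` for `N` and `θ`. So assume that there is `σ₀ ∈ Γ` with `¬ Fixes σ₀ ρ`, `σ₀ θ = θ`;
  then all `σ ∈ Γ` fix `θ` (those which do not fix `ρ` are `σ₀` times elements which fix `d`, so `ρ`). So `θ` is `Γ`-fixed and `θ* = γ θ = θ`. By `exists_over` (E07)
  there is `ψ₀ ∈ irr Ω G`, real and `Γ`-fixed, with `θ` a constituent of `ψ₀|N`. By `twist_of_common` `ρ.character = l ψ₀`, `l ∈ KG Ω N`.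
  Let `A = {l' : l' ψ₀ = ψ₀}`, a subgroup of the group `KG Ω N` of prime order (`E07_aux.fin_card`). If `A` is everything, `ρ.character = ψ₀` is `Γ`-fixed, contradiction. So `A = 1`. For `σ ∈ Γ`:
  `σ ρ = ρ` iff `σ(l) ψ₀ = l ψ₀` iff `σ(l) = l`; `γ ρ = ρ*` gives `γ(l) ψ₀ = l⁻¹ ψ₀`, `γ(l) = l⁻¹`. Now `Parker.propB_linear` (P26) for the one dimensional representation `l`.
-/

namespace ParkerGL

noncomputable section

open Classical

variable {Ω : Type} [Field Ω] [IsAlgClosed Ω] [CharZero Ω] {c : Parker.Ctx Ω}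
  {G : Type} [Group G] [Finite G]

namespace F05_aux

open E07_aux

omit [IsAlgClosed Ω] [CharZero Ω] [Finite G] in
theorem comm_of_prime (N : Subgroup G) [N.Normal] (hp : N.index.Prime) (x y : G) :
    x * y * x⁻¹ * y⁻¹ ∈ N := by
  have _ : Fact (Nat.card (G ⧸ N)).Prime := ⟨hp⟩
  have hcyc : IsCyclic (G ⧸ N) := isCyclic_of_prime_card (p := Nat.card (G ⧸ N)) rfl
  have hc : ∀ a b : G ⧸ N, a * b = b * a := fun a b => by
    obtain ⟨g, hg⟩ := hcyc.exists_generator
    obtain ⟨i, rfl⟩ := Subgroup.mem_zpowers_iff.1 (hg a)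
    obtain ⟨j, rfl⟩ := Subgroup.mem_zpowers_iff.1 (hg b)
    rw [← zpow_add, ← zpow_add, add_comm]
  rw [← QuotientGroup.eq_one_iff]
  rw [QuotientGroup.mk_mul, QuotientGroup.mk_mul, QuotientGroup.mk_mul, QuotientGroup.mk_inv,
    QuotientGroup.mk_inv, hc (x : G ⧸ N) (y : G ⧸ N), mul_inv_cancel_right, mul_inv_cancel]

/-- `σ` applied to a linear character -/
def sl (σ : RingAut Ω) (l : G →* Ωˣ) : G →* Ωˣ :=
  (Units.map ((σ : Ω ≃+* Ω) : Ω →* Ω)).comp l

omit [IsAlgClosed Ω] [CharZero Ω] [Finite G] in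
theorem sl_apply (σ : RingAut Ω) (l : G →* Ωˣ) (g : G) :
    ((sl σ l g : Ωˣ) : Ω) = σ ((l g : Ωˣ) : Ω) := rfl

/-- the one dimensional representation -/
def lrep (l : G →* Ωˣ) : Representation Ω G Ω where
  toFun g := ((l g : Ωˣ) : Ω) • (1 : Module.End Ω Ω)
  map_one' := by rw [map_one, Units.val_one, one_smul]
  map_mul' x y := by
    rw [map_mul, Units.val_mul, smul_mul_smul_comm, mul_one]

omit [IsAlgClosed Ω] [CharZero Ω] [Finite G] in
theorem lrep_char (l : G →* Ωˣ) (g : G) : (lrep l).character g = ((l g : Ωˣ) : Ω) := by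
  show LinearMap.trace Ω Ω (((l g : Ωˣ) : Ω) • (1 : Module.End Ω Ω)) = _
  rw [map_smul, LinearMap.trace_one, Module.finrank_self, Nat.cast_one, smul_eq_mul, mul_one]

/-- the stabilizer is everything or trivial -/
theorem stab_cases (N : Subgroup G) [N.Normal] (hp : N.index.Prime)
    (hab : ∀ x y : G, x * y * x⁻¹ * y⁻¹ ∈ N) (χ : G → Ω) :
    (∀ l : G →* Ωˣ, (∀ n ∈ N, l n = 1) → (fun g => ((l g : Ωˣ) : Ω) * χ g) = χ) ∨
    (∀ l : G →* Ωˣ, (∀ n ∈ N, l n = 1) → (fun g => ((l g : Ωˣ) : Ω) * χ g) = χ → l = 1) := by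
  let _ := kAct Ω G
  let st : Subgroup (G →* Ωˣ) := MulAction.stabilizer (G →* Ωˣ) χ ⊓ KG Ω N
  have hst : ∀ l : G →* Ωˣ, l ∈ st ↔ (fun g => ((l g : Ωˣ) : Ω) * χ g) = χ ∧
      ∀ n ∈ N, l n = 1 := by
    intro l
    rw [Subgroup.mem_inf, MulAction.mem_stabilizer_iff, mem_KG]
    rfl
  have hle : st ≤ KG Ω N := inf_le_right
  obtain ⟨hfin, hcard⟩ := fin_card Ω N hab
  have hd := Subgroup.card_dvd_of_le hle
  rw [hcard] at hd
  rcases (Nat.dvd_prime hp).1 hd with h1 | h1
  · right
    intro l hl hlχ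
    have h2 : l ∈ st := (hst l).2 ⟨hlχ, hl⟩
    have h3 : st = ⊥ := Subgroup.eq_bot_of_card_eq st h1
    rw [h3, Subgroup.mem_bot] at h2
    exact h2
  · left
    intro l hl
    have hfin' : Finite (KG Ω N) := hfin
    have h3 : st = KG Ω N := by
      refine Subgroup.eq_of_le_of_card_ge hle ?_
      rw [hcard, h1]
    have h2 : l ∈ st := by
      rw [h3, mem_KG]
      exact hl
    exact ((hst l).1 h2).1

end F05_aux

open F05_aux

theorem propB_up_prime (N : Subgroup G) [N.Normal] (hN : Odd N.index)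
    (hp : N.index.Prime) (hB : Parker.PropB c 1 N) : Parker.PropB c 1 G := by
  have hab := comm_of_prime N hp
  have hm : Nat.card G ≠ 0 := Nat.card_pos.ne'
  refine Parker.propB_one hm dvd_rfl ?_
  intro Γ hΓ n ρ hρ hn hγ d hd hσ
  have hB' : Parker.PropB c (Nat.card G) N := Parker.propB_mono hB
  have hfr : Odd (Module.finrank Ω (Fin n → Ω)) := by simpa using hn
  obtain ⟨θ, hθ, hmul, hθo, h1, h2⟩ := Parker.exists_theta hΓ hm dvd_rfl hρ hfr N
  by_cases hnf : ∃ σ ∈ Γ, ∃ n, σ (θ n) ≠ θ n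
  · -- property (B) for `N`
    obtain ⟨a, τ, hτ, hτc⟩ := Parker.mem_irr.1 hθ
    have hodd : Odd a := by
      have h := Parker.dg_char τ
      rw [hτc] at h
      rw [h] at hθo
      simpa using hθo
    have hd2 : d ≠ -d := by
      intro h
      apply hd
      have h3 : (2 : Ω) * d = 0 := by linear_combination h
      rcases mul_eq_zero.1 h3 with h4 | h4
      · exact absurd h4 two_ne_zero
      · exact h4
    have hfix : ∀ σ ∈ Γ, (Parker.Fixes σ ρ ↔ Parker.Fixes σ τ) := by
      intro σ hσΓ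
      constructor
      · intro hf x
        rw [hτc]
        exact h1 σ hσΓ hf x
      · intro hf
        by_contra hcon
        obtain ⟨σ₀, hσ₀, x, hx⟩ := hnf
        have h3 : ¬ Parker.Fixes σ₀ ρ := fun h => hx (h1 σ₀ hσ₀ h x)
        have h4 : σ₀ d = -d := by rw [hσ σ₀ hσ₀, if_neg h3]
        have h5 : σ d = -d := by rw [hσ σ hσΓ, if_neg hcon]
        have h6 : (σ₀ * σ) d = d := by
          rw [RingAut.mul_apply, h5, map_neg, h4, neg_neg]
        have h7 : Parker.Fixes (σ₀ * σ) ρ := by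
          by_contra h8
          have h9 := hσ (σ₀ * σ) (Γ.mul_mem hσ₀ hσΓ)
          rw [if_neg h8, h6] at h9
          exact hd2 h9
        have h8 := h1 (σ₀ * σ) (Γ.mul_mem hσ₀ hσΓ) h7 x
        have h9 := hf x
        rw [hτc] at h9
        rw [RingAut.mul_apply, h9] at h8
        exact hx h8
    obtain ⟨γ, hγΓ, hγρ⟩ := hγ
    refine hB' Γ hΓ a τ hτ hodd ⟨γ, hγΓ, fun x => ?_⟩ d hd (fun σ hσΓ => ?_)
    · rw [hτc]
      exact h2 γ hγΓ hγρ x
    · rw [hσ σ hσΓ]
      by_cases hf : Parker.Fixes σ ρ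
      · rw [if_pos hf, if_pos ((hfix σ hσΓ).1 hf)]
      · rw [if_neg hf, if_neg (fun h => hf ((hfix σ hσΓ).2 h))]
  · push Not at hnf
    obtain ⟨γ, hγΓ, hγρ⟩ := hγ
    have hr : Parker.du θ = θ := by
      funext x
      show θ x⁻¹ = θ x
      rw [← h2 γ hγΓ hγρ x, hnf γ hγΓ x]
    obtain ⟨χ, e, O, hχ, hdu, hχf, he, -, hθO, hcj, hχN⟩ := exists_over (c := c) (Γ := Γ) hm
      dvd_rfl hΓ N hN hab hθ hr (fun g σ hσΓ => hnf σ hσΓ g)
    obtain ⟨b, τ, hτ, hτc⟩ := Parker.mem_irr.1 hχ
    -- `θ` is a constituent of the restriction of `χ`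
    have hmul2 : Parker.mul (Parker.rs N τ).character θ ≠ 0 := by
      intro h0
      have h3 := Parker.mul_spec (Parker.rs N τ) hθ
      rw [h0, Nat.cast_zero] at h3
      have h4 : (Parker.rs N τ).character = (e : Ω) • ∑ θ' ∈ O, θ' := by
        funext x
        rw [Pi.smul_apply, Finset.sum_apply, smul_eq_mul, ← hχN x, ← hτc]
        rfl
      rw [h4, Parker.ip_smul_left, Parker.ip_sum_left] at h3
      have h5 : ∑ θ' ∈ O, Parker.ip θ' θ = 1 := by
        rw [Finset.sum_eq_single θ]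
        · rw [Parker.ip_irr hθ hθ, if_pos rfl]
        · intro θ' h' hne
          obtain ⟨g, rfl⟩ := hcj θ' h'
          rw [Parker.ip_irr (Parker.cj_mem_irr N hθ g) hθ, if_neg hne]
        · intro h
          exact absurd hθO h
      rw [h5, mul_one] at h3
      have h6 : e = 0 := by exact_mod_cast h3.symm
      rw [h6] at he
      exact absurd he (by decide)
    obtain ⟨l, hl, hlρ⟩ := twist_of_common N hab hτ hρ hθ hmul2 hmul
    rw [hτc] at hlρ
    rcases stab_cases N hp hab χ with hall | htriv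
    · -- everything fixes
      have h3 := hall l hl
      have h4 : ρ.character = χ := by
        rw [← h3]
        funext g
        exact hlρ g
      refine Parker.inV_of_fx hd ?_
      intro σ hσΓ
      rw [hσ σ hσΓ, if_pos]
      intro g
      rw [h4]
      exact hχf g σ hσΓ
    · have hcan : ∀ l' : G →* Ωˣ, (∀ n ∈ N, l' n = 1) →
          (∀ g, ((l' g : Ωˣ) : Ω) * χ g = ((l g : Ωˣ) : Ω) * χ g) → l' = l := by
        intro l' hl' h
        have h5 := htriv (l⁻¹ * l') (fun n hn => by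
          rw [MonoidHom.mul_apply, MonoidHom.inv_apply, hl n hn, hl' n hn, inv_one, mul_one]) (by
          funext g
          show (((l g)⁻¹ * l' g : Ωˣ) : Ω) * χ g = χ g
          rw [Units.val_mul, mul_assoc, h g, ← mul_assoc, ← Units.val_mul, inv_mul_cancel,
            Units.val_one, one_mul])
        refine MonoidHom.ext fun g => ?_
        have h6 := DFunLike.congr_fun h5 g
        rw [MonoidHom.mul_apply, MonoidHom.inv_apply, MonoidHom.one_apply] at h6
        exact (inv_mul_eq_one.1 h6).symm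
      have hslN : ∀ σ : RingAut Ω, ∀ n ∈ N, sl σ l n = 1 := by
        intro σ n hn
        apply Units.ext
        rw [sl_apply, hl n hn, Units.val_one, map_one]
      have hfix : ∀ σ ∈ Γ, (Parker.Fixes σ ρ ↔ Parker.Fixes σ (lrep l)) := by
        intro σ hσΓ
        constructor
        · intro hf g
          have h5 : sl σ l = l := by
            refine hcan _ (hslN σ) (fun g => ?_)
            have h6 := hf g
            rw [hlρ g, map_mul, hχf g σ hσΓ] at h6
            exact h6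
          rw [lrep_char, ← sl_apply, h5]
        · intro hf g
          have h6 := hf g
          rw [lrep_char] at h6
          rw [hlρ g, map_mul, hχf g σ hσΓ, h6]
      have hγl : ∀ g, γ ((lrep l).character g) = (lrep l).character g⁻¹ := by
        have h5 : (sl γ l)⁻¹ = l := by
          refine hcan _ (fun n hn => ?_) (fun g => ?_)
          · rw [MonoidHom.inv_apply, hslN γ n hn, inv_one]
          · have h6 := hγρ g⁻¹
            rw [hlρ, hlρ, inv_inv, map_mul, hχf _ γ hγΓ] at h6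
            have h7 : χ g⁻¹ = χ g := congrFun hdu g
            rw [h7] at h6
            have h8 : (((sl γ l)⁻¹ g : Ωˣ) : Ω) = γ ((l g⁻¹ : Ωˣ) : Ω) := by
              rw [← sl_apply, MonoidHom.inv_apply, map_inv]
            rw [h8]
            exact h6
        intro g
        rw [lrep_char, lrep_char, ← sl_apply]
        have h6 := DFunLike.congr_fun h5 g
        rw [MonoidHom.inv_apply] at h6
        rw [map_inv, ← h6, inv_inv]
      refine Parker.propB_linear hΓ (ρ := lrep l) (Module.finrank_self Ω) ⟨γ, hγΓ, hγl⟩ hd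
        (fun σ hσΓ => ?_)
      rw [hσ σ hσΓ]
      by_cases hf : Parker.Fixes σ ρ
      · rw [if_pos hf, if_pos ((hfix σ hσΓ).1 hf)]
      · rw [if_neg hf, if_neg (fun h => hf ((hfix σ hσΓ).2 h))]

end

end ParkerGL
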