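import Pool.Agent.ParkerGL.F01
import Pool.Agent.ParkerGL.F02
import Pool.Agent.ParkerGL.F03
import Pool.Agent.ParkerGL.F05
import Pool.Agent.ParkerGL.E04
import Pool.Agent.ParkerGL.E05

/-!
# MP_6c3636_al, module F04: closure properties of the class of the groups with (A) and (B) (helper7)

`AB c G`: properties (A) and (B).
* `ab_congr`: `Parker.propA_congr`, `Parker.propB_congr` (P13).
* `ab_quot`: `propA_quot` (E04); `PropB` for an image in the same way (pull back along `f`: `Parker.P13_aux.pb_irr`, `pb_char`, `pb_fixes`).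
* `ab_prime`: `G ⧸ N` is cyclic of prime order, so abelian. Index `2`: F02, odd index: F03, F05.
* `ab_solvable`: induction on `N.index` (over all groups `G`): if `N ≠ ⊤`, the solvable group `G ⧸ N ≠ 1` is not perfect, its abelianization is a nontrivial finite abelian group and has a subgroup of prime
  index (maximal subgroup); so there is `M` normal in `G`, `N ≤ M`, `M.index` prime. `N.subgroupOf M` is normal in `M` with solvable quotient (a subgroup of `G ⧸ N`) and smaller index, and it is isomorphic to
  `N`. So `AB` holds for `M` by induction and for `G` by `ab_prime`.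
* `ab_pi`: finite products: induction on the number of factors (`Fin k`), `(∀ i : Fin (k + 1), L i) ≃* L 0 × (∀ i : Fin k, L i.succ)`, `F01`, and the product over the empty type is trivial
  (`Parker.of_solvable`).
* `gl_ab`: a group between `SL_n(F)` and `GL_n(F)`: this is what the proof of `gl_parker` (E05) shows before it passes to the image (copy it; `odd_units`, `gle` are private there).
-/

namespace ParkerGL

noncomputable section

open Classical Matrix

variable {Ω : Type} [Field Ω] [IsAlgClosed Ω] [CharZero Ω] {c : Parker.Ctx Ω}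

/-- the properties (A) and (B) -/
def AB (c : Parker.Ctx Ω) (G : Type) [Group G] [Finite G] : Prop :=
  Parker.PropA c 1 G ∧ Parker.PropB c 1 G

theorem ab_congr {G H : Type} [Group G] [Finite G] [Group H] [Finite H] (e : G ≃* H)
    (h : AB c G) : AB c H :=
  ⟨Parker.propA_congr e h.1, Parker.propB_congr e h.2⟩

theorem ab_quot {G H : Type} [Group G] [Finite G] [Group H] [Finite H] (f : G →* H)
    (hf : Function.Surjective f) (h : AB c G) : AB c H := by
  refine ⟨propA_quot c h.1 f hf, ?_⟩
  intro Γ hΓ n ρ hρ hn hγ d hd hσ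
  obtain ⟨γ, hγ1, hγ2⟩ := hγ
  refine h.2 Γ hΓ n (Parker.P13_aux.pb f ρ) (Parker.P13_aux.pb_irr hf hρ) hn
    ⟨γ, hγ1, fun g => ?_⟩ d hd fun σ hs => ?_
  · rw [Parker.P13_aux.pb_char, Parker.P13_aux.pb_char, map_inv]
    exact hγ2 _
  · have h1 := hσ σ hs
    by_cases h2 : Parker.Fixes σ ρ
    · rw [if_pos h2] at h1
      rw [if_pos ((Parker.P13_aux.pb_fixes hf).2 h2)]
      exact h1
    · rw [if_neg h2] at h1
      rw [if_neg (fun h3 => h2 ((Parker.P13_aux.pb_fixes hf).1 h3))]
      exact h1

theorem ab_prod {G H : Type} [Group G] [Finite G] [Group H] [Finite H] (h : AB c G)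
    (h' : AB c H) : AB c (G × H) :=
  ⟨propA_prod h.1 h'.1, propB_prod h.2 h'.2⟩

namespace F04_aux

/-- splitting off the first factor of a product -/
def consE {k : ℕ} (L : Fin (k + 1) → Type) [∀ i, Group (L i)] :
    (L 0 × (∀ i : Fin k, L i.succ)) ≃* (∀ i, L i) where
  toFun p := Fin.cons p.1 p.2
  invFun f := (f 0, fun i => f i.succ)
  left_inv p := rfl
  right_inv f := by
    funext i
    refine Fin.cases ?_ (fun j => ?_) i
    · rfl
    · rfl
  map_mul' p q := by
    funext i
    refine Fin.cases ?_ (fun j => ?_) i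
    · rfl
    · rfl

/-- a trivial group has both properties -/
theorem ab_triv {G : Type} [Group G] [Finite G] (h : ∀ x : G, x = 1) : AB c G := by
  have : Group.IsSolvable G := by
    have : Subsingleton G := ⟨fun a b => by rw [h a, h b]⟩
    infer_instance
  exact Parker.of_solvable G

/-- a proper normal subgroup with solvable quotient is contained in a normal subgroup of prime
index -/
theorem exists_prime {G : Type} [Group G] [Finite G] (N : Subgroup G) [N.Normal]
    (hs : Group.IsSolvable (G ⧸ N)) (hN : N ≠ ⊤) :
    ∃ M : Subgroup G, M.Normal ∧ N ≤ M ∧ M.index.Prime := by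
  have hfin : Finite (Subgroup G) := inferInstance
  obtain ⟨M, ⟨hM1, hM2, hM3⟩, hmax⟩ := Set.Finite.exists_maximalFor
    (fun M : Subgroup G => Nat.card M) {M : Subgroup G | M.Normal ∧ N ≤ M ∧ M ≠ ⊤}
    (Set.toFinite _) ⟨N, ⟨inferInstance, le_rfl, hN⟩⟩
  refine ⟨M, hM1, hM2, ?_⟩
  have hqnt : Nontrivial (G ⧸ M) := by
    rw [QuotientGroup.nontrivial_iff]
    exact hM3
  have hqs : ∀ H : Subgroup (G ⧸ M), H.Normal → H = ⊥ ∨ H = ⊤ := by
    intro H hH
    have hMle : M ≤ H.comap (QuotientGroup.mk' M) := by
      intro z hz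
      rw [Subgroup.mem_comap]
      have : (QuotientGroup.mk' M) z = 1 := by
        rw [QuotientGroup.mk'_apply, QuotientGroup.eq_one_iff]
        exact hz
      rw [this]
      exact H.one_mem
    by_cases ht : H.comap (QuotientGroup.mk' M) = ⊤
    · right
      have := congrArg (Subgroup.map (QuotientGroup.mk' M)) ht
      rw [Subgroup.map_comap_eq_self_of_surjective (QuotientGroup.mk'_surjective M),
        Subgroup.map_top_of_surjective _ (QuotientGroup.mk'_surjective M)] at this
      exact this
    · left
      have hn : (H.comap (QuotientGroup.mk' M)).Normal := inferInstance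
      have hle : Nat.card (H.comap (QuotientGroup.mk' M)) ≤ Nat.card M := by
        have h1 : Nat.card M ≤ Nat.card (H.comap (QuotientGroup.mk' M)) :=
          Nat.card_le_card_of_injective _ (Subgroup.inclusion_injective hMle)
        exact hmax ⟨hn, hM2.trans hMle, ht⟩ h1
      have heq : M = H.comap (QuotientGroup.mk' M) :=
        Subgroup.eq_of_le_of_card_ge hMle hle
      rw [eq_bot_iff]
      intro x hx
      obtain ⟨g, rfl⟩ := QuotientGroup.mk'_surjective M x
      have hg : g ∈ M := by
        rw [heq]
        exact hx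
      rw [Subgroup.mem_bot, QuotientGroup.mk'_apply, QuotientGroup.eq_one_iff]
      exact hg
  have hqsimple : IsSimpleGroup (G ⧸ M) := ⟨hqs⟩
  have hsol : Group.IsSolvable (G ⧸ M) := by
    have h1 : Function.Surjective (QuotientGroup.map N M (MonoidHom.id G) hM2) := by
      intro x
      obtain ⟨g, rfl⟩ := QuotientGroup.mk'_surjective M x
      exact ⟨QuotientGroup.mk' N g, rfl⟩
    exact Group.isSolvable_of_surjective h1
  have hcomm := IsSimpleGroup.comm_iff_isSolvable.mpr hsol
  let _ : CommGroup (G ⧸ M) := { (inferInstance : Group (G ⧸ M)) with mul_comm := hcomm }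
  have h2 : IsSimpleGroup (G ⧸ M) := hqsimple
  have h3 := CommGroup.is_simple_iff_prime_card.1 h2
  rw [Subgroup.index_eq_card]
  exact h3

end F04_aux

open F04_aux

theorem ab_pi {k : ℕ} (L : Fin k → Type) [∀ i, Group (L i)] [∀ i, Finite (L i)]
    (h : ∀ i, AB c (L i)) : AB c (∀ i, L i) := by
  induction k with
  | zero => exact ab_triv fun x => funext fun i => i.elim0
  | succ k ih =>
    exact ab_congr (consE L) (ab_prod (h 0) (ih (fun i => L i.succ) fun i => h i.succ))

theorem ab_prime {G : Type} [Group G] [Finite G] (N : Subgroup G) [N.Normal]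
    (hp : N.index.Prime) (h : AB c N) : AB c G := by
  rcases hp.eq_two_or_odd' with h2 | hodd
  · exact ⟨propA_two h2 h.1 h.2, propB_two h2 h.2⟩
  · have hcard : (Nat.card (G ⧸ N)).Prime := by
      rw [← Subgroup.index_eq_card]
      exact hp
    have : Fact (Nat.card (G ⧸ N)).Prime := ⟨hcard⟩
    have hcyc : IsCyclic (G ⧸ N) := isCyclic_of_prime_card (p := Nat.card (G ⧸ N)) rfl
    have hcomm : ∀ x y : G ⧸ N, x * y = y * x := fun x y =>
      (IsCyclic.isMulCommutative (α := G ⧸ N)).is_comm.comm x y
    have hab : ∀ x y : G, x * y * x⁻¹ * y⁻¹ ∈ N := by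
      intro x y
      rw [← QuotientGroup.eq_one_iff, QuotientGroup.mk_mul, QuotientGroup.mk_mul,
        QuotientGroup.mk_mul, QuotientGroup.mk_inv, QuotientGroup.mk_inv, hcomm (x : G ⧸ N),
        mul_inv_cancel_right, mul_inv_cancel]
    exact ⟨propA_up_odd N hodd hab h.1 h.2, propB_up_prime N hodd hp h.2⟩

namespace F04_aux

theorem ab_solv_aux : ∀ (k : ℕ) (G : Type) [Group G] [Finite G] (N : Subgroup G) [N.Normal],
    N.index = k → Group.IsSolvable (G ⧸ N) → AB c N → AB c G := by
  intro k
  induction k using Nat.strong_induction_on with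
  | _ k ih =>
    intro G _ _ N _ hk hs h
    by_cases hN : N = ⊤
    · subst hN
      exact ab_congr Subgroup.topEquiv h
    · obtain ⟨M, hM1, hM2, hM3⟩ := exists_prime N hs hN
      refine ab_prime M hM3 ?_
      have hrel : N.relIndex M * M.index = k := by
        rw [← hk]
        exact Subgroup.relIndex_mul_index hM2
      have hlt : (N.subgroupOf M).index < k := by
        have h1 : (N.subgroupOf M).index = N.relIndex M := rfl
        rw [h1, ← hrel]
        have h2 : 0 < N.relIndex M := by
          rw [← h1]
          exact Nat.pos_of_ne_zero Subgroup.index_ne_zero_of_finite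
        have h3 := hM3.two_le
        nlinarith
      have hsol : Group.IsSolvable (M ⧸ N.subgroupOf M) := by
        have h1 : N.subgroupOf M ≤ N.comap M.subtype := le_rfl
        have h2 : Function.Injective (QuotientGroup.map (N.subgroupOf M) N M.subtype h1) := by
          rw [injective_iff_map_eq_one]
          intro x hx
          obtain ⟨g, rfl⟩ := QuotientGroup.mk'_surjective (N.subgroupOf M) x
          have h3 : ((g : G) : G ⧸ N) = 1 := hx
          rw [QuotientGroup.eq_one_iff] at h3
          rw [QuotientGroup.mk'_apply, QuotientGroup.eq_one_iff]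
          exact h3
        exact Group.isSolvable_of_isSolvable_injective h2
      exact ih _ hlt M (N.subgroupOf M) rfl hsol
        (ab_congr (Subgroup.subgroupOfEquivOfLe hM2).symm h)

end F04_aux

theorem ab_solvable {G : Type} [Group G] [Finite G] (N : Subgroup G) [N.Normal]
    (hs : Group.IsSolvable (G ⧸ N)) (h : AB c N) : AB c G :=
  ab_solv_aux N.index G N rfl hs h

namespace F04_aux

/-- the group of the automorphisms of `F^n` is the matrix group -/
def gle' {F : Type} [Field F] (n : ℕ) : Gn F n ≃* GL (Fin n) F :=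
  (Matrix.GeneralLinearGroup.toLin.trans
    (LinearMap.GeneralLinearGroup.generalLinearEquiv F (Fin n → F))).symm

theorem odd_units' {F : Type} [Field F] [Finite F] [CharP F 2] : Odd (Nat.card Fˣ) := by
  have h1 : Even (Nat.card F) := by
    let _ := Fintype.ofFinite F
    obtain ⟨m, _, hm⟩ := FiniteField.card F 2
    rw [Nat.card_eq_fintype_card, hm]
    exact (Nat.even_pow' m.ne_zero).2 even_two
  rw [Nat.card_units]
  exact Nat.Even.sub_odd Nat.card_pos h1 odd_one

end F04_aux

theorem gl_ab {F : Type} [Field F] [Finite F] [CharP F 2] (n : ℕ) (N : Subgroup (GL (Fin n) F))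
    (hN : ∀ g : GL (Fin n) F, (g : Matrix (Fin n) (Fin n) F).det = 1 → g ∈ N) [Finite N] :
    AB c N := by
  have hfin : Finite (GL (Fin n) F) := Finite.of_equiv _ (gle' (F := F) n).toEquiv
  have hA0 : Parker.PropA c 1 (GL (Fin n) F) :=
    Parker.propA_congr (gle' (F := F) n) (gl_propA c n)
  have hO0 : OP (GL (Fin n) F) :=
    op_quot (op_gl (F := F) n) (gle' (F := F) n).toMonoidHom (gle' (F := F) n).surjective
  have hker : ∀ g : GL (Fin n) F, g ∈ (Matrix.GeneralLinearGroup.det (n := Fin n) (R := F)).ker →
      g ∈ N := by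
    intro g hg
    apply hN
    rw [MonoidHom.mem_ker] at hg
    have h1 := congrArg Units.val hg
    rwa [Matrix.GeneralLinearGroup.val_det_apply, Units.val_one] at h1
  have hab : ∀ x y : GL (Fin n) F, x * y * x⁻¹ * y⁻¹ ∈ N := by
    intro x y
    apply hker
    rw [MonoidHom.mem_ker, map_mul, map_mul, map_mul, map_inv, map_inv,
      mul_comm (Matrix.GeneralLinearGroup.det x), mul_inv_cancel_right, mul_inv_cancel]
  have hnor : N.Normal := by
    constructor
    intro x hx g
    have h1 : g * x * g⁻¹ = (g * x * g⁻¹ * x⁻¹) * x := by rw [inv_mul_cancel_right]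
    rw [h1]
    exact N.mul_mem (hab g x) hx
  have hodd : Odd N.index := by
    have h1 : N.index ∣ (Matrix.GeneralLinearGroup.det (n := Fin n) (R := F)).ker.index :=
      Subgroup.index_dvd_of_le hker
    rw [Subgroup.index_ker] at h1
    have h2 := h1.trans (Subgroup.card_subgroup_dvd_card _)
    exact Odd.of_dvd_nat (odd_units' (F := F)) h2
  have hA1 := propA_normal c hA0 N hodd hab
  have hO1 := op_normal hO0 N hodd
  exact ⟨hA1, op_propB hO1 c⟩

end

end ParkerGL
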