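import Pool.Agent.ParkerGL.D02
import Pool.Agent.Parker.P15

/-!
# MP_6c3636_al, GL_n(q), module D03: isotypic components over `K` (helper7)

`φ` an irreducible character of `G` with `Γ`-fixed values and `du φ = φ`. `eK K φ : G → K` is the function with
`algebraMap (eK K φ g) = es φ g` (it exists, as `es φ g` is fixed). `M.E φ = act M.ρ (eK K φ)`.

* `E_idem`, `E_comm`: transfer from `Ω` (P15: `Parker.P15_aux.idem_idem`-type results for `act ρ (es φ)`, see the section `central idempotents` of P15)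
  by the base change `QM.ch_char` or directly: `conv (es φ) (es φ) = es φ` in the group algebra; the cleanest way is: the
  operators `M.E φ * M.E φ` and `M.E φ` are `act M.ρ` of functions `G → K`; after base change by an injective map of matrices they agree.
  (State the base change for matrices: `LinearMap.toMatrix b b (act M.ρ s)` is mapped to the matrix of `act τ (algebraMap ∘ s)`.)
* `E_adj`: `Parker.act_adj` (holds over any field) and `eK φ g⁻¹ = eK φ g` as `φ` is real.
* `cut`: the form is nondegenerate on the range of a selfadjoint idempotent (compare `Parker.nondeg_range`, P10). `cut'`: the kernel.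
* `cut_ch`: trace of `ρ g * E`; over `Ω` the range of `act τ (es φ)` is the `φ`-isotypic component with character `mul φ • φ`:
  `trace (τ g * act τ (es φ)) = ∑_x es φ x * χ (g x) = mul χ φ * φ g` (expand `χ` by `Parker.char_eq_sum`, and for irreducible `χ` use
  `Parker.P15_aux.act_es_irr`).
* `cut_dc`: `dcf_compl`.
-/

namespace ParkerGL

noncomputable section

open Classical

variable {Ω : Type} [Field Ω] [IsAlgClosed Ω] [CharZero Ω] {c : Parker.Ctx Ω}
  {Γ : Subgroup (RingAut Ω)} {K : Type} [Field K] [CharZero K] [Algebra K Ω]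
  {G : Type} [Group G] [Finite G]

variable (K) in
/-- the coefficients of the central idempotent of `φ` -/
def eK (φ : G → Ω) : G → K := fun g =>
  if h : ∃ y : K, algebraMap K Ω y = Parker.es φ g then h.choose else 0

/-- the central idempotent of `φ` on `M` -/
def QM.E (M : QM K G) (φ : G → Ω) : Module.End K M.X := Parker.act M.ρ (eK K φ)

/-- `φ` is an irreducible character with fixed values, and real -/
structure Rl (Γ : Subgroup (RingAut Ω)) (φ : G → Ω) : Prop where
  irr : φ ∈ Parker.irr Ω G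
  fx : ∀ g, Parker.Fx Γ (φ g)
  real : Parker.du φ = φ

theorem eK_spec (hK : FixedField Γ K) {φ : G → Ω} (h : Rl Γ φ) (g : G) :
    algebraMap K Ω (eK K φ g) = Parker.es φ g := by
  have hf : Parker.Fx Γ (Parker.es φ g) := by
    unfold Parker.es
    exact Parker.fx_mul (Parker.fx_mul (h.fx 1) (Parker.fx_inv (Parker.fx_natCast Γ _))) (h.fx _)
  have h1 := (hK _).1 hf
  unfold eK
  rw [dif_pos h1]
  exact h1.choose_spec

namespace D03_aux

omit [IsAlgClosed Ω] [CharZero Ω] in
/-- trace of a restriction -/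
theorem trace_sub {X : Type} [AddCommGroup X] [Module K X] [FiniteDimensional K X]
    {T Q : Module.End K X} {W : Submodule K X} (hW : ∀ x ∈ W, T x ∈ W)
    (h1 : ∀ x, (T * Q) x ∈ W) (h2 : ∀ x ∈ W, Q x = x) :
    LinearMap.trace K W (T.restrict hW) = LinearMap.trace K X (T * Q) := by
  rw [← LinearMap.trace_restrict_eq_of_forall_mem W (T * Q) h1]
  congr 1
  apply LinearMap.ext
  intro y
  apply Subtype.ext
  show T (y : X) = T (Q (y : X))
  rw [h2 _ y.2]

theorem es_sum [Fintype G] {φ : G → Ω} (hφ : φ ∈ Parker.irr Ω G) (g : G) :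
    ∑ x, Parker.es φ x * φ (g * x) = φ g := by
  obtain ⟨n, τ, hτ, rfl⟩ := Parker.mem_irr.1 hφ
  rw [← Parker.P15_aux.trace_rho_act, Parker.idem_irr hτ, mul_one]
  rfl

theorem eK_conv (hK : FixedField Γ K) {φ : G → Ω} (h : Rl Γ φ) :
    Parker.conv (eK K φ) (eK K φ) = eK K φ := by
  let _ := Fintype.ofFinite G
  funext g
  apply (algebraMap K Ω).injective
  have h0 : Parker.conv (eK K φ) (eK K φ) g = ∑ x, eK K φ x * eK K φ (x⁻¹ * g) := rfl
  rw [h0, map_sum, eK_spec hK h]
  have h1 : ∀ x : G, algebraMap K Ω (eK K φ x * eK K φ (x⁻¹ * g)) =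
      φ 1 * (Nat.card G : Ω)⁻¹ * (Parker.es φ x * φ (g⁻¹ * x)) := by
    intro x
    rw [map_mul, eK_spec hK h, eK_spec hK h]
    have e : Parker.es φ (x⁻¹ * g) = φ 1 * (Nat.card G : Ω)⁻¹ * φ (g⁻¹ * x) := by
      unfold Parker.es
      rw [mul_inv_rev, inv_inv]
    rw [e]
    ring
  rw [Finset.sum_congr rfl fun x _ => h1 x, ← Finset.mul_sum, es_sum h.irr]
  rfl

theorem trace_E (hK : FixedField Γ K) (M : QM K G) {φ : G → Ω} (h : Rl Γ φ) (g : G) :
    algebraMap K Ω (LinearMap.trace K M.X (M.ρ g * M.E φ)) =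
      Parker.mul (M.ch Ω) φ * φ g := by
  let _ := Fintype.ofFinite G
  obtain ⟨τ, hτ, -, -⟩ := QM.ch_char (Ω := Ω) M
  have h1 := Parker.idem_trace τ h.irr g
  rw [Parker.P15_aux.trace_rho_act, hτ] at h1
  rw [← h1, QM.E, Parker.P15_aux.trace_rho_act, map_sum]
  refine Finset.sum_congr rfl fun x _ => ?_
  rw [map_mul, eK_spec hK h]
  rfl

end D03_aux

open D03_aux

theorem QM.E_idem (hK : FixedField Γ K) (M : QM K G) {φ : G → Ω} (h : Rl Γ φ) :
    M.E φ * M.E φ = M.E φ := by
  rw [QM.E, ← Parker.act_conv, eK_conv hK h]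

theorem QM.E_comm (hK : FixedField Γ K) (M : QM K G) {φ : G → Ω} (h : Rl Γ φ) (g : G) :
    M.ρ g * M.E φ = M.E φ * M.ρ g := by
  refine Parker.P15_aux.act_comm M.ρ fun x => ?_
  apply (algebraMap K Ω).injective
  rw [eK_spec hK h, eK_spec hK h]
  exact Parker.P15_aux.es_class h.irr g x

theorem QM.E_adj (hK : FixedField Γ K) (M : QM K G) {φ : G → Ω} (h : Rl Γ φ) (x y : M.X) :
    M.B (M.E φ x) y = M.B x (M.E φ y) := by
  have h1 := Parker.act_adj M.inv (eK K φ) x y
  have h2 : Parker.du (eK K φ) = eK K φ := by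
    funext g
    apply (algebraMap K Ω).injective
    show algebraMap K Ω (eK K φ g⁻¹) = _
    rw [eK_spec hK h, eK_spec hK h]
    unfold Parker.es
    rw [inv_inv]
    have h3 : φ g⁻¹ = φ g := congrFun h.real g
    rw [h3]
  rw [h2] at h1
  exact h1

namespace D03_aux

theorem E_E (hK : FixedField Γ K) (M : QM K G) {φ : G → Ω} (h : Rl Γ φ) (x : M.X) :
    M.E φ (M.E φ x) = M.E φ x :=
  congrArg (fun T : Module.End K M.X => T x) (M.E_idem hK h)

theorem nd_range (hK : FixedField Γ K) (M : QM K G) {φ : G → Ω} (h : Rl Γ φ) (x : M.X)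
    (hy : ∀ y ∈ LinearMap.range (M.E φ), M.B (M.E φ x) y = 0) : M.E φ x = 0 := by
  refine M.inv.nondeg _ fun y => ?_
  rw [← E_E hK M h x, M.E_adj hK h]
  exact hy _ ⟨y, rfl⟩

theorem nd_ker (hK : FixedField Γ K) (M : QM K G) {φ : G → Ω} (h : Rl Γ φ) (x : M.X)
    (hx : x ∈ LinearMap.ker (M.E φ)) (hy : ∀ y ∈ LinearMap.ker (M.E φ), M.B x y = 0) :
    x = 0 := by
  refine M.inv.nondeg _ fun y => ?_
  have e : y = M.E φ y + (y - M.E φ y) := by abel
  rw [LinearMap.mem_ker] at hx
  have h1 : M.B x (M.E φ y) = 0 := by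
    rw [← M.E_adj hK h, hx, map_zero, LinearMap.zero_apply]
  have h2 : M.B x (y - M.E φ y) = 0 := by
    refine hy _ ?_
    rw [LinearMap.mem_ker, map_sub, E_E hK M h, sub_self]
  rw [e, map_add, h1, h2, add_zero]

theorem st_range (hK : FixedField Γ K) (M : QM K G) {φ : G → Ω} (h : Rl Γ φ) (g : G) (x : M.X)
    (hx : x ∈ LinearMap.range (M.E φ)) : M.ρ g x ∈ LinearMap.range (M.E φ) := by
  obtain ⟨y, rfl⟩ := hx
  exact ⟨M.ρ g y, (congrArg (fun T : Module.End K M.X => T y) (M.E_comm hK h g)).symm⟩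

theorem st_ker (hK : FixedField Γ K) (M : QM K G) {φ : G → Ω} (h : Rl Γ φ) (g : G) (x : M.X)
    (hx : x ∈ LinearMap.ker (M.E φ)) : M.ρ g x ∈ LinearMap.ker (M.E φ) := by
  have h1 : M.ρ g (M.E φ x) = M.E φ (M.ρ g x) :=
    congrArg (fun T : Module.End K M.X => T x) (M.E_comm hK h g)
  rw [LinearMap.mem_ker] at hx ⊢
  rw [← h1, hx, map_zero]

end D03_aux

/-- the `φ`-component -/
def QM.cut (M : QM K G) (hK : FixedField Γ K) {φ : G → Ω} (h : Rl Γ φ) : QM K G :=
  M.sub (LinearMap.range (M.E φ))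
    (by
      rintro g _ ⟨x, rfl⟩
      refine ⟨M.ρ g x, ?_⟩
      have := congrArg (fun T : Module.End K M.X => T x) (M.E_comm hK h g)
      exact this.symm)
    (by
      rintro _ ⟨x, rfl⟩ hy
      exact D03_aux.nd_range hK M h x hy)

/-- the complement of the `φ`-component -/
def QM.cut' (M : QM K G) (hK : FixedField Γ K) {φ : G → Ω} (h : Rl Γ φ) : QM K G :=
  M.sub (LinearMap.ker (M.E φ))
    (by
      intro g x hx
      have := congrArg (fun T : Module.End K M.X => T x) (M.E_comm hK h g)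
      have h1 : M.ρ g (M.E φ x) = M.E φ (M.ρ g x) := this
      rw [LinearMap.mem_ker] at hx ⊢
      rw [← h1, hx, map_zero])
    (by
      intro x hx hy
      exact D03_aux.nd_ker hK M h x hx hy)

theorem QM.cut_ch (M : QM K G) (hK : FixedField Γ K) {φ : G → Ω} (h : Rl Γ φ) (g : G) :
    (M.cut hK h).ch Ω g = Parker.mul (M.ch Ω) φ * φ g := by
  rw [← trace_E hK M h g]
  show algebraMap K Ω (LinearMap.trace K (LinearMap.range (M.E φ))
    ((M.ρ g).restrict (st_range hK M h g))) = _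
  congr 1
  refine trace_sub _ (fun x => ?_) ?_
  · rw [M.E_comm hK h]
    exact ⟨M.ρ g x, rfl⟩
  · rintro _ ⟨x, rfl⟩
    exact E_E hK M h x

theorem QM.cut'_ch (M : QM K G) (hK : FixedField Γ K) {φ : G → Ω} (h : Rl Γ φ) (g : G) :
    (M.cut' hK h).ch Ω g = M.ch Ω g - Parker.mul (M.ch Ω) φ * φ g := by
  rw [← trace_E hK M h g]
  have h1 : M.ch Ω g = algebraMap K Ω (LinearMap.trace K M.X (M.ρ g)) := rfl
  rw [h1, ← map_sub, ← map_sub]
  show algebraMap K Ω (LinearMap.trace K (LinearMap.ker (M.E φ))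
    ((M.ρ g).restrict (st_ker hK M h g))) = _
  congr 1
  have h2 : M.ρ g - M.ρ g * M.E φ = M.ρ g * (1 - M.E φ) := by rw [mul_sub, mul_one]
  rw [h2]
  refine trace_sub _ (fun x => ?_) ?_
  · rw [LinearMap.mem_ker, ← Module.End.mul_apply, ← mul_assoc, ← M.E_comm hK h, mul_assoc,
      mul_sub, mul_one, M.E_idem hK h, sub_self, mul_zero, LinearMap.zero_apply]
  · intro x hx
    rw [LinearMap.mem_ker] at hx
    rw [LinearMap.sub_apply, hx, Module.End.one_apply, sub_zero]

theorem QM.cut_dc (M : QM K G) (hK : FixedField Γ K) {φ : G → Ω} (h : Rl Γ φ) :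
    M.dc c Γ = (M.cut hK h).dc c Γ * (M.cut' hK h).dc c Γ := by
  have hi : IsIdempotentElem (M.E φ) := M.E_idem hK h
  refine dcf_compl hK (LinearMap.IsIdempotentElem.isCompl hi) M.inv.nondeg M.inv.symm ?_
  rintro _ ⟨x, rfl⟩ y hy
  rw [LinearMap.mem_ker] at hy
  rw [M.E_adj hK h, hy, map_zero]

end

end ParkerGL
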