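import Pool.Agent.ParkerGL.D01
import Pool.Agent.Parker.P08

/-!
# MP_6c3636_al, GL_n(q), module D04: induced quadratic modules (helper7)

`P` a subgroup of the finite group `G`, `M` a quadratic `P`-module. `Y = {f : G → M.X : f (p g) = ρ(p) f(g)}`,
`(x f)(g) = f(g x)`, form `|P|⁻¹ ∑_g B(f g, f' g)`. `iota a = (g ↦ ρ(g) a for g ∈ P, 0 otherwise)`.

* nondegeneracy: pair `f` with `f' = (g ↦ ρ(p) y if g = p g₀, 0 if g ∉ P g₀)`: the value is `B (f g₀) y`.
* `ind_iota`: `(ρ g) (iota a)` for `g ∉ P` is supported outside of `P`.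
* `ind_dc`: `Y` is the internal orthogonal direct sum over the cosets (`G ⧸ P`, representatives `q.out`) of the translates
  `ρ(q.out) (iota M.X)` (the functions supported on `P q.out⁻¹`), each isometric to `M.X` by `iota`; `dcf_sum`, `dcf_iso`.
* `ind_finrank`: the dimension is `index * dim`.
* `ind_ch`: the trace of `x` on `Y`, computed with the decomposition (`x` permutes the summands:
  `LinearMap.trace_eq_sum_trace_restrict`-type lemma only for the fixed summands), or with the projection of the space of all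
  functions `G → M.X` onto `Y`: `f ↦ (g ↦ |P|⁻¹ ∑_p ρ(p)⁻¹ f(p g))`, and the trace on all functions of `f ↦ (g ↦ |P|⁻¹ ∑_p ρ(p)⁻¹ f(p g x))` is
  `∑_g |P|⁻¹ ∑_{p : p g x = g} trace ρ(p⁻¹)`, `p = g x⁻¹ g⁻¹`, `p⁻¹ = g x g⁻¹`.
-/

namespace ParkerGL

noncomputable section

open Classical

variable {K : Type} [Field K] [CharZero K] {G : Type} [Group G] [Finite G] {P : Subgroup G}

/-- the space of the induced module -/
def indS (M : QM K P) : Submodule K (G → M.X) where
  carrier := {f | ∀ (p : P) (g : G), f (p * g) = M.ρ p (f g)}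
  add_mem' := by
    intro f f' hf hf' p g
    rw [Pi.add_apply, Pi.add_apply, hf, hf', map_add]
  zero_mem' := by
    intro p g
    rw [Pi.zero_apply, Pi.zero_apply, map_zero]
  smul_mem' := by
    intro a f hf p g
    rw [Pi.smul_apply, Pi.smul_apply, hf, map_smul]

namespace D04_aux

/-- `G ≃ (G ⧸ P) × P`, `g = p * q.out⁻¹` -/
def ge (P : Subgroup G) : ((G ⧸ P) × P) ≃ G :=
  Equiv.ofBijective (fun a => (a.2 : G) * (a.1.out)⁻¹) (by
    constructor
    · rintro ⟨q, p⟩ ⟨q', p'⟩ h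
      have h1 : (p : G) * (q.out)⁻¹ = (p' : G) * (q'.out)⁻¹ := h
      have h2 : q.out * (p : G)⁻¹ = q'.out * (p' : G)⁻¹ := by
        have := congrArg (fun x : G => x⁻¹) h1
        simpa using this
      have h3 : q = q' := by
        have h4 : (QuotientGroup.mk (q.out * (p : G)⁻¹) : G ⧸ P) =
            QuotientGroup.mk (q'.out * (p' : G)⁻¹) := by rw [h2]
        have h5 : ∀ (q : G ⧸ P) (p : P), (QuotientGroup.mk (q.out * (p : G)⁻¹) : G ⧸ P) = q := by
          intro q p
          rw [QuotientGroup.mk_mul_of_mem _ (P.inv_mem p.2)]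
          exact q.out_eq
        rwa [h5, h5] at h4
      subst h3
      have h6 : (p : G) = p' := mul_right_cancel h1
      rw [Subtype.ext h6]
    · intro g
      obtain ⟨p, hp⟩ := QuotientGroup.mk_out_eq_mul P g⁻¹
      refine ⟨(QuotientGroup.mk g⁻¹, p), ?_⟩
      show (p : G) * ((QuotientGroup.mk g⁻¹ : G ⧸ P).out)⁻¹ = g
      rw [hp]
      group)

theorem ge_apply (q : G ⧸ P) (p : P) : ge P (q, p) = (p : G) * (q.out)⁻¹ := rfl

theorem sum_ge [Fintype G] [Fintype (G ⧸ P)] [Fintype P] {A : Type} [AddCommMonoid A] (F : G → A) :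
    ∑ g : G, F g = ∑ q : G ⧸ P, ∑ p : P, F ((p : G) * (q.out)⁻¹) := by
  rw [← Equiv.sum_comp (ge P), Fintype.sum_prod_type]
  rfl

theorem sum_const_ge [Fintype G] [Fintype (G ⧸ P)] (F : G → K)
    (hF : ∀ (p : P) (g : G), F (p * g) = F g) :
    (Nat.card P : K)⁻¹ * ∑ g : G, F g = ∑ q : G ⧸ P, F (q.out)⁻¹ := by
  haveI : Fintype P := Fintype.ofFinite P
  have h4 : (Nat.card P : K) ≠ 0 := Nat.cast_ne_zero.2 Nat.card_pos.ne'
  have h1 : ∀ q : G ⧸ P, ∑ p : P, F ((p : G) * (q.out)⁻¹) = (Nat.card P : K) * F (q.out)⁻¹ := by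
    intro q
    have h3 : ∀ p : P, F ((p : G) * (q.out)⁻¹) = F (q.out)⁻¹ := fun p => hF p _
    simp only [h3]
    rw [Finset.sum_const, nsmul_eq_mul, Finset.card_univ, Nat.card_eq_fintype_card]
  rw [sum_ge (P := P) F]
  simp only [h1]
  rw [← Finset.mul_sum, ← mul_assoc, inv_mul_cancel₀ h4, one_mul]

/-- for `g ∈ G` the element `g * (mk g⁻¹).out` of `P` -/
def pc (P : Subgroup G) (g : G) : P :=
  ⟨g * (QuotientGroup.mk g⁻¹ : G ⧸ P).out, by
    obtain ⟨p, hp⟩ := QuotientGroup.mk_out_eq_mul P g⁻¹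
    rw [hp]
    simp⟩

theorem pc_mul (p : P) (g : G) : pc P (p * g) = p * pc P g := by
  apply Subtype.ext
  show (p : G) * g * (QuotientGroup.mk ((p : G) * g)⁻¹ : G ⧸ P).out =
    p * (g * (QuotientGroup.mk g⁻¹ : G ⧸ P).out)
  have h1 : (QuotientGroup.mk ((p : G) * g)⁻¹ : G ⧸ P) = QuotientGroup.mk g⁻¹ := by
    rw [mul_inv_rev]
    exact QuotientGroup.mk_mul_of_mem _ (P.inv_mem p.2)
  rw [h1, mul_assoc]

theorem mk_mul_inv (p : P) (g : G) :
    (QuotientGroup.mk ((p : G) * g)⁻¹ : G ⧸ P) = QuotientGroup.mk g⁻¹ := by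
  rw [mul_inv_rev]
  exact QuotientGroup.mk_mul_of_mem _ (P.inv_mem p.2)

theorem pc_out (q : G ⧸ P) : pc P (q.out)⁻¹ = 1 := by
  apply Subtype.ext
  show (q.out)⁻¹ * (QuotientGroup.mk ((q.out)⁻¹)⁻¹ : G ⧸ P).out = 1
  have h1 : (QuotientGroup.mk ((q.out)⁻¹)⁻¹ : G ⧸ P) = q := by
    rw [inv_inv]
    exact q.out_eq
  rw [h1, inv_mul_cancel]

theorem mk_out (q : G ⧸ P) : (QuotientGroup.mk ((q.out)⁻¹)⁻¹ : G ⧸ P) = q := by
  rw [inv_inv]
  exact q.out_eq

theorem pc_spec (g : G) : (pc P g : G) * ((QuotientGroup.mk g⁻¹ : G ⧸ P).out)⁻¹ = g := by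
  show g * (QuotientGroup.mk g⁻¹ : G ⧸ P).out * ((QuotientGroup.mk g⁻¹ : G ⧸ P).out)⁻¹ = g
  rw [mul_inv_cancel_right]

/-- the space of the induced module is the space of the functions on `G ⧸ P` -/
def ev (M : QM K P) : indS M ≃ₗ[K] (G ⧸ P → M.X) where
  toFun f q := f.1 (q.out)⁻¹
  map_add' _ _ := rfl
  map_smul' _ _ := rfl
  invFun h := ⟨fun g => M.ρ (pc P g) (h (QuotientGroup.mk g⁻¹)), by
    intro p g
    show M.ρ (pc P (p * g)) (h (QuotientGroup.mk ((p : G) * g)⁻¹)) =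
      M.ρ p (M.ρ (pc P g) (h (QuotientGroup.mk g⁻¹)))
    rw [pc_mul, mk_mul_inv, map_mul]
    rfl⟩
  left_inv f := by
    apply Subtype.ext
    funext g
    show M.ρ (pc P g) (f.1 ((QuotientGroup.mk g⁻¹ : G ⧸ P).out)⁻¹) = f.1 g
    rw [← f.2 (pc P g), pc_spec]
  right_inv h := by
    funext q
    show M.ρ (pc P (q.out)⁻¹) (h (QuotientGroup.mk ((q.out)⁻¹)⁻¹)) = h q
    rw [pc_out, mk_out, map_one]
    rfl

theorem ev_apply (M : QM K P) (f : indS M) (q : G ⧸ P) : ev M f q = f.1 (q.out)⁻¹ := rfl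

theorem ev_symm_apply (M : QM K P) (h : G ⧸ P → M.X) (g : G) :
    ((ev M).symm h).1 g = M.ρ (pc P g) (h (QuotientGroup.mk g⁻¹)) := rfl

/-- the form -/
def B0 [Fintype G] (M : QM K P) : LinearMap.BilinForm K (indS M) :=
  (Nat.card P : K)⁻¹ • ∑ g : G,
    M.B.compl₁₂ ((LinearMap.proj g).comp (indS M).subtype) ((LinearMap.proj g).comp (indS M).subtype)

theorem B0_apply [Fintype G] (M : QM K P) (f f' : indS M) :
    B0 M f f' = (Nat.card P : K)⁻¹ * ∑ g : G, M.B (f.1 g) (f'.1 g) := by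
  unfold B0
  rw [LinearMap.smul_apply, LinearMap.smul_apply, smul_eq_mul, LinearMap.sum_apply,
    LinearMap.sum_apply]
  rfl

theorem B0_ev [Fintype G] [Fintype (G ⧸ P)] (M : QM K P) (f f' : indS M) :
    B0 M f f' = ∑ q : G ⧸ P, M.B (ev M f q) (ev M f' q) := by
  rw [B0_apply]
  exact sum_const_ge (fun g => M.B (f.1 g) (f'.1 g)) (by
    intro p g
    show M.B (f.1 ((p : G) * g)) (f'.1 ((p : G) * g)) = _
    rw [f.2, f'.2, M.inv.inv])

theorem B0_nondeg [Fintype G] (M : QM K P) (f : indS M) (h : ∀ f', B0 M f f' = 0) : f = 0 := by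
  letI := Fintype.ofFinite (G ⧸ P)
  apply (ev M).injective
  rw [map_zero]
  funext q
  apply M.inv.nondeg
  intro y
  have h1 := h ((ev M).symm (Pi.single q y))
  rw [B0_ev, LinearEquiv.apply_symm_apply, Finset.sum_eq_single q] at h1
  · rwa [Pi.single_eq_same] at h1
  · intro q' _ hq'
    rw [Pi.single_eq_of_ne hq', map_zero]
  · intro hq
    exact absurd (Finset.mem_univ _) hq

theorem B0_inv [Fintype G] (M : QM K P) (x : G) (f f' f1 f1' : indS M)
    (h : ∀ g, f1.1 g = f.1 (g * x)) (h' : ∀ g, f1'.1 g = f'.1 (g * x)) :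
    B0 M f1 f1' = B0 M f f' := by
  rw [B0_apply, B0_apply]
  congr 1
  rw [← Equiv.sum_comp (Equiv.mulRight x) (fun g => M.B (f.1 g) (f'.1 g))]
  refine Finset.sum_congr rfl fun g _ => ?_
  rw [h, h']
  rfl

end D04_aux

open D04_aux

/-- the induced module -/
def QM.ind (M : QM K P) : QM K G :=
  letI := Fintype.ofFinite G
  { X := indS M
    ρ :=
      { toFun := fun x =>
          { toFun := fun f => ⟨fun g => f.1 (g * x), fun p g => by
              show f.1 ((p : G) * g * x) = M.ρ p (f.1 (g * x))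
              rw [mul_assoc, f.2]⟩
            map_add' := fun _ _ => rfl
            map_smul' := fun _ _ => rfl }
        map_one' := by
          ext f g
          show f.1 (g * 1) = f.1 g
          rw [mul_one]
        map_mul' := by
          intro x y
          ext f g
          show f.1 (g * (x * y)) = f.1 (g * x * y)
          rw [mul_assoc] }
    B := (Nat.card P : K)⁻¹ • ∑ g : G,
      M.B.compl₁₂ ((LinearMap.proj g).comp (indS M).subtype) ((LinearMap.proj g).comp (indS M).subtype)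
    inv := by
      refine ⟨?_, ?_, ?_⟩
      · intro f f'
        show B0 M f f' = B0 M f' f
        rw [B0_apply, B0_apply]
        congr 1
        refine Finset.sum_congr rfl fun g _ => ?_
        exact M.inv.symm _ _
      · intro f hf
        exact B0_nondeg M f hf
      · intro x f f'
        exact B0_inv M x f f' _ _ (fun _ => rfl) (fun _ => rfl) }

theorem QM.ind_B [Fintype G] (M : QM K P) (f f' : M.ind.X) :
    M.ind.B f f' = (Nat.card P : K)⁻¹ *
      ∑ g : G, M.B ((show indS M from f).1 g) ((show indS M from f').1 g) := by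
  have h1 := @B0_apply K _ _ G _ _ P (Fintype.ofFinite G) M f f'
  have h2 : M.ind.B f f' = @B0 K _ G _ P (Fintype.ofFinite G) M f f' := rfl
  rw [h2, h1]
  congr 1
  exact Finset.sum_congr (by ext; simp) (fun _ _ => rfl)

namespace D04_aux

theorem ind_B_ev [Fintype (G ⧸ P)] (M : QM K P) (f f' : M.ind.X) :
    M.ind.B f f' = ∑ q : G ⧸ P, M.B (ev M f q) (ev M f' q) := by
  letI := Fintype.ofFinite G
  exact B0_ev M f f'

end D04_aux

theorem QM.ind_ρ (M : QM K P) (x : G) (f : M.ind.X) (g : G) :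
    (show indS M from M.ind.ρ x f).1 g = (show indS M from f).1 (g * x) := rfl

/-- the embedding of `M` in the induced module -/
def QM.iota (M : QM K P) : M.X →ₗ[K] M.ind.X where
  toFun a := (⟨fun g => if h : g ∈ P then M.ρ ⟨g, h⟩ a else 0, by
    intro p g
    show (if h : (p : G) * g ∈ P then M.ρ ⟨(p : G) * g, h⟩ a else 0) =
      M.ρ p (if h : g ∈ P then M.ρ ⟨g, h⟩ a else 0)
    by_cases h : g ∈ P
    · have h' : (p : G) * g ∈ P := P.mul_mem p.2 h
      rw [dif_pos h, dif_pos h', ← Module.End.mul_apply, ← map_mul]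
      rfl
    · have h' : (p : G) * g ∉ P := fun h1 => h ((P.mul_mem_cancel_left p.2).1 h1)
      rw [dif_neg h, dif_neg h', map_zero]⟩ : indS M)
  map_add' a b := by
    apply Subtype.ext
    funext g
    show (if h : g ∈ P then M.ρ ⟨g, h⟩ (a + b) else 0) =
      (if h : g ∈ P then M.ρ ⟨g, h⟩ a else 0) + (if h : g ∈ P then M.ρ ⟨g, h⟩ b else 0)
    by_cases h : g ∈ P
    · simp [h]
    · simp [h]
  map_smul' t a := by
    apply Subtype.ext
    funext g
    show (if h : g ∈ P then M.ρ ⟨g, h⟩ (t • a) else 0) =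
      t • (if h : g ∈ P then M.ρ ⟨g, h⟩ a else 0)
    by_cases h : g ∈ P
    · simp [h]
    · simp [h]

namespace D04_aux

theorem iota_in (M : QM K P) (a : M.X) {g : G} (h : g ∈ P) :
    (show indS M from M.iota a).1 g = M.ρ ⟨g, h⟩ a := dif_pos h

theorem iota_out (M : QM K P) (a : M.X) {g : G} (h : g ∉ P) :
    (show indS M from M.iota a).1 g = 0 := dif_neg h

end D04_aux

theorem QM.iota_comm (M : QM K P) (p : P) (a : M.X) :
    M.ind.ρ (p : G) (M.iota a) = M.iota (M.ρ p a) := by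
  apply Subtype.ext
  funext g
  show (show indS M from M.iota a).1 (g * p) = (show indS M from M.iota (M.ρ p a)).1 g
  by_cases h : g ∈ P
  · have h' : g * (p : G) ∈ P := P.mul_mem h p.2
    rw [iota_in M a h', iota_in M _ h, ← Module.End.mul_apply, ← map_mul]
    rfl
  · have h' : g * (p : G) ∉ P := fun h1 => h ((P.mul_mem_cancel_right p.2).1 h1)
    rw [iota_out M a h', iota_out M _ h]

theorem QM.iota_B (M : QM K P) (a b : M.X) : M.ind.B (M.iota a) (M.iota b) = M.B a b := by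
  haveI := Fintype.ofFinite G
  haveI := Fintype.ofFinite (G ⧸ P)
  have h4 : (Nat.card P : K) ≠ 0 := Nat.cast_ne_zero.2 Nat.card_pos.ne'
  rw [QM.ind_B]
  have h1 : ∀ g : G, M.B ((show indS M from M.iota a).1 g) ((show indS M from M.iota b).1 g) =
      if g ∈ P then M.B a b else 0 := by
    intro g
    by_cases h : g ∈ P
    · rw [iota_in M a h, iota_in M b h, M.inv.inv, if_pos h]
    · rw [iota_out M a h, if_neg h, map_zero, LinearMap.zero_apply]
  have h2 : ∑ g : G, M.B ((show indS M from M.iota a).1 g) ((show indS M from M.iota b).1 g) =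
      ∑ g : G, if g ∈ P then M.B a b else 0 := Finset.sum_congr rfl fun g _ => h1 g
  rw [h2, ← Finset.sum_filter, Finset.sum_const, nsmul_eq_mul]
  have h3 : (Finset.univ.filter (fun g : G => g ∈ P)).card = Nat.card P := by
    haveI := Fintype.ofFinite P
    rw [Nat.card_eq_fintype_card]
    exact (Fintype.card_of_subtype _ (fun x => by simp)).symm
  rw [h3, ← mul_assoc, inv_mul_cancel₀ h4, one_mul]

theorem QM.iota_orth (M : QM K P) {g : G} (hg : g ∉ P) (a b : M.X) :
    M.ind.B (M.ind.ρ g (M.iota a)) (M.iota b) = 0 := by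
  haveI := Fintype.ofFinite G
  rw [QM.ind_B]
  have h1 : ∀ x : G, M.B ((show indS M from M.ind.ρ g (M.iota a)).1 x)
      ((show indS M from M.iota b).1 x) = 0 := by
    intro x
    rw [QM.ind_ρ]
    by_cases h : x ∈ P
    · have h' : x * g ∉ P := fun h1 => hg ((P.mul_mem_cancel_left h).1 h1)
      rw [iota_out M a h', map_zero, LinearMap.zero_apply]
    · rw [iota_out M b h, map_zero]
  rw [Finset.sum_congr rfl fun x _ => h1 x, Finset.sum_const_zero, mul_zero]

namespace D04_aux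

/-- `ev` on the induced module -/
def evI (M : QM K P) : M.ind.X ≃ₗ[K] (G ⧸ P → M.X) := ev M

theorem index_eq [Fintype (G ⧸ P)] : P.index = Fintype.card (G ⧸ P) := by
  rw [Subgroup.index_eq_card, Nat.card_eq_fintype_card]

/-- the values of the character of `M`, extended by zero -/
def cx (M : QM K P) (g : G) : K := if h : g ∈ P then M.ρ.character ⟨g, h⟩ else 0

theorem cx_conj (M : QM K P) (p : P) (g : G) : cx M ((p : G) * g * (p : G)⁻¹) = cx M g := by
  unfold cx
  by_cases h : g ∈ P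
  · have h' : (p : G) * g * (p : G)⁻¹ ∈ P := P.mul_mem (P.mul_mem p.2 h) (P.inv_mem p.2)
    rw [dif_pos h, dif_pos h']
    have h1 : (⟨(p : G) * g * (p : G)⁻¹, h'⟩ : P) = p * ⟨g, h⟩ * p⁻¹ := rfl
    rw [h1, Representation.char_conj]
  · have h' : (p : G) * g * (p : G)⁻¹ ∉ P := by
      intro h1
      apply h
      have h2 := P.mul_mem (P.mul_mem (P.inv_mem p.2) h1) p.2
      have h3 : (p : G)⁻¹ * ((p : G) * g * (p : G)⁻¹) * p = g := by group
      rwa [h3] at h2
    rw [dif_neg h, dif_neg h']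

theorem trace_pi {ι : Type} [Fintype ι] [DecidableEq ι] {X : Type} [AddCommGroup X] [Module K X]
    [FiniteDimensional K X] (T : Module.End K (ι → X)) :
    LinearMap.trace K _ T = ∑ i : ι, LinearMap.trace K X
      ((LinearMap.proj i).comp (T.comp (LinearMap.single K (fun _ : ι => X) i))) := by
  have h1 : T = ∑ i : ι, (T.comp (LinearMap.single K (fun _ : ι => X) i)).comp (LinearMap.proj i) := by
    apply LinearMap.ext
    intro v
    rw [LinearMap.sum_apply]
    have h2 : v = ∑ i : ι, Pi.single i (v i) := (Finset.univ_sum_single v).symm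
    conv_lhs => rw [h2]
    rw [map_sum]
    rfl
  conv_lhs => rw [h1]
  rw [map_sum]
  refine Finset.sum_congr rfl fun i _ => ?_
  exact LinearMap.trace_comp_comm' _ _

theorem ind_ev (M : QM K P) (x : G) (h : G ⧸ P → M.X) (q : G ⧸ P) :
    evI M (M.ind.ρ x ((evI M).symm h)) q =
      M.ρ (pc P ((q.out)⁻¹ * x)) (h (QuotientGroup.mk ((q.out)⁻¹ * x)⁻¹)) := rfl

theorem char_ev [Fintype (G ⧸ P)] (M : QM K P) (x : G) :
    M.ind.ρ.character x = ∑ q : G ⧸ P, cx M ((q.out)⁻¹ * x * q.out) := by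
  show LinearMap.trace K M.ind.X (M.ind.ρ x) = _
  rw [← LinearMap.trace_conj' (M.ind.ρ x) (evI M), trace_pi]
  refine Finset.sum_congr rfl fun q _ => ?_
  have hin : (q.out)⁻¹ * x * q.out ∈ P ↔
      (QuotientGroup.mk ((q.out)⁻¹ * x)⁻¹ : G ⧸ P) = q := by
    conv_rhs => rhs; rw [← q.out_eq]
    have h1 : (QuotientGroup.mk ((q.out)⁻¹ * x)⁻¹ : G ⧸ P) = QuotientGroup.mk q.out ↔
        (((q.out)⁻¹ * x)⁻¹)⁻¹ * q.out ∈ P := QuotientGroup.eq
    rw [inv_inv] at h1
    exact h1.symm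
  by_cases h : (q.out)⁻¹ * x * q.out ∈ P
  · have hq := hin.1 h
    unfold cx
    rw [dif_pos h]
    show _ = LinearMap.trace K M.X (M.ρ ⟨(q.out)⁻¹ * x * q.out, h⟩)
    refine congrArg (LinearMap.trace K M.X) ?_
    apply LinearMap.ext
    intro v
    rw [LinearMap.comp_apply, LinearMap.comp_apply, LinearEquiv.conj_apply_apply]
    rw [LinearMap.proj_apply, ind_ev, LinearMap.single_apply]
    have h2 : pc P ((q.out)⁻¹ * x) = ⟨(q.out)⁻¹ * x * q.out, h⟩ := by
      apply Subtype.ext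
      show (q.out)⁻¹ * x * (QuotientGroup.mk ((q.out)⁻¹ * x)⁻¹ : G ⧸ P).out = _
      rw [hq]
    rw [h2, hq, Pi.single_eq_same]
  · have hq : (QuotientGroup.mk ((q.out)⁻¹ * x)⁻¹ : G ⧸ P) ≠ q := fun h1 => h (hin.2 h1)
    unfold cx
    rw [dif_neg h]
    refine (congrArg (LinearMap.trace K M.X) (?_ : _ = (0 : M.X →ₗ[K] M.X))).trans (map_zero _)
    apply LinearMap.ext
    intro v
    rw [LinearMap.comp_apply, LinearMap.comp_apply, LinearEquiv.conj_apply_apply]
    rw [LinearMap.proj_apply, ind_ev, LinearMap.single_apply, Pi.single_eq_of_ne hq, map_zero]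
    rfl

end D04_aux

theorem QM.ind_finrank (M : QM K P) :
    Module.finrank K M.ind.X = P.index * Module.finrank K M.X := by
  haveI := Fintype.ofFinite (G ⧸ P)
  rw [(evI M).finrank_eq, Module.finrank_pi_fintype, Finset.sum_const, index_eq, Finset.card_univ,
    smul_eq_mul]

theorem QM.ind_char [Fintype G] (M : QM K P) (x : G) :
    M.ind.ρ.character x = (Nat.card P : K)⁻¹ * ∑ g : G,
      if h : g * x * g⁻¹ ∈ P then M.ρ.character ⟨g * x * g⁻¹, h⟩ else 0 := by
  haveI := Fintype.ofFinite (G ⧸ P)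
  have h1 := sum_const_ge (P := P) (K := K) (fun g => cx M (g * x * g⁻¹)) (by
    intro p g
    have h2 : (p : G) * g * x * ((p : G) * g)⁻¹ = (p : G) * (g * x * g⁻¹) * (p : G)⁻¹ := by group
    show cx M ((p : G) * g * x * ((p : G) * g)⁻¹) = _
    rw [h2, cx_conj])
  rw [char_ev]
  have h3 : (Nat.card P : K)⁻¹ * ∑ g : G,
      (if h : g * x * g⁻¹ ∈ P then M.ρ.character ⟨g * x * g⁻¹, h⟩ else 0) =
      (Nat.card P : K)⁻¹ * ∑ g : G, cx M (g * x * g⁻¹) := rfl
  rw [h3, h1]
  refine Finset.sum_congr rfl fun q _ => ?_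
  rw [inv_inv]

variable {Ω : Type} [Field Ω] {c : Parker.Ctx Ω} {Γ : Subgroup (RingAut Ω)} [Algebra K Ω]

theorem QM.ind_dc (hK : FixedField Γ K) (M : QM K P) :
    M.ind.dc c Γ = M.dc c Γ ^ P.index := by
  haveI := Fintype.ofFinite (G ⧸ P)
  let b := Module.finBasis K M.X
  let b' : Module.Basis (Fin (Module.finrank K M.X) × (G ⧸ P)) K (G ⧸ P → M.X) :=
    (Pi.basis (fun _ : G ⧸ P => b)).reindex ((Equiv.sigmaEquivProd _ _).trans (Equiv.prodComm _ _))
  let b'' : Module.Basis (Fin (Module.finrank K M.X) × (G ⧸ P)) K M.ind.X := b'.map (evI M).symm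
  have hne := gram_ne b M.inv.nondeg
  have h1 : LinearMap.BilinForm.toMatrix b'' M.ind.B =
      Matrix.blockDiagonal (fun _ : G ⧸ P => LinearMap.BilinForm.toMatrix b M.B) := by
    ext ⟨i, q⟩ ⟨i', q'⟩
    rw [LinearMap.BilinForm.toMatrix_apply, ind_B_ev]
    have h2 : ∀ (q : G ⧸ P) (i : Fin (Module.finrank K M.X)),
        ev M (b'' (i, q)) = Pi.single q (b i) := by
      intro q i
      have h3 : b'' (i, q) = (evI M).symm (b' (i, q)) := Module.Basis.map_apply _ _ _
      rw [h3]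
      have h4 : ev M ((evI M).symm (b' (i, q))) = b' (i, q) := (evI M).apply_symm_apply _
      rw [h4]
      have h5 : b' (i, q) = Pi.basis (fun _ : G ⧸ P => b) ⟨q, i⟩ := Module.Basis.reindex_apply _ _ _
      rw [h5]
      exact Pi.basis_apply _ _
    rw [Finset.sum_congr rfl (g := fun q'' : G ⧸ P =>
      M.B ((Pi.single q (b i) : G ⧸ P → M.X) q'') ((Pi.single q' (b i') : G ⧸ P → M.X) q''))
      (fun q'' _ => by rw [h2, h2])]
    rw [Finset.sum_eq_single q]
    · rw [Pi.single_eq_same, Matrix.blockDiagonal_apply]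
      by_cases h : q = q'
      · subst h
        rw [Pi.single_eq_same, if_pos rfl, LinearMap.BilinForm.toMatrix_apply]
      · rw [Pi.single_eq_of_ne h, map_zero, if_neg h]
    · intro q'' _ hq
      rw [Pi.single_eq_of_ne hq, map_zero, LinearMap.zero_apply]
    · intro hq
      exact absurd (Finset.mem_univ _) hq
  show dcf c Γ M.ind.B = dcf c Γ M.B ^ P.index
  rw [dcf_basis hK b'' M.ind.B, dcf_basis hK b M.B, h1, Matrix.det_blockDiagonal, Finset.prod_const,
    map_pow, cl_pow, index_eq, Finset.card_univ]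
  intro h2
  exact hne ((map_eq_zero (algebraMap K Ω)).1 h2)

/-- Frobenius reciprocity -/
theorem QM.ind_ip [CharZero Ω] [IsAlgClosed Ω] (M : QM K P) {φ : G → Ω}
    (hφ : ∀ g x, φ (g * x * g⁻¹) = φ x) :
    Parker.ip (M.ind.ch Ω) φ = Parker.ip (M.ch Ω) (fun p : P => φ p) := by
  haveI := Fintype.ofFinite G
  haveI := Fintype.ofFinite P
  have hG : (Nat.card G : Ω) ≠ 0 := Nat.cast_ne_zero.2 Nat.card_pos.ne'
  rw [Parker.ip_eq, Parker.ip_eq]
  have h1 : ∀ x : G, M.ind.ch Ω x = (Nat.card P : Ω)⁻¹ * ∑ g : G, algebraMap K Ω (cx M (g * x * g⁻¹)) := by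
    intro x
    show algebraMap K Ω (M.ind.ρ.character x) = _
    rw [QM.ind_char, map_mul, map_inv₀, map_natCast, map_sum]
    rfl
  have h2 : ∑ x : G, M.ind.ch Ω x * φ x⁻¹ =
      (Nat.card P : Ω)⁻¹ * ∑ g : G, ∑ x : G, algebraMap K Ω (cx M (g * x * g⁻¹)) * φ x⁻¹ := by
    simp only [h1]
    rw [Finset.sum_comm, Finset.mul_sum]
    refine Finset.sum_congr rfl fun x _ => ?_
    rw [mul_assoc, Finset.sum_mul]
  have h3 : ∀ g : G, ∑ x : G, algebraMap K Ω (cx M (g * x * g⁻¹)) * φ x⁻¹ =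
      ∑ x : G, algebraMap K Ω (cx M x) * φ x⁻¹ := by
    intro g
    rw [← Equiv.sum_comp (MulAut.conj g).toEquiv (fun x => algebraMap K Ω (cx M x) * φ x⁻¹)]
    refine Finset.sum_congr rfl fun x _ => ?_
    show _ = algebraMap K Ω (cx M (g * x * g⁻¹)) * φ (g * x * g⁻¹)⁻¹
    have h4 : (g * x * g⁻¹)⁻¹ = g * x⁻¹ * g⁻¹ := by group
    rw [h4, hφ]
  have h5 : ∑ x : G, algebraMap K Ω (cx M x) * φ x⁻¹ = ∑ p : P, M.ch Ω p * φ ((p⁻¹ : P) : G) := by
    have h6 : ∀ x : G, algebraMap K Ω (cx M x) * φ x⁻¹ =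
        if x ∈ P then algebraMap K Ω (cx M x) * φ x⁻¹ else 0 := by
      intro x
      by_cases h : x ∈ P
      · rw [if_pos h]
      · rw [if_neg h]
        unfold cx
        rw [dif_neg h, map_zero, zero_mul]
    rw [Finset.sum_congr rfl fun x _ => h6 x, ← Finset.sum_filter]
    symm
    refine Finset.sum_bij (fun p _ => (p : G)) ?_ ?_ ?_ ?_
    · intro p _
      simp
    · intro p _ p' _ h
      exact Subtype.ext h
    · intro g hg
      exact ⟨⟨g, by simpa using hg⟩, Finset.mem_univ _, rfl⟩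
    · intro p _
      have h7 : cx M (p : G) = M.ρ.character p := dif_pos p.2
      rw [h7]
      rfl
  rw [h2]
  simp only [h3]
  rw [Finset.sum_const, Finset.card_univ, nsmul_eq_mul, ← Nat.card_eq_fintype_card, h5]
  have h8 : (Nat.card G : Ω)⁻¹ * ((Nat.card P : Ω)⁻¹ * ((Nat.card G : Ω) *
      ∑ p : P, M.ch Ω p * φ ((p⁻¹ : P) : G))) =
      (Nat.card P : Ω)⁻¹ * ∑ p : P, M.ch Ω p * φ ((p⁻¹ : P) : G) := by
    field_simp
  exact h8

end

end ParkerGL
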