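import Pool.Agent.ParkerGL.BDefs
import Pool.Agent.Parker.P02

/-!
# MP_6c3636_al, GL_n(q): quadratic modules over the fixed field (helper7)

`Γ` is a group of automorphisms of `Ω`. `cl x` is the class of `x ≠ 0` in `Ωˣ` modulo the `x` whose absolute value is in
`SqV` (and `cl 0 = 1`). `K` is a field with an embedding in `Ω` whose image is the fixed field of `Γ`
(hypothesis `FixedField`). A quadratic module is a representation over `K` with an invariant form; `dc` is the class of the
determinant of a Gram matrix.
-/

namespace ParkerGL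

noncomputable section

open Classical

section Classes

variable {Ω : Type} [Field Ω]

/-- the elements whose absolute value is in `SqV` -/
def SqSub (c : Parker.Ctx Ω) (Γ : Subgroup (RingAut Ω)) : Subgroup Ωˣ where
  carrier := {x | Parker.SqV c Γ (c.av (x : Ω))}
  one_mem' := by
    show Parker.SqV c Γ (c.av ((1 : Ωˣ) : Ω))
    rw [Units.val_one, map_one]
    exact Parker.sqV_one
  mul_mem' := by
    intro a b ha hb
    show Parker.SqV c Γ (c.av ((a * b : Ωˣ) : Ω))
    rw [Units.val_mul, map_mul]
    exact Parker.sqV_mul ha hb
  inv_mem' := by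
    intro a ha
    show Parker.SqV c Γ (c.av ((a⁻¹ : Ωˣ) : Ω))
    rw [Units.val_inv_eq_inv_val, map_inv₀]
    exact Parker.sqV_inv ha

/-- the group of the classes -/
abbrev Qg (c : Parker.Ctx Ω) (Γ : Subgroup (RingAut Ω)) : Type := Ωˣ ⧸ SqSub c Γ

/-- the class of `x` -/
def cl (c : Parker.Ctx Ω) (Γ : Subgroup (RingAut Ω)) (x : Ω) : Qg c Γ :=
  if h : x = 0 then 1 else QuotientGroup.mk (Units.mk0 x h)

/-- `K` is the fixed field of `Γ` -/
def FixedField (Γ : Subgroup (RingAut Ω)) (K : Type) [Field K] [Algebra K Ω] : Prop :=
  ∀ x : Ω, Parker.Fx Γ x ↔ ∃ y : K, algebraMap K Ω y = x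

end Classes

section Modules

/-- a quadratic module of the group `G` over `K` -/
structure QM (K : Type) [Field K] (G : Type) [Group G] where
  /-- the space -/
  X : Type
  [acg : AddCommGroup X]
  [mod : Module K X]
  [fd : FiniteDimensional K X]
  /-- the representation -/
  ρ : Representation K G X
  /-- the form -/
  B : LinearMap.BilinForm K X
  inv : Parker.InvForm ρ B

attribute [instance] QM.acg QM.mod QM.fd

variable {K : Type} [Field K] {Ω : Type} [Field Ω] [Algebra K Ω]

/-- the class of the determinant of a Gram matrix -/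
def dcf (c : Parker.Ctx Ω) (Γ : Subgroup (RingAut Ω)) {X : Type} [AddCommGroup X] [Module K X]
    [FiniteDimensional K X] (B : LinearMap.BilinForm K X) : Qg c Γ :=
  cl c Γ (algebraMap K Ω (LinearMap.BilinForm.toMatrix (Module.finBasis K X) B).det)

/-- the determinant class of a quadratic module -/
def QM.dc (c : Parker.Ctx Ω) (Γ : Subgroup (RingAut Ω)) {G : Type} [Group G] (M : QM K G) :
    Qg c Γ := dcf c Γ M.B

variable (Ω) in
/-- the character with values in `Ω` -/
def QM.ch {G : Type} [Group G] (M : QM K G) : G → Ω := fun g => algebraMap K Ω (M.ρ.character g)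

variable {G : Type} [Group G]

/-- a submodule on which the form is nondegenerate -/
def QM.sub (M : QM K G) (W : Submodule K M.X) (hW : ∀ g, ∀ x ∈ W, M.ρ g x ∈ W)
    (hnd : ∀ x ∈ W, (∀ y ∈ W, M.B x y = 0) → x = 0) : QM K G where
  X := W
  ρ :=
    { toFun := fun g => (M.ρ g).restrict (fun x hx => hW g x hx)
      map_one' := by
        ext x
        show M.ρ 1 (x : M.X) = x
        rw [map_one]
        rfl
      map_mul' := by
        intro g h
        ext x
        show M.ρ (g * h) (x : M.X) = M.ρ g (M.ρ h (x : M.X))
        rw [map_mul]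
        rfl }
  B := M.B.restrict W
  inv :=
    { symm := fun x y => M.inv.symm x y
      nondeg := fun x hx => Subtype.ext (hnd x x.2 (fun y hy => hx ⟨y, hy⟩))
      inv := fun g x y => M.inv.inv g x y }

/-- the form multiplied by a nonzero constant -/
def QM.scale (M : QM K G) (a : K) (ha : a ≠ 0) : QM K G where
  X := M.X
  ρ := M.ρ
  B := a • M.B
  inv :=
    { symm := fun x y => by
        show a * M.B x y = a * M.B y x
        rw [M.inv.symm]
      nondeg := fun x hx => M.inv.nondeg x (fun y => by
        have h : a * M.B x y = 0 := hx y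
        exact (mul_eq_zero.1 h).resolve_left ha)
      inv := fun g x y => by
        show a * M.B (M.ρ g x) (M.ρ g y) = a * M.B x y
        rw [M.inv.inv] }

/-- pull back along a homomorphism -/
def QM.pb {H : Type} [Group H] (M : QM K G) (f : H →* G) : QM K H where
  X := M.X
  ρ := MonoidHom.comp M.ρ f
  B := M.B
  inv :=
    { symm := M.inv.symm
      nondeg := M.inv.nondeg
      inv := fun g x y => M.inv.inv (f g) x y }

end Modules

end

end ParkerGL
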