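import Pool.Agent.Parker.P09
import Pool.Agent.Parker.P15

/-!
# MP_6c3636_al, GL_n(q), module A06: completeness of the irreducible characters, product groups
(helper7)

* `class_expand`: the difference `θ` of the two sides is a class function with `ip θ χ = 0` for all
  `χ ∈ irr Ω G` (`ip_irr`, `ip_sum_left`, `ip_smul_left`). Let `s g = θ g⁻¹`. For irreducible `ρ` the operator `act ρ s` commutes with `ρ` (`Parker.P15_aux.act_comm`),
  so it is a scalar (`Parker.schur`), its trace is `∑ s g * ρ.character g = |G| * ip ρ.character θ = 0`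
  (`Parker.trace_act`), so `act ρ s = 0` as `finrank ≠ 0` in `Ω`. So `act ρ s = 0` for every finite
  dimensional representation (decompose, or `Parker.P15_aux.eq_zero_of_irr` of P15), in particular for
  `Representation.ofMulAction Ω G G` (on `G →₀ Ω`), where `act ρ s (single 1 1) = ∑ s g • single g 1`.
* `tensor_irr`: `φ = ρ.character`, `ψ = τ.character`; the external tensor product
  `p ↦ TensorProduct.map (ρ p.1) (τ p.2)` is a representation of `G × H` with character `φ p.1 * ψ p.2`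
  (`LinearMap.trace_tensorProduct'`), and `ip` of it with itself is the product of `ip φ φ` and `ip ψ ψ`, i.e. `1`;
  `Parker.irr_iff_ip`, `Parker.exists_fin`.
* `prod_expand`: `class_expand` in each variable separately.
-/

namespace ParkerGL

noncomputable section

open Classical

variable {Ω : Type} [Field Ω] [IsAlgClosed Ω] [CharZero Ω] {G : Type} [Group G] [Finite G]
  {H : Type} [Group H] [Finite H]

namespace A06_aux

theorem eq_zero_of_ip {θ : G → Ω} (hθ : ∀ g x, θ (g * x * g⁻¹) = θ x)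
    (h : ∀ χ ∈ Parker.irr Ω G, Parker.ip θ χ = 0) : θ = 0 := by
  have _ := Fintype.ofFinite G
  have hs : ∀ g x : G, (fun g : G => θ g⁻¹) (g * x * g⁻¹) = (fun g : G => θ g⁻¹) x := by
    intro g x
    have e : (g * x * g⁻¹)⁻¹ = g * x⁻¹ * g⁻¹ := by group
    show θ (g * x * g⁻¹)⁻¹ = θ x⁻¹
    rw [e, hθ]
  let R : Representation Ω G (G → Ω) :=
    { toFun := fun g =>
        { toFun := fun f x => f (g⁻¹ * x)
          map_add' := fun _ _ => rfl
          map_smul' := fun _ _ => rfl }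
      map_one' := by
        ext f x
        simp
      map_mul' := by
        intro g g'
        ext f x
        simp [mul_assoc] }
  have key : Parker.act R (fun g => θ g⁻¹) = 0 := by
    refine Parker.P15_aux.eq_zero_of_irr R _ ?_
    intro W hW x hx
    obtain ⟨a, ha⟩ := Parker.schur hW (T := Parker.act W.toRepresentation (fun g => θ g⁻¹))
      fun g => (Parker.P15_aux.act_comm W.toRepresentation (g := g) (hs g)).symm
    have hn : (Module.finrank Ω W.toSubmodule : Ω) ≠ 0 := by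
      rw [Nat.cast_ne_zero]
      exact (Parker.irr_pos hW).ne'
    have hχ : W.toRepresentation.character ∈ Parker.irr Ω G :=
      Parker.mem_irr.2 (Parker.mem_irrSet hW)
    have ht := congrArg (LinearMap.trace Ω W.toSubmodule) ha
    rw [Parker.trace_act, map_smul, LinearMap.trace_one, smul_eq_mul] at ht
    have hc : (Nat.card G : Ω) ≠ 0 := by
      rw [Nat.cast_ne_zero]
      exact Nat.card_pos.ne'
    have h1 := h _ hχ
    rw [Parker.ip_comm, Parker.ip_eq] at h1
    have h2 : ∑ g, W.toRepresentation.character g * θ g⁻¹ = 0 := by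
      rcases mul_eq_zero.1 h1 with h3 | h3
      · exact absurd (inv_eq_zero.1 h3) hc
      · exact h3
    have h3 : ∑ g, θ g⁻¹ * W.toRepresentation.character g = 0 := by
      rw [← h2]
      exact Finset.sum_congr rfl fun g _ => mul_comm _ _
    rw [h3] at ht
    have ha0 : a = 0 := by
      rcases mul_eq_zero.1 ht.symm with h4 | h4
      · exact h4
      · exact absurd h4 hn
    have h5 := Parker.P15_aux.act_sub_apply W (fun g => θ g⁻¹) ⟨x, hx⟩
    rw [ha, ha0, zero_smul] at h5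
    rw [← h5]
    rfl
  have h6 := congrArg (fun T : Module.End Ω (G → Ω) => T (Pi.single 1 1)) key
  simp only [LinearMap.zero_apply] at h6
  rw [Parker.act_eq, LinearMap.sum_apply] at h6
  funext g
  have h7 := congrFun h6 g⁻¹
  rw [Finset.sum_apply, Finset.sum_eq_single g⁻¹] at h7
  · have h8 : ((θ (g⁻¹)⁻¹ • R g⁻¹) (Pi.single 1 1) : G → Ω) g⁻¹ =
        θ (g⁻¹)⁻¹ * (Pi.single (1 : G) (1 : Ω) : G → Ω) ((g⁻¹)⁻¹ * g⁻¹) := rfl
    rw [h8, inv_mul_cancel, Pi.single_eq_same, mul_one, inv_inv] at h7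
    exact h7
  · intro k _ hk
    have h8 : ((θ k⁻¹ • R k) (Pi.single 1 1) : G → Ω) g⁻¹ =
        θ k⁻¹ * (Pi.single (1 : G) (1 : Ω) : G → Ω) (k⁻¹ * g⁻¹) := rfl
    rw [h8, Pi.single_eq_of_ne, mul_zero]
    intro hh
    exact hk (inv_mul_eq_one.1 hh)
  · intro hh
    exact absurd (Finset.mem_univ _) hh

theorem ip_sub_left (φ φ' ψ : G → Ω) :
    Parker.ip (φ - φ') ψ = Parker.ip φ ψ - Parker.ip φ' ψ := by
  have e : φ - φ' = φ + (-1 : Ω) • φ' := by
    rw [neg_smul, one_smul, sub_eq_add_neg]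
  rw [e, Parker.ip_add_left, Parker.ip_smul_left]
  ring

end A06_aux

open A06_aux

theorem class_expand {θ : G → Ω} (hθ : ∀ g x, θ (g * x * g⁻¹) = θ x) (x : G) :
    θ x = ∑ χ ∈ Parker.irr Ω G, Parker.ip θ χ * χ x := by
  have h : θ - ∑ χ ∈ Parker.irr Ω G, Parker.ip θ χ • χ = 0 := by
    refine eq_zero_of_ip ?_ ?_
    · intro g y
      simp only [Pi.sub_apply, Finset.sum_apply, Pi.smul_apply]
      rw [hθ]
      congr 1
      refine Finset.sum_congr rfl fun χ hχ => ?_
      rw [Parker.P15_aux.irr_class hχ]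
    · intro ψ hψ
      rw [ip_sub_left, Parker.ip_sum_left, Finset.sum_eq_single ψ]
      · rw [Parker.ip_smul_left, Parker.ip_irr hψ hψ, if_pos rfl, mul_one, sub_self]
      · intro χ hχ hne
        rw [Parker.ip_smul_left, Parker.ip_irr hχ hψ, if_neg hne, mul_zero]
      · intro hh
        exact absurd hψ hh
  have h1 := congrFun h x
  simp only [Pi.sub_apply, Finset.sum_apply, Pi.smul_apply, Pi.zero_apply, smul_eq_mul] at h1
  exact sub_eq_zero.1 h1

omit [IsAlgClosed Ω] [CharZero Ω] in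
theorem ip_tensor (φ φ' : G → Ω) (ψ ψ' : H → Ω) :
    Parker.ip (fun p : G × H => φ p.1 * ψ p.2) (fun p : G × H => φ' p.1 * ψ' p.2) =
      Parker.ip φ φ' * Parker.ip ψ ψ' := by
  have _ := Fintype.ofFinite G
  have _ := Fintype.ofFinite H
  rw [Parker.ip_eq, Parker.ip_eq, Parker.ip_eq, Nat.card_prod, Nat.cast_mul, mul_inv,
    Fintype.sum_prod_type]
  have e : ∑ x : G, ∑ y : H, φ (x, y).1 * ψ (x, y).2 * (φ' (x, y)⁻¹.1 * ψ' (x, y)⁻¹.2) =
      (∑ x : G, φ x * φ' x⁻¹) * ∑ y : H, ψ y * ψ' y⁻¹ := by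
    rw [Finset.sum_mul]
    refine Finset.sum_congr rfl fun x _ => ?_
    rw [Finset.mul_sum]
    refine Finset.sum_congr rfl fun y _ => ?_
    show φ x * ψ y * (φ' x⁻¹ * ψ' y⁻¹) = φ x * φ' x⁻¹ * (ψ y * ψ' y⁻¹)
    ring
  rw [e]
  ring

theorem tensor_irr {φ : G → Ω} {ψ : H → Ω} (hφ : φ ∈ Parker.irr Ω G) (hψ : ψ ∈ Parker.irr Ω H) :
    (fun p : G × H => φ p.1 * ψ p.2) ∈ Parker.irr Ω (G × H) := by
  obtain ⟨n, ρ, hρ, rfl⟩ := Parker.mem_irr.1 hφ
  obtain ⟨m, τ, hτ, rfl⟩ := Parker.mem_irr.1 hψ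
  let ρ' : Representation Ω (G × H) (Fin n → Ω) := MonoidHom.comp ρ (MonoidHom.fst G H)
  let τ' : Representation Ω (G × H) (Fin m → Ω) := MonoidHom.comp τ (MonoidHom.snd G H)
  have hc : (ρ'.tprod τ').character = fun p : G × H => ρ.character p.1 * τ.character p.2 := by
    funext p
    show LinearMap.trace Ω _ (TensorProduct.map (ρ p.1) (τ p.2)) = _
    rw [LinearMap.trace_tensorProduct']
    rfl
  have hi : (ρ'.tprod τ').IsIrreducible := by
    rw [Parker.irr_iff_ip, hc, ip_tensor, Parker.ip_self_irr ρ hρ, Parker.ip_self_irr τ hτ,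
      one_mul]
  rw [← hc]
  exact Parker.mem_irr.2 (Parker.mem_irrSet hi)

theorem prod_expand {θ : G × H → Ω} (hθ : ∀ g x, θ (g * x * g⁻¹) = θ x) (p : G × H) :
    θ p = ∑ φ ∈ Parker.irr Ω G, ∑ ψ ∈ Parker.irr Ω H,
      Parker.ip θ (fun p => φ p.1 * ψ p.2) * (φ p.1 * ψ p.2) := by
  have _ := Fintype.ofFinite G
  have _ := Fintype.ofFinite H
  obtain ⟨x, y⟩ := p
  have h1 : ∀ y' : H, ∀ g x' : G, (fun x'' => θ (x'', y')) (g * x' * g⁻¹) =
      (fun x'' => θ (x'', y')) x' := by
    intro y' g x'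
    have := hθ (g, 1) (x', y')
    simpa using this
  have h2 : ∀ φ : G → Ω, ∀ h' y' : H,
      (fun y'' => Parker.ip (fun x'' => θ (x'', y'')) φ) (h' * y' * h'⁻¹) =
      (fun y'' => Parker.ip (fun x'' => θ (x'', y'')) φ) y' := by
    intro φ h' y'
    show Parker.ip (fun x'' => θ (x'', h' * y' * h'⁻¹)) φ = Parker.ip (fun x'' => θ (x'', y')) φ
    congr 1
    funext x''
    have := hθ (1, h') (x'', y')
    simpa using this
  have h3 : ∀ (φ : G → Ω) (ψ : H → Ω),
      Parker.ip (fun y'' => Parker.ip (fun x'' => θ (x'', y'')) φ) ψ =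
        Parker.ip θ (fun p => φ p.1 * ψ p.2) := by
    intro φ ψ
    rw [Parker.ip_eq, Parker.ip_eq, Nat.card_prod, Nat.cast_mul, mul_inv,
      Fintype.sum_prod_type_right, mul_comm (Nat.card G : Ω)⁻¹, mul_assoc]
    congr 1
    rw [Finset.mul_sum]
    refine Finset.sum_congr rfl fun y'' _ => ?_
    rw [Parker.ip_eq, mul_assoc]
    congr 1
    rw [Finset.sum_mul]
    refine Finset.sum_congr rfl fun x'' _ => ?_
    show θ (x'', y'') * φ x''⁻¹ * ψ y''⁻¹ = θ (x'', y'') * (φ x''⁻¹ * ψ y''⁻¹)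
    ring
  have e1 : θ (x, y) = ∑ φ ∈ Parker.irr Ω G, Parker.ip (fun x'' => θ (x'', y)) φ * φ x :=
    class_expand (θ := fun x'' => θ (x'', y)) (h1 y) x
  refine e1.trans (Finset.sum_congr rfl fun φ _ => ?_)
  have e2 := class_expand (θ := fun y'' => Parker.ip (fun x'' => θ (x'', y'')) φ) (h2 φ) y
  have e2' : Parker.ip (fun x'' => θ (x'', y)) φ =
    ∑ ψ ∈ Parker.irr Ω H, Parker.ip θ (fun p => φ p.1 * ψ p.2) * ψ y :=
    e2.trans (Finset.sum_congr rfl fun ψ _ => by rw [h3])
  rw [e2', Finset.sum_mul]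
  refine Finset.sum_congr rfl fun ψ _ => ?_
  ring

/-- every irreducible character of `G × H` is a product -/
theorem irr_prod {χ : G × H → Ω} (hχ : χ ∈ Parker.irr Ω (G × H)) :
    ∃ φ ∈ Parker.irr Ω G, ∃ ψ ∈ Parker.irr Ω H, χ = fun p => φ p.1 * ψ p.2 := by
  by_contra hcon
  push Not at hcon
  have h1 : χ = 0 := by
    funext p
    rw [prod_expand (Parker.P15_aux.irr_class hχ) p]
    refine Finset.sum_eq_zero fun φ hφ => Finset.sum_eq_zero fun ψ hψ => ?_
    rw [Parker.ip_irr hχ (tensor_irr hφ hψ), if_neg (hcon φ hφ ψ hψ), zero_mul]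
  have h2 := Parker.ip_irr hχ hχ
  rw [if_pos rfl, h1] at h2
  have _ := Fintype.ofFinite (G × H)
  rw [Parker.ip_eq] at h2
  simp at h2

/-- class functions which have the same inner products with the irreducible characters agree -/
theorem class_ext {θ θ' : G → Ω} (hθ : ∀ g x, θ (g * x * g⁻¹) = θ x)
    (hθ' : ∀ g x, θ' (g * x * g⁻¹) = θ' x)
    (h : ∀ χ ∈ Parker.irr Ω G, Parker.ip θ χ = Parker.ip θ' χ) : θ = θ' := by
  funext x
  rw [class_expand hθ, class_expand hθ']
  exact Finset.sum_congr rfl fun χ hχ => by rw [h χ hχ]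

end

end ParkerGL
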