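import Pool.Agent.ParkerGL.D01
import Pool.Agent.Parker.P09
import Pool.Agent.Parker.P11

/-!
# MP_6c3636_al, GL_n(q), module D02: the determinant class of a module without real constituents of odd
degree (helper7)

* `base_change`: matrices: choose a basis of `X` and apply `algebraMap K Ω` to the entries
  (`LinearMap.toMatrixAlgEquiv`, `Matrix.toLin'`; or `Ω ⊗[K] X` with `LinearMap.baseChange` and `Parker.exists_fin`). Traces, determinants and
  the form are mapped.
* `dc_formula`: the operator `act M.ρ s` (`s : G → ℚ` skew, mapped to `K`) is skew for `M.B` (`Parker.skew_of_skew`, which holds over any field), so by `dcf_skew`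
  `M.dc = cl (det)`, `det = ∏ φ, detc φ s ^ mul φ` (`Parker.det_eq_prod`, for the base change), `cl_prod`, `cl_pow`. The determinant is not zero by
  the hypothesis.
* `dc_nonreal`: the base change is `NoOdd`, so there is `s : G → ℚ` skew with nonzero determinant (`Parker.exists_skew_rat`); all `detc φ s`
  with `mul φ ≠ 0` are nonzero. In `dc_formula` pair `φ` with `du φ ≠ φ` (`Finset.prod_involution`-like argument): `mul (du φ) = mul φ` (`Parker.mul_du`,
  the base change is orthogonal so self dual, `Parker.sd_of_orth`), `detc (du φ) s = ± detc φ s` (`Parker.detc_du`, `detc_neg`, compare `Parker.P12_aux.detc_dual`), so the product of the two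
  factors is a square of `cl (detc φ s)`, which is `1` by `cl_sq`: `detc φ s` is fixed by `Γ` as `φ` and `s` are
  (`Parker.detc_sigma`, or `Parker.det_fx`). `Finset.prod_involution` applies directly with the involution `du` on the set of
  the `φ` with `mul φ ≠ 0`.
-/

namespace ParkerGL

noncomputable section

open Classical

variable {Ω : Type} [Field Ω] [IsAlgClosed Ω] [CharZero Ω] {c : Parker.Ctx Ω}
  {Γ : Subgroup (RingAut Ω)} {K : Type} [Field K] [CharZero K] [Algebra K Ω]
  {G : Type} [Group G] [Finite G]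

namespace D02_aux

/-- base change of a representation, in coordinates -/
def bc {X : Type} [AddCommGroup X] [Module K X] {n : ℕ} (b : Module.Basis (Fin n) K X)
    (ρ : Representation K G X) : Representation Ω G (Fin n → Ω) where
  toFun g := Matrix.toLin' ((LinearMap.toMatrix b b (ρ g)).map (algebraMap K Ω))
  map_one' := by
    rw [map_one, LinearMap.toMatrix_one, Matrix.map_one _ (map_zero _) (map_one _),
      Matrix.toLin'_one]
    rfl
  map_mul' x y := by
    rw [map_mul, LinearMap.toMatrix_mul, Matrix.map_mul, Matrix.toLin'_mul]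
    rfl

end D02_aux

theorem base_change {X : Type} [AddCommGroup X] [Module K X] [FiniteDimensional K X]
    (ρ : Representation K G X) :
    ∃ τ : Representation Ω G (Fin (Module.finrank K X) → Ω),
      (∀ g, τ.character g = algebraMap K Ω (ρ.character g)) ∧
      (∀ s : G → K, LinearMap.det (Parker.act τ fun g => algebraMap K Ω (s g)) =
        algebraMap K Ω (LinearMap.det (Parker.act ρ s))) ∧
      ((∃ B, Parker.InvForm ρ B) → Parker.Orth τ) := by
  let b := Module.finBasis K X
  let τ : Representation Ω G (Fin (Module.finrank K X) → Ω) := D02_aux.bc b ρ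
  have hτ : ∀ g, τ g = Matrix.toLin' ((LinearMap.toMatrix b b (ρ g)).map (algebraMap K Ω)) :=
    fun g => rfl
  refine ⟨τ, fun g => ?_, fun s => ?_, ?_⟩
  · have h1 : τ.character g = LinearMap.trace Ω (Fin (Module.finrank K X) → Ω)
        (Matrix.toLin' ((LinearMap.toMatrix b b (ρ g)).map (algebraMap K Ω))) := rfl
    have h2 : ρ.character g = Matrix.trace (LinearMap.toMatrix b b (ρ g)) :=
      LinearMap.trace_eq_matrix_trace K b (ρ g)
    rw [h1, h2, Matrix.trace_toLin'_eq]
    simp only [Matrix.trace, Matrix.diag_apply, Matrix.map_apply, map_sum]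
  · have h1 : Parker.act τ (fun g => algebraMap K Ω (s g)) =
        Matrix.toLin' ((LinearMap.toMatrix b b (Parker.act ρ s)).map (algebraMap K Ω)) := by
      apply LinearMap.toMatrix'.injective
      rw [LinearMap.toMatrix'_toLin']
      unfold Parker.act
      rw [map_sum, map_sum]
      ext i j
      simp only [Matrix.sum_apply, Matrix.map_apply, map_sum, map_smul, Matrix.smul_apply, hτ,
        LinearMap.toMatrix'_toLin', smul_eq_mul, map_mul]
    rw [h1, LinearMap.det_toLin', ← LinearMap.det_toMatrix b (Parker.act ρ s)]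
    exact ((algebraMap K Ω).map_det _).symm
  · rintro ⟨B, hB⟩
    let M := LinearMap.BilinForm.toMatrix b B
    have hMs : M.transpose = M := by
      ext i j
      rw [Matrix.transpose_apply]
      show LinearMap.BilinForm.toMatrix b B j i = LinearMap.BilinForm.toMatrix b B i j
      rw [LinearMap.BilinForm.toMatrix_apply, LinearMap.BilinForm.toMatrix_apply]
      exact hB.symm _ _
    have hMd : M.det ≠ 0 := gram_ne b hB.nondeg
    let N : Matrix (Fin (Module.finrank K X)) (Fin (Module.finrank K X)) Ω :=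
      M.map (algebraMap K Ω)
    have hNs : N.transpose = N := by
      show (M.map (algebraMap K Ω)).transpose = M.map (algebraMap K Ω)
      rw [← Matrix.transpose_map, hMs]
    have hNd : N.det ≠ 0 := by
      have h1 : N.det = algebraMap K Ω M.det := ((algebraMap K Ω).map_det _).symm
      rw [h1]
      exact (map_ne_zero _).2 hMd
    have hMi : ∀ g, (LinearMap.toMatrix b b (ρ g)).transpose * M * LinearMap.toMatrix b b (ρ g) = M := by
      intro g
      have h1 : B.comp (ρ g) (ρ g) = B := by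
        ext x y
        exact hB.inv g x y
      have h2 := LinearMap.BilinForm.toMatrix_comp b b B (ρ g) (ρ g)
      rw [h1] at h2
      exact h2.symm
    have hNi : ∀ g, ((LinearMap.toMatrix b b (ρ g)).map (algebraMap K Ω)).transpose * N *
        ((LinearMap.toMatrix b b (ρ g)).map (algebraMap K Ω)) = N := by
      intro g
      show ((LinearMap.toMatrix b b (ρ g)).map (algebraMap K Ω)).transpose * M.map (algebraMap K Ω) *
        ((LinearMap.toMatrix b b (ρ g)).map (algebraMap K Ω)) = M.map (algebraMap K Ω)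
      rw [← Matrix.transpose_map, ← Matrix.map_mul, ← Matrix.map_mul, hMi]
    refine ⟨Matrix.toBilin' N, ?_, ?_, ?_⟩
    · intro x y
      rw [Matrix.toBilin'_apply', Matrix.toBilin'_apply', Matrix.dotProduct_mulVec,
        ← Matrix.mulVec_transpose, hNs, dotProduct_comm]
    · intro x hx
      have h1 : Matrix.vecMul x N = 0 := by
        have h2 : ∀ y, Matrix.vecMul x N ⬝ᵥ y = 0 := by
          intro y
          have := hx y
          rw [Matrix.toBilin'_apply', Matrix.dotProduct_mulVec] at this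
          exact this
        exact dotProduct_eq_zero _ h2
      by_contra hx0
      exact hNd (Matrix.exists_vecMul_eq_zero_iff.1 ⟨x, hx0, h1⟩)
    · intro g x y
      rw [hτ, Matrix.toBilin'_apply', Matrix.toBilin'_apply', Matrix.toLin'_apply,
        Matrix.toLin'_apply]
      conv_rhs => rw [← hNi g]
      rw [← Matrix.mulVec_mulVec, ← Matrix.mulVec_mulVec, Matrix.dotProduct_mulVec x,
        Matrix.vecMul_transpose]

theorem QM.ch_char (M : QM K G) : ∃ τ : Representation Ω G (Fin (Module.finrank K M.X) → Ω),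
    τ.character = M.ch Ω ∧ Parker.Orth τ ∧ ∀ s : G → K,
      LinearMap.det (Parker.act τ fun g => algebraMap K Ω (s g)) =
        algebraMap K Ω (LinearMap.det (Parker.act M.ρ s)) := by
  obtain ⟨τ, h1, h2, h3⟩ := base_change (Ω := Ω) M.ρ
  exact ⟨τ, funext h1, h3 ⟨M.B, M.inv⟩, h2⟩

/-- the determinant of a rational element is fixed -/
theorem detc_fixed {φ : G → Ω} (hφ : φ ∈ Parker.irr Ω G) (hf : ∀ g, Parker.Fx Γ (φ g))
    (s : G → ℚ) : Parker.Fx Γ (Parker.detc φ fun g => (s g : Ω)) := by
  intro σ hσ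
  rw [← Parker.detc_sigma hφ]
  have h1 : (fun g => σ (φ g)) = φ := funext fun g => hf g σ hσ
  have h2 : (fun g => σ ((s g : Ω))) = fun g => (s g : Ω) := funext fun g => map_ratCast σ (s g)
  rw [h1, h2]

theorem detc_bar {φ : G → Ω} (hφ : φ ∈ Parker.irr Ω G) {s : G → ℚ} (hs : ∀ g, s g⁻¹ = - s g) :
    cl c Γ (Parker.detc (Parker.du φ) fun g => (s g : Ω)) =
      cl c Γ (Parker.detc φ fun g => (s g : Ω)) := by
  have h1 : Parker.du (fun g => (s g : Ω)) = -(fun g => (s g : Ω)) := by
    funext g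
    show ((s g⁻¹ : ℚ) : Ω) = -((s g : ℚ) : Ω)
    rw [hs g, Rat.cast_neg]
  rw [Parker.detc_du hφ, h1, Parker.detc_neg hφ]
  rcases neg_one_pow_eq_or Ω (Parker.dg φ) with h | h
  · rw [h, one_mul]
  · rw [h, neg_one_mul, cl_neg]

theorem dc_formula (hK : FixedField Γ K) (M : QM K G) {s : G → ℚ} (hs : ∀ g, s g⁻¹ = - s g)
    (hd : ∀ φ ∈ Parker.irr Ω G, Parker.mul (M.ch Ω) φ ≠ 0 →
      Parker.detc φ (fun g => (s g : Ω)) ≠ 0) :
    M.dc c Γ = ∏ φ ∈ Parker.irr Ω G,
      cl c Γ (Parker.detc φ fun g => (s g : Ω)) ^ Parker.mul (M.ch Ω) φ := by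
  obtain ⟨τ, h1, -, h3⟩ := M.ch_char (Ω := Ω)
  have hcast : (fun g => algebraMap K Ω ((s g : ℚ) : K)) = fun g => (s g : Ω) :=
    funext fun g => map_ratCast (algebraMap K Ω) (s g)
  have h4 := h3 (fun g => ((s g : ℚ) : K))
  rw [hcast, Parker.det_eq_prod, h1] at h4
  have hne : ∀ φ ∈ Parker.irr Ω G,
      Parker.detc φ (fun g => (s g : Ω)) ^ Parker.mul (M.ch Ω) φ ≠ 0 := by
    intro φ hφ
    by_cases hm : Parker.mul (M.ch Ω) φ = 0
    · rw [hm, pow_zero]
      exact one_ne_zero
    · exact pow_ne_zero _ (hd φ hφ hm)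
  have hdet : LinearMap.det (Parker.act M.ρ fun g => ((s g : ℚ) : K)) ≠ 0 := by
    intro h0
    rw [h0, map_zero] at h4
    exact (Finset.prod_ne_zero_iff.2 hne) h4
  have hsk : ∀ g, (fun g => ((s g : ℚ) : K)) g⁻¹ = -(fun g => ((s g : ℚ) : K)) g := by
    intro g
    show ((s g⁻¹ : ℚ) : K) = -((s g : ℚ) : K)
    rw [hs g, Rat.cast_neg]
  have h5 : M.dc c Γ =
      cl c Γ (algebraMap K Ω (LinearMap.det (Parker.act M.ρ fun g => ((s g : ℚ) : K)))) :=
    dcf_skew hK M.inv.nondeg M.inv.symm (Parker.skew_of_skew M.inv hsk) hdet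
  rw [h5, ← h4, cl_prod _ _ hne]
  refine Finset.prod_congr rfl fun φ hφ => ?_
  by_cases hm : Parker.mul (M.ch Ω) φ = 0
  · rw [hm, pow_zero, pow_zero, cl_one]
  · exact cl_pow _ (hd φ hφ hm) _

theorem dc_nonreal (hK : FixedField Γ K) (hF : ∀ φ ∈ Parker.irr Ω G, ∀ g, Parker.Fx Γ (φ g))
    (M : QM K G)
    (h : ∀ φ ∈ Parker.irr Ω G, Parker.mul (M.ch Ω) φ ≠ 0 → Parker.du φ ≠ φ) :
    M.dc c Γ = 1 := by
  obtain ⟨τ, h1, h2, -⟩ := M.ch_char (Ω := Ω)
  have hno : Parker.NoOdd τ := by
    rw [Parker.noOdd_iff]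
    intro φ hφ hm hd
    rw [h1] at hm
    exact absurd hd (h φ hφ hm)
  obtain ⟨s, hs, hdet⟩ := Parker.exists_skew_rat hno
  have hmul : ∀ φ ∈ Parker.irr Ω G,
      Parker.mul (M.ch Ω) (Parker.du φ) = Parker.mul (M.ch Ω) φ := by
    intro φ hφ
    rw [← h1]
    exact Parker.mul_du (Parker.sd_of_orth h2) hφ
  have hd : ∀ φ ∈ Parker.irr Ω G, Parker.mul (M.ch Ω) φ ≠ 0 →
      Parker.detc φ (fun g => (s g : Ω)) ≠ 0 := by
    intro φ hφ hm h0
    apply hdet
    rw [Parker.det_eq_prod, h1]
    apply Finset.prod_eq_zero hφ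
    rw [h0, zero_pow hm]
  rw [dc_formula hK M hs hd]
  have hsplit : ∏ φ ∈ Parker.irr Ω G,
      cl c Γ (Parker.detc φ fun g => (s g : Ω)) ^ Parker.mul (M.ch Ω) φ =
      ∏ φ ∈ (Parker.irr Ω G).filter (fun φ => Parker.mul (M.ch Ω) φ ≠ 0),
        cl c Γ (Parker.detc φ fun g => (s g : Ω)) ^ Parker.mul (M.ch Ω) φ := by
    symm
    apply Finset.prod_filter_of_ne
    intro φ _ hne hm
    apply hne
    rw [hm, pow_zero]
  rw [hsplit]
  refine Finset.prod_involution (fun φ _ => Parker.du φ) ?_ ?_ ?_ ?_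
  · intro φ hφ
    rw [Finset.mem_filter] at hφ
    have h6 : cl c Γ (Parker.detc φ fun g => (s g : Ω)) *
        cl c Γ (Parker.detc φ fun g => (s g : Ω)) = 1 := cl_sq (detc_fixed hφ.1 (hF φ hφ.1) s)
    rw [hmul φ hφ.1, detc_bar hφ.1 hs, ← pow_add, ← two_mul, pow_mul, pow_two, h6, one_pow]
  · intro φ hφ _
    rw [Finset.mem_filter] at hφ
    exact h φ hφ.1 hφ.2
  · intro φ hφ
    rw [Finset.mem_filter] at hφ ⊢
    refine ⟨Parker.du_mem_irr hφ.1, ?_⟩
    rw [hmul φ hφ.1]
    exact hφ.2
  · intro φ _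
    exact Parker.du_du φ

end

end ParkerGL
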