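import Pool.Agent.ParkerGL.A02

/-!
# MP_6c3636_al, GL_n(q), module A10: odd powers and transposes (helper7)

Decompose `V` by `exists_cyclic`; `W = U i` with the restriction of `x` has the cyclic vector `w i`.

`conj_pow`: (1) `x` is a power of `x ^ j`: `j` is odd and prime to `r` (`j ≡ 1`), so prime to the order
of `x`. Hence a cyclic vector `v_i` of `V_i` for `x` is also cyclic for `x ^ j` on `V_i`. (2) The
characteristic polynomials of `x` and `x ^ j` on `V_i` agree: over an algebraic closure
`∏ (X - a)` becomes `∏ (X - a ^ j)` and `a ^ (2 ^ k * r) = 1` implies `a ^ r = 1` in characteristic two, so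
`a ^ j = a`. (3) Two endomorphisms with cyclic vectors and the same characteristic polynomial are
conjugate: `v, x v, …, x^{d-1} v` and `v, y v, …, y^{d-1} v` (`y = x ^ j`) are bases, and the matrices are the same
companion matrix (Cayley–Hamilton). (4) Glue the isomorphisms of the summands.

Alternative to (2), (3) in one step: the minimal polynomials. For `p ∈ F[X]`: `p(x) = 0` on `V_i` iff
`p(x ^ j) = 0` on `V_i`.

`exists_dual`: on a cyclic summand `V_i` the minimal polynomial of the transpose is the one of `x`, it has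
degree `dim V_i = dim V_i^*`, so the transpose has a cyclic vector too (e.g. the coordinate form of
`x^{d-1} v` with respect to the basis `v, x v, …, x^{d-1} v`), and the same characteristic polynomial; use (3).
The dual of the direct sum is the direct sum of the duals.
-/

namespace ParkerGL

noncomputable section

namespace A10_aux

open Polynomial

section cyc

variable {F : Type} [Field F] {W : Type} [AddCommGroup W] [Module F W]
  (X : Module.End F W) (w : W)

theorem exists_poly (hw : Submodule.span F (Set.range fun i : ℕ => (X ^ i) w) = ⊤) (v : W) :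
    ∃ P : F[X], aeval X P w = v := by
  have hv : v ∈ Submodule.span F (Set.range fun i : ℕ => (X ^ i) w) := by
    rw [hw]; trivial
  induction hv using Submodule.span_induction with
  | mem y hy =>
    obtain ⟨i, rfl⟩ := hy
    exact ⟨Polynomial.X ^ i, by rw [map_pow, aeval_X]⟩
  | zero => exact ⟨0, by rw [map_zero, LinearMap.zero_apply]⟩
  | add y z _ _ hy hz =>
    obtain ⟨P, hP⟩ := hy
    obtain ⟨Q, hQ⟩ := hz
    exact ⟨P + Q, by rw [map_add, LinearMap.add_apply, hP, hQ]⟩
  | smul c y _ hy =>
    obtain ⟨P, hP⟩ := hy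
    exact ⟨c • P, by rw [map_smul, LinearMap.smul_apply, hP]⟩

variable [FiniteDimensional F W]

theorem minpoly_monic : (minpoly F X).Monic := minpoly.monic (Algebra.IsIntegral.isIntegral X)

/-- polynomials of degree less than that of the minimal polynomial suffice -/
theorem exists_poly' (hw : Submodule.span F (Set.range fun i : ℕ => (X ^ i) w) = ⊤) (v : W) :
    ∃ P : F[X], P.degree < (minpoly F X).degree ∧ aeval X P w = v := by
  obtain ⟨P, hP⟩ := exists_poly X w hw v
  refine ⟨P %ₘ minpoly F X, degree_modByMonic_lt _ (minpoly_monic X), ?_⟩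
  have h1 := congrArg (fun Q : F[X] => aeval X Q w) (modByMonic_add_div P (minpoly F X))
  simp only [map_add, map_mul, minpoly.aeval, zero_mul, add_zero] at h1
  rw [h1, hP]

theorem natDegree_minpoly (hw : Submodule.span F (Set.range fun i : ℕ => (X ^ i) w) = ⊤) :
    (minpoly F X).natDegree = Module.finrank F W := by
  apply le_antisymm
  · rw [← LinearMap.charpoly_natDegree X]
    exact natDegree_le_of_dvd (LinearMap.minpoly_dvd_charpoly X)
      (LinearMap.charpoly_monic X).ne_zero
  · have h1 : Submodule.span F (Set.range fun i : Fin (minpoly F X).natDegree =>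
        (X ^ (i : ℕ)) w) = ⊤ := by
      rw [eq_top_iff]
      intro v _
      obtain ⟨P, hP, rfl⟩ := exists_poly' X w hw v
      by_cases h0 : P = 0
      · rw [h0, map_zero, LinearMap.zero_apply]
        exact Submodule.zero_mem _
      have hd : P.natDegree < (minpoly F X).natDegree :=
        natDegree_lt_natDegree h0 hP
      rw [P.as_sum_range' _ hd, map_sum, LinearMap.sum_apply]
      refine Submodule.sum_mem _ fun i hi => ?_
      rw [aeval_monomial]
      show algebraMap F (Module.End F W) (P.coeff i) ((X ^ i) w) ∈ _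
      rw [Module.algebraMap_end_apply]
      refine Submodule.smul_mem _ _ (Submodule.subset_span ?_)
      exact ⟨⟨i, Finset.mem_range.1 hi⟩, rfl⟩
    have h2 := finrank_le_of_span_eq_top h1
    rwa [Fintype.card_fin] at h2

theorem charpoly_eq (hw : Submodule.span F (Set.range fun i : ℕ => (X ^ i) w) = ⊤) :
    X.charpoly = minpoly F X :=
  eq_of_monic_of_dvd_of_natDegree_le (minpoly_monic X) (LinearMap.charpoly_monic X)
    (LinearMap.minpoly_dvd_charpoly X) (by
      rw [natDegree_minpoly X w hw, LinearMap.charpoly_natDegree])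

/-- cyclic endomorphisms with the same minimal polynomial are conjugate -/
theorem cyclic_conj' {W' : Type} [AddCommGroup W'] [Module F W'] [FiniteDimensional F W']
    (Y : Module.End F W') (w' : W')
    (hw : Submodule.span F (Set.range fun i : ℕ => (X ^ i) w) = ⊤)
    (hw' : Submodule.span F (Set.range fun i : ℕ => (Y ^ i) w') = ⊤)
    (h : minpoly F X = minpoly F Y) : ∃ e : W ≃ₗ[F] W', ∀ v, e (X v) = Y (e v) :=
  cyclic_conj X Y w w' hw hw' (by rw [charpoly_eq X w hw, charpoly_eq Y w' hw', h])

/-- the dual of a cyclic endomorphism -/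
theorem cyclic_dual (hw : Submodule.span F (Set.range fun i : ℕ => (X ^ i) w) = ⊤) :
    ∃ e : W ≃ₗ[F] Module.Dual F W, ∀ v, e (X v) = (e v) ∘ₗ X := by
  set d := Module.finrank F W with hd
  have hdeg := natDegree_minpoly X w hw
  -- the transpose
  set Y : Module.End F (Module.Dual F W) := Module.Dual.transpose (R := F) X with hY
  have hYap : ∀ l : Module.Dual F W, Y l = l ∘ₗ X := fun l => rfl
  have hYpow : ∀ (i : ℕ) (l : Module.Dual F W) (v : W), (Y ^ i) l v = l ((X ^ i) v) := by
    intro i
    induction i with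
    | zero => intro l v; rfl
    | succ i ih =>
      intro l v
      rw [pow_succ, Module.End.mul_apply, ih, hYap, pow_succ']
      rfl
  have hYpoly : ∀ (P : F[X]) (l : Module.Dual F W) (v : W),
      aeval Y P l v = l (aeval X P v) := by
    intro P l v
    rw [aeval_eq_sum_range, aeval_eq_sum_range, LinearMap.sum_apply, LinearMap.sum_apply,
      LinearMap.sum_apply, map_sum]
    refine Finset.sum_congr rfl fun i _ => ?_
    rw [LinearMap.smul_apply, LinearMap.smul_apply, LinearMap.smul_apply, map_smul, hYpow]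
  -- the minimal polynomial
  have hmin : minpoly F X = minpoly F Y := by
    refine eq_of_monic_of_associated (minpoly_monic X) (minpoly_monic Y)
      (associated_of_dvd_dvd (minpoly.dvd F X ?_) (minpoly.dvd F Y ?_))
    · refine LinearMap.ext fun v => ?_
      rw [LinearMap.zero_apply]
      refine (Module.forall_dual_apply_eq_zero_iff F _).1 fun l => ?_
      have h0 : aeval Y (minpoly F Y) = 0 := minpoly.aeval F Y
      rw [← hYpoly, h0]
      rfl
    · refine LinearMap.ext fun l => LinearMap.ext fun v => ?_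
      rw [hYpoly, minpoly.aeval, LinearMap.zero_apply, map_zero]
      rfl
  -- the form
  obtain ⟨l, hl⟩ : ∃ l : Module.Dual F W, ∀ P : F[X], P.degree < (minpoly F X).degree →
      l (aeval X P w) = P.coeff (d - 1) := by
    have hspan : Submodule.span F (Set.range fun i : Fin d => (X ^ (i : ℕ)) w) = ⊤ := by
      rw [eq_top_iff]
      intro v _
      obtain ⟨P, hP, rfl⟩ := exists_poly' X w hw v
      by_cases h0 : P = 0
      · rw [h0, map_zero, LinearMap.zero_apply]
        exact Submodule.zero_mem _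
      have hdd : P.natDegree < d := by
        rw [hd, ← hdeg]
        exact natDegree_lt_natDegree h0 hP
      rw [P.as_sum_range' _ hdd, map_sum, LinearMap.sum_apply]
      refine Submodule.sum_mem _ fun i hi => ?_
      rw [aeval_monomial]
      show algebraMap F (Module.End F W) (P.coeff i) ((X ^ i) w) ∈ _
      rw [Module.algebraMap_end_apply]
      refine Submodule.smul_mem _ _ (Submodule.subset_span ?_)
      exact ⟨⟨i, Finset.mem_range.1 hi⟩, rfl⟩
    let b := basisOfTopLeSpanOfCardEqFinrank (fun i : Fin d => (X ^ (i : ℕ)) w) hspan.ge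
      (by rw [Fintype.card_fin])
    have hb : ∀ i : Fin d, b i = (X ^ (i : ℕ)) w := fun i => by
      simp [b]
    refine ⟨b.constr F fun i => if (i : ℕ) = d - 1 then 1 else 0, fun P hP => ?_⟩
    by_cases h0 : P = 0
    · rw [h0, map_zero, LinearMap.zero_apply, map_zero, coeff_zero]
    have hdd : P.natDegree < d := by
      rw [hd, ← hdeg]
      exact natDegree_lt_natDegree h0 hP
    conv_lhs => rw [P.as_sum_range' _ hdd, map_sum, LinearMap.sum_apply, map_sum]
    rw [Finset.sum_eq_single (d - 1)]
    · rw [aeval_monomial]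
      show (b.constr F fun i => if (i : ℕ) = d - 1 then 1 else 0)
        (algebraMap F (Module.End F W) (P.coeff (d - 1)) ((X ^ (d - 1)) w)) = _
      rw [Module.algebraMap_end_apply, map_smul]
      have h1 : (X ^ (d - 1)) w = b ⟨d - 1, by omega⟩ := (hb ⟨d - 1, by omega⟩).symm
      rw [h1, Module.Basis.constr_basis, if_pos rfl, smul_eq_mul, mul_one]
    · intro i hi hne
      rw [aeval_monomial]
      show (b.constr F fun i => if (i : ℕ) = d - 1 then 1 else 0)
        (algebraMap F (Module.End F W) (P.coeff i) ((X ^ i) w)) = _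
      rw [Module.algebraMap_end_apply, map_smul]
      have h1 : (X ^ i) w = b ⟨i, Finset.mem_range.1 hi⟩ :=
        (hb ⟨i, Finset.mem_range.1 hi⟩).symm
      rw [h1, Module.Basis.constr_basis, if_neg hne, smul_zero]
    · intro h
      exfalso
      exact h (Finset.mem_range.2 (by omega))
  -- it is cyclic
  have hcyc : Submodule.span F (Set.range fun i : ℕ => (Y ^ i) l) = ⊤ := by
    set S := Submodule.span F (Set.range fun i : ℕ => (Y ^ i) l) with hS
    have hco : S.dualCoannihilator = ⊥ := by
      rw [eq_bot_iff]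
      intro v hv
      rw [Submodule.mem_dualCoannihilator] at hv
      obtain ⟨P, hP, rfl⟩ := exists_poly' X w hw v
      by_cases h0 : P = 0
      · rw [h0, map_zero, LinearMap.zero_apply]
        exact Submodule.zero_mem _
      exfalso
      have hdd : P.natDegree < d := by
        rw [hd, ← hdeg]
        exact natDegree_lt_natDegree h0 hP
      have h1 := hv ((Y ^ (d - 1 - P.natDegree)) l) (Submodule.subset_span ⟨_, rfl⟩)
      rw [hYpow] at h1
      have h2 : (X ^ (d - 1 - P.natDegree)) (aeval X P w) =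
          aeval X (Polynomial.X ^ (d - 1 - P.natDegree) * P) w := by
        rw [map_mul, map_pow, aeval_X]
        rfl
      rw [h2, hl] at h1
      · have h3 : d - 1 = P.natDegree + (d - 1 - P.natDegree) := by omega
        have h4 : (Polynomial.X ^ (d - 1 - P.natDegree) * P).coeff (d - 1) = P.coeff P.natDegree := by
          conv_lhs => rw [h3]
          have h5 : P.natDegree + (d - 1 - P.natDegree) - 1 - P.natDegree = d - 1 - P.natDegree - 1 := by
            omega
          rw [show P.natDegree + (d - 1 - P.natDegree) = P.natDegree + (d - 1 - P.natDegree) from rfl]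
          rw [← h3, coeff_X_pow_mul', if_pos (by omega)]
          congr 1
          omega
        rw [h4] at h1
        exact h0 (leadingCoeff_eq_zero.1 h1)
      · rw [degree_eq_natDegree (minpoly_monic X).ne_zero, hdeg]
        have h5 : (Polynomial.X ^ (d - 1 - P.natDegree) * P) ≠ 0 :=
          mul_ne_zero (pow_ne_zero _ X_ne_zero) h0
        rw [degree_eq_natDegree h5, natDegree_X_pow_mul]
        · exact_mod_cast (by omega : P.natDegree + (d - 1 - P.natDegree) < d)
        · exact h0
    have h1 : S.dualCoannihilator.dualAnnihilator = S := Subspace.dualCoannihilator_dualAnnihilator_eq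
    rw [← h1, hco, Submodule.dualAnnihilator_bot]
  obtain ⟨e, he⟩ := cyclic_conj' X w Y l hw hcyc hmin
  exact ⟨e, fun v => by rw [he, hYap]⟩

end cyc

section pow

variable {F : Type} [Field F]

/-- a divisor of `T ^ r - 1` divides its expansion by `j`, `j = 1` mod `r` -/
theorem dvd_expand_one {r j : ℕ} (hj : 1 ≤ j) (hjr : r ∣ j - 1) {f : F[X]}
    (hf : f ∣ Polynomial.X ^ r - 1) : f ∣ expand F j f := by
  have h1 : (Polynomial.X : F[X]) ^ r - 1 ∣ Polynomial.X ^ (j - 1) - 1 := by
    obtain ⟨m, hm⟩ := hjr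
    rw [hm, pow_mul]
    simpa using sub_dvd_pow_sub_pow ((Polynomial.X : F[X]) ^ r) 1 m
  have h2 : (Polynomial.X : F[X]) ^ j - Polynomial.X =
      Polynomial.X * (Polynomial.X ^ (j - 1) - 1) := by
    obtain ⟨i, rfl⟩ : ∃ i, j = i + 1 := ⟨j - 1, by omega⟩
    rw [Nat.add_sub_cancel, mul_sub, mul_one, pow_succ']
  have h3 := sub_dvd_eval_sub ((Polynomial.X : F[X]) ^ j) Polynomial.X (f.map C)
  have h4 : eval ((Polynomial.X : F[X]) ^ j) (f.map C) = expand F j f := by
    rw [eval_map, expand_eq_comp_X_pow, comp]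
  have h5 : eval (Polynomial.X : F[X]) (f.map C) = f := by
    rw [eval_map, eval₂_C_X]
  rw [h4, h5] at h3
  have h8 : (Polynomial.X : F[X]) ^ (j - 1) - 1 ∣ Polynomial.X ^ j - Polynomial.X := by
    rw [h2]
    exact dvd_mul_left _ _
  have h6 : f ∣ expand F j f - f := (hf.trans (h1.trans h8)).trans h3
  have h7 := dvd_add h6 (dvd_refl f)
  rwa [sub_add_cancel] at h7

theorem dvd_expand {r j N : ℕ} (hj : 1 ≤ j) (hjr : r ∣ j - 1) (f : F[X]) :
    f ∣ (Polynomial.X ^ r - 1) ^ N → f ∣ expand F j f := by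
  induction f using WfDvdMonoid.induction_on_irreducible with
  | zero => intro _; rw [map_zero]
  | unit u hu => intro _; exact hu.dvd
  | mul a i _ hi ih =>
    intro h
    rw [map_mul]
    refine mul_dvd_mul (dvd_expand_one hj hjr ?_) (ih ((dvd_mul_left _ _).trans h))
    exact hi.prime.dvd_of_dvd_pow ((dvd_mul_right _ _).trans h)

variable [CharP F 2] {W : Type} [AddCommGroup W] [Module F W] [FiniteDimensional F W]

theorem minpoly_pow_dvd (X : Module.End F W) {k r j : ℕ} (hX : X ^ (2 ^ k * r) = 1)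
    (hj : 1 ≤ j) (hjr : r ∣ j - 1) : minpoly F (X ^ j) ∣ minpoly F X := by
  refine minpoly.dvd F _ ?_
  have h1 : minpoly F X ∣ (Polynomial.X ^ r - 1) ^ 2 ^ k := by
    refine minpoly.dvd F _ ?_
    have : Fact (Nat.Prime 2) := ⟨Nat.prime_two⟩
    rw [sub_pow_char_pow, one_pow, ← pow_mul, map_sub, map_pow, aeval_X, map_one, mul_comm, hX,
      sub_self]
  obtain ⟨q, hq⟩ := dvd_expand hj hjr _ h1
  rw [← expand_aeval, hq, map_mul, minpoly.aeval, zero_mul]

/-- `X` and `X ^ j` are conjugate if `X` is cyclic -/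
theorem cyclic_pow (X : Module.End F W) (w : W)
    (hw : Submodule.span F (Set.range fun i : ℕ => (X ^ i) w) = ⊤) {k r j : ℕ}
    (hX : X ^ (2 ^ k * r) = 1) (hr : Odd r) (hj : j ≡ 1 [MOD r]) (hj2 : Odd j) :
    ∃ e : W ≃ₗ[F] W, ∀ v, e (X v) = (X ^ j) (e v) := by
  have hj1 : 1 ≤ j := hj2.pos
  have hr1 : 1 ≤ r := hr.pos
  have hjr : r ∣ j - 1 := (Nat.modEq_iff_dvd' hj1).1 hj.symm
  have hn : 1 ≤ 2 ^ k * r := Nat.one_le_iff_ne_zero.2 (by positivity)
  -- the inverse exponent
  have hcr : Nat.Coprime j r := by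
    have h1 : Nat.gcd j r = Nat.gcd 1 r := hj.gcd_eq
    rw [Nat.gcd_one_left] at h1
    exact h1
  have hc2 : Nat.Coprime j (2 ^ k) := Nat.Coprime.pow_right k (Nat.coprime_two_right.2 hj2)
  have hc : Nat.Coprime j (2 ^ k * r) := Nat.Coprime.mul_right hc2 hcr
  obtain ⟨m, hm1, hm⟩ : ∃ m, 1 ≤ m ∧ j * m ≡ 1 [MOD 2 ^ k * r] := by
    by_cases h1 : 1 < 2 ^ k * r
    · obtain ⟨m, -, hm⟩ := Nat.exists_mul_mod_eq_one_of_coprime hc h1
      refine ⟨m + 2 ^ k * r, by omega, ?_⟩
      have h2 : j * m ≡ 1 [MOD 2 ^ k * r] := by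
        rw [Nat.ModEq, hm, Nat.mod_eq_of_lt h1]
      rw [mul_add]
      have h3 : j * (2 ^ k * r) ≡ 0 [MOD 2 ^ k * r] := by
        rw [Nat.modEq_zero_iff_dvd]
        exact dvd_mul_left _ _
      simpa using h2.add h3
    · have h2 : 2 ^ k * r = 1 := by omega
      refine ⟨1, le_rfl, ?_⟩
      rw [h2]
      exact Nat.modEq_one
  have hXm : (X ^ j) ^ m = X := by
    rw [← pow_mul]
    have h1 : X ^ (j * m) = X ^ ((j * m) % (2 ^ k * r)) := by
      conv_lhs => rw [← Nat.div_add_mod (j * m) (2 ^ k * r)]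
      rw [pow_add, pow_mul, hX, one_pow, one_mul]
    have h2 : X ^ 1 = X ^ (1 % (2 ^ k * r)) := by
      conv_lhs => rw [← Nat.div_add_mod 1 (2 ^ k * r)]
      rw [pow_add, pow_mul, hX, one_pow, one_mul]
    rw [h1, hm, ← h2, pow_one]
  have hY : (X ^ j) ^ (2 ^ k * r) = 1 := by
    rw [← pow_mul, mul_comm, pow_mul, hX, one_pow]
  have hmr : r ∣ m - 1 := by
    refine (Nat.modEq_iff_dvd' hm1).1 ?_
    have h1 : j * m ≡ 1 [MOD r] := hm.of_dvd (dvd_mul_left _ _)
    have h2 : j * m ≡ 1 * m [MOD r] := hj.mul_right m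
    rw [one_mul] at h2
    exact h1.symm.trans h2
  have hmin : minpoly F X = minpoly F (X ^ j) := by
    refine eq_of_monic_of_associated (minpoly_monic X) (minpoly_monic (X ^ j))
      (associated_of_dvd_dvd ?_ (minpoly_pow_dvd X hX hj1 hjr))
    have h1 := minpoly_pow_dvd (X ^ j) hY hm1 hmr
    rwa [hXm] at h1
  refine cyclic_conj' X w (X ^ j) w hw ?_ hmin
  rw [eq_top_iff, ← hw, Submodule.span_le]
  rintro _ ⟨i, rfl⟩
  refine Submodule.subset_span ⟨m * i, ?_⟩
  show ((X ^ j) ^ (m * i)) w = (X ^ i) w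
  rw [pow_mul, hXm]

end pow

section glue

variable {F : Type} [Field F] {V : Type} [AddCommGroup V] [Module F V]
  {ι : Type} [Fintype ι] [DecidableEq ι] {U : ι → Submodule F V}

/-- the projections of an internal direct sum -/
theorem exists_proj (hU : DirectSum.IsInternal U) :
    ∃ p : ∀ i, V →ₗ[F] U i, (∀ i (a : U i), p i a = a) ∧ (∀ i j (a : U i), i ≠ j → p j a = 0) ∧
      ∀ v, ∑ i, (p i v : V) = v := by
  classical
  let D : (DirectSum ι fun i => U i) ≃ₗ[F] V := LinearEquiv.ofBijective (DirectSum.coeLinearMap U) hU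
  have hD : ∀ i (a : U i), D.symm a = DirectSum.lof F ι (fun i => U i) i a := by
    intro i a
    rw [LinearEquiv.symm_apply_eq]
    show (a : V) = DirectSum.coeLinearMap U (DirectSum.lof F ι (fun i => U i) i a)
    rw [DirectSum.coeLinearMap_lof]
  refine ⟨fun i => (DirectSum.component F ι (fun i => U i) i) ∘ₗ (D.symm : V →ₗ[F] _), ?_, ?_, ?_⟩
  · intro i a
    show DirectSum.component F ι (fun i => U i) i (D.symm a) = a
    rw [hD, DirectSum.component.lof_self]
  · intro i j a hij
    show DirectSum.component F ι (fun i => U i) j (D.symm a) = 0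
    rw [hD, DirectSum.component.of, dif_neg hij]
  · intro v
    obtain ⟨u, rfl⟩ := D.surjective v
    have h1 : D u = ∑ i, (u i : V) := by
      show DirectSum.coeLinearMap U u = _
      rw [DirectSum.coeLinearMap_eq_dfinsuppSum]
      exact DFinsupp.sum_eq_sum_fintype _ (fun _ => rfl)
    rw [h1]
    refine Finset.sum_congr rfl fun i _ => ?_
    show ((D.symm (∑ i, (u i : V))) i : V) = u i
    rw [← h1, LinearEquiv.symm_apply_apply]

theorem proj_comm {p : ∀ i, V →ₗ[F] U i} (h1 : ∀ i (a : U i), p i a = a)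
    (h2 : ∀ i j (a : U i), i ≠ j → p j a = 0) (h3 : ∀ v, ∑ i, (p i v : V) = v)
    {x : Module.End F V} (hx : ∀ i, ∀ u ∈ U i, x u ∈ U i) (i : ι) (v : V) :
    p i (x v) = x.restrict (hx i) (p i v) := by
  conv_lhs => rw [← h3 v]
  rw [map_sum, map_sum, Finset.sum_eq_single i]
  · exact h1 i (x.restrict (hx i) (p i v))
  · intro j _ hji
    exact h2 j i (x.restrict (hx j) (p j v)) hji
  · intro h
    exact absurd (Finset.mem_univ i) h

variable [FiniteDimensional F V]

theorem glue_conj (hU : DirectSum.IsInternal U) {x y : Module.End F V}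
    (hx : ∀ i, ∀ u ∈ U i, x u ∈ U i)
    (h : ∀ i, ∃ e : U i ≃ₗ[F] U i, ∀ a, ((e (x.restrict (hx i) a) : U i) : V) = y (e a)) :
    ∃ g : V ≃ₗ[F] V, ∀ v, g (x v) = y (g v) := by
  obtain ⟨p, h1, h2, h3⟩ := exists_proj hU
  choose e he using h
  let g : V →ₗ[F] V := ∑ i, (U i).subtype ∘ₗ (e i : U i →ₗ[F] U i) ∘ₗ p i
  have hg : ∀ v, g v = ∑ i, (e i (p i v) : V) := by
    intro v
    show (∑ i, (U i).subtype ∘ₗ (e i : U i →ₗ[F] U i) ∘ₗ p i) v = _
    rw [LinearMap.sum_apply]
    rfl
  have hpg : ∀ i v, p i (g v) = e i (p i v) := by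
    intro i v
    rw [hg, map_sum, Finset.sum_eq_single i]
    · exact h1 i _
    · intro j _ hji
      exact h2 j i _ hji
    · intro h
      exact absurd (Finset.mem_univ i) h
  have hinj : Function.Injective g := by
    rw [injective_iff_map_eq_zero]
    intro v hv
    rw [← h3 v]
    refine Finset.sum_eq_zero fun i _ => ?_
    have h4 := hpg i v
    rw [hv, map_zero] at h4
    have h5 : p i v = 0 := (e i).map_eq_zero_iff.1 h4.symm
    rw [h5]
    rfl
  refine ⟨LinearEquiv.ofInjectiveEndo g hinj, fun v => ?_⟩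
  show g (x v) = y (g v)
  rw [hg, hg, map_sum]
  refine Finset.sum_congr rfl fun i _ => ?_
  rw [proj_comm h1 h2 h3 hx, he]

theorem glue_dual (hU : DirectSum.IsInternal U) {x : Module.End F V}
    (hx : ∀ i, ∀ u ∈ U i, x u ∈ U i)
    (h : ∀ i, ∃ e : U i ≃ₗ[F] Module.Dual F (U i),
      ∀ a, e (x.restrict (hx i) a) = (e a) ∘ₗ (x.restrict (hx i))) :
    ∃ g : V ≃ₗ[F] Module.Dual F V, ∀ v, g (x v) = (g v) ∘ₗ x := by
  obtain ⟨p, h1, h2, h3⟩ := exists_proj hU
  choose e he using h
  let g : V →ₗ[F] Module.Dual F V :=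
    ∑ i, (Module.Dual.transpose (R := F) (p i)) ∘ₗ (e i : U i →ₗ[F] Module.Dual F (U i)) ∘ₗ p i
  have hg : ∀ v u, g v u = ∑ i, e i (p i v) (p i u) := by
    intro v u
    show (∑ i, (Module.Dual.transpose (R := F) (p i)) ∘ₗ
      (e i : U i →ₗ[F] Module.Dual F (U i)) ∘ₗ p i) v u = _
    rw [LinearMap.sum_apply, LinearMap.sum_apply]
    rfl
  have hinj : Function.Injective g := by
    rw [injective_iff_map_eq_zero]
    intro v hv
    rw [← h3 v]
    refine Finset.sum_eq_zero fun i _ => ?_
    have h5 : e i (p i v) = 0 := by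
      refine LinearMap.ext fun a => ?_
      have h4 := hg v a
      rw [hv, LinearMap.zero_apply, Finset.sum_eq_single i] at h4
      · rw [← h1 i a]
        exact h4.symm
      · intro j _ hji
        rw [h2 i j a hji.symm, map_zero]
      · intro h
        exact absurd (Finset.mem_univ i) h
    have h6 : p i v = 0 := (e i).map_eq_zero_iff.1 h5
    rw [h6]
    rfl
  refine ⟨LinearEquiv.ofInjectiveOfFinrankEq g hinj (Subspace.dual_finrank_eq).symm, fun v => ?_⟩
  refine LinearMap.ext fun u => ?_
  show g (x v) u = g v (x u)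
  rw [hg, hg]
  refine Finset.sum_congr rfl fun i _ => ?_
  rw [proj_comm h1 h2 h3 hx, proj_comm h1 h2 h3 hx, he]
  rfl

end glue

section restrict

variable {F : Type} [Field F] {V : Type} [AddCommGroup V] [Module F V] {U : Submodule F V}
  {x : Module.End F V}

theorem restrict_pow_apply (hx : ∀ u ∈ U, x u ∈ U) (k : ℕ) (a : U) :
    (((x.restrict hx) ^ k) a : V) = (x ^ k) a := by
  induction k with
  | zero => rfl
  | succ k ih =>
    rw [pow_succ', pow_succ']
    show x (((x.restrict hx) ^ k) a : V) = x ((x ^ k) a)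
    rw [ih]

theorem restrict_cyclic (hx : ∀ u ∈ U, x u ∈ U) {w : V}
    (hw : Submodule.span F (Set.range fun k : ℕ => (x ^ k) w) = U) :
    ∃ w' : U, Submodule.span F (Set.range fun k : ℕ => ((x.restrict hx) ^ k) w') = ⊤ := by
  have hwU : w ∈ U := by
    rw [← hw]
    exact Submodule.subset_span ⟨0, rfl⟩
  refine ⟨⟨w, hwU⟩, ?_⟩
  apply Submodule.map_injective_of_injective U.injective_subtype
  have e1 : (Submodule.span F (Set.range fun k : ℕ =>
      ((x.restrict hx) ^ k) ⟨w, hwU⟩)).map U.subtype = Submodule.span F (U.subtype '' _) :=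
    Submodule.map_span _ _
  have e2 : U.subtype '' (Set.range fun k : ℕ => ((x.restrict hx) ^ k) ⟨w, hwU⟩) =
      Set.range fun k : ℕ => (x ^ k) w := by
    rw [← Set.range_comp]
    congr 1
    funext k
    exact restrict_pow_apply hx k ⟨w, hwU⟩
  rw [e1, e2, Submodule.map_top, Submodule.range_subtype]
  exact hw

end restrict

theorem coe_pow {F : Type} [Field F] {V : Type} [AddCommGroup V] [Module F V] (x : GV F V)
    (j : ℕ) (v : V) : (x ^ j) v = ((x : V →ₗ[F] V) ^ j : Module.End F V) v := by
  induction j generalizing v with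
  | zero => rfl
  | succ j ih =>
    rw [pow_succ, pow_succ]
    exact ih (x v)

end A10_aux

open A10_aux

variable {F : Type} [Field F] {V : Type} [AddCommGroup V] [Module F V] [Finite V]

theorem conj_pow [Finite F] [CharP F 2] (x : GV F V) {k r j : ℕ} (hx : x ^ (2 ^ k * r) = 1)
    (hr : Odd r) (hj : j ≡ 1 [MOD r]) (hj2 : Odd j) : ∃ g : GV F V, g * x * g⁻¹ = x ^ j := by
  have : FiniteDimensional F V := Module.Finite.of_finite
  set X : Module.End F V := (x : V →ₗ[F] V) with hXdef
  obtain ⟨ι, _, _, U, w, hU, hinv, hw⟩ := exists_cyclic X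
  have hXn : X ^ (2 ^ k * r) = 1 := by
    refine LinearMap.ext fun v => ?_
    rw [hXdef, ← A10_aux.coe_pow, hx]
    rfl
  obtain ⟨g, hg⟩ := glue_conj (y := X ^ j) hU hinv (fun i => by
    obtain ⟨w', hw'⟩ := restrict_cyclic (hinv i) (hw i)
    have hXi : (X.restrict (hinv i)) ^ (2 ^ k * r) = 1 := by
      refine LinearMap.ext fun a => Subtype.ext ?_
      rw [restrict_pow_apply, hXn]
      rfl
    obtain ⟨e, he⟩ := cyclic_pow (X.restrict (hinv i)) w' hw' hXi hr hj hj2
    exact ⟨e, fun a => by rw [he, restrict_pow_apply]⟩)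
  refine ⟨g, ?_⟩
  rw [mul_inv_eq_iff_eq_mul]
  refine LinearEquiv.ext fun v => ?_
  show g (x v) = (x ^ j) (g v)
  rw [A10_aux.coe_pow]
  exact hg v

theorem exists_dual [Finite F] (x : GV F V) :
    ∃ e : V ≃ₗ[F] Module.Dual F V, ∀ v, e (x v) = (e v) ∘ₗ (x : V →ₗ[F] V) := by
  have : FiniteDimensional F V := Module.Finite.of_finite
  obtain ⟨ι, _, _, U, w, hU, hinv, hw⟩ := exists_cyclic (x : V →ₗ[F] V)
  exact glue_dual hU hinv (fun i => by
    obtain ⟨w', hw'⟩ := restrict_cyclic (hinv i) (hw i)
    exact cyclic_dual _ w' hw')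

end

end ParkerGL
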