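import Pool.Agent.ParkerGL.QDefs
import Pool.Agent.Parker.P03
import Pool.Agent.Parker.P23

/-!
# MP_6c3636_al, GL_n(q), module D01: classes of determinants (helper7)

* `cl_eq_one`: unfold `cl`, `QuotientGroup.eq_one_iff`. `cl_sq`: `av (x * x) = (av x) ^ 2`.
* `dcf_basis`: change of basis `LinearMap.BilinForm.toMatrix_mul_basis_toMatrix`-type formula: the two Gram matrices are
  `M' = Pᵗ M P`, `det M' = (det P)^2 det M`, `det P ≠ 0`, in `K`; `cl_sq`. (If `det M = 0` both sides are `1`.) Reindex if the index types differ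
  (`Module.Basis.reindex`).
* `dcf_sim`: `b.map e` is a basis of `Y` with Gram matrix `u • M`, `det (u • M) = u ^ finrank * det M`.
* `dcf_sum`: the basis `DirectSum.IsInternal.collectedBasis` has a block diagonal Gram matrix (`Matrix.det_blockDiagonal'`,
  reindexing by the sigma type), and each block has nonzero determinant.
* `dcf_tform`: Kronecker product, `Matrix.det_kronecker`.
* `dcf_skew`: `Parker.det_skew_sq` (P03): `det Gram * det T = a ^ 2` with `a ≠ 0`; so `dcf B * cl (det T) = 1` and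
  `cl (det T) * cl (det T) = 1`.
The hypothesis `FixedField` gives `Parker.Fx Γ (algebraMap K Ω y)` for all `y : K`.
-/

namespace ParkerGL

noncomputable section

open Classical Parker.P23_aux

variable {Ω : Type} [Field Ω] {c : Parker.Ctx Ω} {Γ : Subgroup (RingAut Ω)}

namespace D01_aux

theorem cl_of_ne {x : Ω} (hx : x ≠ 0) : cl c Γ x = QuotientGroup.mk (Units.mk0 x hx) := dif_neg hx

theorem q_one_mul (a : Qg c Γ) : 1 * a = a := by
  exact one_mul a

theorem q_eq {a b : Qg c Γ} (h1 : a * b = 1) (h2 : b * b = 1) : a = b := by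
  have h3 : a = b⁻¹ := by exact eq_inv_of_mul_eq_one_left h1
  have h4 : b = b⁻¹ := by exact eq_inv_of_mul_eq_one_left h2
  exact h3.trans h4.symm

end D01_aux

open D01_aux

theorem cl_one : cl c Γ (1 : Ω) = 1 := by
  rw [cl_of_ne one_ne_zero, Units.mk0_one]
  rfl

theorem cl_zero : cl c Γ (0 : Ω) = 1 := dif_pos rfl

theorem cl_mul {x y : Ω} (hx : x ≠ 0) (hy : y ≠ 0) : cl c Γ (x * y) = cl c Γ x * cl c Γ y := by
  rw [cl_of_ne hx, cl_of_ne hy, cl_of_ne (mul_ne_zero hx hy), Units.mk0_mul]
  rfl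

theorem cl_inv (x : Ω) : cl c Γ x⁻¹ = (cl c Γ x)⁻¹ := by
  by_cases hx : x = 0
  · rw [hx, inv_zero, cl_zero, inv_one]
  · rw [eq_inv_iff_mul_eq_one, ← cl_mul (inv_ne_zero hx) hx, inv_mul_cancel₀ hx, cl_one]

theorem cl_pow (x : Ω) (hx : x ≠ 0) (n : ℕ) : cl c Γ (x ^ n) = cl c Γ x ^ n := by
  induction n with
  | zero => rw [pow_zero, pow_zero, cl_one]
  | succ n ih => rw [pow_succ, pow_succ, cl_mul (pow_ne_zero n hx) hx, ih]

theorem cl_prod {ι : Type*} (s : Finset ι) (f : ι → Ω) (h : ∀ i ∈ s, f i ≠ 0) :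
    cl c Γ (∏ i ∈ s, f i) = ∏ i ∈ s, cl c Γ (f i) := by
  induction s using Finset.induction_on with
  | empty => rw [Finset.prod_empty, Finset.prod_empty, cl_one]
  | insert a s ha ih =>
    rw [Finset.prod_insert ha, Finset.prod_insert ha,
      cl_mul (h a (Finset.mem_insert_self a s))
        (Finset.prod_ne_zero_iff.2 fun i hi => h i (Finset.mem_insert_of_mem hi)),
      ih fun i hi => h i (Finset.mem_insert_of_mem hi)]

theorem cl_eq_one {x : Ω} (hx : x ≠ 0) : cl c Γ x = 1 ↔ Parker.SqV c Γ (c.av x) := by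
  rw [cl_of_ne hx]
  exact QuotientGroup.eq_one_iff (N := SqSub c Γ) (Units.mk0 x hx)

theorem cl_of_av {x : Ω} (h : c.av x = 1) : cl c Γ x = 1 := by
  have hx : x ≠ 0 := by
    intro h0
    rw [h0, map_zero] at h
    exact zero_ne_one h
  rw [cl_eq_one hx, h]
  exact Parker.sqV_one

theorem cl_neg (x : Ω) : cl c Γ (-x) = cl c Γ x := by
  by_cases hx : x = 0
  · rw [hx, neg_zero]
  · have h1 : c.av (-1) = 1 := by rw [AbsoluteValue.map_neg, map_one]
    have h2 : -x = (-1) * x := by ring
    rw [h2, cl_mul (neg_ne_zero.2 one_ne_zero) hx, cl_of_av h1, q_one_mul]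

theorem cl_natCast {n : ℕ} (h : Odd n) : cl c Γ (n : Ω) = 1 := cl_of_av (c.odd n h)

theorem cl_sq {x : Ω} (hx : Parker.Fx Γ x) : cl c Γ x * cl c Γ x = 1 := by
  by_cases h0 : x = 0
  · rw [h0, cl_zero, q_one_mul]
  · rw [← cl_mul h0 h0, cl_eq_one (mul_ne_zero h0 h0), map_mul, ← pow_two]
    exact ⟨x, h0, hx, rfl⟩

variable {K : Type} [Field K] [Algebra K Ω]
  {X : Type} [AddCommGroup X] [Module K X] [FiniteDimensional K X]
  {Y : Type} [AddCommGroup Y] [Module K Y] [FiniteDimensional K Y]

namespace D01_aux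

theorem fx (hK : FixedField Γ K) (y : K) : Parker.Fx Γ (algebraMap K Ω y) := (hK _).2 ⟨y, rfl⟩

theorem am_ne {x : K} (hx : x ≠ 0) : algebraMap K Ω x ≠ 0 := by
  rw [Ne, map_eq_zero]
  exact hx

theorem cl_mul_self (hK : FixedField Γ K) (a x : K) :
    cl c Γ (algebraMap K Ω (a * x * a)) = cl c Γ (algebraMap K Ω x) ∨ a = 0 := by
  by_cases ha : a = 0
  · exact Or.inr ha
  · left
    by_cases hx : x = 0
    · rw [hx, mul_zero, zero_mul]
    · have h1 : a * x * a = (a * a) * x := by ring
      rw [h1, map_mul, cl_mul (am_ne (mul_ne_zero ha ha)) (am_ne hx), map_mul,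
        cl_mul (am_ne ha) (am_ne ha), cl_sq (fx hK a), q_one_mul]

theorem det_blocks {R : Type*} [CommRing R] {ι : Type*} [Fintype ι] [DecidableEq ι] {α : ι → Type*}
    [∀ i, Fintype (α i)] [∀ i, DecidableEq (α i)] (M : Matrix (Σ i, α i) (Σ i, α i) R)
    (h : ∀ x y, x.1 ≠ y.1 → M x y = 0) :
    M.det = ∏ i, (Matrix.of fun a b : α i => M ⟨i, a⟩ ⟨i, b⟩).det := by
  let e := Fintype.equivFin ι
  have hb : M.BlockTriangular (fun x => e x.1) := by
    intro x y hxy
    refine h x y fun hh => ?_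
    have hxy' : e y.1 < e x.1 := hxy
    rw [hh] at hxy'
    exact lt_irrefl _ hxy'
  rw [hb.det_fintype, ← e.prod_comp]
  refine Finset.prod_congr rfl fun i _ => ?_
  let f : α i ≃ {x : Σ i, α i // e x.1 = e i} :=
    { toFun := fun a => ⟨⟨i, a⟩, rfl⟩
      invFun := fun x => (e.injective x.2) ▸ x.1.2
      left_inv := fun a => rfl
      right_inv := by
        rintro ⟨⟨j, a⟩, hj⟩
        have hji : j = i := e.injective hj
        subst hji
        rfl }
  rw [← Matrix.det_submatrix_equiv_self f]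
  rfl

end D01_aux

theorem dcf_basis (hK : FixedField Γ K) {ι : Type} [Fintype ι] [DecidableEq ι]
    (b : Module.Basis ι K X) (B : LinearMap.BilinForm K X) :
    dcf c Γ B = cl c Γ (algebraMap K Ω (LinearMap.BilinForm.toMatrix b B).det) := by
  have hcard : Fintype.card (Fin (Module.finrank K X)) = Fintype.card ι := by
    rw [Fintype.card_fin, Module.finrank_eq_card_basis b]
  let e : Fin (Module.finrank K X) ≃ ι := Fintype.equivOfCardEq hcard
  let b' := (Module.finBasis K X).reindex e
  have h1 : (LinearMap.BilinForm.toMatrix (Module.finBasis K X) B).det =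
      (LinearMap.BilinForm.toMatrix b' B).det := by
    rw [← Matrix.det_submatrix_equiv_self e]
    congr 1
    ext i j
    rw [Matrix.submatrix_apply, LinearMap.BilinForm.toMatrix_apply,
      LinearMap.BilinForm.toMatrix_apply]
    simp only [b', Module.Basis.reindex_apply, Equiv.symm_apply_apply]
  have h2 := LinearMap.BilinForm.toMatrix_mul_basis_toMatrix (b := b) b' B
  have h3 : (LinearMap.BilinForm.toMatrix b' B).det =
      (b.toMatrix b').det * (LinearMap.BilinForm.toMatrix b B).det * (b.toMatrix b').det := by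
    rw [← h2, Matrix.det_mul, Matrix.det_mul, Matrix.det_transpose]
  have h4 : (b.toMatrix b').det ≠ 0 := by
    intro h0
    have h5 : (b'.toMatrix b).det * (b.toMatrix b').det = 1 := by
      rw [← Matrix.det_mul, Module.Basis.toMatrix_mul_toMatrix_flip, Matrix.det_one]
    rw [h0, mul_zero] at h5
    exact zero_ne_one h5
  unfold dcf
  rw [h1, h3]
  exact (cl_mul_self hK _ _).resolve_right h4

/-- the Gram determinant of a nondegenerate form is not zero -/
theorem gram_ne {ι : Type} [Fintype ι] [DecidableEq ι] (b : Module.Basis ι K X)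
    {B : LinearMap.BilinForm K X} (h : ∀ x, (∀ y, B x y = 0) → x = 0) :
    (LinearMap.BilinForm.toMatrix b B).det ≠ 0 := by
  rw [← LinearMap.BilinForm.nondegenerate_iff_det_ne_zero]
  exact LinearMap.BilinForm.Nondegenerate.ofSeparatingLeft h

theorem dcf_sq (hK : FixedField Γ K) (B : LinearMap.BilinForm K X) :
    dcf c Γ B * dcf c Γ B = 1 := cl_sq (fx hK _)

theorem dcf_sim (hK : FixedField Γ K) (e : X ≃ₗ[K] Y) {B : LinearMap.BilinForm K X}
    {B' : LinearMap.BilinForm K Y} (hB : ∀ x, (∀ y, B x y = 0) → x = 0) {u : K} (hu : u ≠ 0)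
    (h : ∀ x y, B' (e x) (e y) = u * B x y) :
    dcf c Γ B' = cl c Γ (algebraMap K Ω u) ^ Module.finrank K X * dcf c Γ B := by
  have hg := gram_ne (Module.finBasis K X) hB
  rw [dcf_basis hK ((Module.finBasis K X).map e) B']
  have h1 : LinearMap.BilinForm.toMatrix ((Module.finBasis K X).map e) B' =
      u • LinearMap.BilinForm.toMatrix (Module.finBasis K X) B := by
    ext i j
    rw [Matrix.smul_apply, LinearMap.BilinForm.toMatrix_apply, LinearMap.BilinForm.toMatrix_apply,
      Module.Basis.map_apply, Module.Basis.map_apply, h, smul_eq_mul]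
  rw [h1, Matrix.det_smul, Fintype.card_fin, map_mul,
    cl_mul (am_ne (pow_ne_zero _ hu)) (am_ne hg), map_pow, cl_pow _ (am_ne hu)]
  rfl

theorem dcf_iso (hK : FixedField Γ K) (e : X ≃ₗ[K] Y) {B : LinearMap.BilinForm K X}
    {B' : LinearMap.BilinForm K Y} (h : ∀ x y, B' (e x) (e y) = B x y) :
    dcf c Γ B' = dcf c Γ B := by
  rw [dcf_basis hK ((Module.finBasis K X).map e) B']
  have h1 : LinearMap.BilinForm.toMatrix ((Module.finBasis K X).map e) B' =
      LinearMap.BilinForm.toMatrix (Module.finBasis K X) B := by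
    ext i j
    rw [LinearMap.BilinForm.toMatrix_apply, LinearMap.BilinForm.toMatrix_apply,
      Module.Basis.map_apply, Module.Basis.map_apply, h]
  rw [h1]
  rfl

theorem dcf_sum (hK : FixedField Γ K) {ι : Type} [Fintype ι] [DecidableEq ι]
    {W : ι → Submodule K X} (hW : DirectSum.IsInternal W) {B : LinearMap.BilinForm K X}
    (hB : ∀ x, (∀ y, B x y = 0) → x = 0)
    (horth : ∀ i j, i ≠ j → ∀ x ∈ W i, ∀ y ∈ W j, B x y = 0) :
    dcf c Γ B = ∏ i, dcf c Γ (B.restrict (W i)) := by
  let b : ∀ i, Module.Basis (Fin (Module.finrank K (W i))) K (W i) :=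
    fun i => Module.finBasis K (W i)
  have h1 := det_blocks (LinearMap.BilinForm.toMatrix (hW.collectedBasis b) B) (by
    intro x y hxy
    rw [LinearMap.BilinForm.toMatrix_apply, DirectSum.IsInternal.collectedBasis_coe]
    exact horth x.1 y.1 hxy _ (b x.1 x.2).2 _ (b y.1 y.2).2)
  have h2 : ∀ i, (Matrix.of fun a a' : Fin (Module.finrank K (W i)) =>
      LinearMap.BilinForm.toMatrix (hW.collectedBasis b) B ⟨i, a⟩ ⟨i, a'⟩) =
      LinearMap.BilinForm.toMatrix (b i) (B.restrict (W i)) := by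
    intro i
    ext a a'
    rw [Matrix.of_apply, LinearMap.BilinForm.toMatrix_apply, LinearMap.BilinForm.toMatrix_apply,
      DirectSum.IsInternal.collectedBasis_coe]
    rfl
  have h3 : (LinearMap.BilinForm.toMatrix (hW.collectedBasis b) B).det =
      ∏ i, (LinearMap.BilinForm.toMatrix (b i) (B.restrict (W i))).det := by
    rw [h1]
    exact Finset.prod_congr rfl fun i _ => by rw [h2]
  have h4 := gram_ne (hW.collectedBasis b) hB
  have h5 : ∀ i, (LinearMap.BilinForm.toMatrix (b i) (B.restrict (W i))).det ≠ 0 := by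
    intro i h0
    apply h4
    rw [h3]
    exact Finset.prod_eq_zero (Finset.mem_univ i) h0
  rw [dcf_basis hK (hW.collectedBasis b) B, h3, map_prod, cl_prod _ _ fun i _ => am_ne (h5 i)]
  rfl

theorem dcf_compl (hK : FixedField Γ K) {W W' : Submodule K X} (hW : IsCompl W W')
    {B : LinearMap.BilinForm K X} (hB : ∀ x, (∀ y, B x y = 0) → x = 0)
    (hs : ∀ x y, B x y = B y x) (horth : ∀ x ∈ W, ∀ y ∈ W', B x y = 0) :
    dcf c Γ B = dcf c Γ (B.restrict W) * dcf c Γ (B.restrict W') := by
  let A : Bool → Submodule K X := fun i => bif i then W else W'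
  have hA : DirectSum.IsInternal A := by
    rw [DirectSum.isInternal_submodule_iff_isCompl A (i := true) (j := false) (by decide)
      (by ext i; cases i <;> simp)]
    exact hW
  have h1 := dcf_sum (c := c) hK hA hB (by
    intro i j hij x hx y hy
    cases i <;> cases j
    · exact absurd rfl hij
    · rw [hs]
      exact horth y hy x hx
    · exact horth x hx y hy
    · exact absurd rfl hij)
  rw [h1, Fintype.prod_bool]
  rfl

theorem dcf_tform (hK : FixedField Γ K) {B : LinearMap.BilinForm K X}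
    {B' : LinearMap.BilinForm K Y} (hB : ∀ x, (∀ y, B x y = 0) → x = 0)
    (hB' : ∀ x, (∀ y, B' x y = 0) → x = 0) :
    dcf c Γ (tform B B') =
      dcf c Γ B ^ Module.finrank K Y * dcf c Γ B' ^ Module.finrank K X := by
  have h1 := gram_ne (Module.finBasis K X) hB
  have h2 := gram_ne (Module.finBasis K Y) hB'
  rw [dcf_basis hK ((Module.finBasis K X).tensorProduct (Module.finBasis K Y)) (tform B B')]
  have h3 : LinearMap.BilinForm.toMatrix
      ((Module.finBasis K X).tensorProduct (Module.finBasis K Y)) (tform B B') =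
      Matrix.kroneckerMap (· * ·) (LinearMap.BilinForm.toMatrix (Module.finBasis K X) B)
        (LinearMap.BilinForm.toMatrix (Module.finBasis K Y) B') := by
    ext ⟨i, i'⟩ ⟨j, j'⟩
    rw [LinearMap.BilinForm.toMatrix_apply, Matrix.kroneckerMap_apply,
      LinearMap.BilinForm.toMatrix_apply, LinearMap.BilinForm.toMatrix_apply,
      Module.Basis.tensorProduct_apply, Module.Basis.tensorProduct_apply, tform_tmul]
  rw [h3, Matrix.det_kronecker, Fintype.card_fin, Fintype.card_fin, map_mul,
    cl_mul (am_ne (pow_ne_zero _ h1)) (am_ne (pow_ne_zero _ h2)), map_pow, map_pow,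
    cl_pow _ (am_ne h1), cl_pow _ (am_ne h2)]
  rfl

theorem dcf_finrank_zero (h : Module.finrank K X = 0) (B : LinearMap.BilinForm K X) :
    dcf c Γ B = 1 := by
  have hE : IsEmpty (Fin (Module.finrank K X)) := by
    rw [h]
    infer_instance
  unfold dcf
  rw [Matrix.det_isEmpty, map_one, cl_one]

theorem dcf_skew [CharZero K] (hK : FixedField Γ K) {B : LinearMap.BilinForm K X}
    (hB : ∀ x, (∀ y, B x y = 0) → x = 0) (hs : ∀ x y, B x y = B y x) {T : Module.End K X}
    (hT : ∀ x y, B (T x) y = - B x (T y)) (hd : LinearMap.det T ≠ 0) :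
    dcf c Γ B = cl c Γ (algebraMap K Ω (LinearMap.det T)) := by
  obtain ⟨a, ha⟩ := Parker.det_skew_sq (two_ne_zero) (Module.finBasis K X) hs hT
  have hg := gram_ne (Module.finBasis K X) hB
  have ha0 : a ≠ 0 := by
    rintro rfl
    rw [zero_pow two_ne_zero] at ha
    exact mul_ne_zero hg hd ha
  have h1 : dcf c Γ B * cl c Γ (algebraMap K Ω (LinearMap.det T)) = 1 := by
    unfold dcf
    rw [← cl_mul (am_ne hg) (am_ne hd), ← map_mul, ha, pow_two, map_mul,
      cl_mul (am_ne ha0) (am_ne ha0), cl_sq (fx hK a)]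
  have h2 : cl c Γ (algebraMap K Ω (LinearMap.det T)) *
      cl c Γ (algebraMap K Ω (LinearMap.det T)) = 1 := cl_sq (fx hK _)
  exact q_eq h1 h2

end

end ParkerGL
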