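import Pool.Agent.Parker.P09
import Pool.Agent.Parker.P10
import Pool.Agent.Parker.P11

/-!
# MP_6c3636_al, GL_n(q), module D11: a generic skew element (helper7)

* `exists_generic`: `Parker.exists_skew_rat` for the direct sum of all irreducible representations which are not real of odd degree
  (e.g. take the function `ψ = ∑ φ` over these and a representation with this character; or for each `φ` separately and a generic rational
  combination: `Parker.exists_rat_point` in P11). `NoOdd` can be checked with `Parker.noOdd_iff`.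
-/

namespace ParkerGL

noncomputable section

open Classical

theorem exists_generic (Ω : Type) [Field Ω] [IsAlgClosed Ω] [CharZero Ω] (G : Type) [Group G]
    [Finite G] : ∃ s : G → ℚ, (∀ g, s g⁻¹ = - s g) ∧
      ∀ φ ∈ Parker.irr Ω G, ¬ (Parker.du φ = φ ∧ Odd (Parker.dg φ)) →
        Parker.detc φ (fun g => (s g : Ω)) ≠ 0 := by
  let _ := Fintype.ofFinite G
  let K := {φ // φ ∈ (Parker.irr Ω G).filter fun φ => ¬ (Parker.du φ = φ ∧ Odd (Parker.dg φ))}
  have hK : ∀ k : K, k.1 ∈ Parker.irr Ω G ∧ ¬ (Parker.du k.1 = k.1 ∧ Odd (Parker.dg k.1)) :=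
    fun k => Finset.mem_filter.1 k.2
  have hex : ∀ k : K, ∃ (n : ℕ) (τ : Representation Ω G (Fin n → Ω)), τ.IsIrreducible ∧
      τ.character = k.1 := fun k => Parker.mem_irr.1 (hK k).1
  choose n τ hτ hch using hex
  have hpt : ∀ k : K, ∃ x : G → Ω,
      LinearMap.det (∑ g, x g • (τ k g - τ k g⁻¹)) ≠ 0 := by
    intro k
    have hno : ¬ (Parker.SD (τ k) ∧ Odd (Module.finrank Ω (Fin (n k) → Ω))) := by
      rintro ⟨h1, h2⟩
      have h3 : Parker.du k.1 = k.1 := by
        funext g
        rw [← hch k]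
        exact h1 g
      apply (hK k).2
      refine ⟨h3, ?_⟩
      rw [← hch k, Parker.dg_char]
      exact h2
    obtain ⟨s, hs, hd⟩ := Parker.exists_skew_irr (hτ k) hno
    refine ⟨fun g => (2 : Ω)⁻¹ * s g, ?_⟩
    have e : ∑ g, ((2 : Ω)⁻¹ * s g) • (τ k g - τ k g⁻¹) = Parker.act (τ k) s := by
      rw [Parker.act_eq]
      have e2 : ∑ g, ((2 : Ω)⁻¹ * s g) • τ k g⁻¹ = - ∑ g, ((2 : Ω)⁻¹ * s g) • τ k g := by
        rw [← Finset.sum_neg_distrib]
        refine Fintype.sum_equiv (Equiv.inv G) _ _ fun g => ?_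
        simp only [Equiv.inv_apply, hs, mul_neg]
        rw [neg_smul (2⁻¹ * s g) (τ k g⁻¹), neg_neg]
      simp only [smul_sub, Finset.sum_sub_distrib]
      rw [e2, sub_neg_eq_add, ← Finset.sum_add_distrib]
      refine Finset.sum_congr rfl fun g _ => ?_
      rw [← add_smul]
      congr 1
      ring
    rw [e]
    exact hd
  let _ : Fintype K := Finset.Subtype.fintype _
  obtain ⟨q, hq⟩ := Parker.exists_rat_point (fun k g => τ k g - τ k g⁻¹) hpt
  refine ⟨fun g => q g - q g⁻¹, fun g => by simp, ?_⟩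
  intro φ hφ hm
  let k : K := ⟨φ, Finset.mem_filter.2 ⟨hφ, hm⟩⟩
  have h1 : Parker.detc φ (fun g => ((q g - q g⁻¹ : ℚ) : Ω)) =
      LinearMap.det (Parker.act (τ k) (fun g => ((q g - q g⁻¹ : ℚ) : Ω))) := by
    rw [← Parker.detc_char (hτ k), hch k]
  rw [h1]
  have e : Parker.act (τ k) (fun g => ((q g - q g⁻¹ : ℚ) : Ω)) =
      ∑ g, (q g : Ω) • (τ k g - τ k g⁻¹) := by
    rw [Parker.act_eq]
    have e2 : ∑ g, (q g : Ω) • τ k g⁻¹ = ∑ g, (q g⁻¹ : Ω) • τ k g := by
      refine Fintype.sum_equiv (Equiv.inv G) _ _ fun g => ?_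
      simp only [Equiv.inv_apply, inv_inv]
    simp only [smul_sub, Finset.sum_sub_distrib]
    rw [e2, ← Finset.sum_sub_distrib]
    refine Finset.sum_congr rfl fun g _ => ?_
    rw [← sub_smul, Rat.cast_sub]
  rw [e]
  exact hq k

end

end ParkerGL
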