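import Pool.Agent.ParkerGL.D03
import Pool.Agent.ParkerGL.D04
import Pool.Agent.Parker.P15

/-!
# MP_6c3636_al, GL_n(q), module D05: projections of `M` to a constituent of the induced module (helper7)

`M` a quadratic `P`-module, `A₀` a `P`-stable subspace of `M.X` with irreducible character `α` (over `Ω`), `φ` a real irreducible character
of `G` with fixed values which contains `α` once. `E = M.ind.E φ` is a selfadjoint idempotent (`E_adj`, `E_idem`), so
`B (E (iota w)) (E (iota w')) = B (E (iota w)) (iota w') = ∑_g eK φ g * B (ρ(g) (iota w)) (iota w')`, and the terms with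
`g ∉ P` vanish (`iota_orth`); for `g ∈ P` `B (ρ(g) (iota w)) (iota w') = M.B (ρ(g) w) w'` (`iota_comm`, `iota_B`). So the value is
`M.B (T w) w'` with `T = ∑_{g ∈ P} eK φ g • M.ρ g`. `T` commutes with `P` (as `φ` is a class function) and preserves
`A₀`; on the base change of `A₀` (`base_change`), which is irreducible (`α ∈ irr Ω P`; `Parker.irr_iff_ip`), it is a scalar (`Parker.schur`), whose trace is
`∑_{g ∈ P} es φ g * α g = φ 1 * |G|⁻¹ * |P| * ip α (φ|P)`, so the scalar is `u = φ 1 * |P| * |G|⁻¹ * (α 1)⁻¹`, and it is in `K` (it is a rational number: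
`φ 1`, `α 1` are natural numbers). [Alternatively: `T|A₀` is a scalar over `K` because its base change is one.]
-/

namespace ParkerGL

noncomputable section

open Classical

variable {Ω : Type} [Field Ω] [IsAlgClosed Ω] [CharZero Ω] {c : Parker.Ctx Ω}
  {Γ : Subgroup (RingAut Ω)} {K : Type} [Field K] [CharZero K] [Algebra K Ω]
  {G : Type} [Group G] [Finite G] {P : Subgroup G}

/-- the representation on a stable subspace -/
def subR {K : Type} [Field K] {G : Type} [Group G] {X : Type} [AddCommGroup X] [Module K X]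
    (ρ : Representation K G X) (W : Submodule K X) (hW : ∀ g, ∀ x ∈ W, ρ g x ∈ W) :
    Representation K G W where
  toFun := fun g => (ρ g).restrict (fun x hx => hW g x hx)
  map_one' := by
    ext x
    show ρ 1 (x : X) = x
    rw [map_one]
    rfl
  map_mul' := by
    intro g h
    ext x
    show ρ (g * h) (x : X) = ρ g (ρ h (x : X))
    rw [map_mul]
    rfl

namespace D05_aux

variable {X : Type} [AddCommGroup X] [Module K X] {n : ℕ}

/-- base change of operators, in a basis -/
def bcm (Ω : Type) [Field Ω] [Algebra K Ω] (b : Module.Basis (Fin n) K X) :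
    Module.End K X →+* Module.End Ω (Fin n → Ω) :=
  (Matrix.toLinAlgEquiv' (R := Ω) (n := Fin n)).toRingEquiv.toRingHom.comp
    ((RingHom.mapMatrix (algebraMap K Ω)).comp (LinearMap.toMatrixAlgEquiv b).toRingEquiv.toRingHom)

theorem bcm_apply (b : Module.Basis (Fin n) K X) (T : Module.End K X) :
    bcm Ω b T = Matrix.toLin' ((LinearMap.toMatrix b b T).map (algebraMap K Ω)) := rfl

theorem bcm_smul (b : Module.Basis (Fin n) K X) (a : K) (T : Module.End K X) :
    bcm Ω b (a • T) = algebraMap K Ω a • bcm Ω b T := by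
  rw [bcm_apply, bcm_apply]
  have h : (LinearMap.toMatrix b b (a • T)).map (algebraMap K Ω) =
      algebraMap K Ω a • (LinearMap.toMatrix b b T).map (algebraMap K Ω) := by
    ext i j
    rw [map_smul, Matrix.map_apply, Matrix.smul_apply, Matrix.smul_apply, Matrix.map_apply,
      smul_eq_mul, smul_eq_mul, map_mul]
  rw [h, map_smul]

theorem bcm_inj (b : Module.Basis (Fin n) K X) : Function.Injective (bcm Ω b) := by
  intro S T h
  rw [bcm_apply, bcm_apply] at h
  have h1 := Matrix.toLin'.injective h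
  have h2 : LinearMap.toMatrix b b S = LinearMap.toMatrix b b T := by
    ext i j
    exact (algebraMap K Ω).injective (congrFun (congrFun h1 i) j)
  exact (LinearMap.toMatrix b b).injective h2

theorem bcm_trace (b : Module.Basis (Fin n) K X) (T : Module.End K X) :
    LinearMap.trace Ω _ (bcm Ω b T) = algebraMap K Ω (LinearMap.trace K X T) := by
  rw [bcm_apply, Matrix.trace_toLin'_eq, LinearMap.trace_eq_matrix_trace K b]
  unfold Matrix.trace
  rw [map_sum]
  rfl

/-- the representation over `Ω` -/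
def bcr {H : Type} [Group H] (Ω : Type) [Field Ω] [Algebra K Ω] (b : Module.Basis (Fin n) K X)
    (ρ : Representation K H X) : Representation Ω H (Fin n → Ω) :=
  (bcm Ω b).toMonoidHom.comp ρ

theorem bcr_char {H : Type} [Group H] (b : Module.Basis (Fin n) K X) (ρ : Representation K H X)
    (h : H) : (bcr Ω b ρ).character h = algebraMap K Ω (ρ.character h) := bcm_trace b (ρ h)

theorem bcr_act {H : Type} [Group H] [Finite H] (b : Module.Basis (Fin n) K X)
    (ρ : Representation K H X) (s : H → K) :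
    Parker.act (bcr Ω b ρ) (fun h => algebraMap K Ω (s h)) = bcm Ω b (Parker.act ρ s) := by
  have := Fintype.ofFinite H
  rw [Parker.act_eq, Parker.act_eq, map_sum]
  refine Finset.sum_congr rfl fun h _ => ?_
  rw [bcm_smul]
  rfl

/-- an element of the group algebra of `P` given by a class function acts as a scalar -/
theorem scalar {H : Type} [Group H] [Finite H] [FiniteDimensional K X]
    (ρ : Representation K H X) {α : H → Ω} (hα : α ∈ Parker.irr Ω H)
    (hch : ∀ h, algebraMap K Ω (ρ.character h) = α h) {s : H → K}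
    (hs : ∀ g x, s (g * x * g⁻¹) = s x) :
    ∃ u : K, Parker.act ρ s = u • 1 ∧
      algebraMap K Ω u * α 1 = ∑ᶠ h, algebraMap K Ω (s h) * α h := by
  have := Fintype.ofFinite H
  let b := Module.finBasis K X
  have hτ : (bcr Ω b ρ).character = α := by
    funext h
    rw [bcr_char, hch]
  have hirr : (bcr Ω b ρ).IsIrreducible := by
    rw [Parker.irr_iff_ip, hτ]
    exact Parker.P08_aux.ip_irrSet_self (Parker.mem_irr.1 hα)
  obtain ⟨a, ha⟩ := Parker.schur hirr (T := Parker.act (bcr Ω b ρ) (fun h => algebraMap K Ω (s h)))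
    (fun g => (Parker.P15_aux.act_comm (bcr Ω b ρ) (fun x => by rw [hs])).symm)
  have hpos := Parker.irr_pos hirr
  rw [Module.finrank_fin_fun] at hpos
  have ha2 := ha
  rw [bcr_act] at ha2
  -- the scalar is in `K`
  obtain ⟨u, hu⟩ : ∃ u : K, algebraMap K Ω u = a := by
    refine ⟨LinearMap.toMatrix b b (Parker.act ρ s) ⟨0, hpos⟩ ⟨0, hpos⟩, ?_⟩
    rw [bcm_apply] at ha2
    have h1 := congrArg (fun T => LinearMap.toMatrix' T ⟨0, hpos⟩ ⟨0, hpos⟩) ha2
    simp only [LinearMap.toMatrix'_toLin', Matrix.map_apply, map_smul, Matrix.smul_apply] at h1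
    rw [h1, LinearMap.toMatrix'_one, Matrix.one_apply_eq, smul_eq_mul, mul_one]
  refine ⟨u, ?_, ?_⟩
  · apply bcm_inj (Ω := Ω) b
    rw [ha2, bcm_smul, hu, map_one]
  · have h1 := congrArg (LinearMap.trace Ω (Fin (Module.finrank K X) → Ω)) ha
    rw [Parker.trace_act, map_smul, hτ, smul_eq_mul] at h1
    rw [finsum_eq_sum_of_fintype, h1, hu]
    congr 1
    rw [← hτ, Representation.char_one]
    exact (LinearMap.trace_one Ω _).symm

end D05_aux

theorem lemR (hK : FixedField Γ K) (M : QM K P) (A₀ : Submodule K M.X)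
    (hA : ∀ g, ∀ x ∈ A₀, M.ρ g x ∈ A₀) {φ : G → Ω} (hφ : Rl Γ φ) {α : P → Ω}
    (hα : α ∈ Parker.irr Ω P) (hch : ∀ g, algebraMap K Ω ((subR M.ρ A₀ hA).character g) = α g)
    (hm : Parker.ip α (fun p : P => φ p) = 1) :
    ∃ u : K, algebraMap K Ω u = φ 1 * (Nat.card P : Ω) * (Nat.card G : Ω)⁻¹ * (α 1)⁻¹ ∧
      ∀ w ∈ A₀, ∀ w' ∈ A₀,
        M.ind.B (M.ind.E φ (M.iota w)) (M.ind.E φ (M.iota w')) = u * M.B w w' := by
  have := Fintype.ofFinite G
  have := Fintype.ofFinite P
  have hcls : ∀ (g x : P), eK K φ ((g * x * g⁻¹ : P) : G) = eK K φ (x : G) := by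
    intro g x
    apply (algebraMap K Ω).injective
    rw [eK_spec hK hφ, eK_spec hK hφ]
    exact Parker.P15_aux.es_class hφ.irr (g : G) (x : G)
  obtain ⟨u, hu1, hu2⟩ := D05_aux.scalar (subR M.ρ A₀ hA) hα hch
    (s := fun p : P => eK K φ (p : G)) hcls
  have hα1 : α 1 ≠ 0 := by
    obtain ⟨h1, h2⟩ := Parker.dg_spec hα
    rw [← h1]
    exact_mod_cast h2.ne'
  refine ⟨u, ?_, ?_⟩
  · rw [eq_mul_inv_iff_mul_eq₀ hα1, hu2, finsum_eq_sum_of_fintype]
    rw [Parker.ip_eq] at hm
    have hP : (Nat.card P : Ω) ≠ 0 := by exact_mod_cast Nat.card_pos.ne'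
    have h3 : ∑ p : P, α p * φ ((p : G))⁻¹ = (Nat.card P : Ω) := by
      have h4 : ∑ p : P, α p * φ ((p⁻¹ : P) : G) = (Nat.card P : Ω) := by
        field_simp at hm
        exact hm
      exact h4
    calc ∑ p : P, algebraMap K Ω (eK K φ (p : G)) * α p =
        φ 1 * (Nat.card G : Ω)⁻¹ * ∑ p : P, α p * φ ((p : G))⁻¹ := by
          rw [Finset.mul_sum]
          refine Finset.sum_congr rfl fun p _ => ?_
          rw [eK_spec hK hφ]
          unfold Parker.es
          ring
      _ = _ := by rw [h3]; ring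
  · intro w hw w' hw'
    have e1 : M.ind.B (M.ind.E φ (M.iota w)) (M.ind.E φ (M.iota w')) =
        M.ind.B (M.ind.E φ (M.iota w)) (M.iota w') := by
      rw [← M.ind.E_adj hK hφ, ← Module.End.mul_apply, M.ind.E_idem hK hφ]
    have e2 : M.ind.B (M.ind.E φ (M.iota w)) (M.iota w') =
        ∑ g : G, eK K φ g * M.ind.B (M.ind.ρ g (M.iota w)) (M.iota w') := by
      unfold QM.E
      rw [Parker.act_eq, LinearMap.sum_apply, map_sum, LinearMap.sum_apply]
      refine Finset.sum_congr rfl fun g _ => ?_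
      rw [LinearMap.smul_apply, map_smul, LinearMap.smul_apply, smul_eq_mul]
    have e3 : ∑ g : G, eK K φ g * M.ind.B (M.ind.ρ g (M.iota w)) (M.iota w') =
        ∑ p : P, eK K φ (p : G) * M.B (M.ρ p w) w' := by
      have h1 : ∑ g : G, eK K φ g * M.ind.B (M.ind.ρ g (M.iota w)) (M.iota w') =
          ∑ g ∈ Finset.univ.filter (fun g : G => g ∈ P),
            eK K φ g * M.ind.B (M.ind.ρ g (M.iota w)) (M.iota w') := by
        symm
        refine Finset.sum_subset (Finset.filter_subset _ _) fun g _ hg => ?_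
        have hgP : g ∉ P := fun h => hg (Finset.mem_filter.2 ⟨Finset.mem_univ g, h⟩)
        rw [M.iota_orth hgP, mul_zero]
      rw [h1, Finset.sum_subtype (p := fun g => g ∈ P) _ (fun g => by simp)]
      refine Finset.sum_congr rfl fun p _ => ?_
      rw [M.iota_comm, M.iota_B]
    have e4 : ∑ p : P, eK K φ (p : G) * M.B (M.ρ p w) w' =
        M.B (Parker.act M.ρ (fun p : P => eK K φ (p : G)) w) w' := by
      rw [Parker.act_eq, LinearMap.sum_apply, map_sum, LinearMap.sum_apply]
      refine Finset.sum_congr rfl fun g _ => ?_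
      rw [LinearMap.smul_apply, map_smul, LinearMap.smul_apply, smul_eq_mul]
    have e5 : Parker.act M.ρ (fun p : P => eK K φ (p : G)) w = u • w := by
      have h1 := congrArg (fun T : Module.End K A₀ => ((T ⟨w, hw⟩ : A₀) : M.X)) hu1
      have h2 : ((Parker.act (subR M.ρ A₀ hA) (fun p : P => eK K φ (p : G)) ⟨w, hw⟩ : A₀) : M.X) =
          Parker.act M.ρ (fun p : P => eK K φ (p : G)) w := by
        rw [Parker.act_eq, Parker.act_eq, LinearMap.sum_apply, LinearMap.sum_apply,
          AddSubmonoidClass.coe_finsetSum]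
        rfl
      rw [← h2, h1]
      rfl
    rw [e1, e2, e3, e4, e5, map_smul, LinearMap.smul_apply, smul_eq_mul]

/-- the projection is equivariant -/
theorem E_iota_comm (hK : FixedField Γ K) (M : QM K P) {φ : G → Ω} (hφ : Rl Γ φ) (p : P)
    (w : M.X) :
    M.ind.ρ (p : G) (M.ind.E φ (M.iota w)) = M.ind.E φ (M.iota (M.ρ p w)) := by
  rw [← M.iota_comm, ← Module.End.mul_apply, M.ind.E_comm hK hφ, Module.End.mul_apply]

end

end ParkerGL
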