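import Pool.Agent.ParkerGL.D08
import Pool.Agent.ParkerGL.D05

/-!
# MP_6c3636_al, GL_n(q), module D09: quadratic modules with the characters `z b` (helper7)

`t` an atom of `glPSHX Ω ψ hψ`, `z = t.z`, `d = t.d`.

* `exists_scale`: if `dim M` is odd, scale the form by the Gram determinant `a = det`: `dc (scale) = cl a ^ dim * dc M = cl a * cl a = 1` (`dcf_sim`).
* `rl_z`: `(z b).at n` is a real irreducible character with fixed values (`t.real`: `bar (z b) = z b` says `du φ = φ`).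
* `exists_Z`: `b = 0`: the trivial module of the trivial group (`K` with the form `x y`). `b = 1`: the module induced from the one dimensional
  module `u ↦ ψ (sd u)` of `UG F d` (`sd_mul`, `psi_val`, form `x y`); by `QM.ind_ip` the multiplicity of `(z 1).φ` is
  `|U|⁻¹ ∑ ψ(sd u) φ(u) = dl (z 1) = 1` (`t.dl1`, `Irr.dl_spec`), take its `cut` (`cut_ch`) and `exists_scale` (`atom_finrank`). `b ≥ 2`:
  `prodQ (Z 1) (Z (b - 1))` has character `evR (el (z 1) * el (z (b-1)))` (`prodQ_ch`), which contains `z b` once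
  (`t.mul1 1 (b-1)`, `ip_evR`, `co_mul_el`).
-/

namespace ParkerGL

noncomputable section

open Classical Parker.P23_aux

variable {F : Type} [Field F] [Finite F] [CharP F 2] {Ω : Type} [Field Ω] [IsAlgClosed Ω]
  [CharZero Ω] {c : Parker.Ctx Ω} {Γ : Subgroup (RingAut Ω)} {K : Type} [Field K] [CharZero K]
  [Algebra K Ω] {ψ : AddChar F ℤ} {hψ : ∃ a, ψ a ≠ 1}

namespace D09_aux

theorem fx_alg (hK : FixedField Γ K) (y : K) : Parker.Fx Γ (algebraMap K Ω y) := (hK _).2 ⟨y, rfl⟩

theorem mul_one_of_ip {G : Type} [Group G] [Finite G] {φ ψ : G → Ω} (h : Parker.ip φ ψ = 1) :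
    Parker.mul φ ψ = 1 := by
  unfold Parker.mul
  have hex : ∃ k : ℕ, (k : Ω) = Parker.ip φ ψ := ⟨1, by rw [h, Nat.cast_one]⟩
  rw [dif_pos hex]
  have h1 := hex.choose_spec.trans h
  exact_mod_cast h1

end D09_aux

theorem exists_scale {G : Type} [Group G] (hK : FixedField Γ K) (M : QM K G)
    (h : Odd (Module.finrank K M.X)) :
    ∃ a : K, ∃ ha : a ≠ 0, (M.scale a ha).dc c Γ = 1 := by
  have ha := gram_ne (Module.finBasis K M.X) M.inv.nondeg
  refine ⟨_, ha, ?_⟩
  set a := (LinearMap.BilinForm.toMatrix (Module.finBasis K M.X) M.B).det with hadef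
  have h1 : (M.scale a ha).dc c Γ =
      cl c Γ (algebraMap K Ω a) ^ Module.finrank K M.X * dcf c Γ M.B :=
    dcf_sim hK (LinearEquiv.refl K M.X) M.inv.nondeg ha (fun x y => rfl)
  have h2 : dcf c Γ M.B = cl c Γ (algebraMap K Ω a) := rfl
  rw [h1, h2, ← pow_succ]
  obtain ⟨k, hk⟩ := h
  rw [hk, show 2 * k + 1 + 1 = 2 * (k + 1) by ring, pow_mul, pow_two,
    cl_sq (D09_aux.fx_alg hK a), one_pow]

theorem rl_z {N : ℕ} (hN : AllFx F Γ N) (t : Atom (glPSHX Ω ψ hψ)) {b n : ℕ}
    (hn : n = b * t.d) (hnN : n ≤ N) : Rl Γ ((t.z b).at n) := by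
  have hdeg : (t.z b).n = n := by
    rw [hn]
    exact t.deg b
  subst hdeg
  rw [Irr.at_self]
  refine ⟨(t.z b).mem, hN _ hnN _ (t.z b).mem, ?_⟩
  have h1 : (t.z b).bar = t.z b := t.real b
  have h2 : ∀ w : Irr F Ω, w = t.z b → w.at (t.z b).n = (t.z b).φ := by
    rintro w rfl
    exact Irr.at_self _
  have h3 : (t.z b).bar.at (t.z b).n = Parker.du (t.z b).φ := Irr.at_self (t.z b).bar
  exact h3.symm.trans (h2 _ h1)

namespace D09_aux

theorem of_ip (hK : FixedField Γ K) {N : ℕ} (hN : AllFx F Γ N) (t : Atom (glPSHX Ω ψ hψ))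
    {b n : ℕ} (hn : n = b * t.d) (hnN : n ≤ N) (M : QM K (Gn F n))
    (h : Parker.ip (M.ch Ω) ((t.z b).at n) = 1) :
    ∃ Z : QM K (Gn F n), Z.ch Ω = (t.z b).at n ∧ Z.dc c Γ = 1 := by
  have hR := rl_z hN t hn hnN
  have hm : Parker.mul (M.ch Ω) ((t.z b).at n) = 1 := mul_one_of_ip h
  have hC : (M.cut hK hR).ch Ω = (t.z b).at n := by
    funext g
    rw [QM.cut_ch, hm, Nat.cast_one, one_mul]
  obtain ⟨a, ha, hdc⟩ := exists_scale (c := c) hK (M.cut hK hR) (atom_finrank t hn _ hC)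
  exact ⟨(M.cut hK hR).scale a ha, hC, hdc⟩

/-- the line with a character with values `1`, `-1` -/
def line {K : Type} [Field K] {G : Type} [Group G] (θ : G →* K) (hθ : ∀ g, θ g * θ g = 1) :
    QM K G where
  X := K
  ρ :=
    { toFun := fun g => θ g • (LinearMap.id : K →ₗ[K] K)
      map_one' := by
        rw [map_one, one_smul]
        rfl
      map_mul' := by
        intro g h
        apply LinearMap.ext
        intro x
        show θ (g * h) • x = θ g • (θ h • x)
        rw [map_mul, mul_smul] }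
  B := LinearMap.mul K K
  inv :=
    { symm := fun x y => mul_comm x y
      nondeg := fun x hx => by
        have h : x * 1 = 0 := hx 1
        rwa [mul_one] at h
      inv := fun g x y => by
        show (θ g * x) * (θ g * y) = x * y
        rw [mul_mul_mul_comm, hθ, one_mul] }

theorem line_ch {K : Type} [Field K] [Algebra K Ω] {G : Type} [Group G] (θ : G →* K)
    (hθ : ∀ g, θ g * θ g = 1) (g : G) : (line θ hθ).ch Ω g = algebraMap K Ω (θ g) := by
  show algebraMap K Ω (LinearMap.trace K K (θ g • (LinearMap.id : K →ₗ[K] K))) = _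
  rw [map_smul, LinearMap.trace_id]
  simp

/-- the character `u ↦ ψ (sd u)` of the unitriangular group -/
def thU (K : Type) [Field K] (ψ : AddChar F ℤ) (k : ℕ) : UG F k →* K where
  toFun u := ((ψ (sd (u : Gn F k)) : ℤ) : K)
  map_one' := by
    show ((ψ (sd (1 : Gn F k)) : ℤ) : K) = 1
    rw [sd_one, AddChar.map_zero_eq_one, Int.cast_one]
  map_mul' := by
    intro u v
    show ((ψ (sd ((u : Gn F k) * (v : Gn F k))) : ℤ) : K) = _
    rw [sd_mul u.2 v.2, AddChar.map_add_eq_mul, Int.cast_mul]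

theorem thU_sq (K : Type) [Field K] (ψ : AddChar F ℤ) (k : ℕ) (u : UG F k) :
    thU K ψ k u * thU K ψ k u = 1 := by
  show ((ψ (sd (u : Gn F k)) : ℤ) : K) * ((ψ (sd (u : Gn F k)) : ℤ) : K) = 1
  rcases psi_val ψ (sd (u : Gn F k)) with h | h <;> rw [h] <;> simp

theorem ip_ind (hK : FixedField Γ K) {N : ℕ} (hN : AllFx F Γ N) (t : Atom (glPSHX Ω ψ hψ))
    {n : ℕ} (hn : n = 1 * t.d) (hnN : n ≤ N) :
    Parker.ip ((line (thU K ψ n) (thU_sq K ψ n)).ind.ch Ω) ((t.z 1).at n) = 1 := by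
  have hR := rl_z hN t hn hnN
  have hdeg : (t.z 1).n = n := by
    rw [hn]
    exact t.deg 1
  have hcls : ∀ g x, (t.z 1).at n (g * x * g⁻¹) = (t.z 1).at n x := CF.cls _ n
  rw [QM.ind_ip _ hcls]
  have h1 : ((t.z 1).dl ψ : Ω) = 1 := by
    have : (t.z 1).dl ψ = 1 := t.dl1
    rw [this, Nat.cast_one]
  rw [Irr.dl_spec, hdeg] at h1
  rw [← h1]
  unfold Parker.ip CF.dl
  letI := Fintype.ofFinite (UG F n)
  rw [finsum_eq_sum_of_fintype]
  congr 1
  refine Finset.sum_congr rfl fun u _ => ?_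
  rw [line_ch]
  have h2 : algebraMap K Ω (thU K ψ n u) = ((ψ (sd (u : Gn F n)) : ℤ) : Ω) := by
    show algebraMap K Ω (((ψ (sd (u : Gn F n)) : ℤ) : K)) = _
    rw [map_intCast]
  rw [h2]
  congr 1
  have h3 := congrFun hR.real (u : Gn F n)
  exact h3

end D09_aux

theorem exists_Z (hK : FixedField Γ K) {N : ℕ} (hN : AllFx F Γ N) (t : Atom (glPSHX Ω ψ hψ))
    {b n : ℕ} (hn : n = b * t.d) (hnN : n ≤ N) :
    ∃ Z : QM K (Gn F n), Z.ch Ω = (t.z b).at n ∧ Z.dc c Γ = 1 := by
  induction b using Nat.strong_induction_on generalizing n with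
  | _ b ih =>
    rcases Nat.lt_or_ge b 1 with hb | hb
    · obtain rfl : b = 0 := by omega
      obtain rfl : n = 0 := by rw [hn, zero_mul]
      apply D09_aux.of_ip hK hN t hn hnN
        (D09_aux.line (1 : Gn F 0 →* K) (fun g => by rw [MonoidHom.one_apply, one_mul]))
      have h0 : (t.z 0).at 0 = fun _ => 1 := by
        rw [t.z0]
        exact Irr.at_self (oneI F Ω)
      rw [h0]
      unfold Parker.ip
      letI := Fintype.ofFinite (Gn F 0)
      have h1 : ∀ g : Gn F 0, (D09_aux.line (1 : Gn F 0 →* K)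
          (fun g => by rw [MonoidHom.one_apply, one_mul])).ch Ω g = 1 := by
        intro g
        rw [D09_aux.line_ch, MonoidHom.one_apply, map_one]
      simp only [h1, mul_one, Finset.sum_const, nsmul_eq_mul, mul_one]
      rw [Finset.card_univ, ← Nat.card_eq_fintype_card]
      exact inv_mul_cancel₀ (Nat.cast_ne_zero.2 Nat.card_pos.ne')
    · rcases Nat.lt_or_ge b 2 with hb2 | hb2
      · obtain rfl : b = 1 := by omega
        exact D09_aux.of_ip hK hN t hn hnN _ (D09_aux.ip_ind hK hN t hn hnN)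
      · obtain ⟨k, rfl⟩ : ∃ k, b = 1 + k := ⟨b - 1, by omega⟩
        have hk : k * t.d ≤ n := by rw [hn]; exact Nat.mul_le_mul_right _ (by omega)
        have hd : 1 * t.d ≤ n := by rw [hn]; exact Nat.mul_le_mul_right _ (by omega)
        obtain ⟨Z1, hZ1, -⟩ := ih 1 (by omega) (n := 1 * t.d) rfl (hd.trans hnN)
        obtain ⟨Z2, hZ2, -⟩ := ih k (by omega) (n := k * t.d) rfl (hk.trans hnN)
        have hsum : 1 * t.d + k * t.d = n := by rw [hn, add_mul]
        have hdeg1 : (t.z 1).n = 1 * t.d := t.deg 1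
        have hdeg2 : (t.z k).n = k * t.d := t.deg k
        have hdegb : (t.z (1 + k)).n = n := by
          rw [hn]
          exact t.deg (1 + k)
        have hom1 : (glPSH F Ω).Hom (1 * t.d) ((glPSH F Ω).el (t.z 1)) := by
          rw [← hdeg1]
          exact hom_el (t.z 1)
        have hom2 : (glPSH F Ω).Hom (k * t.d) ((glPSH F Ω).el (t.z k)) := by
          rw [← hdeg2]
          exact hom_el (t.z k)
        have hch := prodQ_ch (Ω := Ω) hsum Z1 Z2 hom1 hom2 (by rw [evR_el]; exact hZ1)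
          (by rw [evR_el]; exact hZ2)
        apply D09_aux.of_ip hK hN t hn hnN (prodQ hsum Z1 Z2)
        rw [hch, ip_evR _ hdegb, co_mul_el]
        have hm : (glPSH F Ω).m (t.z (1 + k)) (t.z 1) (t.z k) = 1 := t.mul1 1 k
        rw [hm]
        simp

end

end ParkerGL
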