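import Pool.Agent.ParkerGL.A06
import Pool.Agent.Parker.P06
import Pool.Agent.Parker.P11
import Pool.Agent.Parker.P13
import Pool.Agent.Parker.P17
import Pool.Agent.Parker.P23

/-!
# MP_6c3636_al, GL_n(q), module E06: outer tensor products of good representations (helper7)

* `good_outer`: `u`, `z` irreducible representations of `G`, `H` with real, `Γ`-fixed characters, `u ⊠ z` orthogonal of even dimension.
  Say `dim u` is even. If `dim z` is odd: `z` is orthogonal (`Parker.orth_of_odd`), so `u` is orthogonal (`exists_form` and `not_both`-type argument: if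
  `b` is alternating invariant on `u`, then `b ⊗ b_z` is an alternating invariant form on the irreducible orthogonal `u ⊠ z`, contradiction to `Parker.not_both`), hence
  good by hypothesis: form `B`, skew operator `T` with `det T ≠ 0`, `SqV`; on `u ⊠ z` take the form `B ⊗ B_z`, the operator `T ⊗ 1`: rational, skew,
  determinant `det T ^ dim z`, `SqV` by `sqV_pow`. If `dim z` is even: `u` is real, so it has a nondegenerate invariant form `b`, symmetric or
  alternating (`Parker.exists_form`), `z` has `b'` of the same type, and `b ⊗ b'` is symmetric; a skew invertible rational `T` for `u` exists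
  (`Parker.exists_skew_rat` with `noOdd_of_even`: `s : G → ℚ` skew, `act u s` invertible, and skew for `b` of either type, the computation of `Parker.act_adj`).
  `T ⊗ 1` has the determinant `det T ^ dim z` with `det T` fixed by `Γ` (`Parker.det_fx`), an even power, so `SqV`.
  The case `dim u` odd, `dim z` even is symmetric. `det (T ⊗ 1)`: `LinearMap.det_tensorProduct`-type lemma or `Matrix.det_kronecker`.
-/

namespace ParkerGL

noncomputable section

open Classical

variable {Ω : Type} [Field Ω] [IsAlgClosed Ω] [CharZero Ω] {c : Parker.Ctx Ω}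
  {Γ : Subgroup (RingAut Ω)} {G : Type} [Group G] [Finite G] {H : Type} [Group H] [Finite H]
  {V : Type} [AddCommGroup V] [Module Ω V] [FiniteDimensional Ω V]
  {W : Type} [AddCommGroup W] [Module Ω W] [FiniteDimensional Ω W]

/-- the outer tensor product -/
def outer (ρ : Representation Ω G V) (τ : Representation Ω H W) :
    Representation Ω (G × H) (TensorProduct Ω V W) where
  toFun := fun p => TensorProduct.map (ρ p.1) (τ p.2)
  map_one' := by
    show TensorProduct.map (ρ 1) (τ 1) = 1
    rw [map_one, map_one]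
    exact TensorProduct.map_one
  map_mul' := by
    intro p q
    show TensorProduct.map (ρ (p.1 * q.1)) (τ (p.2 * q.2)) = _
    rw [map_mul, map_mul]
    exact TensorProduct.map_mul _ _ _ _

theorem outer_char (ρ : Representation Ω G V) (τ : Representation Ω H W) (p : G × H) :
    (outer ρ τ).character p = ρ.character p.1 * τ.character p.2 :=
  LinearMap.trace_tensorProduct' (R := Ω) (ρ p.1) (τ p.2)

theorem outer_irr {ρ : Representation Ω G V} {τ : Representation Ω H W} (hρ : ρ.IsIrreducible)
    (hτ : τ.IsIrreducible) : (outer ρ τ).IsIrreducible := by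
  rw [Parker.irr_iff_ip]
  have h : (outer ρ τ).character = fun p : G × H => ρ.character p.1 * τ.character p.2 := by
    funext p
    exact outer_char ρ τ p
  rw [h, ip_tensor, Parker.ip_self_irr ρ hρ, Parker.ip_self_irr τ hτ, one_mul]

namespace E06_aux

open TensorProduct Parker.P23_aux

theorem det_left (T : Module.End Ω V) :
    LinearMap.det (TensorProduct.map T (1 : Module.End Ω W)) =
      LinearMap.det T ^ Module.finrank Ω W := by
  rw [← LinearMap.det_toMatrix ((Module.finBasis Ω V).tensorProduct (Module.finBasis Ω W)),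
    TensorProduct.toMatrix_map, Matrix.det_kronecker, LinearMap.det_toMatrix,
    LinearMap.det_toMatrix, map_one, one_pow, mul_one, Fintype.card_fin]

theorem det_right (T : Module.End Ω W) :
    LinearMap.det (TensorProduct.map (1 : Module.End Ω V) T) =
      LinearMap.det T ^ Module.finrank Ω V := by
  rw [← LinearMap.det_toMatrix ((Module.finBasis Ω V).tensorProduct (Module.finBasis Ω W)),
    TensorProduct.toMatrix_map, Matrix.det_kronecker, LinearMap.det_toMatrix,
    LinearMap.det_toMatrix, map_one, one_pow, one_mul, Fintype.card_fin]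

theorem rat_left {u : Representation Ω G V} {z : Representation Ω H W} {T : Module.End Ω V}
    (hT : T ∈ Parker.Rat Γ u) :
    TensorProduct.map T (1 : Module.End Ω W) ∈ Parker.Rat Γ (outer u z) := by
  let _ := Fintype.ofFinite G
  obtain ⟨s, hs, rfl⟩ := hT
  refine ⟨Parker.push (MonoidHom.inl G H) s, fun g => Parker.push_fx _ hs g, ?_⟩
  rw [← Parker.act_push, Parker.act_eq, Parker.act_eq]
  refine TensorProduct.ext' fun x y => ?_
  rw [LinearMap.sum_apply, TensorProduct.map_tmul, LinearMap.sum_apply, TensorProduct.sum_tmul]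
  refine Finset.sum_congr rfl fun g _ => ?_
  rw [LinearMap.smul_apply, LinearMap.smul_apply, ← TensorProduct.smul_tmul']
  congr 1
  show TensorProduct.map (u g) (z 1) (x ⊗ₜ y) = _
  rw [map_one]
  rfl

theorem rat_right {u : Representation Ω G V} {z : Representation Ω H W} {T : Module.End Ω W}
    (hT : T ∈ Parker.Rat Γ z) :
    TensorProduct.map (1 : Module.End Ω V) T ∈ Parker.Rat Γ (outer u z) := by
  let _ := Fintype.ofFinite H
  obtain ⟨s, hs, rfl⟩ := hT
  refine ⟨Parker.push (MonoidHom.inr G H) s, fun g => Parker.push_fx _ hs g, ?_⟩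
  rw [← Parker.act_push, Parker.act_eq, Parker.act_eq]
  refine TensorProduct.ext' fun x y => ?_
  rw [LinearMap.sum_apply, TensorProduct.map_tmul, LinearMap.sum_apply, TensorProduct.tmul_sum]
  refine Finset.sum_congr rfl fun g _ => ?_
  rw [LinearMap.smul_apply, LinearMap.smul_apply, TensorProduct.tmul_smul]
  congr 1
  show TensorProduct.map (u 1) (z g) (x ⊗ₜ y) = _
  rw [map_one]
  rfl

/-- the adjoint of `act ρ s` for any invariant form -/
theorem act_adj' {ρ : Representation Ω G V} {B : LinearMap.BilinForm Ω V}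
    (hB : ∀ g x y, B (ρ g x) (ρ g y) = B x y) (s : G → Ω) (x y : V) :
    B (Parker.act ρ s x) y = B x (Parker.act ρ (Parker.du s) y) := by
  let _ := Fintype.ofFinite G
  have h1 : ∀ g, B (ρ g x) y = B x (ρ g⁻¹ y) := by
    intro g
    have h2 := hB g x (ρ g⁻¹ y)
    have h3 : ρ g (ρ g⁻¹ y) = y := by
      rw [← Module.End.mul_apply, ← map_mul, mul_inv_cancel, map_one, Module.End.one_apply]
    rw [h3] at h2
    exact h2
  rw [Parker.act_eq, Parker.act_eq, LinearMap.sum_apply, LinearMap.sum_apply, map_sum, map_sum,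
    LinearMap.sum_apply, ← Equiv.sum_comp (Equiv.inv G)]
  refine Finset.sum_congr rfl fun g _ => ?_
  rw [Equiv.inv_apply, LinearMap.smul_apply, LinearMap.smul_apply, map_smul, map_smul,
    LinearMap.smul_apply, h1, inv_inv]
  rfl

/-- a nondegenerate invariant form with sign `e` -/
structure EForm (e : Ω) (ρ : Representation Ω G V) (B : LinearMap.BilinForm Ω V) : Prop where
  sgn : ∀ x y, B x y = e * B y x
  nondeg : ∀ x, (∀ y, B x y = 0) → x = 0
  inv : ∀ g x y, B (ρ g x) (ρ g y) = B x y

theorem skew_of_skew' {e : Ω} {ρ : Representation Ω G V} {B : LinearMap.BilinForm Ω V}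
    (hB : EForm e ρ B) {s : G → Ω} (hs : ∀ g, s g⁻¹ = - s g) :
    Parker.Skew B (Parker.act ρ s) := by
  intro x y
  have h1 : Parker.du s = -s := by
    funext g
    exact hs g
  rw [act_adj' hB.inv, h1, Parker.act_neg, LinearMap.neg_apply, map_neg]

theorem EForm.tensor {e e' : Ω} {u : Representation Ω G V} {z : Representation Ω H W}
    {b : LinearMap.BilinForm Ω V} {b' : LinearMap.BilinForm Ω W} (h : EForm e u b)
    (h' : EForm e' z b') : EForm (e * e') (outer u z) (tform b b') := by
  refine ⟨?_, tform_nondeg h.nondeg h'.nondeg, ?_⟩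
  · have h1 : tform b b' = (e * e') • (tform b b').flip := bil_ext fun x y x' y' => by
      rw [tform_tmul]
      change _ = (e * e') * tform b b' (x' ⊗ₜ y') (x ⊗ₜ y)
      rw [tform_tmul, h.sgn x x', h'.sgn y y']
      ring
    intro x y
    exact congrArg (fun f : LinearMap.BilinForm Ω _ => f x y) h1
  · intro g x y
    have h1 : (tform b b').compl₁₂ (outer u z g) (outer u z g) = tform b b' :=
      bil_ext fun x y x' y' => by
        change tform b b' (TensorProduct.map (u g.1) (z g.2) (x ⊗ₜ y))
          (TensorProduct.map (u g.1) (z g.2) (x' ⊗ₜ y')) = _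
        rw [TensorProduct.map_tmul, TensorProduct.map_tmul, tform_tmul, tform_tmul, h.inv, h'.inv]
    exact congrArg (fun f : LinearMap.BilinForm Ω _ => f x y) h1

theorem EForm.toInv {ρ : Representation Ω G V} {B : LinearMap.BilinForm Ω V}
    (h : EForm 1 ρ B) : Parker.InvForm ρ B :=
  ⟨fun x y => by rw [h.sgn x y, one_mul], h.nondeg, h.inv⟩

theorem ofInv {ρ : Representation Ω G V} {B : LinearMap.BilinForm Ω V}
    (h : Parker.InvForm ρ B) : EForm 1 ρ B :=
  ⟨fun x y => by rw [h.symm x y, one_mul], h.nondeg, h.inv⟩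

theorem ofAlt {ρ : Representation Ω G V} {B : LinearMap.BilinForm Ω V}
    (h1 : ∀ x y, B x y = - B y x) (h2 : ∀ x, (∀ y, B x y = 0) → x = 0)
    (h3 : ∀ g x y, B (ρ g x) (ρ g y) = B x y) : EForm (-1) ρ B :=
  ⟨fun x y => by rw [h1 x y, neg_one_mul], h2, h3⟩

/-- a form of sign `-1` does not exist on an irreducible orthogonal representation -/
theorem no_neg {ρ : Representation Ω G V} (hρ : ρ.IsIrreducible) (hO : Parker.Orth ρ)
    {B : LinearMap.BilinForm Ω V} (hB : EForm (-1) ρ B) : False := by
  have h0 := Parker.not_both hρ hO (B := B) (fun x y => by rw [hB.sgn x y, neg_one_mul]) hB.inv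
  have hpos := Parker.irr_pos hρ
  have : Nontrivial V := Module.finrank_pos_iff.mp hpos
  obtain ⟨x0, hx0⟩ := exists_ne (0 : V)
  exact hx0 (hB.nondeg x0 fun y => by rw [h0]; rfl)

theorem good_left {u : Representation Ω G V} {z : Representation Ω H W} {e e' : Ω}
    {b : LinearMap.BilinForm Ω V} {b' : LinearMap.BilinForm Ω W} (h : EForm e u b)
    (h' : EForm e' z b') (hee : e * e' = 1) {T : Module.End Ω V} (hT : T ∈ Parker.Rat Γ u)
    (hk : Parker.Skew b T) (hd : LinearMap.det T ≠ 0)
    (hS : Parker.SqV c Γ (c.av (LinearMap.det T) ^ Module.finrank Ω W)) :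
    Parker.GoodV c Γ (outer u z) := by
  have hf := h.tensor h'
  rw [hee] at hf
  refine ⟨tform b b', hf.toInv, TensorProduct.map T 1, rat_left hT, ?_, ?_, ?_⟩
  · have h1 : (tform b b').compl₁₂ (TensorProduct.map T 1) LinearMap.id =
        - (tform b b').compl₁₂ LinearMap.id (TensorProduct.map T 1) :=
      bil_ext fun x y x' y' => by
        change tform b b' (TensorProduct.map T 1 (x ⊗ₜ y)) (x' ⊗ₜ y') =
          - tform b b' (x ⊗ₜ y) (TensorProduct.map T 1 (x' ⊗ₜ y'))
        rw [TensorProduct.map_tmul, TensorProduct.map_tmul, tform_tmul, tform_tmul, hk x x']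
        simp
    intro x y
    exact congrArg (fun f : LinearMap.BilinForm Ω _ => f x y) h1
  · rw [det_left]
    exact pow_ne_zero _ hd
  · rw [det_left, map_pow]
    exact hS

theorem good_right {u : Representation Ω G V} {z : Representation Ω H W} {e e' : Ω}
    {b : LinearMap.BilinForm Ω V} {b' : LinearMap.BilinForm Ω W} (h : EForm e u b)
    (h' : EForm e' z b') (hee : e * e' = 1) {T : Module.End Ω W} (hT : T ∈ Parker.Rat Γ z)
    (hk : Parker.Skew b' T) (hd : LinearMap.det T ≠ 0)
    (hS : Parker.SqV c Γ (c.av (LinearMap.det T) ^ Module.finrank Ω V)) :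
    Parker.GoodV c Γ (outer u z) := by
  have hf := h.tensor h'
  rw [hee] at hf
  refine ⟨tform b b', hf.toInv, TensorProduct.map 1 T, rat_right hT, ?_, ?_, ?_⟩
  · have h1 : (tform b b').compl₁₂ (TensorProduct.map 1 T) LinearMap.id =
        - (tform b b').compl₁₂ LinearMap.id (TensorProduct.map 1 T) :=
      bil_ext fun x y x' y' => by
        change tform b b' (TensorProduct.map 1 T (x ⊗ₜ y)) (x' ⊗ₜ y') =
          - tform b b' (x ⊗ₜ y) (TensorProduct.map 1 T (x' ⊗ₜ y'))
        rw [TensorProduct.map_tmul, TensorProduct.map_tmul, tform_tmul, tform_tmul, hk y y']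
        simp
    intro x y
    exact congrArg (fun f : LinearMap.BilinForm Ω _ => f x y) h1
  · rw [det_right]
    exact pow_ne_zero _ hd
  · rw [det_right, map_pow]
    exact hS

end E06_aux

open E06_aux

theorem good_outer {u : Representation Ω G V} {z : Representation Ω H W}
    (hu : u.IsIrreducible) (hz : z.IsIrreducible) (hur : Parker.SD u) (hzr : Parker.SD z)
    (huF : Parker.FxC Γ u) (hzF : Parker.FxC Γ z)
    (hev : Even (Module.finrank Ω V * Module.finrank Ω W))
    (hO : Parker.Orth (outer u z))
    (hgu : Even (Module.finrank Ω V) → Parker.Orth u → Parker.GoodV c Γ u)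
    (hgz : Even (Module.finrank Ω W) → Parker.Orth z → Parker.GoodV c Γ z) :
    Parker.GoodV c Γ (outer u z) := by
  have hirr := outer_irr hu hz
  rcases Nat.even_or_odd (Module.finrank Ω V) with hV | hV
  · rcases Nat.even_or_odd (Module.finrank Ω W) with hW | hW
    · -- both even
      obtain ⟨s, hs, hsd⟩ := Parker.exists_skew_rat (Parker.noOdd_of_even hu hV)
      have hsk : ∀ g, ((s g⁻¹ : ℚ) : Ω) = - ((s g : ℚ) : Ω) := fun g => by
        rw [hs g]; push_cast; rfl
      have hT : Parker.act u (fun g => (s g : Ω)) ∈ Parker.Rat Γ u :=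
        ⟨_, fun g => Parker.fx_ratCast Γ (s g), rfl⟩
      have hS : Parker.SqV c Γ (c.av (LinearMap.det (Parker.act u (fun g => (s g : Ω)))) ^
          Module.finrank Ω W) := by
        obtain ⟨k, hk⟩ := hW
        have h1 := Parker.inV_of_fx (c := c) hsd (Parker.det_fx hu huF hT)
        have h2 := Parker.sqV_sq (Parker.inV_pow h1 k)
        rw [hk, pow_add]
        rw [sq] at h2
        exact h2
      rcases Parker.exists_form hu hur with ⟨b, hb⟩ | ⟨b, hb1, hb2, hb3⟩
      · rcases Parker.exists_form hz hzr with ⟨b', hb'⟩ | ⟨b', hb'1, hb'2, hb'3⟩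
        · exact good_left (ofInv hb) (ofInv hb') (one_mul 1) hT
            (skew_of_skew' (ofInv hb) hsk) hsd hS
        · exfalso
          have h := (ofInv hb).tensor (ofAlt hb'1 hb'2 hb'3)
          rw [one_mul] at h
          exact no_neg hirr hO h
      · rcases Parker.exists_form hz hzr with ⟨b', hb'⟩ | ⟨b', hb'1, hb'2, hb'3⟩
        · exfalso
          have h := (ofAlt hb1 hb2 hb3).tensor (ofInv hb')
          rw [mul_one] at h
          exact no_neg hirr hO h
        · exact good_left (ofAlt hb1 hb2 hb3) (ofAlt hb'1 hb'2 hb'3) (by ring) hT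
            (skew_of_skew' (ofAlt hb1 hb2 hb3) hsk) hsd hS
    · -- `dim u` even, `dim z` odd
      obtain ⟨b', hb'⟩ := Parker.orth_of_odd hz hzr hW
      rcases Parker.exists_form hu hur with hb | ⟨b, hb1, hb2, hb3⟩
      · obtain ⟨B, hB, T, hT, hk, hd, hS⟩ := hgu hV hb
        exact good_left (ofInv hB) (ofInv hb') (one_mul 1) hT hk hd (Parker.sqV_pow hS _)
      · exfalso
        have h := (ofAlt hb1 hb2 hb3).tensor (ofInv hb')
        rw [mul_one] at h
        exact no_neg hirr hO h
  · have hW : Even (Module.finrank Ω W) := by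
      rcases Nat.even_mul.mp hev with h | h
      · exact absurd h (Nat.not_even_iff_odd.mpr hV)
      · exact h
    obtain ⟨b, hb⟩ := Parker.orth_of_odd hu hur hV
    rcases Parker.exists_form hz hzr with hb' | ⟨b', hb'1, hb'2, hb'3⟩
    · obtain ⟨B, hB, T, hT, hk, hd, hS⟩ := hgz hW hb'
      exact good_right (ofInv hb) (ofInv hB) (one_mul 1) hT hk hd (Parker.sqV_pow hS _)
    · exfalso
      have h := (ofInv hb).tensor (ofAlt hb'1 hb'2 hb'3)
      rw [one_mul] at h
      exact no_neg hirr hO h

end

end ParkerGL
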