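import Pool.Agent.ParkerGL.D10
import Pool.Agent.ParkerGL.E01
import Pool.Agent.ParkerGL.E06

/-!
# MP_6c3636_al, GL_n(q), module E02: all orthogonal representations of even degree are good (helper7)

* `exists_fixedField`: the subfield of the elements fixed by `Γ`.
* `good_all`: strong induction on `n`. Let `ρ` be irreducible orthogonal of even dimension with character `v.φ`, `v : Irr F Ω`, `v.n = n`; `v.bar = v`
  (`Parker.sd_of_orth`), `v ≠ oneI` (its dimension is `1`). Fix `ψ` (`exists_psi`) and apply `main_C` to `P = glPSHX Ω ψ hψ` and `v`.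
  Case 2 (`single`): with `s` of `exists_generic` the class of `detc v.φ s = det (act ρ s)` is `1`, i.e. `SqV` (`cl_eq_one`), so `ρ` is good: form from `Parker.Orth`,
  operator `act ρ s` (skew by `Parker.skew_of_skew`).
  Case 1: `el v = el u * el z`, `u, z ≠ one` real, so `u.n + z.n = n`, `u.n, z.n < n`. Let `P = Par F h`, `α = (u.φ ⊗ z.φ) ∘ pr h`, an irreducible character of `P`
  (`tensor_irr`, inflation). `mul (rs P ρ).character α = ip = mI v u z = 1` (`co_mul_el`; the inner product over `P` with an inflated function is the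
  inner product over `Gn × Gn` with the coproduct, `mI_spec`), and `dim ρ = index * u.dim * z.dim`: evaluate `mul_expand` at `1`: `el u * el z = el v` means `mI w u z = [w = v]`;
  the left side is (number of subspaces of dimension `u.n`) `* u.dim * z.dim`, and this number is the index. (Or `blk` from `QM.ind`-free counting: `Parker.blk_finrank` is for the converse.)
  `blk_crit` gives the block idempotent `E = act (rs P ρ) (es α)`, which is rational (`α` has fixed values by `AllFx`; `Parker.rat_res`) and selfadjoint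
  (`α` real; `Parker.act_adj`). `h.rep` has the character `α`, it is irreducible, orthogonal (`Parker.blk_orthRep`), and equivalent to `outer u' z' ∘ pr h` for irreducible `u'`, `z'` with
  characters `u.φ`, `z.φ` (`Parker.equiv_of_char`, `outer_char`); by `good_outer` (induction hypothesis for `u'`, `z'`), `good_pb`, `Parker.equiv_good` it is good. `outer u' z'` is orthogonal since its
  inflation is (`Parker.P13_aux.orth_of_pb`). Conclude with `good_blk'`.
-/

namespace ParkerGL

noncomputable section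

open Classical

variable {Ω : Type} [Field Ω] [IsAlgClosed Ω] [CharZero Ω]

namespace E02_aux

omit [IsAlgClosed Ω] in
/-- the subfield of the fixed elements -/
def fixSub (Γ : Subgroup (RingAut Ω)) : Subfield Ω where
  carrier := {x | Parker.Fx Γ x}
  mul_mem' := fun ha hb => Parker.fx_mul ha hb
  one_mem' := fun σ _ => map_one σ
  add_mem' := fun ha hb => Parker.fx_add ha hb
  zero_mem' := fun σ _ => map_zero σ
  neg_mem' := fun ha => Parker.fx_neg ha
  inv_mem' := fun _ ha => Parker.fx_inv ha

end E02_aux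

theorem exists_fixedField (Γ : Subgroup (RingAut Ω)) :
    ∃ (K : Type) (_ : Field K) (_ : CharZero K) (_ : Algebra K Ω), FixedField Γ K := by
  refine ⟨E02_aux.fixSub Γ, inferInstance, inferInstance, inferInstance, ?_⟩
  intro x
  constructor
  · intro hx
    exact ⟨⟨x, hx⟩, rfl⟩
  · rintro ⟨y, rfl⟩
    exact y.2

variable {F : Type} [Field F] [Finite F] [CharP F 2] {c : Parker.Ctx Ω}
  {Γ : Subgroup (RingAut Ω)}

namespace E02_aux

omit [CharP F 2] in
/-- the weighted sum of the characters is the regular character -/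
theorem reg_sum {n : ℕ} (g : Gn F n) :
    ∑ w ∈ lvI F Ω n, w.at n 1 * w.at n g = if g = 1 then (Nat.card (Gn F n) : Ω) else 0 := by
  let _ := Fintype.ofFinite (Gn F n)
  have hcard : (Nat.card (Gn F n) : Ω) ≠ 0 := by
    exact_mod_cast Nat.card_pos.ne'
  let θ : Gn F n → Ω := fun x => if x = 1 then 1 else 0
  have hθ : ∀ g x, θ (g * x * g⁻¹) = θ x := by
    intro g x
    show (if g * x * g⁻¹ = 1 then (1 : Ω) else 0) = if x = 1 then 1 else 0
    have h1 : g * x * g⁻¹ = 1 ↔ x = 1 := by
      constructor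
      · intro h
        have h2 : g * x = g := by
          rw [mul_inv_eq_one] at h
          exact h
        exact mul_eq_left.1 h2
      · intro h
        rw [h, mul_one, mul_inv_cancel]
    by_cases hx : x = 1
    · rw [if_pos (h1.2 hx), if_pos hx]
    · rw [if_neg (fun h => hx (h1.1 h)), if_neg hx]
  have hip : ∀ χ : Gn F n → Ω, Parker.ip θ χ = (Nat.card (Gn F n) : Ω)⁻¹ * χ 1 := by
    intro χ
    rw [Parker.ip_eq]
    congr 1
    rw [Finset.sum_eq_single 1]
    · show (if (1 : Gn F n) = 1 then (1 : Ω) else 0) * χ 1⁻¹ = χ 1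
      rw [if_pos rfl, one_mul, inv_one]
    · intro b _ hb
      show (if b = 1 then (1 : Ω) else 0) * χ b⁻¹ = 0
      rw [if_neg hb, zero_mul]
    · intro h
      exact absurd (Finset.mem_univ _) h
  have h1 := class_expand hθ g
  rw [sum_irr n (fun χ => Parker.ip θ χ * χ g)] at h1
  have h2 : θ g = (Nat.card (Gn F n) : Ω)⁻¹ * ∑ w ∈ lvI F Ω n, w.at n 1 * w.at n g := by
    rw [h1, Finset.mul_sum]
    refine Finset.sum_congr rfl fun w _ => ?_
    rw [hip, mul_assoc]
  have h3 : ∑ w ∈ lvI F Ω n, w.at n 1 * w.at n g = (Nat.card (Gn F n) : Ω) * θ g := by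
    rw [h2, ← mul_assoc, mul_inv_cancel₀ hcard, one_mul]
  rw [h3]
  show (Nat.card (Gn F n) : Ω) * (if g = 1 then (1 : Ω) else 0) = _
  by_cases hg : g = 1
  · rw [if_pos hg, if_pos hg, mul_one]
  · rw [if_neg hg, if_neg hg, mul_zero]

/-- the inflated character -/
def infl {a b n : ℕ} (h : a + b = n) (α : Gn F a → Ω) (β : Gn F b → Ω) : Par F h → Ω :=
  fun p => α (pr F h p).1 * β (pr F h p).2

theorem ip_cop {u z v : Irr F Ω} {n : ℕ} (h : u.n + z.n = n) :
    Parker.ip (infl h u.φ z.φ) (fun p : Par F h => v.at n p) = (mI v u z : Ω) :=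
  (ip_par h v u.φ z.φ).trans ((Parker.ip_comm _ _).trans (mI_spec v u z).symm)

/-- the degree of a product -/
theorem deg_prod {u z v : Irr F Ω} {n : ℕ} (h : u.n + z.n = n) (hv : v.n = n)
    (hm : ∀ w, mI w u z = if w = v then 1 else 0) :
    v.at n 1 = ((Par F h).index : Ω) * (u.φ 1 * z.φ 1) := by
  let _ := Fintype.ofFinite (Par F h)
  have hP : (Nat.card (Par F h) : Ω) ≠ 0 := by
    exact_mod_cast Nat.card_pos.ne'
  have h1 : v.at n 1 = ∑ w ∈ lvI F Ω n, w.at n 1 * (mI w u z : Ω) := by
    rw [Finset.sum_eq_single v]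
    · rw [hm, if_pos rfl, Nat.cast_one, mul_one]
    · intro w _ hw
      rw [hm, if_neg hw, Nat.cast_zero, mul_zero]
    · intro h2
      exact absurd (mem_lvI.2 hv) h2
  have h2 : ∀ w : Irr F Ω, w.at n 1 * (mI w u z : Ω) =
      Parker.ip (w.at n 1 • fun p : Par F h => w.at n p) (infl h u.φ z.φ) := by
    intro w
    rw [Parker.ip_smul_left, Parker.ip_comm, ip_cop h]
  rw [h1, Finset.sum_congr rfl fun w _ => h2 w, ← Parker.ip_sum_left, Parker.ip_eq,
    Finset.sum_eq_single 1]
  · have h3 : (∑ w ∈ lvI F Ω n, w.at n 1 • fun p : Par F h => w.at n p) (1 : Par F h) =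
        (Nat.card (Gn F n) : Ω) := by
      rw [Finset.sum_apply]
      have h4 := reg_sum (F := F) (Ω := Ω) (1 : Gn F n)
      rw [if_pos rfl] at h4
      exact h4
    have h5 : infl h u.φ z.φ (1 : Par F h)⁻¹ = u.φ 1 * z.φ 1 := by
      unfold infl
      rw [inv_one, map_one]
      rfl
    have h6 : (Nat.card (Gn F n) : Ω) = (Nat.card (Par F h) : Ω) * ((Par F h).index : Ω) := by
      rw [← (Par F h).card_mul_index, Nat.cast_mul]
    rw [h3, h5, h6, mul_assoc, ← mul_assoc, inv_mul_cancel₀ hP, one_mul]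
  · intro p _ hp
    have h3 : (∑ w ∈ lvI F Ω n, w.at n 1 • fun p : Par F h => w.at n p) p = 0 := by
      rw [Finset.sum_apply]
      have h4 := reg_sum (F := F) (Ω := Ω) (p : Gn F n)
      have h5 : (p : Gn F n) ≠ 1 := fun h5 => hp (Subtype.ext h5)
      rw [if_neg h5] at h4
      exact h4
    rw [h3, zero_mul]
  · intro h3
    exact absurd (Finset.mem_univ _) h3

omit [CharP F 2] in
theorem du_of_bar {v : Irr F Ω} (h : v.bar = v) : Parker.du v.φ = v.φ := by
  have h1 : v.bar.at v.n = v.at v.n := congrArg (fun w : Irr F Ω => w.at v.n) h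
  have h2 : v.bar.at v.n = Parker.du v.φ := Irr.at_self v.bar
  rw [h2, Irr.at_self] at h1
  exact h1

theorem case1 {N n : ℕ} (hN : AllFx F Γ N) (hn : n ≤ N) {V : Type} [AddCommGroup V]
    [Module Ω V] [FiniteDimensional Ω V] {ρ : Representation Ω (Gn F n) V}
    (hρ : ρ.IsIrreducible) (hev : Even (Module.finrank Ω V)) (hO : Parker.Orth ρ)
    {v u z : Irr F Ω} (hv : v.n = n) (hvφ : v.at n = ρ.character) (hub : u.bar = u)
    (hzb : z.bar = z) (h : u.n + z.n = n) (hm : ∀ w, mI w u z = if w = v then 1 else 0)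
    (ihu : ∀ (k : ℕ) (τ : Representation Ω (Gn F u.n) (Fin k → Ω)), τ.IsIrreducible →
      Even (Module.finrank Ω (Fin k → Ω)) → Parker.Orth τ → Parker.GoodV c Γ τ)
    (ihz : ∀ (k : ℕ) (τ : Representation Ω (Gn F z.n) (Fin k → Ω)), τ.IsIrreducible →
      Even (Module.finrank Ω (Fin k → Ω)) → Parker.Orth τ → Parker.GoodV c Γ τ) :
    Parker.GoodV c Γ ρ := by
  have hun : u.n ≤ N := by omega
  have hzn : z.n ≤ N := by omega
  have hα : infl h u.φ z.φ ∈ Parker.irr Ω (Par F h) := infl_irr h u.mem z.mem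
  have hα1 : infl h u.φ z.φ 1 = u.φ 1 * z.φ 1 := by
    unfold infl
    rw [map_one]
    rfl
  have hduu := du_of_bar hub
  have hduz := du_of_bar hzb
  have hdu : Parker.du (infl h u.φ z.φ) = infl h u.φ z.φ := by
    funext p
    show u.φ (pr F h p⁻¹).1 * z.φ (pr F h p⁻¹).2 = u.φ (pr F h p).1 * z.φ (pr F h p).2
    rw [map_inv]
    have h1 : u.φ (pr F h p).1⁻¹ = u.φ (pr F h p).1 := congrFun hduu _
    have h2 : z.φ (pr F h p).2⁻¹ = z.φ (pr F h p).2 := congrFun hduz _
    exact congrArg₂ (· * ·) h1 h2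
  have hfx : ∀ p, Parker.Fx Γ (infl h u.φ z.φ p) := fun p =>
    Parker.fx_mul (hN u.n hun u.φ u.mem _) (hN z.n hzn z.φ z.mem _)
  -- the multiplicity
  have hmul : Parker.mul (Parker.rs (Par F h) ρ).character (infl h u.φ z.φ) = 1 := by
    have h1 := Parker.mul_spec (Parker.rs (Par F h) ρ) hα
    have h2 : (Parker.rs (Par F h) ρ).character = fun p : Par F h => v.at n p := by
      funext p
      rw [hvφ]
      rfl
    rw [Parker.ip_comm, h2, ip_cop h, hm, if_pos rfl, Nat.cast_one] at h1
    rw [h2]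
    exact_mod_cast h1
  -- the dimension
  have hdim : Module.finrank Ω V = (Par F h).index * Parker.dg (infl h u.φ z.φ) := by
    have h1 := deg_prod h hv hm
    rw [hvφ, Representation.char_one, ← hα1, ← (Parker.dg_spec hα).1] at h1
    exact_mod_cast h1
  obtain ⟨hblk, hch⟩ := blk_crit hρ hα hmul hdim
  obtain ⟨B, hB⟩ := hO
  have hBrs : Parker.InvForm (Parker.rs (Par F h) ρ) B :=
    ⟨hB.symm, hB.nondeg, fun g x y => hB.inv g x y⟩
  have hadj : Parker.SelfAdj B
      (Parker.act (Parker.rs (Par F h) ρ) (Parker.es (infl h u.φ z.φ))) := by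
    intro x y
    have h1 := Parker.idem_adj hBrs hα x y
    rw [hdu] at h1
    exact h1
  have hrat : Parker.act (Parker.rs (Par F h) ρ) (Parker.es (infl h u.φ z.φ)) ∈
      Parker.Rat Γ ρ := by
    apply Parker.rat_res
    refine ⟨_, fun p => ?_, rfl⟩
    exact Parker.fx_mul (Parker.fx_mul (hfx 1) (Parker.fx_inv (Parker.fx_natCast Γ _))) (hfx _)
  -- the representations `u'`, `z'`
  obtain ⟨k, u', hu', huch⟩ := Parker.mem_irr.1 u.mem
  obtain ⟨l, z', hz', hzch⟩ := Parker.mem_irr.1 z.mem
  have hout : (Parker.P13_aux.pb (pr F h) (outer u' z')).IsIrreducible :=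
    Parker.P13_aux.pb_irr (pr_surjective h) (outer_irr hu' hz')
  have hrepch : (Parker.P13_aux.pb (pr F h) (outer u' z')).character = hblk.rep.character := by
    rw [hch]
    funext p
    rw [Parker.P13_aux.pb_char, outer_char, huch, hzch]
    rfl
  obtain ⟨e⟩ := Parker.equiv_of_char hout (Parker.blk_irr hblk hρ) hrepch
  have horth : Parker.Orth (outer u' z') :=
    Parker.P13_aux.orth_of_pb (pr_surjective h)
      (Parker.equiv_orth e.symm (Parker.blk_orthRep hblk hB hadj))
  have hdgα : Parker.dg (infl h u.φ z.φ) =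
      Module.finrank Ω (Fin k → Ω) * Module.finrank Ω (Fin l → Ω) := by
    have h1 := (Parker.dg_spec hα).1
    have h2 : u.φ 1 = (Module.finrank Ω (Fin k → Ω) : Ω) := by
      rw [← huch, Representation.char_one]
    have h3 : z.φ 1 = (Module.finrank Ω (Fin l → Ω) : Ω) := by
      rw [← hzch, Representation.char_one]
    rw [hα1, h2, h3] at h1
    exact_mod_cast h1
  have hev' : Even (Module.finrank Ω (Fin k → Ω) * Module.finrank Ω (Fin l → Ω)) := by
    rw [hdim, hdgα] at hev
    rcases Nat.even_mul.1 hev with h1 | h1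
    · exact absurd h1 (Nat.not_even_iff_odd.2 (par_index h))
    · exact h1
  have hgood : Parker.GoodV c Γ (outer u' z') := by
    refine good_outer hu' hz' ?_ ?_ ?_ ?_ hev' horth (ihu k u' hu') (ihz l z' hz')
    · intro g
      rw [huch]
      exact congrFun hduu g
    · intro g
      rw [hzch]
      exact congrFun hduz g
    · intro g
      rw [huch]
      exact hN u.n hun u.φ u.mem g
    · intro g
      rw [hzch]
      exact hN z.n hzn z.φ z.mem g
  have hg2 : Parker.GoodV c Γ hblk.rep :=
    Parker.equiv_good e (good_pb (pr_surjective h) hgood)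
  exact good_blk' hblk hρ hB hadj hrat hg2

theorem good_aux (ψ : AddChar F ℤ) (hψ : ∃ a, ψ a ≠ 1) {N : ℕ} (hN : AllFx F Γ N) :
    ∀ (n : ℕ), n ≤ N → ∀ (V : Type) [AddCommGroup V] [Module Ω V] [FiniteDimensional Ω V]
      (ρ : Representation Ω (Gn F n) V), ρ.IsIrreducible → Even (Module.finrank Ω V) →
      Parker.Orth ρ → Parker.GoodV c Γ ρ := by
  intro n
  induction n using Nat.strong_induction_on with
  | _ n ih =>
    intro hn V _ _ _ ρ hρ hev hO
    have hmem : ρ.character ∈ Parker.irr Ω (Gn F n) := Parker.mem_irr.2 (Parker.mem_irrSet hρ)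
    let v : Irr F Ω := ⟨n, ρ.character, hmem⟩
    have hvdim : v.dim = Module.finrank Ω V := Parker.dg_char ρ
    have hbar : v.bar = v := by
      have h1 : Parker.du ρ.character = ρ.character := by
        funext g
        exact Parker.sd_of_orth hO g
      show (⟨n, Parker.du ρ.character, Parker.du_mem_irr hmem⟩ : Irr F Ω) =
        ⟨n, ρ.character, hmem⟩
      congr 1
    have hne : v ≠ (glPSHX Ω ψ hψ).one := by
      intro h
      have h1 : v.dim = (oneI F Ω).dim := congrArg Irr.dim h
      have h2 := odI_one (F := F) (Ω := Ω)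
      rw [← h1, hvdim, ZMod.natCast_eq_one_iff_odd] at h2
      exact (Nat.not_odd_iff_even.2 hev) h2
    rcases main_C (P := glPSHX Ω ψ hψ) v hbar hne with
      ⟨u, z, hu1, hz1, hub, hzb, hel⟩ | ⟨t, ht⟩
    · have hm : ∀ w, mI w u z = if w = v then 1 else 0 := by
        intro w
        have h1 : ((mI w u z : ℕ) : ℤ) =
            (glPSHX Ω ψ hψ).co ((glPSHX Ω ψ hψ).el u * (glPSHX Ω ψ hψ).el z) w :=
          (co_mul_el (P := (glPSHX Ω ψ hψ).toPSH) u z w).symm
        rw [← hel, co_el] at h1
        by_cases hw : w = v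
        · rw [if_pos hw] at h1 ⊢
          exact_mod_cast h1
        · rw [if_neg hw] at h1 ⊢
          exact_mod_cast h1
      have hdeg : n = u.n + z.n := by
        have h1 : mI v u z ≠ 0 := by
          rw [hm, if_pos rfl]
          exact one_ne_zero
        exact mI_deg h1
      have hu0 : u.n ≠ 0 := fun h => hu1 ((deg_zeroI u).1 h)
      have hz0 : z.n ≠ 0 := fun h => hz1 ((deg_zeroI z).1 h)
      exact case1 hN hn hρ hev hO (v := v) rfl (Irr.at_self v) hub hzb hdeg.symm hm
        (fun k τ => ih u.n (by omega) (by omega) (Fin k → Ω) τ)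
        (fun k τ => ih z.n (by omega) (by omega) (Fin k → Ω) τ)
    · obtain ⟨K, _, _, _, hK⟩ := exists_fixedField (Ω := Ω) Γ
      obtain ⟨s, hs, hd⟩ := exists_generic Ω (Gn F n)
      obtain ⟨B, hB⟩ := hO
      have h1 := single (c := c) hK hN t (v := v) hn hs hd (by rw [hvdim]; exact hev) ht
      have h2 : Parker.detc v.φ (fun g => (s g : Ω)) =
          LinearMap.det (Parker.act ρ fun g => (s g : Ω)) := Parker.detc_char hρ _
      have h3 : Parker.detc v.φ (fun g => (s g : Ω)) ≠ 0 := by
        refine hd _ hmem ?_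
        rintro ⟨-, h4⟩
        rw [Parker.dg_char] at h4
        exact (Nat.not_odd_iff_even.2 hev) h4
      rw [cl_eq_one h3, h2] at h1
      refine ⟨B, hB, Parker.act ρ fun g => (s g : Ω),
        ⟨_, fun g => Parker.fx_ratCast Γ _, rfl⟩,
        Parker.skew_of_skew hB (fun g => by rw [hs, Rat.cast_neg]), ?_, h1⟩
      rw [← h2]
      exact h3

end E02_aux

theorem good_all {N : ℕ} (hN : AllFx F Γ N) {n : ℕ} (hn : n ≤ N) {V : Type}
    [AddCommGroup V] [Module Ω V] [FiniteDimensional Ω V] {ρ : Representation Ω (Gn F n) V}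
    (hρ : ρ.IsIrreducible) (hev : Even (Module.finrank Ω V)) (hO : Parker.Orth ρ) :
    Parker.GoodV c Γ ρ := by
  obtain ⟨ψ, hψ⟩ := exists_psi (F := F)
  exact E02_aux.good_aux ψ hψ hN n hn V ρ hρ hev hO

end

end ParkerGL
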