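import Pool.Agent.ParkerGL.Defs
import Pool.Agent.Parker.P15

/-!
# MP_6c3636_al, GL_n(q), module A01: class functions, basic facts (helper7)

Definitions in `Pool.Agent.ParkerGL.Defs` (read it first). The basic tool is `CF.iso`.

* `of_val`: with `e = std F _ : (Fin n → F) ≃ (Fin n → F)` the value is `φ (e * x * e⁻¹) = φ x`.
* `mul_deg`: `finrank W + finrank (V ⧸ W) = finrank V`.
* `one_mul`: only `W = ⊥` has `finrank W = 0`; `V ⧸ ⊥ ≃ V`. `mul_one`: only `W = ⊤` has
  `finrank (V ⧸ W) = 0`; `⊤ ≃ V`.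
* `ext_mul`: `ext y z h * ext y' z' h' = ext (y * y') (z * z') (y ∘ h' + h ∘ z')`.
* `cop_iso`: reindex `h ↦ e ∘ h ∘ e'⁻¹`.
* `cop_cls`: special case of `cop_iso` with `e = g`, `e' = g'`.
* `cop_zero_left`: if `finrank A = 0` then `Hom (C, A)` is trivial and `A × C ≃ C`.
-/

namespace ParkerGL

noncomputable section

open Classical

variable {F : Type} [Field F] {Ω : Type} [Field Ω]

section

variable {A : Type} [AddCommGroup A] [Module F A] {C : Type} [AddCommGroup C] [Module F C]

theorem ext_mul (y y' : GV F A) (z z' : GV F C) (h h' : C →ₗ[F] A) :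
    ext y z h * ext y' z' h' =
      ext (y * y') (z * z') ((y : A →ₗ[F] A) ∘ₗ h' + h ∘ₗ (z' : C →ₗ[F] C)) := by
  apply LinearEquiv.ext
  rintro ⟨a, c⟩
  show ext y z h (ext y' z' h' (a, c)) = _
  rw [ext_apply, ext_apply, ext_apply]
  refine Prod.ext ?_ rfl
  show y (y' a + h' c) + h (z' c) = y (y' a) + (y (h' c) + h (z' c))
  rw [map_add, add_assoc]

theorem ext_one : ext (1 : GV F A) (1 : GV F C) (0 : C →ₗ[F] A) = 1 := by
  apply LinearEquiv.ext
  rintro ⟨a, c⟩
  rw [ext_apply]
  refine Prod.ext ?_ rfl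
  show a + 0 = a
  rw [add_zero]

theorem ext_inv (y : GV F A) (z : GV F C) (h : C →ₗ[F] A) :
    (ext y z h)⁻¹ = ext y⁻¹ z⁻¹ (-((y⁻¹ : GV F A) : A →ₗ[F] A) ∘ₗ h ∘ₗ
      ((z⁻¹ : GV F C) : C →ₗ[F] C)) := by
  apply inv_eq_of_mul_eq_one_right
  rw [ext_mul, ← ext_one, mul_inv_cancel, mul_inv_cancel]
  congr 1
  apply LinearMap.ext
  intro c
  show y (-(y⁻¹ (h (z⁻¹ c)))) + h (z⁻¹ c) = 0
  rw [map_neg]
  have : y (y⁻¹ (h (z⁻¹ c))) = h (z⁻¹ c) := y.apply_symm_apply _
  rw [this, neg_add_cancel]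

theorem ext_inj {y y' : GV F A} {z z' : GV F C} {h h' : C →ₗ[F] A}
    (he : ext y z h = ext y' z' h') : y = y' ∧ z = z' ∧ h = h' := by
  have h1 : ∀ p : A × C, (y p.1 + h p.2, z p.2) = (y' p.1 + h' p.2, z' p.2) := by
    intro p
    rw [← ext_apply, ← ext_apply, he]
  refine ⟨?_, ?_, ?_⟩
  · apply LinearEquiv.ext
    intro a
    have h2 := congrArg Prod.fst (h1 (a, 0))
    simpa using h2
  · apply LinearEquiv.ext
    intro c
    exact congrArg Prod.snd (h1 (0, c))
  · apply LinearMap.ext
    intro c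
    have h2 := congrArg Prod.fst (h1 (0, c))
    simpa using h2

/-- the elements `ext y z h` are the automorphisms which preserve `A × 0` -/
theorem exists_ext (g : GV F (A × C)) (hg : ∀ a : A, (g (a, 0)).2 = 0) [Finite A] [Finite C] :
    ∃ y z h, g = ext y z h := by
  have hspl : ∀ (a : A) (c : C), g (a, c) = g (a, 0) + g (0, c) := by
    intro a c
    rw [← map_add, Prod.mk_add_mk, add_zero, zero_add]
  let y0 : A →ₗ[F] A := LinearMap.fst F A C ∘ₗ (g : A × C →ₗ[F] A × C) ∘ₗ LinearMap.inl F A C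
  let z0 : C →ₗ[F] C := LinearMap.snd F A C ∘ₗ (g : A × C →ₗ[F] A × C) ∘ₗ LinearMap.inr F A C
  let h0 : C →ₗ[F] A := LinearMap.fst F A C ∘ₗ (g : A × C →ₗ[F] A × C) ∘ₗ LinearMap.inr F A C
  have hy0 : ∀ a, y0 a = (g (a, 0)).1 := fun a => rfl
  have hz0 : ∀ c, z0 c = (g (0, c)).2 := fun a => rfl
  have hh0 : ∀ c, h0 c = (g (0, c)).1 := fun a => rfl
  have hyi : Function.Injective y0 := by
    intro a a' haa
    have h2 : g (a, 0) = g (a', 0) := Prod.ext haa (by rw [hg, hg])
    exact congrArg Prod.fst (g.injective h2)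
  have hzs : Function.Surjective z0 := by
    intro c'
    obtain ⟨⟨a, c⟩, hac⟩ := g.surjective (0, c')
    refine ⟨c, ?_⟩
    rw [hz0]
    have h2 := congrArg Prod.snd hac
    rw [hspl, Prod.snd_add, hg, zero_add] at h2
    exact h2
  refine ⟨LinearEquiv.ofBijective y0 ⟨hyi, Finite.injective_iff_surjective.1 hyi⟩,
    LinearEquiv.ofBijective z0 ⟨Finite.injective_iff_surjective.2 hzs, hzs⟩, h0, ?_⟩
  apply LinearEquiv.ext
  rintro ⟨a, c⟩
  rw [ext_apply, hspl]
  refine Prod.ext rfl ?_
  show (g (a, 0)).2 + (g (0, c)).2 = (g (0, c)).2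
  rw [hg, zero_add]

end

section

variable {V : Type} [AddCommGroup V] [Module F V] {W : Type} [AddCommGroup W] [Module F W]

theorem pe_apply_left {a b n : ℕ} (h : a + b = n) (p : (Fin a → F) × (Fin b → F)) (i : Fin n)
    (hi : (i : ℕ) < a) : pe F h p i = p.1 ⟨i, hi⟩ := by
  subst h
  have h1 : finSumFinEquiv.symm (finCongr rfl i) = (Sum.inl ⟨i, hi⟩ : Fin a ⊕ Fin b) := by
    rw [Equiv.symm_apply_eq]
    rfl
  show (LinearEquiv.sumArrowLequivProdArrow (Fin a) (Fin b) F F).symm p
    (finSumFinEquiv.symm (finCongr rfl i)) = _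
  rw [h1]
  rfl

theorem pe_apply_right {a b n : ℕ} (h : a + b = n) (p : (Fin a → F) × (Fin b → F)) (i : Fin n)
    (hi : a ≤ (i : ℕ)) : pe F h p i = p.2 ⟨i - a, by omega⟩ := by
  subst h
  have h1 : finSumFinEquiv.symm (finCongr rfl i) = (Sum.inr ⟨i - a, by omega⟩ : Fin a ⊕ Fin b) := by
    rw [Equiv.symm_apply_eq]
    apply Fin.ext
    show (i : ℕ) = a + (i - a)
    omega
  show (LinearEquiv.sumArrowLequivProdArrow (Fin a) (Fin b) F F).symm p
    (finSumFinEquiv.symm (finCongr rfl i)) = _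
  rw [h1]
  rfl

theorem inv_iff (x : GV F V) (U : Submodule F V) [Finite V] :
    Inv x U ↔ ∀ u ∈ U, x u ∈ U := by
  constructor
  · intro h u hu
    rw [← (show U.map (x : V →ₗ[F] V) = U from h)]
    exact Submodule.mem_map_of_mem hu
  · intro h
    apply le_antisymm
    · rintro _ ⟨u, hu, rfl⟩
      exact h u hu
    · intro u hu
      let m : U → U := fun v => ⟨x v, h v v.2⟩
      have hm : Function.Injective m := by
        intro v w hvw
        exact Subtype.ext (x.injective (congrArg Subtype.val hvw))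
      obtain ⟨v, hv⟩ := Finite.injective_iff_surjective.1 hm ⟨u, hu⟩
      exact ⟨v, v.2, congrArg Subtype.val hv⟩

end

theorem CF.val_tr (f : CF F Ω) {V W : Type} [AddCommGroup V] [Module F V] [Finite V]
    [AddCommGroup W] [Module F W] [Finite W] (e : V ≃ₗ[F] W) (x : GV F V) :
    f.val W (trE e x) = f.val V x := by
  refine (f.iso V W e x (trE e x) ?_).symm
  intro v
  rw [trE_apply, LinearEquiv.symm_apply_apply]

/-- a class function is invariant under conjugation -/
theorem CF.val_conj (f : CF F Ω) {V : Type} [AddCommGroup V] [Module F V] [Finite V]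
    (g x : GV F V) : f.val V (g * x * g⁻¹) = f.val V x := by
  refine (f.iso V V g x (g * x * g⁻¹) ?_).symm
  intro v
  show g (x v) = g (x (g.symm (g v)))
  rw [LinearEquiv.symm_apply_apply]

theorem CF.val_blk [Finite F] (f : CF F Ω) {a b n : ℕ} (h : a + b = n)
    (x : GV F ((Fin a → F) × (Fin b → F))) :
    f.at n (blk F h x) = f.val ((Fin a → F) × (Fin b → F)) x := by
  exact f.val_tr (pe F h) x

theorem CF.cls [Finite F] (f : CF F Ω) (n : ℕ) : IsCls (f.at n) := by
  intro g h
  exact f.val_conj g h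

theorem CF.of_deg [Finite F] {n : ℕ} (φ : Gn F n → Ω) (hφ : IsCls φ) : (CF.of φ hφ).IsDeg n := by
  intro V _ _ _ x h
  exact dif_neg h

theorem CF.of_val [Finite F] {n : ℕ} (φ : Gn F n → Ω) (hφ : IsCls φ) : (CF.of φ hφ).at n = φ := by
  funext x
  have h : Module.finrank F (Fin n → F) = n := Module.finrank_fin_fun F
  have h1 : (CF.of φ hφ).at n x = φ (tr (std F h) x) := dif_pos h
  rw [h1]
  exact hφ (std F h) x

theorem CF.deg_at [Finite F] {f : CF F Ω} {n k : ℕ} (hf : f.IsDeg n) (h : k ≠ n) : f.at k = 0 := by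
  funext x
  exact hf (Fin k → F) x (by rw [Module.finrank_fin_fun]; exact h)

/-- two class functions which agree on `GL_n(F)` agree on all spaces of dimension `n` -/
theorem CF.ext_at [Finite F] {f g : CF F Ω} {n : ℕ} (h : f.at n = g.at n) (V : Type)
    [AddCommGroup V] [Module F V] [Finite V] (hV : Module.finrank F V = n)
    (x : GV F V) : f.val V x = g.val V x := by
  rw [← f.val_tr (std F hV) x, ← g.val_tr (std F hV) x]
  exact congrFun h (trE (std F hV) x)

theorem CF.mul_deg {f g : CF F Ω} {a b : ℕ} (hf : f.IsDeg a) (hg : g.IsDeg b) :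
    (f.mul g).IsDeg (a + b) := by
  intro V _ _ _ x hV
  apply finsum_eq_zero_of_forall_eq_zero
  intro W
  by_cases h : Inv x W
  · rw [dif_pos h]
    by_cases hW : Module.finrank F W = a
    · have h2 : Module.finrank F (V ⧸ W) ≠ b := by
        intro h3
        apply hV
        rw [← hW, ← h3, add_comm]
        exact (Submodule.finrank_quotient_add_finrank W).symm
      rw [hg _ _ h2, mul_zero]
    · rw [hf _ _ hW, zero_mul]
  · rw [dif_neg h]

theorem CF.one_mul (f : CF F Ω) (V : Type) [AddCommGroup V] [Module F V] [Finite V]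
    (x : GV F V) : (CF.one.mul f).val V x = f.val V x := by
  have hbot : Inv x ⊥ := by
    unfold Inv
    rw [Submodule.map_bot]
  have h1 : (CF.one.mul f).val V x = ∑ᶠ W : Submodule F V,
      if h : Inv x W then (CF.one : CF F Ω).val W (rst x W h) * f.val (V ⧸ W) (quo x W h) else 0 :=
    rfl
  rw [h1, finsum_eq_single _ (⊥ : Submodule F V)]
  · rw [dif_pos hbot]
    have h2 : (CF.one : CF F Ω).val (⊥ : Submodule F V) (rst x ⊥ hbot) = 1 :=
      if_pos (finrank_bot F V)
    rw [h2, _root_.one_mul]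
    refine f.iso _ _ (Submodule.quotEquivOfEqBot ⊥ rfl) _ _ ?_
    intro v
    obtain ⟨v, rfl⟩ := Submodule.mkQ_surjective _ v
    rfl
  · intro W hW
    by_cases h : Inv x W
    · rw [dif_pos h]
      have h2 : (CF.one : CF F Ω).val W (rst x W h) = 0 := by
        apply if_neg
        intro h3
        exact hW (Submodule.finrank_eq_zero.1 h3)
      rw [h2, zero_mul]
    · rw [dif_neg h]

theorem CF.mul_one (f : CF F Ω) (V : Type) [AddCommGroup V] [Module F V] [Finite V]
    (x : GV F V) : (f.mul CF.one).val V x = f.val V x := by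
  have htop : Inv x ⊤ := by
    unfold Inv
    rw [Submodule.map_top]
    exact LinearMap.range_eq_top.2 x.surjective
  have h1 : (f.mul CF.one).val V x = ∑ᶠ W : Submodule F V,
      if h : Inv x W then f.val W (rst x W h) * (CF.one : CF F Ω).val (V ⧸ W) (quo x W h) else 0 :=
    rfl
  rw [h1, finsum_eq_single _ (⊤ : Submodule F V)]
  · rw [dif_pos htop]
    have h2 : (CF.one : CF F Ω).val (V ⧸ (⊤ : Submodule F V)) (quo x ⊤ htop) = 1 := by
      apply if_pos
      have := Submodule.finrank_quotient_add_finrank (⊤ : Submodule F V)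
      rw [finrank_top] at this
      omega
    rw [h2, _root_.mul_one]
    refine f.iso _ _ Submodule.topEquiv _ _ ?_
    intro v
    rfl
  · intro W hW
    by_cases h : Inv x W
    · rw [dif_pos h]
      have h2 : (CF.one : CF F Ω).val (V ⧸ W) (quo x W h) = 0 := by
        apply if_neg
        intro h3
        apply hW
        apply Submodule.eq_top_of_finrank_eq
        have := Submodule.finrank_quotient_add_finrank W
        omega
      rw [h2, mul_zero]
    · rw [dif_neg h]

/-- the coproduct is invariant under isomorphisms -/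
theorem CF.cop_iso (f : CF F Ω) {A A' C C' : Type} [AddCommGroup A] [Module F A] [Finite A]
    [AddCommGroup C] [Module F C] [Finite C] [AddCommGroup A'] [Module F A'] [Finite A']
    [AddCommGroup C'] [Module F C'] [Finite C'] (e : A ≃ₗ[F] A') (e' : C ≃ₗ[F] C')
    {y : GV F A} {y' : GV F A'} {z : GV F C} {z' : GV F C'} (hy : ∀ a, e (y a) = y' (e a))
    (hz : ∀ c, e' (z c) = z' (e' c)) : f.cop A C y z = f.cop A' C' y' z' := by
  unfold CF.cop
  have hcard : Nat.card (C →ₗ[F] A) = Nat.card (C' →ₗ[F] A') :=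
    Nat.card_congr (LinearEquiv.arrowCongr e' e).toEquiv
  rw [hcard, ← finsum_comp_equiv (LinearEquiv.arrowCongr e' e).toEquiv]
  congr 1
  apply finsum_congr
  intro h
  refine f.iso _ _ (LinearEquiv.prodCongr e e') _ _ ?_
  rintro ⟨a, c⟩
  refine Prod.ext ?_ (hz c)
  show e (y a + h c) = y' (e a) + e (h (e'.symm (e' c)))
  rw [map_add, hy, LinearEquiv.symm_apply_apply]

theorem CF.cop_cls (f : CF F Ω) {A C : Type} [AddCommGroup A] [Module F A] [Finite A]
    [AddCommGroup C] [Module F C] [Finite C] (y g : GV F A) (z g' : GV F C) :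
    f.cop A C (g * y * g⁻¹) (g' * z * g'⁻¹) = f.cop A C y z := by
  refine (f.cop_iso g g' ?_ ?_).symm
  · intro a
    show g (y a) = g (y (g.symm (g a)))
    rw [LinearEquiv.symm_apply_apply]
  · intro c
    show g' (z c) = g' (z (g'.symm (g' c)))
    rw [LinearEquiv.symm_apply_apply]

/-- only the values on spaces of the right dimension matter -/
theorem CF.cop_deg {f : CF F Ω} {n : ℕ} (hf : f.IsDeg n) {A C : Type} [AddCommGroup A]
    [Module F A] [Finite A] [AddCommGroup C] [Module F C] [Finite C]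
    (h : Module.finrank F A + Module.finrank F C ≠ n) (y : GV F A) (z : GV F C) :
    f.cop A C y z = 0 := by
  unfold CF.cop
  rw [finsum_eq_zero_of_forall_eq_zero, mul_zero]
  intro u
  exact hf _ _ (by rw [Module.finrank_prod]; exact h)

theorem CF.cop_zero_left [CharZero Ω] (f : CF F Ω) {A C : Type} [AddCommGroup A]
    [Module F A] [Finite A] [AddCommGroup C] [Module F C] [Finite C]
    (h : Module.finrank F A = 0) (y : GV F A) (z : GV F C) :
    f.cop A C y z = f.val C z := by
  have : Subsingleton A := Module.finrank_zero_iff.1 h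
  have : Subsingleton (C →ₗ[F] A) := ⟨fun u v => LinearMap.ext fun c => Subsingleton.elim _ _⟩
  unfold CF.cop
  have hcard : Nat.card (C →ₗ[F] A) = 1 := Nat.card_of_subsingleton 0
  rw [hcard, Nat.cast_one, inv_one, _root_.one_mul, finsum_eq_single _ (0 : C →ₗ[F] A)]
  · refine f.iso _ _ (LinearEquiv.ofBijective (LinearMap.snd F A C) ⟨?_, ?_⟩) _ _ ?_
    · intro p q hpq
      exact Prod.ext (Subsingleton.elim _ _) hpq
    · intro c
      exact ⟨(0, c), rfl⟩
    · intro p
      rfl
  · intro u hu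
    exact absurd (Subsingleton.elim u 0) hu

end

end ParkerGL
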