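import Pool.Agent.ParkerGL.Defs

/-!
# MP_6c3636_al, GL_n(q), module A02: cyclic decomposition of an endomorphism (helper7)

`exists_cyclic`: `V` with the action of `x` is an `F[X]`-module (`Module.AEval' x` or a direct
construction), finite, hence torsion, hence (structure theorem over the principal ideal domain `F[X]`,
`Module.equiv_directSum_of_isTorsion` or `Submodule.exists_isInternal_prime_power_torsion` etc.) the
direct sum of cyclic submodules `V_i` (a quotient `F[X] / I` is spanned over `F` by the `X^k`).

`cyclic_conj`: `w, x w, …, x^{d-1} w` (`d = finrank W`) is a basis of `W` (it spans: by Cayley–Hamilton `x^d w` is a combination of the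
lower ones, then all `x^k w` are, by induction), the same for `w'`, `y`, with the same `d` (degree of the characteristic
polynomial), and both `x`, `y` have the same (companion) matrix in these bases. (Alternatively both are isomorphic to
`F[X] / (charpoly)` as `F[X]`-modules.)
-/

open Polynomial

namespace ParkerGL

noncomputable section

namespace A02_aux

/-- evaluation of polynomials in `x` at the vector `w` -/
def ev {F : Type} [Field F] {W : Type} [AddCommGroup W] [Module F W] (x : Module.End F W) (w : W) :
    F[X] →ₗ[F] W :=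
  (LinearMap.applyₗ w : (W →ₗ[F] W) →ₗ[F] W) ∘ₗ (aeval x).toLinearMap

theorem ev_apply {F : Type} [Field F] {W : Type} [AddCommGroup W] [Module F W]
    (x : Module.End F W) (w : W) (p : F[X]) : ev x w p = (aeval x p) w := rfl

theorem ev_X_mul {F : Type} [Field F] {W : Type} [AddCommGroup W] [Module F W]
    (x : Module.End F W) (w : W) (p : F[X]) : ev x w (X * p) = x (ev x w p) := by
  simp [ev_apply]

theorem range_ev {F : Type} [Field F] {W : Type} [AddCommGroup W] [Module F W]
    (x : Module.End F W) (w : W) :
    LinearMap.range (ev x w) = Submodule.span F (Set.range fun i : ℕ => (x ^ i) w) := by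
  apply le_antisymm
  · rintro _ ⟨p, rfl⟩
    rw [ev_apply, Polynomial.aeval_eq_sum_range, LinearMap.sum_apply]
    refine Submodule.sum_mem _ fun i _ => ?_
    rw [LinearMap.smul_apply]
    exact Submodule.smul_mem _ _ (Submodule.subset_span ⟨i, rfl⟩)
  · rw [Submodule.span_le]
    rintro _ ⟨i, rfl⟩
    refine ⟨X ^ i, ?_⟩
    simp [ev_apply]

theorem ker_ev {F : Type} [Field F] {W : Type} [AddCommGroup W] [Module F W]
    [FiniteDimensional F W] (x : Module.End F W) (w : W)
    (hw : Submodule.span F (Set.range fun i : ℕ => (x ^ i) w) = ⊤) :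
    LinearMap.ker (ev x w) = (Ideal.span {x.charpoly}).restrictScalars F := by
  set N : Submodule F F[X] := (Ideal.span {x.charpoly}).restrictScalars F with hN
  have hle : N ≤ LinearMap.ker (ev x w) := by
    intro p hp
    rw [hN, Submodule.restrictScalars_mem, Ideal.mem_span_singleton] at hp
    obtain ⟨q, rfl⟩ := hp
    rw [LinearMap.mem_ker, ev_apply, map_mul, LinearMap.aeval_self_charpoly, zero_mul]
    rfl
  have hsurj : Function.Surjective (ev x w) := by
    rw [← LinearMap.range_eq_top, range_ev, hw]
  have hfr : Module.finrank F (F[X] ⧸ N) = Module.finrank F W := by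
    rw [(Submodule.Quotient.restrictScalarsEquiv F (Ideal.span {x.charpoly})).finrank_eq,
      finrank_quotient_span_eq_natDegree, LinearMap.charpoly_natDegree]
  have hfin : FiniteDimensional F (F[X] ⧸ N) := by
    have h1 : Module.Finite F (AdjoinRoot x.charpoly) :=
      (AdjoinRoot.powerBasis (LinearMap.charpoly_monic x).ne_zero).finite
    have h2 : Module.Finite F (F[X] ⧸ Ideal.span {x.charpoly}) := h1
    exact Module.Finite.equiv (Submodule.Quotient.restrictScalarsEquiv F (Ideal.span {x.charpoly})).symm
  have hls : Function.Surjective (N.liftQ (ev x w) hle) := by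
    intro v
    obtain ⟨p, hp⟩ := hsurj v
    exact ⟨Submodule.Quotient.mk p, by rw [← hp]; exact Submodule.liftQ_apply N (ev x w) p⟩
  have hli : Function.Injective (N.liftQ (ev x w) hle) :=
    (LinearMap.injective_iff_surjective_of_finrank_eq_finrank hfr).2 hls
  apply le_antisymm _ hle
  intro p hp
  have h0 : N.liftQ (ev x w) hle (Submodule.Quotient.mk p) = 0 := by
    rw [Submodule.liftQ_apply]; exact hp
  have h1 := hli (h0.trans (map_zero _).symm)
  rwa [Submodule.Quotient.mk_eq_zero] at h1

end A02_aux

open A02_aux

variable {F : Type} [Field F] {V : Type} [AddCommGroup V] [Module F V] [Finite V]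

/-- cyclic endomorphisms with the same characteristic polynomial are conjugate -/
theorem cyclic_conj {W W' : Type} [AddCommGroup W] [Module F W] [FiniteDimensional F W]
    [AddCommGroup W'] [Module F W'] [FiniteDimensional F W'] (x : Module.End F W)
    (y : Module.End F W') (w : W) (w' : W')
    (hw : Submodule.span F (Set.range fun i : ℕ => (x ^ i) w) = ⊤)
    (hw' : Submodule.span F (Set.range fun i : ℕ => (y ^ i) w') = ⊤)
    (h : x.charpoly = y.charpoly) : ∃ e : W ≃ₗ[F] W', ∀ v, e (x v) = y (e v) := by
  have hs : Function.Surjective (ev x w) := by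
    rw [← LinearMap.range_eq_top, range_ev, hw]
  have hs' : Function.Surjective (ev y w') := by
    rw [← LinearMap.range_eq_top, range_ev, hw']
  have hk : LinearMap.ker (ev x w) = LinearMap.ker (ev y w') := by
    rw [ker_ev x w hw, ker_ev y w' hw', h]
  let e1 := (ev x w).quotKerEquivOfSurjective hs
  let e2 := (ev y w').quotKerEquivOfSurjective hs'
  let e3 := Submodule.quotEquivOfEq _ _ hk
  have key : ∀ p : F[X], (e1.symm.trans (e3.trans e2)) (ev x w p) = ev y w' p := by
    intro p
    have h1 : e1.symm (ev x w p) = Submodule.Quotient.mk p := by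
      rw [LinearEquiv.symm_apply_eq]; rfl
    rw [LinearEquiv.trans_apply, LinearEquiv.trans_apply, h1]
    rfl
  refine ⟨e1.symm.trans (e3.trans e2), fun v => ?_⟩
  obtain ⟨p, rfl⟩ := hs v
  rw [← ev_X_mul, key, key, ev_X_mul]

/-- `V` is the direct sum of `x`-invariant subspaces with cyclic vectors -/
theorem exists_cyclic [Finite F] (x : Module.End F V) :
    ∃ (ι : Type) (_ : Fintype ι) (_ : DecidableEq ι) (U : ι → Submodule F V) (w : ι → V),
      DirectSum.IsInternal U ∧ (∀ i, ∀ u ∈ U i, x u ∈ U i) ∧
      ∀ i, Submodule.span F (Set.range fun k : ℕ => (x ^ k) (w i)) = U i := by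
  classical
  have hfd : Module.Finite F V := Module.Finite.of_finite
  have htor : Module.IsTorsion F[X] (Module.AEval' x) := by
    intro v
    refine ⟨⟨x.charpoly, mem_nonZeroDivisors_of_ne_zero (LinearMap.charpoly_monic x).ne_zero⟩, ?_⟩
    obtain ⟨v, rfl⟩ := (Module.AEval'.of x).surjective v
    show x.charpoly • (Module.AEval'.of x v) = 0
    have := Module.AEval.of_aeval_smul (R := F) (a := x) x.charpoly v
    rw [LinearMap.aeval_self_charpoly, zero_smul, map_zero] at this
    exact this.symm
  obtain ⟨ι, hι, p, _, e, ⟨E⟩⟩ := Module.equiv_directSum_of_isTorsion htor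
  let N : ι → Type := fun i => F[X] ⧸ Submodule.span F[X] {p i ^ e i}
  let ρ : (i : ι) → N i → V := fun i n =>
    (Module.AEval'.of x).symm (E.symm (DirectSum.lof F[X] ι N i n))
  have hadd : ∀ i (a b : N i), ρ i (a + b) = ρ i a + ρ i b := by
    intro i a b
    simp only [ρ, map_add]
  have hX : ∀ i (q : F[X]) (a : N i), ρ i (q • a) = (aeval x q) (ρ i a) := by
    intro i q a
    simp only [ρ, map_smul]
    exact Module.AEval.of_symm_smul (R := F) (a := x) q _
  let U : ι → Submodule F V := fun i =>
    { carrier := Set.range (ρ i)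
      add_mem' := by
        rintro _ _ ⟨a, rfl⟩ ⟨b, rfl⟩
        exact ⟨a + b, hadd i a b⟩
      zero_mem' := ⟨0, by simp only [ρ, map_zero]⟩
      smul_mem' := by
        rintro c _ ⟨a, rfl⟩
        refine ⟨(C c : F[X]) • a, ?_⟩
        rw [hX]
        simp }
  let w : ι → V := fun i => ρ i (Submodule.Quotient.mk 1)
  have hρq : ∀ i (q : F[X]), ρ i (Submodule.Quotient.mk q) = (aeval x q) (w i) := by
    intro i q
    have : (Submodule.Quotient.mk q : N i) = q • (Submodule.Quotient.mk 1 : N i) := by
      rw [← Submodule.Quotient.mk_smul, smul_eq_mul, mul_one]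
    rw [this, hX]
  have hspan : ∀ i, Submodule.span F (Set.range fun k : ℕ => (x ^ k) (w i)) = U i := by
    intro i
    rw [← range_ev]
    ext v
    constructor
    · rintro ⟨q, rfl⟩
      exact ⟨Submodule.Quotient.mk q, hρq i q⟩
    · rintro ⟨n, rfl⟩
      obtain ⟨q, rfl⟩ := Submodule.Quotient.mk_surjective _ n
      exact ⟨q, (hρq i q).symm⟩
  refine ⟨ι, hι, inferInstance, U, w, ?_, ?_, hspan⟩
  · apply DirectSum.isInternal_submodule_of_iSupIndep_of_iSup_eq_top
    · rw [iSupIndep_iff_finsetSum_eq_zero_imp_eq_zero]
      intro s v hv h0 i hi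
      have hc : ∀ j, ∃ n : N j, v j = ρ j n ∨ j ∉ s := by
        intro j
        by_cases hj : j ∈ s
        · obtain ⟨n, hn⟩ := hv j hj
          exact ⟨n, Or.inl hn.symm⟩
        · exact ⟨0, Or.inr hj⟩
      choose n hn using hc
      have hn' : ∀ j ∈ s, v j = ρ j (n j) := by
        intro j hj
        rcases hn j with h | h
        · exact h
        · exact absurd hj h
      have h1 : ∑ j ∈ s, ρ j (n j) = 0 := by
        rw [← h0]
        exact Finset.sum_congr rfl fun j hj => (hn' j hj).symm
      have h2 : ∑ j ∈ s, DirectSum.lof F[X] ι N j (n j) = 0 := by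
        apply E.symm.injective
        apply (Module.AEval'.of x).symm.injective
        rw [map_sum, map_sum, map_zero, map_zero]
        exact h1
      have h3 : n i = 0 := by
        have h4 := congrArg (fun f => f i) h2
        simp only [DirectSum.zero_apply] at h4
        rw [DFinsupp.finsetSum_apply] at h4
        rw [Finset.sum_eq_single i] at h4
        · rw [DirectSum.lof_eq_of, DirectSum.of_eq_same] at h4
          exact h4
        · intro j _ hj
          rw [DirectSum.lof_eq_of, DirectSum.of_eq_of_ne _ _ _ (Ne.symm hj)]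
        · intro h; exact absurd hi h
      rw [hn' i hi, h3]
      simp only [ρ, map_zero]
    · rw [eq_top_iff]
      intro v _
      have h1 : v = ∑ i, ρ i (E (Module.AEval'.of x v) i) := by
        apply (Module.AEval'.of x).injective
        apply E.injective
        rw [map_sum, map_sum]
        simp only [ρ, LinearEquiv.apply_symm_apply]
        ext i
        rw [DFinsupp.finsetSum_apply]
        rw [Finset.sum_eq_single i]
        · rw [DirectSum.lof_eq_of, DirectSum.of_eq_same]
        · intro j _ hj
          rw [DirectSum.lof_eq_of, DirectSum.of_eq_of_ne _ _ _ (Ne.symm hj)]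
        · intro h; exact absurd (Finset.mem_univ i) h
      rw [h1]
      exact Submodule.sum_mem _ fun i _ => Submodule.mem_iSup_of_mem i ⟨_, rfl⟩
  · intro i u hu
    obtain ⟨a, rfl⟩ := hu
    refine ⟨(X : F[X]) • a, ?_⟩
    rw [hX, aeval_X]

end

end ParkerGL
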