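import Pool.Agent.ParkerGL.A01
import Pool.Agent.ParkerGL.A10

/-!
# MP_6c3636_al, GL_n(q), module A03: the coproduct is cocommutative and coassociative (helper7)

`cop_comm`: by `exists_dual` and `CF.iso`, `f (A × C, ext y z h) = f (Dual (A × C), transpose)`, and with
`Dual (A × C) ≃ Dual C × Dual A`, `λ ↦ (λ ∘ inr, λ ∘ inl)`, the transpose of `ext y z h` is `ext zᵗ yᵗ hᵗ`
(`λ ∘ ext y z h` restricted to `A` is `λ_A ∘ y`, restricted to `C` it is `λ_A ∘ h + λ_C ∘ z`). `h ↦ hᵗ` is a bijection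
`Hom(C, A) → Hom(Dual A, Dual C)`. So `f.cop A C y z = f.cop (Dual C) (Dual A) zᵗ yᵗ = f.cop C A z y` by `cop_iso`
with the isomorphisms of `exists_dual` for `z`, `y`.

`cop_assoc`: both sides are the average of `f` over the automorphisms
`(a, b, c) ↦ (y a + h b + k₁ c, z b + k₂ c, w c)` of `A × B × C`: on the left `Hom(C, A × B) = Hom(C, A) × Hom(C, B)`,
on the right `Hom(B × C, A) = Hom(B, A) × Hom(C, A)`; the isomorphism `(A × B) × C ≃ A × (B × C)` is
`LinearEquiv.prodAssoc`. The cardinalities: `|Hom(B,A)| |Hom(C,A×B)| = |Hom(C,B)| |Hom(B×C,A)|`.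
-/

namespace ParkerGL

noncomputable section

open Classical

variable {F : Type} [Field F] [Finite F] {Ω : Type} [Field Ω] [CharZero Ω]
  {A : Type} [AddCommGroup A] [Module F A] [Finite A]
  {B : Type} [AddCommGroup B] [Module F B] [Finite B]
  {C : Type} [AddCommGroup C] [Module F C] [Finite C]

namespace A03_aux

/-- the transpose is a bijection -/
theorem dualMap_bij : Function.Bijective (fun h : C →ₗ[F] A => h.dualMap) := by
  have : FiniteDimensional F A := Module.Finite.of_finite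
  have : FiniteDimensional F C := Module.Finite.of_finite
  constructor
  · intro h h' hh
    ext c
    rw [← sub_eq_zero, ← Module.forall_dual_apply_eq_zero_iff F]
    intro φ
    have h1 := congrArg (fun g => g φ c) hh
    change φ (h c) = φ (h' c) at h1
    rw [map_sub, h1, sub_self]
  · intro g
    refine ⟨(Module.evalEquiv F A).symm.toLinearMap ∘ₗ g.dualMap ∘ₗ (Module.evalEquiv F C).toLinearMap, ?_⟩
    ext φ c
    change φ ((Module.evalEquiv F A).symm (g.dualMap (Module.evalEquiv F C c))) = g φ c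
    have h1 : Module.evalEquiv F A ((Module.evalEquiv F A).symm (g.dualMap (Module.evalEquiv F C c))) φ = g φ c := by
      rw [LinearEquiv.apply_symm_apply]
      rfl
    exact h1

/-- the dual of a product -/
def dpe (F A C : Type) [Field F] [AddCommGroup A] [Module F A] [AddCommGroup C] [Module F C] :
    Module.Dual F (A × C) ≃ₗ[F] Module.Dual F C × Module.Dual F A where
  toFun φ := (φ ∘ₗ LinearMap.inr F A C, φ ∘ₗ LinearMap.inl F A C)
  map_add' φ ψ := by
    ext x
    · rfl
    · rfl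
  map_smul' t φ := by
    ext x
    · rfl
    · rfl
  invFun p := LinearMap.coprod p.2 p.1
  left_inv φ := by
    ext x
    · simp
    · simp
  right_inv p := by
    ext x
    · simp
    · simp

theorem val_dual (f : CF F Ω) (y : GV F A) (z : GV F C) (h : C →ₗ[F] A) :
    f.val (A × C) (ext y z h) =
      f.val (Module.Dual F C × Module.Dual F A) (ext z.dualMap y.dualMap h.dualMap) := by
  obtain ⟨e, he⟩ := exists_dual (F := F) (ext y z h)
  refine f.iso _ _ (e.trans (dpe F A C)) _ _ fun v => ?_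
  rw [LinearEquiv.trans_apply, LinearEquiv.trans_apply, he]
  refine Prod.ext ?_ ?_
  · ext c
    change (e v) (ext y z h (0, c)) = ((z.dualMap ((e v) ∘ₗ LinearMap.inr F A C)) + h.dualMap ((e v) ∘ₗ LinearMap.inl F A C)) c
    rw [ext_apply, map_zero, zero_add]
    change (e v) (h c, z c) = (e v) (0, z c) + (e v) (h c, 0)
    rw [← map_add, Prod.mk_add_mk, zero_add, add_zero]
  · ext a
    change (e v) (ext y z h (a, 0)) = (e v) (y a, 0)
    rw [ext_apply, map_zero, map_zero, add_zero]

/-- the reindexing of the two sums -/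
def eqv (F A B C : Type) [Field F] [AddCommGroup A] [Module F A] [AddCommGroup B] [Module F B] [AddCommGroup C]
    [Module F C] : (B →ₗ[F] A) × (C →ₗ[F] A × B) ≃ (C →ₗ[F] B) × (B × C →ₗ[F] A) where
  toFun p := (LinearMap.snd F A B ∘ₗ p.2, LinearMap.coprod p.1 (LinearMap.fst F A B ∘ₗ p.2))
  invFun q := (q.2 ∘ₗ LinearMap.inl F B C, LinearMap.prod (q.2 ∘ₗ LinearMap.inr F B C) q.1)
  left_inv p := by
    refine Prod.ext ?_ ?_
    · ext b
      simp
    · ext c
      · simp
      · simp
  right_inv q := by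
    refine Prod.ext ?_ ?_
    · ext c
      simp
    · ext x
      · simp
      · simp

end A03_aux

open A03_aux

theorem CF.cop_comm (f : CF F Ω) (y : GV F A) (z : GV F C) :
    f.cop A C y z = f.cop C A z y := by
  have h1 : f.cop A C y z = f.cop (Module.Dual F C) (Module.Dual F A) z.dualMap y.dualMap := by
    unfold CF.cop
    rw [Nat.card_congr (Equiv.ofBijective _ (dualMap_bij (F := F) (A := A) (C := C)))]
    congr 1
    rw [← finsum_comp_equiv (Equiv.ofBijective _ (dualMap_bij (F := F) (A := A) (C := C)))]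
    exact finsum_congr fun h => val_dual f y z h
  rw [h1]
  obtain ⟨e, he⟩ := exists_dual (F := F) z
  obtain ⟨e', he'⟩ := exists_dual (F := F) y
  refine (f.cop_iso e e' (fun c => ?_) (fun a => ?_)).symm
  · exact he c
  · exact he' a

theorem CF.cop_assoc (f : CF F Ω) (y : GV F A) (z : GV F B) (w : GV F C) :
    (Nat.card (B →ₗ[F] A) : Ω)⁻¹ * ∑ᶠ h : B →ₗ[F] A, f.cop (A × B) C (ext y z h) w =
      (Nat.card (C →ₗ[F] B) : Ω)⁻¹ * ∑ᶠ k : C →ₗ[F] B, f.cop A (B × C) y (ext z w k) := by
  have : Fintype (B →ₗ[F] A) := Fintype.ofFinite _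
  have : Fintype (C →ₗ[F] A × B) := Fintype.ofFinite _
  have : Fintype (C →ₗ[F] B) := Fintype.ofFinite _
  have : Fintype (B × C →ₗ[F] A) := Fintype.ofFinite _
  unfold CF.cop
  simp only [finsum_eq_sum_of_fintype]
  rw [← Finset.mul_sum, ← Finset.mul_sum, ← mul_assoc, ← mul_assoc, ← mul_inv, ← mul_inv]
  have hc : (Nat.card (B →ₗ[F] A) : Ω) * (Nat.card (C →ₗ[F] A × B) : Ω) =
      (Nat.card (C →ₗ[F] B) : Ω) * (Nat.card (B × C →ₗ[F] A) : Ω) := by
    rw [← Nat.cast_mul, ← Nat.cast_mul, ← Nat.card_prod, ← Nat.card_prod, Nat.card_congr (eqv F A B C)]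
  rw [hc]
  congr 1
  rw [← Fintype.sum_prod_type' (f := fun (h : B →ₗ[F] A) (g : C →ₗ[F] A × B) =>
      f.val ((A × B) × C) (ext (ext y z h) w g)),
    ← Fintype.sum_prod_type' (f := fun (k : C →ₗ[F] B) (m : B × C →ₗ[F] A) =>
      f.val (A × B × C) (ext y (ext z w k) m))]
  refine Fintype.sum_equiv (eqv F A B C) _ _ fun p => ?_
  refine f.iso _ _ (LinearEquiv.prodAssoc F A B C) _ _ fun v => ?_
  obtain ⟨⟨a, b⟩, c⟩ := v
  obtain ⟨h, g⟩ := p
  change (y a + h b + (g c).1, (z b + (g c).2, w c)) = (y a + LinearMap.coprod h (LinearMap.fst F A B ∘ₗ g) (b, c), (z b + (g c).2, w c))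
  rw [LinearMap.coprod_apply, add_assoc]
  rfl

end

end ParkerGL
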