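import Pool.Agent.ParkerGL.A01

/-!
# MP_6c3636_al, GL_n(q), module A04: adjointness (Frobenius reciprocity) (helper7)

`V = F^(a+b)`, `G = GL(V)`. The left side is `|G|⁻¹ ∑_x ∑_W f(x|W) g(x|V/W) h(x⁻¹)`, the sum over the
`x`-invariant `W` of dimension `a` (the others contribute `0`, `IsDeg`). Exchange the sums: for each `W` of
dimension `a` the sum over the stabilizer of `W` is the same (an automorphism moving `W` to `W'`
conjugates the stabilizers, the summand is invariant by `CF.iso`); the number of these `W` is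
`|G| / |P|` (orbit-stabilizer, `G` is transitive on the subspaces of dimension `a`). So the left side is
`|P|⁻¹ ∑_{x ∈ P} f(x|W₀) g(x|V/W₀) h(x⁻¹)`. Identify `V` with `A × C`, `A = F^a`, `C = F^b`, `W₀ = A × 0`,
`P = {ext y z k}` (`exists_ext`, `ext_inj`), `ext y z k | W₀ ≃ y`, `V / W₀ ≃ C` with `z`,
`(ext y z k)⁻¹ = ext y⁻¹ z⁻¹ (-y⁻¹ k z⁻¹)` and `k ↦ -y⁻¹ k z⁻¹` is a bijection of `Hom(C, A)`.
`|P| = |GL(A)| |GL(C)| |Hom(C, A)|`.
An alternative which avoids orbit counting: sum over all `x ∈ G` and all isomorphisms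
`e : A × C ≃ V` of the summand for `W = e (A × 0)`; each pair `(x, W)` is counted `|P|` times.
-/

namespace ParkerGL

noncomputable section

open Classical

namespace A04_aux

section

variable {F : Type} [Field F] {Ω : Type} [Field Ω]

/-- the summand of the product -/
def D {V : Type} [AddCommGroup V] [Module F V] [Finite V] (f g : CF F Ω) (x : GV F V)
    (W : Submodule F V) : Ω :=
  if h : Inv x W then f.val W (rst x W h) * g.val (V ⧸ W) (quo x W h) else 0

theorem D_iso (f g : CF F Ω) {V V' : Type} [AddCommGroup V] [Module F V] [Finite V]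
    [AddCommGroup V'] [Module F V'] [Finite V'] (e : V ≃ₗ[F] V') (x : GV F V) (y : GV F V')
    (hxy : ∀ v, e (x v) = y (e v)) (U : Submodule F V) :
    D f g y (U.map (e : V →ₗ[F] V')) = D f g x U := by
  unfold D
  by_cases h : Inv x U
  · have h' : Inv y (U.map (e : V →ₗ[F] V')) := (inv_map e x y hxy U).2 h
    rw [dif_pos h, dif_pos h']
    symm
    congr 1
    · refine f.iso _ _ (e.submoduleMap U) _ _ ?_
      intro v
      apply Subtype.ext
      exact hxy v
    · refine g.iso _ _ (Submodule.Quotient.equiv U (U.map (e : V →ₗ[F] V')) e rfl) _ _ ?_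
      intro v
      obtain ⟨v, rfl⟩ := Submodule.mkQ_surjective U v
      show (Submodule.Quotient.mk (e (x v)) : V' ⧸ U.map (e : V →ₗ[F] V')) =
        Submodule.Quotient.mk (y (e v))
      rw [hxy]
  · have h' : ¬ Inv y (U.map (e : V →ₗ[F] V')) := fun h1 => h ((inv_map e x y hxy U).1 h1)
    rw [dif_neg h, dif_neg h']

theorem mul_val (f g : CF F Ω) {V : Type} [AddCommGroup V] [Module F V] [Finite V]
    (x : GV F V) : (f.mul g).val V x = ∑ᶠ W : Submodule F V, D f g x W := rfl

variable {A : Type} [AddCommGroup A] [Module F A] {C : Type} [AddCommGroup C] [Module F C]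

variable (F A C) in
/-- the subspace `A × 0` -/
def A0 : Submodule F (A × C) := LinearMap.ker (LinearMap.snd F A C)

theorem mem_A0 {p : A × C} : p ∈ A0 F A C ↔ p.2 = 0 := by
  rw [A0, LinearMap.mem_ker, LinearMap.snd_apply]

theorem inv_ext [Finite A] [Finite C] (y : GV F A) (z : GV F C) (k : C →ₗ[F] A) :
    Inv (ext y z k) (A0 F A C) := by
  rw [inv_iff]
  intro u hu
  rw [mem_A0] at hu ⊢
  rw [ext_apply, hu]
  exact map_zero z

theorem exists_of_inv [Finite A] [Finite C] {x : GV F (A × C)} (h : Inv x (A0 F A C)) :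
    ∃ y z k, x = ext y z k := by
  rw [inv_iff] at h
  refine exists_ext x (fun a => ?_)
  exact mem_A0.1 (h (a, 0) (mem_A0.2 rfl))

/-- `A × 0 ≃ A` -/
def eA (F A C : Type) [Field F] [AddCommGroup A] [Module F A] [AddCommGroup C] [Module F C] :
    A0 F A C ≃ₗ[F] A :=
  LinearEquiv.ofBijective ((LinearMap.fst F A C).comp (A0 F A C).subtype) (by
    constructor
    · intro p q h
      apply Subtype.ext
      apply Prod.ext
      · exact h
      · rw [mem_A0.1 p.2, mem_A0.1 q.2]
    · intro a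
      exact ⟨⟨(a, 0), mem_A0.2 rfl⟩, rfl⟩)

theorem eA_apply (p : A0 F A C) : eA F A C p = (p : A × C).1 := rfl

theorem D_ext [Finite A] [Finite C] (f g : CF F Ω) (y : GV F A) (z : GV F C) (k : C →ₗ[F] A) :
    D f g (ext y z k) (A0 F A C) = f.val A y * g.val C z := by
  unfold D
  rw [dif_pos (inv_ext y z k)]
  congr 1
  · refine f.iso _ _ (eA F A C) _ _ ?_
    intro v
    rw [eA_apply, eA_apply, rst_apply, ext_apply, mem_A0.1 v.2, map_zero]
    show y (v : A × C).1 + 0 = _
    rw [add_zero]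
  · refine g.iso _ _ ((LinearMap.snd F A C).quotKerEquivOfSurjective
      (LinearMap.snd_surjective)) _ _ ?_
    intro v
    obtain ⟨v, rfl⟩ := Submodule.mkQ_surjective _ v
    rfl

theorem D_deg [Finite F] {a : ℕ} {f g : CF F Ω} (hf : f.IsDeg a) {V : Type} [AddCommGroup V]
    [Module F V] [Finite V] (x : GV F V) (W : Submodule F V) (hW : Module.finrank F W ≠ a) :
    D f g x W = 0 := by
  unfold D
  by_cases h : Inv x W
  · rw [dif_pos h, hf W _ hW, zero_mul]
  · rw [dif_neg h]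

/-- the isomorphisms which map `A × 0` to `W` -/
theorem card_iso [Finite A] [Finite C] {V : Type} [AddCommGroup V] [Module F V] [Finite V]
    (hV : Module.finrank F V = Module.finrank F A + Module.finrank F C)
    (W : Submodule F V) (hW : Module.finrank F W = Module.finrank F A) :
    Nat.card {e : (A × C) ≃ₗ[F] V // (A0 F A C).map (e : A × C →ₗ[F] V) = W} =
      Nat.card (GV F A × GV F C × (C →ₗ[F] A)) := by
  obtain ⟨W', hW'⟩ := Submodule.exists_isCompl W
  have hf := Submodule.finrank_add_eq_of_isCompl hW'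
  have h1 : Module.finrank F W' = Module.finrank F C := by omega
  let e1 : A ≃ₗ[F] W := LinearEquiv.ofFinrankEq _ _ hW.symm
  let e2 : C ≃ₗ[F] W' := LinearEquiv.ofFinrankEq _ _ h1.symm
  let e0 : (A × C) ≃ₗ[F] V := (e1.prodCongr e2).trans (Submodule.prodEquivOfIsCompl W W' hW')
  have he0 : ∀ p : A × C, e0 p = (e1 p.1 : V) + (e2 p.2 : V) := fun p => rfl
  have h0 : (A0 F A C).map (e0 : A × C →ₗ[F] V) = W := by
    ext v
    constructor
    · rintro ⟨p, hp, rfl⟩
      have hp2 : p.2 = 0 := mem_A0.1 hp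
      show e0 p ∈ W
      rw [he0, hp2, map_zero]
      simp
    · intro hv
      refine ⟨(e1.symm ⟨v, hv⟩, 0), mem_A0.2 rfl, ?_⟩
      show e0 _ = v
      rw [he0]
      simp
  symm
  refine Nat.card_congr (Equiv.ofBijective
    (fun t => ⟨(ext t.1 t.2.1 t.2.2).trans e0, ?_⟩) ⟨?_, ?_⟩)
  · have h2 : (((ext t.1 t.2.1 t.2.2).trans e0 : (A × C) ≃ₗ[F] V) : A × C →ₗ[F] V) =
        (e0 : A × C →ₗ[F] V) ∘ₗ ((ext t.1 t.2.1 t.2.2 : GV F (A × C)) : A × C →ₗ[F] A × C) := rfl
    rw [h2, Submodule.map_comp]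
    have h3 := inv_ext t.1 t.2.1 t.2.2
    unfold Inv at h3
    rw [h3, h0]
  · rintro ⟨y, z, k⟩ ⟨y', z', k'⟩ h
    have h2 := congrArg Subtype.val h
    have h3 : ext y z k = ext y' z' k' := by
      ext1 p
      have h4 := LinearEquiv.congr_fun h2 p
      exact e0.injective h4
    obtain ⟨r1, r2, r3⟩ := ext_inj h3
    rw [r1, r2, r3]
  · rintro ⟨e, he⟩
    have h2 : Inv (e.trans e0.symm : GV F (A × C)) (A0 F A C) := by
      unfold Inv
      have h3 : ((e.trans e0.symm : GV F (A × C)) : A × C →ₗ[F] A × C) =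
        (e0.symm : V →ₗ[F] A × C) ∘ₗ (e : A × C →ₗ[F] V) := rfl
      rw [h3, Submodule.map_comp, he, ← h0, ← Submodule.map_comp]
      have h4 : (e0.symm : V →ₗ[F] A × C) ∘ₗ (e0 : A × C →ₗ[F] V) = LinearMap.id := by
        ext p <;> simp
      rw [h4, Submodule.map_id]
    obtain ⟨y, z, k, hx⟩ := exists_of_inv h2
    refine ⟨(y, z, k), Subtype.ext ?_⟩
    show (ext y z k).trans e0 = e
    rw [← hx]
    ext1 p
    exact e0.apply_symm_apply (e p)

theorem ip_fs [CharZero Ω] {G : Type} [Group G] [Finite G] (φ ψ : G → Ω) :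
    Parker.ip φ ψ = (Nat.card G : Ω)⁻¹ * ∑ᶠ g, φ g * ψ g⁻¹ := by
  let _ := Fintype.ofFinite G
  unfold Parker.ip
  rw [finsum_eq_sum_of_fintype]

end

end A04_aux

open A04_aux

variable {F : Type} [Field F] [Finite F] {Ω : Type} [Field Ω] [CharZero Ω]

theorem CF.adj {a b : ℕ} {f g : CF F Ω} (hf : f.IsDeg a) (hg : g.IsDeg b) (h : CF F Ω) :
    Parker.ip ((f.mul g).at (a + b)) (h.at (a + b)) =
      Parker.ip (fun p : Gn F a × Gn F b => f.at a p.1 * g.at b p.2)
        (fun p => h.cop (Fin a → F) (Fin b → F) p.1 p.2) := by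
  have finI : Finite (((Fin a → F) × (Fin b → F)) ≃ₗ[F] (Fin (a + b) → F)) := DFunLike.finite _
  let _ : Fintype (((Fin a → F) × (Fin b → F)) ≃ₗ[F] (Fin (a + b) → F)) := Fintype.ofFinite _
  let _ : Fintype (Gn F (a + b)) := Fintype.ofFinite _
  let _ : Fintype (Gn F a) := Fintype.ofFinite _
  let _ : Fintype (Gn F b) := Fintype.ofFinite _
  let _ : Fintype (GV F ((Fin a → F) × (Fin b → F))) := Fintype.ofFinite _
  let _ : Fintype (Submodule F (Fin (a + b) → F)) := Fintype.ofFinite _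
  let _ : Fintype ((Fin b → F) →ₗ[F] (Fin a → F)) := Fintype.ofFinite _
  -- the sum over the stabilizer
  obtain ⟨S, hSdef⟩ : ∃ S : Ω, S = ∑ t : Gn F a × Gn F b × ((Fin b → F) →ₗ[F] (Fin a → F)),
    f.at a t.1 * g.at b t.2.1 *
      h.val ((Fin a → F) × (Fin b → F)) (ext t.1 t.2.1 t.2.2)⁻¹ := ⟨_, rfl⟩
  have hS : ∑ x : GV F ((Fin a → F) × (Fin b → F)), D f g x (A0 F (Fin a → F) (Fin b → F)) *
      h.val ((Fin a → F) × (Fin b → F)) x⁻¹ = S := by
    rw [hSdef]
    symm
    refine Finset.sum_of_injOn (fun t => ext t.1 t.2.1 t.2.2) ?_ ?_ ?_ ?_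
    · rintro ⟨y, z, k⟩ _ ⟨y', z', k'⟩ _ he
      obtain ⟨r1, r2, r3⟩ := ext_inj he
      exact Prod.ext r1 (Prod.ext r2 r3)
    · intro _ _
      exact Finset.mem_coe.2 (Finset.mem_univ _)
    · intro x _ hx
      have : ¬ Inv x (A0 F (Fin a → F) (Fin b → F)) := by
        intro hi
        obtain ⟨y, z, k, hk⟩ := exists_of_inv hi
        exact hx ⟨(y, z, k), Finset.mem_coe.2 (Finset.mem_univ _), hk.symm⟩
      unfold D
      rw [dif_neg this, zero_mul]
    · intro t _
      show _ = D f g (ext t.1 t.2.1 t.2.2) _ * _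
      rw [D_ext]
      rfl
  -- the left side
  have hL : (Nat.card (Gn F a × Gn F b × ((Fin b → F) →ₗ[F] (Fin a → F))) : Ω) *
      ∑ x : Gn F (a + b), (f.mul g).at (a + b) x * h.at (a + b) x⁻¹ =
      (Nat.card (Gn F (a + b)) : Ω) * S := by
    have h1 : ∀ x : Gn F (a + b), (Nat.card (Gn F a × Gn F b × ((Fin b → F) →ₗ[F] (Fin a → F))) : Ω) *
        ((f.mul g).at (a + b) x * h.at (a + b) x⁻¹) =
        ∑ e : ((Fin a → F) × (Fin b → F)) ≃ₗ[F] (Fin (a + b) → F),
          D f g x ((A0 F (Fin a → F) (Fin b → F)).map (e : _ →ₗ[F] (Fin (a + b) → F))) *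
            h.at (a + b) x⁻¹ := by
      intro x
      rw [← Finset.sum_mul, ← mul_assoc]
      congr 1
      have h2 : (f.mul g).at (a + b) x = ∑ W : Submodule F (Fin (a + b) → F), D f g x W := by
        show (f.mul g).val _ x = _
        rw [mul_val, finsum_eq_sum_of_fintype]
      rw [h2, Finset.mul_sum]
      have h3 : ∀ W : Submodule F (Fin (a + b) → F),
          (Nat.card (Gn F a × Gn F b × ((Fin b → F) →ₗ[F] (Fin a → F))) : Ω) * D f g x W =
          ∑ e : {e : ((Fin a → F) × (Fin b → F)) ≃ₗ[F] (Fin (a + b) → F) //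
            (A0 F (Fin a → F) (Fin b → F)).map (e : _ →ₗ[F] (Fin (a + b) → F)) = W},
            D f g x ((A0 F (Fin a → F) (Fin b → F)).map
              ((e : ((Fin a → F) × (Fin b → F)) ≃ₗ[F] (Fin (a + b) → F)) :
                _ →ₗ[F] (Fin (a + b) → F))) := by
        intro W
        by_cases hW : Module.finrank F W = a
        · have h4 := card_iso (F := F) (A := Fin a → F) (C := Fin b → F)
            (V := Fin (a + b) → F) (by simp) W (by rw [hW]; simp)
          rw [← h4]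
          have h5 : ∀ e : {e : ((Fin a → F) × (Fin b → F)) ≃ₗ[F] (Fin (a + b) → F) //
            (A0 F (Fin a → F) (Fin b → F)).map (e : _ →ₗ[F] (Fin (a + b) → F)) = W},
            D f g x ((A0 F (Fin a → F) (Fin b → F)).map
              ((e : ((Fin a → F) × (Fin b → F)) ≃ₗ[F] (Fin (a + b) → F)) :
                _ →ₗ[F] (Fin (a + b) → F))) = D f g x W := fun e => by rw [e.2]
          rw [Finset.sum_congr rfl (fun e _ => h5 e), Finset.sum_const, Finset.card_univ,
            nsmul_eq_mul, Nat.card_eq_fintype_card]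
        · rw [D_deg hf x W hW, mul_zero]
          symm
          refine Finset.sum_eq_zero (fun e _ => ?_)
          rw [e.2]
          exact D_deg hf x W hW
      rw [Finset.sum_congr rfl (fun W _ => h3 W)]
      exact Fintype.sum_fiberwise
        (fun e : ((Fin a → F) × (Fin b → F)) ≃ₗ[F] (Fin (a + b) → F) =>
          (A0 F (Fin a → F) (Fin b → F)).map (e : _ →ₗ[F] (Fin (a + b) → F)))
        (fun e => D f g x ((A0 F (Fin a → F) (Fin b → F)).map
          (e : _ →ₗ[F] (Fin (a + b) → F))))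
    rw [Finset.mul_sum, Finset.sum_congr rfl (fun x _ => h1 x), Finset.sum_comm]
    have h6 : ∀ e : ((Fin a → F) × (Fin b → F)) ≃ₗ[F] (Fin (a + b) → F),
        ∑ x : Gn F (a + b),
          D f g x ((A0 F (Fin a → F) (Fin b → F)).map (e : _ →ₗ[F] (Fin (a + b) → F))) *
            h.at (a + b) x⁻¹ = S := by
      intro e
      rw [← hS]
      symm
      refine Fintype.sum_equiv (trE e).toEquiv _ _ (fun x => ?_)
      show _ = D f g (trE e x) _ * h.at (a + b) (trE e x)⁻¹
      rw [D_iso f g e x (trE e x) (fun v => by rw [trE_apply, LinearEquiv.symm_apply_apply])]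
      congr 1
      rw [← map_inv]
      exact (CF.val_tr h e x⁻¹).symm
    rw [Finset.sum_congr rfl (fun e _ => h6 e), Finset.sum_const, Finset.card_univ, nsmul_eq_mul]
    congr 1
    rw [← Nat.card_eq_fintype_card]
    norm_cast
    exact Nat.card_congr
      { toFun := fun e => (pe F rfl).symm.trans e
        invFun := fun e => (pe F rfl).trans e
        left_inv := fun e => by ext1 p; simp
        right_inv := fun e => by ext1 p; simp }
  -- the right side
  have hR : (Nat.card ((Fin b → F) →ₗ[F] (Fin a → F)) : Ω) *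
      ∑ p : Gn F a × Gn F b, (f.at a p.1 * g.at b p.2) *
        h.cop (Fin a → F) (Fin b → F) p⁻¹.1 p⁻¹.2 = S := by
    have hHom : (Nat.card ((Fin b → F) →ₗ[F] (Fin a → F)) : Ω) ≠ 0 :=
      Nat.cast_ne_zero.2 Nat.card_pos.ne'
    have hS2 : S = ∑ p : Gn F a × Gn F b, ∑ k : (Fin b → F) →ₗ[F] (Fin a → F),
        f.at a p.1 * g.at b p.2 * h.val ((Fin a → F) × (Fin b → F)) (ext p.1 p.2 k)⁻¹ := by
      rw [hSdef, ← Fintype.sum_prod_type'
        (f := fun (p : Gn F a × Gn F b) (k : (Fin b → F) →ₗ[F] (Fin a → F)) =>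
          f.at a p.1 * g.at b p.2 * h.val ((Fin a → F) × (Fin b → F)) (ext p.1 p.2 k)⁻¹)]
      exact Fintype.sum_equiv (Equiv.prodAssoc _ _ _).symm _ _ (fun _ => rfl)
    rw [hS2, Finset.mul_sum]
    refine Finset.sum_congr rfl (fun p _ => ?_)
    obtain ⟨y, z⟩ := p
    rw [← Finset.mul_sum]
    show _ * ((f.at a y * g.at b z) * h.cop (Fin a → F) (Fin b → F) y⁻¹ z⁻¹) =
      f.at a y * g.at b z * ∑ k : (Fin b → F) →ₗ[F] (Fin a → F),
        h.val ((Fin a → F) × (Fin b → F)) (ext y z k)⁻¹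
    rw [CF.cop, finsum_eq_sum_of_fintype]
    have h8 : ∑ k : (Fin b → F) →ₗ[F] (Fin a → F),
        h.val ((Fin a → F) × (Fin b → F)) (ext y z k)⁻¹ =
        ∑ k : (Fin b → F) →ₗ[F] (Fin a → F),
        h.val ((Fin a → F) × (Fin b → F)) (ext y⁻¹ z⁻¹ k) := by
      refine Fintype.sum_equiv
        { toFun := fun k => -((y⁻¹ : Gn F a) : (Fin a → F) →ₗ[F] (Fin a → F)) ∘ₗ k ∘ₗ
            ((z⁻¹ : Gn F b) : (Fin b → F) →ₗ[F] (Fin b → F))
          invFun := fun k => -((y : Gn F a) : (Fin a → F) →ₗ[F] (Fin a → F)) ∘ₗ k ∘ₗ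
            ((z : Gn F b) : (Fin b → F) →ₗ[F] (Fin b → F))
          left_inv := ?_
          right_inv := ?_ } _ _ (fun k => ?_)
      · intro k
        apply LinearMap.ext
        intro v
        show -(y (-(y⁻¹ (k (z⁻¹ (z v)))))) = k v
        have r1 : z⁻¹ (z v) = v := z.symm_apply_apply v
        have r2 : ∀ w, y (y⁻¹ w) = w := fun w => y.apply_symm_apply w
        rw [r1, map_neg, neg_neg, r2]
      · intro k
        apply LinearMap.ext
        intro v
        show -(y⁻¹ (-(y (k (z (z⁻¹ v)))))) = k v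
        have r1 : z (z⁻¹ v) = v := z.apply_symm_apply v
        have r2 : ∀ w, y⁻¹ (y w) = w := fun w => y.symm_apply_apply w
        rw [r1, map_neg, neg_neg, r2]
      · rw [ext_inv]
        rfl
    rw [h8]
    field_simp
  -- conclusion
  rw [ip_fs, ip_fs, finsum_eq_sum_of_fintype, finsum_eq_sum_of_fintype]
  have hG : (Nat.card (Gn F (a + b)) : Ω) ≠ 0 := Nat.cast_ne_zero.2 Nat.card_pos.ne'
  have hHom : (Nat.card ((Fin b → F) →ₗ[F] (Fin a → F)) : Ω) ≠ 0 :=
    Nat.cast_ne_zero.2 Nat.card_pos.ne'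
  have hA : (Nat.card (Gn F a × Gn F b) : Ω) ≠ 0 := Nat.cast_ne_zero.2 Nat.card_pos.ne'
  have hP : (Nat.card (Gn F a × Gn F b × ((Fin b → F) →ₗ[F] (Fin a → F))) : Ω) =
      (Nat.card (Gn F a × Gn F b) : Ω) * Nat.card ((Fin b → F) →ₗ[F] (Fin a → F)) := by
    rw [← Nat.cast_mul, Nat.card_prod, Nat.card_prod, Nat.card_prod, mul_assoc]
  rw [hP] at hL
  rw [← hR] at hL
  have h9 : (Nat.card (Gn F a × Gn F b) : Ω) *
      ∑ x : Gn F (a + b), (f.mul g).at (a + b) x * h.at (a + b) x⁻¹ =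
      (Nat.card (Gn F (a + b)) : Ω) *
      ∑ p : Gn F a × Gn F b, (f.at a p.1 * g.at b p.2) *
        h.cop (Fin a → F) (Fin b → F) p⁻¹.1 p⁻¹.2 := by
    apply mul_left_cancel₀ hHom
    linear_combination hL
  rw [inv_mul_eq_div, inv_mul_eq_div, div_eq_div_iff hG hA]
  linear_combination h9

end

end ParkerGL
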