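import Pool.Agent.ParkerGL.A01

/-!
# MP_6c3636_al, GL_n(q), module A05: the Hopf formula for class functions (helper7)

The left side is the average over `h ∈ Hom(C, A)` of `∑_U f(x|U) g(x|V/U)`, `V = A × C`, `x = ext y z h`, `U` an
`x`-invariant subspace. For `U` let `W = U ∩ A` (`Submodule.comap (LinearMap.inl F A C) U`) and `W'` the
image of `U` in `C`. `W` is `y`-invariant, `W'` is `z`-invariant. For given `W`, `W'` these `U` correspond to the
`θ ∈ Hom(W', A/W)`: `U_θ = {(a, c) : c ∈ W', a + W = θ c}`. `U_θ` is invariant under `ext y z h` iff for all `c ∈ W'`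
`y θ(c) + h(c) = θ(z c)` in `A/W`. For given `θ` these `h` form a coset of the subgroup
`H₀ = {h : h(W') ⊆ W}` of `Hom(C, A)` (not empty: extend the required map `W' → A/W` to `C → A` using a complement
of `W'` and a linear section of `A → A/W`), `|Hom(C,A)| = |H₀| |Hom(W', A/W)|`.

Fix `θ`, a linear lift `s : W' → A` of `θ` (`s c + W = θ c`), and extend `s` to `S : C → A`. The automorphism
`σ = ext 1 1 S` of `V` maps `A × W'` onto itself, `W × W'` onto `U_θ`, and
`σ⁻¹ (ext y z h) σ = ext y z h₁` with `h₁ = h + y S - S z`; `ext y z h` preserves `U_θ` iff `ext y z h₁` preserves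
`W × W'` iff `h₁ (W') ⊆ W`. So by invariance (`CF.iso`) and the bijection `h ↦ h₁` one may assume `θ = 0`:
the contribution of each `θ` is `|Hom(C,A)|⁻¹ ∑_{h ∈ H₀} f(ext y z h | W × W') g(ext y z h | (A × C)/(W × W'))`. Now
`ext y z h | W × W' ≃ ext (y|W) (z|W') (h|W' → W)` and `(A × C)/(W × W') ≃ A/W × C/W'` with
`ext (y|A/W) (z|C/W') (h : C/W' → A/W)`, and `H₀ → Hom(W', W) × Hom(C/W', A/W)` is a surjective homomorphism of
groups, so all its fibres have the same number of elements. `|H₀| |Hom(W', A/W)| = |Hom(C, A)|`.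
-/

namespace ParkerGL

noncomputable section

open Classical

namespace A05_aux

variable {F : Type} [Field F] {Ω : Type} [Field Ω]

private theorem fin_sub {V : Type} [AddCommGroup V] [Module F V] [Finite V] :
    Finite (Submodule F V) :=
  Finite.of_injective (fun W : Submodule F V => (W : Set V)) SetLike.coe_injective

/-- the summand of the product -/
def T (f g : CF F Ω) {V : Type} [AddCommGroup V] [Module F V] [Finite V] (x : GV F V)
    (U : Submodule F V) : Ω :=
  if h : Inv x U then f.val U (rst x U h) * g.val (V ⧸ U) (quo x U h) else 0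

theorem T_map (f g : CF F Ω) {V V' : Type} [AddCommGroup V] [Module F V] [Finite V]
    [AddCommGroup V'] [Module F V'] [Finite V'] (e : V ≃ₗ[F] V') (x : GV F V) (y : GV F V')
    (hxy : ∀ v, e (x v) = y (e v)) (U : Submodule F V) :
    T f g y (U.map (e : V →ₗ[F] V')) = T f g x U := by
  unfold T
  by_cases h : Inv x U
  · have h' : Inv y (U.map (e : V →ₗ[F] V')) := (inv_map e x y hxy U).2 h
    rw [dif_pos h, dif_pos h']
    symm
    congr 1
    · refine f.iso _ _ (e.submoduleMap U) _ _ ?_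
      intro v
      apply Subtype.ext
      exact hxy v
    · refine g.iso _ _ (Submodule.Quotient.equiv U (U.map (e : V →ₗ[F] V')) e rfl) _ _ ?_
      intro v
      obtain ⟨v, rfl⟩ := Submodule.mkQ_surjective U v
      show (Submodule.Quotient.mk (e (x v)) : V' ⧸ U.map (e : V →ₗ[F] V')) =
        Submodule.Quotient.mk (y (e v))
      rw [hxy]
  · have h' : ¬ Inv y (U.map (e : V →ₗ[F] V')) := fun h1 => h ((inv_map e x y hxy U).1 h1)
    rw [dif_neg h, dif_neg h']

variable {A : Type} [AddCommGroup A] [Module F A]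
  {C : Type} [AddCommGroup C] [Module F C]

/-- the maps `h : C → A` with `h W' ⊆ W` -/
def HS (W : Submodule F A) (W' : Submodule F C) : Submodule F (C →ₗ[F] A) where
  carrier := {h | ∀ c ∈ W', h c ∈ W}
  add_mem' := by
    intro a b ha hb c hc
    exact W.add_mem (ha c hc) (hb c hc)
  zero_mem' := by
    intro c _
    exact W.zero_mem
  smul_mem' := by
    intro t a ha c hc
    exact W.smul_mem t (ha c hc)

theorem mem_HS {W : Submodule F A} {W' : Submodule F C} {h : C →ₗ[F] A} :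
    h ∈ HS W W' ↔ ∀ c ∈ W', h c ∈ W := Iff.rfl

/-- restriction and induced map -/
def pi (W : Submodule F A) (W' : Submodule F C) :
    HS W W' →+ (W' →ₗ[F] W) × ((C ⧸ W') →ₗ[F] (A ⧸ W)) where
  toFun h := (LinearMap.restrict h.1 h.2, W'.mapQ W h.1 (fun c hc => h.2 c hc))
  map_zero' := by
    refine Prod.ext ?_ ?_
    · ext v; rfl
    · refine Submodule.linearMap_qext _ ?_
      ext v; rfl
  map_add' a b := by
    refine Prod.ext ?_ ?_
    · ext v; rfl
    · refine Submodule.linearMap_qext _ ?_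
      ext v; rfl

theorem pi_surj (W : Submodule F A) (W' : Submodule F C) : Function.Surjective (pi W W') := by
  rintro ⟨k, l⟩
  obtain ⟨K, hK⟩ := LinearMap.exists_extend (p := W') (W.subtype ∘ₗ k)
  obtain ⟨K', hK'⟩ := LinearMap.exists_extend (p := W') k
  obtain ⟨s, hs⟩ := W.mkQ.exists_rightInverse_of_surjective (LinearMap.range_eq_top.2 W.mkQ_surjective)
  have hs' : ∀ v, W.mkQ (s v) = v := fun v => LinearMap.congr_fun hs v
  have hk' : ∀ v : W', K' v = k v := fun v => LinearMap.congr_fun hK' v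
  have h0 : ∀ c (hc : c ∈ W'), (W.subtype ∘ₗ K' + s ∘ₗ l ∘ₗ W'.mkQ) c = (k ⟨c, hc⟩ : A) := by
    intro c hc
    show (K' c : A) + s (l (W'.mkQ c)) = _
    have e1 : W'.mkQ c = 0 := by
      rw [Submodule.mkQ_apply]
      exact (Submodule.Quotient.mk_eq_zero W').2 hc
    rw [e1, map_zero, map_zero, add_zero]
    exact congrArg Subtype.val (hk' ⟨c, hc⟩)
  refine ⟨⟨W.subtype ∘ₗ K' + s ∘ₗ l ∘ₗ W'.mkQ, ?_⟩, ?_⟩
  · intro c hc
    rw [h0 c hc]
    exact (k ⟨c, hc⟩).2
  · refine Prod.ext ?_ ?_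
    · apply LinearMap.ext
      intro v
      apply Subtype.ext
      exact h0 v.1 v.2
    · refine Submodule.linearMap_qext _ ?_
      apply LinearMap.ext
      intro c
      show W.mkQ ((K' c : A) + s (l (W'.mkQ c))) = l (W'.mkQ c)
      rw [map_add, hs']
      have : W.mkQ (K' c : A) = 0 := by
        rw [Submodule.mkQ_apply]
        exact (Submodule.Quotient.mk_eq_zero W).2 (K' c).2
      rw [this, zero_add]

theorem sum_surj {G H : Type} [AddCommGroup G] [AddCommGroup H] [Fintype G] [Fintype H]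
    (p : G →+ H) (hp : Function.Surjective p) (φ : H → Ω) :
    (Fintype.card H : Ω) * ∑ x : G, φ (p x) = (Fintype.card G : Ω) * ∑ u : H, φ u := by
  have key : ∀ ψ : H → Ω, ∑ x : G, ψ (p x) =
      ((Finset.univ.filter fun x : G => p x = 0).card : Ω) * ∑ u : H, ψ u := by
    intro ψ
    rw [← Finset.sum_fiberwise Finset.univ (fun x : G => p x) (fun x => ψ (p x)), Finset.mul_sum]
    refine Finset.sum_congr rfl ?_
    intro u _
    have h1 : ∑ x ∈ Finset.univ.filter (fun x : G => p x = u), ψ (p x) =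
        ∑ x ∈ Finset.univ.filter (fun x : G => p x = u), ψ u := by
      refine Finset.sum_congr rfl ?_
      intro x hx
      rw [(Finset.mem_filter.1 hx).2]
    rw [h1, Finset.sum_const, nsmul_eq_mul]
    congr 2
    obtain ⟨x0, hx0⟩ := hp u
    refine Finset.card_bij (fun x _ => x - x0) ?_ ?_ ?_
    · intro x hx
      rw [Finset.mem_filter] at hx ⊢
      exact ⟨Finset.mem_univ _, by rw [map_sub, hx.2, hx0, sub_self]⟩
    · intro x _ x' _ h
      exact sub_left_injective h
    · intro x hx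
      rw [Finset.mem_filter] at hx
      refine ⟨x + x0, ?_, by simp⟩
      rw [Finset.mem_filter]
      exact ⟨Finset.mem_univ _, by rw [map_add, hx.2, hx0, zero_add]⟩
  have k1 := key (fun _ => 1)
  simp only [Finset.sum_const, Finset.card_univ, nsmul_eq_mul, mul_one] at k1
  rw [key φ, k1]
  ring

/-- the shear `(a, c) ↦ (a + S c, c)` -/
def sh (S : C →ₗ[F] A) : GV F (A × C) := ext (1 : GV F A) (1 : GV F C) S

theorem sh_apply (S : C →ₗ[F] A) (p : A × C) : sh S p = (p.1 + S p.2, p.2) := rfl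

theorem mem_sh (S : C →ₗ[F] A) (W : Submodule F A) (W' : Submodule F C) (p : A × C) :
    p ∈ (W.prod W').map (sh S : (A × C) →ₗ[F] (A × C)) ↔ p.1 - S p.2 ∈ W ∧ p.2 ∈ W' := by
  rw [Submodule.mem_map]
  constructor
  · rintro ⟨q, hq, rfl⟩
    have : ((sh S : (A × C) →ₗ[F] (A × C)) q) = (q.1 + S q.2, q.2) := rfl
    rw [this]
    rw [Submodule.mem_prod] at hq
    refine ⟨?_, hq.2⟩
    simpa using hq.1
  · rintro ⟨h1, h2⟩
    refine ⟨(p.1 - S p.2, p.2), Submodule.mem_prod.2 ⟨h1, h2⟩, ?_⟩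
    show (p.1 - S p.2 + S p.2, p.2) = p
    rw [sub_add_cancel]

/-- the intersection with `A` -/
def iW (U : Submodule F (A × C)) : Submodule F A := U.comap (LinearMap.inl F A C)

/-- the image in `C` -/
def iW' (U : Submodule F (A × C)) : Submodule F C := U.map (LinearMap.snd F A C)

theorem iW_sh (S : C →ₗ[F] A) (W : Submodule F A) (W' : Submodule F C) :
    iW ((W.prod W').map (sh S : (A × C) →ₗ[F] (A × C))) = W := by
  ext a
  unfold iW
  rw [Submodule.mem_comap, mem_sh]
  simp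

theorem iW'_sh (S : C →ₗ[F] A) (W : Submodule F A) (W' : Submodule F C) :
    iW' ((W.prod W').map (sh S : (A × C) →ₗ[F] (A × C))) = W' := by
  ext c
  unfold iW'
  rw [Submodule.mem_map]
  constructor
  · rintro ⟨p, hp, rfl⟩
    rw [mem_sh] at hp
    exact hp.2
  · intro hc
    refine ⟨(S c, c), ?_, rfl⟩
    rw [mem_sh]
    simp [hc]

theorem exists_S (U : Submodule F (A × C)) :
    ∃ S : C →ₗ[F] A, ((iW U).prod (iW' U)).map (sh S : (A × C) →ₗ[F] (A × C)) = U := by
  let q : U →ₗ[F] iW' U := LinearMap.restrict (LinearMap.snd F A C) (p := U) (q := iW' U)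
    (fun x hx => Submodule.mem_map_of_mem hx)
  have hq : Function.Surjective q := by
    rintro ⟨c, hc⟩
    obtain ⟨p, hp, rfl⟩ := Submodule.mem_map.1 hc
    exact ⟨⟨p, hp⟩, rfl⟩
  obtain ⟨t, ht⟩ := q.exists_rightInverse_of_surjective (LinearMap.range_eq_top.2 hq)
  obtain ⟨S, hS⟩ := LinearMap.exists_extend (p := iW' U) (LinearMap.fst F A C ∘ₗ U.subtype ∘ₗ t)
  have hS' : ∀ c (hc : c ∈ iW' U), (S c, c) ∈ U := by
    intro c hc
    have e1 : S c = ((t ⟨c, hc⟩ : U) : A × C).1 := LinearMap.congr_fun hS ⟨c, hc⟩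
    have e2 : ((t ⟨c, hc⟩ : U) : A × C).2 = c :=
      congrArg Subtype.val (LinearMap.congr_fun ht ⟨c, hc⟩)
    have e3 : (S c, c) = ((t ⟨c, hc⟩ : U) : A × C) := Prod.ext e1 e2.symm
    rw [e3]
    exact (t ⟨c, hc⟩).2
  refine ⟨S, ?_⟩
  ext p
  rw [mem_sh]
  constructor
  · rintro ⟨h1, h2⟩
    have h3 : (p.1 - S p.2, (0 : C)) ∈ U := h1
    have h4 := U.add_mem h3 (hS' p.2 h2)
    have h5 : (p.1 - S p.2, (0 : C)) + (S p.2, p.2) = p := by
      refine Prod.ext ?_ ?_
      · simp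
      · simp
    rwa [h5] at h4
  · intro hp
    have h2 : p.2 ∈ iW' U := Submodule.mem_map_of_mem (f := LinearMap.snd F A C) hp
    refine ⟨?_, h2⟩
    show (p.1 - S p.2, (0 : C)) ∈ U
    have h4 := U.sub_mem hp (hS' p.2 h2)
    have h5 : p - (S p.2, p.2) = (p.1 - S p.2, (0 : C)) := by
      refine Prod.ext ?_ ?_
      · simp
      · simp
    rwa [h5] at h4

theorem sh_eq_iff (S S' : C →ₗ[F] A) (W : Submodule F A) (W' : Submodule F C) :
    (W.prod W').map (sh S : (A × C) →ₗ[F] (A × C)) =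
      (W.prod W').map (sh S' : (A × C) →ₗ[F] (A × C)) ↔ S - S' ∈ HS W W' := by
  rw [mem_HS]
  constructor
  · intro h c hc
    have h1 : ((S c, c) : A × C) ∈ (W.prod W').map (sh S : (A × C) →ₗ[F] (A × C)) := by
      rw [mem_sh]; simp [hc]
    rw [h, mem_sh] at h1
    exact h1.1
  · intro h
    ext p
    rw [mem_sh, mem_sh]
    constructor
    · rintro ⟨h1, h2⟩
      refine ⟨?_, h2⟩
      have := W.add_mem h1 (h p.2 h2)
      have e : p.1 - S p.2 + (S - S') p.2 = p.1 - S' p.2 := by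
        rw [LinearMap.sub_apply]; abel
      rwa [e] at this
    · rintro ⟨h1, h2⟩
      refine ⟨?_, h2⟩
      have := W.sub_mem h1 (h p.2 h2)
      have e : p.1 - S' p.2 - (S - S') p.2 = p.1 - S p.2 := by
        rw [LinearMap.sub_apply]; abel
      rwa [e] at this

variable [Finite A] [Finite C]

theorem fiber_count [CharZero Ω] [Fintype (Submodule F A)] [Fintype (Submodule F C)]
    [Fintype (Submodule F (A × C))] [Fintype (C →ₗ[F] A)] (φ : Submodule F (A × C) → Ω) :
    ∑ U, φ U = ∑ W : Submodule F A, ∑ W' : Submodule F C, (Nat.card (HS W W') : Ω)⁻¹ *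
      ∑ S : C →ₗ[F] A, φ ((W.prod W').map (sh S : (A × C) →ₗ[F] (A × C))) := by
  have h1 : ∀ (W : Submodule F A) (W' : Submodule F C), (Nat.card (HS W W') : Ω)⁻¹ *
      ∑ S : C →ₗ[F] A, φ ((W.prod W').map (sh S : (A × C) →ₗ[F] (A × C))) =
      ∑ U, ∑ S : C →ₗ[F] A,
        if U = (W.prod W').map (sh S : (A × C) →ₗ[F] (A × C)) then
          (Nat.card (HS W W') : Ω)⁻¹ * φ U else 0 := by
    intro W W'
    rw [Finset.sum_comm, Finset.mul_sum]
    refine Finset.sum_congr rfl ?_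
    intro S _
    rw [Finset.sum_ite_eq' Finset.univ]
    simp
  simp only [h1]
  have h2 : ∀ W : Submodule F A, (∑ W' : Submodule F C, ∑ U, ∑ S : C →ₗ[F] A,
        if U = (W.prod W').map (sh S : (A × C) →ₗ[F] (A × C)) then
          (Nat.card (HS W W') : Ω)⁻¹ * φ U else 0) =
      ∑ U, ∑ W' : Submodule F C, ∑ S : C →ₗ[F] A,
        if U = (W.prod W').map (sh S : (A × C) →ₗ[F] (A × C)) then
          (Nat.card (HS W W') : Ω)⁻¹ * φ U else 0 := by
    intro W
    rw [Finset.sum_comm]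
  simp only [h2]
  rw [Finset.sum_comm]
  refine Finset.sum_congr rfl ?_
  intro U _
  rw [Finset.sum_eq_single (iW U), Finset.sum_eq_single (iW' U)]
  · obtain ⟨S0, hS0⟩ := exists_S U
    have h3 : ∀ S : C →ₗ[F] A, (U = ((iW U).prod (iW' U)).map (sh S : (A × C) →ₗ[F] (A × C))) ↔
        S - S0 ∈ HS (iW U) (iW' U) := by
      intro S
      rw [← sh_eq_iff, hS0]
      exact eq_comm
    simp only [h3]
    rw [← Finset.sum_filter, Finset.sum_const, nsmul_eq_mul, ← mul_assoc]
    have h4 : (Finset.univ.filter fun S : C →ₗ[F] A => S - S0 ∈ HS (iW U) (iW' U)).card =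
        Nat.card (HS (iW U) (iW' U)) := by
      rw [← Fintype.card_subtype, ← Nat.card_eq_fintype_card]
      refine Nat.card_congr ⟨fun S => ⟨S.1 - S0, S.2⟩, fun S => ⟨S.1 + S0, by simp⟩, ?_, ?_⟩
      · intro S; simp
      · intro S; simp
    rw [h4, mul_inv_cancel₀, one_mul]
    rw [Nat.cast_ne_zero]
    exact Nat.card_pos.ne'
  · intro W' _ hW'
    refine Finset.sum_eq_zero ?_
    intro S _
    rw [if_neg]
    intro h
    apply hW'
    rw [h, iW'_sh]
  · intro h
    exact absurd (Finset.mem_univ _) h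
  · intro W _ hW
    refine Finset.sum_eq_zero ?_
    intro W' _
    refine Finset.sum_eq_zero ?_
    intro S _
    rw [if_neg]
    intro h
    apply hW
    rw [h, iW_sh]
  · intro h
    exact absurd (Finset.mem_univ _) h

theorem sum_shift (f g : CF F Ω) [Fintype (C →ₗ[F] A)] (y : GV F A) (z : GV F C)
    (W : Submodule F A) (W' : Submodule F C) (S : C →ₗ[F] A) :
    ∑ h : C →ₗ[F] A, T f g (ext y z h) ((W.prod W').map (sh S : (A × C) →ₗ[F] (A × C))) =
      ∑ h : C →ₗ[F] A, T f g (ext y z h) (W.prod W') := by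
  rw [← Equiv.sum_comp (Equiv.addRight ((y : A →ₗ[F] A) ∘ₗ S - S ∘ₗ (z : C →ₗ[F] C)))
    (fun h : C →ₗ[F] A => T f g (ext y z h) (W.prod W'))]
  refine Finset.sum_congr rfl ?_
  intro h _
  refine T_map f g (sh S) _ _ ?_ _
  intro v
  rw [sh_apply, ext_apply, ext_apply, sh_apply]
  refine Prod.ext ?_ rfl
  show y v.1 + (h v.2 + (y (S v.2) - S (z v.2))) + S (z v.2) = y (v.1 + S v.2) + h v.2
  rw [map_add]
  abel

theorem inv_prod (y : GV F A) (z : GV F C) (h : C →ₗ[F] A) (W : Submodule F A)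
    (W' : Submodule F C) :
    Inv (ext y z h) (W.prod W') ↔ (Inv y W ∧ Inv z W') ∧ h ∈ HS W W' := by
  rw [inv_iff, inv_iff, inv_iff, mem_HS]
  constructor
  · intro H
    have h1 : ∀ u ∈ W, y u ∈ W := by
      intro u hu
      have := H (u, 0) (Submodule.mem_prod.2 ⟨hu, W'.zero_mem⟩)
      rw [ext_apply, Submodule.mem_prod] at this
      simpa using this.1
    have h2 : ∀ c ∈ W', h c ∈ W ∧ z c ∈ W' := by
      intro c hc
      have := H (0, c) (Submodule.mem_prod.2 ⟨W.zero_mem, hc⟩)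
      rw [ext_apply, Submodule.mem_prod] at this
      simpa using this
    exact ⟨⟨h1, fun c hc => (h2 c hc).2⟩, fun c hc => (h2 c hc).1⟩
  · rintro ⟨⟨h1, h2⟩, h3⟩ p hp
    rw [Submodule.mem_prod] at hp
    rw [ext_apply, Submodule.mem_prod]
    exact ⟨W.add_mem (h1 _ hp.1) (h3 _ hp.2), h2 _ hp.2⟩

/-- `W × W'` as a subspace and as a product -/
def eP (W : Submodule F A) (W' : Submodule F C) : (W.prod W') ≃ₗ[F] (W × W') where
  toFun p := (⟨p.1.1, p.2.1⟩, ⟨p.1.2, p.2.2⟩)
  map_add' _ _ := rfl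
  map_smul' _ _ := rfl
  invFun q := ⟨(q.1.1, q.2.1), ⟨q.1.2, q.2.2⟩⟩
  left_inv _ := rfl
  right_inv _ := rfl

/-- the map `A × C → A/W × C/W'` -/
def mq (W : Submodule F A) (W' : Submodule F C) : (A × C) →ₗ[F] ((A ⧸ W) × (C ⧸ W')) :=
  W.mkQ.prodMap W'.mkQ

theorem mq_ker (W : Submodule F A) (W' : Submodule F C) :
    LinearMap.ker (mq W W') = W.prod W' := by
  ext p
  rw [LinearMap.mem_ker, Submodule.mem_prod]
  show ((W.mkQ p.1, W'.mkQ p.2) : (A ⧸ W) × (C ⧸ W')) = 0 ↔ _
  rw [Prod.mk_eq_zero, Submodule.mkQ_apply, Submodule.mkQ_apply, Submodule.Quotient.mk_eq_zero,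
    Submodule.Quotient.mk_eq_zero]

theorem mq_surj (W : Submodule F A) (W' : Submodule F C) : Function.Surjective (mq W W') := by
  rintro ⟨a, c⟩
  obtain ⟨a, rfl⟩ := W.mkQ_surjective a
  obtain ⟨c, rfl⟩ := W'.mkQ_surjective c
  exact ⟨(a, c), rfl⟩

/-- the quotient of `A × C` by `W × W'` -/
def eQ (W : Submodule F A) (W' : Submodule F C) :
    ((A × C) ⧸ (W.prod W')) ≃ₗ[F] ((A ⧸ W) × (C ⧸ W')) :=
  (Submodule.quotEquivOfEq _ _ (mq_ker W W').symm).trans
    ((mq W W').quotKerEquivOfSurjective (mq_surj W W'))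

theorem eQ_mk (W : Submodule F A) (W' : Submodule F C) (p : A × C) :
    eQ W W' (Submodule.Quotient.mk p) =
      (Submodule.Quotient.mk p.1, Submodule.Quotient.mk p.2) := rfl

theorem T_prod (f g : CF F Ω) (y : GV F A) (z : GV F C) (W : Submodule F A)
    (W' : Submodule F C) (hy : Inv y W) (hz : Inv z W') (h : HS W W') :
    T f g (ext y z h.1) (W.prod W') =
      f.val (W × W') (ext (rst y W hy) (rst z W' hz) (pi W W' h).1) *
        g.val ((A ⧸ W) × (C ⧸ W')) (ext (quo y W hy) (quo z W' hz) (pi W W' h).2) := by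
  have hI : Inv (ext y z h.1) (W.prod W') := (inv_prod y z h.1 W W').2 ⟨⟨hy, hz⟩, h.2⟩
  unfold T
  rw [dif_pos hI]
  congr 1
  · refine f.iso _ _ (eP W W') _ _ ?_
    intro v
    rfl
  · refine g.iso _ _ (eQ W W') _ _ ?_
    intro v
    obtain ⟨v, rfl⟩ := Submodule.mkQ_surjective _ v
    rfl

end A05_aux

open A05_aux

variable {F : Type} [Field F] [Finite F] {Ω : Type} [Field Ω] [CharZero Ω]

theorem CF.hopf (f g : CF F Ω) {A C : Type} [AddCommGroup A] [Module F A] [Finite A]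
    [AddCommGroup C] [Module F C] [Finite C] (y : GV F A) (z : GV F C) :
    (f.mul g).cop A C y z =
      ∑ᶠ W : Submodule F A, ∑ᶠ W' : Submodule F C,
        if h : Inv y W ∧ Inv z W' then
          f.cop W W' (rst y W h.1) (rst z W' h.2) *
            g.cop (A ⧸ W) (C ⧸ W') (quo y W h.1) (quo z W' h.2) else 0 := by
  haveI : Finite (Submodule F A) := A05_aux.fin_sub
  haveI : Finite (Submodule F C) := A05_aux.fin_sub
  haveI : Finite (Submodule F (A × C)) := A05_aux.fin_sub
  letI : Fintype (Submodule F A) := Fintype.ofFinite _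
  letI : Fintype (Submodule F C) := Fintype.ofFinite _
  letI : Fintype (Submodule F (A × C)) := Fintype.ofFinite _
  letI : Fintype (C →ₗ[F] A) := Fintype.ofFinite _
  have hN : (Nat.card (C →ₗ[F] A) : Ω) ≠ 0 := Nat.cast_ne_zero.2 Nat.card_pos.ne'
  have s1 : (f.mul g).cop A C y z = (Nat.card (C →ₗ[F] A) : Ω)⁻¹ *
      ∑ h : C →ₗ[F] A, ∑ U : Submodule F (A × C), T f g (ext y z h) U := by
    unfold CF.cop
    rw [finsum_eq_sum_of_fintype]
    congr 1
    refine Finset.sum_congr rfl ?_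
    intro h _
    show (∑ᶠ U : Submodule F (A × C), T f g (ext y z h) U) = _
    rw [finsum_eq_sum_of_fintype]
  rw [s1, Finset.sum_comm, fiber_count, finsum_eq_sum_of_fintype, Finset.mul_sum]
  refine Finset.sum_congr rfl ?_
  intro W _
  rw [finsum_eq_sum_of_fintype, Finset.mul_sum]
  refine Finset.sum_congr rfl ?_
  intro W' _
  have s2 : ∀ S : C →ₗ[F] A, ∑ h : C →ₗ[F] A,
      T f g (ext y z h) ((W.prod W').map (sh S : (A × C) →ₗ[F] (A × C))) =
      ∑ h : C →ₗ[F] A, T f g (ext y z h) (W.prod W') := sum_shift f g y z W W'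
  simp only [s2]
  rw [Finset.sum_const, Finset.card_univ, nsmul_eq_mul, ← Nat.card_eq_fintype_card]
  by_cases hI : Inv y W ∧ Inv z W'
  · rw [dif_pos hI]
    letI : Fintype (HS W W') := Fintype.ofFinite _
    letI : Fintype (W' →ₗ[F] W) := Fintype.ofFinite _
    letI : Fintype ((C ⧸ W') →ₗ[F] (A ⧸ W)) := Fintype.ofFinite _
    have s3 : ∑ h : C →ₗ[F] A, T f g (ext y z h) (W.prod W') =
        ∑ h : HS W W', (fun p : (W' →ₗ[F] W) × ((C ⧸ W') →ₗ[F] (A ⧸ W)) =>
          f.val (W × W') (ext (rst y W hI.1) (rst z W' hI.2) p.1) *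
            g.val ((A ⧸ W) × (C ⧸ W')) (ext (quo y W hI.1) (quo z W' hI.2) p.2)) (pi W W' h) := by
      symm
      refine Fintype.sum_of_injective (fun h : HS W W' => (h : C →ₗ[F] A)) Subtype.val_injective
        _ _ ?_ ?_
      · intro h hh
        unfold T
        rw [dif_neg]
        intro h'
        apply hh
        exact ⟨⟨h, ((inv_prod y z h W W').1 h').2⟩, rfl⟩
      · intro h
        exact (T_prod f g y z W W' hI.1 hI.2 h).symm
    have s4 := sum_surj (pi W W') (pi_surj W W')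
      (fun p : (W' →ₗ[F] W) × ((C ⧸ W') →ₗ[F] (A ⧸ W)) =>
          f.val (W × W') (ext (rst y W hI.1) (rst z W' hI.2) p.1) *
            g.val ((A ⧸ W) × (C ⧸ W')) (ext (quo y W hI.1) (quo z W' hI.2) p.2))
    rw [← s3] at s4
    have s5 : ∑ p : (W' →ₗ[F] W) × ((C ⧸ W') →ₗ[F] (A ⧸ W)),
          f.val (W × W') (ext (rst y W hI.1) (rst z W' hI.2) p.1) *
            g.val ((A ⧸ W) × (C ⧸ W')) (ext (quo y W hI.1) (quo z W' hI.2) p.2) =
        (∑ k : W' →ₗ[F] W, f.val (W × W') (ext (rst y W hI.1) (rst z W' hI.2) k)) *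
          ∑ l : (C ⧸ W') →ₗ[F] (A ⧸ W),
            g.val ((A ⧸ W) × (C ⧸ W')) (ext (quo y W hI.1) (quo z W' hI.2) l) := by
      rw [Fintype.sum_prod_type, Finset.sum_mul_sum]
    rw [s5] at s4
    have c1 : (Nat.card (W' →ₗ[F] W) : Ω) ≠ 0 := Nat.cast_ne_zero.2 Nat.card_pos.ne'
    have c2 : (Nat.card ((C ⧸ W') →ₗ[F] (A ⧸ W)) : Ω) ≠ 0 := Nat.cast_ne_zero.2 Nat.card_pos.ne'
    have c3 : (Nat.card (HS W W') : Ω) ≠ 0 := Nat.cast_ne_zero.2 Nat.card_pos.ne'
    rw [Fintype.card_prod, ← Nat.card_eq_fintype_card, ← Nat.card_eq_fintype_card,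
      ← Nat.card_eq_fintype_card, Nat.cast_mul] at s4
    unfold CF.cop
    rw [finsum_eq_sum_of_fintype, finsum_eq_sum_of_fintype]
    field_simp
    linear_combination s4
  · rw [dif_neg hI]
    have s3 : ∑ h : C →ₗ[F] A, T f g (ext y z h) (W.prod W') = 0 := by
      refine Finset.sum_eq_zero ?_
      intro h _
      unfold T
      rw [dif_neg]
      intro h'
      exact hI ((inv_prod y z h W W').1 h').1
    rw [s3]
    simp

end

end ParkerGL
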