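import Mathlib

/-!
# MP_6c3636_al, GL_n(q): the abstract structure of Zelevinsky (helper7)

`PSH I`: `I` is the (graded) set of irreducible characters of all groups `GL_n(F)`, `m v a b` is the
multiplicity of `v` in the product `a * b` (parabolic induction), which is the multiplicity of
`a ⊗ b` in the coproduct of `v`. `PSH.R` is the free abelian group on `I`.
-/

namespace ParkerGL

noncomputable section

open Classical

/-- the structure of the irreducible characters of the groups `GL_n(F)` -/
structure PSH (I : Type) where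
  /-- the degree -/
  deg : I → ℕ
  /-- the elements of degree `n` -/
  lv : ℕ → Finset I
  mem_lv : ∀ n v, v ∈ lv n ↔ deg v = n
  /-- the unit -/
  one : I
  deg_zero : ∀ v, deg v = 0 ↔ v = one
  /-- the multiplicities -/
  m : I → I → I → ℕ
  m_deg : ∀ v a b, m v a b ≠ 0 → deg v = deg a + deg b
  m_one : ∀ v a, m v one a = if v = a then 1 else 0
  m_comm : ∀ v a b, m v a b = m v b a
  m_assoc : ∀ v a b c, ∑ w ∈ lv (deg b + deg c), m v a w * m w b c =
    ∑ w ∈ lv (deg a + deg b), m v w c * m w a b
  hopf : ∀ f g a b,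
    ∑ v ∈ lv (deg f + deg g), m v f g * m v a b =
      ∑ p ∈ (Finset.range (deg f + deg g + 1)).biUnion lv,
      ∑ q ∈ (Finset.range (deg f + deg g + 1)).biUnion lv,
      ∑ r ∈ (Finset.range (deg f + deg g + 1)).biUnion lv,
      ∑ s ∈ (Finset.range (deg f + deg g + 1)).biUnion lv,
        m f p q * m g r s * m a p r * m b q s

variable {I : Type}

/-- the elements of degree at most `n` -/
def PSH.box (P : PSH I) (n : ℕ) : Finset I := (Finset.range (n + 1)).biUnion P.lv

/-- the free abelian group on `I`, as a ring -/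
def PSH.R (_ : PSH I) : Type := I →₀ ℤ

instance (P : PSH I) : AddCommGroup P.R := inferInstanceAs (AddCommGroup (I →₀ ℤ))

/-- the coefficient of `v` -/
def PSH.co (P : PSH I) (x : P.R) (v : I) : ℤ := (show I →₀ ℤ from x) v

/-- the basis elements -/
def PSH.el (P : PSH I) (v : I) : P.R := (Finsupp.single v 1 : I →₀ ℤ)

/-- the product -/
def PSH.mulR (P : PSH I) (x y : P.R) : P.R :=
  (show I →₀ ℤ from x).sum fun a c => (show I →₀ ℤ from y).sum fun b c' =>
    ∑ v ∈ P.lv (P.deg a + P.deg b), (Finsupp.single v (c * c' * (P.m v a b : ℤ)) : I →₀ ℤ)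

/-- the scalar product -/
def PSH.ip (P : PSH I) (x y : P.R) : ℤ :=
  (show I →₀ ℤ from x).sum fun v c => c * P.co y v

/-- `a.perp`, the adjoint of the multiplication by `a`: `perp a x = ∑_b (∑_v x_v m v a b) b` -/
def PSH.perp (P : PSH I) (a : I) : P.R →+ P.R where
  toFun x := (show I →₀ ℤ from x).sum fun v c =>
    ∑ b ∈ P.box (P.deg v), (Finsupp.single b (c * (P.m v a b : ℤ)) : I →₀ ℤ)
  map_zero' := Finsupp.sum_zero_index
  map_add' x y := by
    refine Finsupp.sum_add_index' ?_ ?_
    · intro v
      simp only [zero_mul, Finsupp.single_zero]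
      exact Finset.sum_const_zero
    · intro v c c'
      simp only [add_mul, Finsupp.single_add]
      exact Finset.sum_add_distrib

/-- all coefficients are nonnegative -/
def PSH.Pos (P : PSH I) (x : P.R) : Prop := ∀ v, 0 ≤ P.co x v

/-- all constituents have degree `n` -/
def PSH.Hom (P : PSH I) (n : ℕ) (x : P.R) : Prop := ∀ v, P.co x v ≠ 0 → P.deg v = n

/-- `v` is cuspidal -/
def PSH.Cusp (P : PSH I) (v : I) : Prop :=
  v ≠ P.one ∧ ∀ a b, P.m v a b ≠ 0 → a = P.one ∨ b = P.one

/-- the structure with the Whittaker functional `dl`, the duality `bar` and the parity `od` of the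
dimension -/
structure PSHX (I : Type) extends PSH I where
  /-- the dimension of the Whittaker space -/
  dl : I → ℕ
  dl_one : dl one = 1
  dl_mul : ∀ a b, dl a * dl b = ∑ v ∈ lv (deg a + deg b), m v a b * dl v
  dl_cusp : ∀ v, toPSH.Cusp v → dl v = 1
  /-- the dual -/
  bar : I → I
  bar_bar : ∀ v, bar (bar v) = v
  bar_deg : ∀ v, deg (bar v) = deg v
  bar_m : ∀ v a b, m (bar v) (bar a) (bar b) = m v a b
  bar_dl : ∀ v, dl (bar v) = dl v
  /-- the parity of the dimension -/
  od : I → ZMod 2
  od_one : od one = 1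
  od_mul : ∀ a b, od a * od b = ∑ v ∈ lv (deg a + deg b), (m v a b : ZMod 2) * od v
  od_der : ∀ v, v ≠ one → od v = ∑ a ∈ (Finset.range (deg v)).biUnion lv,
    ∑ b ∈ (Finset.range (deg v + 1)).biUnion lv, (m v a b * dl b : ℕ) * od a

end

end ParkerGL
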