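import Pool.Agent.ParkerGL.Defs
import Pool.Agent.ParkerGL.PDefs
import Pool.Agent.Parker.P09
import Pool.Agent.Parker.P15

/-!
# MP_6c3636_al, GL_n(q): the irreducible characters, the unitriangular groups (helper7)
-/

namespace ParkerGL

noncomputable section

open Classical

variable (F : Type) [Field F] [Finite F] (Ω : Type) [Field Ω] [IsAlgClosed Ω] [CharZero Ω]

/-- the irreducible characters of all groups `GL_n(F)` -/
structure Irr where
  /-- the degree -/
  n : ℕ
  /-- the character -/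
  φ : Gn F n → Ω
  mem : φ ∈ Parker.irr Ω (Gn F n)

variable {F Ω}

theorem Irr.cls (v : Irr F Ω) : IsCls v.φ := fun g x => Parker.P15_aux.irr_class v.mem g x

/-- the class function of `v` -/
def Irr.cf (v : Irr F Ω) : CF F Ω := CF.of v.φ v.cls

/-- the character as a function on `GL_n(F)` (zero if `n` is not the degree) -/
def Irr.at (v : Irr F Ω) (n : ℕ) : Gn F n → Ω := v.cf.at n

/-- the multiplicity of `a ⊗ b` in the coproduct of `v` -/
def mI (v a b : Irr F Ω) : ℕ :=
  Parker.mul (fun p : Gn F a.n × Gn F b.n => v.cf.cop (Fin a.n → F) (Fin b.n → F) p.1 p.2)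
    (fun p => a.φ p.1 * b.φ p.2)

/-- the irreducible characters of `GL_n(F)` -/
def lvI (F : Type) [Field F] [Finite F] (Ω : Type) [Field Ω] [IsAlgClosed Ω] [CharZero Ω]
    (n : ℕ) : Finset (Irr F Ω) :=
  (Parker.irr Ω (Gn F n)).attach.image fun φ => ⟨n, φ.1, φ.2⟩

/-- the dual -/
def Irr.bar (v : Irr F Ω) : Irr F Ω := ⟨v.n, Parker.du v.φ, Parker.du_mem_irr v.mem⟩

/-- the dimension -/
def Irr.dim (v : Irr F Ω) : ℕ := Parker.dg v.φ

variable (F) in
/-- the group of the unitriangular matrices: `u v - v ∈ F_m` for `v ∈ F_{m+1}`,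
`F_m = {v : v i = 0 for i ≥ m}` -/
def UG (k : ℕ) : Subgroup (Gn F k) where
  carrier := {u | ∀ (m : ℕ) (v : Fin k → F), (∀ i : Fin k, m < i → v i = 0) →
    ∀ i : Fin k, m ≤ i → u v i = v i}
  one_mem' := fun _ _ _ _ _ => rfl
  mul_mem' := by
    intro a b ha hb m v hv i hi
    show a (b v) i = v i
    rw [ha m (b v) (fun j hj => by rw [hb m v hv j hj.le, hv j hj]) i hi, hb m v hv i hi]
  inv_mem' := by
    intro a ha
    have hpow : ∀ n : ℕ, (a ^ n) ∈ {u : Gn F k | ∀ (m : ℕ) (v : Fin k → F),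
        (∀ i : Fin k, m < i → v i = 0) → ∀ i : Fin k, m ≤ i → u v i = v i} := by
      intro n
      induction n with
      | zero => intro _ _ _ _ _; rfl
      | succ n ih =>
        intro m v hv i hi
        rw [pow_succ]
        show (a ^ n) (a v) i = v i
        rw [ih m (a v) (fun j hj => by rw [ha m v hv j hj.le, hv j hj]) i hi, ha m v hv i hi]
    have h1 : a⁻¹ = a ^ (orderOf a - 1) := by
      have h2 : 0 < orderOf a := orderOf_pos a
      rw [eq_comm, ← mul_right_inj a, ← pow_succ', Nat.sub_add_cancel h2, pow_orderOf_eq_one,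
        mul_inv_cancel]
    rw [h1]
    exact hpow _

/-- the sum of the entries above the diagonal -/
def sd {k : ℕ} (u : Gn F k) : F :=
  ∑ i : Fin k, ∑ j : Fin k, if (i : ℕ) + 1 = j then u (Pi.single j 1) i else 0

/-- the Whittaker functional, `ψ` an additive character with values `1`, `-1` -/
def CF.dl (ψ : AddChar F ℤ) (k : ℕ) (f : CF F Ω) : Ω :=
  (Nat.card (UG F k) : Ω)⁻¹ * ∑ᶠ u : UG F k, ((ψ (sd (u : Gn F k)) : ℤ) : Ω) * f.at k u

/-- the dimension of the Whittaker space, as a natural number -/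
def Irr.dl (ψ : AddChar F ℤ) (v : Irr F Ω) : ℕ :=
  if h : ∃ k : ℕ, (k : Ω) = v.cf.dl ψ v.n then h.choose else 0

end

end ParkerGL
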