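import Pool.Agent.ParkerGL.A01
import Pool.Agent.ParkerGL.IDefs
import Pool.Agent.Parker.P32

/-!
# MP_6c3636_al, GL_n(q), module A07: the coproduct of a character is a character (helper7)

`ρ` a representation of `Gn F n`, `n = a + b`. Let `U = {blk h (ext 1 1 t)}`, a subgroup of `Gn F n`
(isomorphic to `Hom(F^b, F^a)`), `e = |U|⁻¹ ∑_{u ∈ U} ρ u` the projection onto the `U`-fixed vectors `W`. The elements
`blk h (ext y z 0)` normalize `U` (`ext y z 0 * ext 1 1 t = ext 1 1 (y t z⁻¹) * ext y z 0`), so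
`τ (y, z) = ρ (blk h (ext y z 0)) | W` is a representation of `Gn F a × Gn F b`, and its character is
`trace (ρ (blk h (ext y z 0)) * e) = |U|⁻¹ ∑_t χ (blk h (ext y z (y t)))`, which is the coproduct (reindex
`t ↦ y⁻¹ t`, `CF.val_blk`). Compare `Parker.exists_inv_rep`, `Parker.av_idem` in P32. `trace_restrict`-type lemma:
`LinearMap.trace` of `ρ g * e` where `range e = W` is stable: `LinearMap.trace_restrict_eq_of_forall_mem` or
`Parker.blk_char`-like arguments.
-/

namespace ParkerGL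

noncomputable section

open Classical

variable {F : Type} [Field F] [Finite F] {Ω : Type} [Field Ω] [IsAlgClosed Ω] [CharZero Ω]

namespace A07_aux

/-- the homomorphisms -/
abbrev HH (F : Type) [Field F] (a b : ℕ) : Type := (Fin b → F) →ₗ[F] (Fin a → F)

/-- the unipotent elements -/
def uu {n a b : ℕ} (h : a + b = n) (t : HH F a b) : Gn F n := blk F h (ext 1 1 t)

/-- the diagonal elements -/
def mm {n a b : ℕ} (h : a + b = n) (y : Gn F a) (z : Gn F b) : Gn F n := blk F h (ext y z 0)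

theorem uu_add {n a b : ℕ} (h : a + b = n) (s t : HH F a b) :
    uu h (s + t) = uu h s * uu h t := by
  unfold uu
  rw [← map_mul, ext_mul]
  congr 1
  have e1 : (((1 : GV F (Fin a → F)) : (Fin a → F) →ₗ[F] (Fin a → F)) ∘ₗ t +
      s ∘ₗ ((1 : GV F (Fin b → F)) : (Fin b → F) →ₗ[F] (Fin b → F))) = s + t := by
    apply LinearMap.ext
    intro x
    exact add_comm (t x) (s x)
  rw [e1, mul_one, mul_one]

theorem mm_mul {n a b : ℕ} (h : a + b = n) (y y' : Gn F a) (z z' : Gn F b) :
    mm h (y * y') (z * z') = mm h y z * mm h y' z' := by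
  unfold mm
  rw [← map_mul, ext_mul]
  congr 2
  apply LinearMap.ext
  intro x
  show (0 : Fin a → F) = y ((0 : Fin a → F)) + 0
  rw [map_zero, add_zero]

theorem mm_one {n a b : ℕ} (h : a + b = n) : mm h (1 : Gn F a) (1 : Gn F b) = 1 := by
  unfold mm
  rw [ext_one, map_one]

theorem mm_uu {n a b : ℕ} (h : a + b = n) (y : Gn F a) (z : Gn F b) (t : HH F a b) :
    mm h y z * uu h t =
      blk F h (ext y z ((y : (Fin a → F) →ₗ[F] (Fin a → F)) ∘ₗ t)) := by
  unfold mm uu
  rw [← map_mul, ext_mul, mul_one, mul_one]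
  congr 2
  apply LinearMap.ext
  intro x
  show y (t x) + (0 : Fin a → F) = y (t x)
  rw [add_zero]

theorem uu_mm {n a b : ℕ} (h : a + b = n) (y : Gn F a) (z : Gn F b) (t : HH F a b) :
    uu h t * mm h y z =
      mm h y z * uu h (((y⁻¹ : Gn F a) : (Fin a → F) →ₗ[F] (Fin a → F)) ∘ₗ t ∘ₗ
        ((z : Gn F b) : (Fin b → F) →ₗ[F] (Fin b → F))) := by
  rw [mm_uu]
  unfold mm uu
  rw [← map_mul, ext_mul, one_mul, one_mul]
  congr 2
  apply LinearMap.ext
  intro x
  show (0 : Fin a → F) + t (z x) = y ((y⁻¹ : Gn F a) (t (z x)))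
  have h1 : y ((y⁻¹ : Gn F a) (t (z x))) = t (z x) := y.apply_symm_apply _
  rw [h1, zero_add]

variable {X : Type} [AddCommGroup X] [Module Ω X]

/-- the fixed vectors -/
def WW {n a b : ℕ} (h : a + b = n) (ρ : Representation Ω (Gn F n) X) : Submodule Ω X where
  carrier := {x | ∀ t : HH F a b, ρ (uu h t) x = x}
  add_mem' := by
    intro x y hx hy t
    rw [map_add, hx t, hy t]
  zero_mem' := by
    intro t
    rw [map_zero]
  smul_mem' := by
    intro c x hx t
    rw [map_smul, hx t]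

theorem WW_stable {n a b : ℕ} (h : a + b = n) (ρ : Representation Ω (Gn F n) X) (y : Gn F a)
    (z : Gn F b) {x : X} (hx : x ∈ WW h ρ) : ρ (mm h y z) x ∈ WW h ρ := by
  intro t
  rw [← Module.End.mul_apply, ← map_mul, uu_mm, map_mul, Module.End.mul_apply]
  exact congrArg (ρ (mm h y z)) (hx _)

/-- the representation on the fixed vectors -/
def TW {n a b : ℕ} (h : a + b = n) (ρ : Representation Ω (Gn F n) X) :
    Representation Ω (Gn F a × Gn F b) (WW h ρ) where
  toFun p := (ρ (mm h p.1 p.2)).restrict (fun _ hx => WW_stable h ρ p.1 p.2 hx)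
  map_one' := by
    apply LinearMap.ext
    intro x
    apply Subtype.ext
    show ρ (mm h (1 : Gn F a) (1 : Gn F b)) (x : X) = x
    rw [mm_one, map_one]
    rfl
  map_mul' p q := by
    apply LinearMap.ext
    intro x
    apply Subtype.ext
    show ρ (mm h (p.1 * q.1) (p.2 * q.2)) (x : X) = ρ (mm h p.1 p.2) (ρ (mm h q.1 q.2) (x : X))
    rw [mm_mul, map_mul]
    rfl

/-- the average -/
def ee {n a b : ℕ} (h : a + b = n) (ρ : Representation Ω (Gn F n) X) [Fintype (HH F a b)] :
    Module.End Ω X := (Nat.card (HH F a b) : Ω)⁻¹ • ∑ t : HH F a b, ρ (uu h t)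

theorem ee_mem {n a b : ℕ} (h : a + b = n) (ρ : Representation Ω (Gn F n) X)
    [Fintype (HH F a b)] (x : X) : ee h ρ x ∈ WW h ρ := by
  intro s
  unfold ee
  rw [LinearMap.smul_apply, map_smul, LinearMap.sum_apply, map_sum]
  congr 1
  symm
  refine Fintype.sum_equiv (Equiv.subRight s) _ _ fun t => ?_
  show ρ (uu h t) x = ρ (uu h s) (ρ (uu h (t - s)) x)
  rw [← Module.End.mul_apply, ← map_mul, ← uu_add, add_sub_cancel]

theorem ee_id {n a b : ℕ} (h : a + b = n) (ρ : Representation Ω (Gn F n) X)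
    [Fintype (HH F a b)] {x : X} (hx : x ∈ WW h ρ) : ee h ρ x = x := by
  unfold ee
  rw [LinearMap.smul_apply, LinearMap.sum_apply, Finset.sum_congr rfl fun t _ => hx t,
    Finset.sum_const, Finset.card_univ, ← Nat.cast_smul_eq_nsmul Ω, smul_smul,
    Fintype.card_eq_nat_card, inv_mul_cancel₀, one_smul]
  exact Nat.cast_ne_zero.2 Nat.card_pos.ne'

theorem TW_char [FiniteDimensional Ω X] {n a b : ℕ} (h : a + b = n)
    (ρ : Representation Ω (Gn F n) X) (f : CF F Ω) (hf : f.at n = ρ.character)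
    (p : Gn F a × Gn F b) :
    (TW h ρ).character p = f.cop (Fin a → F) (Fin b → F) p.1 p.2 := by
  let _ : Fintype (HH F a b) := Fintype.ofFinite _
  have hmem : ∀ x, (ρ (mm h p.1 p.2) * ee h ρ) x ∈ WW h ρ := fun x =>
    WW_stable h ρ p.1 p.2 (ee_mem h ρ x)
  have h1 := LinearMap.trace_restrict_eq_of_forall_mem (WW h ρ) (ρ (mm h p.1 p.2) * ee h ρ) hmem
  have h2 : (ρ (mm h p.1 p.2) * ee h ρ).restrict (fun x _ => hmem x) = TW h ρ p := by
    apply LinearMap.ext
    intro x
    apply Subtype.ext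
    show ρ (mm h p.1 p.2) (ee h ρ x) = ρ (mm h p.1 p.2) x
    rw [ee_id h ρ x.2]
  rw [h2] at h1
  rw [Representation.character, h1]
  unfold ee CF.cop
  rw [mul_smul_comm, map_smul, Finset.mul_sum, map_sum, smul_eq_mul,
    finsum_eq_sum_of_fintype]
  congr 1
  let E : HH F a b ≃ HH F a b :=
    { toFun := fun t => ((p.1 : Gn F a) : (Fin a → F) →ₗ[F] (Fin a → F)) ∘ₗ t
      invFun := fun t => ((p.1⁻¹ : Gn F a) : (Fin a → F) →ₗ[F] (Fin a → F)) ∘ₗ t
      left_inv := by
        intro t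
        apply LinearMap.ext
        intro x
        exact p.1.symm_apply_apply _
      right_inv := by
        intro t
        apply LinearMap.ext
        intro x
        exact p.1.apply_symm_apply _ }
  rw [← E.sum_comp (fun t => f.val ((Fin a → F) × (Fin b → F)) (ext p.1 p.2 t))]
  refine Finset.sum_congr rfl fun t _ => ?_
  rw [← map_mul, mm_uu]
  show ρ.character _ = f.val ((Fin a → F) × (Fin b → F)) (ext p.1 p.2 (E t))
  rw [← hf, CF.val_blk]
  rfl

end A07_aux

theorem cop_char {n a b : ℕ} (h : a + b = n) {X : Type} [AddCommGroup X] [Module Ω X]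
    [FiniteDimensional Ω X] (ρ : Representation Ω (Gn F n) X) (f : CF F Ω)
    (hf : f.at n = ρ.character) :
    ∃ (N : ℕ) (τ : Representation Ω (Gn F a × Gn F b) (Fin N → Ω)),
      ∀ p, τ.character p = f.cop (Fin a → F) (Fin b → F) p.1 p.2 := by
  obtain ⟨τ, ⟨e⟩⟩ := Parker.exists_fin (A07_aux.TW h ρ)
  refine ⟨_, τ, fun p => ?_⟩
  rw [← Representation.char_iso e]
  exact A07_aux.TW_char h ρ f hf p

/-- the multiplicity `mI` is the inner product -/
theorem mI_spec (v a b : Irr F Ω) :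
    (mI v a b : Ω) = Parker.ip (fun p : Gn F a.n × Gn F b.n =>
      v.cf.cop (Fin a.n → F) (Fin b.n → F) p.1 p.2) (fun p => a.φ p.1 * b.φ p.2) := by
  have key : ∃ k : ℕ, (k : Ω) = Parker.ip (fun p : Gn F a.n × Gn F b.n =>
      v.cf.cop (Fin a.n → F) (Fin b.n → F) p.1 p.2) (fun p => a.φ p.1 * b.φ p.2) := by
    by_cases hn : a.n + b.n = v.n
    · obtain ⟨N, ρ, _, hρ⟩ := Parker.mem_irr.1 v.mem
      have hf : v.cf.at v.n = ρ.character := by
        rw [hρ]
        exact CF.of_val v.φ v.cls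
      obtain ⟨M, τ, hτ⟩ := cop_char hn ρ v.cf hf
      obtain ⟨Na, ρa, _, hρa⟩ := Parker.mem_irr.1 a.mem
      obtain ⟨Nb, ρb, _, hρb⟩ := Parker.mem_irr.1 b.mem
      let ρa' : Representation Ω (Gn F a.n × Gn F b.n) (Fin Na → Ω) :=
        MonoidHom.comp ρa (MonoidHom.fst (Gn F a.n) (Gn F b.n))
      let ρb' : Representation Ω (Gn F a.n × Gn F b.n) (Fin Nb → Ω) :=
        MonoidHom.comp ρb (MonoidHom.snd (Gn F a.n) (Gn F b.n))
      have h1 : (fun p : Gn F a.n × Gn F b.n => a.φ p.1 * b.φ p.2) =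
          (ρa'.tprod ρb').character := by
        rw [Representation.char_tensor]
        funext p
        rw [← hρa, ← hρb]
        rfl
      have h2 : (fun p : Gn F a.n × Gn F b.n =>
          v.cf.cop (Fin a.n → F) (Fin b.n → F) p.1 p.2) = τ.character := by
        funext p
        exact (hτ p).symm
      rw [h1, h2]
      exact ⟨_, (Parker.ip_eq_finrank (ρa'.tprod ρb') τ).symm⟩
    · refine ⟨0, ?_⟩
      have h1 : (fun p : Gn F a.n × Gn F b.n =>
          v.cf.cop (Fin a.n → F) (Fin b.n → F) p.1 p.2) = (0 : Ω) • (fun _ => (0 : Ω)) := by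
        funext p
        have h0 : v.cf.cop (Fin a.n → F) (Fin b.n → F) p.1 p.2 = 0 :=
          CF.cop_deg (f := v.cf) (CF.of_deg v.φ v.cls) (by
            rw [Module.finrank_fin_fun, Module.finrank_fin_fun]
            exact hn) p.1 p.2
        rw [h0]
        simp
      rw [h1, Parker.ip_smul_left, zero_mul, Nat.cast_zero]
  unfold mI Parker.mul
  rw [dif_pos key]
  exact key.choose_spec

end

end ParkerGL
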