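import Pool.Agent.ParkerGL.A03
import Pool.Agent.ParkerGL.A04
import Pool.Agent.ParkerGL.A05
import Pool.Agent.ParkerGL.A06
import Pool.Agent.ParkerGL.A07

/-!
# MP_6c3636_al, GL_n(q), module A08: expansions of products and coproducts (helper7)

`Irr.at`: `v.at v.n = v.φ` (`CF.of_val`), `v.at n = 0` for `n ≠ v.n`.
`cop_expand`: `prod_expand` of A06 for the class function `p ↦ v.cf.cop p.1 p.2` (`CF.cop_cls`) and `mI_spec`; the sum over
`Parker.irr Ω (Gn F a)` is the sum over `lvI F Ω a`. If `a + b ≠ v.n` both sides are `0`.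
`mul_expand`: `class_expand` and `CF.adj`: `ip ((a.cf.mul b.cf).at n) v.φ = ip (a.φ ⊗ b.φ) (cop v) = mI v a b`
(`Parker.ip_comm`). Both sides are class functions of degree `a.n + b.n`.
-/

namespace ParkerGL

noncomputable section

open Classical

variable {F : Type} [Field F] [Finite F] {Ω : Type} [Field Ω] [IsAlgClosed Ω] [CharZero Ω]

theorem Irr.at_self (v : Irr F Ω) : v.at v.n = v.φ := CF.of_val v.φ v.cls

theorem Irr.at_ne (v : Irr F Ω) {n : ℕ} (h : n ≠ v.n) : v.at n = 0 :=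
  CF.deg_at (CF.of_deg v.φ v.cls) h

theorem Irr.isDeg (v : Irr F Ω) : v.cf.IsDeg v.n := CF.of_deg v.φ v.cls

theorem mem_lvI {n : ℕ} {v : Irr F Ω} : v ∈ lvI F Ω n ↔ v.n = n := by
  unfold lvI
  rw [Finset.mem_image]
  constructor
  · rintro ⟨φ, -, rfl⟩
    rfl
  · rintro rfl
    exact ⟨⟨v.φ, v.mem⟩, Finset.mem_attach _ _, rfl⟩

theorem Irr.ext' {v w : Irr F Ω} (hn : v.n = w.n) (h : v.at v.n = w.at v.n) : v = w := by
  obtain ⟨n, φ, hφ⟩ := v
  obtain ⟨m, ψ, hψ⟩ := w
  have hn' : n = m := hn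
  subst hn'
  have h1 := Irr.at_self (⟨n, φ, hφ⟩ : Irr F Ω)
  have h2 := Irr.at_self (⟨n, ψ, hψ⟩ : Irr F Ω)
  have h3 : φ = ψ := h1.symm.trans (h.trans h2)
  subst h3
  rfl

/-- sums over the irreducible characters of `GL_n(F)` -/
theorem sum_irr {M : Type*} [AddCommMonoid M] (n : ℕ) (f : (Gn F n → Ω) → M) :
    ∑ φ ∈ Parker.irr Ω (Gn F n), f φ = ∑ v ∈ lvI F Ω n, f (v.at n) := by
  unfold lvI
  rw [Finset.sum_image]
  · rw [← Finset.sum_attach]
    refine Finset.sum_congr rfl fun φ _ => ?_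
    rw [show (⟨n, φ.1, φ.2⟩ : Irr F Ω).at n = φ.1 from Irr.at_self ⟨n, φ.1, φ.2⟩]
  · intro φ _ ψ _ h
    have h1 : (⟨n, φ.1, φ.2⟩ : Irr F Ω) = ⟨n, ψ.1, ψ.2⟩ := h
    injection h1 with _ h2
    exact Subtype.ext h2

theorem ip_at {n : ℕ} {v w : Irr F Ω} (hv : v ∈ lvI F Ω n) (hw : w ∈ lvI F Ω n) :
    Parker.ip (v.at n) (w.at n) = if v = w then 1 else 0 := by
  have hv' := mem_lvI.1 hv
  have hw' := mem_lvI.1 hw
  have h1 : v.at n ∈ Parker.irr Ω (Gn F n) := by
    subst hv'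
    rw [Irr.at_self]
    exact v.mem
  have h2 : w.at n ∈ Parker.irr Ω (Gn F n) := by
    subst hw'
    rw [Irr.at_self]
    exact w.mem
  rw [Parker.ip_irr h1 h2]
  by_cases h : v = w
  · rw [if_pos h, if_pos (by rw [h])]
  · rw [if_neg h, if_neg]
    intro h3
    refine h (Irr.ext' (hv'.trans hw'.symm) ?_)
    rw [hv']
    exact h3

/-- the characters of degree `n` are linearly independent -/
theorem at_indep {n : ℕ} {c c' : Irr F Ω → Ω}
    (h : ∀ x, ∑ v ∈ lvI F Ω n, c v * v.at n x = ∑ v ∈ lvI F Ω n, c' v * v.at n x)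
    {v : Irr F Ω} (hv : v ∈ lvI F Ω n) : c v = c' v := by
  have key : ∀ d : Irr F Ω → Ω,
      Parker.ip (fun x => ∑ w ∈ lvI F Ω n, d w * w.at n x) (v.at n) = d v := by
    intro d
    have e : (fun x => ∑ w ∈ lvI F Ω n, d w * w.at n x) =
        ∑ w ∈ lvI F Ω n, d w • w.at n := by
      funext x
      rw [Finset.sum_apply]
      rfl
    rw [e, Parker.ip_sum_left, Finset.sum_eq_single_of_mem v hv]
    · rw [Parker.ip_smul_left, ip_at hv hv, if_pos rfl, mul_one]
    · intro w hw hne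
      rw [Parker.ip_smul_left, ip_at hw hv, if_neg hne, mul_zero]
  rw [← key c, ← key c']
  congr 1
  funext x
  exact h x

theorem mI_deg {v a b : Irr F Ω} (h : mI v a b ≠ 0) : v.n = a.n + b.n := by
  by_contra hne
  apply h
  have h1 := mI_spec v a b
  have h2 : (fun p : Gn F a.n × Gn F b.n =>
      v.cf.cop (Fin a.n → F) (Fin b.n → F) p.1 p.2) = (0 : Ω) • (0 : Gn F a.n × Gn F b.n → Ω) := by
    funext p
    rw [smul_zero]
    refine CF.cop_deg v.isDeg ?_ p.1 p.2
    rw [Module.finrank_fin_fun, Module.finrank_fin_fun]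
    exact fun h => hne h.symm
  rw [h2, Parker.ip_smul_left, zero_mul] at h1
  exact_mod_cast h1

theorem cop_expand (v : Irr F Ω) (a b : ℕ) (y : Gn F a) (z : Gn F b) :
    v.cf.cop (Fin a → F) (Fin b → F) y z =
      ∑ α ∈ lvI F Ω a, ∑ β ∈ lvI F Ω b, (mI v α β : Ω) * (α.at a y * β.at b z) := by
  have h1 := prod_expand (θ := fun p : Gn F a × Gn F b =>
    v.cf.cop (Fin a → F) (Fin b → F) p.1 p.2)
    (fun g x => CF.cop_cls v.cf x.1 g.1 x.2 g.2) (y, z)
  refine h1.trans ?_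
  rw [sum_irr]
  refine Finset.sum_congr rfl fun α hα => ?_
  rw [sum_irr]
  refine Finset.sum_congr rfl fun β hβ => ?_
  congr 1
  rw [mI_spec]
  obtain rfl := mem_lvI.1 hα
  obtain rfl := mem_lvI.1 hβ
  rw [Irr.at_self, Irr.at_self]

/-- the same for arbitrary spaces -/
theorem cop_expand' (v : Irr F Ω) {A C : Type} [AddCommGroup A] [Module F A] [Finite A]
    [AddCommGroup C] [Module F C] [Finite C] {a b : ℕ} (ha : Module.finrank F A = a)
    (hb : Module.finrank F C = b) (y : GV F A) (z : GV F C) :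
    v.cf.cop A C y z =
      ∑ α ∈ lvI F Ω a, ∑ β ∈ lvI F Ω b, (mI v α β : Ω) * (α.cf.val A y * β.cf.val C z) := by
  have h1 : v.cf.cop A C y z =
      v.cf.cop (Fin a → F) (Fin b → F) (trE (std F ha) y) (trE (std F hb) z) := by
    refine CF.cop_iso v.cf (std F ha) (std F hb) (fun x => ?_) (fun x => ?_)
    · rw [trE_apply, LinearEquiv.symm_apply_apply]
    · rw [trE_apply, LinearEquiv.symm_apply_apply]
  rw [h1, cop_expand]
  refine Finset.sum_congr rfl fun α _ => Finset.sum_congr rfl fun β _ => ?_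
  rw [← CF.val_tr α.cf (std F ha) y, ← CF.val_tr β.cf (std F hb) z]
  rfl

theorem mul_expand (a b : Irr F Ω) (V : Type) [AddCommGroup V] [Module F V] [Finite V]
    (x : GV F V) :
    (a.cf.mul b.cf).val V x = ∑ v ∈ lvI F Ω (a.n + b.n), (mI v a b : Ω) * v.cf.val V x := by
  by_cases hV : Module.finrank F V = a.n + b.n
  · have h1 := class_expand (CF.cls (a.cf.mul b.cf) (a.n + b.n)) (trE (std F hV) x)
    have h2 : (a.cf.mul b.cf).at (a.n + b.n) (trE (std F hV) x) = (a.cf.mul b.cf).val V x :=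
      CF.val_tr _ _ _
    rw [h2, sum_irr] at h1
    rw [h1]
    refine Finset.sum_congr rfl fun v hv => ?_
    have h3 : v.at (a.n + b.n) (trE (std F hV) x) = v.cf.val V x := CF.val_tr _ _ _
    have h4 : Parker.ip ((a.cf.mul b.cf).at (a.n + b.n)) (v.at (a.n + b.n)) =
        (mI v a b : Ω) := by
      have h5 := CF.adj a.isDeg b.isDeg v.cf
      rw [mI_spec, Parker.ip_comm]
      refine (Parker.ip_comm _ _).trans (h5.trans ?_)
      have h6 : a.cf.at a.n = a.φ := a.at_self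
      have h7 : b.cf.at b.n = b.φ := b.at_self
      rw [h6, h7]
      exact Parker.ip_comm _ _
    rw [h3, h4]
  · rw [CF.mul_deg a.isDeg b.isDeg V x hV]
    refine (Finset.sum_eq_zero fun v hv => ?_).symm
    rw [v.isDeg V x (by rw [mem_lvI.1 hv]; exact hV), mul_zero]

end

end ParkerGL
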