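import Pool.Agent.ParkerGL.A08

/-!
# MP_6c3636_al, GL_n(q), module A09: the structure `PSH` for `GL_n(F)` (helper7)

* `oneI`: the trivial character of the trivial group `Gn F 0`; it is the only element of degree `0`.
* `mI_one`: `cop_zero_left`: `v.cf.cop (Fin 0 → F) (Fin b → F) y z = v.cf.val _ z`; compare coefficients (`at_indep`).
* `mI_comm`: `CF.cop_comm` and the reindexing of `ip` over `G × H`.
* `mI_assoc`: expand both sides of `CF.cop_assoc` (for the spaces `F^a, F^b, F^c`): the left side is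
  `∑_{w, γ} m v w γ (∑_{α, β} m w α β α(y) β(z)) γ(w')` (use `cop_expand'` for `A × B`, `C`, then the inner average over
  `h` is the coproduct of `w`), the right side `∑_{α, w} m v α w α(y) (∑_{β, γ} m w β γ β(z) γ(w'))`. Compare the coefficients of
  `α ⊗ β ⊗ γ` (`at_indep` three times, or take inner products).
* `mI_hopf`: Let `f, g, a, b` with `deg f + deg g = deg a + deg b = n` (otherwise both sides vanish by degrees).
  The inner product of `cop (f * g)` with `a ⊗ b` on `GL_{deg a} × GL_{deg b}` is by `mul_expand` (and linearity of the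
  coproduct) `∑_v m v f g * m v a b`. By `CF.hopf` and `cop_expand'` (for the subspaces `W`, `W'` and the quotients, whose dimensions
  vary) `cop (f * g) (y, z) = ∑_{p, q, r, s} m f p q * m g r s * (∑_W p(y|W) r(y|A/W)) (∑_{W'} q(z|W') s(z|C/W'))
  = ∑ m f p q * m g r s * (p * r)(y) * (q * s)(z)`, `p, q, r, s` over all irreducible characters (of bounded degree);
  the inner product with `a ⊗ b` is `m a p r * m b q s` (`mul_expand`, `ip_at`).
-/

namespace ParkerGL

noncomputable section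

open Classical

variable {F : Type} [Field F] [Finite F] {Ω : Type} [Field Ω] [IsAlgClosed Ω] [CharZero Ω]

namespace A09_aux

omit [Finite F] in
theorem subs0 : Subsingleton (Gn F 0) := ⟨fun a b => by ext v i; exact i.elim0⟩

attribute [local instance] subs0

omit [Finite F] in
theorem card0 : Nat.card (Gn F 0) = 1 := Nat.card_unique

/-- the box of the irreducible characters of degree at most `N` -/
def bx (F : Type) [Field F] [Finite F] (Ω : Type) [Field Ω] [IsAlgClosed Ω] [CharZero Ω]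
    (N : ℕ) : Finset (Irr F Ω) := (Finset.range (N + 1)).biUnion (lvI F Ω)

theorem mem_bx {N : ℕ} {v : Irr F Ω} : v ∈ bx F Ω N ↔ v.n ≤ N := by
  simp only [bx, Finset.mem_biUnion, Finset.mem_range, mem_lvI]
  constructor
  · rintro ⟨a, ha, rfl⟩
    omega
  · intro h
    exact ⟨v.n, by omega, rfl⟩

/-- comparison of the coefficients in two variables -/
theorem indep2 {a b : ℕ} {c c' : Irr F Ω → Irr F Ω → Ω}
    (h : ∀ y z, ∑ α ∈ lvI F Ω a, ∑ β ∈ lvI F Ω b, c α β * (α.at a y * β.at b z) =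
      ∑ α ∈ lvI F Ω a, ∑ β ∈ lvI F Ω b, c' α β * (α.at a y * β.at b z))
    {α β : Irr F Ω} (hα : α ∈ lvI F Ω a) (hβ : β ∈ lvI F Ω b) : c α β = c' α β := by
  have h1 : ∀ z, ∑ β ∈ lvI F Ω b, c α β * β.at b z = ∑ β ∈ lvI F Ω b, c' α β * β.at b z := by
    intro z
    refine at_indep (c := fun α => ∑ β ∈ lvI F Ω b, c α β * β.at b z)
      (c' := fun α => ∑ β ∈ lvI F Ω b, c' α β * β.at b z) ?_ hα
    intro y
    have := h y z
    simp only [Finset.sum_mul]
    calc _ = _ := ?_
      _ = _ := this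
      _ = _ := ?_
    · refine Finset.sum_congr rfl fun α _ => Finset.sum_congr rfl fun β _ => ?_
      ring
    · refine Finset.sum_congr rfl fun α _ => Finset.sum_congr rfl fun β _ => ?_
      ring
  exact at_indep (c := fun β => c α β) (c' := fun β => c' α β) h1 hβ

theorem indep3 {a b e : ℕ} {c c' : Irr F Ω → Irr F Ω → Irr F Ω → Ω}
    (h : ∀ y z w, ∑ α ∈ lvI F Ω a, ∑ β ∈ lvI F Ω b, ∑ γ ∈ lvI F Ω e,
        c α β γ * (α.at a y * (β.at b z * γ.at e w)) =
      ∑ α ∈ lvI F Ω a, ∑ β ∈ lvI F Ω b, ∑ γ ∈ lvI F Ω e,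
        c' α β γ * (α.at a y * (β.at b z * γ.at e w)))
    {α β γ : Irr F Ω} (hα : α ∈ lvI F Ω a) (hβ : β ∈ lvI F Ω b) (hγ : γ ∈ lvI F Ω e) :
    c α β γ = c' α β γ := by
  refine indep2 (c := fun β γ => c α β γ) (c' := fun β γ => c' α β γ) ?_ hβ hγ
  intro z w
  refine at_indep
    (c := fun α => ∑ β ∈ lvI F Ω b, ∑ γ ∈ lvI F Ω e, c α β γ * (β.at b z * γ.at e w))
    (c' := fun α => ∑ β ∈ lvI F Ω b, ∑ γ ∈ lvI F Ω e, c' α β γ * (β.at b z * γ.at e w)) ?_ hα
  intro y
  have := h y z w
  simp only [Finset.sum_mul]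
  calc _ = _ := ?_
    _ = _ := this
    _ = _ := ?_
  · refine Finset.sum_congr rfl fun α _ => Finset.sum_congr rfl fun β _ =>
      Finset.sum_congr rfl fun γ _ => ?_
    ring
  · refine Finset.sum_congr rfl fun α _ => Finset.sum_congr rfl fun β _ =>
      Finset.sum_congr rfl fun γ _ => ?_
    ring

end A09_aux

open A09_aux

theorem one_mem_irr : (fun _ => 1 : Gn F 0 → Ω) ∈ Parker.irr Ω (Gn F 0) := by
  rw [Parker.mem_irr]
  have h1 : (1 : Representation Ω (Gn F 0) Ω).character = fun _ => 1 := by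
    funext g
    simp [Representation.character]
  rw [← h1]
  apply Parker.mem_irrSet
  rw [Parker.irr_iff_ip, h1]
  have := Fintype.ofFinite (Gn F 0)
  rw [Parker.ip_eq, Finset.sum_const, Finset.card_univ, ← Nat.card_eq_fintype_card, card0]
  simp

variable (F Ω) in
/-- the unit -/
def oneI : Irr F Ω := ⟨0, fun _ => 1, one_mem_irr⟩

theorem deg_zeroI (v : Irr F Ω) : v.n = 0 ↔ v = oneI F Ω := by
  constructor
  · intro h
    have hv : v ∈ lvI F Ω 0 := mem_lvI.2 h
    have ho : oneI F Ω ∈ lvI F Ω 0 := mem_lvI.2 rfl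
    have hval : ∀ w w' : Irr F Ω, Parker.ip (w.at 0) (w'.at 0) = w.at 0 1 * w'.at 0 1 := by
      intro w w'
      have := Fintype.ofFinite (Gn F 0)
      rw [Parker.ip_eq, card0]
      have h2 : (Finset.univ : Finset (Gn F 0)) = {1} := by
        refine (Finset.eq_singleton_iff_unique_mem).2 ⟨Finset.mem_univ _, fun x _ => ?_⟩
        exact Subsingleton.elim x 1
      rw [h2, Finset.sum_singleton, inv_one]
      simp
    have h1 := ip_at hv hv
    have h2 := ip_at ho ho
    have h3 := ip_at hv ho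
    rw [hval] at h1 h2 h3
    by_contra hne
    rw [if_neg hne] at h3
    rw [if_pos rfl] at h1 h2
    rcases mul_eq_zero.1 h3 with h4 | h4
    · rw [h4, zero_mul] at h1
      exact zero_ne_one h1
    · rw [h4, zero_mul] at h2
      exact zero_ne_one h2
  · rintro rfl
    rfl

theorem mI_one (v a : Irr F Ω) : mI v (oneI F Ω) a = if v = a then 1 else 0 := by
  by_cases hn : v.n = a.n
  · have hlv : lvI F Ω 0 = {oneI F Ω} := by
      ext w
      rw [mem_lvI, Finset.mem_singleton]
      exact deg_zeroI w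
    have ho : (oneI F Ω).at 0 = fun _ => 1 := (oneI F Ω).at_self
    have key := at_indep (n := a.n) (c := fun β => (mI v (oneI F Ω) β : Ω))
      (c' := fun β => if v = β then 1 else 0) (v := a) (by
        intro x
        have h1 := cop_expand v 0 a.n (1 : Gn F 0) x
        rw [hlv, Finset.sum_singleton] at h1
        simp only [ho, one_mul] at h1
        rw [← h1, CF.cop_zero_left _ (by simp)]
        simp only [ite_mul, one_mul, zero_mul]
        rw [Finset.sum_ite_eq, if_pos (mem_lvI.2 hn)]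
        rfl) (mem_lvI.2 rfl)
    have key' : ((mI v (oneI F Ω) a : ℕ) : Ω) = ((if v = a then 1 else 0 : ℕ) : Ω) := by
      rw [key]
      split_ifs <;> simp
    exact_mod_cast key'
  · rw [if_neg (fun h => hn (by rw [h]))]
    by_contra h
    have := mI_deg h
    have h0 : (oneI F Ω).n = 0 := rfl
    omega

theorem mI_comm (v a b : Irr F Ω) : mI v a b = mI v b a := by
  have key := indep2 (a := a.n) (b := b.n) (c := fun α β => (mI v α β : Ω))
    (c' := fun α β => (mI v β α : Ω)) (α := a) (β := b) (by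
      intro y z
      rw [← cop_expand, CF.cop_comm, cop_expand, Finset.sum_comm]
      refine Finset.sum_congr rfl fun α _ => Finset.sum_congr rfl fun β _ => ?_
      ring) (mem_lvI.2 rfl) (mem_lvI.2 rfl)
  exact_mod_cast key

namespace A09_aux

theorem avg_expand {A B : Type} [AddCommGroup A] [Module F A] [Finite A]
    [AddCommGroup B] [Module F B] [Finite B] (ω : Irr F Ω) (y : GV F A) (z : GV F B) :
    (Nat.card (B →ₗ[F] A) : Ω)⁻¹ * ∑ᶠ h : B →ₗ[F] A, ω.cf.val (A × B) (ext y z h) =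
      ω.cf.cop A B y z := rfl

theorem assoc_left (v : Irr F Ω) (a b e : ℕ) (y : Gn F a) (z : Gn F b) (w : Gn F e) :
    (Nat.card ((Fin b → F) →ₗ[F] (Fin a → F)) : Ω)⁻¹ *
      ∑ᶠ h : (Fin b → F) →ₗ[F] (Fin a → F),
        v.cf.cop ((Fin a → F) × (Fin b → F)) (Fin e → F) (ext y z h) w =
      ∑ α ∈ lvI F Ω a, ∑ β ∈ lvI F Ω b, ∑ γ ∈ lvI F Ω e,
        (∑ ω ∈ lvI F Ω (a + b), (mI v ω γ : Ω) * (mI ω α β : Ω)) *
          (α.at a y * (β.at b z * γ.at e w)) := by
  have := Fintype.ofFinite ((Fin b → F) →ₗ[F] (Fin a → F))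
  have hA : Module.finrank F ((Fin a → F) × (Fin b → F)) = a + b := by
    rw [Module.finrank_prod, Module.finrank_fin_fun, Module.finrank_fin_fun]
  have hC : Module.finrank F (Fin e → F) = e := Module.finrank_fin_fun F
  have h1 : ∀ h : (Fin b → F) →ₗ[F] (Fin a → F),
      v.cf.cop ((Fin a → F) × (Fin b → F)) (Fin e → F) (ext y z h) w =
      ∑ ω ∈ lvI F Ω (a + b), ∑ γ ∈ lvI F Ω e, (mI v ω γ : Ω) *
        (ω.cf.val ((Fin a → F) × (Fin b → F)) (ext y z h) * γ.at e w) := by
    intro h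
    exact cop_expand' v hA hC (ext y z h) w
  rw [finsum_eq_sum_of_fintype, Finset.sum_congr rfl (fun h _ => h1 h), Finset.sum_comm,
    Finset.mul_sum]
  have h2 : ∀ ω ∈ lvI F Ω (a + b), (Nat.card ((Fin b → F) →ₗ[F] (Fin a → F)) : Ω)⁻¹ *
      ∑ h : (Fin b → F) →ₗ[F] (Fin a → F), ∑ γ ∈ lvI F Ω e, (mI v ω γ : Ω) *
        (ω.cf.val ((Fin a → F) × (Fin b → F)) (ext y z h) * γ.at e w) =
      ∑ α ∈ lvI F Ω a, ∑ β ∈ lvI F Ω b, ∑ γ ∈ lvI F Ω e,
        ((mI v ω γ : Ω) * (mI ω α β : Ω)) * (α.at a y * (β.at b z * γ.at e w)) := by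
    intro ω _
    rw [Finset.sum_comm, Finset.mul_sum]
    have h3 : ∀ γ ∈ lvI F Ω e, (Nat.card ((Fin b → F) →ₗ[F] (Fin a → F)) : Ω)⁻¹ *
        ∑ h : (Fin b → F) →ₗ[F] (Fin a → F), (mI v ω γ : Ω) *
          (ω.cf.val ((Fin a → F) × (Fin b → F)) (ext y z h) * γ.at e w) =
        ∑ α ∈ lvI F Ω a, ∑ β ∈ lvI F Ω b,
          ((mI v ω γ : Ω) * (mI ω α β : Ω)) * (α.at a y * (β.at b z * γ.at e w)) := by
      intro γ _
      have h4 := avg_expand ω y z
      rw [cop_expand, finsum_eq_sum_of_fintype] at h4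
      calc _ = (mI v ω γ : Ω) * γ.at e w * ((Nat.card ((Fin b → F) →ₗ[F] (Fin a → F)) : Ω)⁻¹ *
            ∑ h : (Fin b → F) →ₗ[F] (Fin a → F),
              ω.cf.val ((Fin a → F) × (Fin b → F)) (ext y z h)) := by
            rw [Finset.mul_sum, Finset.mul_sum, Finset.mul_sum]
            refine Finset.sum_congr rfl fun h _ => ?_
            ring
        _ = _ := by
            rw [h4, Finset.mul_sum]
            refine Finset.sum_congr rfl fun α _ => ?_
            rw [Finset.mul_sum]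
            refine Finset.sum_congr rfl fun β _ => ?_
            ring
    rw [Finset.sum_congr rfl h3, Finset.sum_comm]
    refine Finset.sum_congr rfl fun α _ => ?_
    rw [Finset.sum_comm]
  rw [Finset.sum_congr rfl h2, Finset.sum_comm]
  refine Finset.sum_congr rfl fun α _ => ?_
  rw [Finset.sum_comm]
  refine Finset.sum_congr rfl fun β _ => ?_
  rw [Finset.sum_comm]
  refine Finset.sum_congr rfl fun γ _ => ?_
  rw [Finset.sum_mul]

theorem assoc_right (v : Irr F Ω) (a b e : ℕ) (y : Gn F a) (z : Gn F b) (w : Gn F e) :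
    (Nat.card ((Fin e → F) →ₗ[F] (Fin b → F)) : Ω)⁻¹ *
      ∑ᶠ k : (Fin e → F) →ₗ[F] (Fin b → F),
        v.cf.cop (Fin a → F) ((Fin b → F) × (Fin e → F)) y (ext z w k) =
      ∑ α ∈ lvI F Ω a, ∑ β ∈ lvI F Ω b, ∑ γ ∈ lvI F Ω e,
        (∑ ω ∈ lvI F Ω (b + e), (mI v α ω : Ω) * (mI ω β γ : Ω)) *
          (α.at a y * (β.at b z * γ.at e w)) := by
  have := Fintype.ofFinite ((Fin e → F) →ₗ[F] (Fin b → F))
  have hA : Module.finrank F ((Fin b → F) × (Fin e → F)) = b + e := by
    rw [Module.finrank_prod, Module.finrank_fin_fun, Module.finrank_fin_fun]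
  have hC : Module.finrank F (Fin a → F) = a := Module.finrank_fin_fun F
  have h1 : ∀ k : (Fin e → F) →ₗ[F] (Fin b → F),
      v.cf.cop (Fin a → F) ((Fin b → F) × (Fin e → F)) y (ext z w k) =
      ∑ α ∈ lvI F Ω a, ∑ ω ∈ lvI F Ω (b + e), (mI v α ω : Ω) *
        (α.at a y * ω.cf.val ((Fin b → F) × (Fin e → F)) (ext z w k)) := by
    intro k
    exact cop_expand' v hC hA y (ext z w k)
  rw [finsum_eq_sum_of_fintype, Finset.sum_congr rfl (fun h _ => h1 h), Finset.sum_comm,
    Finset.mul_sum]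
  refine Finset.sum_congr rfl fun α _ => ?_
  rw [Finset.sum_comm, Finset.mul_sum]
  have h3 : ∀ ω ∈ lvI F Ω (b + e), (Nat.card ((Fin e → F) →ₗ[F] (Fin b → F)) : Ω)⁻¹ *
      ∑ k : (Fin e → F) →ₗ[F] (Fin b → F), (mI v α ω : Ω) *
        (α.at a y * ω.cf.val ((Fin b → F) × (Fin e → F)) (ext z w k)) =
      ∑ β ∈ lvI F Ω b, ∑ γ ∈ lvI F Ω e,
        ((mI v α ω : Ω) * (mI ω β γ : Ω)) * (α.at a y * (β.at b z * γ.at e w)) := by
    intro ω _
    have h4 := avg_expand ω z w
    rw [cop_expand, finsum_eq_sum_of_fintype] at h4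
    calc _ = (mI v α ω : Ω) * α.at a y * ((Nat.card ((Fin e → F) →ₗ[F] (Fin b → F)) : Ω)⁻¹ *
          ∑ k : (Fin e → F) →ₗ[F] (Fin b → F),
            ω.cf.val ((Fin b → F) × (Fin e → F)) (ext z w k)) := by
          rw [Finset.mul_sum, Finset.mul_sum, Finset.mul_sum]
          refine Finset.sum_congr rfl fun h _ => ?_
          ring
      _ = _ := by
          rw [h4, Finset.mul_sum]
          refine Finset.sum_congr rfl fun β _ => ?_
          rw [Finset.mul_sum]
          refine Finset.sum_congr rfl fun γ _ => ?_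
          ring
  rw [Finset.sum_congr rfl h3, Finset.sum_comm]
  refine Finset.sum_congr rfl fun β _ => ?_
  rw [Finset.sum_comm]
  refine Finset.sum_congr rfl fun γ _ => ?_
  rw [Finset.sum_mul]

end A09_aux

theorem mI_assoc (v a b c : Irr F Ω) :
    ∑ w ∈ lvI F Ω (b.n + c.n), mI v a w * mI w b c =
      ∑ w ∈ lvI F Ω (a.n + b.n), mI v w c * mI w a b := by
  have key := indep3 (a := a.n) (b := b.n) (e := c.n)
    (c := fun α β γ => ∑ ω ∈ lvI F Ω (b.n + c.n), (mI v α ω : Ω) * (mI ω β γ : Ω))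
    (c' := fun α β γ => ∑ ω ∈ lvI F Ω (a.n + b.n), (mI v ω γ : Ω) * (mI ω α β : Ω))
    (α := a) (β := b) (γ := c) (by
      intro y z w
      rw [← assoc_left, ← assoc_right, CF.cop_assoc]) (mem_lvI.2 rfl) (mem_lvI.2 rfl)
      (mem_lvI.2 rfl)
  exact_mod_cast key

namespace A09_aux

theorem val_ne (v : Irr F Ω) {V : Type} [AddCommGroup V] [Module F V] [Finite V] (x : GV F V)
    (h : v.cf.val V x ≠ 0) : Module.finrank F V = v.n := by
  by_contra hn
  exact h (v.isDeg V x hn)

/-- the expansion of the coproduct over a box -/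
theorem cop_box (v : Irr F Ω) {N : ℕ} (hN : v.n ≤ N) {A C : Type} [AddCommGroup A] [Module F A]
    [Finite A] [AddCommGroup C] [Module F C] [Finite C] (y : GV F A) (z : GV F C) :
    v.cf.cop A C y z =
      ∑ α ∈ bx F Ω N, ∑ β ∈ bx F Ω N, (mI v α β : Ω) * (α.cf.val A y * β.cf.val C z) := by
  by_cases hd : Module.finrank F A + Module.finrank F C = v.n
  · rw [cop_expand' v rfl rfl y z]
    have hsA : lvI F Ω (Module.finrank F A) ⊆ bx F Ω N := by
      intro w hw
      rw [mem_bx, mem_lvI.1 hw]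
      omega
    have hsC : lvI F Ω (Module.finrank F C) ⊆ bx F Ω N := by
      intro w hw
      rw [mem_bx, mem_lvI.1 hw]
      omega
    rw [← Finset.sum_subset hsA]
    · refine Finset.sum_congr rfl fun α _ => ?_
      refine Finset.sum_subset hsC ?_
      intro β _ hβ
      by_cases h0 : β.cf.val C z = 0
      · rw [h0, mul_zero, mul_zero]
      · exact absurd (mem_lvI.2 (val_ne β z h0).symm) hβ
    · intro α _ hα
      refine Finset.sum_eq_zero fun β _ => ?_
      by_cases h0 : α.cf.val A y = 0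
      · rw [h0, zero_mul, mul_zero]
      · exact absurd (mem_lvI.2 (val_ne α y h0).symm) hα
  · rw [CF.cop_deg v.isDeg hd]
    symm
    refine Finset.sum_eq_zero fun α _ => Finset.sum_eq_zero fun β _ => ?_
    by_cases hm : mI v α β = 0
    · rw [hm, Nat.cast_zero, zero_mul]
    · by_cases h0 : α.cf.val A y = 0
      · rw [h0, zero_mul, mul_zero]
      · by_cases h1 : β.cf.val C z = 0
        · rw [h1, mul_zero, mul_zero]
        · exfalso
          apply hd
          rw [val_ne α y h0, val_ne β z h1, mI_deg hm]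

/-- the expansion of the product in degree `n` -/
theorem mul_box (p r : Irr F Ω) (n : ℕ) (x : Gn F n) :
    (p.cf.mul r.cf).val (Fin n → F) x = ∑ α ∈ lvI F Ω n, (mI α p r : Ω) * α.at n x := by
  by_cases hn : p.n + r.n = n
  · subst hn
    exact mul_expand p r _ x
  · have h1 := CF.mul_deg p.isDeg r.isDeg (Fin n → F) x (by
      rw [Module.finrank_fin_fun]
      exact fun h => hn h.symm)
    rw [h1]
    symm
    refine Finset.sum_eq_zero fun α hα => ?_
    by_cases hm : mI α p r = 0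
    · rw [hm, Nat.cast_zero, zero_mul]
    · exact absurd ((mI_deg hm).symm.trans (mem_lvI.1 hα)) hn

/-- the left side of the Hopf formula -/
theorem hopf_left (f g : Irr F Ω) (a b : ℕ) (y : Gn F a) (z : Gn F b) :
    (f.cf.mul g.cf).cop (Fin a → F) (Fin b → F) y z =
      ∑ α ∈ lvI F Ω a, ∑ β ∈ lvI F Ω b,
        (∑ v ∈ lvI F Ω (f.n + g.n), (mI v f g : Ω) * (mI v α β : Ω)) *
          (α.at a y * β.at b z) := by
  have := Fintype.ofFinite ((Fin b → F) →ₗ[F] (Fin a → F))
  have h1 : (f.cf.mul g.cf).cop (Fin a → F) (Fin b → F) y z =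
      ∑ v ∈ lvI F Ω (f.n + g.n), (mI v f g : Ω) * v.cf.cop (Fin a → F) (Fin b → F) y z := by
    unfold CF.cop
    rw [finsum_eq_sum_of_fintype]
    rw [Finset.sum_congr rfl (fun h _ => mul_expand f g _ (ext y z h)), Finset.sum_comm,
      Finset.mul_sum]
    refine Finset.sum_congr rfl fun v _ => ?_
    rw [finsum_eq_sum_of_fintype, ← Finset.mul_sum]
    ring
  rw [h1]
  have h2 : ∀ v ∈ lvI F Ω (f.n + g.n),
      (mI v f g : Ω) * v.cf.cop (Fin a → F) (Fin b → F) y z =
      ∑ α ∈ lvI F Ω a, ∑ β ∈ lvI F Ω b,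
        ((mI v f g : Ω) * (mI v α β : Ω)) * (α.at a y * β.at b z) := by
    intro v _
    rw [cop_expand, Finset.mul_sum]
    refine Finset.sum_congr rfl fun α _ => ?_
    rw [Finset.mul_sum]
    refine Finset.sum_congr rfl fun β _ => ?_
    ring
  rw [Finset.sum_congr rfl h2, Finset.sum_comm]
  refine Finset.sum_congr rfl fun α _ => ?_
  rw [Finset.sum_comm]
  refine Finset.sum_congr rfl fun β _ => ?_
  rw [Finset.sum_mul]

/-- the right side of the Hopf formula -/
theorem hopf_right (f g : Irr F Ω) {N : ℕ} (hf : f.n ≤ N) (hg : g.n ≤ N) {A C : Type}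
    [AddCommGroup A] [Module F A] [Finite A] [AddCommGroup C] [Module F C] [Finite C]
    (y : GV F A) (z : GV F C) :
    (f.cf.mul g.cf).cop A C y z =
      ∑ p ∈ bx F Ω N, ∑ q ∈ bx F Ω N, ∑ r ∈ bx F Ω N, ∑ s ∈ bx F Ω N,
        ((mI f p q : Ω) * (mI g r s : Ω)) *
          ((p.cf.mul r.cf).val A y * (q.cf.mul s.cf).val C z) := by
  have := Fintype.ofFinite (Submodule F A)
  have := Fintype.ofFinite (Submodule F C)
  rw [CF.hopf]
  rw [finsum_eq_sum_of_fintype]
  have h1 : ∀ W : Submodule F A, (∑ᶠ W' : Submodule F C,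
      if h : Inv y W ∧ Inv z W' then
          f.cf.cop W W' (rst y W h.1) (rst z W' h.2) *
            g.cf.cop (A ⧸ W) (C ⧸ W') (quo y W h.1) (quo z W' h.2) else 0) =
      ∑ W' : Submodule F C, ∑ p ∈ bx F Ω N, ∑ q ∈ bx F Ω N, ∑ r ∈ bx F Ω N, ∑ s ∈ bx F Ω N,
        ((mI f p q : Ω) * (mI g r s : Ω)) *
          ((if h : Inv y W then p.cf.val W (rst y W h) * r.cf.val (A ⧸ W) (quo y W h) else 0) *
            (if h : Inv z W' then q.cf.val W' (rst z W' h) * s.cf.val (C ⧸ W') (quo z W' h)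
              else 0)) := by
    intro W
    rw [finsum_eq_sum_of_fintype]
    refine Finset.sum_congr rfl fun W' _ => ?_
    by_cases hy : Inv y W
    · by_cases hz : Inv z W'
      · rw [dif_pos ⟨hy, hz⟩]
        simp only [dif_pos hy, dif_pos hz]
        rw [cop_box f hf, cop_box g hg, Finset.sum_mul]
        refine Finset.sum_congr rfl fun p _ => ?_
        rw [Finset.sum_mul]
        refine Finset.sum_congr rfl fun q _ => ?_
        rw [Finset.mul_sum]
        refine Finset.sum_congr rfl fun r _ => ?_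
        rw [Finset.mul_sum]
        refine Finset.sum_congr rfl fun s _ => ?_
        ring
      · rw [dif_neg (fun h => hz h.2)]
        simp only [dif_neg hz, mul_zero, Finset.sum_const_zero]
    · rw [dif_neg (fun h => hy h.1)]
      simp only [dif_neg hy, zero_mul, mul_zero, Finset.sum_const_zero]
  rw [Finset.sum_congr rfl (fun W _ => h1 W)]
  have hval : ∀ (u w : Irr F Ω) (V : Type) [AddCommGroup V] [Module F V] [Finite V]
      [Fintype (Submodule F V)] (x : GV F V), (u.cf.mul w.cf).val V x =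
      ∑ W : Submodule F V,
        if h : Inv x W then u.cf.val W (rst x W h) * w.cf.val (V ⧸ W) (quo x W h) else 0 := by
    intro u w V _ _ _ _ x
    show (∑ᶠ W : Submodule F V,
      if h : Inv x W then u.cf.val W (rst x W h) * w.cf.val (V ⧸ W) (quo x W h) else 0) = _
    rw [finsum_eq_sum_of_fintype]
  -- exchange the sums
  have h2 : ∀ W : Submodule F A,
      (∑ W' : Submodule F C, ∑ p ∈ bx F Ω N, ∑ q ∈ bx F Ω N, ∑ r ∈ bx F Ω N, ∑ s ∈ bx F Ω N,
        ((mI f p q : Ω) * (mI g r s : Ω)) *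
          ((if h : Inv y W then p.cf.val W (rst y W h) * r.cf.val (A ⧸ W) (quo y W h) else 0) *
            (if h : Inv z W' then q.cf.val W' (rst z W' h) * s.cf.val (C ⧸ W') (quo z W' h)
              else 0))) =
      ∑ p ∈ bx F Ω N, ∑ q ∈ bx F Ω N, ∑ r ∈ bx F Ω N, ∑ s ∈ bx F Ω N,
        ((mI f p q : Ω) * (mI g r s : Ω)) *
          ((if h : Inv y W then p.cf.val W (rst y W h) * r.cf.val (A ⧸ W) (quo y W h) else 0) *
            (q.cf.mul s.cf).val C z) := by
    intro W
    rw [Finset.sum_comm]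
    refine Finset.sum_congr rfl fun p _ => ?_
    rw [Finset.sum_comm]
    refine Finset.sum_congr rfl fun q _ => ?_
    rw [Finset.sum_comm]
    refine Finset.sum_congr rfl fun r _ => ?_
    rw [Finset.sum_comm]
    refine Finset.sum_congr rfl fun s _ => ?_
    rw [hval q s C z, Finset.mul_sum, Finset.mul_sum]
  rw [Finset.sum_congr rfl (fun W _ => h2 W), Finset.sum_comm]
  refine Finset.sum_congr rfl fun p _ => ?_
  rw [Finset.sum_comm]
  refine Finset.sum_congr rfl fun q _ => ?_
  rw [Finset.sum_comm]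
  refine Finset.sum_congr rfl fun r _ => ?_
  rw [Finset.sum_comm]
  refine Finset.sum_congr rfl fun s _ => ?_
  rw [hval p r A y, Finset.sum_mul, Finset.mul_sum]

end A09_aux

theorem mI_hopf (f g a b : Irr F Ω) :
    ∑ v ∈ lvI F Ω (f.n + g.n), mI v f g * mI v a b =
      ∑ p ∈ (Finset.range (f.n + g.n + 1)).biUnion (lvI F Ω),
      ∑ q ∈ (Finset.range (f.n + g.n + 1)).biUnion (lvI F Ω),
      ∑ r ∈ (Finset.range (f.n + g.n + 1)).biUnion (lvI F Ω),
      ∑ s ∈ (Finset.range (f.n + g.n + 1)).biUnion (lvI F Ω),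
        mI f p q * mI g r s * mI a p r * mI b q s := by
  have key := indep2 (a := a.n) (b := b.n)
    (c := fun α β => ∑ v ∈ lvI F Ω (f.n + g.n), (mI v f g : Ω) * (mI v α β : Ω))
    (c' := fun α β => ∑ p ∈ bx F Ω (f.n + g.n), ∑ q ∈ bx F Ω (f.n + g.n),
      ∑ r ∈ bx F Ω (f.n + g.n), ∑ s ∈ bx F Ω (f.n + g.n),
        (mI f p q : Ω) * (mI g r s : Ω) * (mI α p r : Ω) * (mI β q s : Ω))
    (α := a) (β := b) (by
      intro y z
      rw [← hopf_left, hopf_right f g (N := f.n + g.n) (by omega) (by omega)]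
      have h1 : ∀ α ∈ lvI F Ω a.n, ∀ β ∈ lvI F Ω b.n,
          (∑ p ∈ bx F Ω (f.n + g.n), ∑ q ∈ bx F Ω (f.n + g.n),
            ∑ r ∈ bx F Ω (f.n + g.n), ∑ s ∈ bx F Ω (f.n + g.n),
            (mI f p q : Ω) * (mI g r s : Ω) * (mI α p r : Ω) * (mI β q s : Ω)) *
              (α.at a.n y * β.at b.n z) =
          ∑ p ∈ bx F Ω (f.n + g.n), ∑ q ∈ bx F Ω (f.n + g.n),
            ∑ r ∈ bx F Ω (f.n + g.n), ∑ s ∈ bx F Ω (f.n + g.n),
            ((mI f p q : Ω) * (mI g r s : Ω)) * (((mI α p r : Ω) * α.at a.n y) *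
              ((mI β q s : Ω) * β.at b.n z)) := by
        intro α _ β _
        rw [Finset.sum_mul]
        refine Finset.sum_congr rfl fun p _ => ?_
        rw [Finset.sum_mul]
        refine Finset.sum_congr rfl fun q _ => ?_
        rw [Finset.sum_mul]
        refine Finset.sum_congr rfl fun r _ => ?_
        rw [Finset.sum_mul]
        refine Finset.sum_congr rfl fun s _ => ?_
        ring
      rw [Finset.sum_congr rfl (fun α hα => Finset.sum_congr rfl (fun β hβ => h1 α hα β hβ))]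
      have h2 : ∀ (p q r s : Irr F Ω),
          ((mI f p q : Ω) * (mI g r s : Ω)) *
            ((p.cf.mul r.cf).val (Fin a.n → F) y * (q.cf.mul s.cf).val (Fin b.n → F) z) =
          ∑ α ∈ lvI F Ω a.n, ∑ β ∈ lvI F Ω b.n,
            ((mI f p q : Ω) * (mI g r s : Ω)) * (((mI α p r : Ω) * α.at a.n y) *
              ((mI β q s : Ω) * β.at b.n z)) := by
        intro p q r s
        rw [mul_box, mul_box, Finset.sum_mul_sum, Finset.mul_sum]
        refine Finset.sum_congr rfl fun α _ => ?_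
        rw [Finset.mul_sum]
      simp only [h2]
      -- move the sums over `α`, `β` to the outside
      symm
      calc _ = ∑ α ∈ lvI F Ω a.n, ∑ p ∈ bx F Ω (f.n + g.n), ∑ q ∈ bx F Ω (f.n + g.n),
            ∑ r ∈ bx F Ω (f.n + g.n), ∑ s ∈ bx F Ω (f.n + g.n), ∑ β ∈ lvI F Ω b.n,
            ((mI f p q : Ω) * (mI g r s : Ω)) * (((mI α p r : Ω) * α.at a.n y) *
              ((mI β q s : Ω) * β.at b.n z)) := by
            refine Finset.sum_congr rfl fun α _ => ?_
            rw [Finset.sum_comm]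
            refine Finset.sum_congr rfl fun p _ => ?_
            rw [Finset.sum_comm]
            refine Finset.sum_congr rfl fun q _ => ?_
            rw [Finset.sum_comm]
            refine Finset.sum_congr rfl fun r _ => ?_
            rw [Finset.sum_comm]
        _ = _ := by
            rw [Finset.sum_comm]
            refine Finset.sum_congr rfl fun p _ => ?_
            rw [Finset.sum_comm]
            refine Finset.sum_congr rfl fun q _ => ?_
            rw [Finset.sum_comm]
            refine Finset.sum_congr rfl fun r _ => ?_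
            rw [Finset.sum_comm]) (mem_lvI.2 rfl) (mem_lvI.2 rfl)
  exact_mod_cast key

variable (F Ω) in
/-- the structure of the irreducible characters of the groups `GL_n(F)` -/
def glPSH : PSH (Irr F Ω) where
  deg := Irr.n
  lv := lvI F Ω
  mem_lv _ _ := mem_lvI
  one := oneI F Ω
  deg_zero := deg_zeroI
  m := mI
  m_deg _ _ _ h := mI_deg h
  m_one := mI_one
  m_comm := mI_comm
  m_assoc := mI_assoc
  hopf := mI_hopf

end

end ParkerGL
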