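import Pool.Agent.ParkerGL.BDefs
import Pool.Agent.ParkerGL.A01

/-!
# MP_6c3636_al, GL_n(q), module B01: the unitriangular group and the Whittaker space (helper7)

* `sd_mul`: for `u, v ∈ UG` and `e_j = Pi.single j 1`: `v e_j = e_j + (combination of the e_i, i < j)`, so the
  coordinate `j - 1` of `u (v e_j)` is `(u e_j)_{j-1} + (v e_j)_{j-1}`.
* `psi_val`: `ψ a ^ 2 = ψ (a + a) = ψ 0 = 1` in `ℤ`.
* `finrank_whS`: `e = |U|⁻¹ ∑_u ψ(sd u) ρ u` is the projection onto `whS` (`u ↦ ψ (sd u)` is a homomorphism `U → {1,-1}`),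
  its trace is its rank (`LinearMap.IsProj.trace` / `LinearMap.IsIdempotentElem...`; compare `Parker.av_proj` in P32).
* `Irr.dl_spec`: `v.φ` is the character of an irreducible representation; `finrank_whS` and `Irr.at_self`-type
  rewriting `v.cf.at v.n = v.φ` (`CF.of_val`).
* `bot_left`/`mem_UG_iff`: `u ∈ UG F k` iff `u e_j - e_j` is supported on the indices `< j`, for all `j`.
-/

namespace ParkerGL

noncomputable section

open Classical

variable {F : Type} [Field F] [Finite F]

namespace B01_aux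

theorem expand {k : ℕ} (u : Gn F k) (v : Fin k → F) (i : Fin k) :
    u v i = ∑ l : Fin k, v l * u (Pi.single l 1) i := by
  have h1 : v = ∑ l : Fin k, v l • (Pi.single l 1 : Fin k → F) := by
    ext i
    simp [Finset.sum_apply, Pi.single_apply]
  conv_lhs => rw [h1]
  rw [map_sum, Finset.sum_apply]
  refine Finset.sum_congr rfl (fun l _ => ?_)
  rw [map_smul]
  rfl

end B01_aux

open B01_aux

theorem mem_UG_iff {k : ℕ} {u : Gn F k} :
    u ∈ UG F k ↔ ∀ j i : Fin k, j ≤ i → u (Pi.single j 1) i = if i = j then 1 else 0 := by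
  constructor
  · intro h j i hji
    have h1 := h (j : ℕ) (Pi.single j 1) (fun l hl => by
      have : l ≠ j := by
        intro h2
        rw [h2] at hl
        exact lt_irrefl _ hl
      simp [Pi.single_apply, this]) i hji
    rw [h1, Pi.single_apply]
  · intro h m v hv i hi
    rw [expand u v i]
    have h2 : ∀ l : Fin k, v l * u (Pi.single l 1) i = if i = l then v l else 0 := by
      intro l
      by_cases hl : m < (l : ℕ)
      · rw [hv l hl, zero_mul]
        simp
      · have hli : l ≤ i := by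
          rw [Fin.le_def]
          omega
        rw [h l i hli]
        by_cases hil : i = l
        · simp [hil]
        · simp [hil]
    rw [Finset.sum_congr rfl (fun l _ => h2 l), Finset.sum_ite_eq]
    simp

theorem sd_mul {k : ℕ} {u v : Gn F k} (hu : u ∈ UG F k) (hv : v ∈ UG F k) :
    sd (u * v) = sd u + sd v := by
  rw [mem_UG_iff] at hu hv
  unfold sd
  rw [← Finset.sum_add_distrib]
  refine Finset.sum_congr rfl (fun i _ => ?_)
  rw [← Finset.sum_add_distrib]
  refine Finset.sum_congr rfl (fun j _ => ?_)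
  by_cases hij : (i : ℕ) + 1 = j
  · rw [if_pos hij, if_pos hij, if_pos hij]
    have hne : i ≠ j := by
      intro h
      rw [h] at hij
      omega
    have h1 : (u * v) (Pi.single j 1) i = u (v (Pi.single j 1)) i := rfl
    rw [h1, expand u (v (Pi.single j 1)) i]
    have h2 : ∀ l : Fin k, v (Pi.single j 1) l * u (Pi.single l 1) i =
        (if j = l then u (Pi.single j 1) i else 0) + (if i = l then v (Pi.single j 1) i else 0) := by
      intro l
      rcases lt_trichotomy (l : ℕ) (i : ℕ) with hl | hl | hl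
      · have a1 : l ≤ i := by rw [Fin.le_def]; omega
        have a2 : i ≠ l := by intro h; rw [h] at hl; omega
        have a3 : j ≠ l := by intro h; rw [h] at hij; omega
        rw [hu l i a1, if_neg a2, if_neg a3, if_neg a2]
        simp
      · have a1 : i = l := Fin.ext hl.symm
        have a3 : j ≠ l := by intro h; rw [h] at hij; omega
        rw [if_neg a3, if_pos a1, ← a1, hu i i le_rfl]
        simp
      · have a2 : i ≠ l := by intro h; rw [h] at hl; omega
        have a4 : j ≤ l := by rw [Fin.le_def]; omega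
        rw [hv j l a4, if_neg a2]
        by_cases hjl : j = l
        · rw [if_pos hjl, if_pos hjl.symm, ← hjl]
          simp
        · rw [if_neg hjl, if_neg (fun h => hjl h.symm)]
          simp
    rw [Finset.sum_congr rfl (fun l _ => h2 l), Finset.sum_add_distrib, Finset.sum_ite_eq,
      Finset.sum_ite_eq]
    simp
  · rw [if_neg hij, if_neg hij, if_neg hij, add_zero]

theorem sd_one {k : ℕ} : sd (1 : Gn F k) = 0 := by
  unfold sd
  refine Finset.sum_eq_zero (fun i _ => Finset.sum_eq_zero (fun j _ => ?_))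
  by_cases hij : (i : ℕ) + 1 = j
  · rw [if_pos hij]
    have hne : i ≠ j := by
      intro h
      rw [h] at hij
      omega
    show (Pi.single j 1 : Fin k → F) i = 0
    simp [Pi.single_apply, hne]
  · rw [if_neg hij]

theorem sd_inv {k : ℕ} {u : Gn F k} (hu : u ∈ UG F k) : sd u⁻¹ = - sd u := by
  have h := sd_mul ((UG F k).inv_mem hu) hu
  rw [inv_mul_cancel, sd_one] at h
  exact eq_neg_of_add_eq_zero_left h.symm

theorem psi_val [CharP F 2] (ψ : AddChar F ℤ) (a : F) : ψ a = 1 ∨ ψ a = -1 := by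
  have h : ψ a * ψ a = 1 := by
    rw [← AddChar.map_add_eq_mul, CharTwo.add_self_eq_zero, AddChar.map_zero_eq_one]
  exact mul_self_eq_one_iff.1 h

theorem psi_neg [CharP F 2] (ψ : AddChar F ℤ) (a : F) : ψ (-a) = ψ a := by
  rw [CharTwo.neg_eq]

/-- the sum of a nontrivial character -/
theorem psi_sum (ψ : AddChar F ℤ) (hψ : ∃ a, ψ a ≠ 1) : ∑ᶠ a : F, ψ a = 0 := by
  let _ := Fintype.ofFinite F
  obtain ⟨a, ha⟩ := hψ
  rw [finsum_eq_sum_of_fintype]
  have h : ψ a * ∑ b, ψ b = ∑ b, ψ b := by
    rw [Finset.mul_sum]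
    simp_rw [← AddChar.map_add_eq_mul]
    exact Fintype.sum_equiv (Equiv.addLeft a) _ _ (fun b => rfl)
  have h2 : (ψ a - 1) * ∑ b, ψ b = 0 := by
    rw [sub_mul, h, one_mul, sub_self]
  rcases mul_eq_zero.1 h2 with h3 | h3
  · exact absurd (sub_eq_zero.1 h3) ha
  · exact h3

/-- there is a nontrivial character -/
theorem exists_psi [CharP F 2] : ∃ ψ : AddChar F ℤ, ∃ a, ψ a ≠ 1 := by
  let _ : Algebra (ZMod 2) F := ZMod.algebra F 2
  obtain ⟨f, hf⟩ : ∃ f : Module.Dual (ZMod 2) F, f 1 ≠ 0 := by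
    by_contra h
    push Not at h
    exact one_ne_zero ((Module.forall_dual_apply_eq_zero_iff (ZMod 2) (1 : F)).1 h)
  have key : ∀ x y : ZMod 2, (if x + y = 0 then (1 : ℤ) else -1) =
      (if x = 0 then 1 else -1) * (if y = 0 then 1 else -1) := by decide
  refine ⟨⟨fun a => if f a = 0 then 1 else -1, by simp, fun a b => ?_⟩, 1, ?_⟩
  · rw [map_add]
    exact key _ _
  · show (if f 1 = 0 then (1 : ℤ) else -1) ≠ 1
    rw [if_neg hf]
    decide

variable {L : Type} [Field L] [CharZero L] {X : Type} [AddCommGroup X] [Module L X]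
  [FiniteDimensional L X]

theorem finrank_whS [CharP F 2] {k : ℕ} (ψ : AddChar F ℤ) (ρ : Representation L (Gn F k) X) :
    (Module.finrank L (whS ψ ρ) : L) =
      (Nat.card (UG F k) : L)⁻¹ * ∑ᶠ u : UG F k, ((ψ (sd (u : Gn F k)) : ℤ) : L) *
        ρ.character (u : Gn F k) := by
  let _ := Fintype.ofFinite (UG F k)
  have hc : (Fintype.card (UG F k) : L) ≠ 0 := by
    rw [Fintype.card_eq_nat_card]
    exact Nat.cast_ne_zero.2 Nat.card_pos.ne'
  let _ : Invertible (Fintype.card (UG F k) : L) := invertibleOfNonzero hc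
  let σ : Representation L (UG F k) X :=
    { toFun := fun u => ((ψ (sd (u : Gn F k)) : ℤ) : L) • ρ (u : Gn F k)
      map_one' := by
        have h1 : ((1 : UG F k) : Gn F k) = 1 := rfl
        rw [h1, sd_one, AddChar.map_zero_eq_one, map_one, Int.cast_one, one_smul]
      map_mul' := fun x y => by
        have h1 : ((x * y : UG F k) : Gn F k) = (x : Gn F k) * (y : Gn F k) := rfl
        rw [h1, sd_mul x.2 y.2, AddChar.map_add_eq_mul, map_mul, Int.cast_mul,
          smul_mul_smul_comm] }
  have hσ : ∀ u : UG F k, σ u = ((ψ (sd (u : Gn F k)) : ℤ) : L) • ρ (u : Gn F k) := fun _ => rfl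
  have hinv : σ.invariants = whS ψ ρ := by
    ext x
    rw [Representation.mem_invariants]
    have hx : ∀ u : UG F k, σ u x = x ↔ ρ (u : Gn F k) x = ((ψ (sd (u : Gn F k)) : ℤ) : L) • x := by
      intro u
      rw [hσ, LinearMap.smul_apply]
      rcases psi_val ψ (sd (u : Gn F k)) with h | h
      · rw [h, Int.cast_one, one_smul, one_smul]
      · rw [h, Int.cast_neg, Int.cast_one, neg_smul, one_smul, neg_smul, one_smul]
        constructor
        · intro h1
          rw [← h1, neg_neg]
          rw [h1]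
        · intro h1
          rw [h1, neg_neg]
    constructor
    · intro h u hu
      exact (hx ⟨u, hu⟩).1 (h ⟨u, hu⟩)
    · intro h u
      exact (hx u).2 (h u u.2)
  have htr := (σ.isProj_averageMap).trace
  rw [← hinv, ← htr]
  have hav : σ.averageMap = (Nat.card (UG F k) : L)⁻¹ • ∑ u : UG F k, σ u := by
    rw [Representation.averageMap, GroupAlgebra.average, map_smul, map_sum, invOf_eq_inv,
      Fintype.card_eq_nat_card]
    congr 1
    refine Finset.sum_congr rfl fun g _ => ?_
    simp
  rw [hav, map_smul, map_sum, smul_eq_mul, finsum_eq_sum_of_fintype]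
  congr 1
  refine Finset.sum_congr rfl fun u _ => ?_
  rw [hσ, map_smul, smul_eq_mul]
  rfl

variable {Ω : Type} [Field Ω] [IsAlgClosed Ω] [CharZero Ω]

namespace B01_aux

theorem dl_of [CharP F 2] (ψ : AddChar F ℤ) (v : Irr F Ω) {X : Type} [AddCommGroup X]
    [Module Ω X] [FiniteDimensional Ω X] (ρ : Representation Ω (Gn F v.n) X)
    (h : ρ.character = v.φ) : v.cf.dl ψ v.n = (Module.finrank Ω (whS ψ ρ) : Ω) := by
  rw [finrank_whS, CF.dl]
  have h1 : v.cf.at v.n = v.φ := CF.of_val v.φ v.cls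
  rw [h1, h]

theorem exists_dl [CharP F 2] (ψ : AddChar F ℤ) (v : Irr F Ω) :
    ∃ k : ℕ, (k : Ω) = v.cf.dl ψ v.n := by
  obtain ⟨n, ρ, -, hρ⟩ := Parker.mem_irr.1 v.mem
  exact ⟨_, (dl_of ψ v ρ hρ).symm⟩

end B01_aux

theorem Irr.dl_spec [CharP F 2] (ψ : AddChar F ℤ) (v : Irr F Ω) :
    (v.dl ψ : Ω) = v.cf.dl ψ v.n := by
  have h := B01_aux.exists_dl ψ v
  rw [Irr.dl, dif_pos h]
  exact h.choose_spec

theorem Irr.dl_eq [CharP F 2] (ψ : AddChar F ℤ) (v : Irr F Ω) {X : Type} [AddCommGroup X]
    [Module Ω X] [FiniteDimensional Ω X] (ρ : Representation Ω (Gn F v.n) X)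
    (h : ρ.character = v.φ) : v.dl ψ = Module.finrank Ω (whS ψ ρ) := by
  have h1 : (v.dl ψ : Ω) = (Module.finrank Ω (whS ψ ρ) : Ω) := by
    rw [Irr.dl_spec, B01_aux.dl_of ψ v ρ h]
  exact_mod_cast h1

end

end ParkerGL
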