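import Pool.Agent.ParkerGL.B01

/-!
# MP_6c3636_al, GL_n(q), module B02: the Whittaker functional is multiplicative (helper7)

`V = F^n`, `n = a + b`, `F_i = {v : v j = 0 for j ≥ i}`, `U = UG F n`. The left side is `|U|⁻¹ ∑_W S(W)`, `W` over the
subspaces of dimension `a` (others contribute `0`), `S(W) = ∑_{u ∈ U, u W = W} ψ(sd u) f(u|W) g(u|V/W)`.

(1) Let `w ∈ W ∩ F_{i+1}`, and `λ : V →ₗ F` with `λ = 0` on `W` and on `F_{i+1}`. Then `u₀ : v ↦ v + λ(v) w` is in `U`
(it maps `e_j` to `e_j + λ(e_j) w`, `λ(e_j) = 0` for `j ≤ i`), it is trivial on `W` and on `V/W`, and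
`sd (u₀) = w_i λ(e_{i+1})` (coordinates `0, …, n-1`). Replacing `u` by `u₀ u` (same restriction to `W` and `V / W`, `sd_mul`) gives
`S(W) = ψ(w_i λ(e_{i+1})) S(W)`. Both sides can be scaled, `ψ` is nontrivial, so `S(W) = 0` if for some `i`
there are such `w`, `λ` with `w_i ≠ 0`, `λ(e_{i+1}) ≠ 0`; i.e. if `W ∩ F_{i+1} ≠ W ∩ F_i` and `e_{i+1} ∉ W + F_{i+1}`
(equivalently `W ∩ F_{i+2} = W ∩ F_{i+1}`).
(2) So if `S(W) ≠ 0`, then `W ∩ F_{i+1} ≠ W ∩ F_i` implies `W ∩ F_{i+2} ≠ W ∩ F_{i+1}`: the jumps are the last `a` indices, so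
`W ∩ F_b = 0`.
(3) The `W` of dimension `a` with `W ∩ F_b = 0` are the images of `W₀ = {v : v j = 0 for j < b}` under the elements
`blk (ext 1 1 t)`, `t ∈ Hom(F^a, F^b)` (blocks `n = b + a`), which are in `U`, with `sd` only depending on the entry
`(b-1, b)` of `t`. For each such `W = u₁ W₀`: `S(W) = S(W₀)` by conjugation (`ψ ∘ sd` is a homomorphism on `U`, invariant under conjugation in `U`).
There are `|Hom(F^a, F^b)| = q^(a b)` of them.
(4) The stabilizer of `W₀` in `U` is the group of the `blk (ext u' u 0)`, `u' ∈ UG F b`, `u ∈ UG F a`, `sd = sd u' + sd u`, the restriction to `W₀` is `u`, the action on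
`V/W₀` is `u'`: `S(W₀) = (∑_u ψ(sd u) f(u)) (∑_{u'} ψ(sd u') g(u'))`. `|U| = q^(a b) |UG F a| |UG F b|`.
-/

namespace ParkerGL

noncomputable section

open Classical

variable {F : Type} [Field F] [Finite F] [CharP F 2] {Ω : Type} [Field Ω] [IsAlgClosed Ω]
  [CharZero Ω]

namespace B02_aux

section Q

variable {F : Type} [Field F] {Ω : Type} [Field Ω]

/-- the term of `W` in the product -/
def Q (f g : CF F Ω) {V : Type} [AddCommGroup V] [Module F V] [Finite V] (x : GV F V)
    (W : Submodule F V) : Ω :=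
  if h : Inv x W then f.val W (rst x W h) * g.val (V ⧸ W) (quo x W h) else 0

theorem mul_val (f g : CF F Ω) {V : Type} [AddCommGroup V] [Module F V] [Finite V]
    (x : GV F V) : (f.mul g).val V x = ∑ᶠ W : Submodule F V, Q f g x W := rfl

theorem Q_iso (f g : CF F Ω) {V V' : Type} [AddCommGroup V] [Module F V] [Finite V]
    [AddCommGroup V'] [Module F V'] [Finite V'] (e : V ≃ₗ[F] V') (x : GV F V) (y : GV F V')
    (hxy : ∀ v, e (x v) = y (e v)) (U : Submodule F V) :
    Q f g y (U.map (e : V →ₗ[F] V')) = Q f g x U := by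
  unfold Q
  by_cases h : Inv x U
  · have h' : Inv y (U.map (e : V →ₗ[F] V')) := (inv_map e x y hxy U).2 h
    rw [dif_pos h, dif_pos h']
    congr 1
    · symm
      refine f.iso _ _ (e.submoduleMap U) _ _ ?_
      intro v
      apply Subtype.ext
      exact hxy v
    · symm
      refine g.iso _ _ (Submodule.Quotient.equiv U (U.map (e : V →ₗ[F] V')) e rfl) _ _ ?_
      intro v
      obtain ⟨v, rfl⟩ := Submodule.mkQ_surjective U v
      show (Submodule.Quotient.mk (e (x v)) : V' ⧸ U.map (e : V →ₗ[F] V')) =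
        Submodule.Quotient.mk (y (e v))
      rw [hxy]
  · have h' : ¬ Inv y (U.map (e : V →ₗ[F] V')) := fun h1 => h ((inv_map e x y hxy U).1 h1)
    rw [dif_neg h, dif_neg h']

/-- an automorphism which is trivial on `W` and on `V / W` does not change the term of `W` -/
theorem Q_mul (f g : CF F Ω) {V : Type} [AddCommGroup V] [Module F V] [Finite V]
    (u₀ x : GV F V) (W : Submodule F V) (h1 : ∀ w ∈ W, u₀ w = w) (h2 : ∀ v, u₀ v - v ∈ W) :
    Q f g (u₀ * x) W = Q f g x W := by
  have hinv : Inv (u₀ * x) W ↔ Inv x W := by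
    rw [inv_iff, inv_iff]
    constructor
    · intro h w hw
      have h3 := h w hw
      have h4 := h2 (x w)
      have h5 : x w = u₀ (x w) - (u₀ (x w) - x w) := by abel
      rw [h5]
      exact W.sub_mem h3 h4
    · intro h w hw
      show u₀ (x w) ∈ W
      rw [h1 _ (h w hw)]
      exact h w hw
  unfold Q
  by_cases h : Inv x W
  · have h' := hinv.2 h
    rw [dif_pos h, dif_pos h']
    congr 1
    · congr 1
      apply LinearEquiv.ext
      intro w
      apply Subtype.ext
      show u₀ (x w) = x w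
      exact h1 _ ((inv_iff x W).1 h w w.2)
    · congr 1
      apply LinearEquiv.ext
      intro v
      obtain ⟨v, rfl⟩ := Submodule.mkQ_surjective W v
      show (Submodule.Quotient.mk (u₀ (x v)) : V ⧸ W) = Submodule.Quotient.mk (x v)
      rw [Submodule.Quotient.eq]
      exact h2 _
  · rw [dif_neg h, dif_neg (fun h' => h (hinv.1 h'))]

/-- the term of `0 × C` -/
theorem Q_ker (f g : CF F Ω) {A C : Type} [AddCommGroup A] [Module F A] [Finite A]
    [AddCommGroup C] [Module F C] [Finite C] (y : GV F A) (z : GV F C) (t : C →ₗ[F] A) :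
    Q f g (ext y z t) (LinearMap.ker (LinearMap.fst F A C)) =
      if t = 0 then f.val C z * g.val A y else 0 := by
  have hinv : Inv (ext y z t) (LinearMap.ker (LinearMap.fst F A C)) ↔ t = 0 := by
    rw [inv_iff]
    constructor
    · intro h
      ext c
      have h1 := h (0, c) (by simp)
      rw [LinearMap.mem_ker, ext_apply] at h1
      simpa using h1
    · rintro rfl p hp
      rw [LinearMap.mem_ker] at hp ⊢
      rw [ext_apply]
      simp only [LinearMap.fst_apply] at hp ⊢
      rw [hp]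
      simp
  unfold Q
  by_cases h : t = 0
  · have h' := hinv.2 h
    rw [dif_pos h', if_pos h]
    subst h
    congr 1
    · symm
      let e : C ≃ₗ[F] LinearMap.ker (LinearMap.fst F A C) :=
        { toFun := fun c => ⟨(0, c), by simp⟩
          map_add' := fun c d => by ext <;> simp
          map_smul' := fun r c => by ext <;> simp
          invFun := fun p => (p : A × C).2
          left_inv := fun c => rfl
          right_inv := fun p => by
            have hp := p.2
            rw [LinearMap.mem_ker, LinearMap.fst_apply] at hp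
            apply Subtype.ext
            exact Prod.ext hp.symm rfl }
      refine f.iso _ _ e _ _ ?_
      intro c
      apply Subtype.ext
      show ((0 : A), z c) = ext y z 0 (0, c)
      rw [ext_apply]
      simp
    · refine g.iso _ _ ((LinearMap.fst F A C).quotKerEquivOfSurjective Prod.fst_surjective) _ _ ?_
      intro v
      obtain ⟨v, rfl⟩ := Submodule.mkQ_surjective _ v
      show (ext y z (0 : C →ₗ[F] A) v).1 = y v.1
      rw [ext_apply]
      simp
  · rw [dif_neg (fun h' => h (hinv.1 h')), if_neg h]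

end Q

section blk

variable {F : Type} [Field F] [Finite F]

theorem blk_pe {a b n : ℕ} (h : b + a = n) (x : GV F ((Fin b → F) × (Fin a → F)))
    (p : (Fin b → F) × (Fin a → F)) : blk F h x (pe F h p) = pe F h (x p) := by
  show pe F h (x ((pe F h).symm (pe F h p))) = _
  rw [LinearEquiv.symm_apply_apply]

theorem blk_symm_pe {a b n : ℕ} (h : b + a = n) (u : Gn F n)
    (p : (Fin b → F) × (Fin a → F)) : pe F h ((blk F h).symm u p) = u (pe F h p) := by
  show pe F h ((pe F h).symm (u ((pe F h).symm.symm p))) = _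
  rw [LinearEquiv.apply_symm_apply]
  rfl

theorem mem_blk {a b n : ℕ} (h : b + a = n) (u' : Gn F b) (u : Gn F a)
    (t : (Fin a → F) →ₗ[F] (Fin b → F)) :
    blk F h (ext u' u t) ∈ UG F n ↔ u' ∈ UG F b ∧ u ∈ UG F a := by
  constructor
  · intro hx
    constructor
    · intro m v hv i hi
      have h1 := hx m (pe F h (v, 0)) (by
        intro j hj
        by_cases hjb : (j : ℕ) < b
        · rw [pe_apply_left h _ _ hjb]; exact hv _ hj
        · rw [pe_apply_right h _ _ (not_lt.1 hjb)]; rfl) ⟨i, by omega⟩ hi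
      rw [blk_pe, pe_apply_left h _ _ i.2, pe_apply_left h _ _ i.2, ext_apply] at h1
      simpa using h1
    · intro m v hv i hi
      have h1 := hx (b + m) (pe F h (0, v)) (by
        intro j hj
        rw [pe_apply_right h _ _ (by omega)]
        exact hv _ (by show m < (j : ℕ) - b; omega)) ⟨b + i, by omega⟩
        (by show b + m ≤ b + (i : ℕ); omega)
      rw [blk_pe, pe_apply_right h _ _ (by show b ≤ b + (i : ℕ); omega),
        pe_apply_right h _ _ (by show b ≤ b + (i : ℕ); omega), ext_apply] at h1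
      have h2 : (⟨((⟨b + i, by omega⟩ : Fin n) : ℕ) - b, by
          show b + (i : ℕ) - b < a; omega⟩ : Fin a) = i := by
        apply Fin.ext
        show b + (i : ℕ) - b = i
        omega
      rw [h2] at h1
      exact h1
  · rintro ⟨hu', hu⟩ m V hV j hj
    obtain ⟨p, rfl⟩ := (pe F h).surjective V
    rw [blk_pe, ext_apply]
    by_cases hmb : m < b
    · have hp2 : p.2 = 0 := by
        funext i
        have h1 := hV ⟨b + i, by omega⟩ (by show m < b + (i : ℕ); omega)
        rw [pe_apply_right h _ _ (by show b ≤ b + (i : ℕ); omega)] at h1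
        have h2 : (⟨((⟨b + i, by omega⟩ : Fin n) : ℕ) - b, by
            show b + (i : ℕ) - b < a; omega⟩ : Fin a) = i := by
          apply Fin.ext
          show b + (i : ℕ) - b = i
          omega
        rw [h2] at h1
        exact h1
      by_cases hjb : (j : ℕ) < b
      · rw [pe_apply_left h _ _ hjb, pe_apply_left h _ _ hjb]
        simp only [hp2, map_zero, add_zero]
        refine hu' m p.1 ?_ ⟨j, hjb⟩ hj
        intro i hi
        have h1 := hV ⟨i, by omega⟩ hi
        rw [pe_apply_left h _ _ i.2] at h1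
        exact h1
      · rw [pe_apply_right h _ _ (not_lt.1 hjb), pe_apply_right h _ _ (not_lt.1 hjb)]
        simp only [hp2, map_zero]
    · have hjb : b ≤ (j : ℕ) := by omega
      rw [pe_apply_right h _ _ hjb, pe_apply_right h _ _ hjb]
      refine hu (m - b) p.2 ?_ _ (by show m - b ≤ (j : ℕ) - b; omega)
      intro i hi
      have h1 := hV ⟨b + i, by omega⟩ (by show m < b + (i : ℕ); omega)
      rw [pe_apply_right h _ _ (by show b ≤ b + (i : ℕ); omega)] at h1
      have h2 : (⟨((⟨b + i, by omega⟩ : Fin n) : ℕ) - b, by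
          show b + (i : ℕ) - b < a; omega⟩ : Fin a) = i := by
        apply Fin.ext
        show b + (i : ℕ) - b = i
        omega
      rw [h2] at h1
      exact h1

theorem exists_blk {a b n : ℕ} (h : b + a = n) {u : Gn F n} (hu : u ∈ UG F n) :
    ∃ u' ∈ UG F b, ∃ v ∈ UG F a, ∃ t, u = blk F h (ext u' v t) := by
  obtain ⟨y, z, t, he⟩ := exists_ext ((blk F h).symm u) (by
    intro x
    have h1 := blk_symm_pe h u (x, 0)
    have h2 := hu b (pe F h (x, 0)) (by
      intro i hi
      rw [pe_apply_right h _ _ (le_of_lt hi)]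
      rfl)
    funext i
    have h3 := h2 ⟨b + i, by omega⟩ (by show b ≤ b + (i : ℕ); omega)
    rw [← h1, pe_apply_right h _ _ (by show b ≤ b + (i : ℕ); omega),
      pe_apply_right h _ _ (by show b ≤ b + (i : ℕ); omega)] at h3
    have h4 : (⟨((⟨b + i, by omega⟩ : Fin n) : ℕ) - b, by
        show b + (i : ℕ) - b < a; omega⟩ : Fin a) = i := by
      apply Fin.ext
      show b + (i : ℕ) - b = i
      omega
    rw [h4] at h3
    exact h3)
  have he2 : u = blk F h (ext y z t) := by
    rw [← he, MulEquiv.apply_symm_apply]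
  have h5 : blk F h (ext y z t) ∈ UG F n := he2 ▸ hu
  rw [mem_blk] at h5
  exact ⟨y, h5.1, z, h5.2, t, he2⟩

theorem sd_blk {a b n : ℕ} (h : b + a = n) (u' : Gn F b) (u : Gn F a) :
    sd (blk F h (ext u' u 0)) = sd u' + sd u := by
  subst h
  have hl : ∀ j : Fin b, (Pi.single (Fin.castAdd a j) 1 : Fin (b + a) → F) =
      pe F rfl (Pi.single j 1, 0) := by
    intro j
    funext i
    by_cases hi : (i : ℕ) < b
    · rw [pe_apply_left rfl _ _ hi]
      show _ = (Pi.single j 1 : Fin b → F) ⟨i, hi⟩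
      by_cases hij : (i : ℕ) = j
      · have h1 : i = Fin.castAdd a j := Fin.ext hij
        have h2 : (⟨i, hi⟩ : Fin b) = j := Fin.ext hij
        rw [h2, h1, Pi.single_eq_same, Pi.single_eq_same]
      · rw [Pi.single_eq_of_ne (fun hc => hij (by rw [hc]; rfl)),
          Pi.single_eq_of_ne (fun hc => hij (by have := congrArg Fin.val hc; exact this))]
    · rw [pe_apply_right rfl _ _ (not_lt.1 hi), Pi.single_eq_of_ne]
      · rfl
      · intro hc
        apply hi
        rw [hc]
        exact j.2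
  have hr : ∀ j : Fin a, (Pi.single (Fin.natAdd b j) 1 : Fin (b + a) → F) =
      pe F rfl (0, Pi.single j 1) := by
    intro j
    funext i
    by_cases hi : (i : ℕ) < b
    · rw [pe_apply_left rfl _ _ hi, Pi.single_eq_of_ne]
      · rfl
      · intro hc
        rw [hc] at hi
        have : ((Fin.natAdd b j : Fin (b + a)) : ℕ) = b + j := rfl
        omega
    · rw [pe_apply_right rfl _ _ (not_lt.1 hi)]
      show _ = (Pi.single j 1 : Fin a → F) ⟨(i : ℕ) - b, by omega⟩
      by_cases hij : (i : ℕ) = b + j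
      · have h1 : i = Fin.natAdd b j := Fin.ext hij
        have h2 : (⟨(i : ℕ) - b, by omega⟩ : Fin a) = j := Fin.ext (by show (i : ℕ) - b = j; omega)
        rw [h2, h1, Pi.single_eq_same, Pi.single_eq_same]
      · rw [Pi.single_eq_of_ne (fun hc => hij (by rw [hc]; rfl)), Pi.single_eq_of_ne]
        intro hc
        have := congrArg Fin.val hc
        have h3 : (i : ℕ) - b = j := this
        omega
  unfold sd
  rw [Fin.sum_univ_add]
  congr 1
  · refine Finset.sum_congr rfl fun i _ => ?_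
    rw [Fin.sum_univ_add]
    have h0 : ∑ j : Fin a, (if ((Fin.castAdd a i : Fin (b + a)) : ℕ) + 1 =
        (Fin.natAdd b j : Fin (b + a)) then
        (blk F rfl (ext u' u 0)) (Pi.single (Fin.natAdd b j) 1) (Fin.castAdd a i) else 0) = 0 := by
      refine Finset.sum_eq_zero fun j _ => ?_
      rw [hr, blk_pe, ext_apply, pe_apply_left rfl _ _ i.2]
      simp
    rw [h0, add_zero]
    refine Finset.sum_congr rfl fun j _ => ?_
    rw [hl, blk_pe, ext_apply, pe_apply_left rfl _ _ i.2]
    simp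
  · refine Finset.sum_congr rfl fun i _ => ?_
    rw [Fin.sum_univ_add]
    have h0 : ∑ j : Fin b, (if ((Fin.natAdd b i : Fin (b + a)) : ℕ) + 1 =
        (Fin.castAdd a j : Fin (b + a)) then
        (blk F rfl (ext u' u 0)) (Pi.single (Fin.castAdd a j) 1) (Fin.natAdd b i) else 0) = 0 := by
      refine Finset.sum_eq_zero fun j _ => ?_
      rw [if_neg]
      show ¬ (b + (i : ℕ) + 1 = j)
      omega
    rw [h0, zero_add]
    refine Finset.sum_congr rfl fun j _ => ?_
    rw [hr, blk_pe, ext_apply, pe_apply_right rfl _ _ (by show b ≤ b + (i : ℕ); omega)]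
    have h4 : (⟨((Fin.natAdd b i : Fin (b + a)) : ℕ) - b, by
        show b + (i : ℕ) - b < a; omega⟩ : Fin a) = i := by
      apply Fin.ext
      show b + (i : ℕ) - b = i
      omega
    rw [h4]
    by_cases hij : (i : ℕ) + 1 = j
    · rw [if_pos hij, if_pos]
      show b + (i : ℕ) + 1 = b + j
      omega
    · rw [if_neg hij, if_neg]
      show ¬ (b + (i : ℕ) + 1 = b + j)
      omega

end blk

section tv

variable {F : Type} [Field F]

/-- transvections -/
def tv {V : Type} [AddCommGroup V] [Module F V] (l : V →ₗ[F] F) (w : V) (h : l w = 0) :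
    GV F V where
  toFun v := v + l v • w
  map_add' x y := by rw [map_add, add_smul]; abel
  map_smul' c x := by rw [map_smul, RingHom.id_apply, smul_add, smul_eq_mul, mul_smul]
  invFun v := v - l v • w
  left_inv v := by
    show v + l v • w - l (v + l v • w) • w = v
    rw [map_add, map_smul, h, smul_zero, add_zero]; abel
  right_inv v := by
    show v - l v • w + l (v - l v • w) • w = v
    rw [map_sub, map_smul, h, smul_zero, sub_zero]; abel

theorem tv_apply {V : Type} [AddCommGroup V] [Module F V] (l : V →ₗ[F] F) (w : V) (h : l w = 0)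
    (v : V) : tv l w h v = v + l v • w := rfl

variable [Finite F]

theorem tv_mem {n : ℕ} {l : (Fin n → F) →ₗ[F] F} {w : Fin n → F} (h : l w = 0) {i : ℕ}
    (hw : ∀ j : Fin n, i < j → w j = 0)
    (hl : ∀ v : Fin n → F, (∀ j : Fin n, i < j → v j = 0) → l v = 0) : tv l w h ∈ UG F n := by
  intro m v hv j hj
  rw [tv_apply, Pi.add_apply, Pi.smul_apply]
  by_cases hmi : m ≤ i
  · rw [hl v (fun k hk => hv k (by omega)), zero_smul, add_zero]
  · rw [hw j (by omega), smul_zero, add_zero]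

theorem sd_tv {n : ℕ} {l : (Fin n → F) →ₗ[F] F} {w : Fin n → F} (h : l w = 0) {i : ℕ}
    (hi : i + 1 < n) (hw : ∀ j : Fin n, i < j → w j = 0)
    (hl : ∀ v : Fin n → F, (∀ j : Fin n, i < j → v j = 0) → l v = 0) :
    sd (tv l w h) = l (Pi.single ⟨i + 1, hi⟩ 1) * w ⟨i, by omega⟩ := by
  unfold sd
  rw [Finset.sum_eq_single (⟨i, by omega⟩ : Fin n)]
  · rw [Finset.sum_eq_single (⟨i + 1, hi⟩ : Fin n)]
    · rw [if_pos rfl, tv_apply, Pi.add_apply, Pi.smul_apply, smul_eq_mul, Pi.single_eq_of_ne,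
        zero_add]
      intro hc
      have := congrArg Fin.val hc
      simp at this
    · intro j _ hj
      rw [if_neg]
      intro hc
      exact hj (Fin.ext hc.symm)
    · intro hc; exact absurd (Finset.mem_univ _) hc
  · intro k _ hk
    refine Finset.sum_eq_zero fun j _ => ?_
    by_cases hkj : (k : ℕ) + 1 = j
    · rw [if_pos hkj, tv_apply, Pi.add_apply, Pi.smul_apply, smul_eq_mul, Pi.single_eq_of_ne,
        zero_add]
      · rcases lt_or_ge i (k : ℕ) with hik | hik
        · rw [hw k hik, mul_zero]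
        · have hlt : (k : ℕ) < i := by
            rcases lt_or_eq_of_le hik with h1 | h1
            · exact h1
            · exact absurd (Fin.ext h1) hk
          rw [hl _ (fun m hm => by
            rw [Pi.single_eq_of_ne]
            intro hc
            rw [hc] at hm
            omega), zero_mul]
      · intro hc
        rw [hc] at hkj
        omega
    · rw [if_neg hkj]
  · intro hc; exact absurd (Finset.mem_univ _) hc

/-- `F_i` -/
def FS (F : Type) [Field F] (n i : ℕ) : Submodule F (Fin n → F) where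
  carrier := {v | ∀ j : Fin n, i ≤ j → v j = 0}
  add_mem' := by
    intro x y hx hy j hj
    rw [Pi.add_apply, hx j hj, hy j hj, add_zero]
  zero_mem' := fun _ _ => rfl
  smul_mem' := by
    intro c x hx j hj
    rw [Pi.smul_apply, hx j hj, smul_zero]

theorem FS_finrank (n i : ℕ) : Module.finrank F (FS F n i) ≤ i := by
  by_cases hin : i ≤ n
  · have h1 : FS F n i ≤ Submodule.span F (Set.range fun j : Fin i =>
        (Pi.single (⟨j, by omega⟩ : Fin n) 1 : Fin n → F)) := by
      intro v hv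
      have h2 : v = ∑ j : Fin n, v j • (Pi.single j 1 : Fin n → F) := pi_eq_sum_univ' v
      rw [h2]
      refine Submodule.sum_mem _ fun j _ => ?_
      by_cases hj : (j : ℕ) < i
      · refine Submodule.smul_mem _ _ (Submodule.subset_span ⟨⟨j, hj⟩, ?_⟩)
        rfl
      · rw [hv j (not_lt.1 hj), zero_smul]
        exact Submodule.zero_mem _
    refine (Submodule.finrank_mono h1).trans ?_
    refine (finrank_range_le_card _).trans ?_
    rw [Fintype.card_fin]
  · refine (Submodule.finrank_le _).trans ?_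
    rw [Module.finrank_fin_fun]
    omega

/-- the combinatorial core: a subspace which meets `F_b` has a jump followed by a non-jump -/
theorem exists_jump {a b : ℕ} {W : Submodule F (Fin (a + b) → F)} (hW : Module.finrank F W = a)
    {v : Fin (a + b) → F} (hv : v ∈ W) (hv0 : v ≠ 0)
    (hvb : ∀ j : Fin (a + b), b ≤ j → v j = 0) :
    ∃ (i : ℕ) (hi : i + 1 < a + b) (w : Fin (a + b) → F), w ∈ W ∧
      (∀ j : Fin (a + b), i < j → w j = 0) ∧ w ⟨i, by omega⟩ ≠ 0 ∧
      (Pi.single (⟨i + 1, hi⟩ : Fin (a + b)) 1 : Fin (a + b) → F) ∉ W ⊔ FS F (a + b) (i + 1) := by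
  by_contra hcon
  push Not at hcon
  -- `J i` for large `i`
  let J : ℕ → Prop := fun i => ∃ w ∈ W, (∀ j : Fin (a + b), i < j → w j = 0) ∧
    ∃ h : i < a + b, w ⟨i, h⟩ ≠ 0
  have hJ0 : ∃ i, i < b ∧ J i := by
    obtain ⟨j0, hj0⟩ := Function.ne_iff.1 hv0
    have hne : (Finset.univ.filter fun j : Fin (a + b) => v j ≠ 0).Nonempty :=
      ⟨j0, by rw [Finset.mem_filter]; exact ⟨Finset.mem_univ _, hj0⟩⟩
    obtain ⟨i, hi, hmax⟩ := Finset.exists_max_image _ (fun j : Fin (a + b) => (j : ℕ)) hne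
    rw [Finset.mem_filter] at hi
    refine ⟨i, ?_, v, hv, ?_, i.2, hi.2⟩
    · by_contra hc
      exact hi.2 (hvb i (not_lt.1 hc))
    · intro j hj
      by_contra hc
      have := hmax j (by rw [Finset.mem_filter]; exact ⟨Finset.mem_univ _, hc⟩)
      omega
  obtain ⟨i, hib, hJi⟩ := hJ0
  have hstep : ∀ k, k + 1 < a + b → J k → J (k + 1) := by
    rintro k hk ⟨w, hw1, hw2, _, hw4⟩
    have h1 := hcon k hk w hw1 hw2 hw4
    obtain ⟨y, hy, z, hz, hyz⟩ := Submodule.mem_sup.1 h1
    refine ⟨y, hy, ?_, hk, ?_⟩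
    · intro j hj
      have h2 := congrFun hyz j
      rw [Pi.add_apply, hz j (by omega), add_zero, Pi.single_eq_of_ne] at h2
      · exact h2
      · intro hc; rw [hc] at hj; simp at hj
    · have h2 := congrFun hyz ⟨k + 1, hk⟩
      rw [Pi.add_apply, hz _ (le_refl _), add_zero, Pi.single_eq_same] at h2
      rw [h2]
      exact one_ne_zero
  have hJall : ∀ k, i ≤ k → k < a + b → J k := by
    intro k hk
    induction k, hk using Nat.le_induction with
    | base => intro _; exact hJi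
    | succ k hk ih => intro h; exact hstep k h (ih (by omega))
  have hspan : ∀ m : ℕ, ∀ v : Fin (a + b) → F, (∀ j : Fin (a + b), m ≤ j → v j = 0) →
      v ∈ W ⊔ FS F (a + b) i := by
    intro m
    induction m with
    | zero =>
      intro v hv
      have : v = 0 := by funext j; exact hv j (Nat.zero_le _)
      rw [this]
      exact Submodule.zero_mem _
    | succ m ih =>
      intro v hv
      by_cases hmi : m < i
      · exact Submodule.mem_sup_right (fun j hj => hv j (by omega))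
      · by_cases hmn : m < a + b
        · obtain ⟨w, hw1, hw2, _, hw4⟩ := hJall m (by omega) hmn
          have h1 := ih (v - (v ⟨m, hmn⟩ / w ⟨m, hmn⟩) • w) (by
            intro j hj
            rw [Pi.sub_apply, Pi.smul_apply, smul_eq_mul]
            rcases lt_or_eq_of_le hj with h2 | h2
            · rw [hv j h2, hw2 j h2, mul_zero, sub_zero]
            · have h3 : j = ⟨m, hmn⟩ := Fin.ext h2.symm
              rw [h3, div_mul_cancel₀ _ hw4, sub_self])
          have h4 : v = (v - (v ⟨m, hmn⟩ / w ⟨m, hmn⟩) • w) + (v ⟨m, hmn⟩ / w ⟨m, hmn⟩) • w := by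
            abel
          rw [h4]
          exact Submodule.add_mem _ h1 (Submodule.mem_sup_left (Submodule.smul_mem _ _ hw1))
        · exact ih v (fun j hj => absurd j.2 (by omega))
  have htop : W ⊔ FS F (a + b) i = ⊤ := by
    rw [eq_top_iff]
    intro v _
    exact hspan (a + b) v (fun j hj => absurd j.2 (by omega))
  have h5 := Submodule.finrank_add_le_finrank_add_finrank W (FS F (a + b) i)
  rw [htop, finrank_top, Module.finrank_fin_fun, hW] at h5
  have h6 := FS_finrank (F := F) (a + b) i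
  omega

end tv

section gr

variable {F : Type} [Field F] {A C : Type} [AddCommGroup A] [Module F A]
  [AddCommGroup C] [Module F C]

/-- the graph of `t` -/
def Gr (t : C →ₗ[F] A) : Submodule F (A × C) :=
  (LinearMap.ker (LinearMap.fst F A C)).map
    ((ext (1 : GV F A) (1 : GV F C) t : GV F (A × C)) : (A × C) →ₗ[F] (A × C))

theorem mem_Gr (t : C →ₗ[F] A) (p : A × C) : p ∈ Gr t ↔ p.1 = t p.2 := by
  unfold Gr
  rw [Submodule.mem_map]
  constructor
  · rintro ⟨q, hq, rfl⟩
    rw [LinearMap.mem_ker, LinearMap.fst_apply] at hq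
    show q.1 + t q.2 = t q.2
    rw [hq, zero_add]
  · intro hp
    refine ⟨(0, p.2), by simp, ?_⟩
    show ((1 : GV F A) (0 : A) + t p.2, p.2) = p
    rw [map_zero, zero_add, ← hp]

theorem Gr_inj {t t' : C →ₗ[F] A} (h : Gr t = Gr t') : t = t' := by
  ext c
  have h1 : (t c, c) ∈ Gr t := (mem_Gr t _).2 rfl
  rw [h, mem_Gr] at h1
  exact h1

theorem exists_Gr [FiniteDimensional F A] [FiniteDimensional F C] {W : Submodule F (A × C)}
    (hW : Module.finrank F W = Module.finrank F C) (h : ∀ p ∈ W, p.2 = 0 → p = 0) :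
    ∃ t, W = Gr t := by
  let s : W →ₗ[F] C := (LinearMap.snd F A C).comp W.subtype
  have hs : Function.Injective s := by
    rw [injective_iff_map_eq_zero]
    intro p hp
    exact Subtype.ext (h p p.2 hp)
  let e := s.linearEquivOfInjective hs hW
  have he : ∀ p : W, e p = (p : A × C).2 := fun p =>
    LinearMap.linearEquivOfInjective_apply (f := s) hs hW p
  refine ⟨(LinearMap.fst F A C).comp (W.subtype.comp (e.symm : C →ₗ[F] W)), ?_⟩
  ext p
  rw [mem_Gr]
  constructor
  · intro hp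
    have h1 : e.symm p.2 = ⟨p, hp⟩ := by
      rw [LinearEquiv.symm_apply_eq, he]
    show p.1 = ((e.symm p.2 : W) : A × C).1
    rw [h1]
  · intro hp
    have hp' : p.1 = ((e.symm p.2 : W) : A × C).1 := hp
    have h2 : ((e.symm p.2 : W) : A × C).2 = p.2 := by
      rw [← he, LinearEquiv.apply_symm_apply]
    have h3 : p = ((e.symm p.2 : W) : A × C) := Prod.ext hp' h2.symm
    rw [h3]
    exact (e.symm p.2).2

end gr

/-- the sum of `W` -/
def SW (ψ : AddChar F ℤ) (f g : CF F Ω) {n : ℕ} (W : Submodule F (Fin n → F)) : Ω :=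
  ∑ᶠ u : UG F n, ((ψ (sd (u : Gn F n)) : ℤ) : Ω) * Q f g (u : Gn F n) W

theorem SW_shift (ψ : AddChar F ℤ) (f g : CF F Ω) {n : ℕ} (W : Submodule F (Fin n → F))
    {u₀ : Gn F n} (hu : u₀ ∈ UG F n) (h1 : ∀ w ∈ W, u₀ w = w) (h2 : ∀ v, u₀ v - v ∈ W) :
    SW ψ f g W = ((ψ (sd u₀) : ℤ) : Ω) * SW ψ f g W := by
  haveI := Fintype.ofFinite (UG F n)
  unfold SW
  rw [finsum_eq_sum_of_fintype, Finset.mul_sum]
  rw [← Equiv.sum_comp (Equiv.mulLeft (⟨u₀, hu⟩ : UG F n))]
  refine Finset.sum_congr rfl fun u _ => ?_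
  have h3 : ((Equiv.mulLeft (⟨u₀, hu⟩ : UG F n) u : UG F n) : Gn F n) = u₀ * (u : Gn F n) := rfl
  rw [h3, Q_mul f g u₀ (u : Gn F n) W h1 h2, sd_mul hu u.2, AddChar.map_add_eq_mul]
  push_cast
  ring

theorem SW_conj (ψ : AddChar F ℤ) (f g : CF F Ω) {n : ℕ} (W : Submodule F (Fin n → F))
    {u₀ : Gn F n} (hu : u₀ ∈ UG F n) :
    SW ψ f g (W.map (u₀ : (Fin n → F) →ₗ[F] (Fin n → F))) = SW ψ f g W := by
  haveI := Fintype.ofFinite (UG F n)
  unfold SW
  rw [finsum_eq_sum_of_fintype, finsum_eq_sum_of_fintype]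
  rw [← Equiv.sum_comp (MulAut.conj (⟨u₀, hu⟩ : UG F n)).toEquiv]
  refine Finset.sum_congr rfl fun u _ => ?_
  have h3 : (((MulAut.conj (⟨u₀, hu⟩ : UG F n)).toEquiv u : UG F n) : Gn F n) =
      u₀ * (u : Gn F n) * u₀⁻¹ := rfl
  rw [h3, sd_mul (mul_mem hu u.2) (inv_mem hu), sd_mul hu u.2, sd_inv hu]
  rw [Q_iso f g u₀ (u : Gn F n) (u₀ * (u : Gn F n) * u₀⁻¹) (by
    intro v
    show u₀ ((u : Gn F n) v) = u₀ ((u : Gn F n) (u₀⁻¹ (u₀ v)))
    have h4 : u₀⁻¹ (u₀ v) = v := u₀.symm_apply_apply v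
    rw [h4])]
  congr 4
  ring

theorem SW_jump (ψ : AddChar F ℤ) (hψ : ∃ a, ψ a ≠ 1) (f g : CF F Ω) {n : ℕ}
    {W : Submodule F (Fin n → F)} {i : ℕ} (hi : i + 1 < n) {w : Fin n → F} (hwW : w ∈ W)
    (hw : ∀ j : Fin n, i < j → w j = 0) (hwi : w ⟨i, by omega⟩ ≠ 0)
    (he : (Pi.single (⟨i + 1, hi⟩ : Fin n) 1 : Fin n → F) ∉ W ⊔ FS F n (i + 1)) :
    SW ψ f g W = 0 := by
  obtain ⟨l, hl1, hl2⟩ := Submodule.exists_le_ker_of_notMem he
  obtain ⟨a₀, ha₀⟩ := hψ
  have hlW : ∀ x ∈ W, l x = 0 := fun x hx => hl2 (Submodule.mem_sup_left hx)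
  have hlF : ∀ v : Fin n → F, (∀ j : Fin n, i < j → v j = 0) → l v = 0 := fun v hv =>
    hl2 (Submodule.mem_sup_right (show v ∈ FS F n (i + 1) from fun j hj => hv j (by omega)))
  set c : F := a₀ / (l (Pi.single ⟨i + 1, hi⟩ 1) * w ⟨i, by omega⟩) with hc
  have hlw : (c • l) w = 0 := by
    rw [LinearMap.smul_apply, hlW w hwW, smul_zero]
  have hlF' : ∀ v : Fin n → F, (∀ j : Fin n, i < j → v j = 0) → (c • l) v = 0 := fun v hv => by
    rw [LinearMap.smul_apply, hlF v hv, smul_zero]
  have h1 := SW_shift ψ f g W (tv_mem hlw hw hlF') (by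
    intro x hx
    rw [tv_apply, LinearMap.smul_apply, hlW x hx, smul_zero, zero_smul, add_zero]) (by
    intro v
    rw [tv_apply, add_sub_cancel_left]
    exact W.smul_mem _ hwW)
  rw [sd_tv hlw hi hw hlF', LinearMap.smul_apply, smul_eq_mul, mul_assoc, hc,
    div_mul_cancel₀ _ (mul_ne_zero hl1 hwi)] at h1
  rcases psi_val ψ a₀ with h2 | h2
  · exact absurd h2 ha₀
  · rw [h2] at h1
    push_cast at h1
    have h3 : (2 : Ω) * SW ψ f g W = 0 := by linear_combination h1
    exact (mul_eq_zero.1 h3).resolve_left two_ne_zero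

theorem SW_dim (ψ : AddChar F ℤ) {f : CF F Ω} (g : CF F Ω) {a n : ℕ} (hf : f.IsDeg a)
    {W : Submodule F (Fin n → F)} (hW : Module.finrank F W ≠ a) : SW ψ f g W = 0 := by
  haveI := Fintype.ofFinite (UG F n)
  unfold SW
  rw [finsum_eq_sum_of_fintype]
  refine Finset.sum_eq_zero fun u _ => ?_
  have : Q f g (u : Gn F n) W = 0 := by
    unfold Q
    by_cases h : Inv (u : Gn F n) W
    · rw [dif_pos h, hf W _ hW, zero_mul]
    · rw [dif_neg h]
  rw [this, mul_zero]

/-- the subspaces which contribute -/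
def Gt {a b : ℕ} (t : (Fin a → F) →ₗ[F] (Fin b → F)) : Submodule F (Fin (a + b) → F) :=
  (Gr t).map (pe F (Nat.add_comm b a) :
    ((Fin b → F) × (Fin a → F)) →ₗ[F] (Fin (a + b) → F))

theorem Gt_inj {a b : ℕ} : Function.Injective
    (Gt : ((Fin a → F) →ₗ[F] (Fin b → F)) → Submodule F (Fin (a + b) → F)) := by
  intro t t' h
  exact Gr_inj (Submodule.map_injective_of_injective
    (f := (pe F (Nat.add_comm b a) : ((Fin b → F) × (Fin a → F)) →ₗ[F] (Fin (a + b) → F)))
    (pe F (Nat.add_comm b a)).injective h)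

theorem exists_Gt {a b : ℕ} {W : Submodule F (Fin (a + b) → F)} (hW : Module.finrank F W = a)
    (h : ∀ v ∈ W, (∀ j : Fin (a + b), b ≤ j → v j = 0) → v = 0) : ∃ t, W = Gt t := by
  let e := pe F (Nat.add_comm b a)
  obtain ⟨t, ht⟩ := exists_Gr (F := F) (W := W.comap (e :
      ((Fin b → F) × (Fin a → F)) →ₗ[F] (Fin (a + b) → F))) (by
    rw [Module.finrank_fin_fun]
    have h1 : (W.comap (e : ((Fin b → F) × (Fin a → F)) →ₗ[F] (Fin (a + b) → F))).map
        (e : ((Fin b → F) × (Fin a → F)) →ₗ[F] (Fin (a + b) → F)) = W :=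
      Submodule.map_comap_eq_of_surjective e.surjective W
    rw [← LinearEquiv.finrank_map_eq e, h1, hW]) (by
    intro p hp hp2
    have h2 := h (e p) hp (by
      intro j hj
      rw [pe_apply_right _ _ _ hj, hp2]
      rfl)
    exact (LinearEquiv.map_eq_zero_iff e).1 h2)
  refine ⟨t, ?_⟩
  unfold Gt
  rw [← ht]
  exact (Submodule.map_comap_eq_of_surjective e.surjective W).symm

theorem SW_Gt (ψ : AddChar F ℤ) (f g : CF F Ω) {a b : ℕ}
    (t : (Fin a → F) →ₗ[F] (Fin b → F)) :
    SW ψ f g (Gt t) = SW ψ f g (Gt (0 : (Fin a → F) →ₗ[F] (Fin b → F))) := by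
  have hu : blk F (Nat.add_comm b a) (ext 1 1 t) ∈ UG F (a + b) :=
    (mem_blk _ _ _ _).2 ⟨one_mem _, one_mem _⟩
  rw [← SW_conj ψ f g (Gt 0) hu]
  congr 1
  ext v
  constructor
  · rintro ⟨p, hp, rfl⟩
    have hp' := (mem_Gr t p).1 hp
    refine ⟨pe F (Nat.add_comm b a) (0, p.2), ⟨(0, p.2), (mem_Gr 0 _).2 rfl, rfl⟩, ?_⟩
    show blk F (Nat.add_comm b a) (ext 1 1 t) (pe F (Nat.add_comm b a) (0, p.2)) = _
    rw [blk_pe, ext_apply]
    show pe F _ ((1 : Gn F b) 0 + t p.2, (1 : Gn F a) p.2) = pe F _ p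
    congr 1
    apply Prod.ext
    · show (0 : Fin b → F) + t p.2 = p.1
      rw [zero_add, hp']
    · rfl
  · rintro ⟨_, ⟨q, hq, rfl⟩, rfl⟩
    have hq' := (mem_Gr 0 q).1 hq
    refine ⟨(t q.2, q.2), (mem_Gr t _).2 rfl, ?_⟩
    show pe F _ (t q.2, q.2) = blk F (Nat.add_comm b a) (ext 1 1 t) (pe F (Nat.add_comm b a) q)
    rw [blk_pe, ext_apply]
    congr 1
    apply Prod.ext
    · show t q.2 = q.1 + t q.2
      rw [hq', LinearMap.zero_apply, zero_add]
    · rfl

/-- the elements of the unitriangular group -/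
def ph {a b : ℕ} (x : (UG F b × UG F a) × ((Fin a → F) →ₗ[F] (Fin b → F))) : UG F (a + b) :=
  ⟨blk F (Nat.add_comm b a) (ext (x.1.1 : Gn F b) (x.1.2 : Gn F a) x.2),
    (mem_blk _ _ _ _).2 ⟨x.1.1.2, x.1.2.2⟩⟩

theorem ph_bij {a b : ℕ} : Function.Bijective
    (ph : (UG F b × UG F a) × ((Fin a → F) →ₗ[F] (Fin b → F)) → UG F (a + b)) := by
  constructor
  · rintro ⟨⟨x1, x2⟩, x3⟩ ⟨⟨y1, y2⟩, y3⟩ h
    have h1 : blk F (Nat.add_comm b a) (ext (x1 : Gn F b) (x2 : Gn F a) x3) =
      blk F (Nat.add_comm b a) (ext (y1 : Gn F b) (y2 : Gn F a) y3) := congrArg Subtype.val h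
    obtain ⟨h2, h3, h4⟩ := ext_inj ((blk F (Nat.add_comm b a)).injective h1)
    rw [Subtype.ext h2, Subtype.ext h3, h4]
  · rintro ⟨u, hu⟩
    obtain ⟨u', hu', v, hv, t, he⟩ := exists_blk (Nat.add_comm b a) hu
    exact ⟨⟨⟨⟨u', hu'⟩, ⟨v, hv⟩⟩, t⟩, Subtype.ext he.symm⟩

theorem SW_zero (ψ : AddChar F ℤ) (f g : CF F Ω) {a b : ℕ} :
    SW ψ f g (Gt (0 : (Fin a → F) →ₗ[F] (Fin b → F))) =
      (∑ᶠ u : UG F a, ((ψ (sd (u : Gn F a)) : ℤ) : Ω) * f.at a u) *
      (∑ᶠ u : UG F b, ((ψ (sd (u : Gn F b)) : ℤ) : Ω) * g.at b u) := by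
  haveI := Fintype.ofFinite (UG F (a + b))
  haveI := Fintype.ofFinite (UG F a)
  haveI := Fintype.ofFinite (UG F b)
  haveI := Fintype.ofFinite ((Fin a → F) →ₗ[F] (Fin b → F))
  unfold SW
  rw [finsum_eq_sum_of_fintype, finsum_eq_sum_of_fintype, finsum_eq_sum_of_fintype]
  rw [← Function.Bijective.sum_comp (ph_bij (F := F) (a := a) (b := b)), Fintype.sum_prod_type,
    Fintype.sum_prod_type, Finset.sum_comm, Finset.sum_mul_sum]
  refine Finset.sum_congr rfl fun u _ => Finset.sum_congr rfl fun u' _ => ?_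
  have hG : Gt (0 : (Fin a → F) →ₗ[F] (Fin b → F)) =
      (LinearMap.ker (LinearMap.fst F (Fin b → F) (Fin a → F))).map
        (pe F (Nat.add_comm b a) : ((Fin b → F) × (Fin a → F)) →ₗ[F] (Fin (a + b) → F)) := by
    unfold Gt
    congr 1
    ext p
    rw [mem_Gr, LinearMap.mem_ker]
    rfl
  have hQ : ∀ t : (Fin a → F) →ₗ[F] (Fin b → F), Q f g (ph ((u', u), t) : Gn F (a + b)) (Gt 0) =
      if t = 0 then f.at a u * g.at b u' else 0 := by
    intro t
    rw [hG]
    have hq := Q_iso f g (pe F (Nat.add_comm b a)) (ext (u' : Gn F b) (u : Gn F a) t)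
      (blk F (Nat.add_comm b a) (ext (u' : Gn F b) (u : Gn F a) t))
      (fun v => (blk_pe (Nat.add_comm b a) _ v).symm)
      (LinearMap.ker (LinearMap.fst F (Fin b → F) (Fin a → F)))
    rw [Q_ker] at hq
    exact hq
  rw [Finset.sum_eq_single (0 : (Fin a → F) →ₗ[F] (Fin b → F))]
  · rw [hQ, if_pos rfl]
    have h1 : sd ((ph ((u', u), (0 : (Fin a → F) →ₗ[F] (Fin b → F))) : UG F (a + b)) :
        Gn F (a + b)) = sd (u' : Gn F b) + sd (u : Gn F a) := sd_blk _ _ _
    rw [h1, AddChar.map_add_eq_mul]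
    push_cast
    ring
  · intro t _ ht
    rw [hQ, if_neg ht, mul_zero]
  · intro h; exact absurd (Finset.mem_univ _) h

end B02_aux

open B02_aux

theorem CF.dl_mul (ψ : AddChar F ℤ) (hψ : ∃ a, ψ a ≠ 1) {a b : ℕ} {f g : CF F Ω}
    (hf : f.IsDeg a) (hg : g.IsDeg b) :
    (f.mul g).dl ψ (a + b) = f.dl ψ a * g.dl ψ b := by
  haveI := Fintype.ofFinite (UG F (a + b))
  haveI := Fintype.ofFinite ((Fin a → F) →ₗ[F] (Fin b → F))
  haveI : Finite (Submodule F (Fin (a + b) → F)) :=
    Finite.of_injective (fun W => (W : Set (Fin (a + b) → F))) SetLike.coe_injective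
  haveI := Fintype.ofFinite (Submodule F (Fin (a + b) → F))
  have h1 : ∑ᶠ u : UG F (a + b), ((ψ (sd (u : Gn F (a + b))) : ℤ) : Ω) * (f.mul g).at (a + b) u =
      ∑ W : Submodule F (Fin (a + b) → F), SW ψ f g W := by
    rw [finsum_eq_sum_of_fintype]
    have h2 : ∀ u : UG F (a + b), ((ψ (sd (u : Gn F (a + b))) : ℤ) : Ω) * (f.mul g).at (a + b) u =
        ∑ W : Submodule F (Fin (a + b) → F),
          ((ψ (sd (u : Gn F (a + b))) : ℤ) : Ω) * Q f g (u : Gn F (a + b)) W := by
      intro u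
      rw [← Finset.mul_sum, ← finsum_eq_sum_of_fintype]
      rfl
    rw [Finset.sum_congr rfl fun u _ => h2 u, Finset.sum_comm]
    refine Finset.sum_congr rfl fun W _ => ?_
    unfold SW
    rw [finsum_eq_sum_of_fintype]
  have h3 : ∑ W : Submodule F (Fin (a + b) → F), SW ψ f g W =
      ∑ t : (Fin a → F) →ₗ[F] (Fin b → F), SW ψ f g (Gt t) := by
    symm
    refine Fintype.sum_of_injective Gt Gt_inj _ _ ?_ (fun _ => rfl)
    intro W hW
    by_cases hd : Module.finrank F W = a
    · by_cases hv : ∀ v ∈ W, (∀ j : Fin (a + b), b ≤ j → v j = 0) → v = 0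
      · obtain ⟨t, ht⟩ := exists_Gt hd hv
        exact absurd ⟨t, ht.symm⟩ hW
      · push Not at hv
        obtain ⟨v, hv1, hv2, hv3⟩ := hv
        obtain ⟨i, hi, w, hw1, hw2, hw3, hw4⟩ := exists_jump hd hv1 hv3 hv2
        exact SW_jump ψ hψ f g hi hw1 hw2 hw3 hw4
    · exact SW_dim ψ g hf hd
  have h4 : ∑ t : (Fin a → F) →ₗ[F] (Fin b → F), SW ψ f g (Gt t) =
      (Nat.card ((Fin a → F) →ₗ[F] (Fin b → F)) : Ω) *
        SW ψ f g (Gt (0 : (Fin a → F) →ₗ[F] (Fin b → F))) := by
    rw [Finset.sum_congr rfl fun t _ => SW_Gt ψ f g t, Finset.sum_const, nsmul_eq_mul,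
      Nat.card_eq_fintype_card]
    rfl
  have h5 : Nat.card (UG F (a + b)) = Nat.card (UG F b) * Nat.card (UG F a) *
      Nat.card ((Fin a → F) →ₗ[F] (Fin b → F)) := by
    rw [← Nat.card_prod, ← Nat.card_prod]
    exact (Nat.card_congr (Equiv.ofBijective _ (ph_bij (F := F) (a := a) (b := b)))).symm
  unfold CF.dl
  rw [h1, h3, h4, SW_zero, h5]
  have hn1 : (Nat.card ((Fin a → F) →ₗ[F] (Fin b → F)) : Ω) ≠ 0 := by
    exact_mod_cast Nat.card_pos.ne'
  have hn2 : (Nat.card (UG F a) : Ω) ≠ 0 := by exact_mod_cast Nat.card_pos.ne'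
  have hn3 : (Nat.card (UG F b) : Ω) ≠ 0 := by exact_mod_cast Nat.card_pos.ne'
  push_cast
  field_simp

end

end ParkerGL
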