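import Pool.Agent.ParkerGL.B01

/-!
# MP_6c3636_al, GL_n(q), module B03: Bruhat decomposition (helper7)

`bruhat`: every `g ∈ GL_n(F)` is `u w u'` with `u, u'` unitriangular and `w` monomial. Work with matrices
(`LinearMap.toMatrix'`, `Matrix.toLin'`) or directly. Induction/elimination: for column `0` let `i₀` be the largest
index with `(g e_0)_{i₀} ≠ 0`. Multiply on the left by unitriangular elements to kill the entries
`(i, 0)`, `i < i₀`; multiply on the right by unitriangular elements to kill the entries `(i₀, j)`, `j > 0`.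
Now row `i₀` and column `0` have only one nonzero entry. Repeat with the columns `1, 2, …` (a formulation by induction on
the number `k` of the treated columns: there is an injective `σ : {0..k-1} → Fin n` such that column `j < k` is
`c_j e_{σ j}` and the row `σ j` has only the entry in the column `j`: the next column `k` has a zero entry in the rows `σ j`,
choose the largest `i₀` with nonzero entry, the row operations used add multiples of the row `i₀` to rows `i < i₀` which does not
change the columns `j < k` (their entry in the row `i₀` is zero), the column operations add multiples of the column `k` to the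
columns `j > k`, which does not change the rows `σ j`, `j < k`). At the end `g` is monomial.
-/

namespace ParkerGL

noncomputable section

open Classical

variable {F : Type} [Field F] [Finite F]

/-- monomial elements, with the permutation `σ` and the coefficients `c` -/
def IsMono {n : ℕ} (w : Gn F n) (σ : Equiv.Perm (Fin n)) (c : Fin n → F) : Prop :=
  (∀ i, c i ≠ 0) ∧ ∀ j, w (Pi.single j 1) = c j • (Pi.single (σ j) 1 : Fin n → F)

namespace B03_aux

/-- the transvection `w ↦ w + φ w • a`, `φ a = 0` -/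
def tv {n : ℕ} (a : Fin n → F) (φ : (Fin n → F) →ₗ[F] F) (h : φ a = 0) : Gn F n where
  toFun w := w + φ w • a
  map_add' v w := by
    rw [map_add, add_smul]
    abel
  map_smul' t w := by
    rw [map_smul, smul_add, RingHom.id_apply, smul_eq_mul, mul_smul]
  invFun w := w - φ w • a
  left_inv w := by
    show w + φ w • a - φ (w + φ w • a) • a = w
    rw [map_add, map_smul, h, smul_zero, add_zero, add_sub_cancel_right]
  right_inv w := by
    show w - φ w • a + φ (w - φ w • a) • a = w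
    rw [map_sub, map_smul, h, smul_zero, sub_zero, sub_add_cancel]

omit [Finite F] in
theorem tv_apply {n : ℕ} (a : Fin n → F) (φ : (Fin n → F) →ₗ[F] F) (h : φ a = 0)
    (w : Fin n → F) : tv a φ h w = w + φ w • a := rfl

/-- the first `k` columns are treated -/
def Done {n : ℕ} (k : ℕ) (g : Gn F n) (σ : Fin n → Fin n) (c : Fin n → F) : Prop :=
  (∀ j : Fin n, (j : ℕ) < k → c j ≠ 0) ∧
  (∀ j : Fin n, (j : ℕ) < k → g (Pi.single j 1) = c j • (Pi.single (σ j) 1 : Fin n → F)) ∧
  (∀ j : Fin n, (j : ℕ) < k → ∀ l : Fin n, l ≠ j → g (Pi.single l 1) (σ j) = 0)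

omit [Finite F] in
/-- a linear form vanishing on the basis vectors of index `≤ m` -/
theorem form_zero {n : ℕ} (φ : (Fin n → F) →ₗ[F] F) (m : ℕ)
    (hφ : ∀ l : Fin n, (l : ℕ) ≤ m → φ (Pi.single l 1) = 0) (w : Fin n → F)
    (hw : ∀ i : Fin n, m < i → w i = 0) : φ w = 0 := by
  have h1 : w = ∑ i, w i • (Pi.single i 1 : Fin n → F) := by
    ext j
    rw [Finset.sum_apply, Finset.sum_eq_single j]
    · show w j = w j * (Pi.single j 1 : Fin n → F) j
      rw [Pi.single_eq_same, mul_one]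
    · intro b _ hb
      show w b * (Pi.single b 1 : Fin n → F) j = 0
      rw [Pi.single_eq_of_ne hb.symm, mul_zero]
    · intro h2
      exact absurd (Finset.mem_univ j) h2
  rw [h1, map_sum]
  refine Finset.sum_eq_zero fun i _ => ?_
  rw [map_smul]
  by_cases h : (i : ℕ) ≤ m
  · rw [hφ i h, smul_zero]
  · rw [hw i (not_le.1 h), zero_smul]

theorem step {n : ℕ} (k : ℕ) (hk : k < n) (g : Gn F n) (σ : Fin n → Fin n) (c : Fin n → F)
    (h : Done k g σ c) : ∃ u ∈ UG F n, ∃ u' ∈ UG F n, ∃ (g' : Gn F n) (σ' : Fin n → Fin n)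
      (c' : Fin n → F), Done (k + 1) g' σ' c' ∧ g = u * g' * u' := by
  obtain ⟨h1, h2, h3⟩ := h
  set K : Fin n := ⟨k, hk⟩ with hK
  set v : Fin n → F := g (Pi.single K 1) with hv
  have hv0 : v ≠ 0 := by
    intro h0
    have h4 : (Pi.single K 1 : Fin n → F) = 0 := by
      apply g.injective
      rw [map_zero]
      exact h0
    have h5 := congrFun h4 K
    rw [Pi.single_eq_same] at h5
    exact one_ne_zero h5
  -- the largest index with a nonzero entry
  obtain ⟨i₀, hi₀, hmax⟩ : ∃ i₀ : Fin n, v i₀ ≠ 0 ∧ ∀ i : Fin n, i₀ < i → v i = 0 := by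
    have hne : (Finset.univ.filter fun i : Fin n => v i ≠ 0).Nonempty := by
      by_contra hcon
      rw [Finset.not_nonempty_iff_eq_empty] at hcon
      apply hv0
      ext i
      by_contra hi
      have : i ∈ (Finset.univ.filter fun i : Fin n => v i ≠ 0) :=
        Finset.mem_filter.2 ⟨Finset.mem_univ _, hi⟩
      rw [hcon] at this
      exact absurd this (Finset.notMem_empty _)
    refine ⟨Finset.max' _ hne, (Finset.mem_filter.1 (Finset.max'_mem _ hne)).2, ?_⟩
    intro i hi
    by_contra hi'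
    exact absurd (Finset.le_max' _ i (Finset.mem_filter.2 ⟨Finset.mem_univ _, hi'⟩))
      (not_le.2 hi)
  have hvσ : ∀ j : Fin n, (j : ℕ) < k → v (σ j) = 0 := by
    intro j hj
    apply h3 j hj
    intro h4
    rw [← h4] at hj
    exact absurd hj (lt_irrefl _)
  have hσi : ∀ j : Fin n, (j : ℕ) < k → σ j ≠ i₀ := by
    intro j hj h4
    apply hi₀
    rw [← h4]
    exact hvσ j hj
  -- the left factor
  let a : Fin n → F := (Pi.single i₀ 1 : Fin n → F) - (v i₀)⁻¹ • v
  have ha0 : a i₀ = 0 := by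
    show (Pi.single i₀ 1 : Fin n → F) i₀ - (v i₀)⁻¹ * v i₀ = 0
    rw [Pi.single_eq_same, inv_mul_cancel₀ hi₀, sub_self]
  have hagt : ∀ i : Fin n, i₀ < i → a i = 0 := by
    intro i hi
    show (Pi.single i₀ 1 : Fin n → F) i - (v i₀)⁻¹ * v i = 0
    rw [hmax i hi, Pi.single_eq_of_ne (ne_of_gt hi), mul_zero, sub_zero]
  have haσ : ∀ j : Fin n, (j : ℕ) < k → a (σ j) = 0 := by
    intro j hj
    show (Pi.single i₀ 1 : Fin n → F) (σ j) - (v i₀)⁻¹ * v (σ j) = 0
    rw [hvσ j hj, Pi.single_eq_of_ne (hσi j hj), mul_zero, sub_zero]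
  let φ : (Fin n → F) →ₗ[F] F := LinearMap.proj i₀
  have hφ : ∀ w : Fin n → F, φ w = w i₀ := fun w => rfl
  let u₁ : Gn F n := tv a φ ha0
  have hu₁ : ∀ w : Fin n → F, u₁ w = w + w i₀ • a := fun w => rfl
  have hu₁U : u₁ ∈ UG F n := by
    intro m w hw i hi
    rw [hu₁]
    show w i + w i₀ * a i = w i
    rcases lt_or_ge i i₀ with h4 | h4
    · rw [hw i₀ (lt_of_le_of_lt hi h4), zero_mul, add_zero]
    · rcases h4.lt_or_eq with h5 | h5
      · rw [hagt i h5, mul_zero, add_zero]
      · rw [← h5, ha0, mul_zero, add_zero]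
  let g₂ : Gn F n := u₁ * g
  have hg₂ : ∀ w, g₂ w = g w + (g w) i₀ • a := fun w => rfl
  have hg₂j : ∀ j : Fin n, (j : ℕ) < k →
      g₂ (Pi.single j 1) = c j • (Pi.single (σ j) 1 : Fin n → F) := by
    intro j hj
    rw [hg₂, h2 j hj]
    have h4 : (c j • (Pi.single (σ j) 1 : Fin n → F)) i₀ = 0 := by
      show c j * (Pi.single (σ j) 1 : Fin n → F) i₀ = 0
      rw [Pi.single_eq_of_ne (hσi j hj).symm, mul_zero]
    rw [h4, zero_smul, add_zero]
  have hg₂k : g₂ (Pi.single K 1) = v i₀ • (Pi.single i₀ 1 : Fin n → F) := by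
    rw [hg₂, ← hv]
    show v + v i₀ • ((Pi.single i₀ 1 : Fin n → F) - (v i₀)⁻¹ • v) = _
    rw [smul_sub, smul_smul, mul_inv_cancel₀ hi₀, one_smul]
    abel
  have hg₂r : ∀ j : Fin n, (j : ℕ) < k → ∀ l : Fin n, l ≠ j → g₂ (Pi.single l 1) (σ j) = 0 := by
    intro j hj l hl
    rw [hg₂]
    show g (Pi.single l 1) (σ j) + g (Pi.single l 1) i₀ * a (σ j) = 0
    rw [haσ j hj, mul_zero, add_zero, h3 j hj l hl]
  -- the right factor
  let θ : (Fin n → F) →ₗ[F] F := (LinearMap.proj K : (Fin n → F) →ₗ[F] F) -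
    (v i₀)⁻¹ • ((LinearMap.proj i₀ : (Fin n → F) →ₗ[F] F) ∘ₗ (g₂ : (Fin n → F) →ₗ[F] (Fin n → F)))
  have hθ : ∀ w, θ w = w K - (v i₀)⁻¹ * (g₂ w) i₀ := fun w => rfl
  have hθK : θ (Pi.single K 1) = 0 := by
    rw [hθ, hg₂k, Pi.single_eq_same]
    show 1 - (v i₀)⁻¹ * (v i₀ * (Pi.single i₀ 1 : Fin n → F) i₀) = 0
    rw [Pi.single_eq_same, mul_one, inv_mul_cancel₀ hi₀, sub_self]
  have hθj : ∀ j : Fin n, (j : ℕ) < k → θ (Pi.single j 1) = 0 := by
    intro j hj
    rw [hθ, hg₂j j hj]
    have h4 : (Pi.single j 1 : Fin n → F) K = 0 := by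
      apply Pi.single_eq_of_ne
      intro h5
      rw [← h5] at hj
      exact absurd hj (lt_irrefl _)
    have h5 : (c j • (Pi.single (σ j) 1 : Fin n → F)) i₀ = 0 := by
      show c j * (Pi.single (σ j) 1 : Fin n → F) i₀ = 0
      rw [Pi.single_eq_of_ne (hσi j hj).symm, mul_zero]
    rw [h4, h5, mul_zero, sub_zero]
  let u₂ : Gn F n := tv (Pi.single K 1) θ hθK
  have hu₂ : ∀ w, u₂ w = w + θ w • (Pi.single K 1 : Fin n → F) := fun w => rfl
  have hu₂U : u₂ ∈ UG F n := by
    intro m w hw i hi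
    rw [hu₂]
    show w i + θ w * (Pi.single K 1 : Fin n → F) i = w i
    by_cases h4 : i = K
    · have h5 : θ w = 0 := by
        apply form_zero θ m _ w hw
        intro l hl
        have h6 : (l : ℕ) ≤ k := by
          have h7 : (i : ℕ) = k := by rw [h4]
          omega
        rcases h6.lt_or_eq with h7 | h7
        · exact hθj l h7
        · have h8 : l = K := Fin.ext h7
          rw [h8]
          exact hθK
      rw [h5, zero_mul, add_zero]
    · rw [Pi.single_eq_of_ne h4, mul_zero, add_zero]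
  let g₃ : Gn F n := g₂ * u₂
  have hg₃ : ∀ w, g₃ w = g₂ w + θ w • (v i₀ • (Pi.single i₀ 1 : Fin n → F)) := by
    intro w
    show g₂ (w + θ w • (Pi.single K 1 : Fin n → F)) = _
    rw [map_add, map_smul, hg₂k]
  have hg₃i : ∀ w, (g₃ w) i₀ = v i₀ * w K := by
    intro w
    rw [hg₃, hθ]
    show g₂ w i₀ + (w K - (v i₀)⁻¹ * (g₂ w) i₀) * (v i₀ * (Pi.single i₀ 1 : Fin n → F) i₀) = _
    rw [Pi.single_eq_same]
    field_simp
    ring
  refine ⟨u₁⁻¹, (UG F n).inv_mem hu₁U, u₂⁻¹, (UG F n).inv_mem hu₂U, g₃,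
    Function.update σ K i₀, Function.update c K (v i₀), ⟨?_, ?_, ?_⟩, ?_⟩
  · intro j hj
    by_cases h4 : j = K
    · rw [h4, Function.update_self]
      exact hi₀
    · rw [Function.update_of_ne h4]
      apply h1
      have h5 : (j : ℕ) ≠ k := fun h6 => h4 (Fin.ext h6)
      omega
  · intro j hj
    by_cases h4 : j = K
    · rw [h4, Function.update_self, Function.update_self, hg₃, hg₂k, hθK, zero_smul, add_zero]
    · have h5 : (j : ℕ) ≠ k := fun h6 => h4 (Fin.ext h6)
      have h6 : (j : ℕ) < k := by omega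
      rw [Function.update_of_ne h4, Function.update_of_ne h4, hg₃, hg₂j j h6, hθj j h6,
        zero_smul, add_zero]
  · intro j hj l hl
    by_cases h4 : j = K
    · rw [h4, Function.update_self, hg₃i]
      have h5 : (Pi.single l 1 : Fin n → F) K = 0 := by
        apply Pi.single_eq_of_ne
        intro h6
        exact hl (by rw [h4, h6])
      rw [h5, mul_zero]
    · have h5 : (j : ℕ) ≠ k := fun h6 => h4 (Fin.ext h6)
      have h6 : (j : ℕ) < k := by omega
      rw [Function.update_of_ne h4, hg₃]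
      show g₂ (Pi.single l 1) (σ j) +
        θ (Pi.single l 1) * (v i₀ * (Pi.single i₀ 1 : Fin n → F) (σ j)) = 0
      rw [hg₂r j h6 l hl, Pi.single_eq_of_ne (hσi j h6), mul_zero, mul_zero, add_zero]
  · show g = u₁⁻¹ * (u₁ * g * u₂) * u₂⁻¹
    rw [mul_assoc u₁ g u₂, inv_mul_cancel_left, mul_inv_cancel_right]

theorem steps {n : ℕ} (g : Gn F n) : ∀ k : ℕ, k ≤ n → ∃ u ∈ UG F n, ∃ u' ∈ UG F n,
    ∃ (g' : Gn F n) (σ' : Fin n → Fin n) (c' : Fin n → F), Done k g' σ' c' ∧ g = u * g' * u' := by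
  intro k
  induction k with
  | zero =>
    intro _
    refine ⟨1, (UG F n).one_mem, 1, (UG F n).one_mem, g, id, fun _ => 1, ⟨?_, ?_, ?_⟩, ?_⟩
    · intro j hj
      exact absurd hj (Nat.not_lt_zero _)
    · intro j hj
      exact absurd hj (Nat.not_lt_zero _)
    · intro j hj
      exact absurd hj (Nat.not_lt_zero _)
    · rw [one_mul, mul_one]
  | succ k ih =>
    intro hk
    obtain ⟨u, hu, u', hu', g', σ', c', hd, hg⟩ := ih (Nat.le_of_succ_le hk)
    obtain ⟨w, hw, w', hw', g'', σ'', c'', hd', hg'⟩ := step k hk g' σ' c' hd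
    refine ⟨u * w, (UG F n).mul_mem hu hw, w' * u', (UG F n).mul_mem hw' hu', g'', σ'', c'',
      hd', ?_⟩
    rw [hg, hg']
    simp only [mul_assoc]

end B03_aux

theorem bruhat {n : ℕ} (g : Gn F n) :
    ∃ u ∈ UG F n, ∃ u' ∈ UG F n, ∃ (w : Gn F n) (σ : Equiv.Perm (Fin n)) (c : Fin n → F),
      IsMono w σ c ∧ g = u * w * u' := by
  obtain ⟨u, hu, u', hu', w, σ, c, ⟨h1, h2, h3⟩, hg⟩ := B03_aux.steps g n le_rfl
  have hinj : Function.Injective σ := by
    intro i j hij
    by_contra hne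
    have h4 := h3 j j.2 i hne
    rw [h2 i i.2, ← hij] at h4
    have h5 : c i * (Pi.single (σ i) 1 : Fin n → F) (σ i) = 0 := h4
    rw [Pi.single_eq_same, mul_one] at h5
    exact h1 i i.2 h5
  refine ⟨u, hu, u', hu', w, Equiv.ofBijective σ ⟨hinj, Finite.surjective_of_injective hinj⟩, c,
    ⟨fun i => h1 i i.2, fun j => h2 j j.2⟩, hg⟩

end

end ParkerGL
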