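import Pool.Agent.ParkerGL.B03

/-!
# MP_6c3636_al, GL_n(q), module B04: the antiautomorphism and compatible monomial elements (helper7)

`exists_tau`: `τ g = J gᵗ J`, `J` the reversal permutation matrix: `(τ g)_{i j} = g_{rev j, rev i}`. It maps `UG` to `UG`
and preserves `sd` (the entry `(i, i+1)` becomes the entry `(rev (i+1), rev i)`).

`compat_tau`: let `w` be monomial with `σ`, `c` and suppose `ψ (sd (w u w⁻¹)) = ψ (sd u)` for all `u ∈ UG` with `w u w⁻¹ ∈ UG`.
For `j` with `j + 1 < n` and `σ j < σ (j+1)` take `u = 1 + x E_{j,j+1}` (`x ∈ F`): `w u w⁻¹ = 1 + x c_j c_{j+1}⁻¹ E_{σ j, σ (j+1)}` is in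
`UG`, its `sd` is `x c_j c_{j+1}⁻¹` if `σ (j+1) = σ j + 1` and `0` otherwise. `ψ x = ψ (…)` for all `x` and `ψ` nontrivial
imply `σ (j+1) = σ j + 1` and `c_j = c_{j+1}` (`ψ ((1 - c_j c_{j+1}⁻¹) x) = 1` for all `x`). So:

(*) for all `j` with `j + 1 < n`: `σ (j+1) < σ j`, or `σ (j+1) = σ j + 1` and `c (j+1) = c j`.

Claim: `τ w = w`, i.e. `σ (rev (σ j)) = rev j` and `c (rev (σ j)) = c j` for all `j`
[`(τ w)_{i j} = w_{rev j, rev i} = c_{rev i} [rev j = σ (rev i)]`, and `w_{i j} = c_j [i = σ j]`].
Proof. `{0..n-1}` is cut into maximal runs `[s, t]` with `σ (j+1) = σ j + 1` for `s ≤ j < t`; `c` is constant on the runs. By (*) at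
the end `t < n - 1` of a run `σ (t+1) < σ t`. The values on a run form an interval and these intervals are disjoint, so
the interval of the next run lies below the interval of the run (its first value is less than `σ t`,
so it is below the interval of the run: it cannot be in it). Hence all values on later runs are smaller than
all values on earlier runs, and the values on the run `[s, t]` are the `n - 1 - t, …, n - 1 - s` in increasing order: `σ j = n - 1 - t + (j - s)` (count:
exactly the indices `> t` have smaller values than the run, there are `n - 1 - t` of them). `rev (σ j) = t - (j - s)` is in the same run, so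
`c (rev (σ j)) = c j` and `σ (rev (σ j)) = n - 1 - t + (t - j + s - s) = n - 1 - j`.
A proof without runs: show by induction on `d` that ... is not needed; any argument is fine.
-/

namespace ParkerGL

noncomputable section

open Classical

namespace B04_aux

variable {F : Type} [Field F]

theorem ext_entries {n : ℕ} {g h : Gn F n}
    (H : ∀ i j, g (Pi.single j 1) i = h (Pi.single j 1) i) : g = h := by
  apply LinearEquiv.toLinearMap_injective
  apply LinearMap.pi_ext'
  intro j
  apply LinearMap.ext_ring
  funext i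
  exact H i j

theorem mul_entry {n : ℕ} (g h : Gn F n) (i j : Fin n) :
    (g * h) (Pi.single j 1) i = ∑ k : Fin n, g (Pi.single k 1) i * h (Pi.single j 1) k := by
  show g (h (Pi.single j 1)) i = _
  have h1 : h (Pi.single j 1) = ∑ k : Fin n, h (Pi.single j 1) k • (Pi.single k (1 : F) : Fin n → F) := by
    funext l
    rw [Finset.sum_apply]
    simp only [Pi.smul_apply, smul_eq_mul, Pi.single_apply, mul_ite, mul_one, mul_zero]
    rw [Finset.sum_ite_eq]
    simp
  conv_lhs => rw [h1]
  rw [map_sum, Finset.sum_apply]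
  refine Finset.sum_congr rfl fun k _ => ?_
  rw [map_smul, Pi.smul_apply, smul_eq_mul, mul_comm]

theorem one_entry {n : ℕ} (i j : Fin n) :
    (1 : Gn F n) (Pi.single j 1) i = if i = j then 1 else 0 := by
  show (Pi.single j (1 : F) : Fin n → F) i = _
  rw [Pi.single_apply]

/-- the matrix of `τ g` -/
def tm {n : ℕ} (g : Gn F n) : Matrix (Fin n) (Fin n) F :=
  Matrix.of fun i j => g (Pi.single (Fin.rev i) 1) (Fin.rev j)

theorem tm_apply {n : ℕ} (g : Gn F n) (i j : Fin n) :
    tm g i j = g (Pi.single (Fin.rev i) 1) (Fin.rev j) := rfl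

theorem tm_mul {n : ℕ} (g h : Gn F n) : tm (g * h) = tm h * tm g := by
  ext i j
  rw [tm_apply, mul_entry, Matrix.mul_apply]
  rw [← Equiv.sum_comp Fin.revPerm]
  refine Finset.sum_congr rfl fun k _ => ?_
  rw [tm_apply, tm_apply, Fin.revPerm_apply, mul_comm]

theorem tm_one {n : ℕ} : tm (1 : Gn F n) = 1 := by
  ext i j
  rw [tm_apply, one_entry, Matrix.one_apply]
  by_cases h : i = j
  · subst h
    rw [if_pos rfl, if_pos rfl]
  · rw [if_neg h, if_neg (fun h1 => h (Fin.rev_injective h1).symm)]

/-- the antiautomorphism -/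
def ta {n : ℕ} (g : Gn F n) : Gn F n :=
  LinearEquiv.ofLinearMap (Matrix.toLin' (tm g)) (Matrix.toLin' (tm g⁻¹))
    (by
      rw [← Matrix.toLin'_mul, ← tm_mul, inv_mul_cancel, tm_one, Matrix.toLin'_one])
    (by
      rw [← Matrix.toLin'_mul, ← tm_mul, mul_inv_cancel, tm_one, Matrix.toLin'_one])

theorem ta_entry {n : ℕ} (g : Gn F n) (i j : Fin n) :
    ta g (Pi.single j 1) i = g (Pi.single (Fin.rev i) 1) (Fin.rev j) := by
  show Matrix.toLin' (tm g) (Pi.single j 1) i = _
  rw [Matrix.toLin'_apply, Matrix.mulVec_single_one]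
  rfl

/-- the transvection `v ↦ v + x v_j e_i` -/
def tv {k : ℕ} (i j : Fin k) (hij : i ≠ j) (x : F) : Gn F k where
  toFun v := v + (x * v j) • (Pi.single i (1 : F) : Fin k → F)
  map_add' v w := by
    rw [Pi.add_apply, mul_add, add_smul]
    abel
  map_smul' t v := by
    rw [RingHom.id_apply, smul_add, smul_smul, Pi.smul_apply, smul_eq_mul]
    congr 2
    ring
  invFun v := v - (x * v j) • (Pi.single i (1 : F) : Fin k → F)
  left_inv v := by
    have h1 : (Pi.single i (1 : F) : Fin k → F) j = 0 := by
      rw [Pi.single_apply, if_neg (Ne.symm hij)]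
    show (v + (x * v j) • (Pi.single i (1 : F) : Fin k → F)) -
      (x * (v + (x * v j) • (Pi.single i (1 : F) : Fin k → F)) j) • (Pi.single i (1 : F) : Fin k → F) = v
    rw [Pi.add_apply, Pi.smul_apply, h1, smul_zero, add_zero, add_sub_cancel_right]
  right_inv v := by
    have h1 : (Pi.single i (1 : F) : Fin k → F) j = 0 := by
      rw [Pi.single_apply, if_neg (Ne.symm hij)]
    show (v - (x * v j) • (Pi.single i (1 : F) : Fin k → F)) +
      (x * (v - (x * v j) • (Pi.single i (1 : F) : Fin k → F)) j) • (Pi.single i (1 : F) : Fin k → F) = v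
    rw [Pi.sub_apply, Pi.smul_apply, h1, smul_zero, sub_zero, sub_add_cancel]

theorem tv_apply {k : ℕ} (i j : Fin k) (hij : i ≠ j) (x : F) (v : Fin k → F) :
    tv i j hij x v = v + (x * v j) • (Pi.single i (1 : F) : Fin k → F) := rfl

theorem tv_entry {k : ℕ} (i j : Fin k) (hij : i ≠ j) (x : F) (a b : Fin k) :
    tv i j hij x (Pi.single b 1) a =
      (if a = b then 1 else 0) + (if b = j ∧ a = i then x else 0) := by
  rw [tv_apply, Pi.add_apply, Pi.smul_apply, smul_eq_mul, Pi.single_apply, Pi.single_apply,
    Pi.single_apply]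
  congr 1
  by_cases h1 : b = j
  · subst h1
    by_cases h2 : a = i
    · subst h2
      simp
    · simp [h2]
  · rw [if_neg (Ne.symm h1), mul_zero, zero_mul, if_neg (fun h => h1 h.1)]

/-- the combinatorial part for `f = rev ∘ σ` -/
theorem layered {K : Type} {n : ℕ} (f : Fin n → Fin n) (hf : Function.Bijective f) (c : Fin n → K)
    (h : ∀ i j : Fin n, (i : ℕ) + 1 = j → f i < f j ∨ ((f j : ℕ) + 1 = f i ∧ c j = c i)) :
    ∀ j : Fin n, f (f j) = j ∧ c (f j) = c j := by
  have step : ∀ s : ℕ, s < n →
      (∀ q : Fin n, (q : ℕ) < s → (f q : ℕ) < s ∧ f (f q) = q ∧ c (f q) = c q) →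
      ∃ s', s < s' ∧ s' ≤ n ∧
        ∀ q : Fin n, (q : ℕ) < s' → (f q : ℕ) < s' ∧ f (f q) = q ∧ c (f q) = c q := by
    intro s hs hP
    obtain ⟨m, hm⟩ := hf.2 ⟨s, hs⟩
    have hms : s ≤ (m : ℕ) := by
      by_contra hlt
      have h1 := (hP m (by omega)).1
      rw [hm] at h1
      simp at h1
    have hge : ∀ p : Fin n, s ≤ (p : ℕ) → s ≤ (f p : ℕ) := by
      intro p hp
      by_contra hlt
      have h1 := hP (f p) (by omega)
      have h2 : f (f p) = p := hf.1 h1.2.1
      have h3 := h1.1
      rw [h2] at h3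
      omega
    have key : ∀ i : ℕ, ∀ q : Fin n, (q : ℕ) + i = m → s ≤ (q : ℕ) →
        (f q : ℕ) = s + i ∧ c q = c m := by
      intro i
      induction i using Nat.strong_induction_on with
      | _ i ih =>
        intro q hq hsq
        rcases Nat.eq_zero_or_pos i with rfl | hi
        · have : q = m := Fin.ext (by omega)
          rw [this, hm]
          exact ⟨by simp, rfl⟩
        · have hmn := m.2
          have hp := ih (i - 1) (by omega) ⟨(q : ℕ) + 1, by omega⟩ (by simp only; omega)
            (by simp only; omega)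
          rcases h q ⟨(q : ℕ) + 1, by omega⟩ rfl with h1 | ⟨h1, h2⟩
          · exfalso
            have h3 : (f q : ℕ) < s + (i - 1) := by
              rw [← hp.1]
              exact h1
            have h4 := hge q hsq
            have h5 := ih ((f q : ℕ) - s) (by omega) ⟨(m : ℕ) - ((f q : ℕ) - s), by omega⟩
              (by simp only; omega) (by simp only; omega)
            have h6 : f ⟨(m : ℕ) - ((f q : ℕ) - s), by omega⟩ = f q := Fin.ext (by
              rw [h5.1]; omega)
            have h7 := congrArg Fin.val (hf.1 h6)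
            simp only at h7
            omega
          · refine ⟨?_, ?_⟩
            · rw [← h1, hp.1]
              omega
            · rw [← h2, hp.2]
    refine ⟨(m : ℕ) + 1, by omega, m.2, ?_⟩
    intro q hq
    rcases Nat.lt_or_ge (q : ℕ) s with h1 | h1
    · have := hP q h1
      exact ⟨by omega, this.2⟩
    · have k1 := key ((m : ℕ) - q) q (by omega) h1
      have k2 := key ((q : ℕ) - s) (f q) (by omega) (hge q h1)
      refine ⟨by omega, Fin.ext (by omega), ?_⟩
      rw [k2.2, k1.2]
  have main : ∀ k s : ℕ, s ≤ n → n - s ≤ k →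
      (∀ q : Fin n, (q : ℕ) < s → (f q : ℕ) < s ∧ f (f q) = q ∧ c (f q) = c q) →
      ∀ q : Fin n, f (f q) = q ∧ c (f q) = c q := by
    intro k
    induction k with
    | zero =>
      intro s hs hk hP q
      exact (hP q (by have := q.2; omega)).2
    | succ k ih =>
      intro s hs hk hP
      rcases Nat.lt_or_ge s n with h1 | h1
      · obtain ⟨s', h2, h3, h4⟩ := step s h1 hP
        exact ih s' h3 (by omega) h4
      · intro q
        exact (hP q (by have := q.2; omega)).2
  exact main n 0 (Nat.zero_le _) (by omega) (fun q hq => absurd hq (Nat.not_lt_zero _))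

end B04_aux

open B04_aux

variable {F : Type} [Field F] [Finite F]

theorem exists_tau (F : Type) [Field F] [Finite F] (n : ℕ) :
    ∃ τ : Gn F n → Gn F n, (∀ g h, τ (g * h) = τ h * τ g) ∧ (∀ g, τ (τ g) = g) ∧
      (∀ u ∈ UG F n, τ u ∈ UG F n ∧ sd (τ u) = sd u) ∧
      ∀ g i j, τ g (Pi.single j 1) i = g (Pi.single (Fin.rev i) 1) (Fin.rev j) := by
  refine ⟨ta, ?_, ?_, ?_, ta_entry⟩
  · intro g h
    apply ext_entries
    intro i j
    rw [ta_entry, mul_entry, mul_entry, ← Equiv.sum_comp Fin.revPerm]
    refine Finset.sum_congr rfl fun k _ => ?_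
    rw [ta_entry, ta_entry, Fin.revPerm_apply, mul_comm]
  · intro g
    apply ext_entries
    intro i j
    rw [ta_entry, ta_entry, Fin.rev_rev, Fin.rev_rev]
  · intro u hu
    refine ⟨?_, ?_⟩
    · rw [mem_UG_iff]
      intro j i hji
      rw [ta_entry, mem_UG_iff.1 hu (Fin.rev i) (Fin.rev j) (Fin.rev_le_rev.2 hji)]
      by_cases h : i = j
      · subst h
        rw [if_pos rfl, if_pos rfl]
      · rw [if_neg h, if_neg (fun h1 => h (Fin.rev_injective h1).symm)]
    · unfold sd
      rw [Finset.sum_comm]
      rw [← Equiv.sum_comp Fin.revPerm]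
      refine Finset.sum_congr rfl fun i _ => ?_
      rw [← Equiv.sum_comp Fin.revPerm]
      refine Finset.sum_congr rfl fun j _ => ?_
      rw [Fin.revPerm_apply, Fin.revPerm_apply, ta_entry, Fin.rev_rev, Fin.rev_rev]
      have hi := i.2
      have hj := j.2
      by_cases h : (i : ℕ) + 1 = j
      · rw [if_pos h, if_pos (by rw [Fin.val_rev, Fin.val_rev]; omega)]
      · rw [if_neg h, if_neg (by rw [Fin.val_rev, Fin.val_rev]; omega)]

/-- the combinatorial part -/
theorem rev_perm {n : ℕ} (σ : Equiv.Perm (Fin n)) (c : Fin n → F)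
    (h : ∀ i j : Fin n, (i : ℕ) + 1 = j → σ j < σ i ∨ ((σ j : ℕ) = σ i + 1 ∧ c j = c i)) (j : Fin n) :
    σ (Fin.rev (σ j)) = Fin.rev j ∧ c (Fin.rev (σ j)) = c j := by
  have hb : Function.Bijective (fun j => Fin.rev (σ j)) :=
    (Fin.revPerm : Equiv.Perm (Fin n)).bijective.comp σ.bijective
  have := layered (fun j => Fin.rev (σ j)) hb c (by
    intro i j hij
    rcases h i j hij with h1 | ⟨h1, h2⟩
    · left
      exact Fin.rev_lt_rev.2 h1
    · right
      refine ⟨?_, h2⟩
      have a1 := (σ i).2
      have a2 := (σ j).2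
      show (Fin.rev (σ j) : ℕ) + 1 = (Fin.rev (σ i) : ℕ)
      rw [Fin.val_rev, Fin.val_rev]
      omega) j
  refine ⟨?_, this.2⟩
  have h1 : Fin.rev (σ (Fin.rev (σ j))) = j := this.1
  rw [← h1, Fin.rev_rev]
  rw [h1]

theorem compat_tau [CharP F 2] (ψ : AddChar F ℤ) (hψ : ∃ a, ψ a ≠ 1) {n : ℕ} {w : Gn F n}
    {σ : Equiv.Perm (Fin n)} {c : Fin n → F} (hw : IsMono w σ c)
    (h : ∀ u ∈ UG F n, w * u * w⁻¹ ∈ UG F n → ψ (sd (w * u * w⁻¹)) = ψ (sd u))
    {τ : Gn F n → Gn F n}
    (hτ : ∀ g i j, τ g (Pi.single j 1) i = g (Pi.single (Fin.rev i) 1) (Fin.rev j)) :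
    τ w = w := by
  have tv_mem : ∀ (i j : Fin n) (hij : i < j) (x : F), tv i j (ne_of_lt hij) x ∈ UG F n := by
    intro i j hij x
    rw [mem_UG_iff]
    intro b a hba
    have h0 : ¬ (b = j ∧ a = i) := by
      rintro ⟨rfl, rfl⟩
      exact absurd hba (not_le.2 hij)
    rw [tv_entry, if_neg h0, add_zero]
  have sd_tv : ∀ (i j : Fin n) (hij : i ≠ j) (x : F),
      sd (tv i j hij x) = if (i : ℕ) + 1 = j then x else 0 := by
    intro i j hij x
    unfold sd
    have h1 : ∀ a b : Fin n, (if (a : ℕ) + 1 = b then tv i j hij x (Pi.single b 1) a else 0) =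
        if a = i then (if b = j then (if (i : ℕ) + 1 = j then x else 0) else 0) else 0 := by
      intro a b
      rw [tv_entry]
      by_cases hab : (a : ℕ) + 1 = b
      · rw [if_pos hab]
        have hne : a ≠ b := by
          rintro rfl
          omega
        rw [if_neg hne, zero_add]
        by_cases h2 : a = i
        · subst h2
          by_cases h3 : b = j
          · subst h3
            simp [hab]
          · simp [h3]
        · simp [h2]
      · rw [if_neg hab]
        by_cases h2 : a = i
        · subst h2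
          by_cases h3 : b = j
          · subst h3
            simp [hab]
          · simp [h3]
        · simp [h2]
    simp only [h1]
    rw [Finset.sum_eq_single i, Finset.sum_eq_single j]
    · simp
    · intro b _ hb
      simp [hb]
    · intro hb
      exact absurd (Finset.mem_univ _) hb
    · intro a _ ha
      simp [ha]
    · intro ha
      exact absurd (Finset.mem_univ _) ha
  -- coordinates of `w v`
  have wc : ∀ (v : Fin n → F) (k : Fin n), w v (σ k) = c k * v k := by
    intro v k
    have h1 : v = ∑ l : Fin n, v l • (Pi.single l (1 : F) : Fin n → F) := by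
      funext a
      rw [Finset.sum_apply]
      simp only [Pi.smul_apply, smul_eq_mul, Pi.single_apply, mul_ite, mul_one, mul_zero]
      rw [Finset.sum_ite_eq]
      simp
    conv_lhs => rw [h1]
    rw [map_sum, Finset.sum_apply, Finset.sum_eq_single k]
    · rw [map_smul, hw.2 k]
      simp only [Pi.smul_apply, smul_eq_mul, Pi.single_eq_same]
      ring
    · intro l _ hl
      rw [map_smul, hw.2 l]
      simp only [Pi.smul_apply, smul_eq_mul]
      rw [Pi.single_apply, if_neg (fun h2 => hl (σ.injective h2).symm)]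
      ring
    · intro hb
      exact absurd (Finset.mem_univ _) hb
  have conj : ∀ (i j : Fin n) (hij : i ≠ j) (x : F),
      w * tv i j hij x * w⁻¹ = tv (σ i) (σ j) (fun h1 => hij (σ.injective h1)) (x * c i * (c j)⁻¹) := by
    intro i j hij x
    ext1 v
    show w (tv i j hij x ((w⁻¹ : Gn F n) v)) = _
    rw [tv_apply, tv_apply, map_add, map_smul, hw.2 i]
    have h1 : w ((w⁻¹ : Gn F n) v) = v := w.apply_symm_apply v
    have h2 : v (σ j) = c j * (w⁻¹ : Gn F n) v j := by
      conv_lhs => rw [← h1]
      exact wc _ j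
    rw [h1, smul_smul, h2]
    congr 2
    have hcj := hw.1 j
    field_simp
  have star : ∀ i j : Fin n, (i : ℕ) + 1 = j → σ j < σ i ∨ ((σ j : ℕ) = σ i + 1 ∧ c j = c i) := by
    intro i j hij
    have hne : i ≠ j := by
      rintro rfl
      omega
    have hlt : i < j := by
      rw [Fin.lt_def]
      omega
    rcases lt_trichotomy (σ j) (σ i) with h1 | h1 | h1
    · exact Or.inl h1
    · exact absurd (σ.injective h1).symm hne
    · right
      have key : ∀ x : F, ψ (if (σ i : ℕ) + 1 = σ j then x * c i * (c j)⁻¹ else 0) = ψ x := by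
        intro x
        have h2 := h (tv i j (ne_of_lt hlt) x) (tv_mem i j hlt x) (by
          rw [conj]
          exact tv_mem _ _ h1 _)
        rw [conj, sd_tv, sd_tv, if_pos hij] at h2
        exact h2
      by_cases h3 : (σ i : ℕ) + 1 = σ j
      · refine ⟨h3.symm, ?_⟩
        by_contra hc
        obtain ⟨a, ha⟩ := hψ
        have hci := hw.1 i
        have hcj := hw.1 j
        have hd : 1 - c i * (c j)⁻¹ ≠ 0 := by
          intro h4
          apply hc
          have h5 : c i * (c j)⁻¹ = 1 := (sub_eq_zero.1 h4).symm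
          rw [mul_inv_eq_one₀ hcj] at h5
          exact h5.symm
        have h6 := key (a * (1 - c i * (c j)⁻¹)⁻¹)
        rw [if_pos h3] at h6
        set x := a * (1 - c i * (c j)⁻¹)⁻¹ with hx
        have h7 : x = x * c i * (c j)⁻¹ + a := by
          have h8 : x * (1 - c i * (c j)⁻¹) = a := by
            rw [hx, mul_assoc, inv_mul_cancel₀ hd, mul_one]
          rw [← h8]
          ring
        have h9 : ψ x = ψ x * ψ a := by
          conv_lhs => rw [h7]
          rw [AddChar.map_add_eq_mul, h6]
        have h10 : ψ x ≠ 0 := by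
          intro h11
          have h12 : ψ (x + (-x)) = ψ x * ψ (-x) := AddChar.map_add_eq_mul ψ x (-x)
          rw [add_neg_cancel, AddChar.map_zero_eq_one, h11, zero_mul] at h12
          exact one_ne_zero h12
        exact ha (mul_left_cancel₀ h10 (by rw [mul_one]; exact h9.symm))
      · exfalso
        obtain ⟨a, ha⟩ := hψ
        have h4 := key a
        rw [if_neg h3, AddChar.map_zero_eq_one] at h4
        exact ha h4.symm
  have rp := rev_perm σ c star
  have we : ∀ i j : Fin n, w (Pi.single j 1) i = if i = σ j then c j else 0 := by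
    intro i j
    rw [hw.2 j, Pi.smul_apply, smul_eq_mul, Pi.single_apply]
    by_cases h1 : i = σ j
    · rw [if_pos h1, if_pos h1, mul_one]
    · rw [if_neg h1, if_neg h1, mul_zero]
  apply ext_entries
  intro i j
  rw [hτ, we, we]
  by_cases h1 : i = σ j
  · subst h1
    rw [if_pos rfl, if_pos (rp j).1.symm, (rp j).2]
  · rw [if_neg h1, if_neg]
    intro h2
    apply h1
    have h3 := (rp (Fin.rev i)).1
    rw [← h2, Fin.rev_rev, Fin.rev_rev] at h3
    exact h3.symm

end

end ParkerGL
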