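import Pool.Agent.ParkerGL.B04
import Pool.Agent.Parker.N03

/-!
# MP_6c3636_al, GL_n(q), module B05: multiplicity one (Gelfand, Graev) (helper7)

Group algebra `A = MonoidAlgebra Ω (Gn F n)` (or functions with convolution). `e = |U|⁻¹ ∑_{u ∈ U} ψ(sd u) u` is idempotent and
`u e = e u = ψ(sd u) e`. `τ` (`exists_tau`) extends to a linear antiautomorphism of `A` with `τ e = e`.
Claim: `e g e = e (τ g) e` for all `g`. By `bruhat` `g = u w u'`, `e g e = ψ(sd u) ψ(sd u') e w e` and
`τ g = τ(u') τ(w) τ(u)`, `e (τ g) e = ψ(sd u') ψ(sd u) e (τ w) e`. If `w` is compatible (hypothesis of `compat_tau`) then `τ w = w`. Otherwise there is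
`u ∈ U` with `w u w⁻¹ ∈ U` and `ψ(sd (w u w⁻¹)) ≠ ψ(sd u)`: `e w e ψ(sd u) = e w u e = e (w u w⁻¹) w e = ψ(sd (w u w⁻¹)) e w e`, so `e w e = 0`; and
`e (τ w) e = τ (e w e) = 0`.
So `τ` is the identity on `e A e`, and `x y = τ (x y) = τ y τ x = y x` for `x, y ∈ e A e`.
Let `ρ` be irreducible on `X`, `W = whS ψ ρ = ρ(e) X`. The operators `ρ(e g e)` map `W` to `W` and commute on `W`.
If `W ≠ 0` they have a common eigenvector `x ∈ W` (commuting family over an algebraically closed field; e.g. induction, or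
`Module.End.exists_iSup...`; or: pick a minimal nonzero subspace of `W` stable under all `ρ(e g e)`, each operator
has an eigenspace on it which is stable under the others, so all act as scalars and it is a line).
`X` is spanned by the `ρ g x` (irreducible), so `W = ρ(e) X` is spanned by `ρ(e) ρ(g) x = ρ(e g e) x ∈ Ω x`. So `dim W ≤ 1`.
-/

namespace ParkerGL

noncomputable section

open Classical

variable {F : Type} [Field F] [Finite F] [CharP F 2] {Ω : Type} [Field Ω] [IsAlgClosed Ω]
  [CharZero Ω]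

namespace B05_aux

/-- the antiautomorphism of the group algebra given by `τ` -/
def phi {G : Type} [Group G] (τ : G → G) (h1 : ∀ g h, τ (g * h) = τ h * τ g)
    (h2 : ∀ g, τ (τ g) = g) : MonoidAlgebra Ω G →ₐ[Ω] (MonoidAlgebra Ω G)ᵐᵒᵖ :=
  MonoidAlgebra.lift Ω (MonoidAlgebra Ω G)ᵐᵒᵖ G
    { toFun := fun g => MulOpposite.op (MonoidAlgebra.of Ω G (τ g))
      map_one' := by
        have h3 : τ 1 = 1 := by
          have h4 := h1 1 (τ 1)
          rw [one_mul, h2] at h4
          have h5 : τ (1 : G) = 1 := by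
            have h6 := h1 1 1
            rw [mul_one] at h6
            exact left_eq_mul.1 h6
          exact h5
        rw [h3, map_one]
        rfl
      map_mul' := fun g h => by
        rw [h1, map_mul]
        rfl }

omit [IsAlgClosed Ω] [CharZero Ω] in
theorem phi_of {G : Type} [Group G] (τ : G → G) (h1 : ∀ g h, τ (g * h) = τ h * τ g)
    (h2 : ∀ g, τ (τ g) = g) (g : G) :
    phi (Ω := Ω) τ h1 h2 (MonoidAlgebra.of Ω G g) = MulOpposite.op (MonoidAlgebra.of Ω G (τ g)) := by
  unfold phi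
  rw [MonoidAlgebra.lift_of]
  rfl

/-- the abstract Gelfand trick: `χ` a character of order two of a subgroup `U`, `τ` an involutive
antiautomorphism preserving `U` and `χ`, and `E g E = E (τ g) E` -/
theorem comm_of {G : Type} [Group G] (τ : G → G) (h1 : ∀ g h, τ (g * h) = τ h * τ g)
    (h2 : ∀ g, τ (τ g) = g) (E : MonoidAlgebra Ω G)
    (hE : phi (Ω := Ω) τ h1 h2 E = MulOpposite.op E)
    (hg : ∀ g, E * MonoidAlgebra.of Ω G g * E = E * MonoidAlgebra.of Ω G (τ g) * E)
    (a b : MonoidAlgebra Ω G) :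
    (E * a * E) * (E * b * E) = (E * b * E) * (E * a * E) := by
  have key : ∀ a : MonoidAlgebra Ω G,
      phi (Ω := Ω) τ h1 h2 (E * a * E) = MulOpposite.op (E * a * E) := by
    intro a
    induction a using MonoidAlgebra.induction_on with
    | of g =>
      rw [map_mul, map_mul, hE, phi_of, ← MulOpposite.op_mul, ← MulOpposite.op_mul, ← mul_assoc,
        ← hg g]
    | add f g hf hg' =>
      rw [mul_add, add_mul, map_add, hf, hg', MulOpposite.op_add]
    | smul r f hf =>
      rw [mul_smul_comm, smul_mul_assoc, map_smul, hf, MulOpposite.op_smul]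
  have h3 := key (a * E * E * b)
  have h4 : E * (a * E * E * b) * E = (E * a * E) * (E * b * E) := by
    simp only [mul_assoc]
  rw [h4, map_mul, key, key, ← MulOpposite.op_mul] at h3
  exact (MulOpposite.op_injective h3).symm

/-- commuting compressions on an irreducible module: the range of the compression is at most a
line -/
theorem finrank_le {X : Type} [AddCommGroup X] [Module Ω X] (P : Module.End Ω X)
    (W : Submodule Ω X) (N : Ω) (hN : N ≠ 0) (hP : ∀ x, P x ∈ W) (hPW : ∀ x ∈ W, P x = N • x)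
    (hc : ∀ S S' : Module.End Ω X, (P * S * P) * (P * S' * P) = (P * S' * P) * (P * S * P)) :
    Module.finrank Ω W ≤ 1 := by
  by_cases hW : ∃ x ∈ W, x ≠ 0
  · obtain ⟨x, hx, hx0⟩ := hW
    obtain ⟨f, hf⟩ : ∃ f : Module.Dual Ω X, f x = 1 := by
      obtain ⟨f, hf⟩ : ∃ f : Module.Dual Ω X, f x ≠ 0 := by
        by_contra hcon
        push Not at hcon
        exact hx0 ((Module.forall_dual_apply_eq_zero_iff Ω _).1 hcon)
      refine ⟨(f x)⁻¹ • f, ?_⟩
      rw [LinearMap.smul_apply, smul_eq_mul, inv_mul_cancel₀ hf]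
    refine finrank_le_one (⟨x, hx⟩ : W) ?_
    rintro ⟨y, hy⟩
    have h1 := congrArg (fun T : Module.End Ω X => T x)
      (hc (LinearMap.smulRight f y) (LinearMap.smulRight f x))
    simp only [Module.End.mul_apply, LinearMap.smulRight_apply, map_smul, hPW x hx, hPW y hy,
      hf, smul_smul] at h1
    refine ⟨f y, ?_⟩
    apply Subtype.ext
    show f y • x = y
    have h2 : (N * N * N * N) • (f y • x) = (N * N * N * N) • y := by
      have e1 : (N * (1 * N) * (N * (1 * N))) = N * N * N * N := by ring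
      have e2 : (N * (1 * N) * (N * (f y * N))) = N * N * N * N * f y := by ring
      rw [e1, e2] at h1
      rw [smul_smul, h1]
    exact smul_right_injective X (mul_ne_zero (mul_ne_zero (mul_ne_zero hN hN) hN) hN) h2
  · push Not at hW
    have h1 : W = ⊥ := by
      rw [Submodule.eq_bot_iff]
      exact hW
    rw [h1, finrank_bot]
    exact Nat.zero_le 1

end B05_aux

theorem wh_le_one (ψ : AddChar F ℤ) (hψ : ∃ a, ψ a ≠ 1) {n : ℕ} {X : Type} [AddCommGroup X]
    [Module Ω X] [FiniteDimensional Ω X] {ρ : Representation Ω (Gn F n) X}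
    (hρ : ρ.IsIrreducible) : Module.finrank Ω (whS ψ ρ) ≤ 1 := by
  obtain ⟨τ, h1, h2, h3, h4⟩ := exists_tau F n
  let _ : Fintype (Gn F n) := Fintype.ofFinite _
  let χ : Gn F n → Ω := fun u => ((ψ (sd u) : ℤ) : Ω)
  let S : Finset (Gn F n) := Finset.univ.filter fun u => u ∈ UG F n
  let E : MonoidAlgebra Ω (Gn F n) := ∑ u ∈ S, χ u • MonoidAlgebra.of Ω (Gn F n) u
  have hS : ∀ u, u ∈ S ↔ u ∈ UG F n := fun u => by
    simp only [S, Finset.mem_filter, Finset.mem_univ, true_and]
  have hχm : ∀ u ∈ UG F n, ∀ v ∈ UG F n, χ (u * v) = χ u * χ v := by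
    intro u hu v hv
    simp only [χ]
    rw [sd_mul hu hv, AddChar.map_add_eq_mul, Int.cast_mul]
  have hχs : ∀ u, χ u * χ u = 1 := by
    intro u
    simp only [χ]
    rcases psi_val ψ (sd u) with h | h
    · rw [h]; simp
    · rw [h]; simp
  have hχτ : ∀ u ∈ UG F n, χ (τ u) = χ u := by
    intro u hu
    simp only [χ]
    rw [(h3 u hu).2]
  have hχi : ∀ u ∈ UG F n, χ u⁻¹ = χ u := by
    intro u hu
    simp only [χ]
    rw [sd_inv hu, psi_neg]
  -- left and right multiplication
  have hl : ∀ u ∈ UG F n, MonoidAlgebra.of Ω (Gn F n) u * E = χ u • E := by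
    intro u hu
    simp only [E]
    rw [Finset.mul_sum, Finset.smul_sum]
    refine Finset.sum_nbij' (fun v => u * v) (fun v => u⁻¹ * v) ?_ ?_ ?_ ?_ ?_
    · intro v hv
      rw [hS] at hv ⊢
      exact mul_mem hu hv
    · intro v hv
      rw [hS] at hv ⊢
      exact mul_mem (inv_mem hu) hv
    · intro v _
      exact inv_mul_cancel_left u v
    · intro v _
      exact mul_inv_cancel_left u v
    · intro v hv
      rw [hS] at hv
      rw [mul_smul_comm, ← map_mul, hχm u hu v hv, smul_smul, ← mul_assoc, hχs, one_mul]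
  have hr : ∀ u ∈ UG F n, E * MonoidAlgebra.of Ω (Gn F n) u = χ u • E := by
    intro u hu
    simp only [E]
    rw [Finset.sum_mul, Finset.smul_sum]
    refine Finset.sum_nbij' (fun v => v * u) (fun v => v * u⁻¹) ?_ ?_ ?_ ?_ ?_
    · intro v hv
      rw [hS] at hv ⊢
      exact mul_mem hv hu
    · intro v hv
      rw [hS] at hv ⊢
      exact mul_mem hv (inv_mem hu)
    · intro v _
      exact mul_inv_cancel_right v u
    · intro v _
      exact inv_mul_cancel_right v u
    · intro v hv
      rw [hS] at hv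
      rw [smul_mul_assoc, ← map_mul, hχm v hv u hu, smul_smul, mul_comm (χ v) (χ u), ← mul_assoc,
        hχs, one_mul]
  have hE : B05_aux.phi (Ω := Ω) τ h1 h2 E = MulOpposite.op E := by
    have h5 : MulOpposite.op E = ∑ u ∈ S, χ u • MulOpposite.op (MonoidAlgebra.of Ω (Gn F n) u) := by
      simp only [E]
      rw [Finset.op_sum]
      rfl
    rw [h5]
    simp only [E]
    rw [map_sum]
    refine Finset.sum_nbij' τ τ ?_ ?_ ?_ ?_ ?_
    · intro v hv
      rw [hS] at hv ⊢
      exact (h3 v hv).1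
    · intro v hv
      rw [hS] at hv ⊢
      exact (h3 v hv).1
    · intro v _
      exact h2 v
    · intro v _
      exact h2 v
    · intro v hv
      rw [hS] at hv
      rw [map_smul, B05_aux.phi_of, hχτ v hv]
  have hw : ∀ (w : Gn F n) (σ : Equiv.Perm (Fin n)) (c : Fin n → F), IsMono w σ c →
      E * MonoidAlgebra.of Ω (Gn F n) w * E = E * MonoidAlgebra.of Ω (Gn F n) (τ w) * E := by
    intro w σ c hwσ
    by_cases hcomp : ∀ u ∈ UG F n, w * u * w⁻¹ ∈ UG F n → ψ (sd (w * u * w⁻¹)) = ψ (sd u)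
    · rw [compat_tau ψ hψ hwσ hcomp h4]
    · push Not at hcomp
      obtain ⟨u, hu, hu', hne⟩ := hcomp
      have h5 : E * MonoidAlgebra.of Ω (Gn F n) w * E = 0 := by
        have h6 : E * MonoidAlgebra.of Ω (Gn F n) w * (MonoidAlgebra.of Ω (Gn F n) u * E) =
            (E * MonoidAlgebra.of Ω (Gn F n) (w * u * w⁻¹)) * MonoidAlgebra.of Ω (Gn F n) w * E := by
          rw [← mul_assoc, mul_assoc E, ← map_mul, mul_assoc E (MonoidAlgebra.of Ω (Gn F n) (w * u * w⁻¹)),
            ← map_mul, inv_mul_cancel_right]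
        rw [hl u hu, hr _ hu', mul_smul_comm, smul_mul_assoc, smul_mul_assoc] at h6
        have h7 : (χ (w * u * w⁻¹) - χ u) • (E * MonoidAlgebra.of Ω (Gn F n) w * E) = 0 := by
          rw [sub_smul, ← h6, sub_self]
        rcases smul_eq_zero.1 h7 with h8 | h8
        · exfalso
          apply hne
          have h9 := sub_eq_zero.1 h8
          simp only [χ] at h9
          exact_mod_cast h9
        · exact h8
      rw [h5]
      have h6 := congrArg (B05_aux.phi (Ω := Ω) τ h1 h2) h5
      rw [map_mul, map_mul, hE, B05_aux.phi_of, map_zero, ← MulOpposite.op_mul,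
        ← MulOpposite.op_mul, ← mul_assoc] at h6
      exact ((MulOpposite.op_eq_zero_iff _).1 h6).symm
  have hg : ∀ g, E * MonoidAlgebra.of Ω (Gn F n) g * E =
      E * MonoidAlgebra.of Ω (Gn F n) (τ g) * E := by
    intro g
    obtain ⟨u, hu, u', hu', w, σ, c, hwσ, rfl⟩ := bruhat g
    have h5 : ∀ u ∈ UG F n, ∀ u' ∈ UG F n, ∀ w : Gn F n,
        E * MonoidAlgebra.of Ω (Gn F n) (u * w * u') * E =
          (χ u * χ u') • (E * MonoidAlgebra.of Ω (Gn F n) w * E) := by
      intro u hu u' hu' w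
      rw [map_mul, map_mul, ← mul_assoc, ← mul_assoc, hr u hu, mul_assoc _ _ E, hl u' hu',
        mul_smul_comm, smul_mul_assoc, smul_mul_assoc, smul_smul, mul_comm (χ u') (χ u)]
    have h6 : τ (u * w * u') = τ u' * τ w * τ u := by
      rw [h1, h1, mul_assoc]
    rw [h6, h5 u hu u' hu', h5 _ (h3 u' hu').1 _ (h3 u hu).1, hχτ u hu, hχτ u' hu',
      mul_comm (χ u') (χ u), hw w σ c hwσ]
  -- the compressions commute
  have hcomm := B05_aux.comm_of τ h1 h2 E hE hg
  have hsurj : ∀ T : Module.End Ω X, ∃ a : MonoidAlgebra Ω (Gn F n), ρ.asAlgebraHom a = T := by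
    intro T
    obtain ⟨y, hy⟩ := Parker.act_surj hρ T
    refine ⟨∑ g, y g • MonoidAlgebra.of Ω (Gn F n) g, ?_⟩
    rw [map_sum, ← hy, Parker.act_eq]
    refine Finset.sum_congr rfl fun g _ => ?_
    rw [map_smul, Representation.asAlgebraHom_of]
  have hR : ∀ x, ρ.asAlgebraHom E x = ∑ u ∈ S, χ u • ρ u x := by
    intro x
    simp only [E]
    rw [map_sum, LinearMap.sum_apply]
    refine Finset.sum_congr rfl fun u _ => ?_
    rw [map_smul, Representation.asAlgebraHom_of, LinearMap.smul_apply]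
  refine B05_aux.finrank_le (ρ.asAlgebraHom E) (whS ψ ρ) (S.card : Ω) ?_ ?_ ?_ ?_
  · rw [Nat.cast_ne_zero, Finset.card_ne_zero]
    exact ⟨1, (hS 1).2 (one_mem _)⟩
  · intro x u hu
    have h5 := congrArg (fun a => ρ.asAlgebraHom a x) (hl u hu)
    simp only [map_mul, Module.End.mul_apply, Representation.asAlgebraHom_of, map_smul,
      LinearMap.smul_apply] at h5
    exact h5
  · intro x hx
    rw [hR]
    have h5 : ∀ u ∈ S, χ u • ρ u x = x := by
      intro u hu
      rw [hS] at hu
      have h6 : ρ u x = χ u • x := hx u hu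
      rw [h6, smul_smul, hχs, one_smul]
    rw [Finset.sum_congr rfl h5, Finset.sum_const, Nat.cast_smul_eq_nsmul]
  · intro T T'
    obtain ⟨a, ha⟩ := hsurj T
    obtain ⟨b, hb⟩ := hsurj T'
    have h5 := congrArg ρ.asAlgebraHom (hcomm a b)
    simp only [map_mul, ha, hb] at h5
    exact h5

end

end ParkerGL
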