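import Pool.Agent.ParkerGL.B01

/-!
# MP_6c3636_al, GL_n(q), module B06: the decomposition by derivatives (helper7)

Matrices: rows and columns `0, …, n-1`. For `0 ≤ k < n` let `H_k = {blk (ext 1 u t) : u ∈ UG F k}` (blocks `n = (n-k) + k`), i.e.
the unitriangular matrices with trivial columns `0, …, n-k-1`, and let `E_k` be the space of the `x ∈ X` with
`ρ g x = ψ(sd g) x` for all `g ∈ H_k`; here `sd g = sd u + (t e_0)_{n-k-1}` (`sd` of the full matrix) for `k ≥ 1`; `E_0 = X`.
The space of the `k`-th derivative is `D_k = {x : ρ g x = ψ(sd u) x for g ∈ H_k}`, `1 ≤ k ≤ n` (`derS`).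

Step, `1 ≤ k ≤ n - 1`, `j = n - k` (`1 ≤ j`): let `N = {1 + ∑_{i<j} v_i E_{i j} : v ∈ F^j}` (column `j`), an elementary abelian `2`-group
(`≅ (F^j, +)`), and `M = GL_j` (the block `ext y 1 0`, acting on the coordinates `0, …, j-1`). Both preserve `E_{k-1}`
(they normalize `H_{k-1}`, the unitriangular matrices with trivial columns `≤ j`, and do not change `sd`
on it: the entries `(i, i+1)`, `i ≥ j`, do not change under conjugation by `N` and `M`), and `M` normalizes `N`
(`v ↦ y v`). So `E_{k-1}` is the direct sum (orthogonal for each invariant form) of the eigenspaces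
`E_{k-1}(λ) = {x ∈ E_{k-1} : ρ(1 + ∑ v_i E_{ij}) x = ψ(∑ λ_i v_i) x}`, `λ ∈ F^j` (every homomorphism `F^j → {1,-1}` is of this form for exactly one `λ`: count, `2^(dim)`; or
show directly `∑_λ e_λ = 1`, `e_λ e_μ = 0` for `λ ≠ μ`, with `e_λ = q^(-j) ∑_v ψ(λ v) ρ(1 + v)`, which only needs
`∑_v ψ(λ v) = 0` for `λ ≠ 0`). `E_{k-1}(0) = D_k`, `E_{k-1}(e_{j-1}) = E_k`, and for `λ ≠ 0` there is `y ∈ GL_j` with
`E_{k-1}(λ) = ρ(y) E_k` (`GL_j` is transitive on the nonzero row vectors). The number of the `λ ≠ 0` is `q^j - 1`, odd.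
Finally `E_{n-1} = D_n` (`j = 1`... for `k = n`, the group `H_n = UG F n`, which is `H_{n-1}`, as column `0` is trivial).

So by induction: `X = E_0 = D_1 ⊕ (odd number of translates of E_1)`, `E_1 = D_2 ⊕ (odd number of translates of E_2)`, …. A translate of
a direct sum is the direct sum of the translates, and the number of translates of `D_k` is a product of odd numbers.
For the induction prove the statement `P_k`: `E_k` is the internal (orthogonal) direct sum of translates of `D_{k+1}, …, D_n`,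
each of them an odd number of times, downwards from `k = n - 1`.
Orthogonality: eigenspaces for different characters `1, -1`-valued of a group acting by isometries are orthogonal; translates of
orthogonal spaces by the same element are orthogonal.
-/

namespace ParkerGL

noncomputable section

open Classical

namespace B06_aux

variable {F : Type} [Field F] [Finite F] {L : Type} [Field L]
  {X : Type} [AddCommGroup X] [Module L X]

/-- unitriangular matrices with trivial columns `< a` -/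
def Hs (F : Type) [Field F] [Finite F] (n a : ℕ) : Set (Gn F n) :=
  {g | g ∈ UG F n ∧ ∀ j : Fin n, (j : ℕ) < a → g (Pi.single j 1) = Pi.single j 1}

/-- the space of the vectors on which `Hs` acts by the character -/
def Es {n : ℕ} (ψ : AddChar F ℤ) (ρ : Representation L (Gn F n) X) (a : ℕ) :
    Submodule L X where
  carrier := {x | ∀ g ∈ Hs F n a, ρ g x = ((ψ (sd g) : ℤ) : L) • x}
  add_mem' := by
    intro x y hx hy u hu
    rw [map_add, hx u hu, hy u hu, smul_add]
  zero_mem' := by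
    intro u _
    rw [map_zero, smul_zero]
  smul_mem' := by
    intro c x hx u hu
    rw [map_smul, hx u hu, smul_comm]

theorem single_left {a b n : ℕ} (h : a + b = n) (i : Fin n) (hi : (i : ℕ) < a) :
    (Pi.single i 1 : Fin n → F) = pe F h (Pi.single ⟨i, hi⟩ 1, 0) := by
  funext l
  by_cases hl : (l : ℕ) < a
  · rw [pe_apply_left h _ l hl]
    simp only [Pi.single_apply, Fin.ext_iff]
  · rw [pe_apply_right h _ l (not_lt.1 hl)]
    have : l ≠ i := by
      rintro rfl
      exact hl hi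
    simp [Pi.single_apply, this]

theorem single_right {a b n : ℕ} (h : a + b = n) (i : Fin n) (hi : a ≤ (i : ℕ)) :
    (Pi.single i 1 : Fin n → F) = pe F h (0, Pi.single ⟨i - a, by omega⟩ 1) := by
  funext l
  by_cases hl : (l : ℕ) < a
  · rw [pe_apply_left h _ l hl]
    have : l ≠ i := by
      rintro rfl
      omega
    simp [Pi.single_apply, this]
  · rw [pe_apply_right h _ l (not_lt.1 hl)]
    simp only [Pi.single_apply, Fin.ext_iff]
    have : ((l : ℕ) = i) ↔ ((l : ℕ) - a = i - a) := by omega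
    simp only [this]

theorem blk_pe {a b n : ℕ} (h : a + b = n) (x : GV F ((Fin a → F) × (Fin b → F)))
    (p : (Fin a → F) × (Fin b → F)) : blk F h x (pe F h p) = pe F h (x p) := by
  show pe F h (x ((pe F h).symm (pe F h p))) = pe F h (x p)
  rw [LinearEquiv.symm_apply_apply]

theorem mem_H {a b n : ℕ} (h : a + b = n) (g : Gn F n) :
    g ∈ Hs F n a ↔ ∃ u ∈ UG F b, ∃ t, g = blk F h (ext 1 u t) := by
  constructor
  · rintro ⟨hg, hc⟩
    obtain ⟨x, rfl⟩ := (blk F h).surjective g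
    have h1 : ∀ v : Fin a → F, x (v, 0) = (v, 0) := by
      intro v
      have h2 : ∀ i : Fin a, x (Pi.single i 1, 0) = (Pi.single i 1, 0) := by
        intro i
        have h3 := hc ⟨i, by omega⟩ i.2
        rw [single_left h ⟨i, by omega⟩ i.2, blk_pe] at h3
        exact (pe F h).injective h3
      have h4 : (x : _ →ₗ[F] _) ∘ₗ LinearMap.inl F (Fin a → F) (Fin b → F) =
          LinearMap.inl F (Fin a → F) (Fin b → F) := by
        apply LinearMap.pi_ext'
        intro i
        ext1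
        exact h2 i
      exact LinearMap.congr_fun h4 v
    obtain ⟨y, z, t, rfl⟩ := exists_ext x (fun v => by rw [h1])
    have hy : y = 1 := by
      ext1 v
      have h2 := h1 v
      have h3 := congrArg Prod.fst h2
      rw [ext_apply] at h3
      simpa using h3
    subst hy
    refine ⟨z, ?_, t, rfl⟩
    rw [mem_UG_iff] at hg ⊢
    intro l i hli
    have h2 := hg ⟨a + l, by omega⟩ ⟨a + i, by omega⟩ (by
      show a + (l : ℕ) ≤ a + i
      have : (l : ℕ) ≤ i := hli
      omega)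
    rw [single_right h ⟨a + l, by omega⟩ (by simp), blk_pe,
      pe_apply_right h _ ⟨a + i, by omega⟩ (by simp)] at h2
    simp only [ext_apply, Nat.add_sub_cancel_left, Fin.mk.injEq, add_right_inj, Fin.eta] at h2
    rw [h2]
    simp only [Fin.ext_iff]
  · rintro ⟨u, hu, t, rfl⟩
    have hc : ∀ j : Fin n, (j : ℕ) < a → blk F h (ext 1 u t) (Pi.single j 1) = Pi.single j 1 := by
      intro j hj
      rw [single_left h j hj, blk_pe, ext_apply]
      simp
    refine ⟨?_, hc⟩
    rw [mem_UG_iff] at hu ⊢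
    intro j i hji
    by_cases hj : (j : ℕ) < a
    · rw [hc j hj, Pi.single_apply]
    · have hji' : (j : ℕ) ≤ i := hji
      have hj' : a ≤ (j : ℕ) := not_lt.1 hj
      rw [single_right h j hj', blk_pe, pe_apply_right h _ i (by omega), ext_apply]
      have h2 := hu ⟨j - a, by omega⟩ ⟨i - a, by omega⟩ (by
        show (j : ℕ) - a ≤ i - a
        omega)
      show u (Pi.single ⟨j - a, by omega⟩ 1) ⟨i - a, by omega⟩ = _
      rw [h2]
      simp only [Fin.ext_iff]
      have : ((i : ℕ) - a = j - a) ↔ ((i : ℕ) = j) := by omega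
      simp only [this]

theorem sd_blk {a b n : ℕ} (h : a + b = n) (u : Gn F b) (t : (Fin b → F) →ₗ[F] (Fin a → F)) :
    sd (blk F h (ext 1 u t)) = sd u +
      ∑ i : Fin a, ∑ l : Fin b, if (i : ℕ) + 1 = a + l then t (Pi.single l 1) i else 0 := by
  subst h
  unfold sd
  rw [Fin.sum_univ_add]
  simp_rw [Fin.sum_univ_add]
  have e1 : ∀ j : Fin a, blk F (rfl : a + b = a + b) (ext 1 u t)
      (Pi.single (Fin.castAdd b j) 1) = Pi.single (Fin.castAdd b j) 1 := by
    intro j
    rw [single_left rfl (Fin.castAdd b j) j.2, blk_pe, ext_apply]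
    simp
  have e2 : ∀ j : Fin b, blk F (rfl : a + b = a + b) (ext 1 u t)
      (Pi.single (Fin.natAdd a j) 1) = pe F rfl (t (Pi.single j 1), u (Pi.single j 1)) := by
    intro j
    have h1 : (Pi.single (Fin.natAdd a j) 1 : Fin (a + b) → F) =
        pe F rfl (0, Pi.single j 1) := by
      rw [single_right rfl (Fin.natAdd a j) (by simp)]
      congr 3
      apply Fin.ext
      simp
    rw [h1, blk_pe, ext_apply]
    simp
  have e3 : ∀ (p : (Fin a → F) × (Fin b → F)) (i : Fin a),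
      pe F rfl p (Fin.castAdd b i) = p.1 i := by
    intro p i
    rw [pe_apply_left rfl p (Fin.castAdd b i) i.2]
    rfl
  have e4 : ∀ (p : (Fin a → F) × (Fin b → F)) (i : Fin b),
      pe F rfl p (Fin.natAdd a i) = p.2 i := by
    intro p i
    rw [pe_apply_right rfl p (Fin.natAdd a i) (by simp)]
    have h1 : (⟨(Fin.natAdd a i : ℕ) - a, by simp⟩ : Fin b) = i := by
      apply Fin.ext
      simp
    exact congrArg p.2 h1
  simp only [e1, e2, e3, e4, Fin.val_castAdd, Fin.val_natAdd, Finset.sum_add_distrib]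
  have f1 : (∑ i : Fin a, ∑ j : Fin a, if (i : ℕ) + 1 = j then
      (Pi.single (Fin.castAdd b j) (1 : F) : Fin (a + b) → F) (Fin.castAdd b i) else 0) = 0 := by
    apply Finset.sum_eq_zero
    intro i _
    apply Finset.sum_eq_zero
    intro j _
    split_ifs with hij
    · rw [Pi.single_apply, if_neg]
      intro h1
      have h2 : (i : ℕ) = j := by
        have h3 := congrArg Fin.val h1
        simpa using h3
      omega
    · rfl
  have f2 : (∑ i : Fin b, ∑ j : Fin a, if a + (i : ℕ) + 1 = j then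
      (Pi.single (Fin.castAdd b j) (1 : F) : Fin (a + b) → F) (Fin.natAdd a i) else 0) = 0 := by
    apply Finset.sum_eq_zero
    intro i _
    apply Finset.sum_eq_zero
    intro j _
    rw [if_neg]
    omega
  rw [f1, f2, zero_add, zero_add, add_comm]
  congr 1
  apply Finset.sum_congr rfl
  intro i _
  apply Finset.sum_congr rfl
  intro j _
  have : (a + (i : ℕ) + 1 = a + j) ↔ ((i : ℕ) + 1 = j) := by omega
  simp only [this]

omit [Finite F] in
theorem blk_mul {a b n : ℕ} (h : a + b = n) (y y' : Gn F a) (z z' : Gn F b)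
    (t t' : (Fin b → F) →ₗ[F] (Fin a → F)) (ρ : Representation L (Gn F n) X) (x : X) :
    ρ (blk F h (ext y z t)) (ρ (blk F h (ext y' z' t')) x) =
      ρ (blk F h (ext (y * y') (z * z') ((y : (Fin a → F) →ₗ[F] (Fin a → F)) ∘ₗ t' +
        t ∘ₗ (z' : (Fin b → F) →ₗ[F] (Fin b → F))))) x := by
  rw [← Module.End.mul_apply, ← map_mul, ← map_mul, ext_mul]

/-- the transvection data: `c ↦ c 0 • v` -/
def tv (k : ℕ) {j : ℕ} (v : Fin j → F) : (Fin (k + 1) → F) →ₗ[F] (Fin j → F) :=
  (LinearMap.proj 0 : (Fin (k + 1) → F) →ₗ[F] F).smulRight v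

omit [Finite F] in
theorem tv_apply (k : ℕ) {j : ℕ} (v : Fin j → F) (c : Fin (k + 1) → F) :
    tv k v c = c 0 • v := rfl

theorem UG_zero {k : ℕ} {u : Gn F (k + 1)} (hu : u ∈ UG F (k + 1)) :
    u (Pi.single 0 1) = Pi.single 0 1 := by
  rw [mem_UG_iff] at hu
  funext i
  rw [hu 0 i (Fin.zero_le i), Pi.single_apply]

theorem mem_H_succ {j k n : ℕ} (h : j + (k + 1) = n) (g : Gn F n) :
    g ∈ Hs F n (j + 1) ↔ ∃ u ∈ UG F (k + 1), ∃ t : (Fin (k + 1) → F) →ₗ[F] (Fin j → F),
      t (Pi.single 0 1) = 0 ∧ g = blk F h (ext 1 u t) := by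
  have hs : (Pi.single ⟨j, by omega⟩ 1 : Fin n → F) = pe F h (0, Pi.single 0 1) := by
    rw [single_right h ⟨j, by omega⟩ le_rfl]
    congr 3
    apply Fin.ext
    simp
  constructor
  · rintro ⟨hg, hc⟩
    have h1 : g ∈ Hs F n j := ⟨hg, fun l hl => hc l (by omega)⟩
    obtain ⟨u, hu, t, rfl⟩ := (mem_H h g).1 h1
    refine ⟨u, hu, t, ?_, rfl⟩
    have h2 := hc ⟨j, by omega⟩ (Nat.lt_succ_self j)
    rw [hs, blk_pe] at h2
    have h3 := congrArg Prod.fst ((pe F h).injective h2)
    rw [ext_apply] at h3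
    simpa using h3
  · rintro ⟨u, hu, t, ht, rfl⟩
    have h1 := (mem_H h _).2 ⟨u, hu, t, rfl⟩
    refine ⟨h1.1, ?_⟩
    intro l hl
    by_cases hl' : (l : ℕ) < j
    · exact h1.2 l hl'
    · have h2 : l = ⟨j, by omega⟩ := Fin.ext (by show (l : ℕ) = j; omega)
      rw [h2, hs, blk_pe, ext_apply]
      congr 1
      apply Prod.ext
      · show (1 : Gn F j) 0 + t (Pi.single 0 1) = 0
        rw [ht, map_zero, add_zero]
      · show u (Pi.single 0 1) = Pi.single 0 1
        exact UG_zero hu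

theorem sd_blk_zero {j k n : ℕ} (h : j + (k + 1) = n) (u : Gn F (k + 1))
    (t : (Fin (k + 1) → F) →ₗ[F] (Fin j → F)) (ht : t (Pi.single 0 1) = 0) :
    sd (blk F h (ext 1 u t)) = sd u := by
  rw [sd_blk]
  rw [Finset.sum_eq_zero, add_zero]
  intro i _
  apply Finset.sum_eq_zero
  intro l _
  split_ifs with hil
  · have : l = 0 := Fin.ext (by show (l : ℕ) = 0; omega)
    rw [this, ht]
    rfl
  · rfl

theorem sd_blk_succ {j k n : ℕ} (h : (j + 1) + (k + 1) = n) (u : Gn F (k + 1))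
    (t : (Fin (k + 1) → F) →ₗ[F] (Fin (j + 1) → F)) :
    sd (blk F h (ext 1 u t)) = sd u + t (Pi.single 0 1) (Fin.last j) := by
  rw [sd_blk]
  congr 1
  rw [Finset.sum_eq_single (Fin.last j), Finset.sum_eq_single 0]
  · rw [if_pos]
    simp
  · intro l _ hl
    rw [if_neg]
    intro h1
    apply hl
    apply Fin.ext
    have h2 : (Fin.last j : ℕ) = j := rfl
    rw [h2] at h1
    show (l : ℕ) = 0
    omega
  · intro h1
    exact absurd (Finset.mem_univ _) h1
  · intro i _ hi
    apply Finset.sum_eq_zero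
    intro l _
    rw [if_neg]
    intro h1
    apply hi
    apply Fin.ext
    have h2 : (Fin.last j : ℕ) = j := rfl
    rw [h2]
    omega
  · intro h1
    exact absurd (Finset.mem_univ _) h1

theorem mem_Es_succ {j k n : ℕ} (ψ : AddChar F ℤ) (h : j + (k + 1) = n)
    (ρ : Representation L (Gn F n) X) (x : X) :
    x ∈ Es ψ ρ (j + 1) ↔ ∀ u ∈ UG F (k + 1), ∀ t : (Fin (k + 1) → F) →ₗ[F] (Fin j → F),
      t (Pi.single 0 1) = 0 → ρ (blk F h (ext 1 u t)) x = ((ψ (sd u) : ℤ) : L) • x := by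
  constructor
  · intro hx u hu t ht
    rw [hx _ ((mem_H_succ h _).2 ⟨u, hu, t, ht, rfl⟩), sd_blk_zero h u t ht]
  · intro hx g hg
    obtain ⟨u, hu, t, ht, rfl⟩ := (mem_H_succ h g).1 hg
    rw [hx u hu t ht, sd_blk_zero h u t ht]

theorem stab {j k n : ℕ} (ψ : AddChar F ℤ) (h : j + (k + 1) = n)
    (ρ : Representation L (Gn F n) X) (y : Gn F j)
    (s : (Fin (k + 1) → F) →ₗ[F] (Fin j → F)) {x : X} (hx : x ∈ Es ψ ρ (j + 1)) :
    ρ (blk F h (ext y 1 s)) x ∈ Es ψ ρ (j + 1) := by
  rw [mem_Es_succ ψ h] at hx ⊢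
  intro u hu t ht
  let t' : (Fin (k + 1) → F) →ₗ[F] (Fin j → F) :=
    ((y⁻¹ : Gn F j) : (Fin j → F) →ₗ[F] (Fin j → F)) ∘ₗ
      (s + t - s ∘ₗ (u : (Fin (k + 1) → F) →ₗ[F] (Fin (k + 1) → F)))
  have ht' : t' (Pi.single 0 1) = 0 := by
    show (y⁻¹ : Gn F j) (s (Pi.single 0 1) + t (Pi.single 0 1) - s (u (Pi.single 0 1))) = 0
    rw [UG_zero hu, ht]
    simp
  have h1 := hx u hu t' ht'
  rw [blk_mul]
  have h2 : ρ (blk F h (ext y 1 s)) (ρ (blk F h (ext 1 u t')) x) =
      ((ψ (sd u) : ℤ) : L) • ρ (blk F h (ext y 1 s)) x := by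
    rw [h1, map_smul]
  rw [← h2, blk_mul]
  congr 3
  rw [one_mul, mul_one, one_mul, mul_one]
  congr 1
  ext1 v
  ext1
  show s _ + t _ = y ((y⁻¹ : Gn F j) (s _ + t _ - s (u _))) + s (u _)
  have h3 : ∀ w, y ((y⁻¹ : Gn F j) w) = w := fun w => y.apply_symm_apply w
  rw [h3]
  abel

/-- the eigenspaces -/
def Eg {j k n : ℕ} (ψ : AddChar F ℤ) (h : j + (k + 1) = n)
    (ρ : Representation L (Gn F n) X) (l : (Fin j → F) →ₗ[F] F) : Submodule L X where
  carrier := {x | x ∈ Es ψ ρ (j + 1) ∧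
    ∀ v, ρ (blk F h (ext 1 1 (tv k v))) x = ((ψ (l v) : ℤ) : L) • x}
  add_mem' := by
    intro x y hx hy
    refine ⟨add_mem hx.1 hy.1, fun v => ?_⟩
    rw [map_add, hx.2 v, hy.2 v, smul_add]
  zero_mem' := by
    refine ⟨zero_mem _, fun v => ?_⟩
    rw [map_zero, smul_zero]
  smul_mem' := by
    intro c x hx
    refine ⟨Submodule.smul_mem _ c hx.1, fun v => ?_⟩
    rw [map_smul, hx.2 v, smul_comm]

theorem mem_Eg {j k n : ℕ} {ψ : AddChar F ℤ} {h : j + (k + 1) = n}
    {ρ : Representation L (Gn F n) X} {l : (Fin j → F) →ₗ[F] F} {x : X} :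
    x ∈ Eg ψ h ρ l ↔ x ∈ Es ψ ρ (j + 1) ∧
      ∀ v, ρ (blk F h (ext 1 1 (tv k v))) x = ((ψ (l v) : ℤ) : L) • x := Iff.rfl

/-- decomposition of the elements `blk (ext 1 u t)` -/
theorem split {j k n : ℕ} (h : j + (k + 1) = n) (ρ : Representation L (Gn F n) X) {u}
    (hu : u ∈ UG F (k + 1)) (t : (Fin (k + 1) → F) →ₗ[F] (Fin j → F)) (x : X) :
    ∃ t' : (Fin (k + 1) → F) →ₗ[F] (Fin j → F), t' (Pi.single 0 1) = 0 ∧
      ρ (blk F h (ext 1 u t)) x =
        ρ (blk F h (ext 1 1 (tv k (t (Pi.single 0 1))))) (ρ (blk F h (ext 1 u t')) x) := by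
  refine ⟨t - tv k (t (Pi.single 0 1)) ∘ₗ (u : (Fin (k + 1) → F) →ₗ[F] (Fin (k + 1) → F)),
    ?_, ?_⟩
  · show t (Pi.single 0 1) - (u (Pi.single 0 1)) 0 • t (Pi.single 0 1) = 0
    rw [UG_zero hu]
    simp
  · rw [blk_mul]
    congr 3
    rw [one_mul, one_mul]
    congr 1
    ext1 v
    ext1
    show t _ = (t _ - tv k (t (Pi.single 0 1)) (u _)) + tv k (t (Pi.single 0 1)) (u _)
    abel

theorem derS_eq {j k n : ℕ} (ψ : AddChar F ℤ) (h : j + (k + 1) = n)
    (ρ : Representation L (Gn F n) X) : derS ψ h ρ = Eg ψ h ρ 0 := by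
  apply le_antisymm
  · intro x hx
    have hx' : ∀ u ∈ UG F (k + 1), ∀ t : (Fin (k + 1) → F) →ₗ[F] (Fin j → F),
      ρ (blk F h (ext 1 u t)) x = ((ψ (sd u) : ℤ) : L) • x := hx
    rw [mem_Eg, mem_Es_succ ψ h]
    refine ⟨fun u hu t _ => hx' u hu t, fun v => ?_⟩
    rw [hx' 1 (one_mem _), sd_one]
    rfl
  · intro x hx
    rw [mem_Eg, mem_Es_succ ψ h] at hx
    intro u hu t
    obtain ⟨t', ht', h1⟩ := split h ρ hu t x
    rw [h1, hx.1 u hu t' ht', map_smul, hx.2]
    simp

theorem Es_eq {j k n : ℕ} (ψ : AddChar F ℤ) (h : (j + 1) + (k + 1) = n)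
    (ρ : Representation L (Gn F n) X) :
    Es ψ ρ (j + 1) = Eg ψ h ρ (LinearMap.proj (Fin.last j)) := by
  apply le_antisymm
  · intro x hx
    have hx' : ∀ u ∈ UG F (k + 1), ∀ t : (Fin (k + 1) → F) →ₗ[F] (Fin (j + 1) → F),
        ρ (blk F h (ext 1 u t)) x =
          ((ψ (sd u + t (Pi.single 0 1) (Fin.last j)) : ℤ) : L) • x := by
      intro u hu t
      rw [← sd_blk_succ h u t]
      exact hx _ ((mem_H h _).2 ⟨u, hu, t, rfl⟩)
    rw [mem_Eg, mem_Es_succ ψ h]
    refine ⟨fun u hu t ht => ?_, fun v => ?_⟩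
    · rw [hx' u hu t, ht]
      simp
    · rw [hx' 1 (one_mem _), sd_one, tv_apply]
      simp
  · intro x hx
    rw [mem_Eg, mem_Es_succ ψ h] at hx
    intro g hg
    obtain ⟨u, hu, t, rfl⟩ := (mem_H h g).1 hg
    obtain ⟨t', ht', h1⟩ := split h ρ hu t x
    rw [h1, hx.1 u hu t' ht', map_smul, hx.2, sd_blk_succ, smul_smul, AddChar.map_add_eq_mul]
    simp

theorem Es_one {n : ℕ} (ψ : AddChar F ℤ) (h : 0 + (n + 1) = n + 1)
    (ρ : Representation L (Gn F (n + 1)) X) : Es ψ ρ 1 = derS ψ h ρ := by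
  rw [derS_eq]
  apply le_antisymm
  · intro x hx
    rw [mem_Eg]
    refine ⟨hx, fun v => ?_⟩
    rw [mem_Es_succ ψ h] at hx
    rw [hx 1 (one_mem _) (tv n v) (Subsingleton.elim _ _), sd_one]
    rfl
  · intro x hx
    exact hx.1

theorem Es_top {n : ℕ} (ψ : AddChar F ℤ) (ρ : Representation L (Gn F n) X) :
    Es ψ ρ n = ⊤ := by
  rw [eq_top_iff]
  intro x _ g hg
  have h1 : g = 1 := by
    apply LinearEquiv.toLinearMap_injective
    apply LinearMap.pi_ext'
    intro i
    ext1
    exact hg.2 i i.2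
  rw [h1, sd_one, map_one]
  simp

section char2

variable [CharP F 2]

/-- `GL_j` is transitive on nonzero functionals -/
theorem exists_gl {j : ℕ} {l m : (Fin j → F) →ₗ[F] F} (hl : l ≠ 0) (hm : m ≠ 0) :
    ∃ y : Gn F j, ∀ v, l (y v) = m v := by
  obtain ⟨v0, hv0⟩ : ∃ v, l v = 1 := LinearMap.surjective hl 1
  obtain ⟨w0, hw0⟩ : ∃ v, m v = 1 := LinearMap.surjective hm 1
  have hk : Module.finrank F (LinearMap.ker m) = Module.finrank F (LinearMap.ker l) := by
    have h1 := LinearMap.finrank_range_add_finrank_ker l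
    have h2 := LinearMap.finrank_range_add_finrank_ker m
    rw [LinearMap.range_eq_top.2 (LinearMap.surjective hl)] at h1
    rw [LinearMap.range_eq_top.2 (LinearMap.surjective hm)] at h2
    omega
  let f : LinearMap.ker m ≃ₗ[F] LinearMap.ker l := LinearEquiv.ofFinrankEq _ _ hk
  have hp : ∀ x, x - m x • w0 ∈ LinearMap.ker m := by
    intro x
    rw [LinearMap.mem_ker, map_sub, map_smul, hw0]
    simp
  let pr : (Fin j → F) →ₗ[F] LinearMap.ker m :=
    { toFun := fun x => ⟨x - m x • w0, hp x⟩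
      map_add' := by
        intro x y
        apply Subtype.ext
        show x + y - m (x + y) • w0 = (x - m x • w0) + (y - m y • w0)
        rw [map_add, add_smul]
        abel
      map_smul' := by
        intro c x
        apply Subtype.ext
        show c • x - m (c • x) • w0 = c • (x - m x • w0)
        rw [map_smul, smul_sub, smul_eq_mul, mul_smul] }
  let g : (Fin j → F) →ₗ[F] (Fin j → F) :=
    (LinearMap.ker l).subtype ∘ₗ (f : LinearMap.ker m →ₗ[F] LinearMap.ker l) ∘ₗ pr +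
      m.smulRight v0
  have hg : ∀ x, l (g x) = m x := by
    intro x
    show l ((f (pr x) : Fin j → F) + m x • v0) = m x
    rw [map_add, map_smul, hv0, (f (pr x)).2]
    simp
  have hinj : Function.Injective g := by
    rw [← LinearMap.ker_eq_bot, LinearMap.ker_eq_bot']
    intro x hx
    have h1 : m x = 0 := by rw [← hg x, hx, map_zero]
    have h2 : ((f (pr x) : LinearMap.ker l) : Fin j → F) = 0 := by
      have h3 : ((f (pr x) : LinearMap.ker l) : Fin j → F) + m x • v0 = 0 := hx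
      rw [h1, zero_smul, add_zero] at h3
      exact h3
    have h3 : f (pr x) = 0 := Subtype.ext h2
    have h4 : pr x = 0 := f.map_eq_zero_iff.1 h3
    have h5 : x - m x • w0 = 0 := congrArg Subtype.val h4
    rw [h1, zero_smul, sub_zero] at h5
    exact h5
  exact ⟨LinearEquiv.ofInjectiveEndo g hinj, hg⟩

omit [CharP F 2] in
theorem Eg_map {j k n : ℕ} {ψ : AddChar F ℤ} {h : j + (k + 1) = n}
    {ρ : Representation L (Gn F n) X} {l m : (Fin j → F) →ₗ[F] F} (y : Gn F j)
    (hy : ∀ v, l (y v) = m v) {x : X} (hx : x ∈ Eg ψ h ρ m) :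
    ρ (blk F h (ext y 1 0)) x ∈ Eg ψ h ρ l := by
  rw [mem_Eg] at hx ⊢
  refine ⟨stab ψ h ρ y 0 hx.1, fun v => ?_⟩
  rw [blk_mul]
  have h1 : ρ (blk F h (ext y 1 0)) (ρ (blk F h (ext 1 1 (tv k ((y⁻¹ : Gn F j) v)))) x) =
      ((ψ (l v) : ℤ) : L) • ρ (blk F h (ext y 1 0)) x := by
    rw [hx.2, map_smul, ← hy]
    have h3 : y ((y⁻¹ : Gn F j) v) = v := y.apply_symm_apply v
    rw [h3]
  rw [← h1, blk_mul]
  congr 3
  rw [one_mul, mul_one, mul_one]
  congr 1
  ext1 v'
  ext1
  show (0 : Fin j → F) + tv k v _ = y (tv k ((y⁻¹ : Gn F j) v) _) + 0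
  have h3 : y ((y⁻¹ : Gn F j) v) = v := y.apply_symm_apply v
  rw [tv_apply, tv_apply, map_smul, h3]
  simp

omit [CharP F 2] in
theorem Eg_eq_map {j k n : ℕ} {ψ : AddChar F ℤ} {h : j + (k + 1) = n}
    {ρ : Representation L (Gn F n) X} {l m : (Fin j → F) →ₗ[F] F} (y : Gn F j)
    (hy : ∀ v, l (y v) = m v) :
    Eg ψ h ρ l = (Eg ψ h ρ m).map (ρ (blk F h (ext y 1 0))) := by
  apply le_antisymm
  · intro x hx
    refine ⟨ρ (blk F h (ext y⁻¹ 1 0)) x, Eg_map y⁻¹ (fun v => ?_) hx, ?_⟩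
    · rw [← hy]
      have h3 : y ((y⁻¹ : Gn F j) v) = v := y.apply_symm_apply v
      rw [h3]
    · rw [blk_mul, mul_inv_cancel, one_mul]
      simp only [LinearMap.comp_zero, LinearMap.zero_comp, add_zero]
      rw [ext_one, map_one, map_one]
      rfl
  · rintro _ ⟨x, hx, rfl⟩
    exact Eg_map y hy hx

theorem sum_l (ψ : AddChar F ℤ) (hψ : ∃ a, ψ a ≠ 1) {A : Type} [AddCommGroup A] [Fintype A]
    (f : A →+ F) (hf : Function.Surjective f) : ∑ a, ψ (f a) = 0 := by
  have h1 : ψ.compAddMonoidHom f ≠ 1 := by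
    intro h2
    obtain ⟨a, ha⟩ := hψ
    obtain ⟨b, rfl⟩ := hf a
    apply ha
    have h3 := DFunLike.congr_fun h2 b
    simpa using h3
  exact AddChar.sum_eq_zero_of_ne_one h1

theorem psi_two (ψ : AddChar F ℤ) (a b : F) : ψ (a + b) * ψ b = ψ a := by
  rw [AddChar.map_add_eq_mul]
  rcases psi_val ψ b with h | h <;> rw [h] <;> ring

end char2

section decomp

variable [CharP F 2] [CharZero L]

instance fin_l {j : ℕ} : Finite ((Fin j → F) →ₗ[F] F) := DFunLike.finite _

instance fint_l {j : ℕ} : Fintype ((Fin j → F) →ₗ[F] F) := Fintype.ofFinite _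

instance fint_v {j : ℕ} : Fintype (Fin j → F) := Fintype.ofFinite _

/-- the projections -/
theorem Eg_span {j k n : ℕ} (ψ : AddChar F ℤ) (hψ : ∃ a, ψ a ≠ 1) (h : j + (k + 1) = n)
    (ρ : Representation L (Gn F n) X) {x : X} (hx : x ∈ Es ψ ρ (j + 1)) :
    ∃ y : ((Fin j → F) →ₗ[F] F) → X, (∀ l, y l ∈ Eg ψ h ρ l) ∧ ∑ l, y l = x := by
  let c : L := (Fintype.card ((Fin j → F) →ₗ[F] F) : L)⁻¹
  have hc : c * (Fintype.card ((Fin j → F) →ₗ[F] F) : L) = 1 := by
    apply inv_mul_cancel₀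
    exact_mod_cast Fintype.card_ne_zero
  refine ⟨fun l => c • ∑ v, ((ψ (l v) : ℤ) : L) • ρ (blk F h (ext 1 1 (tv k v))) x, ?_, ?_⟩
  · intro l
    rw [mem_Eg]
    constructor
    · apply Submodule.smul_mem
      apply Submodule.sum_mem
      intro v _
      apply Submodule.smul_mem
      exact stab ψ h ρ 1 _ hx
    · intro w
      rw [map_smul, map_sum, smul_comm]
      congr 1
      rw [Finset.smul_sum, ← Equiv.sum_comp (Equiv.addRight w)]
      apply Finset.sum_congr rfl
      intro v _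
      rw [map_smul, blk_mul, one_mul, one_mul, smul_smul]
      have h1 : ((1 : Gn F j) : (Fin j → F) →ₗ[F] (Fin j → F)) ∘ₗ tv k (Equiv.addRight w v) +
          tv k w ∘ₗ ((1 : Gn F (k + 1)) : (Fin (k + 1) → F) →ₗ[F] (Fin (k + 1) → F)) =
          tv k (v + w + w) := by
        ext1 u
        ext1
        show tv k (v + w) _ + tv k w _ = tv k (v + w + w) _
        rw [tv_apply, tv_apply, tv_apply, ← smul_add]
      rw [h1]
      have h2 : w + w = 0 := by
        funext i
        exact CharTwo.add_self_eq_zero (w i)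
      rw [add_assoc, h2, add_zero]
      congr 1
      rw [← Int.cast_mul]
      congr 1
      show ψ (l (v + w)) = ψ (l w) * ψ (l v)
      rw [map_add, AddChar.map_add_eq_mul, mul_comm]
  · rw [← Finset.smul_sum, Finset.sum_comm]
    rw [Finset.sum_eq_single 0]
    · have h1 : tv k (0 : Fin j → F) = 0 := by
        ext1 u
        ext1
        show (Pi.single u _ : Fin (k + 1) → F) 0 • (0 : Fin j → F) = 0
        rw [smul_zero]
      rw [h1, ext_one, map_one, map_one]
      simp only [map_zero, AddChar.map_zero_eq_one, Int.cast_one, one_smul,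
        Module.End.one_apply, Finset.sum_const, Finset.card_univ]
      rw [← Nat.cast_smul_eq_nsmul L, smul_smul, hc, one_smul]
    · intro v _ hv
      rw [← Finset.sum_smul, ← Int.cast_sum]
      obtain ⟨i, hi⟩ : ∃ i, v i ≠ 0 := by
        by_contra hcon
        push Not at hcon
        exact hv (funext hcon)
      have h1 : ∑ l : (Fin j → F) →ₗ[F] F, ψ (l v) = 0 := by
        refine sum_l ψ hψ (LinearMap.applyₗ (R := F) v : ((Fin j → F) →ₗ[F] F) →ₗ[F] F).toAddMonoidHom ?_
        intro a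
        refine ⟨(a * (v i)⁻¹) • LinearMap.proj i, ?_⟩
        show (a * (v i)⁻¹) * v i = a
        field_simp
      rw [h1]
      simp
    · intro h1
      exact absurd (Finset.mem_univ _) h1

theorem Eg_ind {j k n : ℕ} (ψ : AddChar F ℤ) (hψ : ∃ a, ψ a ≠ 1) (h : j + (k + 1) = n)
    (ρ : Representation L (Gn F n) X) (y : ((Fin j → F) →ₗ[F] F) → X)
    (hy : ∀ l, y l ∈ Eg ψ h ρ l) (h0 : ∑ l, y l = 0) (m : (Fin j → F) →ₗ[F] F) : y m = 0 := by
  have h1 : ∀ v : Fin j → F, ∑ l, ((ψ (m v) : ℤ) : L) • ((ψ (l v) : ℤ) : L) • y l = 0 := by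
    intro v
    have h2 : ∑ l, ((ψ (l v) : ℤ) : L) • y l = 0 := by
      have h3 := congrArg (ρ (blk F h (ext 1 1 (tv k v)))) h0
      rw [map_sum, map_zero] at h3
      rw [← h3]
      apply Finset.sum_congr rfl
      intro l _
      rw [(hy l).2 v]
    rw [← Finset.smul_sum, h2, smul_zero]
  have h2 : ∑ v : Fin j → F, ∑ l, ((ψ (m v) : ℤ) : L) • ((ψ (l v) : ℤ) : L) • y l = 0 :=
    Finset.sum_eq_zero fun v _ => h1 v
  rw [Finset.sum_comm, Finset.sum_eq_single m] at h2
  · have h3 : ∀ v : Fin j → F, ((ψ (m v) : ℤ) : L) • ((ψ (m v) : ℤ) : L) • y m = y m := by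
      intro v
      rw [smul_smul, ← Int.cast_mul]
      rcases psi_val ψ (m v) with h4 | h4 <;> rw [h4] <;> simp
    simp only [h3, Finset.sum_const, Finset.card_univ] at h2
    rw [← Nat.cast_smul_eq_nsmul L] at h2
    rcases smul_eq_zero.1 h2 with h4 | h4
    · exfalso
      have : (Fintype.card (Fin j → F) : ℕ) = 0 := by exact_mod_cast h4
      exact Fintype.card_ne_zero this
    · exact h4
  · intro l _ hl
    have h3 : ∀ v : Fin j → F, ((ψ (m v) : ℤ) : L) • ((ψ (l v) : ℤ) : L) • y l =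
        ((ψ ((m + l) v) : ℤ) : L) • y l := by
      intro v
      rw [smul_smul, ← Int.cast_mul, LinearMap.add_apply, AddChar.map_add_eq_mul]
    simp only [h3]
    rw [← Finset.sum_smul, ← Int.cast_sum]
    have h4 : m + l ≠ 0 := by
      intro h5
      apply hl
      ext1 i
      have h6 := LinearMap.congr_fun h5 (Pi.single i 1)
      ext1
      show l (Pi.single i 1) = m (Pi.single i 1)
      rw [LinearMap.add_apply] at h6
      exact (CharTwo.add_eq_zero.1 h6).symm
    have h5 : ∑ v : Fin j → F, ψ ((m + l) v) = 0 :=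
      sum_l ψ hψ (m + l).toAddMonoidHom (LinearMap.surjective h4)
    rw [h5]
    simp
  · intro h1
    exact absurd (Finset.mem_univ _) h1

theorem Eg_orth {j k n : ℕ} (ψ : AddChar F ℤ) (hψ : ∃ a, ψ a ≠ 1) (h : j + (k + 1) = n)
    (ρ : Representation L (Gn F n) X) (B : LinearMap.BilinForm L X) (hB : Parker.InvForm ρ B)
    {l m : (Fin j → F) →ₗ[F] F} (hlm : l ≠ m) {x y : X} (hx : x ∈ Eg ψ h ρ l)
    (hy : y ∈ Eg ψ h ρ m) : B x y = 0 := by
  obtain ⟨v, hv⟩ : ∃ v, ψ (l v) * ψ (m v) ≠ 1 := by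
    obtain ⟨a, ha⟩ := hψ
    have h4 : l + m ≠ 0 := by
      intro h5
      apply hlm
      ext1 i
      have h6 := LinearMap.congr_fun h5 (Pi.single i 1)
      ext1
      show l (Pi.single i 1) = m (Pi.single i 1)
      rw [LinearMap.add_apply] at h6
      exact CharTwo.add_eq_zero.1 h6
    obtain ⟨v, hv⟩ := LinearMap.surjective h4 a
    refine ⟨v, ?_⟩
    rw [← AddChar.map_add_eq_mul, ← LinearMap.add_apply, hv]
    exact ha
  have h1 := hB.inv (blk F h (ext 1 1 (tv k v))) x y
  rw [hx.2 v, hy.2 v, map_smul, map_smul, LinearMap.smul_apply, smul_smul, ← Int.cast_mul,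
    mul_comm (ψ (m v))] at h1
  have h2 : ψ (l v) * ψ (m v) = -1 := by
    rcases psi_val ψ (l v) with h3 | h3 <;> rcases psi_val ψ (m v) with h4 | h4 <;>
      rw [h3, h4] at hv ⊢ <;> first | exact absurd (by decide) hv | decide
  rw [h2] at h1
  have h3 : (2 : L) * B x y = 0 := by
    have h4 : -B x y = B x y := by simpa using h1
    linear_combination -h4
  rcases mul_eq_zero.1 h3 with h4 | h4
  · exact absurd h4 two_ne_zero
  · exact h4

/-- the number of the nonzero functionals is odd -/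
theorem odd_l {j : ℕ} : Odd (Nat.card {l : (Fin (j + 1) → F) →ₗ[F] F // l ≠ 0}) := by
  have h1 : Even (Fintype.card ((Fin (j + 1) → F) →ₗ[F] F)) := by
    have h2 : addOrderOf (LinearMap.proj (Fin.last j) : (Fin (j + 1) → F) →ₗ[F] F) = 2 := by
      apply addOrderOf_eq_prime
      · ext1 i
        ext1
        show (2 : ℕ) • ((Pi.single i (1 : F) : Fin (j + 1) → F) (Fin.last j)) = 0
        rw [two_nsmul, CharTwo.add_self_eq_zero]
      · intro h3
        have h4 := LinearMap.congr_fun h3 (Pi.single (Fin.last j) 1)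
        simp at h4
    have h3 := addOrderOf_dvd_card (x := (LinearMap.proj (Fin.last j) : (Fin (j + 1) → F) →ₗ[F] F))
    rw [h2] at h3
    exact even_iff_two_dvd.2 h3
  rw [Nat.card_eq_fintype_card]
  have h2 : Fintype.card {l : (Fin (j + 1) → F) →ₗ[F] F // l ≠ 0} =
      Fintype.card ((Fin (j + 1) → F) →ₗ[F] F) - 1 := by
    have := Fintype.card_subtype_compl (fun l : (Fin (j + 1) → F) →ₗ[F] F => l = 0)
    rw [Fintype.card_subtype_eq] at this
    exact this
  rw [h2]
  have h3 : 0 < Fintype.card ((Fin (j + 1) → F) →ₗ[F] F) := Fintype.card_pos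
  obtain ⟨r, hr⟩ := h1
  exact ⟨r - 1, by omega⟩

end decomp

end B06_aux

variable {F : Type} [Field F] [Finite F] [CharP F 2] {L : Type} [Field L] [CharZero L]
  {X : Type} [AddCommGroup X] [Module L X] [FiniteDimensional L X]

theorem dh {n : ℕ} (i : Fin n) : (n - 1 - i) + ((i : ℕ) + 1) = n := by omega

namespace B06_aux

omit [CharP F 2] [CharZero L] [FiniteDimensional L X] in
theorem derS_congr {n a k a' k' : ℕ} (ψ : AddChar F ℤ) (h : a + k = n) (h' : a' + k' = n)
    (hk : k = k') (ρ : Representation L (Gn F n) X) : derS ψ h ρ = derS ψ h' ρ := by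
  subst hk
  have ha : a = a' := by omega
  subst ha
  rfl

/-- the decomposition of `U` -/
def Dec {n : ℕ} (ψ : AddChar F ℤ) (ρ : Representation L (Gn F n) X) (U : Submodule L X)
    (m : ℕ) : Prop :=
  ∃ (ι : Type) (_ : Fintype ι) (p : ι → Fin n) (g : ι → Gn F n),
    (∀ i, (derS ψ (dh (p i)) ρ).map (ρ (g i)) ≤ U) ∧
    (∀ x ∈ U, ∃ v : ι → X, (∀ i, v i ∈ (derS ψ (dh (p i)) ρ).map (ρ (g i))) ∧ ∑ i, v i = x) ∧
    (∀ v : ι → X, (∀ i, v i ∈ (derS ψ (dh (p i)) ρ).map (ρ (g i))) → ∑ i, v i = 0 →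
      ∀ i, v i = 0) ∧
    (∀ i : Fin n, n - 1 - i < m → Odd (Nat.card {j : ι // p j = i})) ∧
    (∀ j, n - 1 - p j < m) ∧
    ∀ B : LinearMap.BilinForm L X, Parker.InvForm ρ B → ∀ i j, i ≠ j →
      ∀ x ∈ derS ψ (dh (p i)) ρ, ∀ y ∈ derS ψ (dh (p j)) ρ,
        B (ρ (g i) x) (ρ (g j) y) = 0

omit [CharP F 2] [CharZero L] [FiniteDimensional L X] in
theorem dec_one {n : ℕ} (ψ : AddChar F ℤ) (ρ : Representation L (Gn F (n + 1)) X) :
    Dec ψ ρ (Es ψ ρ 1) 1 := by
  have h0 : (0 : ℕ) + (n + 1) = n + 1 := by omega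
  have h1 : (derS ψ (dh (Fin.last n)) ρ).map (ρ 1) = Es ψ ρ 1 := by
    rw [Es_one ψ h0, map_one, derS_congr ψ (dh (Fin.last n)) h0 (by simp)]
    exact Submodule.map_id _
  refine ⟨Unit, inferInstance, fun _ => Fin.last n, fun _ => 1, ?_, ?_, ?_, ?_, ?_, ?_⟩
  · intro _
    exact h1.le
  · intro x hx
    refine ⟨fun _ => x, fun _ => ?_, by simp⟩
    rw [h1]
    exact hx
  · intro v _ hv i
    simpa using hv
  · intro i hi
    have h2 : i = Fin.last n := by
      apply Fin.ext
      have h3 : (Fin.last n : ℕ) = n := rfl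
      rw [h3]
      have := i.2
      omega
    subst h2
    rw [Nat.card_eq_fintype_card]
    simp
  · intro _
    have h3 : (Fin.last n : ℕ) = n := rfl
    rw [h3]
    omega
  · intro B _ i j hij
    exact absurd rfl hij

omit [FiniteDimensional L X] in
theorem dec_succ {j k n : ℕ} (ψ : AddChar F ℤ) (hψ : ∃ a, ψ a ≠ 1) (h : (j + 1) + (k + 1) = n)
    (ρ : Representation L (Gn F n) X) (hd : Dec ψ ρ (Es ψ ρ (j + 1)) (j + 1)) :
    Dec ψ ρ (Es ψ ρ (j + 2)) (j + 2) := by
  obtain ⟨ι, _, p, g, hA, hB, hC, hD, hE, hO⟩ := hd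
  have hy0 : ∀ l : {l : (Fin (j + 1) → F) →ₗ[F] F // l ≠ 0}, ∃ y : Gn F (j + 1),
      ∀ v, l.1 (y v) = (LinearMap.proj (Fin.last j) : (Fin (j + 1) → F) →ₗ[F] F) v := by
    intro l
    apply exists_gl l.2
    intro h1
    have h2 := LinearMap.congr_fun h1 (Pi.single (Fin.last j) 1)
    simp at h2
  choose y hy using hy0
  have hkn : k < n := by omega
  let p' : Option ({l : (Fin (j + 1) → F) →ₗ[F] F // l ≠ 0} × ι) → Fin n := fun q =>
    match q with
    | none => ⟨k, hkn⟩
    | some q => p q.2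
  let g' : Option ({l : (Fin (j + 1) → F) →ₗ[F] F // l ≠ 0} × ι) → Gn F n := fun q =>
    match q with
    | none => 1
    | some q => blk F h (ext (y q.1) 1 0) * g q.2
  have h0 : derS ψ (dh (p' none)) ρ = Eg ψ h ρ 0 := by
    rw [← derS_eq]
    exact derS_congr ψ _ _ rfl ρ
  have h0' : (derS ψ (dh (p' none)) ρ).map (ρ (g' none)) = Eg ψ h ρ 0 := by
    rw [h0]
    show (Eg ψ h ρ 0).map (ρ 1) = _
    rw [map_one]
    exact Submodule.map_id _
  have hl : ∀ l : {l : (Fin (j + 1) → F) →ₗ[F] F // l ≠ 0},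
      Eg ψ h ρ l.1 = (Es ψ ρ (j + 1)).map (ρ (blk F h (ext (y l) 1 0))) := by
    intro l
    rw [Es_eq ψ h]
    exact Eg_eq_map (y l) (hy l)
  have h1 : ∀ l i, (derS ψ (dh (p' (some (l, i)))) ρ).map (ρ (g' (some (l, i)))) =
      ((derS ψ (dh (p i)) ρ).map (ρ (g i))).map (ρ (blk F h (ext (y l) 1 0))) := by
    intro l i
    show (derS ψ (dh (p i)) ρ).map (ρ (blk F h (ext (y l) 1 0) * g i)) = _
    rw [map_mul]
    exact Submodule.map_comp _ _ _
  have h1' : ∀ l i, (derS ψ (dh (p' (some (l, i)))) ρ).map (ρ (g' (some (l, i)))) ≤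
      Eg ψ h ρ l.1 := by
    intro l i
    rw [h1, hl]
    exact Submodule.map_mono (hA i)
  have hEg : ∀ l, Eg ψ h ρ l ≤ Es ψ ρ (j + 2) := fun l x hx => hx.1
  have hinj : ∀ (a : Gn F n) (x : X), ρ a x = 0 → x = 0 := by
    intro a x hx
    have h2 : ρ a⁻¹ (ρ a x) = x := by
      rw [← Module.End.mul_apply, ← map_mul, inv_mul_cancel, map_one]
      rfl
    rw [← h2, hx, map_zero]
  refine ⟨_, inferInstance, p', g', ?_, ?_, ?_, ?_, ?_, ?_⟩
  · rintro (_ | ⟨l, i⟩)
    · rw [h0']
      exact hEg 0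
    · exact (h1' l i).trans (hEg _)
  · intro x hx
    obtain ⟨w, hw, rfl⟩ := Eg_span ψ hψ h ρ hx
    have h2 : ∀ l : {l : (Fin (j + 1) → F) →ₗ[F] F // l ≠ 0}, ∃ v : ι → X,
        (∀ i, v i ∈ ((derS ψ (dh (p i)) ρ).map (ρ (g i))).map
          (ρ (blk F h (ext (y l) 1 0)))) ∧ ∑ i, v i = w l.1 := by
      intro l
      have h3 := hw l.1
      rw [hl] at h3
      obtain ⟨z, hz, hz'⟩ := h3
      obtain ⟨v, hv, rfl⟩ := hB z hz
      refine ⟨fun i => ρ (blk F h (ext (y l) 1 0)) (v i), fun i => ⟨v i, hv i, rfl⟩, ?_⟩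
      rw [← map_sum]
      exact hz'
    choose v hv hv' using h2
    refine ⟨fun q => match q with
      | none => w 0
      | some q => v q.1 q.2, ?_, ?_⟩
    · rintro (_ | ⟨l, i⟩)
      · rw [h0']
        exact hw 0
      · rw [h1]
        exact hv l i
    · rw [Fintype.sum_option, Fintype.sum_prod_type,
        Fintype.sum_eq_add_sum_subtype_ne w 0]
      congr 1
      apply Finset.sum_congr rfl
      intro l _
      exact hv' l
  · intro v hv hs
    let Y : ((Fin (j + 1) → F) →ₗ[F] F) → X := fun l =>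
      if hl0 : l = 0 then v none else ∑ i, v (some (⟨l, hl0⟩, i))
    have hY : ∀ l, Y l ∈ Eg ψ h ρ l := by
      intro l
      by_cases hl0 : l = 0
      · subst hl0
        show (if hl0 : (0 : (Fin (j + 1) → F) →ₗ[F] F) = 0 then v none else _) ∈ _
        rw [dif_pos rfl, ← h0']
        exact hv none
      · show (if hl0 : l = 0 then v none else _) ∈ _
        rw [dif_neg hl0]
        apply Submodule.sum_mem
        intro i _
        exact h1' ⟨l, hl0⟩ i (hv (some (⟨l, hl0⟩, i)))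
    have hYs : ∑ l, Y l = 0 := by
      rw [Fintype.sum_eq_add_sum_subtype_ne Y 0, ← hs, Fintype.sum_option,
        Fintype.sum_prod_type]
      congr 1
      · show (if hl0 : (0 : (Fin (j + 1) → F) →ₗ[F] F) = 0 then v none else _) = _
        rw [dif_pos rfl]
      · apply Finset.sum_congr rfl
        intro l _
        show (if hl0 : l.1 = 0 then v none else _) = _
        rw [dif_neg l.2]
    have hY0 := Eg_ind ψ hψ h ρ Y hY hYs
    rintro (_ | ⟨l, i⟩)
    · have h2 := hY0 0
      change (if hl0 : (0 : (Fin (j + 1) → F) →ₗ[F] F) = 0 then v none else _) = 0 at h2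
      rw [dif_pos rfl] at h2
      exact h2
    · have h2 := hY0 l.1
      change (if hl0 : l.1 = 0 then v none else _) = 0 at h2
      rw [dif_neg l.2] at h2
      have h3 : ∀ i, ∃ z ∈ (derS ψ (dh (p i)) ρ).map (ρ (g i)),
          ρ (blk F h (ext (y l) 1 0)) z = v (some (l, i)) := by
        intro i
        have h4 := hv (some (l, i))
        rw [h1] at h4
        exact h4
      choose z hz hz' using h3
      have h4 : ∑ i, z i = 0 := by
        apply hinj (blk F h (ext (y l) 1 0))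
        rw [map_sum, ← h2]
        apply Finset.sum_congr rfl
        intro i _
        exact hz' i
      have h5 := hC z hz h4 i
      rw [← hz', h5, map_zero]
  · intro i hi
    have h2 : Nat.card {q // p' q = i} = (if (⟨k, hkn⟩ : Fin n) = i then 1 else 0) +
        Nat.card {l : (Fin (j + 1) → F) →ₗ[F] F // l ≠ 0} * Nat.card {q : ι // p q = i} := by
      rw [Nat.card_eq_fintype_card, Fintype.card_subtype, Finset.card_filter,
        Fintype.sum_option, Fintype.sum_prod_type, Nat.card_eq_fintype_card,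
        Nat.card_eq_fintype_card, Fintype.card_subtype (fun q : ι => p q = i),
        Finset.card_filter]
      congr 1
      rw [← smul_eq_mul, ← Finset.card_univ, ← Finset.sum_const]
    rw [h2]
    by_cases hik : (⟨k, hkn⟩ : Fin n) = i
    · rw [if_pos hik]
      have h3 : Nat.card {q : ι // p q = i} = 0 := by
        rw [Nat.card_eq_zero]
        left
        refine ⟨fun q => ?_⟩
        have h4 := hE q.1
        rw [q.2, ← hik] at h4
        have h5 : ((⟨k, hkn⟩ : Fin n) : ℕ) = k := rfl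
        rw [h5] at h4
        omega
      rw [h3, mul_zero, add_zero]
      exact odd_one
    · rw [if_neg hik, zero_add]
      have h3 : n - 1 - (i : ℕ) ≠ j + 1 := by
        intro h4
        apply hik
        apply Fin.ext
        show k = i
        omega
      exact Odd.mul odd_l (hD i (by omega))
  · rintro (_ | ⟨l, i⟩)
    · show n - 1 - k < j + 2
      omega
    · show n - 1 - (p i : ℕ) < j + 2
      have := hE i
      omega
  · intro B hB' q r hqr
    have hmem : ∀ (l : {l : (Fin (j + 1) → F) →ₗ[F] F // l ≠ 0}) (i : ι) (x : X),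
        x ∈ derS ψ (dh (p i)) ρ →
        ρ (g' (some (l, i))) x ∈ Eg ψ h ρ l.1 := by
      intro l i x hx
      exact h1' l i ⟨x, hx, rfl⟩
    have hmem0 : ∀ (x : X), x ∈ derS ψ (dh (p' none)) ρ → ρ (g' none) x ∈ Eg ψ h ρ 0 := by
      intro x hx
      rw [← h0']
      exact ⟨x, hx, rfl⟩
    rcases q with _ | ⟨l, i⟩ <;> rcases r with _ | ⟨l', i'⟩
    · exact absurd rfl hqr
    · intro x hx y' hy'
      exact Eg_orth ψ hψ h ρ B hB' (Ne.symm l'.2) (hmem0 x hx) (hmem l' i' y' hy')
    · intro x hx y' hy'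
      exact Eg_orth ψ hψ h ρ B hB' l.2 (hmem l i x hx) (hmem0 y' hy')
    · intro x hx y' hy'
      by_cases hll : l.1 = l'.1
      · have hll' : l = l' := Subtype.ext hll
        subst hll'
        show B (ρ (blk F h (ext (y l) 1 0) * g i) x) (ρ (blk F h (ext (y l) 1 0) * g i') y') = 0
        rw [map_mul, map_mul, Module.End.mul_apply, Module.End.mul_apply, hB'.inv]
        apply hO B hB' i i' ?_ x hx y' hy'
        rintro rfl
        exact hqr rfl
      · exact Eg_orth ψ hψ h ρ B hB' hll (hmem l i x hx) (hmem l' i' y' hy')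

omit [FiniteDimensional L X] in
theorem dec_all {n : ℕ} (ψ : AddChar F ℤ) (hψ : ∃ a, ψ a ≠ 1)
    (ρ : Representation L (Gn F n) X) (j : ℕ) (hj : j + 1 ≤ n) :
    Dec ψ ρ (Es ψ ρ (j + 1)) (j + 1) := by
  induction j with
  | zero =>
    obtain ⟨n, rfl⟩ := Nat.exists_eq_succ_of_ne_zero (by omega : n ≠ 0)
    exact dec_one ψ ρ
  | succ j ih =>
    exact dec_succ (k := n - j - 2) ψ hψ (by omega) ρ (ih (by omega))

end B06_aux

theorem der_decomp (ψ : AddChar F ℤ) (hψ : ∃ a, ψ a ≠ 1) {n : ℕ} (hn : 0 < n)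
    (ρ : Representation L (Gn F n) X) :
    ∃ (ι : Type) (_ : Fintype ι) (_ : DecidableEq ι) (p : ι → Fin n) (g : ι → Gn F n),
      DirectSum.IsInternal (fun i => (derS ψ (dh (p i)) ρ).map (ρ (g i))) ∧
      (∀ i : Fin n, Odd (Nat.card {j : ι // p j = i})) ∧
      ∀ B : LinearMap.BilinForm L X, Parker.InvForm ρ B → ∀ i j, i ≠ j →
        ∀ x ∈ derS ψ (dh (p i)) ρ, ∀ y ∈ derS ψ (dh (p j)) ρ,
          B (ρ (g i) x) (ρ (g j) y) = 0 := by
  obtain ⟨ι, hι, p, g, hA, hB, hC, hD, hE, hO⟩ := B06_aux.dec_all ψ hψ ρ (n - 1) (by omega)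
  have hn1 : n - 1 + 1 = n := by omega
  rw [hn1, B06_aux.Es_top] at hB
  rw [hn1] at hD
  refine ⟨ι, hι, Classical.decEq ι, p, g, ?_, fun i => hD i (by omega), hO⟩
  rw [DirectSum.isInternal_submodule_iff_iSupIndep_and_iSup_eq_top]
  constructor
  · rw [iSupIndep_iff_finsetSum_eq_zero_imp_eq_zero]
    intro s v hv hs i hi
    have h1 := hC (fun i => if i ∈ s then v i else 0) (fun i => by
      by_cases his : i ∈ s
      · simp only [his, if_true]
        exact hv i his
      · simp only [his, if_false]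
        exact zero_mem _) (by
      rw [Finset.sum_ite_mem, Finset.univ_inter]
      exact hs) i
    simpa [hi] using h1
  · rw [eq_top_iff]
    intro x hx
    obtain ⟨v, hv, rfl⟩ := hB x hx
    exact Submodule.sum_mem _ fun i _ => Submodule.mem_iSup_of_mem i (hv i)

theorem der_finrank (ψ : AddChar F ℤ) (hψ : ∃ a, ψ a ≠ 1) {n : ℕ} (hn : 0 < n)
    (ρ : Representation L (Gn F n) X) :
    ∃ c : Fin n → ℕ, (∀ i, Odd (c i)) ∧
      Module.finrank L X = ∑ i, c i * Module.finrank L (derS ψ (dh i) ρ) := by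
  obtain ⟨ι, hι, hdec, p, g, hint, hodd, _⟩ := der_decomp ψ hψ hn ρ
  refine ⟨fun i => Nat.card {j : ι // p j = i}, hodd, ?_⟩
  have h1 : Module.finrank L X =
      ∑ i : ι, Module.finrank L ((derS ψ (dh (p i)) ρ).map (ρ (g i))) := by
    rw [← (LinearEquiv.ofBijective (DirectSum.coeLinearMap _) hint).finrank_eq]
    exact Module.finrank_directSum L _
  have h2 : ∀ i : ι, Module.finrank L ((derS ψ (dh (p i)) ρ).map (ρ (g i))) =
      Module.finrank L (derS ψ (dh (p i)) ρ) := by
    intro i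
    refine (LinearEquiv.finrank_eq (Submodule.equivMapOfInjective (ρ (g i)) ?_ _)).symm
    apply Function.LeftInverse.injective (g := ρ (g i)⁻¹)
    intro x
    rw [← Module.End.mul_apply, ← map_mul, inv_mul_cancel, map_one]
    rfl
  rw [h1]
  simp only [h2]
  rw [← Finset.sum_fiberwise (Finset.univ : Finset ι) p]
  apply Finset.sum_congr rfl
  intro i _
  rw [Finset.sum_congr rfl (g := fun _ => Module.finrank L (derS ψ (dh i) ρ))]
  · rw [Finset.sum_const, smul_eq_mul, Nat.card_eq_fintype_card, Fintype.card_subtype]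
  · intro l hl
    rw [(Finset.mem_filter.1 hl).2]

end

end ParkerGL
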