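import Pool.Agent.ParkerGL.C01

/-!
# MP_6c3636_al, GL_n(q), module C02: adjoints, positivity, degrees (helper7)

`co_perp`: the coefficient of `b` in `perp a x` is `∑_v x_v m v a b`; note that `m v a b ≠ 0` implies
`deg b ≤ deg v`, so that `b ∈ box (deg v)`. `ip_el_mul` by bilinearity (`R_induction`) from the case
of basis elements. Hopf formula `perp_mul`: by `R_induction` in `x` and in `y` we may assume
`x = el f`, `y = el g`; the coefficient of `b` on the left is `∑_v m v f g * m v a b`, on the right it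
is the right hand side of `P.hopf f g a b` (in both sums only the `p, q, r, s` of the right degrees
contribute, so the sums over the boxes agree). `perp_perp`: the coefficient of `w` is
`ip x (el b * el a * el w)` on both sides.
-/

namespace ParkerGL

noncomputable section

open Classical

variable {I : Type} {P : PSH I}

private theorem perp_el' (a v : I) :
    P.perp a (P.el v) = ∑ b ∈ P.box (P.deg v), (P.m v a b : ℤ) • P.el b := by
  show (Finsupp.single v (1 : ℤ)).sum (fun v c =>
    ∑ b ∈ P.box (P.deg v), (Finsupp.single b (c * (P.m v a b : ℤ)) : I →₀ ℤ)) = _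
  rw [Finsupp.sum_single_index]
  · show (∑ b ∈ P.box (P.deg v), (Finsupp.single b (1 * (P.m v a b : ℤ)) : I →₀ ℤ)) =
      ∑ b ∈ P.box (P.deg v), (P.m v a b : ℤ) • (Finsupp.single b 1 : I →₀ ℤ)
    refine Finset.sum_congr rfl (fun b _ => ?_)
    rw [Finsupp.smul_single, one_mul, smul_eq_mul, mul_one]
  · simp only [zero_mul, Finsupp.single_zero]
    exact Finset.sum_const_zero

private theorem mem_box (n : ℕ) (v : I) : v ∈ P.box n ↔ P.deg v ≤ n := by
  unfold PSH.box
  rw [Finset.mem_biUnion]
  constructor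
  · rintro ⟨k, hk, hv⟩
    rw [(P.mem_lv k v).1 hv]
    exact Nat.lt_succ_iff.1 (Finset.mem_range.1 hk)
  · intro h
    exact ⟨P.deg v, Finset.mem_range.2 (Nat.lt_succ_of_le h), (P.mem_lv _ v).2 rfl⟩

private theorem sum_box {A : Type*} [AddCommMonoid A] {n M : ℕ} (h : n ≤ M) (F : I → A)
    (hF : ∀ p, F p ≠ 0 → P.deg p ≤ n) : ∑ p ∈ P.box n, F p = ∑ p ∈ P.box M, F p := by
  apply Finset.sum_subset
  · intro v hv
    rw [mem_box] at hv ⊢
    exact hv.trans h
  · intro v _ hv
    rw [mem_box] at hv
    by_contra hne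
    exact hv (hF v hne)

private theorem sum_lv {A : Type*} [AddCommMonoid A] {n M : ℕ} (h : n ≤ M) (F : I → A)
    (hF : ∀ p, F p ≠ 0 → P.deg p = n) : ∑ p ∈ P.lv n, F p = ∑ p ∈ P.box M, F p := by
  apply Finset.sum_subset
  · intro v hv
    rw [P.mem_lv] at hv
    rw [mem_box]
    omega
  · intro v _ hv
    rw [P.mem_lv] at hv
    by_contra hne
    exact hv (hF v hne)

private theorem co_perp_el' (a v b : I) : P.co (P.perp a (P.el v)) b = (P.m v a b : ℤ) := by
  rw [perp_el', co_sum]
  have h : ∀ c ∈ P.box (P.deg v), P.co ((P.m v a c : ℤ) • P.el c) b =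
      if b = c then (P.m v a c : ℤ) else 0 := by
    intro c _
    rw [co_zsmul, co_el]
    split_ifs <;> simp
  rw [Finset.sum_congr rfl h, Finset.sum_ite_eq]
  split_ifs with hb
  · rfl
  · rw [mem_box] at hb
    by_contra hne
    have hne' : P.m v a b ≠ 0 := by
      intro h0
      apply hne
      rw [h0]
      rfl
    have := P.m_deg v a b hne'
    omega

theorem co_perp (a : I) (x : P.R) (b : I) :
    P.co (P.perp a x) b = P.ip x (P.el a * P.el b) := by
  refine R_induction (p := fun x => P.co (P.perp a x) b = P.ip x (P.el a * P.el b))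
    ?_ ?_ ?_ ?_ x
  · show P.co (P.perp a 0) b = P.ip 0 (P.el a * P.el b)
    rw [map_zero, co_zero, ip_zero_left]
  · intro v
    show P.co (P.perp a (P.el v)) b = P.ip (P.el v) (P.el a * P.el b)
    rw [co_perp_el', ip_el_left, co_mul_el]
  · intro x y hx hy
    show P.co (P.perp a (x + y)) b = P.ip (x + y) (P.el a * P.el b)
    rw [map_add, co_add, ip_add_left, hx, hy]
  · intro x hx
    show P.co (P.perp a (-x)) b = P.ip (-x) (P.el a * P.el b)
    rw [map_neg, co_neg, ip_neg_left, hx]

theorem co_perp_el (a v b : I) : P.co (P.perp a (P.el v)) b = (P.m v a b : ℤ) :=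
  co_perp_el' a v b

theorem perp_one (x : P.R) : P.perp P.one x = x := by
  apply R_ext
  intro b
  rw [co_perp, ← one_def, one_mul, ip_el_right]

/-- adjointness -/
theorem ip_el_mul (a : I) (x y : P.R) : P.ip (P.el a * y) x = P.ip y (P.perp a x) := by
  refine R_induction (p := fun y => P.ip (P.el a * y) x = P.ip y (P.perp a x))
    ?_ ?_ ?_ ?_ y
  · show P.ip (P.el a * 0) x = P.ip 0 (P.perp a x)
    rw [mul_zero, ip_zero_left, ip_zero_left]
  · intro v
    show P.ip (P.el a * P.el v) x = P.ip (P.el v) (P.perp a x)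
    rw [ip_el_left, co_perp, ip_comm]
  · intro y z hy hz
    show P.ip (P.el a * (y + z)) x = P.ip (y + z) (P.perp a x)
    rw [mul_add, ip_add_left, ip_add_left, hy, hz]
  · intro y hy
    show P.ip (P.el a * (-y)) x = P.ip (-y) (P.perp a x)
    rw [mul_neg, ip_neg_left, ip_neg_left, hy]

private theorem m_zero_of {v a b : I} (h : P.deg v ≠ P.deg a + P.deg b) : P.m v a b = 0 := by
  by_contra hne
  exact h (P.m_deg v a b hne)

private theorem hopf_el (a f g b : I) {N : ℕ} (hN : P.deg a ≤ N) :
    P.co (P.perp a (P.el f * P.el g)) b =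
      ∑ p ∈ P.box N, ∑ r ∈ P.box N, (P.m a p r : ℤ) *
        P.co (P.perp p (P.el f) * P.perp r (P.el g)) b := by
  -- left-hand side
  have hL : P.co (P.perp a (P.el f * P.el g)) b =
      ((∑ v ∈ P.lv (P.deg f + P.deg g), P.m v f g * P.m v a b : ℕ) : ℤ) := by
    rw [co_perp, el_mul f g, ip_sum_left, Nat.cast_sum]
    refine Finset.sum_congr rfl (fun v _ => ?_)
    rw [ip_zsmul_left, ip_el_left, co_mul_el, Nat.cast_mul]
  -- the coefficients of the product
  have hR : ∀ p r : I, P.co (P.perp p (P.el f) * P.perp r (P.el g)) b =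
      ∑ q ∈ P.box (P.deg f), ∑ s ∈ P.box (P.deg g),
        (P.m f p q : ℤ) * (P.m g r s : ℤ) * (P.m b q s : ℤ) := by
    intro p r
    rw [perp_el', perp_el', Finset.sum_mul_sum, co_sum]
    refine Finset.sum_congr rfl (fun q _ => ?_)
    rw [co_sum]
    refine Finset.sum_congr rfl (fun s _ => ?_)
    rw [smul_mul_smul_comm, co_zsmul, co_mul_el]
  rw [hL, P.hopf f g a b]
  -- everything is a sum over a big box
  have hM1 : P.deg f + P.deg g ≤ N + P.deg f + P.deg g := by omega
  have hM2 : N ≤ N + P.deg f + P.deg g := by omega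
  have hM3 : P.deg f ≤ N + P.deg f + P.deg g := by omega
  have hM4 : P.deg g ≤ N + P.deg f + P.deg g := by omega
  generalize hMd : N + P.deg f + P.deg g = M at hM1 hM2 hM3 hM4
  have e1 : ((∑ p ∈ (Finset.range (P.deg f + P.deg g + 1)).biUnion P.lv,
      ∑ q ∈ (Finset.range (P.deg f + P.deg g + 1)).biUnion P.lv,
      ∑ r ∈ (Finset.range (P.deg f + P.deg g + 1)).biUnion P.lv,
      ∑ s ∈ (Finset.range (P.deg f + P.deg g + 1)).biUnion P.lv,
        P.m f p q * P.m g r s * P.m a p r * P.m b q s : ℕ) : ℤ) =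
      ∑ p ∈ P.box M, ∑ q ∈ P.box M, ∑ r ∈ P.box M, ∑ s ∈ P.box M,
        (P.m f p q : ℤ) * P.m g r s * P.m a p r * P.m b q s := by
    show ((∑ p ∈ P.box (P.deg f + P.deg g), ∑ q ∈ P.box (P.deg f + P.deg g),
      ∑ r ∈ P.box (P.deg f + P.deg g), ∑ s ∈ P.box (P.deg f + P.deg g),
        P.m f p q * P.m g r s * P.m a p r * P.m b q s : ℕ) : ℤ) = _
    push_cast
    rw [sum_box hM1]
    · refine Finset.sum_congr rfl (fun p _ => ?_)
      rw [sum_box hM1]
      · refine Finset.sum_congr rfl (fun q _ => ?_)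
        rw [sum_box hM1]
        · refine Finset.sum_congr rfl (fun r _ => ?_)
          rw [sum_box hM1]
          intro s hs
          by_contra hd
          apply hs
          rw [m_zero_of (P := P) (v := g) (a := r) (b := s) (by omega)]
          simp
        · intro r hr
          by_contra hd
          apply hr
          apply Finset.sum_eq_zero
          intro s _
          rw [m_zero_of (P := P) (v := g) (a := r) (b := s) (by omega)]
          simp
      · intro q hq
        by_contra hd
        apply hq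
        apply Finset.sum_eq_zero
        intro r _
        apply Finset.sum_eq_zero
        intro s _
        rw [m_zero_of (P := P) (v := f) (a := p) (b := q) (by omega)]
        simp
    · intro p hp
      by_contra hd
      apply hp
      apply Finset.sum_eq_zero
      intro q _
      apply Finset.sum_eq_zero
      intro r _
      apply Finset.sum_eq_zero
      intro s _
      rw [m_zero_of (P := P) (v := f) (a := p) (b := q) (by omega)]
      simp
  rw [e1]
  have e2 : (∑ p ∈ P.box N, ∑ r ∈ P.box N, (P.m a p r : ℤ) *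
        P.co (P.perp p (P.el f) * P.perp r (P.el g)) b) =
      ∑ p ∈ P.box M, ∑ r ∈ P.box M, (P.m a p r : ℤ) * ∑ q ∈ P.box M, ∑ s ∈ P.box M,
        (P.m f p q : ℤ) * (P.m g r s : ℤ) * (P.m b q s : ℤ) := by
    have e3 : ∀ p r : I, P.co (P.perp p (P.el f) * P.perp r (P.el g)) b =
        ∑ q ∈ P.box M, ∑ s ∈ P.box M, (P.m f p q : ℤ) * (P.m g r s : ℤ) * (P.m b q s : ℤ) := by
      intro p r
      rw [hR, sum_box hM3]
      · refine Finset.sum_congr rfl (fun q _ => ?_)
        rw [sum_box hM4]
        intro s hs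
        by_contra hd
        apply hs
        rw [m_zero_of (P := P) (v := g) (a := r) (b := s) (by omega)]
        simp
      · intro q hq
        by_contra hd
        apply hq
        apply Finset.sum_eq_zero
        intro s _
        rw [m_zero_of (P := P) (v := f) (a := p) (b := q) (by omega)]
        simp
    rw [sum_box hM2]
    · refine Finset.sum_congr rfl (fun p _ => ?_)
      rw [sum_box hM2]
      · refine Finset.sum_congr rfl (fun r _ => ?_)
        rw [e3]
      · intro r hr
        by_contra hd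
        apply hr
        rw [m_zero_of (P := P) (v := a) (a := p) (b := r) (by omega)]
        simp
    · intro p hp
      by_contra hd
      apply hp
      apply Finset.sum_eq_zero
      intro r _
      rw [m_zero_of (P := P) (v := a) (a := p) (b := r) (by omega)]
      simp
  rw [e2]
  refine Finset.sum_congr rfl (fun p _ => ?_)
  rw [Finset.sum_comm]
  refine Finset.sum_congr rfl (fun r _ => ?_)
  rw [Finset.mul_sum]
  refine Finset.sum_congr rfl (fun q _ => ?_)
  rw [Finset.mul_sum]
  refine Finset.sum_congr rfl (fun s _ => ?_)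
  ring

/-- the Hopf formula -/
theorem perp_mul (a : I) (x y : P.R) {N : ℕ} (hN : P.deg a ≤ N) :
    P.perp a (x * y) =
      ∑ p ∈ P.box N, ∑ r ∈ P.box N, (P.m a p r : ℤ) • (P.perp p x * P.perp r y) := by
  refine R_induction (p := fun x => P.perp a (x * y) =
      ∑ p ∈ P.box N, ∑ r ∈ P.box N, (P.m a p r : ℤ) • (P.perp p x * P.perp r y)) ?_ ?_ ?_ ?_ x
  · show P.perp a (0 * y) =
      ∑ p ∈ P.box N, ∑ r ∈ P.box N, (P.m a p r : ℤ) • (P.perp p 0 * P.perp r y)
    rw [zero_mul, map_zero]
    symm
    apply Finset.sum_eq_zero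
    intro p _
    apply Finset.sum_eq_zero
    intro r _
    rw [map_zero, zero_mul, smul_zero]
  · intro f
    refine R_induction (p := fun y => P.perp a (P.el f * y) =
      ∑ p ∈ P.box N, ∑ r ∈ P.box N, (P.m a p r : ℤ) • (P.perp p (P.el f) * P.perp r y))
      ?_ ?_ ?_ ?_ y
    · show P.perp a (P.el f * 0) =
        ∑ p ∈ P.box N, ∑ r ∈ P.box N, (P.m a p r : ℤ) • (P.perp p (P.el f) * P.perp r 0)
      rw [mul_zero, map_zero]
      symm
      apply Finset.sum_eq_zero
      intro p _
      apply Finset.sum_eq_zero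
      intro r _
      rw [map_zero, mul_zero, smul_zero]
    · intro g
      show P.perp a (P.el f * P.el g) =
        ∑ p ∈ P.box N, ∑ r ∈ P.box N, (P.m a p r : ℤ) • (P.perp p (P.el f) * P.perp r (P.el g))
      apply R_ext
      intro b
      rw [hopf_el a f g b hN, co_sum]
      refine Finset.sum_congr rfl (fun p _ => ?_)
      rw [co_sum]
      refine Finset.sum_congr rfl (fun r _ => ?_)
      rw [co_zsmul]
    · intro y z hy hz
      show P.perp a (P.el f * (y + z)) =
        ∑ p ∈ P.box N, ∑ r ∈ P.box N, (P.m a p r : ℤ) • (P.perp p (P.el f) * P.perp r (y + z))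
      rw [mul_add, map_add, hy, hz, ← Finset.sum_add_distrib]
      refine Finset.sum_congr rfl (fun p _ => ?_)
      rw [← Finset.sum_add_distrib]
      refine Finset.sum_congr rfl (fun r _ => ?_)
      rw [map_add, mul_add, smul_add]
    · intro y hy
      show P.perp a (P.el f * (-y)) =
        ∑ p ∈ P.box N, ∑ r ∈ P.box N, (P.m a p r : ℤ) • (P.perp p (P.el f) * P.perp r (-y))
      rw [mul_neg, map_neg, hy, ← Finset.sum_neg_distrib]
      refine Finset.sum_congr rfl (fun p _ => ?_)
      rw [← Finset.sum_neg_distrib]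
      refine Finset.sum_congr rfl (fun r _ => ?_)
      rw [map_neg, mul_neg, smul_neg]
  · intro x z hx hz
    show P.perp a ((x + z) * y) =
      ∑ p ∈ P.box N, ∑ r ∈ P.box N, (P.m a p r : ℤ) • (P.perp p (x + z) * P.perp r y)
    rw [add_mul, map_add, hx, hz, ← Finset.sum_add_distrib]
    refine Finset.sum_congr rfl (fun p _ => ?_)
    rw [← Finset.sum_add_distrib]
    refine Finset.sum_congr rfl (fun r _ => ?_)
    rw [map_add, add_mul, smul_add]
  · intro x hx
    show P.perp a ((-x) * y) =
      ∑ p ∈ P.box N, ∑ r ∈ P.box N, (P.m a p r : ℤ) • (P.perp p (-x) * P.perp r y)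
    rw [neg_mul, map_neg, hx, ← Finset.sum_neg_distrib]
    refine Finset.sum_congr rfl (fun p _ => ?_)
    rw [← Finset.sum_neg_distrib]
    refine Finset.sum_congr rfl (fun r _ => ?_)
    rw [map_neg, neg_mul, smul_neg]

/-- iterated adjoints -/
theorem perp_perp (a b : I) (x : P.R) {N : ℕ} (hN : P.deg a + P.deg b ≤ N) :
    P.perp a (P.perp b x) = ∑ c ∈ P.box N, (P.m c a b : ℤ) • P.perp c x := by
  apply R_ext
  intro w
  rw [co_perp, ip_comm, ← ip_el_mul, co_sum]
  have h : P.el b * (P.el a * P.el w) = ∑ c ∈ P.box N, (P.m c a b : ℤ) • (P.el c * P.el w) := by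
    rw [← mul_assoc, mul_comm (P.el b), el_mul a b, Finset.sum_mul]
    rw [sum_lv hN]
    · refine Finset.sum_congr rfl (fun c _ => ?_)
      rw [smul_mul_assoc]
    · intro c hc
      by_contra hd
      apply hc
      rw [m_zero_of (P := P) (v := c) (a := a) (b := b) hd, Nat.cast_zero, zero_smul, zero_mul]
  rw [h, ip_comm, ip_sum_right]
  refine Finset.sum_congr rfl (fun c _ => ?_)
  rw [ip_zsmul_right, co_zsmul, co_perp]

theorem pos_el (v : I) : P.Pos (P.el v) := by
  intro w
  rw [co_el]
  split_ifs <;> norm_num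

theorem pos_add {x y : P.R} (hx : P.Pos x) (hy : P.Pos y) : P.Pos (x + y) := by
  intro v
  rw [co_add]
  exact add_nonneg (hx v) (hy v)

private theorem pos_zero : P.Pos (0 : P.R) := by
  intro v
  rw [co_zero]

theorem pos_mul {x y : P.R} (hx : P.Pos x) (hy : P.Pos y) : P.Pos (x * y) := by
  refine pos_induction (p := fun x => P.Pos (x * y)) ?_ ?_ ?_ hx
  · show P.Pos (0 * y)
    rw [zero_mul]
    exact pos_zero
  · intro a
    refine pos_induction (p := fun y => P.Pos (P.el a * y)) ?_ ?_ ?_ hy
    · show P.Pos (P.el a * 0)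
      rw [mul_zero]
      exact pos_zero
    · intro b v
      show 0 ≤ P.co (P.el a * P.el b) v
      rw [co_mul_el]
      exact Int.natCast_nonneg _
    · intro y z h1 h2
      show P.Pos (P.el a * (y + z))
      rw [mul_add]
      exact pos_add h1 h2
  · intro x z h1 h2
    show P.Pos ((x + z) * y)
    rw [add_mul]
    exact pos_add h1 h2

theorem pos_one : P.Pos (1 : P.R) := pos_el _

theorem pos_pow {x : P.R} (hx : P.Pos x) (n : ℕ) : P.Pos (x ^ n) := by
  induction n with
  | zero =>
    rw [pow_zero]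
    exact pos_one
  | succ n ih =>
    rw [pow_succ]
    exact pos_mul ih hx

private theorem pos_ip' {x y : P.R} (hx : P.Pos x) (hy : P.Pos y) : 0 ≤ P.ip x y := by
  refine pos_induction (p := fun x => 0 ≤ P.ip x y) ?_ ?_ ?_ hx
  · show 0 ≤ P.ip 0 y
    rw [ip_zero_left]
  · intro v
    show 0 ≤ P.ip (P.el v) y
    rw [ip_el_left]
    exact hy v
  · intro x z h1 h2
    show 0 ≤ P.ip (x + z) y
    rw [ip_add_left]
    exact add_nonneg h1 h2

theorem pos_perp {x : P.R} (hx : P.Pos x) (a : I) : P.Pos (P.perp a x) := by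
  intro b
  rw [co_perp]
  exact pos_ip' hx (pos_mul (pos_el a) (pos_el b))

theorem pos_ip {x y : P.R} (hx : P.Pos x) (hy : P.Pos y) : 0 ≤ P.ip x y :=
  pos_ip' hx hy

theorem hom_el (v : I) : P.Hom (P.deg v) (P.el v) := by
  intro w hw
  rw [co_el] at hw
  split_ifs at hw with h
  · rw [h]
  · exact absurd rfl hw

theorem hom_mul {x y : P.R} {a b : ℕ} (hx : P.Hom a x) (hy : P.Hom b y) :
    P.Hom (a + b) (x * y) := by
  intro u hu
  obtain ⟨s, hs⟩ := R_eq_sum x
  obtain ⟨t, ht⟩ := R_eq_sum y
  have h : P.co (x * y) u =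
      ∑ v ∈ s, ∑ w ∈ t, P.co x v * P.co y w * (P.m u v w : ℤ) := by
    have h1 : x * y = (∑ v ∈ s, P.co x v • P.el v) * (∑ w ∈ t, P.co y w • P.el w) := by
      rw [← hs, ← ht]
    rw [h1, Finset.sum_mul_sum, co_sum]
    refine Finset.sum_congr rfl (fun v _ => ?_)
    rw [co_sum]
    refine Finset.sum_congr rfl (fun w _ => ?_)
    rw [smul_mul_smul_comm, co_zsmul, co_mul_el]
  rw [h] at hu
  obtain ⟨v, _, hv⟩ := Finset.exists_ne_zero_of_sum_ne_zero hu
  obtain ⟨w, _, hw⟩ := Finset.exists_ne_zero_of_sum_ne_zero hv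
  have h1 : P.co x v ≠ 0 := by
    intro h0
    apply hw
    rw [h0]
    simp
  have h2 : P.co y w ≠ 0 := by
    intro h0
    apply hw
    rw [h0]
    simp
  have h3 : P.m u v w ≠ 0 := by
    intro h0
    apply hw
    rw [h0]
    simp
  rw [P.m_deg u v w h3, hx v h1, hy w h2]

theorem hom_one : P.Hom 0 (1 : P.R) := by
  have h := hom_el (P := P) P.one
  rw [(P.deg_zero P.one).2 rfl] at h
  exact h

theorem hom_pow {x : P.R} {a : ℕ} (hx : P.Hom a x) (n : ℕ) : P.Hom (n * a) (x ^ n) := by
  induction n with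
  | zero =>
    rw [pow_zero, zero_mul]
    exact hom_one
  | succ n ih =>
    rw [pow_succ, Nat.succ_mul]
    exact hom_mul ih hx

private theorem ip_of_hom' {x y : P.R} {a b : ℕ} (hx : P.Hom a x) (hy : P.Hom b y) (h : a ≠ b) :
    P.ip x y = 0 := by
  obtain ⟨s, hs⟩ := R_eq_sum x
  rw [hs, ip_sum_left]
  apply Finset.sum_eq_zero
  intro v _
  rw [ip_zsmul_left, ip_el_left]
  by_contra hne
  have h1 : P.co x v ≠ 0 := by
    intro h0
    apply hne
    rw [h0, zero_mul]
  have h2 : P.co y v ≠ 0 := by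
    intro h0
    apply hne
    rw [h0, mul_zero]
  exact h ((hx v h1).symm.trans (hy v h2))

theorem hom_perp {x : P.R} {n : ℕ} (hx : P.Hom n x) (a : I) :
    ∀ v, P.co (P.perp a x) v ≠ 0 → P.deg a + P.deg v = n := by
  intro v hv
  by_contra hne
  apply hv
  rw [co_perp]
  exact ip_of_hom' hx (hom_mul (hom_el a) (hom_el v)) (fun h => hne h.symm)

theorem ip_of_hom {x y : P.R} {a b : ℕ} (hx : P.Hom a x) (hy : P.Hom b y) (h : a ≠ b) :
    P.ip x y = 0 := ip_of_hom' hx hy h

end

end ParkerGL
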