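import Pool.Agent.ParkerGL.B06
import Pool.Agent.ParkerGL.A09
import Pool.Agent.ParkerGL.C02

/-!
# MP_6c3636_al, GL_n(q), module B07: the characters of the derivatives (helper7)

* `der_char`: the projection onto `derS` is `e = |UG F k|⁻¹ |Hom|⁻¹ ∑_{u, t} ψ(sd u) ρ (blk (ext 1 u t))` (the `blk (ext 1 u t)` form a
  group, `ψ (sd u)` is a character of it), and the character of `derR` at `y` is
  `trace (ρ (blk (ext y 1 0)) * e)`; `ext y 1 0 * ext 1 u t = ext y u (y t)`, reindex `t`.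
* `evR`: the class function of an element of `R`. `evR_mul` from `mul_expand`.
* `der_evR`: by `der_char`, `cop_expand` and linearity: the coproduct of `v` is `∑ m v α β α ⊗ β`, and
  `|UG|⁻¹ ∑_u ψ(sd u) β(u) = β.dl ψ` (`Irr.dl_spec`); the coefficient of `α` in `perp β (el v)` is `m v β α = m v α β`.
-/

namespace ParkerGL

noncomputable section

open Classical

variable {F : Type} [Field F] [Finite F] {Ω : Type} [Field Ω] [IsAlgClosed Ω] [CharZero Ω]

/-- the class function of degree `n` of an element of `R` -/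
def evR (r : (glPSH F Ω).R) (n : ℕ) : Gn F n → Ω :=
  fun x => (show Irr F Ω →₀ ℤ from r).sum fun v c => (c : Ω) * v.at n x

/-- the values on an arbitrary space -/
private def evV (r : (glPSH F Ω).R) (V : Type) [AddCommGroup V] [Module F V] [Finite V]
    (x : GV F V) : Ω :=
  (show Irr F Ω →₀ ℤ from r).sum fun v c => (c : Ω) * v.cf.val V x

private def evH (V : Type) [AddCommGroup V] [Module F V] [Finite V]
    (x : GV F V) : (glPSH F Ω).R →+ Ω where
  toFun r := evV r V x
  map_zero' := Finsupp.sum_zero_index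
  map_add' r s := by
    refine Finsupp.sum_add_index' ?_ ?_
    · intro v
      rw [Int.cast_zero, zero_mul]
    · intro v c c'
      rw [Int.cast_add, add_mul]

private theorem evV_eq (r : (glPSH F Ω).R) (V : Type) [AddCommGroup V] [Module F V] [Finite V]
    (x : GV F V) : evV r V x = evH V x r := rfl

private theorem evR_eq (r : (glPSH F Ω).R) (n : ℕ) (x : Gn F n) :
    evR r n x = evH (Fin n → F) x r := rfl

theorem evR_add (r s : (glPSH F Ω).R) (n : ℕ) (x : Gn F n) :
    evR (r + s) n x = evR r n x + evR s n x :=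
  map_add (evH (Ω := Ω) (Fin n → F) x) r s

theorem evR_neg (r : (glPSH F Ω).R) (n : ℕ) (x : Gn F n) : evR (-r) n x = - evR r n x :=
  map_neg (evH (Ω := Ω) (Fin n → F) x) r

theorem evR_zsmul (c : ℤ) (r : (glPSH F Ω).R) (n : ℕ) (x : Gn F n) :
    evR (c • r) n x = c * evR r n x := by
  rw [evR_eq, evR_eq, map_zsmul, zsmul_eq_mul]

theorem evR_sum {ι : Type*} (s : Finset ι) (f : ι → (glPSH F Ω).R) (n : ℕ) (x : Gn F n) :
    evR (∑ i ∈ s, f i) n x = ∑ i ∈ s, evR (f i) n x :=
  map_sum (evH (Ω := Ω) (Fin n → F) x) f s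

private theorem evR_zero (n : ℕ) (x : Gn F n) : evR (0 : (glPSH F Ω).R) n x = 0 :=
  map_zero (evH (Ω := Ω) (Fin n → F) x)

private theorem evV_el (v : Irr F Ω) (V : Type) [AddCommGroup V] [Module F V] [Finite V]
    (x : GV F V) : evV ((glPSH F Ω).el v) V x = v.cf.val V x := by
  have h : evV ((glPSH F Ω).el v) V x = ((1 : ℤ) : Ω) * v.cf.val V x :=
    Finsupp.sum_single_index (by rw [Int.cast_zero, zero_mul])
  rw [h, Int.cast_one, _root_.one_mul]

theorem evR_el (v : Irr F Ω) (n : ℕ) : evR ((glPSH F Ω).el v) n = v.at n := by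
  funext x
  exact evV_el v (Fin n → F) x

theorem evR_cls (r : (glPSH F Ω).R) (n : ℕ) : IsCls (evR r n) := by
  intro g x
  refine R_induction (p := fun r => evR r n (g * x * g⁻¹) = evR r n x) ?_ ?_ ?_ ?_ r
  · show evR _ _ _ = evR _ _ _
    rw [evR_zero, evR_zero]
  · intro v
    show evR _ _ _ = evR _ _ _
    rw [evR_el]
    exact CF.cls v.cf n g x
  · intro r s hr hs
    show evR _ _ _ = evR _ _ _
    rw [evR_add, evR_add, hr, hs]
  · intro r hr
    show evR _ _ _ = evR _ _ _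
    rw [evR_neg, evR_neg, hr]

/-- the expansion -/
private theorem evR_expand (r : (glPSH F Ω).R) (n : ℕ) (x : Gn F n) :
    evR r n x = ∑ v ∈ lvI F Ω n, ((glPSH F Ω).co r v : Ω) * v.at n x := by
  refine R_induction (p := fun r => evR r n x =
    ∑ v ∈ lvI F Ω n, ((glPSH F Ω).co r v : Ω) * v.at n x) ?_ ?_ ?_ ?_ r
  · show evR _ _ _ = _
    rw [evR_zero, Finset.sum_eq_zero]
    intro v _
    rw [co_zero, Int.cast_zero, zero_mul]
  · intro w
    show evR _ _ _ = _
    rw [evR_el]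
    have h1 : ∀ v : Irr F Ω, (((glPSH F Ω).co ((glPSH F Ω).el w) v : ℤ) : Ω) * v.at n x =
        if v = w then w.at n x else 0 := by
      intro v
      rw [co_el]
      by_cases h : v = w
      · rw [if_pos h, if_pos h, Int.cast_one, _root_.one_mul, h]
      · rw [if_neg h, if_neg h, Int.cast_zero, zero_mul]
    rw [Finset.sum_congr rfl (fun v _ => h1 v), Finset.sum_ite_eq']
    by_cases h : w ∈ lvI F Ω n
    · rw [if_pos h]
    · rw [if_neg h, w.at_ne (fun h' => h (mem_lvI.2 h'.symm))]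
      rfl
  · intro r s hr hs
    show evR _ _ _ = _
    rw [evR_add, hr, hs, ← Finset.sum_add_distrib]
    refine Finset.sum_congr rfl fun v _ => ?_
    rw [co_add, Int.cast_add, add_mul]
  · intro r hr
    show evR _ _ _ = _
    rw [evR_neg, hr, ← Finset.sum_neg_distrib]
    refine Finset.sum_congr rfl fun v _ => ?_
    rw [co_neg, Int.cast_neg, neg_mul]

/-- the inner product with an irreducible character is the coefficient -/
theorem ip_evR (r : (glPSH F Ω).R) {n : ℕ} {v : Irr F Ω} (hv : v.n = n) :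
    Parker.ip (evR r n) (v.at n) = ((glPSH F Ω).co r v : Ω) := by
  have hvm : v ∈ lvI F Ω n := mem_lvI.2 hv
  have h1 : evR r n = ∑ w ∈ lvI F Ω n, (((glPSH F Ω).co r w : ℤ) : Ω) • w.at n := by
    funext x
    rw [evR_expand, Finset.sum_apply]
    rfl
  rw [h1, Parker.ip_sum_left, Finset.sum_eq_single v]
  · rw [Parker.ip_smul_left, ip_at hvm hvm, if_pos rfl, _root_.mul_one]
  · intro w hw hne
    rw [Parker.ip_smul_left, ip_at hw hvm, if_neg hne, mul_zero]
  · intro h
    exact absurd hvm h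

/-- every character is of the form `evR r n` -/
theorem exists_evR {n : ℕ} {X : Type} [AddCommGroup X] [Module Ω X] [FiniteDimensional Ω X]
    (ρ : Representation Ω (Gn F n) X) :
    ∃ r : (glPSH F Ω).R, (glPSH F Ω).Hom n r ∧ (glPSH F Ω).Pos r ∧ ρ.character = evR r n := by
  let r : (glPSH F Ω).R :=
    ∑ v ∈ lvI F Ω n, ((Parker.mul ρ.character (v.at n) : ℕ) : ℤ) • (glPSH F Ω).el v
  have hco : ∀ w, (glPSH F Ω).co r w =
      ∑ v ∈ lvI F Ω n, ((Parker.mul ρ.character (v.at n) : ℕ) : ℤ) * (if w = v then 1 else 0) := by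
    intro w
    rw [co_sum]
    refine Finset.sum_congr rfl fun v _ => ?_
    rw [co_zsmul, co_el]
  refine ⟨r, ?_, ?_, ?_⟩
  · intro w hw
    by_contra hne
    apply hw
    rw [hco]
    apply Finset.sum_eq_zero
    intro v hv
    have h1 : w ≠ v := by
      intro h
      apply hne
      rw [h]
      exact mem_lvI.1 hv
    rw [if_neg h1, mul_zero]
  · intro w
    rw [hco]
    apply Finset.sum_nonneg
    intro v _
    split_ifs
    · rw [_root_.mul_one]; exact Int.natCast_nonneg _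
    · rw [mul_zero]
  · have h1 := Parker.char_eq_sum ρ
    rw [sum_irr n (fun φ => ((Parker.mul ρ.character φ : ℕ) : Ω) • φ)] at h1
    rw [h1]
    funext x
    rw [Finset.sum_apply]
    show _ = evR (∑ v ∈ lvI F Ω n, ((Parker.mul ρ.character (v.at n) : ℕ) : ℤ) •
      (glPSH F Ω).el v) n x
    rw [evR_sum]
    refine Finset.sum_congr rfl fun v _ => ?_
    rw [evR_zsmul, evR_el, Int.cast_natCast]
    rfl

theorem evR_inj {n : ℕ} {r s : (glPSH F Ω).R} (hr : (glPSH F Ω).Hom n r)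
    (hs : (glPSH F Ω).Hom n s) (h : evR r n = evR s n) : r = s := by
  apply R_ext
  intro v
  by_cases hv : v.n = n
  · have h1 := ip_evR r hv
    rw [h, ip_evR s hv] at h1
    exact_mod_cast h1.symm
  · have h1 : (glPSH F Ω).co r v = 0 := by
      by_contra h1
      exact hv (hr v h1)
    have h2 : (glPSH F Ω).co s v = 0 := by
      by_contra h2
      exact hv (hs v h2)
    rw [h1, h2]

private theorem dite_add_mul {p : Prop} {a a' b : p → Ω} :
    (if h : p then (a h + a' h) * b h else 0) =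
      (if h : p then a h * b h else 0) + (if h : p then a' h * b h else 0) := by
  by_cases h : p
  · rw [dif_pos h, dif_pos h, dif_pos h, add_mul]
  · rw [dif_neg h, dif_neg h, dif_neg h, add_zero]

private theorem dite_mul_add {p : Prop} {a b b' : p → Ω} :
    (if h : p then a h * (b h + b' h) else 0) =
      (if h : p then a h * b h else 0) + (if h : p then a h * b' h else 0) := by
  by_cases h : p
  · rw [dif_pos h, dif_pos h, dif_pos h, mul_add]
  · rw [dif_neg h, dif_neg h, dif_neg h, add_zero]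

private theorem dite_neg_mul {p : Prop} {a b : p → Ω} :
    (if h : p then (- a h) * b h else 0) = - (if h : p then a h * b h else 0) := by
  by_cases h : p
  · rw [dif_pos h, dif_pos h, neg_mul]
  · rw [dif_neg h, dif_neg h, neg_zero]

private theorem dite_mul_neg {p : Prop} {a b : p → Ω} :
    (if h : p then a h * (- b h) else 0) = - (if h : p then a h * b h else 0) := by
  by_cases h : p
  · rw [dif_pos h, dif_pos h, mul_neg]
  · rw [dif_neg h, dif_neg h, neg_zero]

/-- the product on arbitrary spaces -/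
private theorem evV_mul (V : Type) [AddCommGroup V] [Module F V] [Finite V] (x : GV F V)
    (r s : (glPSH F Ω).R) :
    (∑ᶠ W : Submodule F V, if h : Inv x W then
      evH W (rst x W h) r * evH (V ⧸ W) (quo x W h) s else 0) = evH V x (r * s) := by
  have := Fintype.ofFinite (Submodule F V)
  rw [finsum_eq_sum_of_fintype]
  refine R_induction (p := fun r => (∑ W : Submodule F V, if h : Inv x W then
      evH W (rst x W h) r * evH (V ⧸ W) (quo x W h) s else 0) = evH V x (r * s)) ?_ ?_ ?_ ?_ r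
  · rw [R_zero_mul, map_zero]
    apply Finset.sum_eq_zero
    intro W _
    by_cases h : Inv x W
    · rw [dif_pos h, map_zero, zero_mul]
    · rw [dif_neg h]
  · intro v
    refine R_induction (p := fun s => (∑ W : Submodule F V, if h : Inv x W then
      evH W (rst x W h) ((glPSH F Ω).el v) * evH (V ⧸ W) (quo x W h) s else 0) =
        evH V x ((glPSH F Ω).el v * s)) ?_ ?_ ?_ ?_ s
    · rw [mul_zero, map_zero]
      apply Finset.sum_eq_zero
      intro W _
      by_cases h : Inv x W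
      · rw [dif_pos h, map_zero, mul_zero]
      · rw [dif_neg h]
    · intro w
      have h1 := mul_expand v w V x
      have h2 : (v.cf.mul w.cf).val V x = ∑ W : Submodule F V,
          if h : Inv x W then v.cf.val W (rst x W h) * w.cf.val (V ⧸ W) (quo x W h) else 0 :=
        finsum_eq_sum_of_fintype _
      rw [h2] at h1
      rw [el_mul, map_sum]
      refine Eq.trans ?_ (h1.trans ?_)
      · refine Finset.sum_congr rfl fun W _ => ?_
        by_cases h : Inv x W
        · rw [dif_pos h, dif_pos h]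
          rw [← evV_eq, ← evV_eq, evV_el, evV_el]
        · rw [dif_neg h, dif_neg h]
      · refine Finset.sum_congr rfl fun u _ => ?_
        rw [map_zsmul, zsmul_eq_mul, ← evV_eq, evV_el, Int.cast_natCast]
        rfl
    · intro s s' hs hs'
      rw [mul_add, map_add, ← hs, ← hs', ← Finset.sum_add_distrib]
      refine Finset.sum_congr rfl fun W _ => ?_
      rw [← dite_mul_add]
      simp only [map_add]
    · intro s hs
      rw [mul_neg, map_neg, ← hs, ← Finset.sum_neg_distrib]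
      refine Finset.sum_congr rfl fun W _ => ?_
      rw [← dite_mul_neg]
      simp only [map_neg]
  · intro r r' hr hr'
    rw [add_mul, map_add, ← hr, ← hr', ← Finset.sum_add_distrib]
    refine Finset.sum_congr rfl fun W _ => ?_
    rw [← dite_add_mul]
    simp only [map_add]
  · intro r hr
    rw [neg_mul, map_neg, ← hr, ← Finset.sum_neg_distrib]
    refine Finset.sum_congr rfl fun W _ => ?_
    rw [← dite_neg_mul]
    simp only [map_neg]

/-- a class function of degree `a` with the values of `r` -/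
private theorem val_of_evR {a : ℕ} {r : (glPSH F Ω).R} (hr : (glPSH F Ω).Hom a r) {f : CF F Ω}
    (hf : f.IsDeg a) (hfr : f.at a = evR r a) (V : Type) [AddCommGroup V] [Module F V] [Finite V]
    (x : GV F V) : f.val V x = evH V x r := by
  by_cases hV : Module.finrank F V = a
  · rw [← f.val_tr (std F hV) x]
    have h1 : f.val (Fin a → F) (trE (std F hV) x) = evR r a (trE (std F hV) x) :=
      congrFun hfr (trE (std F hV) x)
    rw [h1]
    unfold evR
    show _ = evV r V x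
    unfold evV Finsupp.sum
    refine Finset.sum_congr rfl fun v _ => ?_
    exact congrArg (fun z : Ω => (((glPSH F Ω).co r v : ℤ) : Ω) * z)
      (v.cf.val_tr (std F hV) x)
  · rw [hf V x hV]
    show 0 = evV r V x
    unfold evV Finsupp.sum
    symm
    apply Finset.sum_eq_zero
    intro v hv
    have h1 : v.n = a := hr v (Finsupp.mem_support_iff.1 hv)
    show (((glPSH F Ω).co r v : ℤ) : Ω) * v.cf.val V x = 0
    rw [v.isDeg V x (by rw [h1]; exact hV), mul_zero]

/-- the product -/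
theorem evR_mul {a b n : ℕ} (h : a + b = n) {r s : (glPSH F Ω).R} (hr : (glPSH F Ω).Hom a r)
    (hs : (glPSH F Ω).Hom b s) {f g : CF F Ω} (hf : f.IsDeg a) (hg : g.IsDeg b)
    (hfr : f.at a = evR r a) (hgs : g.at b = evR s b) :
    (f.mul g).at n = evR (r * s) n := by
  funext x
  rw [evR_eq, ← evV_mul]
  show (f.mul g).val (Fin n → F) x = _
  show (∑ᶠ W : Submodule F (Fin n → F),
    if h : Inv x W then f.val W (rst x W h) * g.val ((Fin n → F) ⧸ W) (quo x W h) else 0) = _
  apply finsum_congr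
  intro W
  by_cases h : Inv x W
  · rw [dif_pos h, dif_pos h, val_of_evR hr hf hfr, val_of_evR hs hg hgs]
  · rw [dif_neg h, dif_neg h]

section

variable {L : Type} [Field L] [CharZero L] {X : Type} [AddCommGroup X] [Module L X]
  [FiniteDimensional L X]

private theorem psi_cast [CharP F 2] (ψ : AddChar F ℤ) {k : ℕ} {u' u : Gn F k}
    (hu' : u' ∈ UG F k) (hu : u ∈ UG F k) :
    ((ψ (sd u) : ℤ) : L) = ((ψ (sd u') : ℤ) : L) * ((ψ (sd (u' * u)) : ℤ) : L) := by
  rw [sd_mul hu' hu, AddChar.map_add_eq_mul, Int.cast_mul, ← mul_assoc]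
  rcases psi_val ψ (sd u') with h | h
  · rw [h, Int.cast_one, _root_.one_mul, _root_.one_mul]
  · rw [h, Int.cast_neg, Int.cast_one, neg_mul_neg, _root_.one_mul, _root_.one_mul]

private theorem psi_sq [CharP F 2] (ψ : AddChar F ℤ) (a : F) :
    ((ψ a : ℤ) : L) * ((ψ a : ℤ) : L) = 1 := by
  rcases psi_val ψ a with h | h
  · rw [h, Int.cast_one, _root_.one_mul]
  · rw [h, Int.cast_neg, Int.cast_one, neg_mul_neg, _root_.one_mul]

private theorem ext_mul_right {A C : Type} [AddCommGroup A] [Module F A] [AddCommGroup C]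
    [Module F C] (u' u : GV F C) (t' t : C →ₗ[F] A) :
    (ext 1 u' t' : GV F (A × C)) * ext 1 u t = ext 1 (u' * u) (t + t' ∘ₗ (u : C →ₗ[F] C)) := by
  rw [ext_mul, _root_.mul_one]
  rfl

private theorem ext_mul_left {A C : Type} [AddCommGroup A] [Module F A] [AddCommGroup C]
    [Module F C] (y : GV F A) (u : GV F C) (t : C →ₗ[F] A) :
    (ext y 1 0 : GV F (A × C)) * ext 1 u t = ext y u ((y : A →ₗ[F] A) ∘ₗ t) := by
  rw [ext_mul, _root_.mul_one, _root_.one_mul, LinearMap.zero_comp, add_zero]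

private def postc {A C : Type} [AddCommGroup A] [Module F A] [AddCommGroup C]
    [Module F C] (y : GV F A) : (C →ₗ[F] A) ≃ (C →ₗ[F] A) where
  toFun t := (y : A →ₗ[F] A) ∘ₗ t
  invFun t := (y.symm : A →ₗ[F] A) ∘ₗ t
  left_inv t := by
    apply LinearMap.ext
    intro c
    exact y.symm_apply_apply _
  right_inv t := by
    apply LinearMap.ext
    intro c
    exact y.apply_symm_apply _

theorem der_char [CharP F 2] (ψ : AddChar F ℤ) {n a k : ℕ} (h : a + k = n)
    (ρ : Representation L (Gn F n) X) (y : Gn F a) :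
    (derR ψ h ρ).character y = (Nat.card (UG F k) : L)⁻¹ * ∑ᶠ u : UG F k,
      ((ψ (sd (u : Gn F k)) : ℤ) : L) * ((Nat.card ((Fin k → F) →ₗ[F] (Fin a → F)) : L)⁻¹ *
        ∑ᶠ t : (Fin k → F) →ₗ[F] (Fin a → F), ρ.character (blk F h (ext y (u : Gn F k) t))) := by
  have := Fintype.ofFinite (UG F k)
  have := Fintype.ofFinite ((Fin k → F) →ₗ[F] (Fin a → F))
  rw [finsum_eq_sum_of_fintype]
  have hKL : (Nat.card (UG F k) : L) ≠ 0 := by
    exact_mod_cast Nat.card_pos.ne'
  have hNL : (Nat.card ((Fin k → F) →ₗ[F] (Fin a → F)) : L) ≠ 0 := by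
    exact_mod_cast Nat.card_pos.ne'
  set K : L := (Nat.card (UG F k) : L) with hK
  set N : L := (Nat.card ((Fin k → F) →ₗ[F] (Fin a → F)) : L) with hN
  let E : Module.End L X := K⁻¹ • ∑ u : UG F k, ((ψ (sd (u : Gn F k)) : ℤ) : L) • (N⁻¹ •
    ∑ t : (Fin k → F) →ₗ[F] (Fin a → F), ρ (blk F h (ext 1 (u : Gn F k) t)))
  have hEx : ∀ x, E x = K⁻¹ • ∑ u : UG F k, ((ψ (sd (u : Gn F k)) : ℤ) : L) • (N⁻¹ •
      ∑ t : (Fin k → F) →ₗ[F] (Fin a → F), ρ (blk F h (ext 1 (u : Gn F k) t)) x) := by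
    intro x
    show (K⁻¹ • ∑ u : UG F k, ((ψ (sd (u : Gn F k)) : ℤ) : L) • (N⁻¹ •
      ∑ t : (Fin k → F) →ₗ[F] (Fin a → F), ρ (blk F h (ext 1 (u : Gn F k) t)))) x = _
    rw [LinearMap.smul_apply, LinearMap.sum_apply]
    congr 1
    refine Finset.sum_congr rfl fun u _ => ?_
    rw [LinearMap.smul_apply, LinearMap.smul_apply, LinearMap.sum_apply]
  have hE1 : ∀ x, E x ∈ derS ψ h ρ := by
    intro x u' hu' t'
    rw [hEx, map_smul, map_sum, smul_comm, ]
    congr 1
    have e1 : ∀ u : UG F k, ρ (blk F h (ext 1 u' t')) (((ψ (sd (u : Gn F k)) : ℤ) : L) • (N⁻¹ •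
        ∑ t : (Fin k → F) →ₗ[F] (Fin a → F), ρ (blk F h (ext 1 (u : Gn F k) t)) x)) =
        ((ψ (sd u') : ℤ) : L) • ((ψ (sd ((⟨u', hu'⟩ * u : UG F k) : Gn F k)) : ℤ) : L) • (N⁻¹ •
        ∑ t : (Fin k → F) →ₗ[F] (Fin a → F),
          ρ (blk F h (ext 1 ((⟨u', hu'⟩ * u : UG F k) : Gn F k) t)) x) := by
      intro u
      rw [map_smul, map_smul, map_sum, smul_smul ((ψ (sd u') : ℤ) : L)]
      have e2 := psi_cast (L := L) ψ hu' u.2
      have e3 : ((⟨u', hu'⟩ * u : UG F k) : Gn F k) = u' * (u : Gn F k) := rfl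
      rw [e3, ← e2]
      congr 2
      refine Eq.trans (Finset.sum_congr rfl fun t _ => ?_) (Equiv.sum_comp (Equiv.addRight
        (t' ∘ₗ ((u : Gn F k) : (Fin k → F) →ₗ[F] (Fin k → F))))
        (fun t => ρ (blk F h (ext 1 (u' * (u : Gn F k)) t)) x))
      rw [← Module.End.mul_apply, ← map_mul, ← map_mul, ext_mul_right]
      rfl
    rw [Finset.sum_congr rfl (fun u _ => e1 u), ← Finset.smul_sum]
    congr 1
    exact Equiv.sum_comp (Equiv.mulLeft (⟨u', hu'⟩ : UG F k)) (fun u : UG F k =>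
      ((ψ (sd (u : Gn F k)) : ℤ) : L) • (N⁻¹ •
        ∑ t : (Fin k → F) →ₗ[F] (Fin a → F), ρ (blk F h (ext 1 (u : Gn F k) t)) x))
  have hE2 : ∀ x ∈ derS ψ h ρ, E x = x := by
    intro x hx
    rw [hEx]
    have e1 : ∀ u : UG F k, ((ψ (sd (u : Gn F k)) : ℤ) : L) • (N⁻¹ •
        ∑ t : (Fin k → F) →ₗ[F] (Fin a → F), ρ (blk F h (ext 1 (u : Gn F k) t)) x) = x := by
      intro u
      have e2 : ∀ t : (Fin k → F) →ₗ[F] (Fin a → F), ρ (blk F h (ext 1 (u : Gn F k) t)) x =
          ((ψ (sd (u : Gn F k)) : ℤ) : L) • x := fun t => hx u u.2 t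
      rw [Finset.sum_congr rfl (fun t _ => e2 t), Finset.sum_const, Finset.card_univ,
        ← Nat.card_eq_fintype_card, ← Nat.cast_smul_eq_nsmul L, ← hN, inv_smul_smul₀ hNL,
        smul_smul, psi_sq, one_smul]
    rw [Finset.sum_congr rfl (fun u _ => e1 u), Finset.sum_const, Finset.card_univ,
      ← Nat.card_eq_fintype_card, ← Nat.cast_smul_eq_nsmul L, ← hK, inv_smul_smul₀ hKL]
  -- the trace
  have hf : ∀ x, (ρ (blk F h (ext y 1 0)) * E) x ∈ derS ψ h ρ := fun x =>
    derS_stable ψ h ρ y (hE1 x)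
  have h1 : (derR ψ h ρ).character y = LinearMap.trace L X (ρ (blk F h (ext y 1 0)) * E) := by
    rw [← LinearMap.trace_restrict_eq_of_forall_mem (derS ψ h ρ) _ hf]
    show LinearMap.trace L _ (derR ψ h ρ y) = _
    congr 1
    apply LinearMap.ext
    intro x
    apply Subtype.ext
    show ρ (blk F h (ext y 1 0)) x = ρ (blk F h (ext y 1 0)) (E x)
    rw [hE2 x x.2]
  rw [h1]
  show LinearMap.trace L X (ρ (blk F h (ext y 1 0)) * (K⁻¹ • ∑ u : UG F k,
    ((ψ (sd (u : Gn F k)) : ℤ) : L) • (N⁻¹ •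
    ∑ t : (Fin k → F) →ₗ[F] (Fin a → F), ρ (blk F h (ext 1 (u : Gn F k) t))))) = _
  rw [mul_smul_comm, map_smul, smul_eq_mul, Finset.mul_sum, map_sum]
  congr 1
  refine Finset.sum_congr rfl fun u _ => ?_
  rw [mul_smul_comm, map_smul, smul_eq_mul, mul_smul_comm, map_smul, smul_eq_mul, Finset.mul_sum,
    map_sum, finsum_eq_sum_of_fintype]
  congr 2
  refine Eq.trans (Finset.sum_congr rfl fun t _ => ?_) (Equiv.sum_comp (postc y)
    (fun t => ρ.character (blk F h (ext y (u : Gn F k) t))))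
  rw [← map_mul, ← map_mul, ext_mul_left]
  rfl

private theorem der_evR_el [CharP F 2] (ψ : AddChar F ℤ) {n a k : ℕ} (h : a + k = n)
    (v : Irr F Ω) (y : Gn F a) :
    (Nat.card (UG F k) : Ω)⁻¹ * ∑ᶠ u : UG F k,
      ((ψ (sd (u : Gn F k)) : ℤ) : Ω) * ((Nat.card ((Fin k → F) →ₗ[F] (Fin a → F)) : Ω)⁻¹ *
        ∑ᶠ t : (Fin k → F) →ₗ[F] (Fin a → F), v.at n (blk F h (ext y (u : Gn F k) t))) =
      evR (∑ c ∈ lvI F Ω k, (c.dl ψ : ℤ) • (glPSH F Ω).perp c ((glPSH F Ω).el v)) a y := by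
  have e1 : ∀ u : UG F k, ((Nat.card ((Fin k → F) →ₗ[F] (Fin a → F)) : Ω)⁻¹ *
        ∑ᶠ t : (Fin k → F) →ₗ[F] (Fin a → F), v.at n (blk F h (ext y (u : Gn F k) t))) =
      ∑ α ∈ lvI F Ω a, ∑ β ∈ lvI F Ω k, (mI v α β : Ω) * (α.at a y * β.at k (u : Gn F k)) := by
    intro u
    rw [← cop_expand]
    unfold CF.cop
    congr 1
    apply finsum_congr
    intro t
    exact CF.val_blk v.cf h _
  have e2 : ∀ β ∈ lvI F Ω k, (Nat.card (UG F k) : Ω)⁻¹ * ∑ᶠ u : UG F k,
      ((ψ (sd (u : Gn F k)) : ℤ) : Ω) * β.at k (u : Gn F k) = (β.dl ψ : Ω) := by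
    intro β hβ
    obtain rfl : β.n = k := mem_lvI.1 hβ
    exact (β.dl_spec ψ).symm
  have := Fintype.ofFinite (UG F k)
  rw [finsum_congr (fun u : UG F k => congrArg (fun z => ((ψ (sd (u : Gn F k)) : ℤ) : Ω) * z)
    (e1 u)), finsum_eq_sum_of_fintype, evR_sum]
  simp only [finsum_eq_sum_of_fintype] at e2
  have e3 : ∀ c ∈ lvI F Ω k, evR ((c.dl ψ : ℤ) • (glPSH F Ω).perp c ((glPSH F Ω).el v)) a y =
      ∑ α ∈ lvI F Ω a, (c.dl ψ : Ω) * ((mI v α c : Ω) * α.at a y) := by
    intro c _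
    rw [evR_zsmul, evR_expand, Finset.mul_sum]
    refine Finset.sum_congr rfl fun α _ => ?_
    rw [co_perp_el, Int.cast_natCast, Int.cast_natCast]
    have : (glPSH F Ω).m v c α = mI v α c := mI_comm v c α
    rw [this]
  rw [Finset.sum_congr rfl e3, Finset.sum_comm, Finset.mul_sum]
  have e4 : ∀ α ∈ lvI F Ω a, ∑ c ∈ lvI F Ω k, (c.dl ψ : Ω) * ((mI v α c : Ω) * α.at a y) =
      ∑ c ∈ lvI F Ω k, ((Nat.card (UG F k) : Ω)⁻¹ * ∑ u : UG F k,
      ((ψ (sd (u : Gn F k)) : ℤ) : Ω) * c.at k (u : Gn F k)) * ((mI v α c : Ω) * α.at a y) := by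
    intro α _
    refine Finset.sum_congr rfl fun c hc => ?_
    rw [e2 c hc]
  rw [Finset.sum_congr rfl e4]
  have e5 : ∀ u : UG F k, (Nat.card (UG F k) : Ω)⁻¹ * (((ψ (sd (u : Gn F k)) : ℤ) : Ω) *
      ∑ α ∈ lvI F Ω a, ∑ β ∈ lvI F Ω k, (mI v α β : Ω) * (α.at a y * β.at k (u : Gn F k))) =
      ∑ α ∈ lvI F Ω a, ∑ β ∈ lvI F Ω k, (Nat.card (UG F k) : Ω)⁻¹ *
      (((ψ (sd (u : Gn F k)) : ℤ) : Ω) * β.at k (u : Gn F k)) * ((mI v α β : Ω) * α.at a y) := by
    intro u
    rw [Finset.mul_sum, Finset.mul_sum]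
    refine Finset.sum_congr rfl fun α _ => ?_
    rw [Finset.mul_sum, Finset.mul_sum]
    refine Finset.sum_congr rfl fun β _ => ?_
    ring
  rw [Finset.sum_congr rfl (fun u _ => e5 u), Finset.sum_comm]
  refine Finset.sum_congr rfl fun α _ => ?_
  rw [Finset.sum_comm]
  refine Finset.sum_congr rfl fun β _ => ?_
  rw [← Finset.sum_mul, ← Finset.mul_sum]

theorem der_evR [CharP F 2] [Algebra L Ω] (ψ : AddChar F ℤ) {n a k : ℕ} (h : a + k = n)
    (ρ : Representation L (Gn F n) X) (r : (glPSH F Ω).R)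
    (hr : ∀ g, algebraMap L Ω (ρ.character g) = evR r n g) (y : Gn F a) :
    algebraMap L Ω ((derR ψ h ρ).character y) =
      evR (∑ c ∈ lvI F Ω k, (c.dl ψ : ℤ) • (glPSH F Ω).perp c r) a y := by
  have := Fintype.ofFinite (UG F k)
  have := Fintype.ofFinite ((Fin k → F) →ₗ[F] (Fin a → F))
  rw [der_char]
  have key : ∀ s : (glPSH F Ω).R, (Nat.card (UG F k) : Ω)⁻¹ * ∑ u : UG F k,
      ((ψ (sd (u : Gn F k)) : ℤ) : Ω) * ((Nat.card ((Fin k → F) →ₗ[F] (Fin a → F)) : Ω)⁻¹ *
        ∑ t : (Fin k → F) →ₗ[F] (Fin a → F), evR s n (blk F h (ext y (u : Gn F k) t))) =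
      evR (∑ c ∈ lvI F Ω k, (c.dl ψ : ℤ) • (glPSH F Ω).perp c s) a y := by
    intro s
    refine R_induction (p := fun s => (Nat.card (UG F k) : Ω)⁻¹ * ∑ u : UG F k,
      ((ψ (sd (u : Gn F k)) : ℤ) : Ω) * ((Nat.card ((Fin k → F) →ₗ[F] (Fin a → F)) : Ω)⁻¹ *
        ∑ t : (Fin k → F) →ₗ[F] (Fin a → F), evR s n (blk F h (ext y (u : Gn F k) t))) =
      evR (∑ c ∈ lvI F Ω k, (c.dl ψ : ℤ) • (glPSH F Ω).perp c s) a y) ?_ ?_ ?_ ?_ s
    · simp only [map_zero, smul_zero, Finset.sum_const_zero, evR_zero, mul_zero]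
    · intro v
      have h1 := der_evR_el (Ω := Ω) ψ h v y
      simp only [finsum_eq_sum_of_fintype] at h1
      rw [← h1]
      simp only [evR_el]
    · intro s s' hs hs'
      have e1 : ∑ c ∈ lvI F Ω k, (c.dl ψ : ℤ) • (glPSH F Ω).perp c (s + s') =
          ∑ c ∈ lvI F Ω k, (c.dl ψ : ℤ) • (glPSH F Ω).perp c s +
          ∑ c ∈ lvI F Ω k, (c.dl ψ : ℤ) • (glPSH F Ω).perp c s' := by
        rw [← Finset.sum_add_distrib]
        refine Finset.sum_congr rfl fun c _ => ?_
        rw [map_add, smul_add]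
      rw [e1, evR_add, ← hs, ← hs']
      simp only [evR_add, Finset.sum_add_distrib, mul_add]
    · intro s hs
      have e1 : ∑ c ∈ lvI F Ω k, (c.dl ψ : ℤ) • (glPSH F Ω).perp c (-s) =
          - ∑ c ∈ lvI F Ω k, (c.dl ψ : ℤ) • (glPSH F Ω).perp c s := by
        rw [← Finset.sum_neg_distrib]
        refine Finset.sum_congr rfl fun c _ => ?_
        rw [map_neg, smul_neg]
      rw [e1, evR_neg, ← hs]
      simp only [evR_neg, Finset.sum_neg_distrib, mul_neg]
  rw [← key r]
  simp only [finsum_eq_sum_of_fintype, map_mul, map_inv₀, map_natCast, map_sum, hr, map_intCast]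

end

end

end ParkerGL
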