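import Pool.Agent.ParkerGL.B07
import Pool.Agent.ParkerGL.B02
import Pool.Agent.ParkerGL.B05

/-!
# MP_6c3636_al, GL_n(q), module B09: the Whittaker functional on irreducible characters (helper7)

* `dlI_one`: `UG F 0` is trivial. `dlI_mul`: `CF.dl_mul`, `mul_expand`, `Irr.dl_spec`.
* `dlI_cusp`: let `ρ` be an irreducible representation of `Gn F n` (`n = v.n > 0`) with character `v.φ`, `v` cuspidal. By
  `der_evR` (with `L = Ω`, `r = el v`) the character of `derR ψ (dh i) ρ` is `∑_c dl c perp c (el v)`, which is `0` for `i + 1 < n`: a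
  nonzero coefficient `m v c α` with `c.n = i + 1` has `0 < c.n < n`, so `c ≠ one`, `α ≠ one`, contradiction. So `derS ψ (dh i) ρ = 0` for
  `i + 1 < n` (a representation with zero character is zero), and `derS` for `i + 1 = n` (`a = 0`) is `whS` (`blk` with `a = 0`:
  `blk (ext 1 u t)` corresponds to `u`; simplest: its dimension is by `der_evR` at `y = 1` the number
  `∑_c dl c * m v c one = dl v`). By `der_finrank` `v.dim = c * dl v`, so `dl v ≠ 0`, and `dl v ≤ 1` by `wh_le_one` and `Irr.dl_eq`.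
-/

namespace ParkerGL

noncomputable section

open Classical

variable {F : Type} [Field F] [Finite F] [CharP F 2] {Ω : Type} [Field Ω] [IsAlgClosed Ω]
  [CharZero Ω]

namespace B09_aux

omit [CharP F 2] [IsAlgClosed Ω] in
/-- the functional only depends on the values on `GL_k(F)`, and is linear in them -/
theorem dl_lin (ψ : AddChar F ℤ) (k : ℕ) {ι : Type*} (s : Finset ι) (c : ι → Ω)
    (g : ι → CF F Ω) (f : CF F Ω) (h : ∀ x, f.at k x = ∑ i ∈ s, c i * (g i).at k x) :
    f.dl ψ k = ∑ i ∈ s, c i * (g i).dl ψ k := by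
  let _ := Fintype.ofFinite (UG F k)
  unfold CF.dl
  simp only [finsum_eq_sum_of_fintype]
  simp only [h, Finset.mul_sum]
  rw [Finset.sum_comm]
  refine Finset.sum_congr rfl fun i _ => Finset.sum_congr rfl fun u _ => ?_
  ring

omit [CharP F 2] in
/-- the value of `evR` in degree `a` -/
theorem evR_coeff (r : (glPSH F Ω).R) (a : ℕ) (h : ∀ v : Irr F Ω, v.n = a → (glPSH F Ω).co r v = 0)
    (y : Gn F a) : evR r a y = 0 := by
  unfold evR
  apply Finset.sum_eq_zero
  intro v _
  by_cases hv : v.n = a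
  · have h1 : (show Irr F Ω →₀ ℤ from r) v = 0 := h v hv
    show (((show Irr F Ω →₀ ℤ from r) v : ℤ) : Ω) * v.at a y = 0
    rw [h1]
    simp
  · show (((show Irr F Ω →₀ ℤ from r) v : ℤ) : Ω) * v.at a y = 0
    rw [Irr.at_ne v (fun h' => hv h'.symm)]
    simp

end B09_aux

open B09_aux

theorem dlI_one (ψ : AddChar F ℤ) : (oneI F Ω).dl ψ = 1 := by
  have h1 := Irr.dl_spec ψ (oneI F Ω)
  have h2 : (oneI F Ω).cf.dl ψ (oneI F Ω).n = 1 := by
    show (oneI F Ω).cf.dl ψ 0 = 1
    let _ := Fintype.ofFinite (UG F 0)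
    have : Subsingleton (UG F 0) := ⟨fun a b => Subtype.ext (by
      ext1 x
      exact Subsingleton.elim _ _)⟩
    have h3 : ∀ u : UG F 0, ((ψ (sd (u : Gn F 0)) : ℤ) : Ω) * (oneI F Ω).cf.at 0 u = 1 := by
      intro u
      have h4 : sd (u : Gn F 0) = 0 := by
        unfold sd
        simp
      have h5 : (oneI F Ω).cf.at 0 u = 1 := by
        have h6 := congrFun (Irr.at_self (oneI F Ω)) (u : Gn F 0)
        exact h6
      rw [h4, h5, AddChar.map_zero_eq_one]
      simp
    unfold CF.dl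
    rw [finsum_eq_sum_of_fintype]
    simp only [h3]
    have h7 : Nat.card (UG F 0) = 1 := Nat.card_unique
    have h8 : Fintype.card (UG F 0) = 1 := by rw [← Nat.card_eq_fintype_card, h7]
    rw [h7, Finset.sum_const, Finset.card_univ, h8]
    simp
  rw [h2] at h1
  exact_mod_cast h1

theorem dlI_mul (ψ : AddChar F ℤ) (hψ : ∃ a, ψ a ≠ 1) (a b : Irr F Ω) :
    a.dl ψ * b.dl ψ = ∑ v ∈ lvI F Ω (a.n + b.n), mI v a b * v.dl ψ := by
  have h1 := CF.dl_mul (Ω := Ω) ψ hψ (Irr.isDeg a) (Irr.isDeg b)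
  have h2 := dl_lin ψ (a.n + b.n) (lvI F Ω (a.n + b.n)) (fun v => (mI v a b : Ω))
    (fun v => v.cf) (a.cf.mul b.cf) (fun x => mul_expand a b _ x)
  rw [h1, ← Irr.dl_spec, ← Irr.dl_spec] at h2
  have h3 : ∑ v ∈ lvI F Ω (a.n + b.n), (mI v a b : Ω) * v.cf.dl ψ (a.n + b.n) =
      ∑ v ∈ lvI F Ω (a.n + b.n), (mI v a b : Ω) * (v.dl ψ : Ω) := by
    refine Finset.sum_congr rfl fun v hv => ?_
    rw [Irr.dl_spec, mem_lvI.1 hv]
  have h4 : (a.dl ψ : Ω) * (b.dl ψ : Ω) =
      ∑ v ∈ lvI F Ω (a.n + b.n), (mI v a b : Ω) * (v.dl ψ : Ω) := h2.trans h3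
  exact_mod_cast h4

theorem dlI_cusp (ψ : AddChar F ℤ) (hψ : ∃ a, ψ a ≠ 1) (v : Irr F Ω)
    (hv : (glPSH F Ω).Cusp v) : v.dl ψ = 1 := by
  obtain ⟨hv1, hv2⟩ := hv
  have hne : v ≠ oneI F Ω := hv1
  have hn : 0 < v.n := by
    rcases Nat.eq_zero_or_pos v.n with h | h
    · exact absurd ((deg_zeroI v).1 h) hne
    · exact h
  obtain ⟨N, ρ, hρ, hch⟩ := Parker.mem_irr.1 v.mem
  have hr : ∀ g, algebraMap Ω Ω (ρ.character g) = evR ((glPSH F Ω).el v) v.n g := by
    intro g
    rw [evR_el, Irr.at_self, hch]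
    rfl
  -- the dimension of the derivatives
  have hd : ∀ i : Fin v.n, (Module.finrank Ω (derS ψ (dh i) ρ) : Ω) =
      ∑ c ∈ lvI F Ω ((i : ℕ) + 1), (c.dl ψ : Ω) *
        evR ((glPSH F Ω).perp c ((glPSH F Ω).el v)) (v.n - 1 - i) 1 := by
    intro i
    have h1 := der_evR ψ (dh i) ρ ((glPSH F Ω).el v) hr 1
    have h2 : (derR ψ (dh i) ρ).character 1 = (Module.finrank Ω (derS ψ (dh i) ρ) : Ω) :=
      Representation.char_one _
    rw [h2, evR_sum] at h1
    have h3 : (Module.finrank Ω (derS ψ (dh i) ρ) : Ω) = algebraMap Ω Ω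
      (Module.finrank Ω (derS ψ (dh i) ρ) : Ω) := rfl
    rw [h3, h1]
    refine Finset.sum_congr rfl fun c _ => ?_
    rw [evR_zsmul]
    simp
  have h0 : ∀ i : Fin v.n, (i : ℕ) + 1 < v.n → Module.finrank Ω (derS ψ (dh i) ρ) = 0 := by
    intro i hi
    have h1 := hd i
    rw [Finset.sum_eq_zero] at h1
    · exact_mod_cast h1
    · intro c hc
      rw [evR_coeff, mul_zero]
      intro α hα
      rw [co_perp_el]
      by_contra hm
      have hm' : (glPSH F Ω).m v c α ≠ 0 := fun h => hm (by rw [h]; rfl)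
      have hdeg : v.n = c.n + α.n := mI_deg hm'
      have hc1 : c.n = (i : ℕ) + 1 := mem_lvI.1 hc
      rcases hv2 c α hm' with h | h
      · have : c.n = 0 := (deg_zeroI c).2 h
        omega
      · have : α.n = 0 := (deg_zeroI α).2 h
        omega
  have hlast : ∀ i : Fin v.n, (i : ℕ) + 1 = v.n →
      Module.finrank Ω (derS ψ (dh i) ρ) = v.dl ψ := by
    intro i hi
    have h1 := hd i
    have h2 : ∀ c : Irr F Ω, evR ((glPSH F Ω).perp c ((glPSH F Ω).el v)) (v.n - 1 - i) 1 =
        if v = c then (1 : Ω) else 0 := by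
      intro c
      have hz : v.n - 1 - (i : ℕ) = 0 := by omega
      have h3 : evR ((glPSH F Ω).perp c ((glPSH F Ω).el v) -
          (if v = c then (1 : ℤ) else 0) • (glPSH F Ω).el (oneI F Ω)) (v.n - 1 - i) 1 = 0 := by
        apply evR_coeff
        intro α hα
        have hα1 : α = oneI F Ω := (deg_zeroI α).1 (hα.trans hz)
        rw [co_sub, co_zsmul, co_perp_el, co_el, hα1, if_pos rfl]
        have h4 : (glPSH F Ω).m v c (oneI F Ω) = if v = c then 1 else 0 := by
          have := mI_one v c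
          rw [mI_comm] at this
          exact this
        rw [h4]
        split_ifs <;> simp
      rw [sub_eq_add_neg, evR_add, evR_neg, evR_zsmul, evR_el] at h3
      have h5 : (oneI F Ω).at (v.n - 1 - i) 1 = (1 : Ω) := by
        have h6 : ∀ m : ℕ, m = 0 → (oneI F Ω).at m 1 = (1 : Ω) := by
          rintro m rfl
          exact congrFun (Irr.at_self (oneI F Ω)) (1 : Gn F 0)
        exact h6 _ hz
      rw [h5, mul_one] at h3
      rw [add_neg_eq_zero.1 h3]
      split_ifs <;> simp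
    simp only [h2] at h1
    have hvm : v ∈ lvI F Ω ((i : ℕ) + 1) := mem_lvI.2 hi.symm
    simp only [mul_ite, mul_one, mul_zero] at h1
    rw [Finset.sum_ite_eq, if_pos hvm] at h1
    exact_mod_cast h1
  obtain ⟨c, -, hc⟩ := der_finrank ψ hψ hn ρ
  have hi0 : v.n - 1 < v.n := by omega
  have hsum : Module.finrank Ω (Fin N → Ω) = c ⟨v.n - 1, hi0⟩ * v.dl ψ := by
    rw [hc, Finset.sum_eq_single (⟨v.n - 1, hi0⟩ : Fin v.n)]
    · rw [hlast ⟨v.n - 1, hi0⟩ (by show v.n - 1 + 1 = v.n; omega)]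
    · intro i _ hi
      rw [h0 i, mul_zero]
      have h1 : (i : ℕ) ≠ v.n - 1 := fun h => hi (Fin.ext h)
      have h2 := i.2
      omega
    · intro h
      exact absurd (Finset.mem_univ _) h
  have hN : 0 < Module.finrank Ω (Fin N → Ω) := by
    rcases Nat.eq_zero_or_pos (Module.finrank Ω (Fin N → Ω)) with h | h
    · exfalso
      have h1 : Subsingleton (Fin N → Ω) := Module.finrank_zero_iff.1 h
      obtain ⟨A, B, hAB⟩ := (show IsSimpleOrder (Subrepresentation ρ) from hρ).exists_pair_ne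
      apply hAB
      have h2 : A.toSubmodule = B.toSubmodule := by
        ext x
        rw [Subsingleton.elim x 0]
        exact ⟨fun _ => B.toSubmodule.zero_mem, fun _ => A.toSubmodule.zero_mem⟩
      cases A
      cases B
      cases h2
      rfl
    · exact h
  have hle : v.dl ψ ≤ 1 := by
    rw [Irr.dl_eq ψ v ρ hch]
    exact wh_le_one ψ hψ hρ
  have hpos : v.dl ψ ≠ 0 := by
    intro h
    rw [h, mul_zero] at hsum
    omega
  omega

end

end ParkerGL
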