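import Pool.Agent.ParkerGL.A08
import Pool.Agent.ParkerGL.A09
import Pool.Agent.ParkerGL.B01

/-!
# MP_6c3636_al, GL_n(q), module B10: duality, parity of dimensions (helper7)

* `bar`: the character `g ↦ v.φ g⁻¹`; `(v.bar).cf.val V x = v.cf.val V x⁻¹`; the coproduct of `v.bar` at `(y, z)` is the one of `v` at
  `(y⁻¹, z⁻¹)` (`ext_inv`), so `mI` is invariant (reindex the inner product). `dl`: `ψ (sd u⁻¹) = ψ (- sd u) = ψ (sd u)`.
* `odI_mul`: evaluate `mul_expand` at `x = 1`, `V = F^n`, `n = a.n + b.n`: the left side is the number of subspaces of dimension `a.n` times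
  `a.dim * b.dim` (`CF.val` at `1` is the degree). This number is odd: the `2`-group `UG F n` acts on this set with exactly one fixed
  point (`F_{a.n}`; if `W` is stable under all `1 + x E_{ij}`, `i < j`, then with a vector whose last nonzero coordinate is `j` it
  contains all `e_i`, `i < j`, so it is some `F_m`), `IsPGroup.card_modEq_card_fixedPoints`; `UG F n` is a `2`-group: it acts
  faithfully and unipotently, or `u ^ (2^n) = 1` as `(u - 1)^(2^n) = 0` in characteristic two. Cast to `ZMod 2`: the equation is one of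
  natural numbers (cast from `Ω`, `CharZero`).
-/

namespace ParkerGL

noncomputable section

open Classical

variable {F : Type} [Field F] [Finite F] [CharP F 2] {Ω : Type} [Field Ω] [IsAlgClosed Ω]
  [CharZero Ω]

namespace B10_aux

omit [CharP F 2] in
/-- the number of the subspaces times the number of the bases -/
theorem count {n a : ℕ} (h : a ≤ n) [Fintype F] :
    Nat.card {W : Submodule F (Fin n → F) // Module.finrank F W = a} *
      ∏ i : Fin a, (Fintype.card F ^ a - Fintype.card F ^ (i : ℕ)) =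
      ∏ i : Fin a, (Fintype.card F ^ n - Fintype.card F ^ (i : ℕ)) := by
  have h1 := card_linearIndependent (K := F) (V := Fin n → F) (k := a)
    (by rw [Module.finrank_fin_fun]; exact h)
  rw [Module.finrank_fin_fun] at h1
  rw [← h1]
  let X := {W : Submodule F (Fin n → F) // Module.finrank F W = a}
  have h2 : Nat.card (Σ W : X, {s : Fin a → W.1 // LinearIndependent F s}) =
      Nat.card X * ∏ i : Fin a, (Fintype.card F ^ a - Fintype.card F ^ (i : ℕ)) := by
    let _ : Fintype X := Fintype.ofFinite X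
    rw [Nat.card_sigma]
    have h3 : ∀ W : X, Nat.card {s : Fin a → W.1 // LinearIndependent F s} =
        ∏ i : Fin a, (Fintype.card F ^ a - Fintype.card F ^ (i : ℕ)) := by
      intro W
      have := card_linearIndependent (K := F) (V := W.1) (k := a) (le_of_eq W.2.symm)
      rw [W.2] at this
      exact this
    rw [Finset.sum_congr rfl (fun W _ => h3 W), Finset.sum_const, smul_eq_mul,
      Nat.card_eq_fintype_card, Finset.card_univ]
  rw [← h2]
  let f : (Σ W : X, {s : Fin a → W.1 // LinearIndependent F s}) →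
      {s : Fin a → (Fin n → F) // LinearIndependent F s} :=
    fun p => ⟨fun i => (p.2.1 i : Fin n → F),
      p.2.2.map' p.1.1.subtype (Submodule.ker_subtype _)⟩
  refine Nat.card_congr (Equiv.ofBijective f ⟨?_, ?_⟩)
  · rintro ⟨⟨W, hW⟩, ⟨s, hs⟩⟩ ⟨⟨W', hW'⟩, ⟨s', hs'⟩⟩ hf
    have h3 : ∀ i, (s i : Fin n → F) = s' i := fun i => congrFun (congrArg Subtype.val hf) i
    have key : ∀ (U : Submodule F (Fin n → F)) (_ : Module.finrank F U = a) (t : Fin a → U)
        (_ : LinearIndependent F t), Submodule.span F (Set.range fun i => (t i : Fin n → F)) = U := by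
      intro U hU t ht
      apply Submodule.eq_of_le_of_finrank_eq
      · rw [Submodule.span_le]
        rintro _ ⟨i, rfl⟩
        exact (t i).2
      · rw [hU]
        exact (finrank_span_eq_card (b := fun i => (t i : Fin n → F))
          (ht.map' U.subtype (Submodule.ker_subtype _))).trans (Fintype.card_fin a)
    have h4 : W = W' := by
      rw [← key W hW s hs, ← key W' hW' s' hs']
      congr 2
      funext i
      exact h3 i
    subst h4
    have h5 : s = s' := funext fun i => Subtype.ext (h3 i)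
    subst h5
    rfl
  · rintro ⟨s, hs⟩
    refine ⟨⟨⟨Submodule.span F (Set.range s), ?_⟩,
      ⟨fun i => ⟨s i, Submodule.subset_span ⟨i, rfl⟩⟩, ?_⟩⟩, ?_⟩
    · rw [finrank_span_eq_card hs, Fintype.card_fin]
    · exact LinearIndependent.of_comp (Submodule.subtype _) hs
    · rfl

theorem odd_prod_sub {ι : Type} (s : Finset ι) (f : ι → ℕ) (h : ∀ i ∈ s, Odd (f i)) :
    Odd (∏ i ∈ s, f i) := by
  induction s using Finset.induction_on with
  | empty => simp
  | insert a s ha ih =>
    rw [Finset.prod_insert ha]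
    exact (h a (Finset.mem_insert_self a s)).mul (ih fun i hi => h i (Finset.mem_insert_of_mem hi))

omit [Finite F] in
theorem even_card [Fintype F] : Even (Fintype.card F) := by
  rw [even_iff_two_dvd, ← CharP.cast_eq_zero_iff F 2 (Fintype.card F), Nat.cast_card_eq_zero]

theorem pow_fact {q a m : ℕ} (h : a ≤ m) :
    ∏ i : Fin a, (q ^ m - q ^ (i : ℕ)) =
      (∏ i : Fin a, q ^ (i : ℕ)) * ∏ i : Fin a, (q ^ (m - (i : ℕ)) - 1) := by
  rw [← Finset.prod_mul_distrib]
  refine Finset.prod_congr rfl fun i _ => ?_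
  rw [Nat.mul_sub, mul_one, ← pow_add]
  congr 2
  have := i.2
  omega

omit [Finite F] [CharP F 2] in
theorem tr_one {V W : Type} [AddCommGroup V] [Module F V] [AddCommGroup W] [Module F W]
    (e : V ≃ₗ[F] W) : tr e 1 = 1 := map_one (trE e)

omit [Finite F] [CharP F 2] in
theorem tr_inv {V W : Type} [AddCommGroup V] [Module F V] [AddCommGroup W] [Module F W]
    (e : V ≃ₗ[F] W) (x : GV F V) : tr e x⁻¹ = (tr e x)⁻¹ := map_inv (trE e) x

omit [CharP F 2] in
theorem bar_val (v : Irr F Ω) (V : Type) [AddCommGroup V] [Module F V] [Finite V] (x : GV F V) :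
    v.bar.cf.val V x = v.cf.val V x⁻¹ := by
  show (if h : Module.finrank F V = v.n then Parker.du v.φ (tr (std F h) x) else 0) =
    if h : Module.finrank F V = v.n then v.φ (tr (std F h) x⁻¹) else 0
  by_cases h : Module.finrank F V = v.n
  · rw [dif_pos h, dif_pos h, tr_inv]
    rfl
  · rw [dif_neg h, dif_neg h]

omit [CharP F 2] in
theorem bar_cop (v : Irr F Ω) (A C : Type) [AddCommGroup A] [Module F A] [Finite A]
    [AddCommGroup C] [Module F C] [Finite C] (y : GV F A) (z : GV F C) :
    v.bar.cf.cop A C y z = v.cf.cop A C y⁻¹ z⁻¹ := by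
  unfold CF.cop
  congr 1
  let f : (C →ₗ[F] A) → (C →ₗ[F] A) := fun h =>
    -((y⁻¹ : GV F A) : A →ₗ[F] A) ∘ₗ h ∘ₗ ((z⁻¹ : GV F C) : C →ₗ[F] C)
  have hf : Function.Injective f := by
    intro h h' hh
    have h1 : (ext y z h)⁻¹ = (ext y z h')⁻¹ := by
      rw [ext_inv, ext_inv]
      exact congrArg (ext y⁻¹ z⁻¹) hh
    exact (ext_inj (inv_injective h1)).2.2
  refine finsum_eq_of_bijective f (Finite.injective_iff_bijective.1 hf) ?_
  intro h
  rw [bar_val, ext_inv]

omit [IsAlgClosed Ω] [CharZero Ω] in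
theorem ip_inv {G : Type} [Group G] [Finite G] (φ ψ : G → Ω) :
    Parker.ip (fun g => φ g⁻¹) (fun g => ψ g⁻¹) = Parker.ip φ ψ := by
  unfold Parker.ip
  congr 1
  let _ := Fintype.ofFinite G
  refine Fintype.sum_equiv (Equiv.inv G) _ _ ?_
  intro g
  rfl

omit [IsAlgClosed Ω] [CharZero Ω] in
theorem mul_congr {G : Type} [Group G] [Finite G] {φ ψ φ' ψ' : G → Ω}
    (h : Parker.ip φ ψ = Parker.ip φ' ψ') : Parker.mul φ ψ = Parker.mul φ' ψ' := by
  unfold Parker.mul
  rw [h]

omit [CharP F 2] in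
theorem val_one (v : Irr F Ω) (V : Type) [AddCommGroup V] [Module F V] [Finite V] :
    v.cf.val V 1 = if Module.finrank F V = v.n then (v.dim : Ω) else 0 := by
  show (if h : Module.finrank F V = v.n then v.φ (tr (std F h) 1) else 0) = _
  by_cases h : Module.finrank F V = v.n
  · rw [dif_pos h, if_pos h, tr_one]
    exact (Parker.dg_spec v.mem).1.symm
  · rw [dif_neg h, if_neg h]

omit [CharP F 2] in
theorem mul_val_one (a b : Irr F Ω) :
    (a.cf.mul b.cf).val (Fin (a.n + b.n) → F) 1 =
      ((Nat.card {W : Submodule F (Fin (a.n + b.n) → F) // Module.finrank F W = a.n} *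
        (a.dim * b.dim) : ℕ) : Ω) := by
  have h1 : ∀ W : Submodule F (Fin (a.n + b.n) → F), Inv (1 : GV F (Fin (a.n + b.n) → F)) W := by
    intro W
    show W.map (LinearMap.id) = W
    exact Submodule.map_id W
  have h2 : ∀ W : Submodule F (Fin (a.n + b.n) → F),
      (if h : Inv (1 : GV F (Fin (a.n + b.n) → F)) W then a.cf.val W (rst 1 W h) *
        b.cf.val ((Fin (a.n + b.n) → F) ⧸ W) (quo 1 W h) else 0) =
      if Module.finrank F W = a.n then ((a.dim * b.dim : ℕ) : Ω) else 0 := by
    intro W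
    rw [dif_pos (h1 W)]
    have h3 : rst (1 : GV F (Fin (a.n + b.n) → F)) W (h1 W) = 1 := by
      ext w
      rfl
    have h4 : quo (1 : GV F (Fin (a.n + b.n) → F)) W (h1 W) = 1 := by
      ext1 w
      obtain ⟨w, rfl⟩ := Submodule.mkQ_surjective W w
      rfl
    rw [h3, h4, val_one, val_one]
    have h5 := Submodule.finrank_quotient_add_finrank W
    rw [Module.finrank_fin_fun] at h5
    by_cases h6 : Module.finrank F W = a.n
    · rw [if_pos h6, if_pos h6, if_pos (by omega), Nat.cast_mul]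
    · rw [if_neg h6, if_neg h6, zero_mul]
  show (∑ᶠ W : Submodule F (Fin (a.n + b.n) → F), _) = _
  rw [finsum_congr h2]
  let _ : Fintype (Submodule F (Fin (a.n + b.n) → F)) := Fintype.ofFinite _
  rw [finsum_eq_sum_of_fintype, ← Finset.sum_filter, Finset.sum_const, nsmul_eq_mul,
    Nat.card_eq_fintype_card, Fintype.card_subtype]
  simp only [Nat.cast_mul]

end B10_aux

/-- the number of subspaces of a given dimension is odd -/
theorem odd_subspaces {n a : ℕ} (h : a ≤ n) :
    Odd (Nat.card {W : Submodule F (Fin n → F) // Module.finrank F W = a}) := by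
  let _ : Fintype F := Fintype.ofFinite F
  have h1 := B10_aux.count (F := F) h
  have hq : 0 < Fintype.card F := Fintype.card_pos
  rw [B10_aux.pow_fact le_rfl, B10_aux.pow_fact h, mul_left_comm] at h1
  have h2 : 0 < ∏ i : Fin a, Fintype.card F ^ (i : ℕ) :=
    Finset.prod_pos fun i _ => pow_pos hq _
  have h3 := Nat.eq_of_mul_eq_mul_left h2 h1
  have h4 : Odd (∏ i : Fin a, (Fintype.card F ^ (n - (i : ℕ)) - 1)) := by
    refine B10_aux.odd_prod_sub _ _ fun i _ => ?_
    refine Nat.Even.sub_odd (Nat.one_le_pow _ _ hq) ?_ odd_one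
    exact (B10_aux.even_card (F := F)).pow_of_ne_zero (by have := i.2; omega)
  rw [← h3] at h4
  exact Nat.Odd.of_mul_left h4

theorem barI_barI (v : Irr F Ω) : v.bar.bar = v := by
  obtain ⟨n, φ, h⟩ := v
  have key : ∀ (ψ : Gn F n → Ω) (hψ : ψ ∈ Parker.irr Ω (Gn F n)), ψ = φ →
      (⟨n, ψ, hψ⟩ : Irr F Ω) = ⟨n, φ, h⟩ := by
    rintro ψ hψ rfl
    rfl
  exact key _ _ (Parker.du_du φ)

theorem barI_m (v a b : Irr F Ω) : mI v.bar a.bar b.bar = mI v a b := by
  refine B10_aux.mul_congr (G := Gn F a.n × Gn F b.n) ?_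
  rw [← B10_aux.ip_inv (G := Gn F a.n × Gn F b.n)
    (fun p => v.cf.cop (Fin a.n → F) (Fin b.n → F) p.1 p.2) (fun p => a.φ p.1 * b.φ p.2)]
  congr 1
  funext p
  exact B10_aux.bar_cop v _ _ _ _

theorem barI_dl (ψ : AddChar F ℤ) (v : Irr F Ω) : v.bar.dl ψ = v.dl ψ := by
  have h : v.bar.cf.dl ψ v.n = v.cf.dl ψ v.n := by
    unfold CF.dl
    congr 1
    refine finsum_eq_of_bijective (fun u : UG F v.n => u⁻¹) (Equiv.inv (UG F v.n)).bijective ?_
    intro u
    rw [Subgroup.coe_inv, sd_inv u.2, psi_neg]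
    exact congrArg _ (B10_aux.bar_val v _ _)
  show (if h : ∃ k : ℕ, (k : Ω) = v.bar.cf.dl ψ v.n then h.choose else 0) =
    if h : ∃ k : ℕ, (k : Ω) = v.cf.dl ψ v.n then h.choose else 0
  rw [h]

theorem odI_one : ((oneI F Ω).dim : ZMod 2) = 1 := by
  have h : ((oneI F Ω).dim : Ω) = ((1 : ℕ) : Ω) := by
    rw [Nat.cast_one]
    exact (Parker.dg_spec (oneI F Ω).mem).1
  rw [Nat.cast_injective h, Nat.cast_one]

theorem odI_mul (a b : Irr F Ω) : (a.dim : ZMod 2) * b.dim =
    ∑ v ∈ lvI F Ω (a.n + b.n), (mI v a b : ZMod 2) * v.dim := by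
  have h1 := mul_expand a b (Fin (a.n + b.n) → F) 1
  rw [B10_aux.mul_val_one] at h1
  have h2 : ∑ v ∈ lvI F Ω (a.n + b.n), (mI v a b : Ω) * v.cf.val (Fin (a.n + b.n) → F) 1 =
      ((∑ v ∈ lvI F Ω (a.n + b.n), mI v a b * v.dim : ℕ) : Ω) := by
    rw [Nat.cast_sum]
    refine Finset.sum_congr rfl fun v hv => ?_
    rw [B10_aux.val_one, if_pos (by rw [Module.finrank_fin_fun, mem_lvI.1 hv]), Nat.cast_mul]
  rw [h2] at h1
  have h3 := congrArg (Nat.cast : ℕ → ZMod 2) (Nat.cast_injective h1)
  rw [Nat.cast_mul, Nat.cast_mul, Nat.cast_sum,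
    (ZMod.natCast_eq_one_iff_odd).2 (odd_subspaces (Nat.le_add_right a.n b.n)), one_mul] at h3
  rw [h3]
  refine Finset.sum_congr rfl fun v _ => ?_
  rw [Nat.cast_mul]

end

end ParkerGL
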