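import Pool.Agent.ParkerGL.B07
import Pool.Agent.ParkerGL.B09
import Pool.Agent.ParkerGL.B10

/-!
# MP_6c3636_al, GL_n(q), module B08: the structure `PSHX` for `GL_n(F)` (helper7)

* `odI_der`: `der_finrank` mod 2 for an irreducible `ρ` with character `v.φ`, and `finrank (derS ψ (dh i) ρ) = ∑_{c, α} dl c * m v c α * α.dim`
  (`der_evR` at `y = 1`). The sum over `i : Fin n` is the sum over the degrees `i + 1` of `c`, `n - 1 - i` of `α`.
-/

namespace ParkerGL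

noncomputable section

open Classical

variable {F : Type} [Field F] [Finite F] [CharP F 2] {Ω : Type} [Field Ω] [IsAlgClosed Ω]
  [CharZero Ω]

namespace B08_aux

omit [CharP F 2] in
theorem evR_eq_sum (r : (glPSH F Ω).R) (n : ℕ) (x : Gn F n) :
    evR r n x = ∑ v ∈ lvI F Ω n, ((glPSH F Ω).co r v : Ω) * v.at n x := by
  let r' : Irr F Ω →₀ ℤ := r
  have h0 : evR r n x = ∑ v ∈ r'.support, ((r' v : ℤ) : Ω) * v.at n x := rfl
  rw [h0]
  have h1 : ∑ v ∈ r'.support, ((r' v : ℤ) : Ω) * v.at n x =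
      ∑ v ∈ r'.support ∪ lvI F Ω n, ((r' v : ℤ) : Ω) * v.at n x := by
    refine Finset.sum_subset Finset.subset_union_left fun v _ hv => ?_
    rw [Finsupp.notMem_support_iff.1 hv, Int.cast_zero, zero_mul]
  rw [h1]
  symm
  refine Finset.sum_subset Finset.subset_union_right fun v _ hv => ?_
  have h2 : v.at n = 0 := Irr.at_ne v fun h => hv (mem_lvI.2 h.symm)
  rw [h2, Pi.zero_apply, mul_zero]

omit [CharP F 2] in
theorem at_one (v : Irr F Ω) {n : ℕ} (h : v.n = n) : v.at n 1 = (v.dim : Ω) := by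
  subst h
  rw [Irr.at_self]
  exact (Parker.dg_spec v.mem).1.symm

theorem finrank_der (ψ : AddChar F ℤ) {n a k : ℕ} (h : a + k = n) (v : Irr F Ω)
    {X : Type} [AddCommGroup X] [Module Ω X] [FiniteDimensional Ω X]
    (ρ : Representation Ω (Gn F n) X) (hρ : ρ.character = v.at n) :
    Module.finrank Ω (derS ψ h ρ) =
      ∑ α ∈ lvI F Ω a, ∑ β ∈ lvI F Ω k, mI v α β * β.dl ψ * α.dim := by
  have h1 := der_evR (L := Ω) (Ω := Ω) ψ h ρ ((glPSH F Ω).el v) (fun g => by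
    rw [evR_el, ← hρ]
    rfl) 1
  rw [Representation.char_one, map_natCast, evR_eq_sum] at h1
  have h2 : (Module.finrank Ω (derS ψ h ρ) : Ω) =
      ((∑ α ∈ lvI F Ω a, ∑ β ∈ lvI F Ω k, mI v α β * β.dl ψ * α.dim : ℕ) : Ω) := by
    rw [h1, Nat.cast_sum]
    refine Finset.sum_congr rfl fun α hα => ?_
    rw [at_one α (mem_lvI.1 hα), co_sum, Int.cast_sum, Finset.sum_mul, Nat.cast_sum]
    refine Finset.sum_congr rfl fun β hβ => ?_
    rw [co_zsmul, co_perp_el]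
    have h3 : (glPSH F Ω).m v β α = mI v α β := mI_comm v β α
    rw [h3]
    push_cast
    ring
  exact_mod_cast h2

end B08_aux

theorem odI_der (ψ : AddChar F ℤ) (hψ : ∃ a, ψ a ≠ 1) (v : Irr F Ω) (hv : v ≠ oneI F Ω) :
    (v.dim : ZMod 2) = ∑ a ∈ (Finset.range v.n).biUnion (lvI F Ω),
      ∑ b ∈ (Finset.range (v.n + 1)).biUnion (lvI F Ω),
        ((mI v a b * b.dl ψ : ℕ) : ZMod 2) * a.dim := by
  have hn : 0 < v.n := Nat.pos_of_ne_zero fun h => hv ((deg_zeroI v).1 h)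
  obtain ⟨m, ρ, hρ, hρc⟩ := Parker.mem_irr.1 v.mem
  obtain ⟨c, hc, hfr⟩ := der_finrank ψ hψ hn ρ
  have hρc' : ρ.character = v.at v.n := by rw [hρc, Irr.at_self]
  have hdim : v.dim = Module.finrank Ω (Fin m → Ω) := by
    have h := Parker.dg_char ρ
    rw [hρc] at h
    exact h
  have hdisj : ∀ N : ℕ, Set.PairwiseDisjoint (↑(Finset.range N)) (lvI F Ω) := by
    intro N i _ j _ hij
    refine Finset.disjoint_left.2 fun w hw hw' => hij ?_
    rw [← mem_lvI.1 hw, ← mem_lvI.1 hw']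
  have hR : ∑ a ∈ (Finset.range v.n).biUnion (lvI F Ω),
      ∑ b ∈ (Finset.range (v.n + 1)).biUnion (lvI F Ω),
        ((mI v a b * b.dl ψ : ℕ) : ZMod 2) * a.dim =
      ∑ j ∈ Finset.range v.n, ∑ a ∈ lvI F Ω j, ∑ b ∈ lvI F Ω (v.n - j),
        ((mI v a b * b.dl ψ : ℕ) : ZMod 2) * a.dim := by
    rw [Finset.sum_biUnion (hdisj _)]
    refine Finset.sum_congr rfl fun j hj => Finset.sum_congr rfl fun a ha => ?_
    have hj' := Finset.mem_range.1 hj
    have ha' := mem_lvI.1 ha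
    rw [Finset.sum_biUnion (hdisj _)]
    refine Finset.sum_eq_single_of_mem (v.n - j) (Finset.mem_range.2 (by omega)) ?_
    intro k _ hk
    refine Finset.sum_eq_zero fun b hb => ?_
    have h1 : mI v a b = 0 := by
      by_contra h2
      have h3 := mI_deg h2
      rw [ha', mem_lvI.1 hb] at h3
      omega
    rw [h1, zero_mul, Nat.cast_zero, zero_mul]
  rw [hR, ← Finset.sum_range_reflect, Finset.sum_range, hdim, hfr, Nat.cast_sum]
  refine Finset.sum_congr rfl fun i _ => ?_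
  have h1 : v.n - (v.n - 1 - i) = i + 1 := by omega
  rw [h1, Nat.cast_mul, (ZMod.natCast_eq_one_iff_odd).2 (hc i), one_mul,
    B08_aux.finrank_der ψ (dh i) v ρ hρc', Nat.cast_sum]
  refine Finset.sum_congr rfl fun a _ => ?_
  rw [Nat.cast_sum]
  refine Finset.sum_congr rfl fun b _ => ?_
  push_cast
  ring

variable (Ω) in
/-- the full structure for `GL_n(F)` -/
def glPSHX (ψ : AddChar F ℤ) (hψ : ∃ a, ψ a ≠ 1) : PSHX (Irr F Ω) where
  __ := glPSH F Ω
  dl := Irr.dl ψ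
  dl_one := dlI_one ψ
  dl_mul := dlI_mul ψ hψ
  dl_cusp := dlI_cusp ψ hψ
  bar := Irr.bar
  bar_bar := barI_barI
  bar_deg _ := rfl
  bar_m := barI_m
  bar_dl := barI_dl ψ
  od v := (v.dim : ZMod 2)
  od_one := odI_one
  od_mul := odI_mul
  od_der := odI_der ψ hψ

theorem glPSHX_toPSH (ψ : AddChar F ℤ) (hψ : ∃ a, ψ a ≠ 1) :
    (glPSHX Ω ψ hψ).toPSH = glPSH F Ω := rfl

theorem glPSHX_co (ψ : AddChar F ℤ) (hψ : ∃ a, ψ a ≠ 1) (r : (glPSH F Ω).R) (v : Irr F Ω) :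
    (glPSHX Ω ψ hψ).co r v = (glPSH F Ω).co r v := rfl

theorem glPSHX_mul (ψ : AddChar F ℤ) (hψ : ∃ a, ψ a ≠ 1) (r s : (glPSH F Ω).R) :
    (show (glPSHX Ω ψ hψ).R from r) * (show (glPSHX Ω ψ hψ).R from s) = (r * s : (glPSH F Ω).R) :=
  rfl

end

end ParkerGL
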