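import Pool.Agent.ParkerGL.IDefs

/-!
# MP_6c3636_al, GL_n(q): Whittaker spaces, derivatives of representations (helper7)
-/

namespace ParkerGL

noncomputable section

variable {F : Type} [Field F] [Finite F] {L : Type} [Field L]
  {X : Type} [AddCommGroup X] [Module L X]

/-- the Whittaker space -/
def whS {k : ℕ} (ψ : AddChar F ℤ) (ρ : Representation L (Gn F k) X) : Submodule L X where
  carrier := {x | ∀ u ∈ UG F k, ρ u x = ((ψ (sd u) : ℤ) : L) • x}
  add_mem' := by
    intro x y hx hy u hu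
    rw [map_add, hx u hu, hy u hu, smul_add]
  zero_mem' := by
    intro u _
    rw [map_zero, smul_zero]
  smul_mem' := by
    intro c x hx u hu
    rw [map_smul, hx u hu, smul_comm]

/-- the space of the `k`-th derivative of a representation of `GL_n(F)`, `n = a + k` -/
def derS {n a k : ℕ} (ψ : AddChar F ℤ) (h : a + k = n) (ρ : Representation L (Gn F n) X) :
    Submodule L X where
  carrier := {x | ∀ u ∈ UG F k, ∀ t : (Fin k → F) →ₗ[F] (Fin a → F),
    ρ (blk F h (ext 1 u t)) x = ((ψ (sd u) : ℤ) : L) • x}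
  add_mem' := by
    intro x y hx hy u hu t
    rw [map_add, hx u hu, hy u hu, smul_add]
  zero_mem' := by
    intro u _ t
    rw [map_zero, smul_zero]
  smul_mem' := by
    intro c x hx u hu t
    rw [map_smul, hx u hu, smul_comm]

theorem derS_stable {n a k : ℕ} (ψ : AddChar F ℤ) (h : a + k = n)
    (ρ : Representation L (Gn F n) X) (y : Gn F a) {x : X} (hx : x ∈ derS ψ h ρ) :
    ρ (blk F h (ext y 1 0)) x ∈ derS ψ h ρ := by
  intro u hu t
  have key : (ext 1 u t : GV F ((Fin a → F) × (Fin k → F))) * ext y 1 0 =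
      ext y 1 0 * ext 1 u (((y⁻¹ : Gn F a) : (Fin a → F) →ₗ[F] (Fin a → F)) ∘ₗ t) := by
    ext1 p
    show (ext 1 u t) ((ext y 1 0) p) = (ext y 1 0) ((ext 1 u _) p)
    apply Prod.ext
    · show y p.1 + 0 + t p.2 = y (p.1 + (y⁻¹ : Gn F a) (t p.2)) + 0
      have h1 : y ((y⁻¹ : Gn F a) (t p.2)) = t p.2 := y.apply_symm_apply _
      rw [map_add, h1]
      simp
    · rfl
  have h2 : ρ (blk F h (ext 1 u t)) (ρ (blk F h (ext y 1 0)) x) =
      ρ (blk F h (ext y 1 0)) (ρ (blk F h (ext 1 u
        (((y⁻¹ : Gn F a) : (Fin a → F) →ₗ[F] (Fin a → F)) ∘ₗ t))) x) := by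
    rw [← Module.End.mul_apply, ← map_mul, ← map_mul, key, map_mul, map_mul, Module.End.mul_apply]
  rw [h2, hx u hu, map_smul]

/-- the `k`-th derivative, a representation of `GL_a(F)` -/
def derR {n a k : ℕ} (ψ : AddChar F ℤ) (h : a + k = n) (ρ : Representation L (Gn F n) X) :
    Representation L (Gn F a) (derS ψ h ρ) where
  toFun y := (ρ (blk F h (ext y 1 0))).restrict (fun _ hx => derS_stable ψ h ρ y hx)
  map_one' := by
    have h1 : (ext (1 : Gn F a) (1 : Gn F k) 0 : GV F ((Fin a → F) × (Fin k → F))) = 1 := by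
      ext1 p
      apply Prod.ext
      · show p.1 + 0 = p.1
        simp
      · rfl
    ext x
    show ρ (blk F h (ext (1 : Gn F a) (1 : Gn F k) 0)) (x : X) = x
    rw [h1, map_one, map_one]
    rfl
  map_mul' y y' := by
    have h1 : (ext (y * y') (1 : Gn F k) 0 : GV F ((Fin a → F) × (Fin k → F))) =
        ext y 1 0 * ext y' 1 0 := by
      ext1 p
      apply Prod.ext
      · show y (y' p.1) + 0 = y (y' p.1 + 0) + 0
        simp
      · rfl
    ext x
    show ρ (blk F h (ext (y * y') (1 : Gn F k) 0)) (x : X) =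
      ρ (blk F h (ext y 1 0)) (ρ (blk F h (ext y' 1 0)) (x : X))
    rw [h1, map_mul, map_mul]
    rfl

theorem derR_coe {n a k : ℕ} (ψ : AddChar F ℤ) (h : a + k = n)
    (ρ : Representation L (Gn F n) X) (y : Gn F a) (x : derS ψ h ρ) :
    ((derR ψ h ρ y x : derS ψ h ρ) : X) = ρ (blk F h (ext y 1 0)) x := rfl

end

end ParkerGL
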