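import Pool.Agent.ParkerGL.PDefs

/-!
# MP_6c3636_al, GL_n(q), module C01: the ring `R` (helper7)

Everything is bilinear bookkeeping with `Finsupp`. The product `el a * el b` has the coefficient
`m v a b` at `v` (it is `0` unless `deg v = deg a + deg b`, `m_deg`). Associativity: compare the
coefficients of `v` in `(a * b) * c` and `a * (b * c)` for basis elements, this is `m_assoc`.
`PSH.co`, `PSH.ip` are written with `show I →₀ ℤ from x`, these unfold by `rfl`.
-/

namespace ParkerGL

noncomputable section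

open Classical

variable {I : Type} {P : PSH I}

instance PSH.mulI (P : PSH I) : Mul P.R := ⟨P.mulR⟩

instance PSH.oneI (P : PSH I) : One P.R := ⟨P.el P.one⟩

theorem mul_def (x y : P.R) : x * y = P.mulR x y := rfl

theorem one_def : (1 : P.R) = P.el P.one := rfl

/-- two elements with the same coefficients are equal -/
theorem R_ext {x y : P.R} (h : ∀ v, P.co x v = P.co y v) : x = y :=
  Finsupp.ext (f := (show I →₀ ℤ from x)) (g := (show I →₀ ℤ from y)) h

theorem co_add (x y : P.R) (v : I) : P.co (x + y) v = P.co x v + P.co y v := rfl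

theorem co_sub (x y : P.R) (v : I) : P.co (x - y) v = P.co x v - P.co y v := rfl

theorem co_neg (x : P.R) (v : I) : P.co (-x) v = - P.co x v := rfl

theorem co_zero (v : I) : P.co (0 : P.R) v = 0 := rfl

/-- the coefficient as an additive map -/
def C01_coHom (P : PSH I) (v : I) : P.R →+ ℤ where
  toFun x := P.co x v
  map_zero' := rfl
  map_add' _ _ := rfl

theorem co_zsmul (n : ℤ) (x : P.R) (v : I) : P.co (n • x) v = n * P.co x v := by
  have h := map_zsmul (C01_coHom P v) n x
  rw [smul_eq_mul] at h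
  exact h

theorem co_sum {ι : Type*} (s : Finset ι) (f : ι → P.R) (v : I) :
    P.co (∑ i ∈ s, f i) v = ∑ i ∈ s, P.co (f i) v :=
  map_sum (C01_coHom P v) f s

theorem co_el (v w : I) : P.co (P.el v) w = if w = v then 1 else 0 := by
  have h : P.co (P.el v) w = (Finsupp.single v (1 : ℤ)) w := rfl
  rw [h, Finsupp.single_apply]
  by_cases hw : w = v
  · rw [if_pos hw, if_pos hw.symm]
  · rw [if_neg hw, if_neg (fun h => hw h.symm)]

/-- the coefficients of a product -/
theorem C01_co_mul (x y : P.R) (v : I) :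
    P.co (x * y) v = (show I →₀ ℤ from x).sum fun a c => (show I →₀ ℤ from y).sum fun b c' =>
      c * c' * (P.m v a b : ℤ) := by
  have h : P.co (x * y) v = ((show I →₀ ℤ from x).sum fun a c => (show I →₀ ℤ from y).sum fun b c' =>
    ∑ v ∈ P.lv (P.deg a + P.deg b), (Finsupp.single v (c * c' * (P.m v a b : ℤ)) : I →₀ ℤ)) v := rfl
  rw [h, Finsupp.sum_apply]
  refine Finsupp.sum_congr (fun a _ => ?_)
  rw [Finsupp.sum_apply]
  refine Finsupp.sum_congr (fun b _ => ?_)
  rw [Finsupp.finsetSum_apply]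
  simp only [Finsupp.single_apply]
  rw [Finset.sum_ite_eq']
  by_cases hv : v ∈ P.lv (P.deg a + P.deg b)
  · rw [if_pos hv]
  · rw [if_neg hv]
    have h0 : P.m v a b = 0 := by
      by_contra hne
      exact hv ((P.mem_lv _ _).2 (P.m_deg v a b hne))
    rw [h0]
    simp

theorem R_add_mul (x y z : P.R) : (x + y) * z = x * z + y * z := by
  refine R_ext (fun v => ?_)
  rw [co_add, C01_co_mul, C01_co_mul, C01_co_mul]
  refine Finsupp.sum_add_index' (fun a => ?_) (fun a c c' => ?_)
  · simp only [zero_mul]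
    exact Finset.sum_const_zero
  · simp only [add_mul]
    exact Finset.sum_add_distrib

theorem R_mul_comm (x y : P.R) : x * y = y * x := by
  refine R_ext (fun v => ?_)
  rw [C01_co_mul, C01_co_mul, Finsupp.sum_comm]
  refine Finsupp.sum_congr (fun b _ => Finsupp.sum_congr (fun a _ => ?_))
  rw [P.m_comm v a b]
  ring

theorem R_mul_add (x y z : P.R) : x * (y + z) = x * y + x * z := by
  rw [R_mul_comm x (y + z), R_add_mul, R_mul_comm y x, R_mul_comm z x]

theorem R_zero_mul (x : P.R) : 0 * x = 0 := by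
  refine R_ext (fun v => ?_)
  rw [C01_co_mul]
  exact Finsupp.sum_zero_index

theorem C01_mul_zero (x : P.R) : x * 0 = 0 := by
  rw [R_mul_comm, R_zero_mul]

/-- multiplication on the right as an additive map -/
def C01_mulRight (P : PSH I) (y : P.R) : P.R →+ P.R where
  toFun x := x * y
  map_zero' := R_zero_mul y
  map_add' a b := R_add_mul a b y

theorem C01_sum_mul {ι : Type*} (s : Finset ι) (f : ι → P.R) (y : P.R) :
    (∑ i ∈ s, f i) * y = ∑ i ∈ s, f i * y := map_sum (C01_mulRight P y) f s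

theorem C01_zsmul_mul (n : ℤ) (x y : P.R) : (n • x) * y = n • (x * y) :=
  map_zsmul (C01_mulRight P y) n x

theorem C01_neg_mul (x y : P.R) : (-x) * y = -(x * y) := map_neg (C01_mulRight P y) x

theorem C01_mul_neg (x y : P.R) : x * (-y) = -(x * y) := by
  rw [R_mul_comm, C01_neg_mul, R_mul_comm]

theorem C01_mul_sum {ι : Type*} (s : Finset ι) (f : ι → P.R) (y : P.R) :
    y * (∑ i ∈ s, f i) = ∑ i ∈ s, y * f i := by
  rw [R_mul_comm, C01_sum_mul]
  exact Finset.sum_congr rfl (fun i _ => R_mul_comm _ _)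

theorem C01_mul_zsmul (n : ℤ) (x y : P.R) : x * (n • y) = n • (x * y) := by
  rw [R_mul_comm, C01_zsmul_mul, R_mul_comm]

theorem co_mul_el (a b v : I) : P.co (P.el a * P.el b) v = (P.m v a b : ℤ) := by
  rw [C01_co_mul]
  have h1 : (show I →₀ ℤ from P.el a) = Finsupp.single a 1 := rfl
  have h2 : (show I →₀ ℤ from P.el b) = Finsupp.single b 1 := rfl
  rw [h1, h2, Finsupp.sum_single_index, Finsupp.sum_single_index]
  · ring
  · ring
  · simp

theorem el_mul (a b : I) :
    P.el a * P.el b = ∑ v ∈ P.lv (P.deg a + P.deg b), (P.m v a b : ℤ) • P.el v := by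
  refine R_ext (fun v => ?_)
  rw [co_mul_el, co_sum]
  simp only [co_zsmul, co_el]
  have h : ∀ w, (P.m w a b : ℤ) * (if v = w then (1 : ℤ) else 0) =
      if v = w then (P.m v a b : ℤ) else 0 := by
    intro w
    by_cases hw : v = w
    · rw [if_pos hw, if_pos hw, hw]
      ring
    · rw [if_neg hw, if_neg hw]
      ring
  rw [Finset.sum_congr rfl (fun w _ => h w), Finset.sum_ite_eq]
  by_cases hv : v ∈ P.lv (P.deg a + P.deg b)
  · rw [if_pos hv]
  · rw [if_neg hv]
    have h0 : P.m v a b = 0 := by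
      by_contra hne
      exact hv ((P.mem_lv _ _).2 (P.m_deg v a b hne))
    rw [h0]
    rfl

/-- `x` is the sum of its terms -/
theorem R_eq_sum (x : P.R) : ∃ s : Finset I, x = ∑ v ∈ s, P.co x v • P.el v := by
  refine ⟨(show I →₀ ℤ from x).support, R_ext (fun w => ?_)⟩
  rw [co_sum]
  simp only [co_zsmul, co_el]
  have h : ∀ v, P.co x v * (if w = v then (1 : ℤ) else 0) =
      if w = v then P.co x w else 0 := by
    intro v
    by_cases hw : w = v
    · rw [if_pos hw, if_pos hw, hw]
      ring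
    · rw [if_neg hw, if_neg hw]
      ring
  rw [Finset.sum_congr rfl (fun v _ => h v), Finset.sum_ite_eq]
  by_cases hw : w ∈ (show I →₀ ℤ from x).support
  · rw [if_pos hw]
  · rw [if_neg hw]
    exact Finsupp.notMem_support_iff.1 hw

theorem C01_nsmul_ind {p : P.R → Prop} (h0 : p 0) (h2 : ∀ x y, p x → p y → p (x + y))
    {x : P.R} (hx : p x) (n : ℕ) : p (n • x) := by
  induction n with
  | zero => rw [zero_nsmul]; exact h0
  | succ k ih => rw [succ_nsmul]; exact h2 _ _ ih hx

theorem C01_sum_ind {p : P.R → Prop} (h0 : p 0) (h2 : ∀ x y, p x → p y → p (x + y))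
    {ι : Type*} (s : Finset ι) (f : ι → P.R) (hf : ∀ i ∈ s, p (f i)) : p (∑ i ∈ s, f i) := by
  induction s using Finset.induction_on with
  | empty => rw [Finset.sum_empty]; exact h0
  | insert a s ha ih =>
    rw [Finset.sum_insert ha]
    exact h2 _ _ (hf a (Finset.mem_insert_self a s))
      (ih (fun i hi => hf i (Finset.mem_insert_of_mem hi)))

/-- induction: a property which holds for the basis elements and is stable under differences holds
everywhere -/
theorem R_induction {p : P.R → Prop} (h0 : p 0) (h1 : ∀ v, p (P.el v))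
    (h2 : ∀ x y, p x → p y → p (x + y)) (h3 : ∀ x, p x → p (-x)) (x : P.R) : p x := by
  obtain ⟨s, hs⟩ := R_eq_sum x
  rw [hs]
  refine C01_sum_ind h0 h2 s _ (fun v _ => ?_)
  obtain ⟨n, hn | hn⟩ := Int.eq_nat_or_neg (P.co x v)
  · rw [hn, natCast_zsmul]
    exact C01_nsmul_ind h0 h2 (h1 v) n
  · rw [hn, neg_smul, natCast_zsmul]
    exact h3 _ (C01_nsmul_ind h0 h2 (h1 v) n)

/-- a positive element is a sum of basis elements -/
theorem pos_induction {p : P.R → Prop} (h0 : p 0) (h1 : ∀ v, p (P.el v))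
    (h2 : ∀ x y, p x → p y → p (x + y)) {x : P.R} (hx : P.Pos x) : p x := by
  obtain ⟨s, hs⟩ := R_eq_sum x
  rw [hs]
  refine C01_sum_ind h0 h2 s _ (fun v _ => ?_)
  obtain ⟨n, hn⟩ := Int.eq_ofNat_of_zero_le (hx v)
  rw [hn, natCast_zsmul]
  exact C01_nsmul_ind h0 h2 (h1 v) n

theorem C01_assoc_el (a b c : I) : P.el a * P.el b * P.el c = P.el a * (P.el b * P.el c) := by
  rw [el_mul a b, el_mul b c, C01_sum_mul, C01_mul_sum]
  refine R_ext (fun v => ?_)
  rw [co_sum, co_sum]
  simp only [C01_zsmul_mul, C01_mul_zsmul, co_zsmul, co_mul_el]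
  have h := P.m_assoc v a b c
  have h' : ((∑ w ∈ P.lv (P.deg b + P.deg c), P.m v a w * P.m w b c : ℕ) : ℤ) =
      ((∑ w ∈ P.lv (P.deg a + P.deg b), P.m v w c * P.m w a b : ℕ) : ℤ) := by
    rw [h]
  rw [Nat.cast_sum, Nat.cast_sum] at h'
  have e1 : ∑ x ∈ P.lv (P.deg a + P.deg b), (P.m x a b : ℤ) * (P.m v x c : ℤ) =
      ∑ w ∈ P.lv (P.deg a + P.deg b), ((P.m v w c * P.m w a b : ℕ) : ℤ) := by
    refine Finset.sum_congr rfl (fun w _ => ?_)
    push_cast
    ring
  have e2 : ∑ x ∈ P.lv (P.deg b + P.deg c), (P.m x b c : ℤ) * (P.m v a x : ℤ) =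
      ∑ w ∈ P.lv (P.deg b + P.deg c), ((P.m v a w * P.m w b c : ℕ) : ℤ) := by
    refine Finset.sum_congr rfl (fun w _ => ?_)
    push_cast
    ring
  rw [e1, e2, h']

theorem R_mul_assoc (x y z : P.R) : x * y * z = x * (y * z) := by
  refine R_induction (p := fun x => x * y * z = x * (y * z)) ?_ ?_ ?_ ?_ x
  · rw [R_zero_mul, R_zero_mul, R_zero_mul]
  · intro a
    refine R_induction (p := fun y => P.el a * y * z = P.el a * (y * z)) ?_ ?_ ?_ ?_ y
    · rw [C01_mul_zero, R_zero_mul, C01_mul_zero]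
    · intro b
      refine R_induction (p := fun z => P.el a * P.el b * z = P.el a * (P.el b * z)) ?_ ?_ ?_ ?_ z
      · rw [C01_mul_zero, C01_mul_zero, C01_mul_zero]
      · intro c
        exact C01_assoc_el a b c
      · intro u w hu hw
        rw [R_mul_add, R_mul_add, R_mul_add, hu, hw]
      · intro u hu
        rw [C01_mul_neg, C01_mul_neg, C01_mul_neg, hu]
    · intro u w hu hw
      rw [R_mul_add, R_add_mul, R_add_mul, R_mul_add, hu, hw]
    · intro u hu
      rw [C01_mul_neg, C01_neg_mul, C01_neg_mul, C01_mul_neg, hu]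
  · intro u w hu hw
    rw [R_add_mul, R_add_mul, R_add_mul, hu, hw]
  · intro u hu
    rw [C01_neg_mul, C01_neg_mul, C01_neg_mul, hu]

theorem R_one_mul (x : P.R) : 1 * x = x := by
  refine R_induction (p := fun x => (1 : P.R) * x = x) ?_ ?_ ?_ ?_ x
  · exact C01_mul_zero _
  · intro a
    refine R_ext (fun v => ?_)
    rw [one_def, co_mul_el, P.m_one, co_el]
    by_cases h : v = a
    · rw [if_pos h, if_pos h]
      rfl
    · rw [if_neg h, if_neg h]
      rfl
  · intro u w hu hw
    rw [R_mul_add, hu, hw]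
  · intro u hu
    rw [C01_mul_neg, hu]

/-- the ring structure on `R` -/
instance PSH.ring (P : PSH I) : CommRing P.R :=
  { (inferInstance : AddCommGroup P.R), PSH.mulI P, PSH.oneI P with
    left_distrib := R_mul_add
    right_distrib := R_add_mul
    zero_mul := R_zero_mul
    mul_zero := fun x => (R_mul_comm x 0).trans (R_zero_mul x)
    mul_assoc := R_mul_assoc
    mul_comm := R_mul_comm
    one_mul := R_one_mul
    mul_one := fun x => (R_mul_comm x 1).trans (R_one_mul x) }

/-- the scalar product as a finite sum -/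
theorem C01_ip_eq (x y : P.R) (s : Finset I) (hs : ∀ v, P.co x v ≠ 0 → v ∈ s) :
    P.ip x y = ∑ v ∈ s, P.co x v * P.co y v := by
  have h : P.ip x y = ∑ v ∈ (show I →₀ ℤ from x).support, P.co x v * P.co y v := rfl
  rw [h]
  refine Finset.sum_subset (fun v hv => hs v (Finsupp.mem_support_iff.1 hv)) (fun v _ hv => ?_)
  have h0 : P.co x v = 0 := Finsupp.notMem_support_iff.1 hv
  rw [h0, zero_mul]

theorem C01_ip_comm_aux (x y : P.R) : ∃ s : Finset I, P.ip x y = ∑ v ∈ s, P.co x v * P.co y v ∧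
    P.ip y x = ∑ v ∈ s, P.co y v * P.co x v := by
  refine ⟨(show I →₀ ℤ from x).support ∪ (show I →₀ ℤ from y).support,
    C01_ip_eq x y _ (fun v hv => Finset.mem_union_left _ (Finsupp.mem_support_iff.2 hv)),
    C01_ip_eq y x _ (fun v hv => Finset.mem_union_right _ (Finsupp.mem_support_iff.2 hv))⟩

theorem ip_comm (x y : P.R) : P.ip x y = P.ip y x := by
  obtain ⟨s, h1, h2⟩ := C01_ip_comm_aux x y
  rw [h1, h2]
  exact Finset.sum_congr rfl (fun v _ => mul_comm _ _)

theorem ip_el_left (x : P.R) (v : I) : P.ip (P.el v) x = P.co x v := by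
  rw [C01_ip_eq (P.el v) x {v}]
  · rw [Finset.sum_singleton, co_el, if_pos rfl, one_mul]
  · intro w hw
    rw [co_el] at hw
    by_contra hne
    rw [Finset.mem_singleton] at hne
    rw [if_neg hne] at hw
    exact hw rfl

theorem ip_el_right (x : P.R) (v : I) : P.ip x (P.el v) = P.co x v := by
  rw [ip_comm, ip_el_left]

theorem ip_add_right (x y z : P.R) : P.ip x (y + z) = P.ip x y + P.ip x z := by
  have h : ∀ w : P.R, P.ip x w = ∑ v ∈ (show I →₀ ℤ from x).support, P.co x v * P.co w v :=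
    fun w => rfl
  rw [h, h, h, ← Finset.sum_add_distrib]
  refine Finset.sum_congr rfl (fun v _ => ?_)
  rw [co_add, mul_add]

theorem ip_add_left (x y z : P.R) : P.ip (x + y) z = P.ip x z + P.ip y z := by
  rw [ip_comm, ip_add_right, ip_comm z x, ip_comm z y]

theorem ip_zero_left (x : P.R) : P.ip 0 x = 0 := Finsupp.sum_zero_index

theorem ip_zero_right (x : P.R) : P.ip x 0 = 0 := by
  rw [ip_comm, ip_zero_left]

/-- the scalar product as an additive map -/
def C01_ipHom (P : PSH I) (y : P.R) : P.R →+ ℤ where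
  toFun x := P.ip x y
  map_zero' := ip_zero_left y
  map_add' a b := ip_add_left a b y

theorem ip_sub_left (x y z : P.R) : P.ip (x - y) z = P.ip x z - P.ip y z :=
  map_sub (C01_ipHom P z) x y

theorem ip_sub_right (x y z : P.R) : P.ip x (y - z) = P.ip x y - P.ip x z := by
  rw [ip_comm, ip_sub_left, ip_comm y x, ip_comm z x]

theorem ip_neg_left (x y : P.R) : P.ip (-x) y = - P.ip x y :=
  map_neg (C01_ipHom P y) x

theorem ip_neg_right (x y : P.R) : P.ip x (-y) = - P.ip x y := by
  rw [ip_comm, ip_neg_left, ip_comm]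

theorem ip_zsmul_left (n : ℤ) (x y : P.R) : P.ip (n • x) y = n * P.ip x y := by
  have h := map_zsmul (C01_ipHom P y) n x
  rw [smul_eq_mul] at h
  exact h

theorem ip_zsmul_right (n : ℤ) (x y : P.R) : P.ip x (n • y) = n * P.ip x y := by
  rw [ip_comm, ip_zsmul_left, ip_comm]

theorem ip_sum_left {ι : Type*} (s : Finset ι) (f : ι → P.R) (y : P.R) :
    P.ip (∑ i ∈ s, f i) y = ∑ i ∈ s, P.ip (f i) y :=
  map_sum (C01_ipHom P y) f s

theorem ip_sum_right {ι : Type*} (s : Finset ι) (f : ι → P.R) (y : P.R) :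
    P.ip y (∑ i ∈ s, f i) = ∑ i ∈ s, P.ip y (f i) := by
  rw [ip_comm, ip_sum_left]
  exact Finset.sum_congr rfl (fun i _ => ip_comm _ _)

/-- the norm is the sum of the squares of the coefficients -/
theorem ip_self_nonneg (x : P.R) : 0 ≤ P.ip x x := by
  have h : P.ip x x = ∑ v ∈ (show I →₀ ℤ from x).support, P.co x v * P.co x v := rfl
  rw [h]
  exact Finset.sum_nonneg (fun v _ => mul_self_nonneg _)

theorem ip_self_eq_zero {x : P.R} (h : P.ip x x = 0) : x = 0 := by
  have h' : ∑ v ∈ (show I →₀ ℤ from x).support, P.co x v * P.co x v = 0 := h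
  rw [Finset.sum_eq_zero_iff_of_nonneg (fun v _ => mul_self_nonneg _)] at h'
  refine R_ext (fun v => ?_)
  rw [co_zero]
  by_contra hne
  exact hne (mul_self_eq_zero.1 (h' v (Finsupp.mem_support_iff.2 hne)))

/-- elements of norm one are `±` basis elements -/
theorem ip_self_eq_one {x : P.R} (h : P.ip x x = 1) : ∃ v, x = P.el v ∨ x = - P.el v := by
  have h' : ∑ v ∈ (show I →₀ ℤ from x).support, P.co x v * P.co x v = 1 := h
  have hx : x ≠ 0 := by
    intro h0
    rw [h0, ip_zero_left] at h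
    exact zero_ne_one h
  have hne : ∃ v, P.co x v ≠ 0 := by
    by_contra hcon
    push Not at hcon
    exact hx (R_ext (fun v => by rw [hcon v, co_zero]))
  obtain ⟨v, hv⟩ := hne
  have hvs : v ∈ (show I →₀ ℤ from x).support := Finsupp.mem_support_iff.2 hv
  have h1 : 1 ≤ P.co x v * P.co x v := by
    have := mul_self_pos.2 hv
    omega
  rw [← Finset.add_sum_erase _ _ hvs] at h'
  have h2 : 0 ≤ ∑ w ∈ (show I →₀ ℤ from x).support.erase v, P.co x w * P.co x w :=
    Finset.sum_nonneg (fun w _ => mul_self_nonneg _)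
  have h3 : ∑ w ∈ (show I →₀ ℤ from x).support.erase v, P.co x w * P.co x w = 0 := by omega
  have h4 : P.co x v * P.co x v = 1 := by omega
  rw [Finset.sum_eq_zero_iff_of_nonneg (fun v _ => mul_self_nonneg _)] at h3
  have h5 : ∀ w, w ≠ v → P.co x w = 0 := by
    intro w hw
    by_contra hne
    exact hne (mul_self_eq_zero.1 (h3 w (Finset.mem_erase.2 ⟨hw, Finsupp.mem_support_iff.2 hne⟩)))
  refine ⟨v, ?_⟩
  rcases mul_self_eq_one_iff.1 h4 with h6 | h6
  · left
    refine R_ext (fun w => ?_)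
    rw [co_el]
    by_cases hw : w = v
    · rw [if_pos hw, hw, h6]
    · rw [if_neg hw, h5 w hw]
  · right
    refine R_ext (fun w => ?_)
    rw [co_neg, co_el]
    by_cases hw : w = v
    · rw [if_pos hw, hw, h6]
    · rw [if_neg hw, h5 w hw, neg_zero]

end

end ParkerGL
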