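import Pool.Agent.ParkerGL.C02

/-!
# MP_6c3636_al, GL_n(q), module C03: cuspidal support, factorization (helper7)

`P.Sup S v`: `v` is a constituent of a product of cuspidal elements of `S`.

* `exists_sup`: strong induction on `deg v`. If `v` is neither `one` nor cuspidal, `m v a b ≠ 0` for
  some `a, b ≠ one`, of smaller degree; use `sup_mul`. (Positivity: if `a` is a constituent of the
  positive element `x`, `b` of `y`, then all constituents of `el a * el b` are constituents of `x * y`.)
* `perp_cusp_mul`: a cuspidal `r` has only `m r one r`, `m r r one` nonzero, so `perp r` is a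
  derivation by `perp_mul`; `perp r (el s) = if s = r then 1 else 0` for `s` cuspidal. More generally
  `sup_of_m`: if `v` is a constituent of `x = r₁ ⋯ r_k`, then `perp a v ≤ perp a x`, and by induction
  on `k` and `perp_mul` every constituent of `perp a x` is a constituent of the product of a sublist
  (those `b` with `m v a b ≠ 0` for some `v`); use this for `a` by commutativity.
  Precisely show by induction on the list `l`: if `P.ip (l.map el).prod (el a * el b) ≠ 0`, then there
  are sublists (or just lists of elements of `S`) `l₁`, `l₂` with `a` a constituent of `(l₁.map el).prod`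
  and `b` of `(l₂.map el).prod`: `ip (el r * X) (el a * el b) = ip X (perp r (el a * el b))
  = ip X (perp r (el a) * el b) + ip X (el a * perp r (el b))`, so for some `a'` with `m a r a' ≠ 0`
  `ip X (el a' * el b) ≠ 0` or the same for `b`; apply induction to `(a', b)`; then `a` is a
  constituent of `el r * el a'`.
* `sup_disjoint`: if `v` is a constituent of `X = r₁ ⋯ r_k` and of `Y = s₁ ⋯ s_l` (`r_i ∈ S`,
  `s_j ∈ T`), then `ip X Y > 0` by positivity. But `ip (r₁ X') Y = ip X' (perp r₁ Y)` and
  `perp r₁ Y = 0` by the derivation property, as no `s_j` is `r₁`. So `k = 0`, `v = one`.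
* `ip_fact`: `ip (el u * el z) (el u' * el z') = ip (el z) (perp u (el u' * el z')) =
  ∑_{p, r} m u p r * ip (el z) (perp p (el u') * perp r (el z'))`. A nonzero term has `r` in `Sup S`
  (as `m u p r ≠ 0`) and in `Sup T` (as `perp r (el z') ≠ 0`), so `r = one`, `p = u`; and
  `ip (el z) (perp u (el u') * el z')`: a constituent `w` of `perp u (el u')` is in `Sup S`, and if
  `z` is a constituent of `el w * el z'` then `w` is in `Sup T`, so `w = one`, `u = u'`.
* `mul_irr`: `ip x x = 1` and `x` positive.
* `factor`: `v` is a constituent of a product of cuspidal elements; collect those in `S` and those not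
  in `S`: `v` is a constituent of `X * Y`, hence of `el u * el z` for constituents `u` of `X`, `z` of
  `Y`, and `el u * el z` is a basis element.
-/

namespace ParkerGL

noncomputable section

open Classical

variable {I : Type} {P : PSH I}

/-- `v` is a constituent of a product of cuspidal elements of `S` -/
def PSH.Sup (P : PSH I) (S : Set I) (v : I) : Prop :=
  ∃ l : List I, (∀ r ∈ l, P.Cusp r ∧ r ∈ S) ∧ P.co (l.map P.el).prod v ≠ 0

/-! auxiliary lemmas -/

namespace C03_aux

theorem co_mul_sum (x y : P.R) : ∃ s t : Finset I, (∀ a, P.co x a ≠ 0 → a ∈ s) ∧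
    (∀ b, P.co y b ≠ 0 → b ∈ t) ∧
    ∀ v, P.co (x * y) v = ∑ a ∈ s, ∑ b ∈ t, P.co x a * P.co y b * (P.m v a b : ℤ) := by
  obtain ⟨s, hs⟩ := R_eq_sum x
  obtain ⟨t, ht⟩ := R_eq_sum y
  refine ⟨s, t, ?_, ?_, ?_⟩
  · intro a ha
    by_contra h
    apply ha
    rw [hs, co_sum]
    refine Finset.sum_eq_zero fun v hv => ?_
    rw [co_zsmul, co_el, if_neg (by rintro rfl; exact h hv), mul_zero]
  · intro a ha
    by_contra h
    apply ha
    rw [ht, co_sum]
    refine Finset.sum_eq_zero fun v hv => ?_
    rw [co_zsmul, co_el, if_neg (by rintro rfl; exact h hv), mul_zero]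
  · intro v
    have h1 : x * y = ∑ a ∈ s, ∑ b ∈ t, (P.co x a * P.co y b) • (P.el a * P.el b) := by
      conv_lhs => rw [hs, ht]
      rw [Finset.sum_mul_sum]
      refine Finset.sum_congr rfl fun a _ => Finset.sum_congr rfl fun b _ => ?_
      rw [smul_mul_smul_comm]
    rw [h1, co_sum]
    refine Finset.sum_congr rfl fun a _ => ?_
    rw [co_sum]
    refine Finset.sum_congr rfl fun b _ => ?_
    rw [co_zsmul, co_mul_el]

theorem mul_con {x y : P.R} (hx : P.Pos x) (hy : P.Pos y) (v : I) :
    P.co (x * y) v ≠ 0 ↔ ∃ a b, P.co x a ≠ 0 ∧ P.co y b ≠ 0 ∧ P.m v a b ≠ 0 := by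
  obtain ⟨s, t, h1, h2, h3⟩ := co_mul_sum x y
  have hnn : ∀ a b, 0 ≤ P.co x a * P.co y b * (P.m v a b : ℤ) := fun a b =>
    mul_nonneg (mul_nonneg (hx a) (hy b)) (Int.natCast_nonneg _)
  constructor
  · intro h
    rw [h3] at h
    obtain ⟨a, _, ha⟩ := Finset.exists_ne_zero_of_sum_ne_zero h
    obtain ⟨b, _, hb⟩ := Finset.exists_ne_zero_of_sum_ne_zero ha
    refine ⟨a, b, ?_, ?_, ?_⟩
    · intro h0; apply hb; rw [h0]; ring
    · intro h0; apply hb; rw [h0]; ring
    · intro h0; apply hb; rw [h0]; simp
  · rintro ⟨a, b, ha, hb, hm⟩ h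
    rw [h3] at h
    have h4 := (Finset.sum_eq_zero_iff_of_nonneg
      (fun a _ => Finset.sum_nonneg fun b _ => hnn a b)).1 h a (h1 a ha)
    have h5 := (Finset.sum_eq_zero_iff_of_nonneg (fun b _ => hnn a b)).1 h4 b (h2 b hb)
    have h6 : (P.m v a b : ℤ) ≠ 0 := by exact_mod_cast hm
    exact mul_ne_zero (mul_ne_zero ha hb) h6 h5

theorem ip_con {x y : P.R} (hx : P.Pos x) (hy : P.Pos y) :
    P.ip x y ≠ 0 ↔ ∃ v, P.co x v ≠ 0 ∧ P.co y v ≠ 0 := by
  obtain ⟨s, hs⟩ := R_eq_sum x
  have h1 : ∀ a, P.co x a ≠ 0 → a ∈ s := by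
    intro a ha
    by_contra h
    apply ha
    rw [hs, co_sum]
    refine Finset.sum_eq_zero fun v hv => ?_
    rw [co_zsmul, co_el, if_neg (by rintro rfl; exact h hv), mul_zero]
  have h2 : P.ip x y = ∑ v ∈ s, P.co x v * P.co y v := by
    conv_lhs => rw [hs]
    rw [ip_sum_left]
    refine Finset.sum_congr rfl fun v _ => ?_
    rw [ip_zsmul_left, ip_el_left]
  rw [h2]
  constructor
  · intro h
    obtain ⟨a, _, ha⟩ := Finset.exists_ne_zero_of_sum_ne_zero h
    exact ⟨a, left_ne_zero_of_mul ha, right_ne_zero_of_mul ha⟩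
  · rintro ⟨v, hv, hw⟩ h
    have h4 := (Finset.sum_eq_zero_iff_of_nonneg
      (fun a _ => mul_nonneg (hx a) (hy a))).1 h v (h1 v hv)
    exact mul_ne_zero hv hw h4

theorem co_el_ne {v w : I} (h : P.co (P.el v) w ≠ 0) : w = v := by
  by_contra hc
  apply h
  rw [co_el, if_neg hc]

theorem co_el_self (v : I) : P.co (P.el v) v ≠ 0 := by
  rw [co_el, if_pos rfl]; exact one_ne_zero

theorem pos_prod (l : List I) : P.Pos (l.map P.el).prod := by
  induction l with
  | nil => exact pos_one
  | cons r l ih => rw [List.map_cons, List.prod_cons]; exact pos_mul (pos_el r) ih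

theorem m_one_right (v a : I) : P.m v a P.one = if v = a then 1 else 0 := by
  rw [P.m_comm, P.m_one]

theorem m_cusp {r : I} (hr : P.Cusp r) (p q : I) :
    P.m r p q = if (p = P.one ∧ q = r) ∨ (p = r ∧ q = P.one) then 1 else 0 := by
  by_cases h : P.m r p q = 0
  · rw [h, if_neg]
    rintro (⟨rfl, rfl⟩ | ⟨rfl, rfl⟩)
    · rw [P.m_one, if_pos rfl] at h; exact one_ne_zero h
    · rw [m_one_right, if_pos rfl] at h; exact one_ne_zero h
  · rcases hr.2 p q h with rfl | rfl
    · rw [P.m_one] at h ⊢
      have h1 : r = q := by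
        by_contra hc; exact h (if_neg hc)
      rw [if_pos h1, if_pos (Or.inl ⟨rfl, h1.symm⟩)]
    · rw [m_one_right] at h ⊢
      have h1 : r = p := by
        by_contra hc; exact h (if_neg hc)
      rw [if_pos h1, if_pos (Or.inr ⟨h1.symm, rfl⟩)]

theorem deg_one : P.deg P.one = 0 := (P.deg_zero P.one).2 rfl

theorem mem_box {n : ℕ} {v : I} (h : P.deg v ≤ n) : v ∈ P.box n := by
  unfold PSH.box
  rw [Finset.mem_biUnion]
  exact ⟨P.deg v, Finset.mem_range.2 (by omega), (P.mem_lv _ _).2 rfl⟩

theorem m_one_ne {a b : I} (h : P.m P.one a b ≠ 0) : a = P.one ∧ b = P.one := by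
  have h1 := P.m_deg _ _ _ h
  rw [deg_one] at h1
  exact ⟨(P.deg_zero a).1 (by omega), (P.deg_zero b).1 (by omega)⟩

end C03_aux

open C03_aux

theorem sup_one (S : Set I) : P.Sup S P.one := by
  refine ⟨[], by simp, ?_⟩
  rw [List.map_nil, List.prod_nil, one_def]
  exact co_el_self _

theorem sup_cusp {S : Set I} {r : I} (hr : P.Cusp r) (h : r ∈ S) : P.Sup S r := by
  refine ⟨[r], ?_, ?_⟩
  · intro s hs
    rw [List.mem_singleton] at hs
    subst hs
    exact ⟨hr, h⟩
  · rw [List.map_cons, List.map_nil, List.prod_cons, List.prod_nil, mul_one]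
    exact co_el_self _

theorem sup_mono {S T : Set I} (h : S ⊆ T) {v : I} (hv : P.Sup S v) : P.Sup T v := by
  obtain ⟨l, h1, h2⟩ := hv
  exact ⟨l, fun r hr => ⟨(h1 r hr).1, h (h1 r hr).2⟩, h2⟩

/-- a cuspidal `r` acts as a derivation -/
theorem perp_cusp_mul {r : I} (hr : P.Cusp r) (x y : P.R) :
    P.perp r (x * y) = P.perp r x * y + x * P.perp r y := by
  rw [perp_mul r x y (le_refl (P.deg r))]
  have hterm : ∀ p ∈ P.box (P.deg r), ∑ q ∈ P.box (P.deg r),
      (P.m r p q : ℤ) • (P.perp p x * P.perp q y) =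
        (if p = P.one then x * P.perp r y else 0) + (if p = r then P.perp r x * y else 0) := by
    intro p _
    have h1 : ∀ q ∈ P.box (P.deg r), (P.m r p q : ℤ) • (P.perp p x * P.perp q y) =
        (if q = r then (if p = P.one then x * P.perp r y else 0) else 0) +
        (if q = P.one then (if p = r then P.perp r x * y else 0) else 0) := by
      intro q _
      rw [m_cusp hr p q]
      have hne := hr.1
      by_cases hq1 : q = r
      · subst hq1
        by_cases hp1 : p = P.one
        · subst hp1
          simp [perp_one, hne]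
        · simp [hp1, hne]
      · by_cases hq2 : q = P.one
        · subst hq2
          by_cases hp1 : p = r
          · subst hp1
            simp [perp_one, hq1]
          · simp [hp1, hq1]
        · simp [hq1, hq2]
    rw [Finset.sum_congr rfl h1, Finset.sum_add_distrib, Finset.sum_ite_eq', Finset.sum_ite_eq',
      if_pos (mem_box (le_refl _)), if_pos (mem_box (by rw [deg_one]; exact Nat.zero_le _))]
  rw [Finset.sum_congr rfl hterm, Finset.sum_add_distrib, Finset.sum_ite_eq', Finset.sum_ite_eq',
      if_pos (mem_box (le_refl _)), if_pos (mem_box (by rw [deg_one]; exact Nat.zero_le _)), add_comm]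

theorem perp_cusp_cusp {r s : I} (hr : P.Cusp r) (hs : P.Cusp s) :
    P.perp r (P.el s) = if r = s then 1 else 0 := by
  apply R_ext
  intro b
  rw [co_perp_el, m_cusp hs]
  have hne := hr.1
  by_cases h : r = s
  · subst h
    rw [if_pos rfl, one_def, co_el]
    by_cases hb : b = P.one
    · simp [hb]
    · simp [hb, hne]
  · rw [if_neg h, co_zero]
    simp [h, hne]

theorem sup_of_m {S : Set I} {v a b : I} (hv : P.Sup S v) (hm : P.m v a b ≠ 0) :
    P.Sup S a ∧ P.Sup S b := by
  have hmul : ∀ {v a b : I}, P.Sup S a → P.Sup S b → P.m v a b ≠ 0 → P.Sup S v := by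
    rintro v a b ⟨l₁, h1, h2⟩ ⟨l₂, h3, h4⟩ hm
    refine ⟨l₁ ++ l₂, ?_, ?_⟩
    · intro r hr
      rcases List.mem_append.1 hr with h | h
      · exact h1 r h
      · exact h3 r h
    · rw [List.map_append, List.prod_append, mul_con (pos_prod _) (pos_prod _)]
      exact ⟨a, b, h2, h4, hm⟩
  have key : ∀ l : List I, (∀ r ∈ l, P.Cusp r ∧ r ∈ S) → ∀ a b : I,
      P.ip (l.map P.el).prod (P.el a * P.el b) ≠ 0 → P.Sup S a ∧ P.Sup S b := by
    intro l
    induction l with
    | nil =>
      intro _ a b h
      rw [List.map_nil, List.prod_nil, one_def, ip_el_left, co_mul_el] at h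
      have h' : P.m P.one a b ≠ 0 := by exact_mod_cast h
      obtain ⟨rfl, rfl⟩ := m_one_ne h'
      exact ⟨sup_one S, sup_one S⟩
    | cons r l ih =>
      intro hl a b h
      have hr := hl r List.mem_cons_self
      have hl' : ∀ r ∈ l, P.Cusp r ∧ r ∈ S := fun s hs => hl s (List.mem_cons_of_mem _ hs)
      rw [List.map_cons, List.prod_cons, ip_el_mul, perp_cusp_mul hr.1, ip_add_right] at h
      have h12 : P.ip (l.map P.el).prod (P.perp r (P.el a) * P.el b) ≠ 0 ∨
          P.ip (l.map P.el).prod (P.el a * P.perp r (P.el b)) ≠ 0 := by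
        by_contra hc
        push Not at hc
        exact h (by rw [hc.1, hc.2, add_zero])
      rcases h12 with h1 | h1
      · rw [ip_con (pos_prod _) (pos_mul (pos_perp (pos_el a) r) (pos_el b))] at h1
        obtain ⟨w, hw1, hw2⟩ := h1
        rw [mul_con (pos_perp (pos_el a) r) (pos_el b)] at hw2
        obtain ⟨a', b', ha', hb', hm'⟩ := hw2
        have hbb := co_el_ne hb'
        subst hbb
        rw [co_perp_el] at ha'
        have ha2 : P.m a r a' ≠ 0 := by exact_mod_cast ha'
        have h3 := ih hl' a' b' (by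
          rw [ip_con (pos_prod _) (pos_mul (pos_el _) (pos_el _))]
          refine ⟨w, hw1, ?_⟩
          rw [co_mul_el]
          exact_mod_cast hm')
        exact ⟨hmul (sup_cusp hr.1 hr.2) h3.1 ha2, h3.2⟩
      · rw [ip_con (pos_prod _) (pos_mul (pos_el a) (pos_perp (pos_el b) r))] at h1
        obtain ⟨w, hw1, hw2⟩ := h1
        rw [mul_con (pos_el a) (pos_perp (pos_el b) r)] at hw2
        obtain ⟨a', b', ha', hb', hm'⟩ := hw2
        have haa := co_el_ne ha'
        subst haa
        rw [co_perp_el] at hb'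
        have hb2 : P.m b r b' ≠ 0 := by exact_mod_cast hb'
        have h3 := ih hl' a' b' (by
          rw [ip_con (pos_prod _) (pos_mul (pos_el _) (pos_el _))]
          refine ⟨w, hw1, ?_⟩
          rw [co_mul_el]
          exact_mod_cast hm')
        exact ⟨h3.1, hmul (sup_cusp hr.1 hr.2) h3.2 hb2⟩
  obtain ⟨l, h1, h2⟩ := hv
  refine key l h1 a b ?_
  rw [ip_con (pos_prod _) (pos_mul (pos_el _) (pos_el _))]
  refine ⟨v, h2, ?_⟩
  rw [co_mul_el]
  exact_mod_cast hm

theorem sup_mul {S : Set I} {v a b : I} (ha : P.Sup S a) (hb : P.Sup S b) (hm : P.m v a b ≠ 0) :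
    P.Sup S v := by
  obtain ⟨l₁, h1, h2⟩ := ha
  obtain ⟨l₂, h3, h4⟩ := hb
  refine ⟨l₁ ++ l₂, ?_, ?_⟩
  · intro r hr
    rcases List.mem_append.1 hr with h | h
    · exact h1 r h
    · exact h3 r h
  · rw [List.map_append, List.prod_append, mul_con (pos_prod _) (pos_prod _)]
    exact ⟨a, b, h2, h4, hm⟩

theorem sup_disjoint {S T : Set I} (h : Disjoint S T) {v : I} (hS : P.Sup S v)
    (hT : P.Sup T v) : v = P.one := by
  have hz : ∀ (r : I), P.Cusp r → r ∈ S → ∀ l : List I, (∀ s ∈ l, P.Cusp s ∧ s ∈ T) →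
      P.perp r (l.map P.el).prod = 0 := by
    intro r hr hrS l
    induction l with
    | nil =>
      intro _
      rw [List.map_nil, List.prod_nil, one_def]
      apply R_ext
      intro b
      rw [co_perp_el, co_zero]
      by_contra hc
      have hc' : P.m P.one r b ≠ 0 := by exact_mod_cast hc
      exact hr.1 (m_one_ne hc').1
    | cons s l ih =>
      intro hl
      have hs := hl s List.mem_cons_self
      have hne : r ≠ s := by
        rintro rfl
        exact Set.disjoint_left.1 h hrS hs.2
      rw [List.map_cons, List.prod_cons, perp_cusp_mul hr, perp_cusp_cusp hr hs.1, if_neg hne,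
        ih (fun t ht => hl t (List.mem_cons_of_mem _ ht)), zero_mul, mul_zero, add_zero]
  obtain ⟨l, h1, h2⟩ := hS
  obtain ⟨l', h3, h4⟩ := hT
  cases l with
  | nil =>
    rw [List.map_nil, List.prod_nil, one_def] at h2
    exact co_el_ne h2
  | cons r l =>
    exfalso
    have h5 : P.ip ((r :: l).map P.el).prod (l'.map P.el).prod ≠ 0 := by
      rw [ip_con (pos_prod _) (pos_prod _)]
      exact ⟨v, h2, h4⟩
    have hr := h1 r List.mem_cons_self
    rw [List.map_cons, List.prod_cons, ip_el_mul, hz r hr.1 hr.2 l' h3, ip_zero_right] at h5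
    exact h5 rfl

theorem exists_sup (v : I) : P.Sup Set.univ v := by
  have key : ∀ n : ℕ, ∀ v : I, P.deg v = n → P.Sup Set.univ v := by
    intro n
    induction n using Nat.strong_induction_on with
    | _ n ih =>
      intro v hv
      by_cases h1 : v = P.one
      · subst h1; exact sup_one _
      · by_cases h2 : P.Cusp v
        · exact sup_cusp h2 (Set.mem_univ _)
        · unfold PSH.Cusp at h2
          push Not at h2
          obtain ⟨a, b, hm, ha, hb⟩ := h2 h1
          have hd := P.m_deg _ _ _ hm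
          have ha' : P.deg a ≠ 0 := fun h => ha ((P.deg_zero a).1 h)
          have hb' : P.deg b ≠ 0 := fun h => hb ((P.deg_zero b).1 h)
          exact sup_mul (ih (P.deg a) (by omega) a rfl) (ih (P.deg b) (by omega) b rfl) hm
  exact key _ v rfl

theorem ip_fact {S T : Set I} (h : Disjoint S T) {u u' z z' : I} (hu : P.Sup S u)
    (hu' : P.Sup S u') (hz : P.Sup T z) (hz' : P.Sup T z') :
    P.ip (P.el u * P.el z) (P.el u' * P.el z') = (if u = u' then 1 else 0) *
      (if z = z' then 1 else 0) := by
  rw [ip_el_mul, perp_mul u (P.el u') (P.el z') (le_refl (P.deg u)), ip_sum_right]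
  have hr : ∀ p r, P.m u p r ≠ 0 → P.ip (P.el z) (P.perp p (P.el u') * P.perp r (P.el z')) ≠ 0 →
      p = u ∧ r = P.one := by
    intro p r hm hne
    rw [ip_con (pos_el z) (pos_mul (pos_perp (pos_el _) _) (pos_perp (pos_el _) _))] at hne
    obtain ⟨w, _, hw2⟩ := hne
    rw [mul_con (pos_perp (pos_el _) _) (pos_perp (pos_el _) _)] at hw2
    obtain ⟨c, e, _, he, _⟩ := hw2
    rw [co_perp_el] at he
    have he' : P.m z' r e ≠ 0 := by exact_mod_cast he
    have h1 : r = P.one := sup_disjoint h (sup_of_m hu hm).2 (sup_of_m hz' he').1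
    subst h1
    rw [m_one_right] at hm
    refine ⟨?_, rfl⟩
    by_contra hc
    exact hm (if_neg (fun h => hc h.symm))
  have hterm : ∀ p ∈ P.box (P.deg u), P.ip (P.el z) (∑ r ∈ P.box (P.deg u),
      (P.m u p r : ℤ) • (P.perp p (P.el u') * P.perp r (P.el z'))) =
      if p = u then P.ip (P.el z) (P.perp u (P.el u') * P.el z') else 0 := by
    intro p _
    rw [ip_sum_right]
    have h1 : ∀ r ∈ P.box (P.deg u),
        P.ip (P.el z) ((P.m u p r : ℤ) • (P.perp p (P.el u') * P.perp r (P.el z'))) =
        if r = P.one then (if p = u then P.ip (P.el z) (P.perp u (P.el u') * P.el z') else 0)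
          else 0 := by
      intro r _
      rw [ip_zsmul_right]
      by_cases hr1 : r = P.one
      · subst hr1
        rw [if_pos rfl, m_one_right]
        by_cases hp : p = u
        · subst hp
          simp [perp_one]
        · have hp' : ¬ u = p := fun h => hp h.symm
          simp [hp, hp']
      · rw [if_neg hr1]
        by_contra hc
        have h2 := left_ne_zero_of_mul hc
        have h3 := right_ne_zero_of_mul hc
        exact hr1 (hr p r (by exact_mod_cast h2) h3).2
    rw [Finset.sum_congr rfl h1, Finset.sum_ite_eq',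
      if_pos (mem_box (by rw [deg_one]; exact Nat.zero_le _))]
  rw [Finset.sum_congr rfl hterm, Finset.sum_ite_eq', if_pos (mem_box (le_refl _))]
  by_cases h0 : P.ip (P.el z) (P.perp u (P.el u') * P.el z') = 0
  · rw [h0]
    by_cases h1 : u = u'
    · by_cases h2 : z = z'
      · exfalso
        subst h1
        subst h2
        have h3 : P.ip (P.el z) (P.perp u (P.el u) * P.el z) ≠ 0 := by
          rw [ip_con (pos_el z) (pos_mul (pos_perp (pos_el _) _) (pos_el _))]
          refine ⟨z, co_el_self z, ?_⟩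
          rw [mul_con (pos_perp (pos_el _) _) (pos_el _)]
          refine ⟨P.one, z, ?_, co_el_self z, ?_⟩
          · rw [co_perp_el, m_one_right, if_pos rfl]; simp
          · rw [P.m_one, if_pos rfl]; exact one_ne_zero
        exact h3 h0
      · rw [if_neg h2, mul_zero]
    · rw [if_neg h1, zero_mul]
  · have h1 := h0
    rw [← ne_eq, ip_con (pos_el z) (pos_mul (pos_perp (pos_el _) _) (pos_el _))] at h1
    obtain ⟨w, hw1, hw2⟩ := h1
    have hwz := co_el_ne hw1
    subst hwz
    rw [mul_con (pos_perp (pos_el _) _) (pos_el _)] at hw2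
    obtain ⟨c, e, hc, he, hm⟩ := hw2
    have hez := co_el_ne he
    subst hez
    rw [co_perp_el] at hc
    have hc' : P.m u' u c ≠ 0 := by exact_mod_cast hc
    have h4 : c = P.one := sup_disjoint h (sup_of_m hu' hc').2 (sup_of_m hz hm).1
    subst h4
    rw [m_one_right] at hc'
    rw [P.m_one] at hm
    have h5 : u' = u := by
      by_contra hcc; exact hc' (if_neg hcc)
    have h6 : w = e := by
      by_contra hcc; exact hm (if_neg hcc)
    subst h5
    subst h6
    rw [if_pos rfl, if_pos rfl]
    have h7 : P.perp u' (P.el u') = 1 := by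
      apply R_ext
      intro b
      rw [co_perp_el, one_def, co_el]
      by_cases hb : b = P.one
      · subst hb
        rw [m_one_right, if_pos rfl, if_pos rfl]; rfl
      · rw [if_neg hb]
        by_contra hcc
        have h8 : P.m u' u' b ≠ 0 := by exact_mod_cast hcc
        have h9 := P.m_deg _ _ _ h8
        exact hb ((P.deg_zero b).1 (by omega))
    rw [h7, one_mul, ip_el_left, co_el, if_pos rfl]
    norm_num

theorem mul_irr {S T : Set I} (h : Disjoint S T) {u z : I} (hu : P.Sup S u) (hz : P.Sup T z) :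
    ∃ v, P.el u * P.el z = P.el v := by
  have h1 := ip_fact h hu hu hz hz
  rw [if_pos rfl, if_pos rfl, mul_one] at h1
  obtain ⟨v, hv | hv⟩ := ip_self_eq_one h1
  · exact ⟨v, hv⟩
  · exfalso
    have h2 : 0 ≤ P.co (P.el u * P.el z) v := pos_mul (pos_el (P := P) u) (pos_el z) v
    rw [hv, co_neg, co_el, if_pos rfl] at h2
    norm_num at h2

theorem factor (S : Set I) (v : I) :
    ∃ u z, P.Sup S u ∧ P.Sup Sᶜ z ∧ P.el v = P.el u * P.el z := by
  have hdis : Disjoint S Sᶜ := disjoint_compl_right
  have hirr : ∀ {a z v : I}, P.Sup S a → P.Sup Sᶜ z → P.m v a z ≠ 0 →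
      P.el v = P.el a * P.el z := by
    intro a z v ha hz hm
    obtain ⟨v', hv'⟩ := mul_irr hdis ha hz
    have h1 : P.co (P.el a * P.el z) v ≠ 0 := by
      rw [co_mul_el]; exact_mod_cast hm
    rw [hv'] at h1
    have h2 := co_el_ne h1
    rw [h2, hv']
  have key : ∀ l : List I, (∀ r ∈ l, P.Cusp r) → ∀ v : I, P.co (l.map P.el).prod v ≠ 0 →
      ∃ u z, P.Sup S u ∧ P.Sup Sᶜ z ∧ P.el v = P.el u * P.el z := by
    intro l
    induction l with
    | nil =>
      intro _ v hv
      rw [List.map_nil, List.prod_nil, one_def] at hv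
      have h1 := co_el_ne hv
      subst h1
      refine ⟨P.one, P.one, sup_one _, sup_one _, ?_⟩
      rw [← one_def, mul_one]
    | cons r l ih =>
      intro hl v hv
      have hr := hl r List.mem_cons_self
      rw [List.map_cons, List.prod_cons, mul_con (pos_el r) (pos_prod _)] at hv
      obtain ⟨a, b, ha, hb, hm⟩ := hv
      have har := co_el_ne ha
      subst har
      obtain ⟨u, z, hu, hz, hb'⟩ := ih (fun s hs => hl s (List.mem_cons_of_mem _ hs)) b hb
      have hv2 : P.co (P.el a * P.el b) v ≠ 0 := by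
        rw [co_mul_el]; exact_mod_cast hm
      rw [hb'] at hv2
      by_cases haS : a ∈ S
      · rw [← mul_assoc, mul_con (pos_mul (pos_el _) (pos_el _)) (pos_el _)] at hv2
        obtain ⟨c, e, hc, he, hm2⟩ := hv2
        have hez := co_el_ne he
        subst hez
        rw [co_mul_el] at hc
        have hcS : P.Sup S c := sup_mul (sup_cusp hr haS) hu (by exact_mod_cast hc)
        exact ⟨c, e, hcS, hz, hirr hcS hz hm2⟩
      · have h3 : P.el a * (P.el u * P.el z) = P.el u * (P.el a * P.el z) := by ring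
        rw [h3, mul_con (pos_el _) (pos_mul (pos_el _) (pos_el _))] at hv2
        obtain ⟨c, e, hc, he, hm2⟩ := hv2
        have hcu := co_el_ne hc
        subst hcu
        rw [co_mul_el] at he
        have heT : P.Sup Sᶜ e := sup_mul (sup_cusp hr haS) hz (by exact_mod_cast he)
        exact ⟨c, e, hu, heT, hirr hu heT hm2⟩
  obtain ⟨l, h1, h2⟩ := exists_sup (P := P) v
  exact key l (fun r hr => (h1 r hr).1) v h2

theorem factor_unique {S T : Set I} (h : Disjoint S T) {u u' z z' : I} (hu : P.Sup S u)
    (hu' : P.Sup S u') (hz : P.Sup T z) (hz' : P.Sup T z')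
    (he : P.el u * P.el z = P.el u' * P.el z') : u = u' ∧ z = z' := by
  have h1 := ip_fact h hu hu' hz hz'
  rw [← he] at h1
  have h2 := ip_fact h hu hu hz hz
  rw [if_pos rfl, if_pos rfl, mul_one] at h2
  rw [h2] at h1
  by_cases h3 : u = u'
  · by_cases h4 : z = z'
    · exact ⟨h3, h4⟩
    · rw [if_neg h4, mul_zero] at h1
      exact absurd h1 one_ne_zero
  · rw [if_neg h3, zero_mul] at h1
    exact absurd h1 one_ne_zero

/-- in degree `one`: the constituents of `r ^ n` -/
theorem sup_singleton {r : I} (hr : P.Cusp r) {v : I} (hv : P.Sup {r} v) :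
    ∃ n, P.co (P.el r ^ n) v ≠ 0 ∧ P.deg v = n * P.deg r := by
  obtain ⟨l, h1, h2⟩ := hv
  have hl : l = List.replicate l.length r :=
    List.eq_replicate_of_mem fun s hs => Set.mem_singleton_iff.1 (h1 s hs).2
  rw [hl, List.map_replicate, List.prod_replicate] at h2
  exact ⟨l.length, h2, hom_pow (hom_el r) l.length v h2⟩

theorem sup_of_pow {r : I} (hr : P.Cusp r) {n : ℕ} {v : I} (h : P.co (P.el r ^ n) v ≠ 0) :
    P.Sup {r} v := by
  refine ⟨List.replicate n r, ?_, ?_⟩
  · intro s hs
    have h1 := List.eq_of_mem_replicate hs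
    subst h1
    exact ⟨hr, rfl⟩
  · rw [List.map_replicate, List.prod_replicate]
    exact h

end

end ParkerGL
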