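import Pool.Agent.ParkerGL.C03

/-!
# MP_6c3636_al, GL_n(q), module C04: the generic constituents `x n` of `ρ ^ n` (helper7)

`dlR : R → ℤ` is the linear extension of `dl`, it is multiplicative by `dl_mul`. `dlR (el ρ ^ n) = 1`
is the sum of the numbers `co (el ρ ^ n) v * dl v ≥ 0`, so there is exactly one `v = x n` with
`co (el ρ ^ n) v ≠ 0`, `dl v ≠ 0`, and then both are `1`.

`GLike x`: if `m (x n) a b ≠ 0`, then `a`, `b` are constituents of `el ρ ^ i`, `el ρ ^ j`, `i + j = n`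
(`sup_of_m`, `sup_singleton`, degrees). If `a ≠ x i`, then `dl a = 0`, so that
`dlR (el a * el b) = 0`; but `x n` is a constituent of `el a * el b` and `dl (x n) = 1`, contradiction.
So `a = x i`, `b = x j`. On the other hand `el (x i) * el (x j)` is `≤ el ρ ^ n` and has `dlR = 1`, so it
has exactly one constituent with `dl ≠ 0`, with multiplicity one; it is a constituent of `el ρ ^ n`,
so it is `x n`.
-/

namespace ParkerGL

noncomputable section

open Classical

variable {I : Type}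

/-- group like sequences: the coproduct of `x n` is `∑ x i ⊗ x (n - i)` -/
def PSH.GLike (P : PSH I) (x : ℕ → I) : Prop :=
  ∀ n a b, P.m (x n) a b = if ∃ i, i ≤ n ∧ a = x i ∧ b = x (n - i) then 1 else 0

/-- the linear extension of `dl` -/
def PSHX.dlR (P : PSHX I) (x : P.R) : ℤ := (show I →₀ ℤ from x).sum fun v c => c * (P.dl v : ℤ)

variable {P : PSHX I}

namespace C04_aux

/-- `dlR` as an additive map -/
def dlH (P : PSHX I) : P.R →+ ℤ where
  toFun := P.dlR
  map_zero' := Finsupp.sum_zero_index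
  map_add' x y := by
    refine Finsupp.sum_add_index' ?_ ?_
    · intro v
      exact zero_mul _
    · intro v c c'
      exact add_mul _ _ _

theorem dlH_apply (x : P.R) : dlH P x = P.dlR x := rfl

end C04_aux

open C04_aux

theorem dlR_add (x y : P.R) : P.dlR (x + y) = P.dlR x + P.dlR y := (dlH P).map_add x y

theorem dlR_neg (x : P.R) : P.dlR (-x) = - P.dlR x := (dlH P).map_neg x

theorem dlR_zero : P.dlR (0 : P.R) = 0 := (dlH P).map_zero

theorem dlR_el (v : I) : P.dlR (P.el v) = P.dl v := by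
  show (Finsupp.single v (1 : ℤ)).sum (fun v c => c * (P.dl v : ℤ)) = P.dl v
  rw [Finsupp.sum_single_index (zero_mul _), one_mul]

theorem dlR_one : P.dlR (1 : P.R) = 1 := by
  rw [one_def, dlR_el, P.dl_one]
  rfl

theorem dlR_mul (x y : P.R) : P.dlR (x * y) = P.dlR x * P.dlR y := by
  refine R_induction (P := P.toPSH) (p := fun x => P.dlR (x * y) = P.dlR x * P.dlR y) ?_ ?_ ?_ ?_ x
  · show P.dlR (0 * y) = P.dlR 0 * P.dlR y
    rw [zero_mul, dlR_zero, zero_mul]
  · intro a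
    refine R_induction (P := P.toPSH)
      (p := fun y => P.dlR (P.el a * y) = P.dlR (P.el a) * P.dlR y) ?_ ?_ ?_ ?_ y
    · show P.dlR (P.el a * 0) = P.dlR (P.el a) * P.dlR 0
      rw [mul_zero, dlR_zero, mul_zero]
    · intro b
      show P.dlR (P.el a * P.el b) = P.dlR (P.el a) * P.dlR (P.el b)
      rw [el_mul, ← dlH_apply, map_sum, dlR_el, dlR_el]
      have h := P.dl_mul a b
      have h' : (P.dl a : ℤ) * (P.dl b : ℤ) =
          ∑ v ∈ P.lv (P.deg a + P.deg b), (P.m v a b : ℤ) * (P.dl v : ℤ) := by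
        exact_mod_cast h
      rw [h']
      refine Finset.sum_congr rfl fun v _ => ?_
      rw [map_zsmul, dlH_apply, dlR_el, smul_eq_mul]
    · intro u v hu hv
      show P.dlR (P.el a * (u + v)) = P.dlR (P.el a) * P.dlR (u + v)
      rw [mul_add, dlR_add, dlR_add, mul_add, hu, hv]
    · intro u hu
      show P.dlR (P.el a * -u) = P.dlR (P.el a) * P.dlR (-u)
      rw [mul_neg, dlR_neg, dlR_neg, hu, mul_neg]
  · intro u v hu hv
    show P.dlR ((u + v) * y) = P.dlR (u + v) * P.dlR y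
    rw [add_mul, dlR_add, dlR_add, add_mul, hu, hv]
  · intro u hu
    show P.dlR (-u * y) = P.dlR (-u) * P.dlR y
    rw [neg_mul, dlR_neg, dlR_neg, hu, neg_mul]

theorem dlR_pow (x : P.R) (n : ℕ) : P.dlR (x ^ n) = P.dlR x ^ n := by
  induction n with
  | zero => rw [pow_zero, pow_zero, dlR_one]
  | succ n ih => rw [pow_succ, pow_succ, dlR_mul, ih]

namespace C04_aux

theorem mem_box {Q : PSH I} {v : I} {N : ℕ} (h : Q.deg v ≤ N) : v ∈ Q.box N :=
  Finset.mem_biUnion.mpr ⟨Q.deg v, Finset.mem_range.mpr (Nat.lt_succ_of_le h),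
    (Q.mem_lv _ _).mpr rfl⟩

end C04_aux

/-- `perp` of a group like sequence -/
theorem glike_perp_mul {Q : PSH I} {x : ℕ → I} (hx : Q.GLike x) (hinj : Function.Injective x)
    (n : ℕ) (a b : Q.R) :
    Q.perp (x n) (a * b) = ∑ i ∈ Finset.range (n + 1), Q.perp (x i) a * Q.perp (x (n - i)) b := by
  have h1 : ∀ i, i ≤ n → Q.m (x n) (x i) (x (n - i)) = 1 := by
    intro i hi
    rw [hx n (x i) (x (n - i)), if_pos ⟨i, hi, rfl, rfl⟩]
  have hinj2 : ∀ i ∈ Finset.range (n + 1), ∀ j ∈ Finset.range (n + 1),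
      (x i, x (n - i)) = (x j, x (n - j)) → i = j := by
    intro i _ j _ hij
    exact hinj (Prod.ext_iff.mp hij).1
  have h2 : ∑ i ∈ Finset.range (n + 1), Q.perp (x i) a * Q.perp (x (n - i)) b =
      ∑ pr ∈ (Finset.range (n + 1)).image (fun i => (x i, x (n - i))),
        Q.perp pr.1 a * Q.perp pr.2 b := by
    rw [Finset.sum_image hinj2]
  rw [perp_mul (x n) a b (le_refl (Q.deg (x n))), h2, ← Finset.sum_product']
  have h3 : ∑ pr ∈ (Finset.range (n + 1)).image (fun i => (x i, x (n - i))),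
        Q.perp pr.1 a * Q.perp pr.2 b =
      ∑ pr ∈ (Finset.range (n + 1)).image (fun i => (x i, x (n - i))),
        (Q.m (x n) pr.1 pr.2 : ℤ) • (Q.perp pr.1 a * Q.perp pr.2 b) := by
    refine Finset.sum_congr rfl fun pr hpr => ?_
    obtain ⟨i, hi, rfl⟩ := Finset.mem_image.mp hpr
    have hi' : i ≤ n := Nat.lt_succ_iff.mp (Finset.mem_range.mp hi)
    show _ = (Q.m (x n) (x i) (x (n - i)) : ℤ) • _
    rw [h1 i hi', Nat.cast_one, one_smul]
  rw [h3]
  symm
  refine Finset.sum_subset ?_ ?_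
  · intro pr hpr
    obtain ⟨i, hi, rfl⟩ := Finset.mem_image.mp hpr
    have hi' : i ≤ n := Nat.lt_succ_iff.mp (Finset.mem_range.mp hi)
    have hne : Q.m (x n) (x i) (x (n - i)) ≠ 0 := by rw [h1 i hi']; exact one_ne_zero
    have hdeg := Q.m_deg _ _ _ hne
    exact Finset.mem_product.mpr ⟨mem_box (by show Q.deg (x i) ≤ _; omega),
      mem_box (by show Q.deg (x (n - i)) ≤ _; omega)⟩
  · intro pr _ hpr
    have h0 : Q.m (x n) pr.1 pr.2 = 0 := by
      rw [hx n pr.1 pr.2, if_neg]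
      rintro ⟨i, hi, h4, h5⟩
      exact hpr (Finset.mem_image.mpr ⟨i, Finset.mem_range.mpr (Nat.lt_succ_of_le hi),
        Prod.ext h4.symm h5.symm⟩)
    rw [h0, Nat.cast_zero, zero_smul]

theorem glike_perp_self {Q : PSH I} {x : ℕ → I} (hx : Q.GLike x) (hinj : Function.Injective x)
    {i n : ℕ} (h : i ≤ n) : Q.perp (x i) (Q.el (x n)) = Q.el (x (n - i)) := by
  apply R_ext
  intro b
  rw [co_perp_el, co_el, hx n (x i) b]
  by_cases hb : b = x (n - i)
  · rw [if_pos hb, if_pos ⟨i, h, rfl, hb⟩]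
    rfl
  · rw [if_neg hb, if_neg]
    · rfl
    · rintro ⟨j, _, h1, h2⟩
      rw [← hinj h1] at h2
      exact hb h2

theorem glike_perp_ne {Q : PSH I} {x : ℕ → I} (hx : Q.GLike x) {n : ℕ} {a : I}
    (h : ∀ i, i ≤ n → a ≠ x i) : Q.perp a (Q.el (x n)) = 0 := by
  apply R_ext
  intro b
  rw [co_perp_el, co_zero, hx n a b, if_neg]
  · rfl
  · rintro ⟨j, hj, h1, _⟩
    exact h j hj h1

namespace C04_aux

/-- a positive element with `dlR = 1` has exactly one generic constituent -/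
theorem exists_generic (P : PSHX I) {x : P.R} (hx : P.Pos x) (h1 : P.dlR x = 1) :
    ∃ v, P.co x v = 1 ∧ P.dl v = 1 ∧ ∀ w, P.co x w ≠ 0 → P.dl w ≠ 0 → w = v := by
  have hsum : ∑ v ∈ (show I →₀ ℤ from x).support, P.co x v * (P.dl v : ℤ) = 1 := h1
  have hnn : ∀ v ∈ (show I →₀ ℤ from x).support, 0 ≤ P.co x v * (P.dl v : ℤ) := fun v _ =>
    mul_nonneg (hx v) (Int.natCast_nonneg _)
  have hne : ∑ v ∈ (show I →₀ ℤ from x).support, P.co x v * (P.dl v : ℤ) ≠ 0 := by
    rw [hsum]; exact one_ne_zero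
  obtain ⟨v, hv, hvne⟩ := Finset.exists_ne_zero_of_sum_ne_zero hne
  have hle := Finset.single_le_sum hnn hv
  rw [hsum] at hle
  have hpos : 0 < P.co x v * (P.dl v : ℤ) := lt_of_le_of_ne (hnn v hv) (Ne.symm hvne)
  have hterm : P.co x v * (P.dl v : ℤ) = 1 := by omega
  have hco : P.co x v = 1 := Int.eq_one_of_mul_eq_one_right (hx v) hterm
  have hdl : (P.dl v : ℤ) = 1 := by rw [hco, one_mul] at hterm; exact hterm
  refine ⟨v, hco, by exact_mod_cast hdl, ?_⟩
  intro w hw hdw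
  by_contra hwv
  have hws : w ∈ (show I →₀ ℤ from x).support := Finsupp.mem_support_iff.mpr hw
  have herase := Finset.add_sum_erase _ (fun v => P.co x v * (P.dl v : ℤ)) hv
  rw [hsum] at herase
  have h0 : ∑ u ∈ (show I →₀ ℤ from x).support.erase v, P.co x u * (P.dl u : ℤ) = 0 := by
    have h5 : P.co x v * (P.dl v : ℤ) +
      ∑ u ∈ (show I →₀ ℤ from x).support.erase v, P.co x u * (P.dl u : ℤ) = 1 := herase
    omega
  have h6 := (Finset.sum_eq_zero_iff_of_nonneg
    (fun u hu => hnn u (Finset.mem_of_mem_erase hu))).mp h0 w (Finset.mem_erase.mpr ⟨hwv, hws⟩)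
  rcases mul_eq_zero.mp h6 with h7 | h7
  · exact hw h7
  · exact hdw (by exact_mod_cast h7)

theorem pos_sub_el {Q : PSH I} {x : Q.R} (hx : Q.Pos x) {v : I} (h : Q.co x v ≠ 0) :
    Q.Pos (x - Q.el v) := by
  intro w
  rw [co_sub, co_el]
  have h1 := hx w
  by_cases hw : w = v
  · rw [if_pos hw]
    rw [← hw] at h
    omega
  · rw [if_neg hw, sub_zero]
    exact h1

end C04_aux

theorem exists_x (P : PSHX I) {ρ : I} (hρ : P.Cusp ρ) :
    ∃ x : ℕ → I, x 0 = P.one ∧ x 1 = ρ ∧ (∀ n, P.deg (x n) = n * P.deg ρ) ∧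
      (∀ n, P.dl (x n) = 1) ∧ (∀ n, P.co (P.el ρ ^ n) (x n) ≠ 0) ∧ P.GLike x := by
  have hpos : ∀ n : ℕ, P.Pos (P.el ρ ^ n) := fun n => pos_pow (pos_el ρ) n
  have hdlρ : P.dl ρ = 1 := P.dl_cusp ρ hρ
  have hdl : ∀ n : ℕ, P.dlR (P.el ρ ^ n) = 1 := by
    intro n
    rw [dlR_pow, dlR_el, hdlρ, Nat.cast_one, one_pow]
  choose x hco hdlx huniq using fun n => exists_generic P (hpos n) (hdl n)
  have hne : ∀ n, P.co (P.el ρ ^ n) (x n) ≠ 0 := fun n => by rw [hco n]; exact one_ne_zero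
  have hx0 : x 0 = P.one := by
    refine (huniq 0 P.one ?_ ?_).symm
    · rw [pow_zero, one_def, co_el, if_pos rfl]; exact one_ne_zero
    · rw [P.dl_one]; exact one_ne_zero
  have hx1 : x 1 = ρ := by
    refine (huniq 1 ρ ?_ ?_).symm
    · rw [pow_one, co_el, if_pos rfl]; exact one_ne_zero
    · rw [hdlρ]; exact one_ne_zero
  have hdeg : ∀ n, P.deg (x n) = n * P.deg ρ := fun n => hom_pow (hom_el ρ) n (x n) (hne n)
  have he : 0 < P.deg ρ := by
    rcases Nat.eq_zero_or_pos (P.deg ρ) with h | h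
    · exact absurd ((P.deg_zero ρ).mp h) hρ.1
    · exact h
  refine ⟨x, hx0, hx1, hdeg, hdlx, hne, ?_⟩
  intro n a b
  by_cases hc : ∃ i, i ≤ n ∧ a = x i ∧ b = x (n - i)
  · rw [if_pos hc]
    obtain ⟨i, hi, rfl, rfl⟩ := hc
    have hZpos : P.Pos (P.el (x i) * P.el (x (n - i))) := pos_mul (pos_el _) (pos_el _)
    have hZdl : P.dlR (P.el (x i) * P.el (x (n - i))) = 1 := by
      rw [dlR_mul, dlR_el, dlR_el, hdlx, hdlx]
      norm_num
    obtain ⟨v, hv1, hv2, _⟩ := exists_generic P hZpos hZdl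
    have hE : P.Pos (P.el ρ ^ n - P.el (x i) * P.el (x (n - i))) := by
      have h1 : P.el ρ ^ n - P.el (x i) * P.el (x (n - i)) =
          (P.el ρ ^ i - P.el (x i)) * P.el ρ ^ (n - i) +
            P.el (x i) * (P.el ρ ^ (n - i) - P.el (x (n - i))) := by
        have h2 : P.el ρ ^ n = P.el ρ ^ i * P.el ρ ^ (n - i) := by
          rw [← pow_add, Nat.add_sub_cancel' hi]
        rw [h2]
        ring
      rw [h1]
      exact pos_add (pos_mul (pos_sub_el (hpos i) (hne i)) (hpos _))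
        (pos_mul (pos_el _) (pos_sub_el (hpos _) (hne _)))
    have hvE : P.co (P.el ρ ^ n) v ≠ 0 := by
      have h3 := hE v
      rw [co_sub, hv1] at h3
      omega
    have hvx : v = x n := huniq n v hvE (by rw [hv2]; exact one_ne_zero)
    rw [hvx, co_mul_el] at hv1
    exact_mod_cast hv1
  · rw [if_neg hc]
    by_contra hm
    apply hc
    have hsup : P.Sup {ρ} (x n) := sup_of_pow hρ (hne n)
    obtain ⟨hsa, hsb⟩ := sup_of_m hsup hm
    obtain ⟨i, hi1, hi2⟩ := sup_singleton hρ hsa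
    obtain ⟨j, hj1, hj2⟩ := sup_singleton hρ hsb
    have hd := P.m_deg _ _ _ hm
    rw [hdeg n, hi2, hj2, ← Nat.add_mul] at hd
    have hnij : n = i + j := Nat.eq_of_mul_eq_mul_right he hd
    have hmem : x n ∈ P.lv (P.deg a + P.deg b) := (P.mem_lv _ _).mpr (P.m_deg _ _ _ hm)
    have hprod : P.dl a * P.dl b ≠ 0 := by
      rw [P.dl_mul a b]
      intro h0
      have h1 := (Finset.sum_eq_zero_iff.mp h0) (x n) hmem
      rw [hdlx n, mul_one] at h1
      exact hm h1
    have hda : P.dl a ≠ 0 := fun h0 => hprod (by rw [h0, Nat.zero_mul])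
    have hdb : P.dl b ≠ 0 := fun h0 => hprod (by rw [h0, Nat.mul_zero])
    have ha : a = x i := huniq i a hi1 hda
    have hb : b = x j := huniq j b hj1 hdb
    refine ⟨i, by omega, ha, ?_⟩
    rw [hb]
    congr 1
    omega

end

end ParkerGL
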