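import Pool.Agent.ParkerGL.C04

/-!
# MP_6c3636_al, GL_n(q), module C05: the sequence `y n` (helper7)

Let `x` be as in C04, `X n = el (x n)`. Define `Y 0 = 1`, `Y n = ∑_{i=1}^n (-1)^(i+1) X i * Y (n - i)`,
so that `∑_{i ≤ n} (-1)^i X i * Y (n - i) = 0` for `n ≥ 1`.

(1) `ip (Y n) (a * b) = ∑_{i ≤ n} ip (Y i) a * ip (Y (n - i)) b` for all `a`, `b`. Let `D n a b` be the
difference; strong induction. `0 = ∑_i (-1)^i ip (X i * Y (n - i)) (a * b)
= ∑_i (-1)^i ip (Y (n - i)) (perp (x i) (a * b)) = ∑_i (-1)^i ∑_k ip (Y (n - i)) (perp (x k) a *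
perp (x (i - k)) b)` (`ip_el_mul`, `glike_perp_mul`). By induction (only the term `i = 0` has `D n`)
this is `D n a b + ∑_{p + q = n} (∑_{k + l = p} (-1)^k ip (X k * Y l) a) *
(∑_{k' + l' = q} (-1)^k' ip (X k' * Y l') b)`, and in each product one factor is `0` (`n ≥ 1`).
(2) `c n = ip (X n) (Y n)`: `0 = ∑_i (-1)^i ip (X n) (X i * Y (n - i)) =
∑_i (-1)^i ip (perp (x i) (X n)) (Y (n - i)) = ∑_i (-1)^i c (n - i)` for `n ≥ 1` (`glike_perp_self`). So
`c 1 = c 0 = 1` and `c n = 0` for `n ≥ 2` (subtract consecutive equations or induct).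
(3) `ν n = ip (Y n) (Y n)`: `0 = ∑_i (-1)^i ip (Y n) (X i * Y (n - i)) = ∑_i (-1)^i (∑_j ip (Y j) (X i) *
ip (Y (n - j)) (Y (n - i)))` by (1); for degree reasons only `j = i` remains: `= ∑_i (-1)^i c i * ν (n - i)
= ν n - ν (n - 1)`. So `ν n = 1` and `Y n = ± el v` (`ip_self_eq_one`).
(4) `ip (Y n) (el ρ ^ n) = 1` by induction from (1) with `ip (Y 1) (el ρ) = 1`
(degrees: `ip (Y i) (el ρ) = 0` for `i ≠ 1`). So the sign is `+`; `y n := v`.
(5) `GLike y`: (1) for basis elements `a`, `b`: `m (y n) a b = ip (Y n) (el a * el b) = ∑_i [a = y i] [b = y (n - i)]`.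
(6) `∑_i (-1)^i dl (y (n - i)) = 0` for `n ≥ 1`, so `dl (y n) = 0` for `n ≥ 2` as in (2).
(7) `x n ≠ y n` for `n ≥ 2` as `c n = 0`.
-/

namespace ParkerGL

noncomputable section

open Classical

variable {I : Type} {P : PSHX I}

/-- the two sequences attached to the cuspidal element `ρ` -/
structure XY (P : PSHX I) (ρ : I) (x y : ℕ → I) : Prop where
  cusp : P.Cusp ρ
  x0 : x 0 = P.one
  x1 : x 1 = ρ
  y0 : y 0 = P.one
  y1 : y 1 = ρ
  degx : ∀ n, P.deg (x n) = n * P.deg ρ
  degy : ∀ n, P.deg (y n) = n * P.deg ρ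
  cox : ∀ n, P.co (P.el ρ ^ n) (x n) ≠ 0
  coy : ∀ n, P.co (P.el ρ ^ n) (y n) ≠ 0
  glx : P.GLike x
  gly : P.GLike y
  dlx : ∀ n, P.dl (x n) = 1
  dly : ∀ n, 2 ≤ n → P.dl (y n) = 0
  rel : ∀ n, 1 ≤ n → ∑ i ∈ Finset.range (n + 1), (-1 : P.R) ^ i * (P.el (x i) * P.el (y (n - i))) = 0
  ne : ∀ n, 2 ≤ n → x n ≠ y n

theorem deg_pos {ρ : I} (h : P.Cusp ρ) : 0 < P.deg ρ :=
  Nat.pos_of_ne_zero fun h0 => h.1 ((P.deg_zero ρ).1 h0)

private theorem inj_of_deg {ρ : I} (h : P.Cusp ρ) {x : ℕ → I} (hx : ∀ n, P.deg (x n) = n * P.deg ρ) :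
    Function.Injective x := by
  intro a b hab
  have h1 := hx a
  rw [hab, hx b] at h1
  exact (Nat.eq_of_mul_eq_mul_right (deg_pos h) h1).symm

theorem XY.injx {ρ : I} {x y : ℕ → I} (h : XY P ρ x y) : Function.Injective x :=
  inj_of_deg h.cusp h.degx

theorem XY.injy {ρ : I} {x y : ℕ → I} (h : XY P ρ x y) : Function.Injective y :=
  inj_of_deg h.cusp h.degy

open Finset.HasAntidiagonal (antidiagonal)

/-! ### recursion -/

/-- the inverse sequence -/
private def Ys {A : Type} [CommRing A] (X : ℕ → A) : ℕ → A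
  | 0 => 1
  | n + 1 => ∑ i : Fin (n + 1), (-1) ^ (i : ℕ) * (X (i + 1) * Ys X (n - i))
termination_by n => n
decreasing_by omega

private theorem Ys_zero {A : Type} [CommRing A] (X : ℕ → A) : Ys X 0 = 1 := by
  rw [Ys]

private theorem Ys_succ {A : Type} [CommRing A] (X : ℕ → A) (n : ℕ) :
    Ys X (n + 1) = ∑ i ∈ Finset.range (n + 1), (-1) ^ i * (X (i + 1) * Ys X (n - i)) := by
  rw [Ys, Finset.sum_range]

private theorem Ys_rel {A : Type} [CommRing A] (X : ℕ → A) (h0 : X 0 = 1) (n : ℕ) (hn : 1 ≤ n) :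
    ∑ i ∈ Finset.range (n + 1), (-1 : A) ^ i * (X i * Ys X (n - i)) = 0 := by
  obtain ⟨n, rfl⟩ := Nat.exists_eq_add_of_le' hn
  rw [Finset.sum_range_succ']
  simp only [pow_zero, one_mul, h0, Nat.sub_zero]
  rw [Ys_succ, ← Finset.sum_add_distrib]
  refine Finset.sum_eq_zero fun i hi => ?_
  have h1 : n + 1 - (i + 1) = n - i := by omega
  rw [h1, pow_succ]
  ring

/-- a sequence with the alternating recursion is `1, 1, 0, 0, …` -/
private theorem rec_zero {c : ℕ → ℤ} (h : ∀ n, 1 ≤ n → ∑ i ∈ Finset.range (n + 1), (-1) ^ i * c (n - i) = 0)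
    (n : ℕ) (hn : 2 ≤ n) : c n = 0 := by
  obtain ⟨n, rfl⟩ := Nat.exists_eq_add_of_le' hn
  have h1 := h (n + 1 + 1) (by omega)
  have h2 := h (n + 1) (by omega)
  rw [Finset.sum_range_succ'] at h1
  have h3 : ∑ i ∈ Finset.range (n + 1 + 1), (-1 : ℤ) ^ (i + 1) * c (n + 1 + 1 - (i + 1)) =
      - ∑ i ∈ Finset.range (n + 1 + 1), (-1 : ℤ) ^ i * c (n + 1 - i) := by
    rw [← Finset.sum_neg_distrib]
    refine Finset.sum_congr rfl fun i _ => ?_
    have h4 : n + 1 + 1 - (i + 1) = n + 1 - i := by omega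
    rw [h4, pow_succ]
    ring
  rw [h3, h2] at h1
  simpa using h1

private theorem rec_one {c : ℕ → ℤ} (h : ∀ n, 1 ≤ n → ∑ i ∈ Finset.range (n + 1), (-1) ^ i * c (n - i) = 0) :
    c 1 = c 0 := by
  have h1 := h 1 le_rfl
  simp [Finset.sum_range_succ] at h1
  linarith

/-! ### bookkeeping -/

private theorem ip_sgn {Q : PSH I} (i : ℕ) (z w : Q.R) : Q.ip ((-1 : Q.R) ^ i * z) w = (-1) ^ i * Q.ip z w := by
  rcases Nat.even_or_odd i with hi | hi
  · rw [hi.neg_one_pow, hi.neg_one_pow, one_mul, one_mul]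
  · rw [hi.neg_one_pow, hi.neg_one_pow, neg_one_mul, neg_one_mul, ip_neg_left]

private theorem hom_add {Q : PSH I} {n : ℕ} {z w : Q.R} (hz : Q.Hom n z) (hw : Q.Hom n w) :
    Q.Hom n (z + w) := by
  intro v hv
  rw [co_add] at hv
  by_cases h : Q.co z v = 0
  · rw [h, zero_add] at hv
    exact hw v hv
  · exact hz v h

private theorem hom_neg {Q : PSH I} {n : ℕ} {z : Q.R} (hz : Q.Hom n z) : Q.Hom n (-z) := by
  intro v hv
  rw [co_neg] at hv
  exact hz v (neg_ne_zero.1 hv)

private theorem hom_zero {Q : PSH I} {n : ℕ} : Q.Hom n (0 : Q.R) := by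
  intro v hv
  exact absurd (co_zero v) hv

private theorem hom_sgn {Q : PSH I} {n : ℕ} {z : Q.R} (hz : Q.Hom n z) (i : ℕ) :
    Q.Hom n ((-1 : Q.R) ^ i * z) := by
  rcases Nat.even_or_odd i with hi | hi
  · rw [hi.neg_one_pow, one_mul]
    exact hz
  · rw [hi.neg_one_pow, neg_one_mul]
    exact hom_neg hz

private theorem hom_sum {Q : PSH I} {n : ℕ} (s : Finset ℕ) {f : ℕ → Q.R}
    (h : ∀ i ∈ s, Q.Hom n (f i)) : Q.Hom n (∑ i ∈ s, f i) := by
  induction s using Finset.induction_on with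
  | empty => simpa using hom_zero
  | insert a s ha ih =>
    rw [Finset.sum_insert ha]
    exact hom_add (h a (Finset.mem_insert_self a s)) (ih fun i hi => h i (Finset.mem_insert_of_mem hi))

private theorem el_inj {Q : PSH I} {v w : I} (h : Q.el v = Q.el w) : v = w := by
  have h1 : Q.co (Q.el v) v = Q.co (Q.el w) v := by rw [h]
  rw [co_el, co_el, if_pos rfl] at h1
  by_contra h2
  rw [if_neg h2] at h1
  exact one_ne_zero h1

private theorem co_one_mul {Q : PSH I} (a b : Q.R) :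
    Q.co (a * b) Q.one = Q.co a Q.one * Q.co b Q.one := by
  induction a using R_induction with
  | h0 => rw [zero_mul, co_zero, zero_mul]
  | h2 z w hz hw => rw [add_mul, co_add, hz, hw, co_add, add_mul]
  | h3 z hz => rw [neg_mul, co_neg, hz, co_neg, neg_mul]
  | h1 v =>
    induction b using R_induction with
    | h0 => rw [mul_zero, co_zero, mul_zero]
    | h2 z w hz hw => rw [mul_add, co_add, hz, hw, co_add, mul_add]
    | h3 z hz => rw [mul_neg, co_neg, hz, co_neg, mul_neg]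
    | h1 w =>
      rw [co_mul_el, co_el, co_el]
      by_cases hv : v = Q.one
      · subst hv
        rw [Q.m_one, if_pos rfl, one_mul]
        split_ifs <;> simp_all
      · rw [if_neg fun h => hv h.symm, zero_mul]
        by_contra h
        have h1 := Q.m_deg Q.one v w (fun h0 => h (by rw [h0]; rfl))
        rw [(Q.deg_zero Q.one).2 rfl] at h1
        exact hv ((Q.deg_zero v).1 (by omega))

/-- reindexing a sum over four indices -/
private theorem reindex (n : ℕ) (F : ℕ → ℕ → ℕ → ℕ → ℤ) :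
    ∑ i ∈ antidiagonal n, ∑ k ∈ antidiagonal i.1, ∑ l ∈ antidiagonal i.2,
      F k.1 k.2 l.1 l.2 =
    ∑ p ∈ antidiagonal n, ∑ k ∈ antidiagonal p.1, ∑ l ∈ antidiagonal p.2,
      F k.1 l.1 k.2 l.2 := by
  have key : ∀ G : ℕ → ℕ → ℕ → ℕ → ℤ, ∑ i ∈ antidiagonal n, ∑ k ∈ antidiagonal i.1,
      ∑ l ∈ antidiagonal i.2, G k.1 k.2 l.1 l.2 =
      ∑ t ∈ ((Finset.range (n + 1) ×ˢ Finset.range (n + 1)) ×ˢ
        (Finset.range (n + 1) ×ˢ Finset.range (n + 1))).filter
        (fun t => t.1.1 + t.1.2 + (t.2.1 + t.2.2) = n), G t.1.1 t.1.2 t.2.1 t.2.2 := by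
    intro G
    simp_rw [← Finset.sum_product']
    rw [Finset.sum_sigma']
    refine Finset.sum_bij' (fun a _ => a.2) (fun b _ => ⟨(b.1.1 + b.1.2, b.2.1 + b.2.2), b⟩) ?_ ?_ ?_ ?_ ?_
    · rintro ⟨⟨a1, a2⟩, ⟨b1, b2⟩, ⟨c1, c2⟩⟩ h
      simp only [Finset.mem_sigma, Finset.HasAntidiagonal.mem_antidiagonal, Finset.mem_product, Finset.mem_filter,
        Finset.mem_range] at h ⊢
      omega
    · rintro ⟨⟨b1, b2⟩, ⟨c1, c2⟩⟩ h
      simp only [Finset.mem_sigma, Finset.HasAntidiagonal.mem_antidiagonal, Finset.mem_product, Finset.mem_filter,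
        Finset.mem_range] at h ⊢
      exact ⟨h.2, trivial, trivial⟩
    · rintro ⟨⟨a1, a2⟩, ⟨b1, b2⟩, ⟨c1, c2⟩⟩ h
      simp only [Finset.mem_sigma, Finset.HasAntidiagonal.mem_antidiagonal, Finset.mem_product] at h
      obtain ⟨h1, h2, h3⟩ := h
      simp only [h2, h3]
    · rintro ⟨⟨b1, b2⟩, ⟨c1, c2⟩⟩ h
      rfl
    · rintro ⟨⟨a1, a2⟩, ⟨b1, b2⟩, ⟨c1, c2⟩⟩ h
      rfl
  rw [key F, key fun k k' l l' => F k l k' l']
  refine Finset.sum_bij' (fun t _ => ((t.1.1, t.2.1), (t.1.2, t.2.2)))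
    (fun t _ => ((t.1.1, t.2.1), (t.1.2, t.2.2))) ?_ ?_ ?_ ?_ ?_
  · rintro ⟨⟨b1, b2⟩, ⟨c1, c2⟩⟩ h
    simp only [Finset.mem_product, Finset.mem_filter, Finset.mem_range] at h ⊢
    omega
  · rintro ⟨⟨b1, b2⟩, ⟨c1, c2⟩⟩ h
    simp only [Finset.mem_product, Finset.mem_filter, Finset.mem_range] at h ⊢
    omega
  · rintro ⟨⟨b1, b2⟩, ⟨c1, c2⟩⟩ h
    rfl
  · rintro ⟨⟨b1, b2⟩, ⟨c1, c2⟩⟩ h
    rfl
  · rintro ⟨⟨b1, b2⟩, ⟨c1, c2⟩⟩ h
    rfl

section main

variable {ρ : I} {x : ℕ → I} (hρ : P.Cusp ρ) (x0 : x 0 = P.one)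
  (xd : ∀ n, P.deg (x n) = n * P.deg ρ) (gl : P.GLike x)

/-- `Y n` -/
private def YY (P : PSHX I) (x : ℕ → I) (n : ℕ) : P.R := Ys (fun i => P.el (x i)) n

private theorem YY_zero : YY P x 0 = 1 := Ys_zero _

include x0 in
private theorem YY_rel (n : ℕ) (hn : 1 ≤ n) :
    ∑ i ∈ Finset.range (n + 1), (-1 : P.R) ^ i * (P.el (x i) * YY P x (n - i)) = 0 :=
  Ys_rel _ (by rw [x0]; rfl) n hn

include xd in
private theorem YY_hom (n : ℕ) : P.Hom (n * P.deg ρ) (YY P x n) := by
  induction n using Nat.strong_induction_on with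
  | _ n ih =>
    rcases n with _ | n
    · rw [YY_zero, Nat.zero_mul]
      exact hom_one
    · rw [YY, Ys_succ]
      refine hom_sum _ fun i hi => hom_sgn ?_ i
      have hi' : i < n + 1 := Finset.mem_range.1 hi
      have h1 := hom_mul (hom_el (P := P.toPSH) (x (i + 1))) (ih (n - i) (by omega))
      rw [xd (i + 1), ← Nat.add_mul] at h1
      have h2 : i + 1 + (n - i) = n + 1 := by omega
      rw [h2] at h1
      exact h1

include x0 in
/-- the relation paired with `a` -/
private theorem YY_rel_ip (a : P.R) (n : ℕ) (hn : 1 ≤ n) :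
    ∑ k ∈ antidiagonal n, (-1) ^ k.1 * P.ip (YY P x k.2) (P.perp (x k.1) a) = 0 := by
  have h1 := congrArg (fun z => P.ip z a) (YY_rel (P := P) x0 n hn)
  simp only [ip_sum_left, ip_zero_left] at h1
  rw [Finset.Nat.sum_antidiagonal_eq_sum_range_succ
    (fun k l => (-1) ^ k * P.ip (YY P x l) (P.perp (x k) a)) n, ← h1]
  refine Finset.sum_congr rfl fun i _ => ?_
  rw [ip_sgn, ip_el_mul]

include hρ x0 xd gl in
/-- (1) -/
private theorem YY_mul (n : ℕ) (a b : P.R) :
    P.ip (YY P x n) (a * b) =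
      ∑ k ∈ antidiagonal n, P.ip (YY P x k.1) a * P.ip (YY P x k.2) b := by
  induction n using Nat.strong_induction_on generalizing a b with
  | _ n ih =>
    rcases Nat.eq_zero_or_pos n with rfl | hn
    · simp only [Finset.Nat.antidiagonal_zero, Finset.sum_singleton, YY_zero]
      rw [one_def, ip_el_left, ip_el_left, ip_el_left]
      exact co_one_mul a b
    · have inj : Function.Injective x := inj_of_deg hρ xd
      have h1 := YY_rel_ip (P := P) x0 (a * b) n hn
      -- the relation for `a * b`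
      have h2 : ∀ k ∈ antidiagonal n, (-1 : ℤ) ^ k.1 * P.ip (YY P x k.2) (P.perp (x k.1) (a * b)) =
          (if k.1 = 0 then P.ip (YY P x n) (a * b) -
            ∑ l ∈ antidiagonal n, P.ip (YY P x l.1) a * P.ip (YY P x l.2) b else 0) +
          ∑ i ∈ antidiagonal k.1, ∑ l ∈ antidiagonal k.2, ((-1 : ℤ) ^ i.1 * P.ip (YY P x l.1) (P.perp (x i.1) a)) *
            ((-1 : ℤ) ^ i.2 * P.ip (YY P x l.2) (P.perp (x i.2) b)) := by
        rintro ⟨k, m⟩ hk
        rw [Finset.HasAntidiagonal.mem_antidiagonal] at hk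
        simp only at hk ⊢
        rcases Nat.eq_zero_or_pos k with rfl | hk0
        · rw [zero_add] at hk
          subst hk
          simp only [pow_zero, one_mul, if_true, Finset.Nat.antidiagonal_zero, Finset.sum_singleton,
            x0, perp_one]
          ring
        · rw [if_neg (by omega), zero_add, glike_perp_mul gl inj k a b, ip_sum_right,
            Finset.mul_sum, Finset.Nat.sum_antidiagonal_eq_sum_range_succ_mk]
          refine Finset.sum_congr rfl fun i hi => ?_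
          have hi' : i < k + 1 := Finset.mem_range.1 hi
          rw [ih m (by omega), Finset.mul_sum]
          refine Finset.sum_congr rfl fun l _ => ?_
          have h3 : (-1 : ℤ) ^ k = (-1) ^ i * (-1) ^ (k - i) := by
            rw [← pow_add]
            congr 1
            omega
          rw [h3]
          ring
      rw [Finset.sum_congr rfl h2, Finset.sum_add_distrib] at h1
      have h4 : ∑ k ∈ antidiagonal n, (if k.1 = 0 then P.ip (YY P x n) (a * b) -
            ∑ l ∈ antidiagonal n, P.ip (YY P x l.1) a * P.ip (YY P x l.2) b else 0) =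
          P.ip (YY P x n) (a * b) - ∑ l ∈ antidiagonal n, P.ip (YY P x l.1) a * P.ip (YY P x l.2) b := by
        rw [Finset.sum_eq_single (0, n)]
        · rw [if_pos rfl]
        · rintro ⟨k, m⟩ hk hne
          rw [Finset.HasAntidiagonal.mem_antidiagonal] at hk
          refine if_neg fun h => hne ?_
          simp only at hk h
          rw [h] at hk ⊢
          rw [← hk, zero_add]
        · intro h
          exact absurd (Finset.HasAntidiagonal.mem_antidiagonal.2 (zero_add n)) h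
      rw [h4, reindex n fun i i' l l' => ((-1 : ℤ) ^ i * P.ip (YY P x l) (P.perp (x i) a)) *
            ((-1 : ℤ) ^ i' * P.ip (YY P x l') (P.perp (x i') b))] at h1
      have h5 : ∀ p ∈ antidiagonal n, ∑ k ∈ antidiagonal p.1, ∑ l ∈ antidiagonal p.2,
          ((-1 : ℤ) ^ k.1 * P.ip (YY P x k.2) (P.perp (x k.1) a)) *
            ((-1 : ℤ) ^ l.1 * P.ip (YY P x l.2) (P.perp (x l.1) b)) = 0 := by
        rintro ⟨p, q⟩ hp
        rw [Finset.HasAntidiagonal.mem_antidiagonal] at hp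
        simp only at hp ⊢
        rw [← Finset.sum_mul_sum]
        rcases Nat.eq_zero_or_pos p with rfl | hp0
        · rw [YY_rel_ip (P := P) x0 b q (by omega), mul_zero]
        · rw [YY_rel_ip (P := P) x0 a p hp0, zero_mul]
      rw [Finset.sum_eq_zero h5] at h1
      linarith

end main

section numbers

variable {ρ : I} {x : ℕ → I} (hρ : P.Cusp ρ) (x0 : x 0 = P.one)
  (xd : ∀ n, P.deg (x n) = n * P.deg ρ) (gl : P.GLike x)

include x0 in
private theorem YY_one : YY P x 1 = P.el (x 1) := by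
  have h := YY_rel (P := P) x0 1 le_rfl
  rw [Finset.sum_range_succ, Finset.sum_range_one] at h
  simp only [pow_zero, one_mul, Nat.sub_zero, Nat.sub_self, YY_zero, mul_one, pow_one,
    neg_one_mul, x0] at h
  rw [← one_def, one_mul] at h
  exact add_neg_eq_zero.1 h

include hρ x0 xd gl in
/-- (2) -/
private theorem cc_rec (n : ℕ) (hn : 1 ≤ n) :
    ∑ i ∈ Finset.range (n + 1), (-1) ^ i * P.ip (P.el (x (n - i))) (YY P x (n - i)) = 0 := by
  have inj : Function.Injective x := inj_of_deg hρ xd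
  have h1 := YY_rel_ip (P := P) x0 (P.el (x n)) n hn
  rw [Finset.Nat.sum_antidiagonal_eq_sum_range_succ_mk] at h1
  rw [← h1]
  refine Finset.sum_congr rfl fun i hi => ?_
  have hi' : i ≤ n := Nat.lt_succ_iff.1 (Finset.mem_range.1 hi)
  simp only
  rw [glike_perp_self gl inj hi', ip_comm]

include hρ x0 xd gl in
private theorem cc_zero (n : ℕ) (hn : 2 ≤ n) : P.ip (P.el (x n)) (YY P x n) = 0 :=
  rec_zero (c := fun n => P.ip (P.el (x n)) (YY P x n)) (cc_rec hρ x0 xd gl) n hn

include x0 in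
private theorem cc_0 : P.ip (P.el (x 0)) (YY P x 0) = 1 := by
  rw [YY_zero, one_def, ip_el_left, co_el, x0, if_pos rfl]

include hρ x0 xd gl in
private theorem cc_1 : P.ip (P.el (x 1)) (YY P x 1) = 1 :=
  (rec_one (c := fun n => P.ip (P.el (x n)) (YY P x n)) (cc_rec hρ x0 xd gl)).trans (cc_0 x0)

include hρ x0 xd gl in
/-- (3) -/
private theorem nu (n : ℕ) : P.ip (YY P x n) (YY P x n) = 1 := by
  induction n with
  | zero => rw [YY_zero, one_def, ip_el_left, co_el, if_pos rfl]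
  | succ n ih =>
    have h1 := congrArg (fun z => P.ip (YY P x (n + 1)) z) (YY_rel (P := P) x0 (n + 1) (by omega))
    simp only [ip_sum_right, ip_zero_right] at h1
    have h2 : ∀ i ∈ Finset.range (n + 1 + 1),
        P.ip (YY P x (n + 1)) ((-1 : P.R) ^ i * (P.el (x i) * YY P x (n + 1 - i))) =
        (-1) ^ i * (P.ip (P.el (x i)) (YY P x i) * P.ip (YY P x (n + 1 - i)) (YY P x (n + 1 - i))) := by
      intro i hi
      have hi' : i ≤ n + 1 := Nat.lt_succ_iff.1 (Finset.mem_range.1 hi)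
      rw [ip_comm, ip_sgn, ip_comm, YY_mul hρ x0 xd gl,
        Finset.Nat.sum_antidiagonal_eq_sum_range_succ_mk, Finset.sum_eq_single i]
      · rw [ip_comm (YY P x i)]
      · intro j _ hj
        simp only
        rw [ip_of_hom (YY_hom xd j) (hom_el (x i)), zero_mul]
        rw [xd]
        exact fun h => hj (Nat.eq_of_mul_eq_mul_right (deg_pos hρ) h)
      · intro h
        exact absurd hi h
    rw [Finset.sum_congr rfl h2, Finset.sum_range_succ', Finset.sum_range_succ'] at h1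
    rw [Finset.sum_eq_zero] at h1
    · simp only [zero_add, pow_one, pow_zero, Nat.sub_zero, one_mul] at h1
      rw [cc_0 x0, cc_1 hρ x0 xd gl] at h1
      have h3 : n + 1 - 1 = n := by omega
      rw [h3, ih] at h1
      linarith
    · intro i _
      rw [cc_zero hρ x0 xd gl (i + 1 + 1) (by omega)]
      ring

include hρ x0 xd gl in
/-- (4) -/
private theorem ip_pow (x1 : x 1 = ρ) (n : ℕ) : P.ip (YY P x n) (P.el ρ ^ n) = 1 := by
  induction n with
  | zero => rw [YY_zero, pow_zero, one_def, ip_el_left, co_el, if_pos rfl]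
  | succ n ih =>
    rw [pow_succ, YY_mul hρ x0 xd gl, Finset.Nat.sum_antidiagonal_eq_sum_range_succ_mk,
      Finset.sum_eq_single n]
    · have h3 : n + 1 - n = 1 := by omega
      simp only [h3]
      rw [ih, YY_one x0, x1, ip_el_left, co_el, if_pos rfl, one_mul]
    · intro j _ hj
      simp only
      rw [ip_of_hom (YY_hom xd j) (hom_pow (hom_el ρ) n), zero_mul]
      exact fun h => hj (Nat.eq_of_mul_eq_mul_right (deg_pos hρ) h)
    · intro h
      exact absurd (Finset.mem_range.2 (by omega)) h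

end numbers

private theorem dlR_sum (s : Finset ℕ) (f : ℕ → P.R) : P.dlR (∑ i ∈ s, f i) = ∑ i ∈ s, P.dlR (f i) := by
  induction s using Finset.induction_on with
  | empty => simpa using dlR_zero
  | insert a s ha ih => rw [Finset.sum_insert ha, Finset.sum_insert ha, dlR_add, ih]

theorem exists_xy (P : PSHX I) {ρ : I} (hρ : P.Cusp ρ) : ∃ x y : ℕ → I, XY P ρ x y := by
  obtain ⟨x, x0, x1, xd, xdl, xco, gl⟩ := exists_x P hρ
  have inj : Function.Injective x := inj_of_deg hρ xd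
  have hv : ∀ n, ∃ v, YY P x n = P.el v := by
    intro n
    obtain ⟨v, hv | hv⟩ := ip_self_eq_one (nu hρ x0 xd gl n)
    · exact ⟨v, hv⟩
    · exfalso
      have h1 := ip_pow hρ x0 xd gl x1 n
      have h2 := pos_pow (pos_el (P := P.toPSH) ρ) n v
      rw [hv, ip_neg_left, ip_el_left] at h1
      linarith
  choose y hy using hv
  have yd : ∀ n, P.deg (y n) = n * P.deg ρ := by
    intro n
    refine YY_hom xd n (y n) ?_
    rw [hy, co_el, if_pos rfl]
    exact one_ne_zero
  have yinj : Function.Injective y := inj_of_deg hρ yd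
  have rel : ∀ n, 1 ≤ n → ∑ i ∈ Finset.range (n + 1),
      (-1 : P.R) ^ i * (P.el (x i) * P.el (y (n - i))) = 0 := by
    intro n hn
    have h := YY_rel (P := P) x0 n hn
    simpa only [hy] using h
  have yco : ∀ n, P.co (P.el ρ ^ n) (y n) = 1 := by
    intro n
    have h1 := ip_pow hρ x0 xd gl x1 n
    rwa [hy, ip_el_left] at h1
  refine ⟨x, y, ⟨hρ, x0, x1, ?_, ?_, xd, yd, xco, ?_, gl, ?_, xdl, ?_, rel, ?_⟩⟩
  · exact el_inj (Q := P.toPSH) (by rw [← hy 0, YY_zero]; rfl)
  · exact el_inj (Q := P.toPSH) (by rw [← hy 1, YY_one x0, x1])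
  · intro n
    rw [yco n]
    exact one_ne_zero
  · -- group like
    intro n a b
    have h1 := YY_mul hρ x0 xd gl n (P.el a) (P.el b)
    rw [hy, ip_el_left, co_mul_el, Finset.Nat.sum_antidiagonal_eq_sum_range_succ_mk] at h1
    simp only [hy, ip_el_left, co_el] at h1
    by_cases h : ∃ i, i ≤ n ∧ a = y i ∧ b = y (n - i)
    · rw [if_pos h]
      obtain ⟨i, hi, rfl, rfl⟩ := h
      rw [Finset.sum_eq_single i] at h1
      · rw [if_pos rfl, if_pos rfl, one_mul] at h1
        exact_mod_cast h1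
      · intro j _ hj
        rw [if_neg (fun h => hj (yinj h)), zero_mul]
      · intro h
        exact absurd (Finset.mem_range.2 (by omega)) h
    · rw [if_neg h]
      rw [Finset.sum_eq_zero] at h1
      · exact_mod_cast h1
      · intro i hi
        have hi' : i ≤ n := Nat.lt_succ_iff.1 (Finset.mem_range.1 hi)
        by_cases h2 : y i = a
        · rw [if_neg (c := y (n - i) = b) (fun h3 => h ⟨i, hi', h2.symm, h3.symm⟩), mul_zero]
        · rw [if_neg h2, zero_mul]
  · -- the Whittaker functional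
    intro n hn
    have h1 : ∀ n, 1 ≤ n → ∑ i ∈ Finset.range (n + 1), (-1) ^ i * ((P.dl (y (n - i)) : ℕ) : ℤ) = 0 := by
      intro n hn
      have h2 := congrArg P.dlR (rel n hn)
      rw [dlR_sum, dlR_zero] at h2
      rw [← h2]
      refine Finset.sum_congr rfl fun i _ => ?_
      rw [dlR_mul, dlR_mul, dlR_el, dlR_el, xdl, dlR_pow, dlR_neg, dlR_one]
      simp
    have h3 := rec_zero (c := fun n => ((P.dl (y n) : ℕ) : ℤ)) h1 n hn
    exact_mod_cast h3
  · intro n hn h
    have h1 := cc_zero hρ x0 xd gl n hn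
    rw [hy, ip_el_left, co_el, if_pos h] at h1
    exact one_ne_zero h1

end

end ParkerGL
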