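import Pool.Agent.ParkerGL.C05

/-!
# MP_6c3636_al, GL_n(q), module C06: `R(ρ)` is generated by the `y n` (helper7)

Let `XY P ρ x y`, `X n = el (x n)`, `Y n = el (y n)`. For `γ : Fin r → ℕ` (a finitely supported function)
let `X γ = ∏ X (γ i)`. For `W : R` let `Ψ W = ∑_γ ip W (X γ) t^γ`, a polynomial in `r` variables over `ℤ`
(only finitely many `γ` contribute: `deg ρ > 0` and the degrees).

(1) `Ψ` is a ring homomorphism `P.R →+* MvPolynomial (Fin r) ℤ`: `ip (W * W') (X γ) =
∑_{α + β = γ} ip W (X α) * ip W' (X β)`. For this use lists (or `Fin r` with `Fin.prod_univ_succ`) and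
induct on `r`: `ip (W * W') (X j * Z) = ip (perp (x j) (W * W')) Z = ∑_i ip (perp (x i) W *
perp (x (j - i)) W') Z` (`ip_el_mul`, `glike_perp_mul`).
(2) `Ψ (Y b)` is the elementary symmetric polynomial `e_b`: `ip (Y b) (X γ) = ∏ ip (Y (γ i)) (X (γ i))` if
`∑ γ i = b` (and `0` otherwise) by `glike_perp_self` for `y`
(`ip (Y b) (X j * Z) = ip (perp (x j) (Y b)) Z` and `perp (x j) (Y b) = Y (b - j)` if `x j = y j`, i.e.
`j ≤ 1`, and `0` otherwise), and this is `1` if all `γ i ≤ 1` and `0` otherwise.
(3) `Ψ W` is symmetric, as `R` is commutative.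
(4) Let `v` be a constituent of `el ρ ^ n`, `r = n`. By the fundamental theorem
(`MvPolynomial.esymmAlgEquiv`, or `MvPolynomial.esymmAlgHom` surjective) `Ψ (el v) = p (e_1, …, e_n)` with
`p : MvPolynomial (Fin n) ℤ`. Put `a = p (Y 1, …, Y n)` (`MvPolynomial.aeval`), `b = el v - a`: `Ψ b = 0`, so
`ip b (X γ) = 0` for all `γ : Fin n → ℕ`. Let `a'` be the component of `a` of degree `n * deg ρ`
(the sum of the monomials of `p` of weight `n`, each is a product of `Y`'s), `b' = el v - a'` is the
component of `b`. Then `ip b' (X γ) = 0` for all `γ : Fin n → ℕ` (both sides are `0` if the weight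
of `γ` is not `n`).
(5) All products `X i₁ ⋯ X i_k` with all `i_j ≥ 1` and sum `n` have at most `n` factors, so they are
`X γ`'s. Each `Y i` is an integral polynomial in `X 1, …, X i`, homogeneous of weight `i` (`rel` and
induction), so `b'` is orthogonal to all products `Y i₁ ⋯ Y i_k` of weight `n`, in particular to `a'` and to
`el ρ ^ n = (Y 1) ^ n`. So `1 = ip (el v) (el v) = ip a' a' + ip b' b'`, hence `a' = 0` or `b' = 0`
(`ip_self_nonneg`, `ip_self_eq_zero`). If `a' = 0` then `ip (el v) (el ρ ^ n) = ip b' (el ρ ^ n) = 0`,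
contradiction. So `el v = a'`.

`ip_prod_y`: `ip (Y i * Z) (Y N) = ip Z (perp (y i) (Y N)) = ip Z (Y (N - i))`.
-/

namespace ParkerGL

noncomputable section

open Classical

variable {I : Type} {P : PSHX I}

namespace C06_aux

/-- the product of the `z i` over a list -/
def PR (P : PSH I) (z : ℕ → I) (l : List ℕ) : P.R := (l.map fun i => P.el (z i)).prod

theorem PR_nil (Q : PSH I) (z : ℕ → I) : PR Q z [] = 1 := rfl

theorem PR_cons (Q : PSH I) (z : ℕ → I) (j : ℕ) (l : List ℕ) :
    PR Q z (j :: l) = Q.el (z j) * PR Q z l := by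
  simp [PR]

theorem PR_perm (Q : PSH I) (z : ℕ → I) {l l' : List ℕ} (h : l.Perm l') :
    PR Q z l = PR Q z l' := by
  simp only [PR]
  exact (h.map _).prod_eq

theorem PR_append (Q : PSH I) (z : ℕ → I) (l l' : List ℕ) :
    PR Q z (l ++ l') = PR Q z l * PR Q z l' := by
  simp [PR]

theorem hom_neg {Q : PSH I} {x : Q.R} {n : ℕ} (hx : Q.Hom n x) : Q.Hom n (-x) := by
  intro v hv
  apply hx v
  intro h
  apply hv
  rw [co_neg, h, neg_zero]

theorem hom_add {Q : PSH I} {x y : Q.R} {n : ℕ} (hx : Q.Hom n x) (hy : Q.Hom n y) :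
    Q.Hom n (x + y) := by
  intro v hv
  rw [co_add] at hv
  by_cases h : Q.co x v = 0
  · apply hy v
    intro h'
    apply hv
    rw [h, h', add_zero]
  · exact hx v h

theorem hom_sub {Q : PSH I} {x y : Q.R} {n : ℕ} (hx : Q.Hom n x) (hy : Q.Hom n y) :
    Q.Hom n (x - y) := by
  rw [sub_eq_add_neg]
  exact hom_add hx (hom_neg hy)

theorem hom_zero {Q : PSH I} (n : ℕ) : Q.Hom n (0 : Q.R) := by
  intro v hv
  exact absurd (co_zero v) hv

/-- monomials in the `y i` with `k` factors and weight `n` -/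
def YM (P : PSH I) (y : ℕ → I) (k n : ℕ) : Set P.R :=
  {r | ∃ l : List ℕ, l.length = k ∧ l.sum = n ∧ r = PR P y l}

variable {ρ : I} {x y : ℕ → I}

theorem el_x0 (h : XY P ρ x y) : P.el (x 0) = 1 := by
  rw [h.x0]; rfl

theorem el_y0 (h : XY P ρ x y) : P.el (y 0) = 1 := by
  rw [h.y0]; rfl

theorem perp_x0 (h : XY P ρ x y) (z : P.R) : P.perp (x 0) z = z := by
  rw [h.x0]; exact perp_one z

theorem perp_x1_succ (h : XY P ρ x y) (b : ℕ) :
    P.perp (x 1) (P.el (y (b + 1))) = P.el (y b) := by
  rw [h.x1, ← h.y1]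
  exact glike_perp_self h.gly h.injy (Nat.le_add_left 1 b)

theorem perp_x1_zero (h : XY P ρ x y) : P.perp (x 1) (P.el (y 0)) = 0 := by
  apply glike_perp_ne h.gly
  intro i hi he
  have h1 : i = 0 := Nat.le_zero.mp hi
  subst h1
  have h2 := congrArg P.deg he
  rw [h.degx, h.degy] at h2
  have := deg_pos h.cusp
  omega

theorem perp_x2 (h : XY P ρ x y) (j b : ℕ) : P.perp (x (j + 2)) (P.el (y b)) = 0 := by
  apply glike_perp_ne h.gly
  intro i _ he
  have h2 := congrArg P.deg he
  rw [h.degx, h.degy] at h2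
  have h3 : j + 2 = i := Nat.eq_of_mul_eq_mul_right (deg_pos h.cusp) h2
  subst h3
  exact h.ne (j + 2) (by omega) he

theorem perp_cons (h : XY P ρ x y) (j b : ℕ) (z : P.R) :
    P.perp (x (j + 1)) (P.el (y b) * z) =
      P.el (y b) * P.perp (x (j + 1)) z + P.perp (x 1) (P.el (y b)) * P.perp (x j) z := by
  rw [glike_perp_mul h.glx h.injx, Finset.sum_range_succ', Finset.sum_range_succ',
    Finset.sum_eq_zero]
  · rw [perp_x0 h, zero_add, add_comm]
    simp
  · intro i _
    rw [show i + 1 + 1 = i + 2 from rfl, perp_x2 h, zero_mul]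

theorem perp_big (h : XY P ρ x y) (l : List ℕ) :
    ∀ j, l.length < j → P.perp (x j) (PR P.toPSH y l) = 0 := by
  induction l with
  | nil =>
    intro j hj
    rw [PR_nil, ← el_y0 h]
    obtain ⟨m, rfl⟩ : ∃ m, j = m + 1 := ⟨j - 1, by simp at hj; omega⟩
    cases m with
    | zero => exact perp_x1_zero h
    | succ m => exact perp_x2 h m 0
  | cons b l ih =>
    intro j hj
    rw [List.length_cons] at hj
    obtain ⟨m, rfl⟩ : ∃ m, j = m + 1 := ⟨j - 1, by omega⟩
    rw [PR_cons, perp_cons h, ih (m + 1) (by omega), ih m (by omega), mul_zero, mul_zero, add_zero]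

theorem perp_exact (h : XY P ρ x y) (l : List ℕ) :
    P.perp (x l.length) (PR P.toPSH y (l.map (· + 1))) = PR P.toPSH y l := by
  induction l with
  | nil =>
    rw [List.length_nil, List.map_nil]
    exact perp_x0 h _
  | cons b l ih =>
    rw [List.length_cons, List.map_cons, PR_cons, PR_cons, perp_cons h,
      perp_big h _ _ (by simp), mul_zero, zero_add, perp_x1_succ h, ih]

theorem hom_PR {z : ℕ → I} {d : ℕ} (hz : ∀ n, P.deg (z n) = n * d) (l : List ℕ) :
    P.Hom (l.sum * d) (PR P.toPSH z l) := by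
  induction l with
  | nil =>
    rw [PR_nil, List.sum_nil, zero_mul]
    exact hom_one
  | cons b l ih =>
    rw [PR_cons, List.sum_cons, add_mul, ← hz]
    exact hom_mul (hom_el _) ih

theorem hom_YM (h : XY P ρ x y) {k n : ℕ} {a : P.R}
    (ha : a ∈ AddSubgroup.closure (YM P.toPSH y k n)) : P.Hom (n * P.deg ρ) a := by
  induction ha using AddSubgroup.closure_induction with
  | mem r hr =>
    obtain ⟨l, -, hs, rfl⟩ := hr
    rw [← hs]
    exact hom_PR h.degy l
  | zero => exact hom_zero _
  | add a b _ _ ha hb => exact hom_add ha hb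
  | neg a _ ha => exact hom_neg ha

theorem YM_succ (h : XY P ρ x y) {k n : ℕ} {a : P.R}
    (ha : a ∈ AddSubgroup.closure (YM P.toPSH y k n)) :
    a ∈ AddSubgroup.closure (YM P.toPSH y (k + 1) n) := by
  refine AddSubgroup.closure_mono ?_ ha
  rintro r ⟨l, hl, hs, rfl⟩
  refine ⟨0 :: l, by simp [hl], by simp [hs], ?_⟩
  rw [PR_cons, el_y0 h, one_mul]

theorem lift (h : XY P ρ x y) {k n : ℕ} {a : P.R}
    (ha : a ∈ AddSubgroup.closure (YM P.toPSH y k n)) :
    ∃ b ∈ AddSubgroup.closure (YM P.toPSH y k (n + k)),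
      P.perp (x k) b = a ∧ ∀ j, k < j → P.perp (x j) b = 0 := by
  induction ha using AddSubgroup.closure_induction with
  | mem r hr =>
    obtain ⟨l, hl, hs, rfl⟩ := hr
    refine ⟨PR P.toPSH y (l.map (· + 1)), AddSubgroup.subset_closure
      ⟨l.map (· + 1), by simp [hl], ?_, rfl⟩, ?_, ?_⟩
    · rw [← hl, ← hs]
      clear hl hs
      induction l with
      | nil => rfl
      | cons b l ih =>
        rw [List.map_cons, List.sum_cons, List.sum_cons, List.length_cons, ih]
        omega
    · rw [← hl]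
      exact perp_exact h l
    · intro j hj
      exact perp_big h _ _ (by simpa [hl] using hj)
  | zero => exact ⟨0, zero_mem _, map_zero _, fun j _ => map_zero _⟩
  | add a b _ _ ha hb =>
    obtain ⟨a', ha', h1, h2⟩ := ha
    obtain ⟨b', hb', h3, h4⟩ := hb
    refine ⟨a' + b', add_mem ha' hb', ?_, ?_⟩
    · rw [map_add, h1, h3]
    · intro j hj
      rw [map_add, h2 j hj, h4 j hj, add_zero]
  | neg a _ ha =>
    obtain ⟨a', ha', h1, h2⟩ := ha
    refine ⟨-a', neg_mem ha', ?_, ?_⟩
    · rw [map_neg, h1]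
    · intro j hj
      rw [map_neg, h2 j hj, neg_zero]

theorem ip_cons (Q : PSH I) (z : ℕ → I) (w : Q.R) (j : ℕ) (l : List ℕ) :
    Q.ip w (PR Q z (j :: l)) = Q.ip (Q.perp (z j) w) (PR Q z l) := by
  rw [PR_cons, ip_comm, ip_el_mul, ip_comm]

theorem deg_zero_eq (h : XY P ρ x y) (k : ℕ) {w : P.R} (hw : P.Hom (0 * P.deg ρ) w) :
    w ∈ AddSubgroup.closure (YM P.toPSH y k 0) := by
  have h1 : w = P.co w P.one • (1 : P.R) := by
    apply R_ext
    intro v
    rw [co_zsmul, one_def, co_el]
    by_cases hv : v = P.one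
    · rw [if_pos hv, mul_one, hv]
    · rw [if_neg hv, mul_zero]
      by_contra hne
      have := hw v hne
      rw [zero_mul] at this
      exact hv ((P.deg_zero v).mp this)
  rw [h1]
  refine zsmul_mem (AddSubgroup.subset_closure ?_) _
  refine ⟨List.replicate k 0, by simp, by simp, ?_⟩
  clear h1 hw
  induction k with
  | zero => rfl
  | succ k ih => rw [List.replicate_succ, PR_cons, el_y0 h, one_mul, ← ih]

theorem main (h : XY P ρ x y) (n : ℕ) : ∀ (k : ℕ) (w : P.R), P.Hom (n * P.deg ρ) w →
    (∀ l : List ℕ, l.sum = n → (∃ j ∈ l, k < j) → P.ip w (PR P.toPSH x l) = 0) →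
    ∃ a ∈ AddSubgroup.closure (YM P.toPSH y k n),
      ∀ l : List ℕ, l.sum = n → P.ip (w - a) (PR P.toPSH x l) = 0 := by
  induction n using Nat.strong_induction_on with
  | _ n IH =>
    rcases Nat.eq_zero_or_pos n with rfl | hn
    · intro k w hw _
      refine ⟨w, deg_zero_eq h k hw, ?_⟩
      intro l _
      rw [sub_self]
      exact ip_zero_left _
    · intro k
      induction k with
      | zero =>
        intro w _ h0
        refine ⟨0, zero_mem _, ?_⟩
        intro l hl
        rw [sub_zero]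
        refine h0 l hl ?_
        by_contra hne
        push Not at hne
        have : l.sum = 0 := List.sum_eq_zero (fun j hj => Nat.le_zero.mp (hne j hj))
        omega
      | succ k ih =>
        intro w hw h0
        by_cases hk : k + 1 ≤ n
        · -- reduce by `perp (x (k+1))`
          obtain ⟨m, rfl⟩ : ∃ m, n = m + (k + 1) := ⟨n - (k + 1), by omega⟩
          have hw' : P.Hom (m * P.deg ρ) (P.perp (x (k + 1)) w) := by
            intro v hv
            have h1 := hom_perp hw _ v hv
            rw [h.degx, add_mul m (k + 1)] at h1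
            omega
          obtain ⟨a', ha', hperp'⟩ := IH m (by omega) (k + 1) (P.perp (x (k + 1)) w) hw' (by
            intro l hl hj
            rw [← ip_cons]
            refine h0 _ (by rw [List.sum_cons, hl, add_comm]) ?_
            obtain ⟨j, hj, hjk⟩ := hj
            exact ⟨j, List.mem_cons_of_mem _ hj, hjk⟩)
          obtain ⟨a0, ha0, hp0, hp1⟩ := lift h ha'
          obtain ⟨a1, ha1, hperp1⟩ := ih (w - a0) (hom_sub hw (hom_YM h ha0)) (by
            intro l hl hj
            obtain ⟨j, hj, hjk⟩ := hj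
            have hperm : l.Perm (j :: l.erase j) := List.perm_cons_erase hj
            rw [PR_perm P.toPSH x hperm]
            have hs : l.sum = j + (l.erase j).sum := by
              rw [hperm.sum_eq, List.sum_cons]
            rcases Nat.lt_or_ge (k + 1) j with hjk' | hjk'
            · rw [ip_sub_left, ip_cons P.toPSH x a0, hp1 j hjk', ip_zero_left, sub_zero]
              refine h0 _ (by rw [← hperm.sum_eq, hl]) ⟨j, List.mem_cons_self, hjk'⟩
            · have hj1 : j = k + 1 := by omega
              subst hj1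
              rw [ip_cons, map_sub, hp0]
              exact hperp' _ (by omega))
          refine ⟨a0 + a1, add_mem ha0 (YM_succ h ha1), ?_⟩
          intro l hl
          rw [← sub_sub]
          exact hperp1 l hl
        · obtain ⟨a, ha, hperp⟩ := ih w hw (by
            intro l hl hj
            obtain ⟨j, hj, hjk⟩ := hj
            have : j ≤ l.sum := List.le_sum_of_mem hj
            omega)
          exact ⟨a, YM_succ h ha, hperp⟩

/-- the `x` monomials of weight `n` -/
def XM (P : PSH I) (x : ℕ → I) (n : ℕ) : Set P.R :=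
  {r | ∃ l : List ℕ, l.sum = n ∧ r = PR P x l}

theorem XM_mul (Q : PSH I) (x : ℕ → I) {a b : ℕ} {u v : Q.R}
    (hu : u ∈ AddSubgroup.closure (XM Q x a)) (hv : v ∈ AddSubgroup.closure (XM Q x b)) :
    u * v ∈ AddSubgroup.closure (XM Q x (a + b)) := by
  induction hu using AddSubgroup.closure_induction with
  | mem r hr =>
    obtain ⟨l, hl, rfl⟩ := hr
    induction hv using AddSubgroup.closure_induction with
    | mem s hs =>
      obtain ⟨l', hl', rfl⟩ := hs
      exact AddSubgroup.subset_closure ⟨l ++ l', by rw [List.sum_append, hl, hl'],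
        (PR_append Q x l l').symm⟩
    | zero => rw [mul_zero]; exact zero_mem _
    | add s t _ _ hs ht => rw [mul_add]; exact add_mem hs ht
    | neg s _ hs => rw [mul_neg]; exact neg_mem hs
  | zero => rw [zero_mul]; exact zero_mem _
  | add s t _ _ hs ht => rw [add_mul]; exact add_mem hs ht
  | neg s _ hs => rw [neg_mul]; exact neg_mem hs

theorem y_mem (h : XY P ρ x y) (n : ℕ) :
    P.el (y n) ∈ AddSubgroup.closure (XM P.toPSH x n) := by
  induction n using Nat.strong_induction_on with
  | _ n IH =>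
    rcases Nat.eq_zero_or_pos n with rfl | hn
    · rw [el_y0 h]
      exact AddSubgroup.subset_closure ⟨[], rfl, rfl⟩
    · have h1 := h.rel n hn
      rw [Finset.sum_range_succ'] at h1
      rw [pow_zero, one_mul, el_x0 h, one_mul, Nat.sub_zero] at h1
      have h2 : P.el (y n) = - ∑ i ∈ Finset.range n,
          (-1 : P.R) ^ (i + 1) * (P.el (x (i + 1)) * P.el (y (n - (i + 1)))) :=
        (neg_eq_of_add_eq_zero_right h1).symm
      rw [h2]
      refine neg_mem (sum_mem ?_)
      intro i hi
      have hi' := Finset.mem_range.mp hi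
      have h3 : P.el (x (i + 1)) * P.el (y (n - (i + 1))) ∈
          AddSubgroup.closure (XM P.toPSH x n) := by
        have h4 := XM_mul P.toPSH x (a := i + 1) (b := n - (i + 1))
          (AddSubgroup.subset_closure ⟨[i + 1], by simp, by rw [PR_cons, PR_nil, mul_one]⟩ :
            P.el (x (i + 1)) ∈ AddSubgroup.closure (XM P.toPSH x (i + 1)))
          (IH (n - (i + 1)) (by omega))
        rwa [show i + 1 + (n - (i + 1)) = n by omega] at h4
      rcases neg_one_pow_eq_or P.R (i + 1) with h5 | h5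
      · rw [h5, one_mul]; exact h3
      · rw [h5, neg_one_mul]; exact neg_mem h3

theorem PRy_mem (h : XY P ρ x y) (l : List ℕ) :
    PR P.toPSH y l ∈ AddSubgroup.closure (XM P.toPSH x l.sum) := by
  induction l with
  | nil => exact AddSubgroup.subset_closure ⟨[], rfl, rfl⟩
  | cons b l ih =>
    rw [PR_cons, List.sum_cons]
    exact XM_mul P.toPSH x (y_mem h b) ih

theorem YM_mem (h : XY P ρ x y) {k n : ℕ} {a : P.R}
    (ha : a ∈ AddSubgroup.closure (YM P.toPSH y k n)) :
    a ∈ AddSubgroup.closure (XM P.toPSH x n) := by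
  refine (AddSubgroup.closure_le _).mpr ?_ ha
  rintro r ⟨l, -, hs, rfl⟩
  rw [← hs]
  exact PRy_mem h l

theorem ip_XM {n : ℕ} {b : P.R} (hb : ∀ l : List ℕ, l.sum = n → P.ip b (PR P.toPSH x l) = 0)
    {a : P.R} (ha : a ∈ AddSubgroup.closure (XM P.toPSH x n)) : P.ip b a = 0 := by
  induction ha using AddSubgroup.closure_induction with
  | mem r hr =>
    obtain ⟨l, hl, rfl⟩ := hr
    exact hb l hl
  | zero => exact ip_zero_right _
  | add s t _ _ hs ht => rw [ip_add_right, hs, ht, add_zero]
  | neg s _ hs => rw [ip_neg_right, hs, neg_zero]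

theorem YM_ymon (h : XY P ρ x y) {k n : ℕ} {a : P.R}
    (ha : a ∈ AddSubgroup.closure (YM P.toPSH y k n)) :
    a ∈ AddSubgroup.closure {r : P.R | ∃ l : List ℕ, (∀ i ∈ l, 0 < i) ∧
      r = (l.map fun i => P.el (y i)).prod} := by
  refine AddSubgroup.closure_mono ?_ ha
  rintro r ⟨l, -, -, rfl⟩
  refine ⟨l.filter (fun i => decide (0 < i)), ?_, ?_⟩
  · intro i hi
    simpa using (List.mem_filter.mp hi).2
  · show PR P.toPSH y l = PR P.toPSH y (l.filter (fun i => decide (0 < i)))
    induction l with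
    | nil => rfl
    | cons b l ih =>
      rw [PR_cons]
      by_cases hb : 0 < b
      · rw [List.filter_cons_of_pos (by simpa using hb), PR_cons, ih]
      · rw [List.filter_cons_of_neg (by simpa using hb), ih]
        have hb0 : b = 0 := by omega
        rw [hb0, el_y0 h, one_mul]

end C06_aux

/-- the monomials in the `y i`, `i > 0` -/
def ymon (P : PSH I) (y : ℕ → I) : Set P.R :=
  {r | ∃ l : List ℕ, (∀ i ∈ l, 0 < i) ∧ r = (l.map fun i => P.el (y i)).prod}

theorem mem_closure_y {ρ : I} {x y : ℕ → I} (h : XY P ρ x y) {n : ℕ} {v : I}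
    (hv : P.co (P.el ρ ^ n) v ≠ 0) :
    P.el v ∈ AddSubgroup.closure (ymon P.toPSH y) := by
  have hρn : P.Hom (n * P.deg ρ) (P.el ρ ^ n) := hom_pow (hom_el ρ) n
  have hdeg : P.deg v = n * P.deg ρ := hρn v hv
  have hw : P.Hom (n * P.deg ρ) (P.el v) := by
    rw [← hdeg]
    exact hom_el v
  obtain ⟨a, ha, hperp⟩ := C06_aux.main h n n (P.el v) hw (by
    intro l hl hj
    obtain ⟨j, hj, hjk⟩ := hj
    have : j ≤ l.sum := List.le_sum_of_mem hj
    omega)
  have hpow : P.el ρ ^ n ∈ AddSubgroup.closure (C06_aux.XM P.toPSH x n) := by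
    refine AddSubgroup.subset_closure ⟨List.replicate n 1, by simp, ?_⟩
    simp only [C06_aux.PR, List.map_replicate, List.prod_replicate, h.x1]
  have h1 : P.ip (P.el v - a) a = 0 := C06_aux.ip_XM hperp (C06_aux.YM_mem h ha)
  have h2 : P.ip (P.el v - a) (P.el ρ ^ n) = 0 := C06_aux.ip_XM hperp hpow
  have h3 : P.ip (P.el v) (P.el v) = 1 := by
    rw [ip_el_left, co_el, if_pos rfl]
  have h4 : P.ip a a + P.ip (P.el v - a) (P.el v - a) = 1 := by
    have h5 : P.ip (P.el v - a) (P.el v - a) = P.ip (P.el v - a) (P.el v) := by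
      rw [ip_sub_right, h1, sub_zero]
    have h6 : P.ip a a = P.ip a (P.el v) := by
      have := h1
      rw [ip_sub_left, sub_eq_zero] at this
      rw [← this, ip_comm]
    rw [h5, h6, ← ip_add_left, add_sub_cancel, h3]
  have ha0 := ip_self_nonneg a
  have hb0 := ip_self_nonneg (P.el v - a)
  have hcase : P.ip a a = 0 ∨ P.ip (P.el v - a) (P.el v - a) = 0 := by
    omega
  rcases hcase with hc | hc
  · exfalso
    have haz := ip_self_eq_zero hc
    rw [haz, sub_zero, ip_el_left] at h2
    exact hv h2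
  · have hbz := ip_self_eq_zero hc
    rw [sub_eq_zero] at hbz
    rw [hbz]
    exact C06_aux.YM_ymon h ha

theorem ip_prod_y {ρ : I} {x y : ℕ → I} (h : XY P ρ x y) (l : List ℕ) :
    P.ip (l.map fun i => P.el (y i)).prod (P.el (y l.sum)) = 1 := by
  induction l with
  | nil =>
    rw [List.map_nil, List.prod_nil, List.sum_nil, h.y0, one_def, ip_el_left, co_el, if_pos rfl]
  | cons b l ih =>
    rw [List.map_cons, List.prod_cons, List.sum_cons, ip_el_mul,
      glike_perp_self h.gly h.injy (Nat.le_add_right b _), Nat.add_sub_cancel_left]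
    exact ih

end

end ParkerGL
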