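import Pool.Agent.ParkerGL.C06

/-!
# MP_6c3636_al, GL_n(q), module C07: derivatives, duality, parity (helper7)

* `P.der k x = ∑_{c ∈ lv k} dl c • perp c x`, the `k`-th derivative. `der_mul` from `perp_mul` and
  `dl_mul`: `der k (a * b) = ∑_{c ∈ lv k} dl c ∑_{p, r} m c p r • (perp p a * perp r b)`, sum over `c` first.
* `der_y`: `glike_perp_self`, `glike_perp_ne`; `dl (y i) = 0` for `i ≥ 2`, `dl (y 1) = dl ρ = 1`.
* `odR`, `barR` are ring homomorphisms by `od_mul`, `bar_m`. `bar_od`: strong induction on the degree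
  with `od_der`. `xy_unique`: `x n` is the only constituent of `el ρ ^ n` with `dl ≠ 0` (`dlR (el ρ ^ n) = 1`),
  and `el (y n)` is determined recursively by `rel`.
* `od_y`: induction on `n` with `od_der` (written with `der` in `od_eq_der`) and `der_y`.
* `od_sup`: `el v = ∑ a_j r_j` with `r_j ∈ ymon`, homogeneous of degree `n * deg ρ` (take the component of
  this degree, i.e. only lists with sum `n` contribute; or use the additive map
  `R → ℤ, x ↦ ip x (el (y n))` and `odR`: both `x ↦ (ip x (el (y n)) : ZMod 2)` and `x ↦ odR` of the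
  component of degree `n * deg ρ` of `x` are additive and agree on `ymon` by `ip_prod_y` and `od_y`).
  So `od v = ip (el v) (el (y n)) mod 2`, and if `v ≠ y n` this is `0`.
-/

namespace ParkerGL

noncomputable section

open Classical

variable {I : Type}

/-- the `k`-th derivative -/
def PSHX.der (P : PSHX I) (k : ℕ) : P.R →+ P.R :=
  ∑ c ∈ P.lv k, (P.dl c : ℤ) • P.perp c

/-- the parity of the dimension, as a map on `R` -/
def PSHX.odR (P : PSHX I) (x : P.R) : ZMod 2 :=
  (show I →₀ ℤ from x).sum fun v c => (c : ZMod 2) * P.od v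

/-- the duality on `R` -/
def PSHX.barR (P : PSHX I) (x : P.R) : P.R :=
  (show I →₀ ℤ from x).sum fun v c => (Finsupp.single (P.bar v) c : I →₀ ℤ)

variable {P : PSHX I}

namespace C07_aux

theorem sum_box {M : Type*} [AddCommMonoid M] (P : PSH I) (n : ℕ) (g : I → M) :
    ∑ p ∈ P.box n, g p = ∑ i ∈ Finset.range (n + 1), ∑ p ∈ P.lv i, g p := by
  unfold PSH.box
  rw [Finset.sum_biUnion]
  intro i _ j _ hij
  rw [Function.onFun, Finset.disjoint_left]
  intro v hv hv'
  exact hij (((P.mem_lv i v).1 hv).symm.trans ((P.mem_lv j v).1 hv'))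

theorem mem_box (P : PSH I) (n : ℕ) (v : I) : v ∈ P.box n ↔ P.deg v ≤ n := by
  unfold PSH.box
  rw [Finset.mem_biUnion]
  constructor
  · rintro ⟨i, hi, hv⟩
    rw [(P.mem_lv i v).1 hv]
    exact Nat.lt_succ_iff.1 (Finset.mem_range.1 hi)
  · intro h
    exact ⟨P.deg v, Finset.mem_range.2 (Nat.lt_succ_iff.2 h), (P.mem_lv _ v).2 rfl⟩

theorem el_inj {Q : PSH I} {v w : I} (h : Q.el v = Q.el w) : v = w := by
  have h1 := congrArg (fun x => Q.co x v) h
  simp only [co_el] at h1
  by_contra hne
  rw [if_neg hne] at h1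
  simp at h1

end C07_aux

open C07_aux

theorem der_apply (k : ℕ) (x : P.R) : P.der k x = ∑ c ∈ P.lv k, (P.dl c : ℤ) • P.perp c x := by
  unfold PSHX.der
  rw [AddMonoidHom.finsetSum_apply]
  rfl

theorem der_mul (k : ℕ) (a b : P.R) :
    P.der k (a * b) = ∑ i ∈ Finset.range (k + 1), P.der i a * P.der (k - i) b := by
  rw [der_apply]
  have h1 : ∀ c ∈ P.lv k, (P.dl c : ℤ) • P.perp c (a * b) =
      ∑ p ∈ P.box k, ∑ r ∈ P.box k, ((P.m c p r * P.dl c : ℕ) : ℤ) • (P.perp p a * P.perp r b) := by
    intro c hc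
    rw [perp_mul c a b (le_of_eq ((P.mem_lv k c).1 hc)), Finset.smul_sum]
    refine Finset.sum_congr rfl fun p _ => ?_
    rw [Finset.smul_sum]
    refine Finset.sum_congr rfl fun r _ => ?_
    rw [smul_smul]
    congr 1
    push_cast
    ring
  rw [Finset.sum_congr rfl h1, Finset.sum_comm]
  have h2 : ∀ p ∈ P.box k, ∑ c ∈ P.lv k, ∑ r ∈ P.box k,
      ((P.m c p r * P.dl c : ℕ) : ℤ) • (P.perp p a * P.perp r b) =
      ∑ r ∈ P.lv (k - P.deg p), ((P.dl p * P.dl r : ℕ) : ℤ) • (P.perp p a * P.perp r b) := by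
    intro p hp
    have hp' := (mem_box _ _ _).1 hp
    rw [Finset.sum_comm]
    have hsub : P.lv (k - P.deg p) ⊆ P.box k := by
      intro r hr
      rw [mem_box, (P.mem_lv _ r).1 hr]
      omega
    rw [← Finset.sum_subset hsub]
    · refine Finset.sum_congr rfl fun r hr => ?_
      have hr' := (P.mem_lv _ r).1 hr
      rw [← Finset.sum_smul]
      congr 1
      rw [P.dl_mul, show P.deg p + P.deg r = k by omega]
      push_cast
      rfl
    · intro r _ hr
      refine Finset.sum_eq_zero fun c hc => ?_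
      have hm : P.m c p r = 0 := by
        by_contra hne
        apply hr
        have h3 := P.m_deg _ _ _ hne
        rw [(P.mem_lv _ c).1 hc] at h3
        rw [P.mem_lv]
        omega
      rw [hm, zero_mul, Nat.cast_zero, zero_smul]
  rw [Finset.sum_congr rfl h2, sum_box]
  refine Finset.sum_congr rfl fun i _ => ?_
  rw [der_apply, der_apply, Finset.sum_mul]
  refine Finset.sum_congr rfl fun p hp => ?_
  rw [(P.mem_lv _ p).1 hp, Finset.mul_sum]
  refine Finset.sum_congr rfl fun r _ => ?_
  rw [smul_mul_smul_comm]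
  push_cast
  rfl

theorem der_zero (x : P.R) : P.der 0 x = x := by
  have h : P.lv 0 = {P.one} := by
    ext v
    rw [P.mem_lv, Finset.mem_singleton, P.deg_zero]
  rw [der_apply, h, Finset.sum_singleton, P.dl_one, perp_one, Nat.cast_one, one_smul]

theorem co_der (k : ℕ) (x : P.R) (a : I) :
    P.co (P.der k x) a = ∑ c ∈ P.lv k, (P.dl c : ℤ) * P.ip x (P.el a * P.el c) := by
  rw [der_apply, co_sum]
  refine Finset.sum_congr rfl fun c _ => ?_
  rw [co_zsmul, co_perp, mul_comm (P.el c)]

theorem pos_der {x : P.R} (hx : P.Pos x) (k : ℕ) : P.Pos (P.der k x) := by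
  intro a
  rw [der_apply, co_sum]
  refine Finset.sum_nonneg fun c _ => ?_
  rw [co_zsmul]
  exact mul_nonneg (Int.natCast_nonneg _) (pos_perp hx c a)

theorem der_y {ρ : I} {x y : ℕ → I} (h : XY P ρ x y) (n k : ℕ) :
    P.der k (P.el (y n)) = if k = 0 then P.el (y n) else
      if k = P.deg ρ ∧ 1 ≤ n then P.el (y (n - 1)) else 0 := by
  have hd := deg_pos h.cusp
  by_cases hk : k = 0
  · rw [if_pos hk, hk, der_zero]
  rw [if_neg hk, der_apply]
  by_cases hk' : k = P.deg ρ ∧ 1 ≤ n
  · rw [if_pos hk', Finset.sum_eq_single (y 1)]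
    · have h1 : P.dl (y 1) = 1 := by rw [h.y1, ← h.x1, h.dlx]
      rw [h1, Nat.cast_one, one_smul]
      exact glike_perp_self h.gly h.injy hk'.2
    · intro c hc hne
      have hc' := (P.mem_lv _ c).1 hc
      rw [glike_perp_ne h.gly, smul_zero]
      intro i _ hi
      apply hne
      rw [hi, h.degy, hk'.1] at hc'
      have hi1 : i = 1 := by
        rcases Nat.lt_trichotomy i 1 with h2 | h2 | h2
        · have : i = 0 := by omega
          rw [this, zero_mul] at hc'
          omega
        · exact h2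
        · nlinarith
      rw [hi, hi1]
    · intro hnot
      exfalso
      apply hnot
      rw [P.mem_lv, h.degy, one_mul, hk'.1]
  · rw [if_neg hk']
    refine Finset.sum_eq_zero fun c hc => ?_
    have hc' := (P.mem_lv _ c).1 hc
    by_cases hex : ∃ i, i ≤ n ∧ c = y i
    · obtain ⟨i, hi, rfl⟩ := hex
      rw [h.degy] at hc'
      rcases Nat.lt_trichotomy i 1 with h2 | h2 | h2
      · exfalso
        have : i = 0 := by omega
        rw [this, zero_mul] at hc'
        exact hk hc'.symm
      · exfalso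
        apply hk'
        subst h2
        exact ⟨by rw [← hc', one_mul], hi⟩
      · rw [h.dly i h2, Nat.cast_zero, zero_smul]
    · rw [glike_perp_ne h.gly, smul_zero]
      intro i hi hc2
      exact hex ⟨i, hi, hc2⟩

theorem odR_add (x y : P.R) : P.odR (x + y) = P.odR x + P.odR y := by
  unfold PSHX.odR
  refine Finsupp.sum_add_index' ?_ ?_
  · intro v
    simp
  · intro v c c'
    push_cast
    ring

/-- `odR` as an additive map -/
def C07_aux.odHom (P : PSHX I) : P.R →+ ZMod 2 := AddMonoidHom.mk' P.odR odR_add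

theorem C07_aux.odHom_apply (x : P.R) : odHom P x = P.odR x := rfl

theorem odR_neg (x : P.R) : P.odR (-x) = - P.odR x := by
  rw [← odHom_apply, map_neg, odHom_apply]

theorem odR_el (v : I) : P.odR (P.el v) = P.od v := by
  unfold PSHX.odR PSH.el
  rw [Finsupp.sum_single_index]
  · simp
  · simp

theorem odR_one : P.odR (1 : P.R) = 1 := by
  rw [one_def, odR_el, P.od_one]

theorem odR_mul (x y : P.R) : P.odR (x * y) = P.odR x * P.odR y := by
  induction x using R_induction with
  | h0 => rw [zero_mul, ← odHom_apply, map_zero, zero_mul]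
  | h2 x x' hx hx' => rw [add_mul, odR_add, hx, hx', odR_add, add_mul]
  | h3 x hx => rw [neg_mul, odR_neg, hx, odR_neg, neg_mul]
  | h1 a =>
    induction y using R_induction with
    | h0 => rw [mul_zero, ← odHom_apply 0, map_zero, mul_zero]
    | h2 x x' hx hx' => rw [mul_add, odR_add, hx, hx', odR_add, mul_add]
    | h3 x hx => rw [mul_neg, odR_neg, hx, odR_neg, mul_neg]
    | h1 b =>
      rw [el_mul, odR_el, odR_el, P.od_mul, ← odHom_apply, map_sum]
      refine Finset.sum_congr rfl fun v _ => ?_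
      rw [map_zsmul, odHom_apply, odR_el, zsmul_eq_mul]
      push_cast
      rfl

theorem barR_add (x y : P.R) : P.barR (x + y) = P.barR x + P.barR y := by
  unfold PSHX.barR
  refine Finsupp.sum_add_index' ?_ ?_
  · intro v
    exact Finsupp.single_zero _
  · intro v c c'
    exact Finsupp.single_add _ _ _

/-- `barR` as an additive map -/
def C07_aux.barHom (P : PSHX I) : P.R →+ P.R := AddMonoidHom.mk' P.barR barR_add

theorem C07_aux.barHom_apply (x : P.R) : barHom P x = P.barR x := rfl

theorem barR_neg (x : P.R) : P.barR (-x) = - P.barR x := by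
  rw [← barHom_apply, map_neg, barHom_apply]

theorem barR_el (v : I) : P.barR (P.el v) = P.el (P.bar v) := by
  unfold PSHX.barR PSH.el
  exact Finsupp.sum_single_index (Finsupp.single_zero _)

theorem bar_one : P.bar P.one = P.one := by
  rw [← P.deg_zero, P.bar_deg, P.deg_zero]

theorem barR_one : P.barR (1 : P.R) = 1 := by
  rw [one_def, barR_el, bar_one]

theorem barR_mul (x y : P.R) : P.barR (x * y) = P.barR x * P.barR y := by
  induction x using R_induction with
  | h0 => rw [zero_mul, ← barHom_apply, map_zero, zero_mul]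
  | h2 x x' hx hx' => rw [add_mul, barR_add, hx, hx', barR_add, add_mul]
  | h3 x hx => rw [neg_mul, barR_neg, hx, barR_neg, neg_mul]
  | h1 a =>
    induction y using R_induction with
    | h0 => rw [mul_zero, ← barHom_apply 0, map_zero, mul_zero]
    | h2 x x' hx hx' => rw [mul_add, barR_add, hx, hx', barR_add, mul_add]
    | h3 x hx => rw [mul_neg, barR_neg, hx, barR_neg, mul_neg]
    | h1 b =>
      rw [el_mul, barR_el, barR_el, el_mul, ← barHom_apply, map_sum, P.bar_deg, P.bar_deg]
      refine Finset.sum_nbij' P.bar P.bar ?_ ?_ ?_ ?_ ?_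
      · intro v hv
        rw [P.mem_lv] at hv ⊢
        rw [P.bar_deg, hv]
      · intro v hv
        rw [P.mem_lv] at hv ⊢
        rw [P.bar_deg, hv]
      · intro v _
        exact P.bar_bar v
      · intro v _
        exact P.bar_bar v
      · intro v _
        rw [map_zsmul, barHom_apply, barR_el, P.bar_m]

theorem barR_barR (x : P.R) : P.barR (P.barR x) = x := by
  induction x using R_induction with
  | h0 => rw [← barHom_apply, ← barHom_apply, map_zero, map_zero]
  | h2 x x' hx hx' => rw [barR_add, barR_add, hx, hx']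
  | h3 x hx => rw [barR_neg, barR_neg, hx]
  | h1 a => rw [barR_el, barR_el, P.bar_bar]

theorem co_barR (x : P.R) (v : I) : P.co (P.barR x) v = P.co x (P.bar v) := by
  induction x using R_induction with
  | h0 => rw [← barHom_apply, map_zero, co_zero, co_zero]
  | h2 x x' hx hx' => rw [barR_add, co_add, hx, hx', co_add]
  | h3 x hx => rw [barR_neg, co_neg, hx, co_neg]
  | h1 a =>
    rw [barR_el, co_el, co_el]
    by_cases h : v = P.bar a
    · rw [if_pos h, if_pos]
      rw [h, P.bar_bar]
    · rw [if_neg h, if_neg]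
      intro h'
      apply h
      rw [← h', P.bar_bar]

theorem C07_aux.bar_m' (v a b : I) : P.m (P.bar v) a b = P.m v (P.bar a) (P.bar b) := by
  have h := P.bar_m v (P.bar a) (P.bar b)
  rwa [P.bar_bar, P.bar_bar] at h

theorem bar_cusp {ρ : I} (h : P.Cusp ρ) : P.Cusp (P.bar ρ) := by
  refine ⟨?_, ?_⟩
  · intro h1
    apply h.1
    rw [← P.bar_bar ρ, h1, bar_one]
  · intro a b hm
    rw [bar_m'] at hm
    rcases h.2 _ _ hm with h1 | h1
    · left
      rw [← P.bar_bar a, h1, bar_one]
    · right
      rw [← P.bar_bar b, h1, bar_one]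

theorem bar_sup {S : Set I} {v : I} (h : P.Sup S v) : P.Sup (P.bar '' S) (P.bar v) := by
  obtain ⟨l, hl, hco⟩ := h
  refine ⟨l.map P.bar, ?_, ?_⟩
  · intro r hr
    obtain ⟨s, hs, rfl⟩ := List.mem_map.1 hr
    exact ⟨bar_cusp (hl s hs).1, s, (hl s hs).2, rfl⟩
  · have h1 : ∀ l : List I, ((l.map P.bar).map P.el).prod = P.barR (l.map P.el).prod := by
      intro l
      induction l with
      | nil => simp only [List.map_nil, List.prod_nil, barR_one]
      | cons a l ih => simp only [List.map_cons, List.prod_cons, barR_mul, barR_el, ih]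
    rw [h1, co_barR, P.bar_bar]
    exact hco

theorem bar_od (v : I) : P.od (P.bar v) = P.od v := by
  induction hn : P.deg v using Nat.strong_induction_on generalizing v with
  | _ n ih =>
  by_cases hv : v = P.one
  · rw [hv, bar_one]
  have hv' : P.bar v ≠ P.one := by
    intro h1
    apply hv
    rw [← P.bar_bar v, h1, bar_one]
  rw [P.od_der _ hv, P.od_der _ hv', P.bar_deg]
  have hbox : ∀ m : ℕ, ∀ w, w ∈ (Finset.range m).biUnion P.lv ↔ P.deg w < m := by
    intro m w
    rw [Finset.mem_biUnion]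
    constructor
    · rintro ⟨i, hi, hw⟩
      rw [(P.mem_lv i w).1 hw]
      exact Finset.mem_range.1 hi
    · intro h
      exact ⟨P.deg w, Finset.mem_range.2 h, (P.mem_lv _ w).2 rfl⟩
  refine Finset.sum_nbij' P.bar P.bar ?_ ?_ ?_ ?_ ?_
  · intro w hw
    rw [hbox] at hw ⊢
    rwa [P.bar_deg]
  · intro w hw
    rw [hbox] at hw ⊢
    rwa [P.bar_deg]
  · intro w _
    exact P.bar_bar w
  · intro w _
    exact P.bar_bar w
  · intro a ha
    rw [hbox] at ha
    refine Finset.sum_nbij' P.bar P.bar ?_ ?_ ?_ ?_ ?_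
    · intro w hw
      rw [hbox] at hw ⊢
      rwa [P.bar_deg]
    · intro w hw
      rw [hbox] at hw ⊢
      rwa [P.bar_deg]
    · intro w _
      exact P.bar_bar w
    · intro w _
      exact P.bar_bar w
    · intro b _
      rw [bar_m', P.bar_dl, ih (P.deg a) (by omega) a rfl]

/-- `barR` as a ring homomorphism -/
def C07_aux.barRing (P : PSHX I) : P.R →+* P.R where
  toFun := P.barR
  map_one' := barR_one
  map_mul' := barR_mul
  map_zero' := map_zero (barHom P)
  map_add' := barR_add

theorem C07_aux.barRing_apply (x : P.R) : barRing P x = P.barR x := rfl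

theorem C07_aux.bar_glike {x : ℕ → I} (h : P.GLike x) : P.GLike (fun n => P.bar (x n)) := by
  intro n a b
  rw [bar_m', h]
  refine if_congr ?_ rfl rfl
  constructor
  · rintro ⟨i, hi, h1, h2⟩
    exact ⟨i, hi, by show a = P.bar (x i); rw [← h1, P.bar_bar],
      by show b = P.bar (x (n - i)); rw [← h2, P.bar_bar]⟩
  · rintro ⟨i, hi, h1, h2⟩
    exact ⟨i, hi, by rw [h1, P.bar_bar], by rw [h2, P.bar_bar]⟩

theorem bar_xy {ρ : I} {x y : ℕ → I} (h : XY P ρ x y) :
    XY P (P.bar ρ) (fun n => P.bar (x n)) (fun n => P.bar (y n)) where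
  cusp := bar_cusp h.cusp
  x0 := by rw [h.x0, bar_one]
  x1 := by rw [h.x1]
  y0 := by rw [h.y0, bar_one]
  y1 := by rw [h.y1]
  degx n := by rw [P.bar_deg, P.bar_deg, h.degx]
  degy n := by rw [P.bar_deg, P.bar_deg, h.degy]
  cox n := by
    rw [← barR_el, ← barRing_apply, ← map_pow, barRing_apply, co_barR, P.bar_bar]
    exact h.cox n
  coy n := by
    rw [← barR_el, ← barRing_apply, ← map_pow, barRing_apply, co_barR, P.bar_bar]
    exact h.coy n
  glx := bar_glike h.glx
  gly := bar_glike h.gly
  dlx n := by rw [P.bar_dl, h.dlx]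
  dly n hn := by rw [P.bar_dl, h.dly n hn]
  rel n hn := by
    have h1 := congrArg (barRing P) (h.rel n hn)
    rw [map_zero, map_sum] at h1
    rw [← h1]
    refine Finset.sum_congr rfl fun i _ => ?_
    rw [map_mul, map_mul, map_pow, map_neg, map_one, barRing_apply, barRing_apply, barR_el, barR_el]
  ne n hn h1 := by
    apply h.ne n hn
    rw [← P.bar_bar (x n), ← P.bar_bar (y n)]
    exact congrArg P.bar h1

theorem C07_aux.x_unique {ρ : I} {x y x' y' : ℕ → I} (h : XY P ρ x y) (h' : XY P ρ x' y') (n : ℕ) :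
    x n = x' n := by
  by_contra hne
  have hpos : P.Pos (P.el ρ ^ n) := pos_pow (pos_el ρ) n
  have h1 : 1 ≤ P.co (P.el ρ ^ n) (x n) := by
    have := hpos (x n)
    have h2 := h.cox n
    omega
  have h2 : 1 ≤ P.co (P.el ρ ^ n) (x' n) := by
    have := hpos (x' n)
    have h2 := h'.cox n
    omega
  have h3 : P.Pos (P.el ρ ^ n + -P.el (x n) + -P.el (x' n)) := by
    intro v
    rw [co_add, co_add, co_neg, co_neg, co_el, co_el]
    have h4 := hpos v
    by_cases hv : v = x n
    · have hv' : ¬ v = x' n := by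
        rw [hv]
        exact hne
      rw [if_pos hv, if_neg hv']
      rw [hv] at h4 ⊢
      omega
    · rw [if_neg hv]
      by_cases hv' : v = x' n
      · rw [if_pos hv']
        rw [hv'] at h4 ⊢
        omega
      · rw [if_neg hv']
        omega
  have h4 : 0 ≤ P.dlR (P.el ρ ^ n + -P.el (x n) + -P.el (x' n)) := by
    refine pos_induction (p := fun z => 0 ≤ P.dlR z) ?_ ?_ ?_ h3
    · rw [dlR_zero]
    · intro v
      rw [dlR_el]
      exact Int.natCast_nonneg _
    · intro z z' hz hz'
      rw [dlR_add]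
      exact add_nonneg hz hz'
  rw [dlR_add, dlR_add, dlR_neg, dlR_neg, dlR_el, dlR_el, dlR_pow, dlR_el, h.dlx, h'.dlx,
    P.dl_cusp ρ h.cusp] at h4
  simp at h4

theorem C07_aux.y_rec {ρ : I} {x y : ℕ → I} (h : XY P ρ x y) {n : ℕ} (hn : 1 ≤ n) :
    P.el (y n) = - ∑ i ∈ Finset.range n,
      (-1 : P.R) ^ (i + 1) * (P.el (x (i + 1)) * P.el (y (n - (i + 1)))) := by
  have h1 := h.rel n hn
  rw [Finset.sum_range_succ'] at h1
  rw [pow_zero, one_mul, h.x0, ← one_def, one_mul, Nat.sub_zero] at h1
  exact eq_neg_of_add_eq_zero_right h1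

/-- `y` is determined by `ρ` -/
theorem xy_unique {ρ : I} {x y x' y' : ℕ → I} (h : XY P ρ x y) (h' : XY P ρ x' y') (n : ℕ) :
    x n = x' n ∧ y n = y' n := by
  refine ⟨x_unique h h' n, ?_⟩
  induction n using Nat.strong_induction_on with
  | _ n ih =>
  by_cases hn : n = 0
  · rw [hn, h.y0, h'.y0]
  apply el_inj (Q := P.toPSH)
  rw [y_rec h (by omega), y_rec h' (by omega)]
  congr 1
  refine Finset.sum_congr rfl fun i hi => ?_
  rw [x_unique h h' (i + 1), ih (n - (i + 1)) (by have := Finset.mem_range.1 hi; omega)]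

theorem C07_aux.perp_el (c v : I) :
    P.perp c (P.el v) = ∑ b ∈ P.box (P.deg v), (P.m v c b : ℤ) • P.el b := by
  apply R_ext
  intro w
  rw [co_perp_el, co_sum]
  by_cases hw : w ∈ P.box (P.deg v)
  · rw [Finset.sum_eq_single w]
    · rw [co_zsmul, co_el, if_pos rfl, mul_one]
    · intro b _ hb
      rw [co_zsmul, co_el, if_neg (Ne.symm hb), mul_zero]
    · intro h
      exact absurd hw h
  · have hm : P.m v c w = 0 := by
      by_contra hne
      apply hw
      rw [mem_box, P.m_deg _ _ _ hne]
      omega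
    rw [hm]
    symm
    refine Finset.sum_eq_zero fun b hb => ?_
    have hne : ¬ w = b := by
      intro h
      rw [← h] at hb
      exact hw hb
    rw [co_zsmul, co_el, if_neg hne, mul_zero]

theorem od_eq_der {v : I} (hv : v ≠ P.one) :
    P.od v = ∑ k ∈ Finset.Icc 1 (P.deg v), P.odR (P.der k (P.el v)) := by
  have hbox : ∀ m : ℕ, ∀ w, w ∈ (Finset.range m).biUnion P.lv ↔ P.deg w < m := by
    intro m w
    rw [Finset.mem_biUnion]
    constructor
    · rintro ⟨i, hi, hw⟩
      rw [(P.mem_lv i w).1 hw]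
      exact Finset.mem_range.1 hi
    · intro h
      exact ⟨P.deg w, Finset.mem_range.2 h, (P.mem_lv _ w).2 rfl⟩
  -- the right hand side
  have h1 : ∀ k, P.odR (P.der k (P.el v)) =
      ∑ c ∈ P.lv k, ∑ b ∈ P.box (P.deg v), ((P.m v c b * P.dl c : ℕ) : ZMod 2) * P.od b := by
    intro k
    rw [der_apply, ← odHom_apply, map_sum]
    refine Finset.sum_congr rfl fun c _ => ?_
    rw [map_zsmul, perp_el, map_sum, Finset.smul_sum]
    refine Finset.sum_congr rfl fun b _ => ?_
    rw [map_zsmul, odHom_apply, odR_el, zsmul_eq_mul, zsmul_eq_mul]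
    push_cast
    ring
  rw [Finset.sum_congr rfl fun k _ => h1 k]
  rw [P.od_der v hv]
  have h2 : ∑ k ∈ Finset.Icc 1 (P.deg v), ∑ c ∈ P.lv k, ∑ b ∈ P.box (P.deg v),
      ((P.m v c b * P.dl c : ℕ) : ZMod 2) * P.od b =
      ∑ c ∈ P.box (P.deg v), ∑ b ∈ P.box (P.deg v),
        if P.deg b < P.deg v then ((P.m v c b * P.dl c : ℕ) : ZMod 2) * P.od b else 0 := by
    rw [sum_box P.toPSH (P.deg v) (fun c => ∑ b ∈ P.box (P.deg v),
        if P.deg b < P.deg v then ((P.m v c b * P.dl c : ℕ) : ZMod 2) * P.od b else 0)]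
    have hsub : Finset.Icc 1 (P.deg v) ⊆ Finset.range (P.deg v + 1) := by
      intro i hi
      have := Finset.mem_Icc.1 hi
      exact Finset.mem_range.2 (by omega)
    rw [← Finset.sum_subset hsub]
    · refine Finset.sum_congr rfl fun k hk => ?_
      refine Finset.sum_congr rfl fun c hc => ?_
      refine Finset.sum_congr rfl fun b _ => ?_
      by_cases hb : P.deg b < P.deg v
      · rw [if_pos hb]
      · rw [if_neg hb]
        have hm : P.m v c b = 0 := by
          by_contra hne
          have h3 := P.m_deg _ _ _ hne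
          have h4 := (P.mem_lv k c).1 hc
          have h5 := (Finset.mem_Icc.1 hk).1
          omega
        rw [hm, zero_mul, Nat.cast_zero, zero_mul]
    · intro k _ hk
      refine Finset.sum_eq_zero fun c hc => ?_
      refine Finset.sum_eq_zero fun b _ => ?_
      by_cases hb : P.deg b < P.deg v
      · rw [if_pos hb]
        have hm : P.m v c b = 0 := by
          by_contra hne
          have h3 := P.m_deg _ _ _ hne
          have h4 := (P.mem_lv k c).1 hc
          apply hk
          rw [Finset.mem_Icc]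
          omega
        rw [hm, zero_mul, Nat.cast_zero, zero_mul]
      · rw [if_neg hb]
  rw [h2]
  conv_rhs => rw [Finset.sum_comm]
  have hsub : (Finset.range (P.deg v)).biUnion P.lv ⊆ P.box (P.deg v) := by
    intro a ha
    rw [mem_box]
    exact ((hbox _ _).1 ha).le
  rw [← Finset.sum_subset hsub]
  · refine Finset.sum_congr rfl fun a ha => ?_
    refine Finset.sum_congr rfl fun b _ => ?_
    rw [if_pos ((hbox _ _).1 ha), P.m_comm]
  · intro a _ ha
    refine Finset.sum_eq_zero fun b _ => ?_
    rw [if_neg]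
    intro h
    exact ha ((hbox _ _).2 h)

theorem od_y {ρ : I} {x y : ℕ → I} (h : XY P ρ x y) (n : ℕ) : P.od (y n) = 1 := by
  have hd := deg_pos h.cusp
  induction n with
  | zero => rw [h.y0, P.od_one]
  | succ n ih =>
    have hne : y (n + 1) ≠ P.one := by
      intro h1
      rw [← P.deg_zero, h.degy] at h1
      rcases Nat.mul_eq_zero.1 h1 with h2 | h2
      · omega
      · omega
    rw [od_eq_der hne, Finset.sum_eq_single (P.deg ρ)]
    · rw [der_y h, if_neg hd.ne', if_pos ⟨rfl, by omega⟩, odR_el]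
      exact ih
    · intro k hk hk'
      have := (Finset.mem_Icc.1 hk).1
      rw [der_y h, if_neg (by omega), if_neg (by
        intro h1
        exact hk' h1.1), ← odHom_apply, map_zero]
    · intro h1
      exfalso
      apply h1
      rw [Finset.mem_Icc, h.degy]
      refine ⟨hd, ?_⟩
      nlinarith

/-- the component of degree `N` -/
def C07_aux.cmp (Q : PSH I) (N : ℕ) : Q.R →+ Q.R :=
  (Finsupp.filterAddHom (fun v => Q.deg v = N) : (I →₀ ℤ) →+ (I →₀ ℤ))

theorem C07_aux.co_cmp (Q : PSH I) (N : ℕ) (x : Q.R) (v : I) :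
    Q.co (cmp Q N x) v = if Q.deg v = N then Q.co x v else 0 := by
  exact Finsupp.filter_apply (fun v => Q.deg v = N) (show I →₀ ℤ from x) v

theorem C07_aux.cmp_hom {Q : PSH I} {N : ℕ} {x : Q.R} (hx : Q.Hom N x) : cmp Q N x = x := by
  apply R_ext
  intro v
  rw [co_cmp]
  by_cases h : Q.deg v = N
  · rw [if_pos h]
  · rw [if_neg h]
    by_contra h1
    exact h (hx v (Ne.symm h1))

theorem C07_aux.cmp_hom_ne {Q : PSH I} {N M : ℕ} {x : Q.R} (hx : Q.Hom M x) (hN : M ≠ N) :
    cmp Q N x = 0 := by
  apply R_ext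
  intro v
  rw [co_cmp, co_zero]
  by_cases h : Q.deg v = N
  · rw [if_pos h]
    by_contra h1
    exact hN ((hx v h1).symm.trans h)
  · rw [if_neg h]

theorem od_sup {ρ : I} {x y : ℕ → I} (h : XY P ρ x y) {v : I} (hv : P.Sup {ρ} v)
    (ho : P.od v = 1) : ∃ n, v = y n := by
  have hd := deg_pos h.cusp
  obtain ⟨n, hn, hdeg⟩ := sup_singleton h.cusp hv
  refine ⟨n, ?_⟩
  have hcl := mem_closure_y h hn
  have hhom : ∀ l : List ℕ, P.Hom (l.sum * P.deg ρ) (l.map fun i => P.el (y i)).prod := by
    intro l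
    induction l with
    | nil =>
      rw [List.sum_nil, zero_mul, List.map_nil, List.prod_nil]
      exact hom_one
    | cons a l ih =>
      rw [List.sum_cons, List.map_cons, List.prod_cons, add_mul]
      refine hom_mul ?_ ih
      rw [← h.degy]
      exact hom_el _
  have hod : ∀ l : List ℕ, P.odR (l.map fun i => P.el (y i)).prod = 1 := by
    intro l
    induction l with
    | nil => rw [List.map_nil, List.prod_nil, odR_one]
    | cons a l ih => rw [List.map_cons, List.prod_cons, odR_mul, ih, odR_el, od_y h, one_mul]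
  have key : ∀ z ∈ AddSubgroup.closure (ymon P.toPSH y),
      P.odR (cmp P.toPSH (n * P.deg ρ) z) = ((P.ip z (P.el (y n)) : ℤ) : ZMod 2) := by
    intro z hz
    induction hz using AddSubgroup.closure_induction with
    | mem z hz =>
      obtain ⟨l, -, rfl⟩ := hz
      by_cases hl : l.sum = n
      · subst hl
        rw [cmp_hom (hhom l), hod, ip_prod_y h, Int.cast_one]
      · have hne : l.sum * P.deg ρ ≠ n * P.deg ρ := by
          intro h1
          exact hl (Nat.eq_of_mul_eq_mul_right hd h1)
        rw [cmp_hom_ne (hhom l) hne, ← odHom_apply, map_zero,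
          ip_of_hom (hhom l) (hom_el (y n)) (by rw [h.degy]; exact hne), Int.cast_zero]
    | zero => rw [map_zero, ip_zero_left, ← odHom_apply, map_zero, Int.cast_zero]
    | add z w _ _ hz hw => rw [map_add, odR_add, hz, hw, ip_add_left, Int.cast_add]
    | neg z _ hz => rw [map_neg, odR_neg, hz, ip_neg_left, Int.cast_neg]
  have h1 := key _ hcl
  have h2 : P.Hom (n * P.deg ρ) (P.el v) := by
    rw [← hdeg]
    exact hom_el v
  rw [cmp_hom h2, odR_el, ho, ip_el_right, co_el] at h1
  by_contra hne
  rw [if_neg (Ne.symm hne), Int.cast_zero] at h1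
  exact one_ne_zero h1

end

end ParkerGL
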