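import Pool.Agent.ParkerGL.C07

/-!
# MP_6c3636_al, GL_n(q), module C08: atoms (helper7)

An atom (family) is a sequence `z 0 = one, z 1, z 2, …` of self dual elements of odd dimension with
the properties needed for the computation of determinants. Two sources:

* `ρ` cuspidal with `bar ρ = ρ`: `z b = y b`, `d = deg ρ`.
* `ρ` cuspidal with `bar ρ ≠ ρ`: `el (z b) = el (y b) * el (bar (y b))`, `d = 2 * deg ρ`.

Real case (`exists_atom_real`): `bar (y n) = y n` by `bar_xy`, `xy_unique`. `der1`, `der2` by `der_y`. `mul1` is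
`gly`. `co1` is `ip_prod_y`. `only`: the constituents of a product of `y i`'s are in `Sup {ρ}`
(positivity, `coy`); use `od_sup` and the degree.
-/

namespace ParkerGL

noncomputable section

open Classical

variable {I : Type}

/-- atoms -/
structure Atom (P : PSHX I) where
  /-- the degree of `z 1` -/
  d : ℕ
  hd : 0 < d
  /-- the sequence -/
  z : ℕ → I
  z0 : z 0 = P.one
  deg : ∀ b, P.deg (z b) = b * d
  real : ∀ b, P.bar (z b) = z b
  odd : ∀ b, P.od (z b) = 1
  dl1 : P.dl (z 1) = 1
  /-- the `d`-th derivative -/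
  der1 : ∀ b, 1 ≤ b → P.der d (P.el (z b)) = P.el (z (b - 1))
  /-- the other derivatives have no self dual constituent -/
  der2 : ∀ b k, 1 ≤ b → 1 ≤ k → k ≠ d → ∀ a, P.co (P.der k (P.el (z b))) a ≠ 0 → P.bar a ≠ a
  mul1 : ∀ a b, P.m (z (a + b)) (z a) (z b) = 1
  co1 : ∀ l : List ℕ, P.co (l.map fun i => P.el (z i)).prod (z l.sum) = 1
  only : ∀ (l : List ℕ) (v : I), P.co (l.map fun i => P.el (z i)).prod v ≠ 0 → P.bar v = v →
    P.od v = 1 → v = z l.sum

variable {P : PSHX I}

/-- constituents of `el a * X` -/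
private theorem exists_co_mul {a v : I} {X : P.R} (hv : P.co (P.el a * X) v ≠ 0) :
    ∃ w, P.co X w ≠ 0 ∧ P.m v a w ≠ 0 := by
  by_contra hcon
  push Not at hcon
  obtain ⟨s, hs⟩ := R_eq_sum (P := P.toPSH) X
  apply hv
  rw [hs, Finset.mul_sum, co_sum]
  refine Finset.sum_eq_zero fun w _ => ?_
  rw [mul_smul_comm, co_zsmul, co_mul_el]
  by_cases h0 : P.co X w = 0
  · rw [h0, zero_mul]
  · rw [hcon w h0]
    simp

private theorem sup_prod_y {ρ : I} {x y : ℕ → I} (h : XY P ρ x y) (l : List ℕ) :
    ∀ v : I, P.co (l.map fun i => P.el (y i)).prod v ≠ 0 → P.Sup {ρ} v := by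
  induction l with
  | nil =>
    intro v hv
    rw [List.map_nil, List.prod_nil, one_def, co_el] at hv
    by_cases h1 : v = P.one
    · rw [h1]
      exact sup_one _
    · rw [if_neg h1] at hv
      exact absurd rfl hv
  | cons i l ih =>
    intro v hv
    rw [List.map_cons, List.prod_cons] at hv
    obtain ⟨w, hw, hm⟩ := exists_co_mul hv
    exact sup_mul (sup_of_pow h.cusp (h.coy i)) (ih w hw) hm

private theorem hom_prod_y {ρ : I} {x y : ℕ → I} (h : XY P ρ x y) (l : List ℕ) :
    P.Hom (l.sum * P.deg ρ) (l.map fun i => P.el (y i)).prod := by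
  induction l with
  | nil =>
    rw [List.map_nil, List.prod_nil, List.sum_nil, zero_mul]
    exact hom_one
  | cons i l ih =>
    rw [List.map_cons, List.prod_cons, List.sum_cons, add_mul]
    refine hom_mul ?_ ih
    rw [← h.degy i]
    exact hom_el _

theorem exists_atom_real {ρ : I} {x y : ℕ → I} (h : XY P ρ x y) (hb : P.bar ρ = ρ) :
    ∃ t : Atom P, ∀ n, t.z n = y n := by
  have hd : 0 < P.deg ρ := deg_pos h.cusp
  have hxy := bar_xy h
  rw [hb] at hxy
  refine ⟨{ d := P.deg ρ
            hd := hd
            z := y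
            z0 := h.y0
            deg := h.degy
            real := fun b => (xy_unique hxy h b).2
            odd := fun b => od_y h b
            dl1 := ?_
            der1 := ?_
            der2 := ?_
            mul1 := ?_
            co1 := ?_
            only := ?_ }, fun n => rfl⟩
  · rw [h.y1]
    exact P.dl_cusp ρ h.cusp
  · intro b hb1
    rw [der_y h b, if_neg hd.ne', if_pos ⟨rfl, hb1⟩]
  · intro b k _ hk hkd a ha
    exfalso
    apply ha
    rw [der_y h b, if_neg (by omega), if_neg (fun hh => hkd hh.1), co_zero]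
  · intro a b
    rw [h.gly (a + b) (y a) (y b), if_pos]
    exact ⟨a, by omega, rfl, by rw [Nat.add_sub_cancel_left]⟩
  · intro l
    rw [← ip_el_right]
    exact ip_prod_y h l
  · intro l v hv hbar hod
    obtain ⟨n, rfl⟩ := od_sup h (sup_prod_y h l v hv) hod
    have h1 := hom_prod_y h l _ hv
    rw [h.degy n] at h1
    rw [Nat.eq_of_mul_eq_mul_right hd h1]

end

end ParkerGL
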