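import Pool.Agent.ParkerGL.C10

/-!
# MP_6c3636_al, GL_n(q), module C09: self dual elements (helper7)

`main_C`: let `v ≠ one`, `bar v = v`. By `exists_sup` there is a cuspidal `ρ` with `v` a constituent of
`el ρ * X`, `X` a product of cuspidals (reorder). Put `S = {ρ, bar ρ}` and factor
`el v = el u * el z`, `u` in `Sup S`, `z` in `Sup Sᶜ` (`factor`). `bar '' S = S`, so by `factor_unique` (apply `barR`)
`bar u = u`, `bar z = z`. `u ≠ one`: otherwise `v = z` is in `Sup Sᶜ`; `v` is a constituent of `el ρ * X`, so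
`perp ρ (el v) ≠ 0` hence `m v ρ b ≠ 0` for some `b`, so `ρ` is in `Sup Sᶜ` (`sup_of_m`) and in `Sup S`, contradiction
(`sup_disjoint`). [`perp ρ (el v) ≠ 0`: `ip (el v) (el ρ * X) = ip (perp ρ (el v)) X`.]
If `z ≠ one` we are in the first case. Let `z = one`, so `v = u` is in `Sup S`.

* `bar ρ = ρ`: `S = {ρ}`; `exists_atom_real` (C08), `sup_singleton`, `mem_closure_y`; `el (y i) = el (t.z i)`.
* `bar ρ ≠ ρ`: factor once more, `el v = el u * el w`, `u` in `Sup {ρ}`, `w` in `Sup {ρ}ᶜ`, so `w` is in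
  `Sup {bar ρ}`: (`w` is in `Sup S` by `sup_of_m`; factor `w` with respect to `{bar ρ}`:
  `el w = el w₁ * el w₂`, `w₁` in `Sup {bar ρ}`, `w₂` in `Sup {bar ρ}ᶜ`, `Sup S`, `Sup {ρ}ᶜ`; if `w₂ ≠ one`,
  it has a cuspidal `σ` with `m w₂ σ b ≠ 0`, `σ` in all three; `σ` cuspidal in `Sup T` implies `σ ∈ T`
  (`sup_disjoint` with `{σ}`), contradiction).
  `bar v = v` gives `w = bar u` by `factor_unique`. By `mem_closure_y` `el u = ∑ a_j r_j` (finite sum, `a_j : ℤ`, `r_j ∈ ymon`), so
  `el v = el u * barR (el u) = ∑_{i, j} a_i a_j r_i * barR r_j`: the terms with `i = j` are multiples of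
  `r_i * barR r_i`, a product of `el (t.z k)`'s, the terms `(i, j)`, `(j, i)` together are
  `a_i a_j (x + barR x)` with `x = r_i * barR r_j`. (Cleaner: show by `AddSubgroup.closure_induction` in
  `s` that for all `s` in the closure of `ymon` `s * barR s` is in the big closure: `(s + s') * barR (s + s') = s * barR s +
  s' * barR s' + (x + barR x)` with `x = s * barR s'`.)
-/

namespace ParkerGL

noncomputable section

open Classical

variable {I : Type} {P : PSHX I}

/-- products of members of an atom family -/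
def zmon (t : Atom P) : Set P.R :=
  {r | ∃ l : List ℕ, (∀ i ∈ l, 0 < i) ∧ r = (l.map fun i => P.el (t.z i)).prod}

private theorem el_inj' {v w : I} (h : P.el v = P.el w) : v = w := by
  have h1 : P.co (P.el v) v = P.co (P.el w) v := by rw [h]
  rw [co_el, co_el, if_pos rfl] at h1
  by_contra hc
  rw [if_neg hc] at h1
  exact one_ne_zero h1

private theorem m_ne_of_el {v u z : I} (h : P.el v = P.el u * P.el z) : P.m v u z ≠ 0 := by
  have h1 : P.co (P.el u * P.el z) v = (P.m v u z : ℤ) := co_mul_el u z v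
  rw [← h, co_el, if_pos rfl] at h1
  intro h0
  rw [h0] at h1
  exact one_ne_zero h1

private theorem exists_cusp {v : I} (hne : v ≠ P.one) :
    ∃ ρ b, P.Cusp ρ ∧ P.m v ρ b ≠ 0 := by
  obtain ⟨l, hl, hc⟩ := exists_sup (P := P.toPSH) v
  cases l with
  | nil =>
    exfalso
    apply hc
    rw [List.map_nil, List.prod_nil, one_def, co_el, if_neg hne]
  | cons ρ l =>
    have hρ : P.Cusp ρ := (hl ρ (List.mem_cons_self)).1
    refine ⟨ρ, ?_⟩
    by_contra hcon
    push Not at hcon
    have hz : ∀ b, P.m v ρ b = 0 := fun b => hcon b hρ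
    have hp : P.perp ρ (P.el v) = 0 := by
      apply R_ext
      intro b
      rw [co_perp_el, hz b, co_zero]
      rfl
    apply hc
    rw [List.map_cons, List.prod_cons, ← ip_el_right, ip_el_mul, hp, ip_zero_right]

private theorem cusp_mem {σ : I} {T : Set I} (h : P.Cusp σ) (hT : P.Sup T σ) : σ ∈ T := by
  by_contra hc
  have hd : Disjoint ({σ} : Set I) T := Set.disjoint_singleton_left.mpr hc
  exact h.1 (sup_disjoint hd (sup_cusp h (Set.mem_singleton σ)) hT)

private theorem bar_inj {a b : I} (h : P.bar a = P.bar b) : a = b := by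
  rw [← P.bar_bar a, h, P.bar_bar]

private theorem barR_prod (y : ℕ → I) (l : List ℕ) :
    P.barR (l.map fun i => P.el (y i)).prod = (l.map fun i => P.el (P.bar (y i))).prod := by
  induction l with
  | nil => rw [List.map_nil, List.prod_nil, List.map_nil, List.prod_nil, barR_one]
  | cons i l ih =>
    rw [List.map_cons, List.prod_cons, barR_mul, barR_el, ih, List.map_cons, List.prod_cons]

private theorem prod_mul_bar (y : ℕ → I) (t : Atom P)
    (ht : ∀ n, P.el (t.z n) = P.el (y n) * P.el (P.bar (y n))) (l : List ℕ) :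
    (l.map fun i => P.el (y i)).prod * (l.map fun i => P.el (P.bar (y i))).prod =
      (l.map fun i => P.el (t.z i)).prod := by
  induction l with
  | nil => rw [List.map_nil, List.prod_nil, List.map_nil, List.prod_nil, List.map_nil,
      List.prod_nil, one_mul]
  | cons i l ih =>
    rw [List.map_cons, List.prod_cons, List.map_cons, List.prod_cons, List.map_cons,
      List.prod_cons, ht i, ← ih]
    ring

private theorem barR_zero' : P.barR (0 : P.R) = 0 := by
  have h := barR_add (P := P) 0 0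
  rw [add_zero] at h
  have h2 : P.barR (0 : P.R) + 0 = P.barR (0 : P.R) + P.barR (0 : P.R) := by
    rw [add_zero]; exact h
  exact (add_left_cancel h2).symm

private theorem closure_mul_bar (y : ℕ → I) (t : Atom P)
    (ht : ∀ n, P.el (t.z n) = P.el (y n) * P.el (P.bar (y n))) {s : P.R}
    (hs : s ∈ AddSubgroup.closure (ymon P.toPSH y)) :
    s * P.barR s ∈ AddSubgroup.closure (zmon t ∪ {r | ∃ x, r = x + P.barR x}) := by
  induction hs using AddSubgroup.closure_induction with
  | mem s hs =>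
    obtain ⟨l, hl, rfl⟩ := hs
    apply AddSubgroup.subset_closure
    left
    refine ⟨l, hl, ?_⟩
    rw [barR_prod, prod_mul_bar y t ht]
  | zero =>
    rw [zero_mul]
    exact AddSubgroup.zero_mem _
  | add s s' _ _ h h' =>
    have e : (s + s') * P.barR (s + s') =
        s * P.barR s + s' * P.barR s' + (s * P.barR s' + P.barR (s * P.barR s')) := by
      rw [barR_add, barR_mul, barR_barR]
      ring
    rw [e]
    refine AddSubgroup.add_mem _ (AddSubgroup.add_mem _ h h') ?_
    apply AddSubgroup.subset_closure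
    right
    exact ⟨_, rfl⟩
  | neg s _ h =>
    have e : (-s) * P.barR (-s) = s * P.barR s := by
      rw [barR_neg]
      ring
    rw [e]
    exact h

theorem main_C (v : I) (hv : P.bar v = v) (hne : v ≠ P.one) :
    (∃ u z, u ≠ P.one ∧ z ≠ P.one ∧ P.bar u = u ∧ P.bar z = z ∧ P.el v = P.el u * P.el z) ∨
    ∃ t : Atom P, P.el v ∈ AddSubgroup.closure (zmon t ∪ {r | ∃ x, r = x + P.barR x}) := by
  obtain ⟨ρ, b, hρ, hm⟩ := exists_cusp hne
  obtain ⟨u, z, hu, hz, he⟩ := factor (P := P.toPSH) ({ρ, P.bar ρ} : Set I) v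
  have hbS : P.bar '' ({ρ, P.bar ρ} : Set I) = {ρ, P.bar ρ} := by
    rw [Set.image_pair, P.bar_bar, Set.pair_comm]
  have hbSc : P.bar '' ({ρ, P.bar ρ} : Set I)ᶜ = ({ρ, P.bar ρ} : Set I)ᶜ := by
    ext a
    constructor
    · rintro ⟨c, hc, rfl⟩ hcon
      apply hc
      rw [← hbS] at hcon
      obtain ⟨d, hd, hd'⟩ := hcon
      rwa [← bar_inj hd']
    · intro ha
      refine ⟨P.bar a, ?_, P.bar_bar a⟩
      intro hcon
      apply ha
      rw [← hbS]
      exact ⟨_, hcon, P.bar_bar a⟩
  have hu' : P.Sup ({ρ, P.bar ρ} : Set I) (P.bar u) := by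
    have := bar_sup hu
    rwa [hbS] at this
  have hz' : P.Sup ({ρ, P.bar ρ} : Set I)ᶜ (P.bar z) := by
    have := bar_sup hz
    rwa [hbSc] at this
  have he' : P.el v = P.el (P.bar u) * P.el (P.bar z) := by
    have : P.barR (P.el v) = P.barR (P.el u * P.el z) := by rw [he]
    rwa [barR_el, hv, barR_mul, barR_el, barR_el] at this
  have hd : Disjoint ({ρ, P.bar ρ} : Set I) ({ρ, P.bar ρ} : Set I)ᶜ := disjoint_compl_right
  obtain ⟨h1, h2⟩ := factor_unique hd hu hu' hz hz' (he.symm.trans he')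
  by_cases hzo : z = P.one
  swap
  · left
    refine ⟨u, z, ?_, hzo, h1.symm, h2.symm, he⟩
    intro huo
    have hvz : v = z := by
      apply el_inj'
      rw [he, huo, ← one_def, one_mul]
    rw [← hvz] at hz
    exact hρ.1 (sup_disjoint hd (sup_cusp hρ (Set.mem_insert _ _)) (sup_of_m hz hm).1)
  right
  have hvu : v = u := by
    apply el_inj'
    rw [he, hzo, ← one_def, mul_one]
  rw [← hvu] at hu
  obtain ⟨x, y, h⟩ := exists_xy P hρ
  by_cases hb : P.bar ρ = ρ
  · obtain ⟨t, ht⟩ := exists_atom_real h hb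
    refine ⟨t, ?_⟩
    rw [hb, Set.pair_eq_singleton] at hu
    obtain ⟨n, hn, -⟩ := sup_singleton hρ hu
    have := mem_closure_y h hn
    refine AddSubgroup.closure_mono ?_ this
    rintro r ⟨l, hl, rfl⟩
    left
    refine ⟨l, hl, ?_⟩
    simp only [ht]
  · obtain ⟨t, ht⟩ := exists_atom_pair h hb
    refine ⟨t, ?_⟩
    obtain ⟨u₁, w, hu₁, hw, hf⟩ := factor (P := P.toPSH) ({ρ} : Set I) v
    have hwS : P.Sup ({ρ, P.bar ρ} : Set I) w := (sup_of_m hu (m_ne_of_el hf)).2
    obtain ⟨w₁, w₂, hw₁, hw₂, hg⟩ := factor (P := P.toPSH) ({P.bar ρ} : Set I) w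
    have hmw := m_ne_of_el hg
    have hw2S := (sup_of_m hwS hmw).2
    have hw2R := (sup_of_m hw hmw).2
    have hw2o : w₂ = P.one := by
      by_contra hc
      obtain ⟨σ, c, hσ, hmσ⟩ := exists_cusp hc
      have m1 := cusp_mem hσ (sup_of_m hw₂ hmσ).1
      have m2 := cusp_mem hσ (sup_of_m hw2S hmσ).1
      have m3 := cusp_mem hσ (sup_of_m hw2R hmσ).1
      rcases m2 with m2 | m2
      · exact m3 m2
      · exact m1 m2
    have hww : w = w₁ := by
      apply el_inj'
      rw [hg, hw2o, ← one_def, mul_one]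
    rw [← hww] at hw₁
    have hbw : P.Sup ({ρ} : Set I) (P.bar w) := by
      have := bar_sup hw₁
      rwa [Set.image_singleton, P.bar_bar] at this
    have hbu : P.Sup ({P.bar ρ} : Set I) (P.bar u₁) := by
      have := bar_sup hu₁
      rwa [Set.image_singleton] at this
    have hf' : P.el v = P.el (P.bar w) * P.el (P.bar u₁) := by
      have : P.barR (P.el v) = P.barR (P.el u₁ * P.el w) := by rw [hf]
      rw [barR_el, hv, barR_mul, barR_el, barR_el] at this
      rw [this, mul_comm]
    have hdis : Disjoint ({ρ} : Set I) ({P.bar ρ} : Set I) := by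
      rw [Set.disjoint_singleton]
      exact fun hc => hb hc.symm
    obtain ⟨-, e2⟩ := factor_unique hdis hu₁ hbw hw₁ hbu (hf.symm.trans hf')
    obtain ⟨n, hn, -⟩ := sup_singleton hρ hu₁
    have hcl := closure_mul_bar y t ht (mem_closure_y h hn)
    rw [barR_el, ← e2, ← hf] at hcl
    exact hcl

end

end ParkerGL
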