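import Pool.Agent.ParkerGL.C08

/-!
# MP_6c3636_al, GL_n(q), module C10: the atoms of a pair of dual cuspidal elements (helper7)

Nonreal case (`exists_atom_pair`): write `Y n = el (y n)`, `Y' n = el (bar (y n))`. `Y a * Y' b` is a basis
element by `mul_irr` (`S = {ρ}`, `T = {bar ρ}`). `barR (Y a * Y' b) = Y b * Y' a`, so by `factor_unique` it is
self dual iff `a = b`. `od` is `1` by `od_mul`. `der k (Y b * Y' b) = ∑_i der i (Y b) * der (k - i) (Y' b)`,
`der i (Y b) = Y b, Y (b - 1), 0` for `i = 0`, `i = e := deg ρ`, otherwise: so for `k = 2 * e` it is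
`Y (b - 1) * Y' (b - 1)` and for `k ≠ 2 * e`, `k ≥ 1` it is `0` or (`k = e`) `Y (b - 1) * Y' b + Y b * Y' (b - 1)`, which has
no self dual constituent. `dl (z 1) = dl ρ * dl (bar ρ) = 1`. `mul1`: `m (z (a + b)) (z a) (z b) =
ip (Y (a + b) * Y' (a + b)) ((Y a * Y' a) * (Y b * Y' b)) = ip (Y (a + b) * Y' (a + b)) ((Y a * Y b) * (Y' a * Y' b))`; expand
`Y a * Y b` and `Y' a * Y' b` in basis elements (in `Sup {ρ}`, `Sup {bar ρ}`) and use `ip_fact`:
`= ip (Y (a + b)) (Y a * Y b) * ip (Y' (a + b)) (Y' a * Y' b) = 1`. `co1` in the same way from `ip_prod_y`.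
`only`: a constituent `v` of `∏ z i = (∏ Y i) * (∏ Y' i)` is a constituent of `el u * el w` with `u` a constituent of
`∏ Y i`, `w` of `∏ Y' i`; `el u * el w` is a basis element, so `el v = el u * el w`; `od v = od u * od w = 1`, so
`u = y n`, `w = bar (y n')` by `od_sup`, and `n = n' = ∑ i` by degrees.
-/

namespace ParkerGL

noncomputable section

open Classical

namespace C10_aux

variable {I : Type}

theorem el_inj {P : PSH I} {v w : I} (h : P.el v = P.el w) : v = w := by
  have h1 := co_el (P := P) v v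
  rw [h, co_el] at h1
  by_contra hne
  rw [if_neg hne, if_pos rfl] at h1
  exact zero_ne_one h1

/-- all constituents are in `Sup S` -/
def SupR (P : PSH I) (S : Set I) (x : P.R) : Prop := ∀ v, P.co x v ≠ 0 → P.Sup S v

theorem supR_el {P : PSH I} {S : Set I} {v : I} (h : P.Sup S v) : SupR P S (P.el v) := by
  intro w hw
  rw [co_el] at hw
  by_cases hwv : w = v
  · rw [hwv]; exact h
  · rw [if_neg hwv] at hw; exact absurd rfl hw

theorem supR_one {P : PSH I} (S : Set I) : SupR P S (1 : P.R) := supR_el (sup_one S)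

/-- constituents of a product -/
theorem exists_of_co_mul {P : PSH I} {A B : P.R} {v : I} (h : P.co (A * B) v ≠ 0) :
    ∃ a b, P.co A a ≠ 0 ∧ P.co B b ≠ 0 ∧ P.m v a b ≠ 0 := by
  obtain ⟨s, hs⟩ := R_eq_sum A
  obtain ⟨t, ht⟩ := R_eq_sum B
  have h1 : A * B = ∑ a ∈ s, ∑ b ∈ t, (P.co A a * P.co B b) • (P.el a * P.el b) := by
    conv_lhs => rw [hs, ht]
    rw [Finset.sum_mul]
    refine Finset.sum_congr rfl fun a _ => ?_
    rw [Finset.mul_sum]
    refine Finset.sum_congr rfl fun b _ => ?_
    rw [smul_mul_assoc, mul_smul_comm, smul_smul]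
  rw [h1, co_sum] at h
  obtain ⟨a, ha, h2⟩ := Finset.exists_ne_zero_of_sum_ne_zero h
  rw [co_sum] at h2
  obtain ⟨b, hb, h3⟩ := Finset.exists_ne_zero_of_sum_ne_zero h2
  rw [co_zsmul, co_mul_el] at h3
  refine ⟨a, b, ?_, ?_, ?_⟩
  · intro h4; rw [h4] at h3; simp at h3
  · intro h4; rw [h4] at h3; simp at h3
  · intro h4; rw [h4] at h3; simp at h3

theorem supR_mul {P : PSH I} {S : Set I} {A B : P.R} (hA : SupR P S A) (hB : SupR P S B) :
    SupR P S (A * B) := by
  intro v hv
  obtain ⟨a, b, ha, hb, hm⟩ := exists_of_co_mul hv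
  exact sup_mul (hA a ha) (hB b hb) hm

theorem ip_fact_lin {P : PSH I} {S T : Set I} (h : Disjoint S T) {A B : P.R} (hA : SupR P S A)
    (hB : SupR P T B) {u z : I} (hu : P.Sup S u) (hz : P.Sup T z) :
    P.ip (A * B) (P.el u * P.el z) = P.co A u * P.co B z := by
  obtain ⟨s, hs⟩ := R_eq_sum A
  obtain ⟨t, ht⟩ := R_eq_sum B
  have h1 : A * B = ∑ a ∈ s, ∑ b ∈ t, (P.co A a * P.co B b) • (P.el a * P.el b) := by
    conv_lhs => rw [hs, ht]
    rw [Finset.sum_mul]
    refine Finset.sum_congr rfl fun a _ => ?_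
    rw [Finset.mul_sum]
    refine Finset.sum_congr rfl fun b _ => ?_
    rw [smul_mul_assoc, mul_smul_comm, smul_smul]
  have hAu : P.co A u = ∑ a ∈ s, P.co A a * (if a = u then 1 else 0) := by
    conv_lhs => rw [hs]
    rw [co_sum]
    refine Finset.sum_congr rfl fun a _ => ?_
    rw [co_zsmul, co_el]
    by_cases hau : a = u
    · rw [if_pos hau, if_pos hau.symm]
    · rw [if_neg hau, if_neg (Ne.symm hau)]
  have hBz : P.co B z = ∑ b ∈ t, P.co B b * (if b = z then 1 else 0) := by
    conv_lhs => rw [ht]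
    rw [co_sum]
    refine Finset.sum_congr rfl fun b _ => ?_
    rw [co_zsmul, co_el]
    by_cases hbz : b = z
    · rw [if_pos hbz, if_pos hbz.symm]
    · rw [if_neg hbz, if_neg (Ne.symm hbz)]
  rw [h1, ip_sum_left, hAu, hBz, Finset.sum_mul_sum]
  refine Finset.sum_congr rfl fun a _ => ?_
  rw [ip_sum_left]
  refine Finset.sum_congr rfl fun b _ => ?_
  rw [ip_zsmul_left]
  by_cases ha : P.co A a = 0
  · rw [ha]; simp
  by_cases hb : P.co B b = 0
  · rw [hb]; simp
  rw [ip_fact h (hA a ha) hu (hB b hb) hz]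
  ring

variable {P : PSHX I}

theorem supR_prod {ρ : I} {x y : ℕ → I} (h : XY P ρ x y) (l : List ℕ) :
    SupR P.toPSH {ρ} (l.map fun i => P.el (y i)).prod := by
  induction l with
  | nil => exact supR_one _
  | cons i l ih =>
    rw [List.map_cons, List.prod_cons]
    exact supR_mul (supR_el (sup_of_pow h.cusp (h.coy i))) ih

theorem hom_prod {ρ : I} {x y : ℕ → I} (h : XY P ρ x y) (l : List ℕ) :
    P.Hom (l.sum * P.deg ρ) (l.map fun i => P.el (y i)).prod := by
  induction l with
  | nil =>
    rw [List.map_nil, List.prod_nil, List.sum_nil, Nat.zero_mul]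
    exact hom_one
  | cons i l ih =>
    rw [List.map_cons, List.prod_cons, List.sum_cons, Nat.add_mul, ← h.degy i]
    exact hom_mul (hom_el (y i)) ih

theorem zmod2 {a b : ZMod 2} (h : a * b = 1) : a = 1 ∧ b = 1 := by
  revert a b
  decide

end C10_aux

open C10_aux

variable {I : Type} {P : PSHX I}

theorem exists_atom_pair {ρ : I} {x y : ℕ → I} (h : XY P ρ x y) (hb : P.bar ρ ≠ ρ) :
    ∃ t : Atom P, ∀ n, P.el (t.z n) = P.el (y n) * P.el (P.bar (y n)) := by
  have h' := bar_xy h
  have hdisj : Disjoint ({ρ} : Set I) {P.bar ρ} := by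
    rw [Set.disjoint_singleton]
    exact Ne.symm hb
  have hS : ∀ n, P.Sup {ρ} (y n) := fun n => sup_of_pow h.cusp (h.coy n)
  have hT : ∀ n, P.Sup {P.bar ρ} (P.bar (y n)) := fun n => sup_of_pow h'.cusp (h'.coy n)
  have hex : ∀ n, ∃ v, P.el (y n) * P.el (P.bar (y n)) = P.el v := fun n =>
    mul_irr hdisj (hS n) (hT n)
  choose z hz using hex
  have he : 0 < P.deg ρ := deg_pos h.cusp
  -- the products
  have hprod : ∀ l : List ℕ, (l.map fun i => P.el (z i)).prod =
      (l.map fun i => P.el (y i)).prod * (l.map fun i => P.el (P.bar (y i))).prod := by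
    intro l
    induction l with
    | nil => simp
    | cons i l ih =>
      rw [List.map_cons, List.prod_cons, List.map_cons, List.prod_cons, List.map_cons,
        List.prod_cons, ih, ← hz i]
      ring
  have hco1 : ∀ l : List ℕ, P.co (l.map fun i => P.el (z i)).prod (z l.sum) = 1 := by
    intro l
    rw [← ip_el_right, hprod, ← hz l.sum,
      ip_fact_lin hdisj (supR_prod h l) (supR_prod h' l) (hS _) (hT _), ← ip_el_right,
      ← ip_el_right, ip_prod_y h l]
    have := ip_prod_y h' l
    rw [this, one_mul]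
  have hmul1 : ∀ a b, P.m (z (a + b)) (z a) (z b) = 1 := by
    intro a b
    have h1 := hco1 [a, b]
    simp only [List.map_cons, List.map_nil, List.prod_cons, List.prod_nil, List.sum_cons,
      List.sum_nil, mul_one, add_zero] at h1
    rw [co_mul_el] at h1
    exact_mod_cast h1
  have hmz : ∀ n, P.m (z n) (y n) (P.bar (y n)) ≠ 0 := by
    intro n h0
    have h1 : P.co (P.el (y n) * P.el (P.bar (y n))) (z n) = 1 := by
      rw [hz n, co_el, if_pos rfl]
    rw [co_mul_el, h0] at h1
    exact absurd h1 (by norm_num)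
  have hreal : ∀ b, P.bar (z b) = z b := by
    intro b
    apply el_inj (P := P.toPSH)
    rw [← barR_el, ← hz b, barR_mul, barR_el, barR_el, P.bar_bar, mul_comm]
  have hdery : ∀ n k, P.der k (P.el (y n)) = if k = 0 then P.el (y n) else
      if k = P.deg ρ ∧ 1 ≤ n then P.el (y (n - 1)) else 0 := fun n k => der_y h n k
  have hdery' : ∀ n k, P.der k (P.el (P.bar (y n))) = if k = 0 then P.el (P.bar (y n)) else
      if k = P.deg ρ ∧ 1 ≤ n then P.el (P.bar (y (n - 1))) else 0 := by
    intro n k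
    have h1 := der_y h' n k
    rw [P.bar_deg] at h1
    exact h1
  refine ⟨⟨2 * P.deg ρ, by omega, z, ?_, ?_, hreal, ?_, ?_, ?_, ?_, hmul1, hco1, ?_⟩, ?_⟩
  · -- z0
    apply el_inj (P := P.toPSH)
    rw [← hz 0, h.y0, bar_one]
    show (1 : P.R) * 1 = 1
    rw [one_mul]
  · -- deg
    intro b
    rw [P.m_deg _ _ _ (hmz b), P.bar_deg, h.degy b]
    ring
  · -- odd
    intro b
    rw [← odR_el, ← hz b, odR_mul, odR_el, odR_el, bar_od, od_y h b, one_mul]
  · -- dl1
    have h1 : P.dlR (P.el (z 1)) = 1 := by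
      rw [← hz 1, dlR_mul, dlR_el, dlR_el, P.bar_dl, h.y1, P.dl_cusp ρ h.cusp]
      norm_num
    rw [dlR_el] at h1
    exact_mod_cast h1
  · -- der1
    intro b hb1
    rw [← hz b, der_mul, Finset.sum_eq_single (P.deg ρ)]
    · rw [hdery, hdery', if_neg he.ne', if_pos ⟨rfl, hb1⟩, if_neg (by omega),
        if_pos ⟨by omega, hb1⟩, hz (b - 1)]
    · intro i hi hne
      have hi2 : i < 2 * P.deg ρ + 1 := Finset.mem_range.mp hi
      by_cases hi0 : i = 0
      · subst hi0
        rw [hdery' b, if_neg (by omega), if_neg (by omega), mul_zero]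
      · rw [hdery b i, if_neg hi0, if_neg (fun hc => hne hc.1), zero_mul]
    · intro hc
      exact absurd (Finset.mem_range.mpr (by omega)) hc
  · -- der2
    intro b k hb1 hk1 hkd a ha hbar
    rw [← hz b, der_mul, co_sum] at ha
    obtain ⟨i, hi, hia⟩ := Finset.exists_ne_zero_of_sum_ne_zero ha
    have hik : i < k + 1 := Finset.mem_range.mp hi
    -- a is a constituent of `Y s * Y' t` with `s ≠ t`
    have hkey : ∀ s t, s ≠ t → P.co (P.el (y s) * P.el (P.bar (y t))) a ≠ 0 → False := by
      intro s t hst hco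
      obtain ⟨w, hw⟩ := mul_irr hdisj (hS s) (hT t)
      have haw : a = w := by
        rw [hw, co_el] at hco
        by_contra hne
        rw [if_neg hne] at hco
        exact hco rfl
      subst haw
      have h1 : P.el (y s) * P.el (P.bar (y t)) = P.el (y t) * P.el (P.bar (y s)) := by
        rw [hw]
        conv_lhs => rw [← hbar]
        rw [← barR_el, ← hw, barR_mul, barR_el, barR_el, P.bar_bar, mul_comm]
      have h2 := factor_unique hdisj (hS s) (hS t) (hT t) (hT s) h1
      exact hst (h.injy h2.1)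
    by_cases hi0 : i = 0
    · subst hi0
      rw [hdery b, if_pos rfl, hdery' b, if_neg (by omega)] at hia
      by_cases hke : k - 0 = P.deg ρ ∧ 1 ≤ b
      · rw [if_pos hke] at hia
        exact hkey b (b - 1) (by omega) hia
      · rw [if_neg hke, mul_zero, co_zero] at hia
        exact hia rfl
    · rw [hdery b, if_neg hi0] at hia
      by_cases hie : i = P.deg ρ ∧ 1 ≤ b
      · rw [if_pos hie, hdery' b] at hia
        by_cases hki : k - i = 0
        · rw [if_pos hki] at hia
          exact hkey (b - 1) b (by omega) hia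
        · rw [if_neg hki, if_neg (by omega), mul_zero, co_zero] at hia
          exact hia rfl
      · rw [if_neg hie, zero_mul, co_zero] at hia
        exact hia rfl
  · -- only
    intro l v hv hbar hod
    rw [hprod] at hv
    obtain ⟨u, w, hu, hw, hm⟩ := exists_of_co_mul hv
    have hSu := supR_prod h l u hu
    have hTw := supR_prod h' l w hw
    obtain ⟨v', hv'⟩ := mul_irr hdisj hSu hTw
    have hvv' : v = v' := by
      have h1 : P.co (P.el u * P.el w) v ≠ 0 := by
        rw [co_mul_el]
        exact_mod_cast hm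
      rw [hv', co_el] at h1
      by_contra hne
      rw [if_neg hne] at h1
      exact h1 rfl
    subst hvv'
    have h2 : P.od u * P.od w = 1 := by
      rw [← hod, ← odR_el, ← odR_el, ← odR_mul, hv', odR_el]
    obtain ⟨hu1, hw1⟩ := zmod2 h2
    obtain ⟨n, hn⟩ := od_sup h hSu hu1
    obtain ⟨n', hn'⟩ := od_sup h' hTw hw1
    have hdu := hom_prod h l u hu
    have hdw := hom_prod h' l w hw
    rw [hn, h.degy] at hdu
    rw [hn', h'.degy] at hdw
    have hbe : 0 < P.deg (P.bar ρ) := by rw [P.bar_deg]; exact he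
    have hnl : n = l.sum := Nat.eq_of_mul_eq_mul_right he hdu
    have hnl' : n' = l.sum := Nat.eq_of_mul_eq_mul_right hbe hdw
    apply el_inj (P := P.toPSH)
    rw [← hz, ← hv', hn, hn', hnl, hnl']
  · intro n
    exact (hz n).symm

end

end ParkerGL
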