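import Pool.Agent.ParkerGL.D04
import Pool.Agent.ParkerGL.B10

/-!
# MP_6c3636_al, GL_n(q), module D06: parabolic induction of quadratic modules (helper7)

`Par h` is the subgroup of `Gn F n`, `n = a + b`, of the `blk (ext y z t)`, `pr h` its projection to `Gn F a × Gn F b`
(`ext_mul`, `ext_inj`, `ext_inv` of A01). `prodQ h M N` is the module induced from the inflation of `M ⊗ N`.

* `par_index`: `Par h` is the stabilizer of the subspace `W₀ = {v : v i = 0 for i ≥ a}`, `Gn F n` acts transitively on the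
  subspaces of dimension `a`, so the index is their number, which is odd (`odd_subspaces`).
-/

namespace ParkerGL

noncomputable section

open Classical Parker.P23_aux

/-- the outer tensor product -/
def QM.tens {K : Type} [Field K] {G H : Type} [Group G] [Group H] (M : QM K G) (N : QM K H) :
    QM K (G × H) where
  X := TensorProduct K M.X N.X
  ρ :=
    { toFun := fun p => TensorProduct.map (M.ρ p.1) (N.ρ p.2)
      map_one' := by
        show TensorProduct.map (M.ρ 1) (N.ρ 1) = 1
        rw [map_one, map_one]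
        exact TensorProduct.map_one
      map_mul' := by
        intro p q
        show TensorProduct.map (M.ρ (p.1 * q.1)) (N.ρ (p.2 * q.2)) = _
        rw [map_mul, map_mul]
        exact TensorProduct.map_mul _ _ _ _ }
  B := tform M.B N.B
  inv := by
    refine ⟨?_, ?_, ?_⟩
    · have h : tform M.B N.B = (tform M.B N.B).flip := bil_ext fun x y x' y' => by
        rw [tform_tmul]
        change _ = tform M.B N.B (TensorProduct.tmul K x' y') (TensorProduct.tmul K x y)
        rw [tform_tmul, M.inv.symm x x', N.inv.symm y y']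
      intro x y
      exact congrArg (fun f : LinearMap.BilinForm K _ => f x y) h
    · exact tform_nondeg M.inv.nondeg N.inv.nondeg
    · intro g
      have h : (tform M.B N.B).compl₁₂ (TensorProduct.map (M.ρ g.1) (N.ρ g.2))
          (TensorProduct.map (M.ρ g.1) (N.ρ g.2)) = tform M.B N.B :=
        bil_ext fun x y x' y' => by
          rw [LinearMap.compl₁₂_apply, TensorProduct.map_tmul,
            TensorProduct.map_tmul, tform_tmul, tform_tmul, M.inv.inv, N.inv.inv]
      intro x y
      exact congrArg (fun f : LinearMap.BilinForm K _ => f x y) h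

variable {F : Type} [Field F] [Finite F]

/-- the parabolic subgroup -/
def Par (F : Type) [Field F] {a b n : ℕ} (h : a + b = n) : Subgroup (Gn F n) where
  carrier := {g | ∃ (y : Gn F a) (z : Gn F b) (t : (Fin b → F) →ₗ[F] (Fin a → F)),
    g = blk F h (ext y z t)}
  one_mem' := by
    exact ⟨1, 1, 0, by rw [ext_one, map_one]⟩
  mul_mem' := by
    rintro g g' ⟨y, z, t, rfl⟩ ⟨y', z', t', rfl⟩
    exact ⟨y * y', z * z', _, by rw [← map_mul, ext_mul]⟩
  inv_mem' := by
    rintro g ⟨y, z, t, rfl⟩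
    exact ⟨y⁻¹, z⁻¹, _, by rw [← map_inv, ext_inv]⟩

theorem mem_par {a b n : ℕ} (h : a + b = n) (y : Gn F a) (z : Gn F b)
    (t : (Fin b → F) →ₗ[F] (Fin a → F)) : blk F h (ext y z t) ∈ Par F h := ⟨y, z, t, rfl⟩

omit [Finite F] in
theorem D06_aux.choose_eq {a b n : ℕ} (h : a + b = n) (y : Gn F a) (z : Gn F b)
    (t : (Fin b → F) →ₗ[F] (Fin a → F)) (g : Par F h) (hg : (g : Gn F n) = blk F h (ext y z t)) :
    ((g.2.choose, g.2.choose_spec.choose) : Gn F a × Gn F b) = (y, z) := by
  obtain ⟨t', ht'⟩ := g.2.choose_spec.choose_spec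
  have h1 : blk F h (ext y z t) = blk F h (ext g.2.choose g.2.choose_spec.choose t') := by
    rw [← hg]; exact ht'
  have h2 := ext_inj ((blk F h).injective h1)
  exact Prod.ext h2.1.symm h2.2.1.symm

/-- the projection to the Levi subgroup -/
def pr (F : Type) [Field F] {a b n : ℕ} (h : a + b = n) : Par F h →* Gn F a × Gn F b where
  toFun g := (g.2.choose, g.2.choose_spec.choose)
  map_one' := by
    exact D06_aux.choose_eq h 1 1 0 1 (by rw [ext_one, map_one]; rfl)
  map_mul' := by
    intro g g'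
    obtain ⟨y, z, t, hg⟩ := g.2
    obtain ⟨y', z', t', hg'⟩ := g'.2
    rw [D06_aux.choose_eq h y z t g hg, D06_aux.choose_eq h y' z' t' g' hg']
    refine D06_aux.choose_eq h (y * y') (z * z') ((y : (Fin a → F) →ₗ[F] (Fin a → F)) ∘ₗ t' +
      t ∘ₗ (z' : (Fin b → F) →ₗ[F] (Fin b → F))) (g * g') ?_
    rw [← ext_mul, map_mul, ← hg, ← hg']
    rfl

theorem pr_apply {a b n : ℕ} (h : a + b = n) (y : Gn F a) (z : Gn F b)
    (t : (Fin b → F) →ₗ[F] (Fin a → F)) : pr F h ⟨blk F h (ext y z t), mem_par h y z t⟩ = (y, z) := by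
  exact D06_aux.choose_eq h y z t ⟨blk F h (ext y z t), mem_par h y z t⟩ rfl

theorem pr_surjective {a b n : ℕ} (h : a + b = n) : Function.Surjective (pr F h) := by
  rintro ⟨y, z⟩
  exact ⟨⟨blk F h (ext y z 0), mem_par h y z 0⟩, pr_apply h y z 0⟩

namespace D06_aux

/-- the standard subspace of dimension `a` -/
def W0 (F : Type) [Field F] {a b n : ℕ} (h : a + b = n) : Submodule F (Fin n → F) :=
  (LinearMap.range (LinearMap.inl F (Fin a → F) (Fin b → F))).map
    (pe F h : ((Fin a → F) × (Fin b → F)) →ₗ[F] (Fin n → F))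

theorem W0_finrank {a b n : ℕ} (h : a + b = n) : Module.finrank F (W0 F h) = a := by
  unfold W0
  rw [LinearEquiv.finrank_map_eq, LinearMap.finrank_range_of_inj LinearMap.inl_injective,
    Module.finrank_fin_fun]

theorem mem_W0 {a b n : ℕ} (h : a + b = n) (u : Fin a → F) : pe F h (u, 0) ∈ W0 F h :=
  ⟨(u, 0), ⟨u, rfl⟩, rfl⟩

theorem W0_mem {a b n : ℕ} (h : a + b = n) {v : Fin n → F} (hv : v ∈ W0 F h) :
    ∃ u, v = pe F h (u, 0) := by
  obtain ⟨p, ⟨u, rfl⟩, rfl⟩ := hv
  exact ⟨u, rfl⟩

theorem par_iff {a b n : ℕ} (h : a + b = n) (g : Gn F n) :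
    g ∈ Par F h ↔ (W0 F h).map (g : (Fin n → F) →ₗ[F] (Fin n → F)) = W0 F h := by
  constructor
  · rintro ⟨y, z, t, rfl⟩
    refine Submodule.eq_of_le_of_finrank_eq ?_ ?_
    · rintro _ ⟨v, hv, rfl⟩
      obtain ⟨u, rfl⟩ := W0_mem h hv
      have e : (blk F h (ext y z t)) (pe F h (u, 0)) = pe F h (y u, 0) := by
        show pe F h (ext y z t ((pe F h).symm (pe F h (u, 0)))) = _
        rw [LinearEquiv.symm_apply_apply, ext_apply]
        simp
      show (blk F h (ext y z t)) (pe F h (u, 0)) ∈ W0 F h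
      rw [e]
      exact mem_W0 h _
    · rw [LinearEquiv.finrank_map_eq]
  · intro hg
    have h1 : ∀ u : Fin a → F, (((blk F h).symm g) (u, 0)).2 = 0 := by
      intro u
      have h2 : g (pe F h (u, 0)) ∈ W0 F h := by
        rw [← hg]
        exact ⟨_, mem_W0 h u, rfl⟩
      obtain ⟨u', hu'⟩ := W0_mem h h2
      have h3 : ((blk F h).symm g) (u, 0) = (pe F h).symm (g (pe F h (u, 0))) := rfl
      rw [h3, hu', LinearEquiv.symm_apply_apply]
    obtain ⟨y, z, t, hyz⟩ := exists_ext ((blk F h).symm g) h1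
    exact ⟨y, z, t, by rw [← hyz, MulEquiv.apply_symm_apply]⟩

theorem exists_map {a b n : ℕ} (h : a + b = n) (W : Submodule F (Fin n → F))
    (hW : Module.finrank F W = a) :
    ∃ g : Gn F n, (W0 F h).map (g : (Fin n → F) →ₗ[F] (Fin n → F)) = W := by
  obtain ⟨C0, hC0⟩ := (W0 F h).exists_isCompl
  obtain ⟨C1, hC1⟩ := W.exists_isCompl
  have f0 := Submodule.finrank_add_eq_of_isCompl hC0
  have f1 := Submodule.finrank_add_eq_of_isCompl hC1
  rw [W0_finrank] at f0
  rw [hW] at f1
  let e1 : W0 F h ≃ₗ[F] W := LinearEquiv.ofFinrankEq _ _ (by rw [W0_finrank, hW])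
  let e2 : C0 ≃ₗ[F] C1 := LinearEquiv.ofFinrankEq _ _ (by omega)
  let g : Gn F n := (Submodule.prodEquivOfIsCompl (W0 F h) C0 hC0).symm.trans
    ((e1.prodCongr e2).trans (Submodule.prodEquivOfIsCompl W C1 hC1))
  refine ⟨g, Submodule.eq_of_le_of_finrank_eq ?_ ?_⟩
  · rintro _ ⟨v, hv, rfl⟩
    have e : g v = e1 ⟨v, hv⟩ := by
      show (Submodule.prodEquivOfIsCompl W C1 hC1) ((e1.prodCongr e2)
        ((Submodule.prodEquivOfIsCompl (W0 F h) C0 hC0).symm v)) = _
      have h1 : (Submodule.prodEquivOfIsCompl (W0 F h) C0 hC0).symm v = (⟨v, hv⟩, 0) :=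
        Submodule.prodEquivOfIsCompl_symm_apply_left (W0 F h) C0 hC0 ⟨v, hv⟩
      rw [h1]
      simp
    show g v ∈ W
    rw [e]
    exact (e1 ⟨v, hv⟩).2
  · rw [LinearEquiv.finrank_map_eq, W0_finrank, hW]

end D06_aux

theorem par_index [CharP F 2] {a b n : ℕ} (h : a + b = n) : Odd (Par F h).index := by
  have hodd := odd_subspaces (F := F) (n := n) (a := a) (by omega)
  have key : (Par F h).index =
      Nat.card {W : Submodule F (Fin n → F) // Module.finrank F W = a} := by
    unfold Subgroup.index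
    let φ : Gn F n ⧸ Par F h → {W : Submodule F (Fin n → F) // Module.finrank F W = a} :=
      Quotient.lift (fun g : Gn F n =>
        (⟨(D06_aux.W0 F h).map (g : (Fin n → F) →ₗ[F] (Fin n → F)), by
          rw [LinearEquiv.finrank_map_eq, D06_aux.W0_finrank]⟩ :
          {W : Submodule F (Fin n → F) // Module.finrank F W = a})) (by
        intro g g' hg
        have h1 : g⁻¹ * g' ∈ Par F h := QuotientGroup.leftRel_apply.1 hg
        rw [D06_aux.par_iff] at h1
        apply Subtype.ext
        show (D06_aux.W0 F h).map (g : (Fin n → F) →ₗ[F] (Fin n → F)) =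
          (D06_aux.W0 F h).map (g' : (Fin n → F) →ₗ[F] (Fin n → F))
        conv_lhs => rw [← h1]
        rw [← Submodule.map_comp]
        congr 1
        refine LinearMap.ext fun v => ?_
        exact LinearEquiv.apply_symm_apply g (g' v))
    refine Nat.card_congr (Equiv.ofBijective φ ⟨?_, ?_⟩)
    · intro q q'
      induction q using QuotientGroup.induction_on with | _ g => ?_
      induction q' using QuotientGroup.induction_on with | _ g' => ?_
      intro hq
      have h1 : (D06_aux.W0 F h).map (g : (Fin n → F) →ₗ[F] (Fin n → F)) =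
          (D06_aux.W0 F h).map (g' : (Fin n → F) →ₗ[F] (Fin n → F)) := congrArg Subtype.val hq
      rw [QuotientGroup.eq, D06_aux.par_iff]
      have h2 : ((g⁻¹ * g' : Gn F n) : (Fin n → F) →ₗ[F] (Fin n → F)) =
          ((g⁻¹ : Gn F n) : (Fin n → F) →ₗ[F] (Fin n → F)) ∘ₗ
            (g' : (Fin n → F) →ₗ[F] (Fin n → F)) := rfl
      rw [h2, Submodule.map_comp, ← h1, ← Submodule.map_comp]
      have h3 : ((g⁻¹ : Gn F n) : (Fin n → F) →ₗ[F] (Fin n → F)) ∘ₗ
            (g : (Fin n → F) →ₗ[F] (Fin n → F)) = LinearMap.id := by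
        refine LinearMap.ext fun v => ?_
        exact LinearEquiv.symm_apply_apply g v
      rw [h3, Submodule.map_id]
    · rintro ⟨W, hW⟩
      obtain ⟨g, hg⟩ := D06_aux.exists_map h W hW
      exact ⟨QuotientGroup.mk g, Subtype.ext hg⟩
  rw [key]
  exact hodd

variable {K : Type} [Field K] [CharZero K]

/-- parabolic induction of quadratic modules -/
def prodQ {a b n : ℕ} (h : a + b = n) (M : QM K (Gn F a)) (N : QM K (Gn F b)) :
    QM K (Gn F n) :=
  ((M.tens N).pb (pr F h)).ind

end

end ParkerGL
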