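import Pool.Agent.ParkerGL.D01
import Pool.Agent.ParkerGL.B07

/-!
# MP_6c3636_al, GL_n(q), module D07: derivatives of quadratic modules (helper7)

* nondegeneracy on `derS`: the projection `e = |H|⁻¹ ∑_{g ∈ H} ψ(sd u) ρ g` onto `derS`, `H = {blk (ext 1 u t) : u ∈ UG F k}`, is selfadjoint
  (`Parker.InvForm.inv`, `ψ (sd u⁻¹) = ψ (sd u)`), so `B x y = B x (e y)` for `x ∈ derS`.
* `dc_der`: `der_decomp`: `M.X` is the orthogonal direct sum of the translates `ρ(g i) (derS (dh (p i)))`, isometric to `derS (dh (p i))`; `dcf_sum`,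
  `dcf_iso`; the fibres of `p` are of odd cardinality and `dc * dc = 1` (`dcf_sq`).
* `der_ch`: `der_evR`.
-/

namespace ParkerGL

noncomputable section

open Classical

namespace D07_aux

variable {F : Type} [Field F] [Finite F] [CharP F 2] {K : Type} [Field K] [CharZero K]

private theorem psi_sq (ψ : AddChar F ℤ) (a : F) :
    ((ψ a : ℤ) : K) * ((ψ a : ℤ) : K) = 1 := by
  rcases psi_val ψ a with h | h
  · rw [h]; norm_num
  · rw [h]; norm_num

theorem der_nondeg {n a k : ℕ} (ψ : AddChar F ℤ) (h : a + k = n) {X : Type} [AddCommGroup X]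
    [Module K X] (ρ : Representation K (Gn F n) X) {B : LinearMap.BilinForm K X}
    (hB : Parker.InvForm ρ B) {x : X} (hx : x ∈ derS ψ h ρ)
    (hz : ∀ y ∈ derS ψ h ρ, B x y = 0) : x = 0 := by
  apply hB.nondeg
  intro y
  letI : Fintype (UG F k) := Fintype.ofFinite _
  letI : Fintype ((Fin k → F) →ₗ[F] (Fin a → F)) := Fintype.ofFinite _
  obtain ⟨e, he⟩ : ∃ e : X, e = ∑ p : UG F k × ((Fin k → F) →ₗ[F] (Fin a → F)),
      ((ψ (sd (p.1 : Gn F k)) : ℤ) : K) • ρ (blk F h (ext 1 (p.1 : Gn F k) p.2)) y := ⟨_, rfl⟩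
  have hmem : e ∈ derS ψ h ρ := by
    intro u hu t
    rw [he, map_sum, Finset.smul_sum]
    rw [← Equiv.sum_comp (Equiv.prodShear (Equiv.mulLeft (⟨u, hu⟩ : UG F k))
      (fun v => Equiv.addRight (t ∘ₗ ((v : Gn F k) : (Fin k → F) →ₗ[F] (Fin k → F)))))
      (fun p : UG F k × ((Fin k → F) →ₗ[F] (Fin a → F)) => ((ψ (sd u) : ℤ) : K) •
        ((ψ (sd (p.1 : Gn F k)) : ℤ) : K) • ρ (blk F h (ext 1 (p.1 : Gn F k) p.2)) y)]
    refine Finset.sum_congr rfl ?_
    rintro ⟨v, s⟩ _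
    show ρ (blk F h (ext 1 u t)) (((ψ (sd (v : Gn F k)) : ℤ) : K) •
        ρ (blk F h (ext 1 (v : Gn F k) s)) y) =
      ((ψ (sd u) : ℤ) : K) • ((ψ (sd (u * (v : Gn F k))) : ℤ) : K) •
        ρ (blk F h (ext 1 (u * (v : Gn F k))
          (s + t ∘ₗ ((v : Gn F k) : (Fin k → F) →ₗ[F] (Fin k → F))))) y
    have e1 : (ext (1 : Gn F a) (u * (v : Gn F k))
          (s + t ∘ₗ ((v : Gn F k) : (Fin k → F) →ₗ[F] (Fin k → F)))) =
        ext (1 : Gn F a) u t * ext (1 : Gn F a) (v : Gn F k) s := by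
      rw [ext_mul, one_mul]
      rfl
    rw [e1, map_mul, map_mul, sd_mul hu v.2, AddChar.map_add_eq_mul, Int.cast_mul, smul_smul,
      ← mul_assoc, psi_sq, one_mul, map_smul]
    rfl
  have hval : B x e = (Fintype.card (UG F k × ((Fin k → F) →ₗ[F] (Fin a → F))) : K) * B x y := by
    rw [he, map_sum]
    have h1 : ∀ p ∈ (Finset.univ : Finset (UG F k × ((Fin k → F) →ₗ[F] (Fin a → F)))),
        B x (((ψ (sd (p.1 : Gn F k)) : ℤ) : K) • ρ (blk F h (ext 1 (p.1 : Gn F k) p.2)) y) =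
          B x y := by
      intro p _
      have h2 := hB.inv (blk F h (ext 1 (p.1 : Gn F k) p.2)) x y
      rw [hx p.1 p.1.2 p.2, map_smul, LinearMap.smul_apply] at h2
      rw [map_smul]
      exact h2
    rw [Finset.sum_congr rfl h1, Finset.sum_const, Finset.card_univ, nsmul_eq_mul]
  rw [hz e hmem] at hval
  have hc : (Fintype.card (UG F k × ((Fin k → F) →ₗ[F] (Fin a → F))) : K) ≠ 0 :=
    Nat.cast_ne_zero.2 Fintype.card_pos.ne'
  exact (mul_eq_zero.1 hval.symm).resolve_left hc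

end D07_aux

variable {F : Type} [Field F] [Finite F] [CharP F 2] {K : Type} [Field K] [CharZero K]

/-- the derivative of a quadratic module -/
def QM.der {n a k : ℕ} (M : QM K (Gn F n)) (ψ : AddChar F ℤ) (h : a + k = n) :
    QM K (Gn F a) where
  X := derS ψ h M.ρ
  ρ := derR ψ h M.ρ
  B := M.B.restrict (derS ψ h M.ρ)
  inv :=
    { symm := fun x y => M.inv.symm x y
      nondeg := fun x hx => Subtype.ext
        (D07_aux.der_nondeg ψ h M.ρ M.inv x.2 (fun y hy => hx ⟨y, hy⟩))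
      inv := fun g x y => M.inv.inv (blk F h (ext g 1 0)) x y }

variable {Ω : Type} [Field Ω] [IsAlgClosed Ω] [CharZero Ω] {c : Parker.Ctx Ω}
  {Γ : Subgroup (RingAut Ω)} [Algebra K Ω]

theorem dc_der (hK : FixedField Γ K) {n : ℕ} (hn : 0 < n) (M : QM K (Gn F n))
    (ψ : AddChar F ℤ) (hψ : ∃ a, ψ a ≠ 1) :
    M.dc c Γ = ∏ i : Fin n, (M.der ψ (dh i)).dc c Γ := by
  obtain ⟨ι, hι, hd, p, g, hint, hodd, horth⟩ := der_decomp ψ hψ hn M.ρ
  have h1 : M.dc c Γ = ∏ j : ι,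
      dcf c Γ (M.B.restrict ((derS ψ (dh (p j)) M.ρ).map (M.ρ (g j)))) := by
    refine dcf_sum hK hint M.inv.nondeg ?_
    rintro i j hij _ ⟨x, hx, rfl⟩ _ ⟨y, hy, rfl⟩
    exact horth M.B M.inv i j hij x hx y hy
  have h2 : ∀ j : ι, dcf c Γ (M.B.restrict ((derS ψ (dh (p j)) M.ρ).map (M.ρ (g j)))) =
      (M.der ψ (dh (p j))).dc c Γ := by
    intro j
    have hinj : Function.Injective (M.ρ (g j)) := by
      intro x y hxy
      have h3 := congrArg (M.ρ (g j)⁻¹) hxy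
      rw [← Module.End.mul_apply, ← Module.End.mul_apply, ← map_mul, inv_mul_cancel, map_one] at h3
      exact h3
    exact dcf_iso hK (Submodule.equivMapOfInjective (M.ρ (g j)) hinj (derS ψ (dh (p j)) M.ρ))
      (fun x y => M.inv.inv (g j) x y)
  rw [h1, Finset.prod_congr rfl (fun j _ => h2 j),
    ← Finset.prod_fiberwise Finset.univ p (fun j => (M.der ψ (dh (p j))).dc c Γ)]
  refine Finset.prod_congr rfl ?_
  intro i _
  have h3 : ∏ j ∈ Finset.univ.filter (fun j => p j = i), (M.der ψ (dh (p j))).dc c Γ =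
      ∏ j ∈ Finset.univ.filter (fun j => p j = i), (M.der ψ (dh i)).dc c Γ := by
    refine Finset.prod_congr rfl ?_
    intro j hj
    rw [(Finset.mem_filter.1 hj).2]
  rw [h3, Finset.prod_const]
  have h4 : (Finset.univ.filter (fun j => p j = i)).card = Nat.card {j : ι // p j = i} := by
    rw [Nat.card_eq_fintype_card, Fintype.card_subtype]
  have h5 : (M.der ψ (dh i)).dc c Γ * (M.der ψ (dh i)).dc c Γ = 1 := dcf_sq hK _
  rw [h4]
  obtain ⟨r, hr⟩ := hodd i
  rw [hr, pow_succ, pow_mul, pow_two, h5, one_pow, one_mul]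

theorem der_ch {n a k : ℕ} (M : QM K (Gn F n)) (ψ : AddChar F ℤ) (h : a + k = n)
    {r : (glPSH F Ω).R} (hr : M.ch Ω = evR r n) :
    (M.der ψ h).ch Ω = evR (∑ c ∈ lvI F Ω k, (c.dl ψ : ℤ) • (glPSH F Ω).perp c r) a := by
  funext y
  exact der_evR ψ h M.ρ r (fun g => congrFun hr g) y

end

end ParkerGL
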