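import Pool.Agent.ParkerGL.D13
import Pool.Agent.ParkerGL.B08
import Pool.Agent.ParkerGL.D07
import Pool.Agent.ParkerGL.D02
import Pool.Agent.ParkerGL.C08

/-!
# MP_6c3636_al, GL_n(q), module D08: atoms: the determinant class of a module with character `z b` (helper7)

`t` is an atom of `glPSHX Ω ψ hψ`, `z = t.z`, `d = t.d`; all characters of `Gn F n`, `n ≤ N`, have fixed values (`AllFx`).

* `atom_der`: `M.ch = (z b).at n`, `n = b * d`, `b ≥ 1`. By `dc_der` `M.dc = ∏_i (M.der (dh i)).dc`. For `i + 1 ≠ d` the character of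
  `M.der (dh i)` is `evR (der (i+1) (el (z b)))` (`der_ch`; `PSHX.der` is the sum in `der_ch`, `der_apply`), whose constituents are not
  self dual (`t.der2`), so the class is `1` by `dc_nonreal` (multiplicity: `Parker.mul` and `ip_evR`). For `i + 1 = d` the character is
  `evR (el (z (b-1)))` by `t.der1`. The index `i = d - 1` exists as `d ≤ b * d = n`. [`M.der ψ h` for `h : a + d = n` and `M.der ψ (dh i)`: `a = n - 1 - i`
  (`subst`).]
* `lemS` (Lemma S): induction on `b`. `b = 0`: `b' = 0`, `Gn F 0` is trivial, `Zb.X` is a line (its character is the trivial character), so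
  `M.X` and `Za.X ⊗ Zb.X` have the same dimension (`z (a + 0) = z a` and `n = a'`), `φ` is injective (similarity, `u ≠ 0`), so bijective, and
  `M.dc = dcf (tform ..) = Za.dc ^ 1 * Zb.dc ^ (dim Za) ` by `dcf_sim`, `dcf_tform`; `dim Za` is odd (`t.odd`), the class of `u` is `1`.
  `b ≥ 1`: apply the induction hypothesis to `M.der ψ h₁` (`h₁ : (n - d) + d = n`), `Za`, `Zb.der ψ h₂` (`h₂ : (b' - d) + d = b'`) and the restriction of
  `φ` to `Za.X ⊗ derS`, which maps to `derS ψ h₁ M.ρ`: an element `blk h₁ (ext 1 u s)` (`u ∈ UG F d`) of `Gn F n` is of the form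
  `blk h (ext 1 z t)` with `z = blk h₂ (ext 1 u s')` (`s'` the lower part of `s`, `t` from the upper part), so it acts on `φ (x ⊗ y)` as
  `φ (x ⊗ z y)`. In the same way `blk h₁ (ext (blk h₃ (ext y z' t')) 1 0) = blk h (ext y (blk h₂ (ext z' 1 0)) t'')` gives the equivariance for
  `a' + (b' - d) = n - d`. (The tensor product `Za.X ⊗ derS` maps to `Za.X ⊗ Zb.X` by `TensorProduct.map id (subtype)` = `lTensor`.) Then by
  `atom_der` `M.dc = (M.der).dc = Za.dc * (Zb.der).dc = Za.dc * Zb.dc`.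
-/

set_option linter.unusedSectionVars false

namespace ParkerGL

noncomputable section

open Classical Parker.P23_aux

variable {F : Type} [Field F] [Finite F] [CharP F 2] {Ω : Type} [Field Ω] [IsAlgClosed Ω]
  [CharZero Ω] {c : Parker.Ctx Ω} {Γ : Subgroup (RingAut Ω)} {K : Type} [Field K] [CharZero K]
  [Algebra K Ω] {ψ : AddChar F ℤ} {hψ : ∃ a, ψ a ≠ 1}

/-- all characters of `GL_n(F)`, `n ≤ N`, have values fixed by `Γ` -/
def AllFx (F : Type) [Field F] [Finite F] {Ω : Type} [Field Ω] (Γ : Subgroup (RingAut Ω))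
    (N : ℕ) : Prop :=
  ∀ n ≤ N, ∀ φ ∈ Parker.irr Ω (Gn F n), ∀ g, Parker.Fx Γ (φ g)

namespace D08_aux

/-- `mul` is zero if the inner product is zero -/
theorem mul_zero_of_ip {G : Type} [Group G] [Finite G] {φ φ' : G → Ω} (h : Parker.ip φ φ' = 0) :
    Parker.mul φ φ' = 0 := by
  have h1 : ∃ k : ℕ, (k : Ω) = Parker.ip φ φ' := ⟨0, by rw [h, Nat.cast_zero]⟩
  unfold Parker.mul
  rw [dif_pos h1]
  have h2 : ((h1.choose : ℕ) : Ω) = 0 := h1.choose_spec.trans h
  exact_mod_cast h2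

theorem dc_der_congr {n a k a' k' : ℕ} (M : QM K (Gn F n)) (ψ : AddChar F ℤ) (h : a + k = n)
    (h' : a' + k' = n) (e : k = k') : (M.der ψ h).dc c Γ = (M.der ψ h').dc c Γ := by
  subst e
  have e2 : a = a' := by omega
  subst e2
  rfl

theorem qch_one {G : Type} [Group G] (M : QM K G) : M.ch Ω 1 = (Module.finrank K M.X : Ω) := by
  unfold QM.ch
  rw [Representation.char_one, map_natCast]

theorem finrank_of_ch {n : ℕ} (M : QM K (Gn F n)) {v : Irr F Ω} (hv : v.n = n) (hM : M.ch Ω = v.at n) :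
    Module.finrank K M.X = v.dim := by
  subst hv
  rw [Irr.at_self] at hM
  have h1 := qch_one (Ω := Ω) M
  rw [hM, ← (Parker.dg_spec v.mem).1] at h1
  exact_mod_cast h1.symm

theorem blk_pe {a b n : ℕ} (h : a + b = n) (g : GV F ((Fin a → F) × (Fin b → F)))
    (p : (Fin a → F) × (Fin b → F)) : blk F h g (pe F h p) = pe F h (g p) := by
  show trE (pe F h) g (pe F h p) = _
  rw [trE_apply, LinearEquiv.symm_apply_apply]

theorem pe_assoc {a b d n' b' n : ℕ} (h₁ : n' + d = n) (h₂ : b + d = b') (h₃ : a + b = n')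
    (h : a + b' = n) (x : Fin a → F) (y : Fin b → F) (z : Fin d → F) :
    pe F h₁ (pe F h₃ (x, y), z) = pe F h (x, pe F h₂ (y, z)) := by
  funext i
  by_cases hi : (i : ℕ) < a
  · rw [pe_apply_left h₁ _ i (by omega), pe_apply_left h _ i hi]
    show pe F h₃ (x, y) ⟨(i : ℕ), by omega⟩ = x ⟨(i : ℕ), hi⟩
    rw [pe_apply_left h₃ _ ⟨(i : ℕ), by omega⟩ hi]
  · by_cases hi2 : (i : ℕ) < n'
    · rw [pe_apply_left h₁ _ i hi2, pe_apply_right h _ i (by omega)]
      show pe F h₃ (x, y) ⟨(i : ℕ), hi2⟩ = pe F h₂ (y, z) ⟨(i : ℕ) - a, by omega⟩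
      rw [pe_apply_right h₃ _ ⟨(i : ℕ), hi2⟩ (by show a ≤ (i : ℕ); omega),
        pe_apply_left h₂ _ ⟨(i : ℕ) - a, by omega⟩ (by show (i : ℕ) - a < b; omega)]
    · rw [pe_apply_right h₁ _ i (by omega), pe_apply_right h _ i (by omega)]
      show z ⟨(i : ℕ) - n', by omega⟩ = pe F h₂ (y, z) ⟨(i : ℕ) - a, by omega⟩
      rw [pe_apply_right h₂ _ ⟨(i : ℕ) - a, by omega⟩ (by show b ≤ (i : ℕ) - a; omega)]
      show z _ = z _
      congr 1
      apply Fin.ext
      show (i : ℕ) - n' = (i : ℕ) - a - b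
      omega

theorem blk_assoc {a b d n' b' n : ℕ} (h₁ : n' + d = n) (h₂ : b + d = b') (h₃ : a + b = n')
    (h : a + b' = n) (y : Gn F a) (z : Gn F b) (u : Gn F d)
    (s : (Fin b → F) →ₗ[F] (Fin a → F)) (s₁ : (Fin d → F) →ₗ[F] (Fin a → F))
    (s₂ : (Fin d → F) →ₗ[F] (Fin b → F)) (σ : (Fin d → F) →ₗ[F] (Fin n' → F))
    (hσ : ∀ q, σ q = pe F h₃ (s₁ q, s₂ q)) :
    blk F h₁ (ext (blk F h₃ (ext y z s)) u σ) =
      blk F h (ext y (blk F h₂ (ext z u s₂))
        ((s ∘ₗ LinearMap.fst F _ _ + s₁ ∘ₗ LinearMap.snd F _ _) ∘ₗ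
          ((pe F h₂).symm : (Fin b' → F) →ₗ[F] ((Fin b → F) × (Fin d → F))))) := by
  apply LinearEquiv.ext
  intro v
  obtain ⟨⟨w, q⟩, rfl⟩ := (pe F h₁).surjective v
  obtain ⟨⟨x, p⟩, rfl⟩ := (pe F h₃).surjective w
  rw [blk_pe, pe_assoc h₁ h₂ h₃ h, blk_pe, ext_apply, ext_apply]
  show pe F h₁ (blk F h₃ (ext y z s) (pe F h₃ (x, p)) + σ q, u q) = pe F h (y x + (s ((pe F h₂).symm (pe F h₂ (p, q))).1 +
    s₁ ((pe F h₂).symm (pe F h₂ (p, q))).2), blk F h₂ (ext z u s₂) (pe F h₂ (p, q)))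
  rw [LinearEquiv.symm_apply_apply, blk_pe, blk_pe, ext_apply, ext_apply, hσ, ← map_add]
  show pe F h₁ (pe F h₃ (y x + s p + s₁ q, z p + s₂ q), u q) = _
  rw [pe_assoc h₁ h₂ h₃ h]
  show pe F h (y x + s p + s₁ q, pe F h₂ (z p + s₂ q, u q)) = pe F h (y x + (s p + s₁ q), pe F h₂ (z p + s₂ q, u q))
  rw [add_assoc]

/-- an element of the group of `derS` -/
theorem blk_der {a b d n' b' n : ℕ} (h₁ : n' + d = n) (h₂ : b + d = b') (h₃ : a + b = n')
    (h : a + b' = n) (u : Gn F d) (σ : (Fin d → F) →ₗ[F] (Fin n' → F)) :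
    ∃ (s₂ : (Fin d → F) →ₗ[F] (Fin b → F)) (τ : (Fin b' → F) →ₗ[F] (Fin a → F)),
      blk F h₁ (ext 1 u σ) = blk F h (ext 1 (blk F h₂ (ext 1 u s₂)) τ) := by
  have h2 := blk_assoc h₁ h₂ h₃ h 1 1 u 0
    (LinearMap.fst F _ _ ∘ₗ ((pe F h₃).symm : (Fin n' → F) →ₗ[F] ((Fin a → F) × (Fin b → F))) ∘ₗ σ)
    (LinearMap.snd F _ _ ∘ₗ ((pe F h₃).symm : (Fin n' → F) →ₗ[F] ((Fin a → F) × (Fin b → F))) ∘ₗ σ)
    σ (fun q => by
      show σ q = pe F h₃ ((pe F h₃).symm (σ q))
      rw [LinearEquiv.apply_symm_apply])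
  rw [ext_one, map_one] at h2
  exact ⟨_, _, h2⟩

theorem pow_odd {G : Type*} [Monoid G] {x : G} (hx : x * x = 1) {n : ℕ} (hn : Odd n) : x ^ n = x := by
  obtain ⟨k, rfl⟩ := hn
  rw [pow_succ, pow_mul, pow_two, hx, one_pow, one_mul]

theorem tform_sub {X Y : Type} [AddCommGroup X] [Module K X] [AddCommGroup Y] [Module K Y]
    (B : LinearMap.BilinForm K X) (B' : LinearMap.BilinForm K Y) (W : Submodule K Y)
    (w w' : TensorProduct K X W) :
    tform B B' (TensorProduct.map LinearMap.id W.subtype w) (TensorProduct.map LinearMap.id W.subtype w') =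
      tform B (B'.restrict W) w w' := by
  have h : (tform B B').compl₁₂ (TensorProduct.map LinearMap.id W.subtype)
      (TensorProduct.map LinearMap.id W.subtype) = tform B (B'.restrict W) :=
    bil_ext fun x y x' y' => rfl
  have h2 := congrArg (fun P => P w w') h
  exact h2

theorem map_sub_smul {X Y : Type} [AddCommGroup X] [Module K X] [AddCommGroup Y] [Module K Y]
    (f : X →ₗ[K] X) (g : Y →ₗ[K] Y) (W : Submodule K Y) (r : K) (hf : ∀ x, f x = x)
    (hg : ∀ y ∈ W, g y = r • y) (w : TensorProduct K X W) :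
    TensorProduct.map f g (TensorProduct.map LinearMap.id W.subtype w) =
      r • TensorProduct.map LinearMap.id W.subtype w := by
  have h : (TensorProduct.map f g) ∘ₗ (TensorProduct.map LinearMap.id W.subtype) =
      r • TensorProduct.map LinearMap.id W.subtype := by
    apply TensorProduct.ext'
    intro x y
    rw [LinearMap.comp_apply, TensorProduct.map_tmul, TensorProduct.map_tmul, LinearMap.smul_apply,
      TensorProduct.map_tmul, LinearMap.id_apply, hf, Submodule.subtype_apply, hg _ y.2,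
      TensorProduct.tmul_smul]
  have h2 := congrArg (fun P => P w) h
  exact h2

theorem map_sub_comm {X Y : Type} [AddCommGroup X] [Module K X] [AddCommGroup Y] [Module K Y]
    (f : X →ₗ[K] X) (g : Y →ₗ[K] Y) (W : Submodule K Y) (g' : W →ₗ[K] W)
    (hg : ∀ y : W, ((g' y : W) : Y) = g y) (w : TensorProduct K X W) :
    TensorProduct.map f g (TensorProduct.map LinearMap.id W.subtype w) =
      TensorProduct.map LinearMap.id W.subtype (TensorProduct.map f g' w) := by
  have h : (TensorProduct.map f g) ∘ₗ (TensorProduct.map LinearMap.id W.subtype) =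
      (TensorProduct.map LinearMap.id W.subtype) ∘ₗ (TensorProduct.map f g') := by
    apply TensorProduct.ext'
    intro x y
    rw [LinearMap.comp_apply, TensorProduct.map_tmul, TensorProduct.map_tmul, LinearMap.comp_apply,
      TensorProduct.map_tmul, TensorProduct.map_tmul, LinearMap.id_apply, LinearMap.id_apply,
      Submodule.subtype_apply, Submodule.subtype_apply, hg]
  have h2 := congrArg (fun P => P w) h
  exact h2

end D08_aux

open D08_aux

theorem atom_der (hK : FixedField Γ K) {N : ℕ} (hN : AllFx F Γ N) (t : Atom (glPSHX Ω ψ hψ))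
    {b n a : ℕ} (hb : 1 ≤ b) (hn : n = b * t.d) (hnN : n ≤ N) (h : a + t.d = n)
    (M : QM K (Gn F n)) (hM : M.ch Ω = (t.z b).at n) :
    M.dc c Γ = (M.der ψ h).dc c Γ ∧ (M.der ψ h).ch Ω = (t.z (b - 1)).at a := by
  have hd := t.hd
  have hM' : M.ch Ω = evR ((glPSH F Ω).el (t.z b)) n := by rw [hM, evR_el]
  have key : ∀ {a k : ℕ} (h : a + k = n),
      (M.der ψ h).ch Ω = evR ((glPSHX Ω ψ hψ).der k ((glPSHX Ω ψ hψ).el (t.z b))) a := by
    intro a k h
    rw [der_ch M ψ h hM', der_apply]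
    rfl
  constructor
  · have hi0 : t.d - 1 < n := by omega
    rw [dc_der hK (by omega) M ψ hψ, Finset.prod_eq_single (⟨t.d - 1, hi0⟩ : Fin n)]
    · exact dc_der_congr M ψ _ h (by show t.d - 1 + 1 = t.d; omega)
    · intro i _ hi
      have hi' : (i : ℕ) + 1 ≠ t.d := fun h1 => hi (Fin.ext (by show (i : ℕ) = t.d - 1; omega))
      refine dc_nonreal hK (hN _ (by omega)) _ fun φ hφ hm => ?_
      let v : Irr F Ω := ⟨n - 1 - i, φ, hφ⟩
      have hv : v.at (n - 1 - i) = φ := v.at_self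
      have hco : (glPSHX Ω ψ hψ).co ((glPSHX Ω ψ hψ).der ((i : ℕ) + 1) ((glPSHX Ω ψ hψ).el (t.z b))) v ≠ 0 := by
        intro h0
        apply hm
        apply mul_zero_of_ip
        rw [key (dh i), ← hv]
        have h1 := ip_evR (n := n - 1 - i) (v := v)
          ((glPSHX Ω ψ hψ).der ((i : ℕ) + 1) ((glPSHX Ω ψ hψ).el (t.z b))) rfl
        refine h1.trans ?_
        rw [← glPSHX_co ψ hψ, h0, Int.cast_zero]
      have h2 := t.der2 b ((i : ℕ) + 1) hb (by omega) hi' v hco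
      intro h3
      apply h2
      show (⟨n - 1 - i, Parker.du φ, Parker.du_mem_irr hφ⟩ : Irr F Ω) = ⟨n - 1 - i, φ, hφ⟩
      simp only [h3]
    · intro h1
      exact absurd (Finset.mem_univ _) h1
  · rw [key h, t.der1 b hb]
    exact evR_el _ _

theorem atom_finrank (t : Atom (glPSHX Ω ψ hψ)) {b n : ℕ} (hn : n = b * t.d)
    (M : QM K (Gn F n)) (hM : M.ch Ω = (t.z b).at n) : Odd (Module.finrank K M.X) := by
  have h1 : (t.z b).n = n := (t.deg b).trans hn.symm
  rw [finrank_of_ch M h1 hM]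
  have h2 : (((t.z b).dim : ℕ) : ZMod 2) = 1 := t.odd b
  exact ZMod.natCast_eq_one_iff_odd.1 h2

theorem lemS (hK : FixedField Γ K) {N : ℕ} (hN : AllFx F Γ N) (t : Atom (glPSHX Ω ψ hψ))
    (a b : ℕ) {a' b' n : ℕ} (ha : a' = a * t.d) (hb : b' = b * t.d) (h : a' + b' = n)
    (hnN : n ≤ N) (M : QM K (Gn F n)) (Za : QM K (Gn F a')) (Zb : QM K (Gn F b'))
    (hM : M.ch Ω = (t.z (a + b)).at n) (hZa : Za.ch Ω = (t.z a).at a')
    (hZb : Zb.ch Ω = (t.z b).at b') (φ : TensorProduct K Za.X Zb.X →ₗ[K] M.X)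
    (hφ : ∀ y z s w, M.ρ (blk F h (ext y z s)) (φ w) =
      φ (TensorProduct.map (Za.ρ y) (Zb.ρ z) w))
    {u : K} (hu : u ≠ 0) (hcl : cl c Γ (algebraMap K Ω u) = 1)
    (hsim : ∀ w w', M.B (φ w) (φ w') = u * tform Za.B Zb.B w w') :
    M.dc c Γ = Za.dc c Γ * Zb.dc c Γ := by
  induction b generalizing b' n with
  | zero =>
    have hoa := atom_finrank t ha Za hZa
    have hob := atom_finrank t hb Zb hZb
    have hnd := tform_nondeg Za.inv.nondeg Zb.inv.nondeg
    have hinj : Function.Injective φ := (injective_iff_map_eq_zero φ).2 fun w hw => by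
      apply hnd
      intro w'
      have h1 := hsim w w'
      rw [hw, map_zero, LinearMap.zero_apply] at h1
      exact (mul_eq_zero.1 h1.symm).resolve_left hu
    have h1 : Module.finrank K Zb.X = 1 := by
      rw [finrank_of_ch Zb (v := t.z 0) ((t.deg 0).trans hb.symm) hZb]
      have h2 : t.z 0 = oneI F Ω := t.z0
      rw [h2]
      have h3 : (((oneI F Ω).dim : ℕ) : Ω) = 1 := (Parker.dg_spec (oneI F Ω).mem).1
      exact_mod_cast h3
    have h2 : Module.finrank K (TensorProduct K Za.X Zb.X) = Module.finrank K M.X := by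
      rw [Module.finrank_tensorProduct, h1, mul_one,
        finrank_of_ch Za (v := t.z a) ((t.deg a).trans ha.symm) hZa,
        finrank_of_ch M (v := t.z (a + 0)) ((t.deg (a + 0)).trans (by rw [← h, ha, hb, add_zero, zero_mul, add_zero])) hM,
        add_zero]
    have h3 := dcf_sim (c := c) hK (LinearMap.linearEquivOfInjective φ hinj h2) hnd hu hsim
    have h4 := dcf_tform (c := c) hK Za.inv.nondeg Zb.inv.nondeg
    rw [h4, hcl, one_pow, one_mul, pow_odd (dcf_sq hK _) hob, pow_odd (dcf_sq hK _) hoa] at h3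
    exact h3
  | succ b ih =>
    have hd : b * t.d + t.d = b' := by rw [hb, Nat.succ_mul]
    have h₁ : (a' + b * t.d) + t.d = n := by rw [← h, ← hd, add_assoc]
    have hn : n = (a + (b + 1)) * t.d := by rw [← h, ha, hb, ← add_mul]
    obtain ⟨hM1, hM2⟩ := atom_der (c := c) hK hN t (b := a + (b + 1)) (by omega) hn hnN h₁ M hM
    obtain ⟨hZ1, hZ2⟩ := atom_der (c := c) hK hN t (b := b + 1) (by omega) hb (by omega) hd Zb hZb
    rw [hM1, hZ1]
    have hmem : ∀ w, (φ ∘ₗ TensorProduct.map LinearMap.id (derS ψ hd Zb.ρ).subtype) w ∈ derS ψ h₁ M.ρ := by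
      intro w v hv σ
      obtain ⟨s₂, τ, h2⟩ := blk_der h₁ hd rfl h v σ
      have h3 : ∀ x, Za.ρ 1 x = x := fun x => by rw [map_one]; rfl
      have h4 := map_sub_smul (Za.ρ 1) (Zb.ρ (blk F hd (ext 1 v s₂))) (derS ψ hd Zb.ρ)
        ((ψ (sd v) : ℤ) : K) h3 (fun y hy => hy v hv s₂) w
      rw [LinearMap.comp_apply, h2, hφ, h4, map_smul]
    refine ih (b' := b * t.d) (n := a' + b * t.d) rfl rfl (by omega) (M.der ψ h₁) (Zb.der ψ hd) ?_ ?_
      (LinearMap.codRestrict (derS ψ h₁ M.ρ)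
        (φ ∘ₗ TensorProduct.map LinearMap.id (derS ψ hd Zb.ρ).subtype) hmem) ?_ ?_
    · exact hM2
    · exact hZ2
    · intro y z s w
      apply Subtype.ext
      have h2 := blk_assoc h₁ hd rfl h y z 1 s 0 0 0 (fun q => by
        show (0 : Fin (a' + b * t.d) → F) = pe F rfl ((0 : Fin a' → F), (0 : Fin (b * t.d) → F))
        exact (map_zero (pe F rfl)).symm)
      show M.ρ (blk F h₁ (ext (blk F rfl (ext y z s)) 1 0))
        (φ (TensorProduct.map LinearMap.id (derS ψ hd Zb.ρ).subtype w)) =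
        φ (TensorProduct.map LinearMap.id (derS ψ hd Zb.ρ).subtype
          (TensorProduct.map (Za.ρ y) (derR ψ hd Zb.ρ z) w))
      rw [h2, hφ, map_sub_comm _ _ _ (derR ψ hd Zb.ρ z) (fun y => derR_coe ψ hd Zb.ρ z y)]
    · intro w w'
      show M.B (φ (TensorProduct.map LinearMap.id (derS ψ hd Zb.ρ).subtype w))
        (φ (TensorProduct.map LinearMap.id (derS ψ hd Zb.ρ).subtype w')) = _
      rw [hsim, tform_sub]
      rfl

end

end ParkerGL
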