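import Pool.Agent.ParkerGL.D12
import Pool.Agent.ParkerGL.D11
import Pool.Agent.ParkerGL.C09

/-!
# MP_6c3636_al, GL_n(q), module D10: the classes of the elements of single type (helper7)

`s : Gn F n → ℚ` skew with `detc φ s ≠ 0` for all `φ` which are not real of odd degree (`exists_generic`). `FF v` is the class of
`detc (v.at n) s`, and `1` if `v` is real of odd dimension. `FR r = ∏_{v ∈ lvI n} FF v ^ co r v` (integral powers), multiplicative in `r`: `FR (r + r') = FR r * FR r'`,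
`FR (-r) = (FR r)⁻¹`, `FR (el v) = FF v` if `v.n = n`.

* `FF_bar`: `detc_bar`. `FF_sq`: `detc_fixed`, `cl_sq`. So `FR (x + barR x) = FR x * FR x = 1` (`co_barR`; the map `v ↦ v.bar` permutes `lvI n`).
* `FR_zmon`: `r = ∏ el (z i)`, `i ∈ l`. If `l.sum * d ≠ n`, all `co r v = 0` for `v ∈ lvI n` (degrees). Otherwise take `Y` of `exists_prod`: by `cut_dc` the complement
  `Y' = Y.cut'` has `dc = 1`; its character is `evR (r - el (z l.sum)) n` (`t.co1`, `cut'_ch`), and has no real constituent of odd degree by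
  `t.only`, so `dc_formula` applies: `1 = ∏ φ, cl (detc φ s) ^ mul φ = ∏_{v ∈ lvI n} FF v ^ co (r - el (z l.sum)) v = FR (r - el (z l.sum)) = FR r` as
  `FF (z l.sum) = 1` (real of odd degree). (`sum_irr`-type reindexing of the product: use `Finset.prod` version; `mul = co`, by `ip_evR`, `Parker.mul_spec`.)
* `single`: the set of the `r` with `FR r = 1` is an additive subgroup which contains `zmon t` and the `x + barR x`, so it contains `el v`.
-/

namespace ParkerGL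

noncomputable section

open Classical

variable {F : Type} [Field F] [Finite F] [CharP F 2] {Ω : Type} [Field Ω] [IsAlgClosed Ω]
  [CharZero Ω] {c : Parker.Ctx Ω} {Γ : Subgroup (RingAut Ω)} {K : Type} [Field K] [CharZero K]
  [Algebra K Ω] {ψ : AddChar F ℤ} {hψ : ∃ a, ψ a ≠ 1}

/-- the class of `v` -/
def FF (c : Parker.Ctx Ω) (Γ : Subgroup (RingAut Ω)) {n : ℕ} (s : Gn F n → ℚ) (v : Irr F Ω) :
    Qg c Γ :=
  if v.bar = v ∧ Odd v.dim then 1 else cl c Γ (Parker.detc (v.at n) fun g => (s g : Ω))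

/-- the class of the element of `R` with the coefficients `r v` -/
def FR (c : Parker.Ctx Ω) (Γ : Subgroup (RingAut Ω)) {n : ℕ} (s : Gn F n → ℚ)
    (r : Irr F Ω → ℤ) : Qg c Γ :=
  ∏ v ∈ lvI F Ω n, FF c Γ s v ^ r v

namespace D10_aux

theorem gneg {A ι : Type*} [CommGroup A] (S : Finset ι) (f : ι → A) (r : ι → ℤ) :
    ∏ v ∈ S, f v ^ (- r v) = (∏ v ∈ S, f v ^ r v)⁻¹ := by
  rw [← Finset.prod_inv_distrib]
  exact Finset.prod_congr rfl fun v _ => zpow_neg _ _

theorem gsq {A ι : Type*} [CommGroup A] (S : Finset ι) (f : ι → A) (r : ι → ℤ)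
    (h : ∀ v ∈ S, f v * f v = 1) : (∏ v ∈ S, f v ^ r v) * ∏ v ∈ S, f v ^ r v = 1 := by
  rw [← Finset.prod_mul_distrib]
  refine Finset.prod_eq_one fun v hv => ?_
  rw [← mul_zpow, h v hv, one_zpow]

omit [CharP F 2] in
theorem FR_add {n : ℕ} (s : Gn F n → ℚ) (r r' : Irr F Ω → ℤ) :
    FR c Γ s (fun v => r v + r' v) = FR c Γ s r * FR c Γ s r' := by
  unfold FR
  rw [← Finset.prod_mul_distrib]
  exact Finset.prod_congr rfl fun v _ => zpow_add _ _ _

omit [CharP F 2] in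
theorem FR_neg {n : ℕ} (s : Gn F n → ℚ) (r : Irr F Ω → ℤ) :
    FR c Γ s (fun v => - r v) = (FR c Γ s r)⁻¹ := by
  exact gneg _ _ _

omit [CharP F 2] in
theorem FR_zero {n : ℕ} (s : Gn F n → ℚ) {r : Irr F Ω → ℤ} (h : ∀ v ∈ lvI F Ω n, r v = 0) :
    FR c Γ s r = 1 := by
  unfold FR
  exact Finset.prod_eq_one fun v hv => by rw [h v hv, zpow_zero]

omit [CharP F 2] in
theorem FF_sq {N : ℕ} (hN : AllFx F Γ N) {n : ℕ} (hnN : n ≤ N) (s : Gn F n → ℚ) {v : Irr F Ω}
    (hv : v ∈ lvI F Ω n) : FF c Γ s v * FF c Γ s v = 1 := by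
  have hn : v.n = n := mem_lvI.1 hv
  subst hn
  unfold FF
  split_ifs with h
  · exact one_mul (1 : Qg c Γ)
  · apply cl_sq
    rw [Irr.at_self]
    exact detc_fixed v.mem (hN v.n hnN v.φ v.mem) s

theorem FF_bar {n : ℕ} {s : Gn F n → ℚ} (hs : ∀ g, s g⁻¹ = - s g) {v : Irr F Ω}
    (hv : v ∈ lvI F Ω n) : FF c Γ s v.bar = FF c Γ s v := by
  have hn : v.n = n := mem_lvI.1 hv
  subst hn
  by_cases h : v.bar = v
  · rw [h]
  · have h' : ¬ (v.bar.bar = v.bar) := by
      rw [barI_barI]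
      exact fun h1 => h h1.symm
    unfold FF
    rw [if_neg (fun h1 => h' h1.1), if_neg (fun h1 => h h1.1)]
    have h1 : v.bar.at v.n = Parker.du v.φ := Irr.at_self v.bar
    rw [h1, Irr.at_self]
    exact detc_bar v.mem hs

omit [CharP F 2] in
theorem bar_mem {n : ℕ} {v : Irr F Ω} (hv : v ∈ lvI F Ω n) : v.bar ∈ lvI F Ω n := by
  rw [mem_lvI] at hv ⊢
  exact hv

theorem hom_list (t : Atom (glPSHX Ω ψ hψ)) (l : List ℕ) :
    (glPSHX Ω ψ hψ).Hom (l.sum * t.d) (l.map fun i => (glPSHX Ω ψ hψ).el (t.z i)).prod := by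
  induction l with
  | nil =>
    rw [List.sum_nil, zero_mul, List.map_nil, List.prod_nil]
    exact hom_one
  | cons b l ih =>
    rw [List.sum_cons, add_mul, List.map_cons, List.prod_cons]
    refine hom_mul ?_ ih
    rw [← t.deg b]
    exact hom_el (t.z b)

omit [CharP F 2] in
theorem prod_irr {n : ℕ} {M : Type*} [CommMonoid M] (f : (Gn F n → Ω) → M) :
    ∏ φ ∈ Parker.irr Ω (Gn F n), f φ = ∏ v ∈ lvI F Ω n, f (v.at n) := by
  have h := sum_irr (F := F) (Ω := Ω) (M := Additive M) n (fun φ => Additive.ofMul (f φ))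
  have h1 := congrArg Additive.toMul h
  rw [toMul_sum, toMul_sum] at h1
  exact h1

end D10_aux

open D10_aux

theorem FR_zmon (hK : FixedField Γ K) {N : ℕ} (hN : AllFx F Γ N) (t : Atom (glPSHX Ω ψ hψ))
    {n : ℕ} (hnN : n ≤ N) {s : Gn F n → ℚ} (hs : ∀ g, s g⁻¹ = - s g)
    (hd : ∀ φ ∈ Parker.irr Ω (Gn F n), ¬ (Parker.du φ = φ ∧ Odd (Parker.dg φ)) →
        Parker.detc φ (fun g => (s g : Ω)) ≠ 0) {r : (glPSHX Ω ψ hψ).R} (hr : r ∈ zmon t) :
    FR c Γ s (fun v => (glPSHX Ω ψ hψ).co r v) = 1 := by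
  obtain ⟨l, -, rfl⟩ := hr
  by_cases hn : n = l.sum * t.d
  swap
  · apply FR_zero
    intro v hv
    by_contra h0
    have h1 := hom_list t l v h0
    have h2 : v.n = n := mem_lvI.1 hv
    have h3 : v.n = l.sum * t.d := h1
    exact hn (h2.symm.trans h3)
  obtain ⟨Y, hYch, hYdc, hYcut⟩ := exists_prod (c := c) hK hN t l hn hnN
  have hrl : Rl Γ ((t.z l.sum).at n) := rl_z hN t hn hnN
  have hzn : (t.z l.sum).n = n := (t.deg l.sum).trans hn.symm
  have hzl : t.z l.sum ∈ lvI F Ω n := mem_lvI.2 hzn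
  set R0 : (glPSH F Ω).R := (l.map fun i => (glPSH F Ω).el (t.z i)).prod with hR0
  have hco1 : (glPSH F Ω).co R0 (t.z l.sum) = 1 := t.co1 l
  -- the multiplicities in `Y`
  have hmulY : ∀ v ∈ lvI F Ω n,
      (Parker.mul (Y.ch Ω) (v.at n) : Ω) = ((glPSH F Ω).co R0 v : Ω) := by
    intro v hv
    have hvn : v.n = n := mem_lvI.1 hv
    obtain ⟨τ, hτ, -, -⟩ := Y.ch_char (Ω := Ω)
    have hirr : v.at n ∈ Parker.irr Ω (Gn F n) := by
      subst hvn
      rw [Irr.at_self]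
      exact v.mem
    have h1 := Parker.mul_spec τ hirr
    rw [hτ] at h1
    rw [h1, hYch, ip_evR R0 hvn]
  have hmulz : Parker.mul (Y.ch Ω) ((t.z l.sum).at n) = 1 := by
    have h1 := hmulY _ hzl
    rw [hco1] at h1
    exact_mod_cast h1
  -- the complement
  set Y' := Y.cut' hK hrl with hY'
  have hY'dc : Y'.dc c Γ = 1 := by
    have h1 := Y.cut_dc (c := c) hK hrl
    rw [hYdc] at h1
    have h2 : (Y.cut hK hrl).dc c Γ = 1 := hYcut
    rw [h2] at h1
    exact (h1.trans (one_mul (M := Qg c Γ) _)).symm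
  have hY'ch : Y'.ch Ω = evR (R0 + - (glPSH F Ω).el (t.z l.sum)) n := by
    funext g
    rw [hY', Y.cut'_ch hK hrl g, hmulz, evR_add, evR_neg, evR_el, hYch, Nat.cast_one, one_mul,
      sub_eq_add_neg]
  have hco' : ∀ v, (glPSH F Ω).co (R0 + - (glPSH F Ω).el (t.z l.sum)) v =
      (glPSH F Ω).co R0 v - if v = t.z l.sum then 1 else 0 := by
    intro v
    rw [co_add, co_neg, co_el, sub_eq_add_neg]
  have hmulY' : ∀ v ∈ lvI F Ω n, (Parker.mul (Y'.ch Ω) (v.at n) : ℤ) =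
      (glPSH F Ω).co R0 v - if v = t.z l.sum then 1 else 0 := by
    intro v hv
    have hvn : v.n = n := mem_lvI.1 hv
    obtain ⟨τ, hτ, -, -⟩ := Y'.ch_char (Ω := Ω)
    have hirr : v.at n ∈ Parker.irr Ω (Gn F n) := by
      subst hvn
      rw [Irr.at_self]
      exact v.mem
    have h1 := Parker.mul_spec τ hirr
    rw [hτ, hY'ch, ip_evR _ hvn, hco' v, ← hY'ch] at h1
    exact_mod_cast h1
  -- real elements of odd degree
  have hodd : ∀ v ∈ lvI F Ω n, v.bar = v → Odd v.dim →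
      Parker.mul (Y'.ch Ω) (v.at n) = 0 := by
    intro v hv hb ho
    have h1 := hmulY' v hv
    by_cases hvz : v = t.z l.sum
    · rw [if_pos hvz] at h1
      have h2 : (glPSH F Ω).co R0 v = 1 := by rw [hvz]; exact hco1
      rw [h2, sub_self] at h1
      exact_mod_cast h1
    · rw [if_neg hvz, sub_zero] at h1
      by_contra h0
      refine hvz (t.only l v ?_ hb ?_)
      · have h2 : (glPSH F Ω).co R0 v ≠ 0 := by
          rw [← h1]
          exact_mod_cast h0
        exact h2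
      · show ((v.dim : ℕ) : ZMod 2) = 1
        exact ZMod.natCast_eq_one_iff_odd.2 ho
  have hd' : ∀ φ ∈ Parker.irr Ω (Gn F n), Parker.mul (Y'.ch Ω) φ ≠ 0 →
      Parker.detc φ (fun g => (s g : Ω)) ≠ 0 := by
    intro φ hφ hm
    apply hd φ hφ
    rintro ⟨h1, h2⟩
    let v : Irr F Ω := ⟨n, φ, hφ⟩
    have hv : v ∈ lvI F Ω n := mem_lvI.2 rfl
    have hat : v.at n = φ := Irr.at_self v
    apply hm
    rw [← hat]
    apply hodd v hv
    · show (⟨n, Parker.du φ, Parker.du_mem_irr hφ⟩ : Irr F Ω) = ⟨n, φ, hφ⟩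
      congr 1
    · exact h2
  have hform := dc_formula (c := c) hK Y' hs hd'
  rw [hY'dc, prod_irr] at hform
  rw [hform]
  unfold FR
  refine Finset.prod_congr rfl fun v hv => ?_
  by_cases hvr : v.bar = v ∧ Odd v.dim
  · have h1 : FF c Γ s v = 1 := by
      unfold FF
      rw [if_pos hvr]
    rw [h1, one_zpow, hodd v hv hvr.1 hvr.2, pow_zero]
  · have h1 : FF c Γ s v = cl c Γ (Parker.detc (v.at n) fun g => (s g : Ω)) := by
      unfold FF
      rw [if_neg hvr]
    have hvz : v ≠ t.z l.sum := by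
      intro h
      apply hvr
      rw [h]
      exact ⟨t.real _, ZMod.natCast_eq_one_iff_odd.1 (t.odd _)⟩
    have h2 := hmulY' v hv
    rw [if_neg hvz, sub_zero] at h2
    have h3 : (glPSHX Ω ψ hψ).co
        (l.map fun i => (glPSHX Ω ψ hψ).el (t.z i)).prod v = (glPSH F Ω).co R0 v := rfl
    beta_reduce
    rw [h1, h3, ← h2, zpow_natCast]

theorem FR_bar {N : ℕ} (hN : AllFx F Γ N) {n : ℕ} (hnN : n ≤ N) {s : Gn F n → ℚ}
    (hs : ∀ g, s g⁻¹ = - s g)
    (hd : ∀ φ ∈ Parker.irr Ω (Gn F n), ¬ (Parker.du φ = φ ∧ Odd (Parker.dg φ)) →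
        Parker.detc φ (fun g => (s g : Ω)) ≠ 0) (x : (glPSHX Ω ψ hψ).R) :
    FR c Γ s (fun v => (glPSHX Ω ψ hψ).co (x + (glPSHX Ω ψ hψ).barR x) v) = 1 := by
  have h1 : FR c Γ s (fun v => (glPSHX Ω ψ hψ).co (x + (glPSHX Ω ψ hψ).barR x) v) =
      FR c Γ s (fun v => (glPSHX Ω ψ hψ).co x v) *
        FR c Γ s (fun v => (glPSHX Ω ψ hψ).co x v.bar) := by
    rw [← FR_add]
    congr 1
    funext v
    rw [co_add, co_barR]
    rfl
  have h2 : FR c Γ s (fun v => (glPSHX Ω ψ hψ).co x v.bar) =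
      FR c Γ s (fun v => (glPSHX Ω ψ hψ).co x v) := by
    unfold FR
    refine Finset.prod_bij' (fun v _ => v.bar) (fun v _ => v.bar) (fun v hv => bar_mem hv)
      (fun v hv => bar_mem hv) (fun v _ => barI_barI v) (fun v _ => barI_barI v) ?_
    intro v hv
    rw [FF_bar hs hv]
  rw [h1, h2]
  exact gsq _ _ _ fun v hv => FF_sq hN hnN s hv

theorem single (hK : FixedField Γ K) {N : ℕ} (hN : AllFx F Γ N) (t : Atom (glPSHX Ω ψ hψ))
    {v : Irr F Ω} (hv : v.n ≤ N) {s : Gn F v.n → ℚ} (hs : ∀ g, s g⁻¹ = - s g)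
    (hd : ∀ φ ∈ Parker.irr Ω (Gn F v.n), ¬ (Parker.du φ = φ ∧ Odd (Parker.dg φ)) →
        Parker.detc φ (fun g => (s g : Ω)) ≠ 0)
    (hev : Even v.dim)
    (h : (glPSHX Ω ψ hψ).el v ∈
      AddSubgroup.closure (zmon t ∪ {r | ∃ x, r = x + (glPSHX Ω ψ hψ).barR x})) :
    cl c Γ (Parker.detc v.φ fun g => (s g : Ω)) = 1 := by
  have key : ∀ r ∈ AddSubgroup.closure (zmon t ∪ {r | ∃ x, r = x + (glPSHX Ω ψ hψ).barR x}),
      FR c Γ s (fun w => (glPSHX Ω ψ hψ).co r w) = 1 := by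
    intro r hr
    induction hr using AddSubgroup.closure_induction with
    | mem r hr =>
      rcases hr with hr | ⟨x, rfl⟩
      · exact FR_zmon hK hN t hv hs hd hr
      · exact FR_bar hN hv hs hd x
    | zero =>
      apply FR_zero
      intro w _
      exact co_zero w
    | add x y _ _ hx hy =>
      have h1 : (fun w => (glPSHX Ω ψ hψ).co (x + y) w) =
          fun w => (glPSHX Ω ψ hψ).co x w + (glPSHX Ω ψ hψ).co y w := by
        funext w
        exact co_add x y w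
      rw [h1, FR_add, hx, hy]
      exact one_mul (1 : Qg c Γ)
    | neg x _ hx =>
      have h1 : (fun w => (glPSHX Ω ψ hψ).co (-x) w) =
          fun w => - (glPSHX Ω ψ hψ).co x w := by
        funext w
        exact co_neg x w
      rw [h1, FR_neg, hx, inv_one]
  have h1 := key _ h
  have hvm : v ∈ lvI F Ω v.n := mem_lvI.2 rfl
  unfold FR at h1
  rw [Finset.prod_eq_single v] at h1
  · have h2 : (glPSHX Ω ψ hψ).co ((glPSHX Ω ψ hψ).el v) v = 1 := by
      rw [co_el, if_pos rfl]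
    beta_reduce at h1
    rw [h2, zpow_one] at h1
    unfold FF at h1
    rw [if_neg (fun h3 => (Nat.not_odd_iff_even.2 hev) h3.2), Irr.at_self] at h1
    exact h1
  · intro w _ hw
    have h2 : (glPSHX Ω ψ hψ).co ((glPSHX Ω ψ hψ).el v) w = 0 := by
      rw [co_el, if_neg hw]
    beta_reduce
    rw [h2, zpow_zero]
  · intro h2
    exact absurd hvm h2

end

end ParkerGL
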