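import Pool.Agent.ParkerGL.D09

/-!
# MP_6c3636_al, GL_n(q), module D12: quadratic modules with the characters `∏ z b_i` (helper7)

`t` an atom of `glPSHX Ω ψ hψ`, `z = t.z`, `d = t.d`.

* `exists_prod`: induction on `l`. `l = []`: `n = 0`, trivial module. `l = b :: l'`: let `Y'` be the module for `l'` (character
  `evR (∏ l')`, `dc = 1`, `dc (cut (z c')) = 1`, `c' = l'.sum`), `Z` with character `z b` and `dc = 1`; `Y = prodQ h Z Y'`
  (`h : b * d + c' * d = n`). `Y.dc = 1` by `prodQ_dc`. Its character is right by `prodQ_ch`. Let `X = Y.cut` for `φ = (z (b + c')).at n`; its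
  character is `φ` (`t.co1`). Let `A₀ ⊆ Z.X ⊗ Y'.X` be the image of `Z.X ⊗ range (Y'.E φ')`, `φ' = (z c').at _`, i.e. the range of `TensorProduct.map id (Y'.E φ')`, or of
  `lTensor`. Its character as a module of `Par h` (through `pr h`) is `α = ((z b).at) ⊗ φ'` inflated, an irreducible character of `Par h`
  (`tensor_irr`, and inflation along the surjection `pr h`), and `ip α (φ|Par) = m (z (b+c')) (z b) (z c') = 1` (`t.mul1`; the inner product over `Par h` of
  an inflated function with `φ` is the inner product over `Gn F a × Gn F b` with the coproduct of `φ`: sum over the fibres of `pr`). `lemR` gives `u` with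
  `algebraMap u = φ 1 * |P| * |G|⁻¹ * (α 1)⁻¹`, whose class is `1`: `φ 1`, `α 1`, `[G : P]` are odd (`t.odd`, `par_index`). So the map `w ↦ Y.E φ (iota w)` on
  `Z.X ⊗ (Y'.cut φ').X ≃ A₀` is as required in `lemS` (`E_iota_comm`), with `Zb = Y'.cut φ'`, and `X.dc = Z.dc * (Y'.cut φ').dc = 1`.
-/

namespace ParkerGL

noncomputable section

open Classical Parker.P23_aux

variable {F : Type} [Field F] [Finite F] [CharP F 2] {Ω : Type} [Field Ω] [IsAlgClosed Ω]
  [CharZero Ω] {c : Parker.Ctx Ω} {Γ : Subgroup (RingAut Ω)} {K : Type} [Field K] [CharZero K]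
  [Algebra K Ω] {ψ : AddChar F ℤ} {hψ : ∃ a, ψ a ≠ 1}

namespace D12_aux

omit [CharP F 2] in
/-- the parametrization of the parabolic subgroup -/
def parEq {a b n : ℕ} (h : a + b = n) :
    ((Gn F a × Gn F b) × ((Fin b → F) →ₗ[F] (Fin a → F))) ≃ Par F h :=
  Equiv.ofBijective (fun p => ⟨blk F h (ext p.1.1 p.1.2 p.2), mem_par h _ _ _⟩) (by
    constructor
    · intro p q hpq
      have h1 := congrArg Subtype.val hpq
      have h2 := ext_inj ((blk F h).injective h1)
      exact Prod.ext (Prod.ext h2.1 h2.2.1) h2.2.2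
    · rintro ⟨g, y, z, t, rfl⟩
      exact ⟨((y, z), t), rfl⟩)

end D12_aux

open D12_aux

/-- the inner product over the parabolic subgroup with an inflated function is the inner product
with the coproduct -/
theorem ip_par {a b n : ℕ} (h : a + b = n) (v : Irr F Ω) (α : Gn F a → Ω) (β : Gn F b → Ω) :
    Parker.ip (fun p : Par F h => α (pr F h p).1 * β (pr F h p).2) (fun p => v.at n p) =
      Parker.ip (fun p : Gn F a × Gn F b => α p.1 * β p.2)
        (fun p => v.cf.cop (Fin a → F) (Fin b → F) p.1 p.2) := by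
  have := Fintype.ofFinite (Par F h)
  have := Fintype.ofFinite (Gn F a × Gn F b)
  have := Fintype.ofFinite ((Fin b → F) →ₗ[F] (Fin a → F))
  rw [Parker.ip_comm, Parker.ip_comm (fun p : Gn F a × Gn F b => α p.1 * β p.2), Parker.ip_eq,
    Parker.ip_eq]
  have hc : Nat.card (Par F h) =
      Nat.card (Gn F a × Gn F b) * Nat.card ((Fin b → F) →ₗ[F] (Fin a → F)) := by
    rw [← Nat.card_prod]
    exact (Nat.card_congr (parEq h)).symm
  rw [← (parEq h).sum_comp, Fintype.sum_prod_type, hc, Nat.cast_mul, mul_inv, mul_assoc,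
    Finset.mul_sum]
  congr 1
  refine Finset.sum_congr rfl fun q _ => ?_
  have h1 : ∀ t : (Fin b → F) →ₗ[F] (Fin a → F),
      v.at n ((parEq h (q, t) : Par F h) : Gn F n) *
        (α (pr F h (parEq h (q, t))⁻¹).1 * β (pr F h (parEq h (q, t))⁻¹).2) =
      v.cf.val ((Fin a → F) × (Fin b → F)) (ext q.1 q.2 t) * (α q⁻¹.1 * β q⁻¹.2) := by
    intro t
    have h2 : pr F h (parEq h (q, t)) = q := pr_apply h q.1 q.2 t
    rw [map_inv, h2]
    congr 1
    exact CF.val_blk v.cf h (ext q.1 q.2 t)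
  rw [Finset.sum_congr rfl fun t _ => h1 t, ← Finset.sum_mul, ← mul_assoc]
  congr 1
  show _ = (Nat.card ((Fin b → F) →ₗ[F] (Fin a → F)) : Ω)⁻¹ *
    ∑ᶠ t : (Fin b → F) →ₗ[F] (Fin a → F), v.cf.val ((Fin a → F) × (Fin b → F)) (ext q.1 q.2 t)
  rw [finsum_eq_sum_of_fintype]

/-- inflated irreducible characters -/
theorem infl_irr {a b n : ℕ} (h : a + b = n) {α : Gn F a → Ω} {β : Gn F b → Ω}
    (hα : α ∈ Parker.irr Ω (Gn F a)) (hβ : β ∈ Parker.irr Ω (Gn F b)) :
    (fun p : Par F h => α (pr F h p).1 * β (pr F h p).2) ∈ Parker.irr Ω (Par F h) := by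
  obtain ⟨m, τ, hτ, hτc⟩ := Parker.mem_irr.1 (tensor_irr hα hβ)
  refine Parker.mem_irr.2 ⟨m, Parker.P13_aux.pb (pr F h) τ,
    Parker.P13_aux.pb_irr (pr_surjective h) hτ, ?_⟩
  funext p
  rw [Parker.P13_aux.pb_char, hτc]

namespace D12_aux

section lin

variable {k : Type} [Field k] {V W : Type} [AddCommGroup V] [Module k V] [AddCommGroup W]
  [Module k W]

theorem lT_comm (U : Submodule k W) (f : Module.End k V) (g : Module.End k W)
    (hg : ∀ x ∈ U, g x ∈ U) (w : TensorProduct k V U) :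
    TensorProduct.map f g (LinearMap.lTensor V U.subtype w) =
      LinearMap.lTensor V U.subtype (TensorProduct.map f (g.restrict hg) w) := by
  have h : (TensorProduct.map f g) ∘ₗ (LinearMap.lTensor V U.subtype) =
      (LinearMap.lTensor V U.subtype) ∘ₗ (TensorProduct.map f (g.restrict hg)) :=
    TensorProduct.ext' fun x y => rfl
  exact congrArg (fun T : TensorProduct k V U →ₗ[k] TensorProduct k V W => T w) h

theorem lT_inj (U : Submodule k W) : Function.Injective (LinearMap.lTensor V U.subtype) :=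
  Module.Flat.lTensor_preserves_injective_linearMap _ U.injective_subtype

theorem lT_form (U : Submodule k W) (B : LinearMap.BilinForm k V) (B' : LinearMap.BilinForm k W)
    (w w' : TensorProduct k V U) :
    tform B B' (LinearMap.lTensor V U.subtype w) (LinearMap.lTensor V U.subtype w') =
      tform B (B'.restrict U) w w' := by
  have h : (tform B B').compl₁₂ (LinearMap.lTensor V U.subtype) (LinearMap.lTensor V U.subtype) =
      tform B (B'.restrict U) := bil_ext fun _ _ _ _ => rfl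
  exact congrArg (fun T : LinearMap.BilinForm k (TensorProduct k V U) => T w w') h

theorem lT_trace [FiniteDimensional k V] [FiniteDimensional k W] (U : Submodule k W)
    (f : Module.End k V) (g : Module.End k W)
    (hg : ∀ x ∈ U, g x ∈ U) (hA : ∀ x ∈ LinearMap.range (LinearMap.lTensor V U.subtype),
      TensorProduct.map f g x ∈ LinearMap.range (LinearMap.lTensor V U.subtype)) :
    LinearMap.trace k _ ((TensorProduct.map f g).restrict hA) =
      LinearMap.trace k V f * LinearMap.trace k U (g.restrict hg) := by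
  let e : TensorProduct k V U ≃ₗ[k] LinearMap.range (LinearMap.lTensor V U.subtype) :=
    LinearEquiv.ofInjective _ (lT_inj U)
  have h : (TensorProduct.map f g).restrict hA = e.conj (TensorProduct.map f (g.restrict hg)) := by
    apply LinearMap.ext
    intro x
    obtain ⟨w, rfl⟩ := e.surjective x
    apply Subtype.ext
    rw [LinearEquiv.conj_apply_apply, LinearEquiv.symm_apply_apply]
    exact lT_comm U f g hg w
  rw [h, LinearMap.trace_conj', LinearMap.trace_tensorProduct']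

end lin

theorem mul_of_ip {G : Type} [Group G] [Finite G] {χ φ : G → Ω} {k : ℕ}
    (h : Parker.ip χ φ = (k : Ω)) : Parker.mul χ φ = k := by
  have h1 : ∃ k : ℕ, (k : Ω) = Parker.ip χ φ := ⟨k, h.symm⟩
  unfold Parker.mul
  rw [dif_pos h1]
  have h2 := h1.choose_spec
  exact_mod_cast h2.trans h

section

variable {G : Type} [Group G] [Finite G]

theorem cut_one (hK : FixedField Γ K) (M : QM K G) {φ : G → Ω} (h : Rl Γ φ)
    (hm : Parker.ip (M.ch Ω) φ = 1) : (M.cut hK h).ch Ω = φ := by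
  funext g
  rw [M.cut_ch hK h g, mul_of_ip (k := 1) (by rw [hm, Nat.cast_one]), Nat.cast_one, one_mul]

theorem ch_one (M : QM K G) : M.ch Ω 1 = (Module.finrank K M.X : Ω) := by
  show algebraMap K Ω (M.ρ.character 1) = _
  rw [Representation.char_one, map_natCast]

theorem cut_dc_irr (hK : FixedField Γ K) (M : QM K G) {φ : G → Ω} (h : Rl Γ φ)
    (hM : M.ch Ω = φ) : (M.cut hK h).dc c Γ = M.dc c Γ := by
  have h1 : Parker.ip φ φ = 1 := by rw [Parker.ip_irr h.irr h.irr, if_pos rfl]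
  have h2 : (M.cut' hK h).ch Ω 1 = 0 := by
    rw [M.cut'_ch hK h, hM, mul_of_ip (k := 1) (by rw [h1, Nat.cast_one]), Nat.cast_one, one_mul,
      sub_self]
  rw [ch_one] at h2
  have h3 : Module.finrank K (M.cut' hK h).X = 0 := by exact_mod_cast h2
  have h4 : (M.cut' hK h).dc c Γ = 1 := dcf_finrank_zero h3 _
  rw [M.cut_dc (c := c) hK h, h4]
  exact (mul_one (M := Qg c Γ) (QM.dc c Γ (M.cut hK h))).symm

end

theorem at_one (v : Irr F Ω) {n : ℕ} (h : v.n = n) : v.at n 1 = (v.dim : Ω) := by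
  subst h
  rw [Irr.at_self]
  exact (Parker.dg_spec v.mem).1.symm

theorem odd_dim {v : Irr F Ω} (h : (v.dim : ZMod 2) = 1) : Odd v.dim := by
  exact ZMod.natCast_eq_one_iff_odd.1 h

theorem ip_cop (v a b : Irr F Ω) {a1 b1 : ℕ} (ha : a.n = a1) (hb : b.n = b1) :
    Parker.ip (fun p : Gn F a1 × Gn F b1 => a.at a1 p.1 * b.at b1 p.2)
        (fun p => v.cf.cop (Fin a1 → F) (Fin b1 → F) p.1 p.2) = (mI v a b : Ω) := by
  subst ha hb
  rw [Parker.ip_comm, Irr.at_self, Irr.at_self, mI_spec]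

end D12_aux
namespace D12_aux

theorem step (hK : FixedField Γ K) {N : ℕ} (hN : AllFx F Γ N) (t : Atom (glPSHX Ω ψ hψ))
    {b b' a1 b1 n : ℕ} (ha1 : a1 = b * t.d) (hb1 : b1 = b' * t.d) (h : a1 + b1 = n)
    (hnN : n ≤ N) (hn : n = (b + b') * t.d) (Z : QM K (Gn F a1)) (Y' : QM K (Gn F b1))
    (hZ : Z.ch Ω = (t.z b).at a1) (hφ' : Rl Γ ((t.z b').at b1))
    (hφ : Rl Γ ((t.z (b + b')).at n)) (hY' : Parker.ip (Y'.ch Ω) ((t.z b').at b1) = 1)
    (hY : Parker.ip ((prodQ h Z Y').ch Ω) ((t.z (b + b')).at n) = 1) :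
    ((prodQ h Z Y').cut hK hφ).dc c Γ = Z.dc c Γ * (Y'.cut hK hφ').dc c Γ := by
  have hda : (t.z b).n = a1 := (t.deg b).trans ha1.symm
  have hdb : (t.z b').n = b1 := (t.deg b').trans hb1.symm
  have hdn : (t.z (b + b')).n = n := (t.deg (b + b')).trans hn.symm
  have hZr : (t.z b).at a1 ∈ Parker.irr Ω (Gn F a1) := (rl_z hN t ha1 (by omega)).irr
  have hcut : (Y'.cut hK hφ').ch Ω = (t.z b').at b1 := cut_one hK Y' hφ' hY'
  let U : Submodule K Y'.X := LinearMap.range (Y'.E ((t.z b').at b1))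
  let ι : TensorProduct K Z.X U →ₗ[K] TensorProduct K Z.X Y'.X := LinearMap.lTensor Z.X U.subtype
  have hU : ∀ g, ∀ x ∈ U, Y'.ρ g x ∈ U := by
    rintro g _ ⟨x, rfl⟩
    refine ⟨Y'.ρ g x, ?_⟩
    have := congrArg (fun T : Module.End K Y'.X => T x) (Y'.E_comm hK hφ' g)
    exact this.symm
  let M0 : QM K (Par F h) := (Z.tens Y').pb (pr F h)
  let A₀ : Submodule K M0.X := LinearMap.range ι
  have hρ : ∀ g w, M0.ρ g (ι w) = ι (TensorProduct.map (Z.ρ (pr F h g).1)
      ((Y'.ρ (pr F h g).2).restrict (fun x hx => hU _ x hx)) w) := by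
    intro g w
    exact lT_comm U (Z.ρ (pr F h g).1) (Y'.ρ (pr F h g).2) (fun x hx => hU _ x hx) w
  have hA : ∀ g, ∀ x ∈ A₀, M0.ρ g x ∈ A₀ := by
    rintro g _ ⟨w, rfl⟩
    exact ⟨_, (hρ g w).symm⟩
  have hch : ∀ g, algebraMap K Ω ((subR M0.ρ A₀ hA).character g) =
      (t.z b).at a1 (pr F h g).1 * (t.z b').at b1 (pr F h g).2 := by
    intro g
    have h1 : (subR M0.ρ A₀ hA).character g = Z.ρ.character (pr F h g).1 *
        (Y'.cut hK hφ').ρ.character (pr F h g).2 :=
      lT_trace U (Z.ρ (pr F h g).1) (Y'.ρ (pr F h g).2) (fun x hx => hU _ x hx)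
        (fun x hx => hA g x hx)
    rw [h1, map_mul]
    exact congrArg₂ (· * ·) (congrFun hZ _) (congrFun hcut _)
  have hm : Parker.ip (fun g : Par F h => (t.z b).at a1 (pr F h g).1 *
      (t.z b').at b1 (pr F h g).2) (fun p : Par F h => (t.z (b + b')).at n p) = 1 := by
    rw [ip_par, ip_cop (t.z (b + b')) (t.z b) (t.z b') hda hdb]
    have h2 : mI (t.z (b + b')) (t.z b) (t.z b') = 1 := t.mul1 b b'
    rw [h2, Nat.cast_one]
  obtain ⟨u, hu, hsim⟩ := lemR hK M0 A₀ hA hφ (infl_irr h hZr hφ'.irr) hch hm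
  -- the absolute value of `u` is one
  have hidx : Odd (Par F h).index := par_index h
  have hcard : (Nat.card (Gn F n) : Ω) = (Nat.card (Par F h) : Ω) * ((Par F h).index : Ω) := by
    rw [← Nat.cast_mul, Subgroup.card_mul_index]
  have hPne : (Nat.card (Par F h) : Ω) ≠ 0 := by
    exact_mod_cast (Nat.card_pos (α := Par F h)).ne'
  have hd1 : Odd (t.z b).dim := odd_dim (t.odd b)
  have hd2 : Odd (t.z b').dim := odd_dim (t.odd b')
  have hd3 : Odd (t.z (b + b')).dim := odd_dim (t.odd (b + b'))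
  have hu' : algebraMap K Ω u = ((t.z (b + b')).dim : Ω) * (((Par F h).index : ℕ) : Ω)⁻¹ *
      ((((t.z b).dim * (t.z b').dim : ℕ) : Ω))⁻¹ := by
    rw [hu, hcard, at_one _ hdn, map_one]
    show _ * _ * _ * ((t.z b).at a1 1 * (t.z b').at b1 1)⁻¹ = _
    rw [at_one _ hda, at_one _ hdb, mul_inv (Nat.card (Par F h) : Ω), Nat.cast_mul]
    field_simp
  have hav : c.av (algebraMap K Ω u) = 1 := by
    rw [hu', map_mul, map_mul, map_inv₀, map_inv₀, c.odd _ hd3, c.odd _ hidx,
      c.odd _ (hd1.mul hd2)]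
    norm_num
  have hune : u ≠ 0 := by
    rintro rfl
    rw [map_zero, map_zero] at hav
    exact zero_ne_one hav
  -- the similarity
  let T : TensorProduct K Z.X (Y'.cut hK hφ').X →ₗ[K] ((prodQ h Z Y').cut hK hφ).X :=
    (M0.ind.E ((t.z (b + b')).at n)).rangeRestrict ∘ₗ M0.iota ∘ₗ ι
  refine lemS hK hN t b b' ha1 hb1 h hnN ((prodQ h Z Y').cut hK hφ) Z (Y'.cut hK hφ')
    (cut_one hK _ hφ hY) hZ hcut T ?_ hune (cl_of_av hav) ?_
  · intro y z s w
    apply Subtype.ext
    have h3 := E_iota_comm hK M0 hφ ⟨blk F h (ext y z s), mem_par h y z s⟩ (ι w)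
    have h4 : pr F h ⟨blk F h (ext y z s), mem_par h y z s⟩ = (y, z) := pr_apply h y z s
    have h5 := hρ ⟨blk F h (ext y z s), mem_par h y z s⟩ w
    rw [h4] at h5
    have h6 : M0.ρ ⟨blk F h (ext y z s), mem_par h y z s⟩ (ι w) =
        ι (TensorProduct.map (Z.ρ y) ((Y'.cut hK hφ').ρ z) w) := h5
    exact h3.trans (congrArg (fun x => M0.ind.E ((t.z (b + b')).at n) (M0.iota x)) h6)
  · intro w w'
    have h3 := hsim (ι w) ⟨w, rfl⟩ (ι w') ⟨w', rfl⟩
    exact h3.trans (congrArg (fun x => u * x) (lT_form U Z.B Y'.B w w'))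

theorem hom_z (t : Atom (glPSHX Ω ψ hψ)) (b : ℕ) :
    (glPSH F Ω).Hom (b * t.d) ((glPSH F Ω).el (t.z b)) := by
  have h := hom_el (P := glPSH F Ω) (t.z b)
  have h1 : (glPSH F Ω).deg (t.z b) = b * t.d := t.deg b
  rw [h1] at h
  exact h

theorem hom_prod (t : Atom (glPSHX Ω ψ hψ)) (l : List ℕ) :
    (glPSH F Ω).Hom (l.sum * t.d) (l.map fun i => (glPSH F Ω).el (t.z i)).prod := by
  induction l with
  | nil =>
    rw [List.map_nil, List.prod_nil, List.sum_nil, zero_mul]
    exact hom_one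
  | cons b l ih =>
    rw [List.map_cons, List.prod_cons, List.sum_cons, add_mul]
    exact hom_mul (hom_z t b) ih

theorem ip_prod (t : Atom (glPSHX Ω ψ hψ)) (l : List ℕ) {n : ℕ} (hn : n = l.sum * t.d) :
    Parker.ip (evR (l.map fun i => (glPSH F Ω).el (t.z i)).prod n) ((t.z l.sum).at n) =
      (1 : Ω) := by
  have h1 : (t.z l.sum).n = n := (t.deg l.sum).trans hn.symm
  have h2 : (glPSH F Ω).co (l.map fun i => (glPSH F Ω).el (t.z i)).prod (t.z l.sum) = 1 :=
    t.co1 l
  rw [ip_evR _ h1, h2, Int.cast_one]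

end D12_aux

theorem exists_prod (hK : FixedField Γ K) {N : ℕ} (hN : AllFx F Γ N)
    (t : Atom (glPSHX Ω ψ hψ)) (l : List ℕ) {n : ℕ} (hn : n = l.sum * t.d) (hnN : n ≤ N) :
    ∃ Y : QM K (Gn F n),
      Y.ch Ω = evR (l.map fun i => (glPSH F Ω).el (t.z i)).prod n ∧ Y.dc c Γ = 1 ∧
        (Y.cut hK (rl_z hN t hn hnN)).dc c Γ = 1 := by
  induction l generalizing n with
  | nil =>
    obtain ⟨Z, hZ, hZd⟩ := exists_Z (c := c) hK hN t (b := 0) hn hnN
    refine ⟨Z, ?_, hZd, ?_⟩
    · have h1 : ((([] : List ℕ).map fun i => (glPSH F Ω).el (t.z i)).prod : (glPSH F Ω).R) =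
          (glPSH F Ω).el (oneI F Ω) := rfl
      have h2 : t.z 0 = oneI F Ω := t.z0
      rw [h1, evR_el, hZ, h2]
    · rw [← hZd]
      exact cut_dc_irr hK Z _ hZ
  | cons b l ih =>
    have hs : (b :: l).sum = b + l.sum := List.sum_cons
    have hn' : n = (b + l.sum) * t.d := by rw [hn, hs]
    have h : b * t.d + l.sum * t.d = n := by rw [hn', add_mul]
    obtain ⟨Y', hY', hYd', hYc'⟩ := ih (n := l.sum * t.d) rfl (by omega)
    obtain ⟨Z, hZ, hZd⟩ := exists_Z (c := c) hK hN t (b := b) (n := b * t.d) rfl (by omega)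
    have hYch : (prodQ h Z Y').ch Ω =
        evR ((b :: l).map fun i => (glPSH F Ω).el (t.z i)).prod n := by
      have h1 : ((b :: l).map fun i => (glPSH F Ω).el (t.z i)).prod =
          (glPSH F Ω).el (t.z b) * (l.map fun i => (glPSH F Ω).el (t.z i)).prod := by
        rw [List.map_cons, List.prod_cons]
      rw [h1]
      refine prodQ_ch h Z Y' ?_ ?_ ?_ hY'
      · exact hom_z t b
      · exact hom_prod t l
      · rw [evR_el, hZ]
    have hφ := rl_z hN t hn hnN
    have hφ' := rl_z hN t (b := l.sum) (n := l.sum * t.d) rfl (by omega)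
    refine ⟨prodQ h Z Y', hYch, ?_, ?_⟩
    · rw [prodQ_dc hK, hZd, hYd', one_pow, one_pow, one_mul]
    · have h3 : Parker.ip (Y'.ch Ω) ((t.z l.sum).at (l.sum * t.d)) = 1 := by
        rw [hY', ip_prod t l rfl]
      have h4 : Parker.ip ((prodQ h Z Y').ch Ω) ((t.z (b + l.sum)).at n) = 1 := by
        rw [hYch]
        exact ip_prod t (b :: l) hn
      have h2 := step (c := c) hK hN t (b := b) (b' := l.sum) rfl rfl h hnN hn' Z Y' hZ hφ' hφ
        h3 h4
      exact h2.trans ((congrArg₂ (fun x y : Qg c Γ => x * y) hZd hYc').trans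
        (one_mul (1 : Qg c Γ)))

end

end ParkerGL
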