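import Pool.Agent.ParkerGL.D06
import Pool.Agent.ParkerGL.B07

/-!
# MP_6c3636_al, GL_n(q), module D13: character and class of a parabolically induced quadratic module (helper7)

* `prodQ_ch`: by `QM.ind_char` the character at `x` is `|P|⁻¹ ∑_{g : g x g⁻¹ ∈ P} χ_M(y) χ_N(z)`, `g x g⁻¹ = blk (ext y z t)`. The `g` with
  `g x g⁻¹ ∈ P` are those for which `W = g⁻¹ W₀` is `x`-invariant, each `W` occurs for `|P|` elements `g`, and
  `x|W ≃ y`, `x|V/W ≃ z`. So the character is the product (`CF.mul`) of the class functions `f`, `f'` of degrees `a`, `b` with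
  `f.at a = evR r a`, `f'.at b = evR s b` (`CF.of` and `evR_cls`); `evR_mul`.
* `prodQ_dc`: `QM.ind_dc`, `dcf_tform`; `q ^ odd = q` in a group with `q * q = 1` (`dcf_sq`).
* `prodQ_finrank`.
-/

namespace ParkerGL

noncomputable section

open Classical Parker.P23_aux

namespace D13_aux

variable {F : Type} [Field F] {Ω : Type} [Field Ω]

/-- the summand of the product -/
def Psi (f g : CF F Ω) {V : Type} [AddCommGroup V] [Module F V] [Finite V] (x : GV F V)
    (W : Submodule F V) : Ω :=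
  if h : Inv x W then f.val W (rst x W h) * g.val (V ⧸ W) (quo x W h) else 0

theorem psi_iso (f g : CF F Ω) {V V' : Type} [AddCommGroup V] [Module F V] [Finite V]
    [AddCommGroup V'] [Module F V'] [Finite V'] (e : V ≃ₗ[F] V') {x : GV F V} {y : GV F V'}
    (hxy : ∀ v, e (x v) = y (e v)) (U : Submodule F V) :
    Psi f g x U = Psi f g y (U.map (e : V →ₗ[F] V')) := by
  unfold Psi
  by_cases h : Inv x U
  · have h' : Inv y (U.map (e : V →ₗ[F] V')) := (inv_map e x y hxy U).2 h
    rw [dif_pos h, dif_pos h']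
    congr 1
    · refine f.iso _ _ (e.submoduleMap U) _ _ ?_
      intro v
      apply Subtype.ext
      exact hxy v
    · refine g.iso _ _ (Submodule.Quotient.equiv U (U.map (e : V →ₗ[F] V')) e rfl) _ _ ?_
      intro v
      obtain ⟨v, rfl⟩ := Submodule.mkQ_surjective U v
      show (Submodule.Quotient.mk (e (x v)) : V' ⧸ U.map (e : V →ₗ[F] V')) =
        Submodule.Quotient.mk (y (e v))
      rw [hxy]
  · have h' : ¬ Inv y (U.map (e : V →ₗ[F] V')) := fun h1 => h ((inv_map e x y hxy U).1 h1)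
    rw [dif_neg h, dif_neg h']

theorem psi_ext (f g : CF F Ω) {A C : Type} [AddCommGroup A] [Module F A] [Finite A]
    [AddCommGroup C] [Module F C] [Finite C] (y : GV F A) (z : GV F C) (t : C →ₗ[F] A) :
    Psi f g (ext y z t) (LinearMap.range (LinearMap.inl F A C)) = f.val A y * g.val C z := by
  have hinv : Inv (ext y z t) (LinearMap.range (LinearMap.inl F A C)) := by
    rw [inv_iff]
    rintro _ ⟨a, rfl⟩
    refine ⟨y a, ?_⟩
    rw [ext_apply]
    simp
  unfold Psi
  rw [dif_pos hinv]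
  congr 1
  · symm
    refine f.iso _ _ (LinearEquiv.ofInjective (LinearMap.inl F A C) LinearMap.inl_injective) _ _ ?_
    intro v
    apply Subtype.ext
    rw [rst_apply]
    show LinearMap.inl F A C (y v) = (ext y z t) (LinearMap.inl F A C v)
    rw [ext_apply]
    simp
  · have hk : LinearMap.range (LinearMap.inl F A C) = LinearMap.ker (LinearMap.snd F A C) :=
      LinearMap.range_inl F A C
    refine g.iso _ _ ((Submodule.quotEquivOfEq _ _ hk).trans
      ((LinearMap.snd F A C).quotKerEquivOfSurjective LinearMap.snd_surjective)) _ _ ?_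
    intro v
    obtain ⟨v, rfl⟩ := Submodule.mkQ_surjective _ v
    rfl

/-- two subspaces of the same dimension are conjugate -/
theorem exists_move {V : Type} [AddCommGroup V] [Module F V] [Finite V] (W W₀ : Submodule F V)
    (h : Module.finrank F W = Module.finrank F W₀) :
    ∃ g : GV F V, W.map (g : V →ₗ[F] V) = W₀ := by
  obtain ⟨W', hW'⟩ := W.exists_isCompl
  obtain ⟨W₀', hW₀'⟩ := W₀.exists_isCompl
  have h1 := Submodule.finrank_add_eq_of_isCompl hW'
  have h2 := Submodule.finrank_add_eq_of_isCompl hW₀'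
  have h3 : Module.finrank F W' = Module.finrank F W₀' := by omega
  let e1 : W ≃ₗ[F] W₀ := LinearEquiv.ofFinrankEq _ _ h
  let e2 : W' ≃ₗ[F] W₀' := LinearEquiv.ofFinrankEq _ _ h3
  let g : GV F V := (Submodule.prodEquivOfIsCompl W W' hW').symm.trans
    ((e1.prodCongr e2).trans (Submodule.prodEquivOfIsCompl W₀ W₀' hW₀'))
  refine ⟨g, ?_⟩
  have hg : ∀ w : W, g (w : V) = e1 w := by
    intro w
    show Submodule.prodEquivOfIsCompl W₀ W₀' hW₀' (e1.prodCongr e2
      ((Submodule.prodEquivOfIsCompl W W' hW').symm (w : V))) = e1 w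
    rw [Submodule.prodEquivOfIsCompl_symm_apply_left]
    simp
  ext v
  constructor
  · rintro ⟨w, hw, rfl⟩
    have := hg ⟨w, hw⟩
    show g w ∈ W₀
    rw [this]
    exact (e1 ⟨w, hw⟩).2
  · intro hv
    refine ⟨(e1.symm ⟨v, hv⟩ : W), (e1.symm ⟨v, hv⟩).2, ?_⟩
    show g ((e1.symm ⟨v, hv⟩ : W) : V) = v
    rw [hg, LinearEquiv.apply_symm_apply]

end D13_aux

variable {F : Type} [Field F] [Finite F] {K : Type} [Field K] [CharZero K]
  {Ω : Type} [Field Ω] [IsAlgClosed Ω] [CharZero Ω] {c : Parker.Ctx Ω}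
  {Γ : Subgroup (RingAut Ω)} [Algebra K Ω]

theorem tens_ch {G H : Type} [Group G] [Group H] (M : QM K G) (N : QM K H) (p : G × H) :
    (M.tens N).ch Ω p = M.ch Ω p.1 * N.ch Ω p.2 := by
  unfold QM.ch
  rw [← map_mul]
  congr 1
  exact LinearMap.trace_tensorProduct' (M.ρ p.1) (N.ρ p.2)

namespace D13_aux

/-- the standard subspace -/
def W0 (F : Type) [Field F] {a b n : ℕ} (h : a + b = n) : Submodule F (Fin n → F) :=
  (LinearMap.range (LinearMap.inl F (Fin a → F) (Fin b → F))).map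
    (pe F h : ((Fin a → F) × (Fin b → F)) →ₗ[F] (Fin n → F))

theorem finrank_W0 {a b n : ℕ} (h : a + b = n) : Module.finrank F (W0 F h) = a := by
  unfold W0
  rw [LinearEquiv.finrank_map_eq, LinearMap.finrank_range_of_inj LinearMap.inl_injective,
    Module.finrank_fin_fun]

theorem mem_par_iff {a b n : ℕ} (h : a + b = n) (w : Gn F n) :
    w ∈ Par F h ↔ Inv w (W0 F h) := by
  obtain ⟨q, rfl⟩ := (blk F h).surjective w
  have key : Inv (blk F h q) (W0 F h) ↔
      Inv q (LinearMap.range (LinearMap.inl F (Fin a → F) (Fin b → F))) := by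
    refine inv_map (pe F h) q (blk F h q) ?_ _
    intro v
    show pe F h (q v) = pe F h (q ((pe F h).symm (pe F h v)))
    rw [LinearEquiv.symm_apply_apply]
  rw [key]
  constructor
  · rintro ⟨y, z, t, hq⟩
    have hq' : q = ext y z t := (blk F h).injective hq
    rw [hq', inv_iff]
    rintro _ ⟨v, rfl⟩
    refine ⟨y v, ?_⟩
    rw [ext_apply]
    simp
  · intro hq
    rw [inv_iff] at hq
    have h1 : ∀ v : Fin a → F, (q (v, 0)).2 = 0 := by
      intro v
      obtain ⟨v', hv'⟩ := hq (LinearMap.inl F (Fin a → F) (Fin b → F) v) ⟨v, rfl⟩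
      have h2 : q (v, 0) = LinearMap.inl F (Fin a → F) (Fin b → F) v' := hv'.symm
      rw [h2]
      rfl
    obtain ⟨y, z, t, hq'⟩ := exists_ext q h1
    exact ⟨y, z, t, by rw [hq']⟩

theorem psi_par (f g : CF F Ω) {a b n : ℕ} (h : a + b = n) {w : Gn F n} (hw : w ∈ Par F h) :
    Psi f g w (W0 F h) = f.at a (pr F h ⟨w, hw⟩).1 * g.at b (pr F h ⟨w, hw⟩).2 := by
  obtain ⟨y, z, t, hq⟩ := id hw
  subst hq
  have h1 : pr F h ⟨blk F h (ext y z t), hw⟩ = (y, z) := pr_apply h y z t
  rw [h1]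
  have h2 := psi_iso f g (pe F h) (x := ext y z t) (y := blk F h (ext y z t)) (by
    intro v
    show pe F h ((ext y z t) v) = pe F h ((ext y z t) ((pe F h).symm (pe F h v)))
    rw [LinearEquiv.symm_apply_apply])
    (LinearMap.range (LinearMap.inl F (Fin a → F) (Fin b → F)))
  rw [psi_ext] at h2
  exact h2.symm

theorem psi_not_par (f g : CF F Ω) {a b n : ℕ} (h : a + b = n) {w : Gn F n} (hw : w ∉ Par F h) :
    Psi f g w (W0 F h) = 0 := by
  unfold Psi
  rw [dif_neg]
  intro h1
  exact hw ((mem_par_iff h w).2 h1)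

theorem card_fib {a b n : ℕ} (h : a + b = n) (W : Submodule F (Fin n → F))
    (hW : Module.finrank F W = a) :
    Nat.card {g : Gn F n // (W0 F h).map ((g⁻¹ : Gn F n) : (Fin n → F) →ₗ[F] (Fin n → F)) = W} =
      Nat.card (Par F h) := by
  obtain ⟨g₀, hg₀⟩ := exists_move W (W0 F h) (by rw [hW, finrank_W0])
  have hmul : ∀ g g' : Gn F n, ∀ U : Submodule F (Fin n → F),
      U.map ((g * g' : Gn F n) : (Fin n → F) →ₗ[F] (Fin n → F)) =
        (U.map (g' : (Fin n → F) →ₗ[F] (Fin n → F))).map (g : (Fin n → F) →ₗ[F] (Fin n → F)) := by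
    intro g g' U
    rw [← Submodule.map_comp]
    rfl
  have hone : ∀ U : Submodule F (Fin n → F),
      U.map ((1 : Gn F n) : (Fin n → F) →ₗ[F] (Fin n → F)) = U := by
    intro U
    exact Submodule.map_id U
  have hiff : ∀ (g : Gn F n) (U U' : Submodule F (Fin n → F)),
      U.map ((g⁻¹ : Gn F n) : (Fin n → F) →ₗ[F] (Fin n → F)) = U' ↔
        U'.map (g : (Fin n → F) →ₗ[F] (Fin n → F)) = U := by
    intro g U U'
    constructor
    · intro h1
      rw [← h1, ← hmul, mul_inv_cancel, hone]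
    · intro h1
      rw [← h1, ← hmul, inv_mul_cancel, hone]
  refine Nat.card_congr
    { toFun := fun g => ⟨g.1 * g₀⁻¹, ?_⟩
      invFun := fun p => ⟨p.1 * g₀, ?_⟩
      left_inv := fun g => Subtype.ext (by simp)
      right_inv := fun p => Subtype.ext (by simp) }
  · rw [mem_par_iff]
    show (W0 F h).map ((g.1 * g₀⁻¹ : Gn F n) : (Fin n → F) →ₗ[F] (Fin n → F)) = W0 F h
    rw [hmul, (hiff g₀ (W0 F h) W).2 hg₀]
    exact (hiff g.1 (W0 F h) W).1 g.2
  · rw [hiff, hmul, hg₀]
    exact (mem_par_iff h p.1).1 p.2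

end D13_aux

open D13_aux

theorem prodQ_ch {a b n : ℕ} (h : a + b = n) (M : QM K (Gn F a)) (N : QM K (Gn F b))
    {r s : (glPSH F Ω).R} (hr : (glPSH F Ω).Hom a r) (hs : (glPSH F Ω).Hom b s)
    (hM : M.ch Ω = evR r a) (hN : N.ch Ω = evR s b) :
    (prodQ h M N).ch Ω = evR (r * s) n := by
  letI := Fintype.ofFinite (Gn F n)
  haveI hfs : Finite (Submodule F (Fin n → F)) :=
    Finite.of_injective (fun W : Submodule F (Fin n → F) => (W : Set (Fin n → F)))
      SetLike.coe_injective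
  letI := Fintype.ofFinite (Submodule F (Fin n → F))
  set f : CF F Ω := CF.of (evR r a) (evR_cls r a) with hf
  set g : CF F Ω := CF.of (evR s b) (evR_cls s b) with hg
  have hfa : f.at a = evR r a := CF.of_val _ _
  have hgb : g.at b = evR s b := CF.of_val _ _
  have hfd : f.IsDeg a := CF.of_deg _ _
  have hgd : g.IsDeg b := CF.of_deg _ _
  rw [← evR_mul h hr hs hfd hgd hfa hgb]
  funext x
  have hP : (Nat.card (Par F h) : Ω) ≠ 0 := Nat.cast_ne_zero.2 Nat.card_pos.ne'
  have h1 : (prodQ h M N).ch Ω x = (Nat.card (Par F h) : Ω)⁻¹ *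
      ∑ t : Gn F n, Psi f g (t * x * t⁻¹) (W0 F h) := by
    have h2 := QM.ind_char ((M.tens N).pb (pr F h)) x
    show algebraMap K Ω (((M.tens N).pb (pr F h)).ind.ρ.character x) = _
    rw [h2, map_mul, map_inv₀, map_natCast, map_sum]
    congr 1
    apply Finset.sum_congr rfl
    intro t _
    by_cases ht : t * x * t⁻¹ ∈ Par F h
    · rw [dif_pos ht, psi_par f g h ht, hfa, hgb, ← hM, ← hN, ← tens_ch]
      rfl
    · rw [dif_neg ht, psi_not_par f g h ht, map_zero]
  have h3 : ∀ t : Gn F n, Psi f g (t * x * t⁻¹) (W0 F h) =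
      Psi f g x ((W0 F h).map ((t⁻¹ : Gn F n) : (Fin n → F) →ₗ[F] (Fin n → F))) := by
    intro t
    apply psi_iso f g (t⁻¹ : Gn F n)
    intro v
    show t⁻¹ ((t * x * t⁻¹) v) = x (t⁻¹ v)
    rw [← LinearEquiv.mul_apply, ← mul_assoc, ← mul_assoc, inv_mul_cancel, one_mul]
    rfl
  rw [h1]
  have h4 : ∑ t : Gn F n, Psi f g (t * x * t⁻¹) (W0 F h) =
      ∑ W : Submodule F (Fin n → F), (Nat.card (Par F h) : Ω) * Psi f g x W := by
    simp_rw [h3]
    rw [← Finset.sum_fiberwise (s := Finset.univ)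
      (g := fun t : Gn F n => (W0 F h).map ((t⁻¹ : Gn F n) : (Fin n → F) →ₗ[F] (Fin n → F)))]
    apply Finset.sum_congr rfl
    intro W _
    rw [Finset.sum_congr rfl (g := fun _ => Psi f g x W) (by
      intro t ht
      rw [(Finset.mem_filter.1 ht).2])]
    rw [Finset.sum_const, nsmul_eq_mul]
    by_cases hW : Module.finrank F W = a
    · congr 2
      rw [← card_fib h W hW, Nat.card_eq_fintype_card, Fintype.card_subtype]
    · have h5 : Psi f g x W = 0 := by
        unfold Psi
        split_ifs with h6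
        · rw [hfd _ _ hW, zero_mul]
        · rfl
      rw [h5, mul_zero, mul_zero]
  rw [h4, ← Finset.mul_sum, ← mul_assoc, inv_mul_cancel₀ hP, one_mul]
  show _ = ∑ᶠ W : Submodule F (Fin n → F), _
  rw [finsum_eq_sum_of_fintype]
  rfl

theorem prodQ_dc [CharP F 2] (hK : FixedField Γ K) {a b n : ℕ} (h : a + b = n)
    (M : QM K (Gn F a)) (N : QM K (Gn F b)) :
    (prodQ h M N).dc c Γ =
      M.dc c Γ ^ Module.finrank K N.X * N.dc c Γ ^ Module.finrank K M.X := by
  have h1 : (prodQ h M N).dc c Γ = ((M.tens N).pb (pr F h)).dc c Γ ^ (Par F h).index :=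
    QM.ind_dc hK _
  have h2 : ((M.tens N).pb (pr F h)).dc c Γ = dcf c Γ (tform M.B N.B) := rfl
  have h3 : dcf c Γ (tform M.B N.B) * dcf c Γ (tform M.B N.B) = 1 := dcf_sq hK _
  have h4 := dcf_tform (c := c) hK (B := M.B) (B' := N.B) M.inv.nondeg N.inv.nondeg
  obtain ⟨m, hm⟩ := par_index (F := F) h
  rw [h1, h2, hm, pow_succ, pow_mul, pow_two, h3, one_pow, one_mul, h4]
  rfl

end

end ParkerGL
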