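import Mathlib
import Pool.Agent.Parker.Defs

/-!
# MP_6c3636_al, GL_n(q): definitions (helper7)

`F` is a finite field. A class function (`CF`) assigns a value in `Ω` to each automorphism `x` of
each finite `F`-space `V`, in an isomorphism invariant way. Product (parabolic induction):
`(f * g)(V, x) = ∑ f(W, x|W) g(V/W, x|V/W)`, the sum over the `x`-invariant subspaces `W`.
Coproduct (parabolic restriction): `f.cop y z = |Hom(C, A)|⁻¹ ∑_h f(A × C, (a, c) ↦ (y a + h c, z c))`.
-/

namespace ParkerGL

noncomputable section

open Classical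

/-- the group of the automorphisms of `V` -/
abbrev GV (F V : Type) [Field F] [AddCommGroup V] [Module F V] : Type := V ≃ₗ[F] V

instance finite_quot {F V : Type} [Field F] [AddCommGroup V] [Module F V] [Finite V]
    (W : Submodule F V) : Finite (V ⧸ W) :=
  Finite.of_surjective _ (Submodule.mkQ_surjective W)

instance finite_hom {F V W : Type} [Field F] [AddCommGroup V] [Module F V] [Finite V]
    [AddCommGroup W] [Module F W] [Finite W] : Finite (V →ₗ[F] W) :=
  DFunLike.finite _

instance finite_gv {F V : Type} [Field F] [AddCommGroup V] [Module F V] [Finite V] :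
    Finite (V ≃ₗ[F] V) :=
  DFunLike.finite _

section Subspaces

variable {F : Type} [Field F]
variable {V : Type} [AddCommGroup V] [Module F V]

/-- `W` is invariant under `x` -/
def Inv (x : GV F V) (W : Submodule F V) : Prop := W.map (x : V →ₗ[F] V) = W

/-- restriction to an invariant subspace -/
def rst (x : GV F V) (W : Submodule F V) (h : Inv x W) : GV F W := x.ofSubmodules W W h

/-- the action on the quotient by an invariant subspace -/
def quo (x : GV F V) (W : Submodule F V) (h : Inv x W) : GV F (V ⧸ W) :=
  Submodule.Quotient.equiv W W x h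

theorem rst_apply (x : GV F V) (W : Submodule F V) (h : Inv x W) (w : W) :
    ((rst x W h w : W) : V) = x w := rfl

theorem quo_mk (x : GV F V) (W : Submodule F V) (h : Inv x W) (v : V) :
    quo x W h (Submodule.Quotient.mk v) = Submodule.Quotient.mk (x v) := rfl

variable {A : Type} [AddCommGroup A] [Module F A] {C : Type} [AddCommGroup C] [Module F C]

/-- the automorphism `(a, c) ↦ (y a + h c, z c)` of `A × C` -/
def ext (y : GV F A) (z : GV F C) (h : C →ₗ[F] A) : GV F (A × C) where
  toFun p := (y p.1 + h p.2, z p.2)
  map_add' p q := by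
    ext
    · simp only [Prod.fst_add, Prod.snd_add, map_add]; abel
    · simp
  map_smul' t p := by
    ext
    · simp
    · simp
  invFun p := (y.symm (p.1 - h (z.symm p.2)), z.symm p.2)
  left_inv p := by simp
  right_inv p := by simp

theorem ext_apply (y : GV F A) (z : GV F C) (h : C →ₗ[F] A) (p : A × C) :
    ext y z h p = (y p.1 + h p.2, z p.2) := rfl

end Subspaces

variable (F : Type) [Field F] (Ω : Type) [Field Ω]

/-- the standard group `GL_n(F)` -/
abbrev Gn (F : Type) [Field F] (n : ℕ) : Type := GV F (Fin n → F)

/-- a class function on the automorphism groups of all finite spaces -/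
structure CF where
  /-- the values -/
  val : ∀ (V : Type) [AddCommGroup V] [Module F V] [Finite V], GV F V → Ω
  /-- invariance -/
  iso : ∀ (V W : Type) [AddCommGroup V] [Module F V] [Finite V] [AddCommGroup W] [Module F W]
    [Finite W] (e : V ≃ₗ[F] W) (x : GV F V) (y : GV F W), (∀ v, e (x v) = y (e v)) →
      val V x = val W y

variable {F} {Ω}

section
variable {V : Type} [AddCommGroup V] [Module F V] {W : Type} [AddCommGroup W] [Module F W]

theorem inv_map (e : V ≃ₗ[F] W) (x : GV F V) (y : GV F W) (h : ∀ v, e (x v) = y (e v))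
    (U : Submodule F V) : Inv y (U.map (e : V →ₗ[F] W)) ↔ Inv x U := by
  have key : (U.map (e : V →ₗ[F] W)).map (y : W →ₗ[F] W) =
      (U.map (x : V →ₗ[F] V)).map (e : V →ₗ[F] W) := by
    rw [← Submodule.map_comp, ← Submodule.map_comp]
    congr 1
    ext v
    exact (h v).symm
  unfold Inv
  rw [key]
  constructor
  · intro h1
    exact Submodule.map_injective_of_injective (f := (e : V →ₗ[F] W)) e.injective h1
  · intro h1
    rw [h1]

end

/-- the product of two class functions -/
def CF.mul (f g : CF F Ω) : CF F Ω where
  val V _ _ _ x := ∑ᶠ W : Submodule F V,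
    if h : Inv x W then f.val W (rst x W h) * g.val (V ⧸ W) (quo x W h) else 0
  iso V V' _ _ _ _ _ _ e x y hxy := by
    rw [← finsum_comp_equiv (Submodule.orderIsoMapComap e).toEquiv]
    apply finsum_congr
    intro U
    have hU : (Submodule.orderIsoMapComap e).toEquiv U = U.map (e : V →ₗ[F] V') := rfl
    rw [hU]
    by_cases h : Inv x U
    · have h' : Inv y (U.map (e : V →ₗ[F] V')) := (inv_map e x y hxy U).2 h
      rw [dif_pos h, dif_pos h']
      congr 1
      · refine f.iso _ _ (e.submoduleMap U) _ _ ?_
        intro v
        apply Subtype.ext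
        exact hxy v
      · refine g.iso _ _ (Submodule.Quotient.equiv U (U.map (e : V →ₗ[F] V')) e rfl) _ _ ?_
        intro v
        obtain ⟨v, rfl⟩ := Submodule.mkQ_surjective U v
        show (Submodule.Quotient.mk (e (x v)) : V' ⧸ U.map (e : V →ₗ[F] V')) =
          Submodule.Quotient.mk (y (e v))
        rw [hxy]
    · have h' : ¬ Inv y (U.map (e : V →ₗ[F] V')) := fun h1 => h ((inv_map e x y hxy U).1 h1)
      rw [dif_neg h, dif_neg h']

/-- the unit: the trivial character in degree zero -/
def CF.one : CF F Ω where
  val V _ _ _ _ := if Module.finrank F V = 0 then 1 else 0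
  iso V V' _ _ _ _ _ _ e x y hxy := by
    rw [e.finrank_eq]

/-- the coproduct -/
def CF.cop (f : CF F Ω) (A C : Type) [AddCommGroup A] [Module F A] [Finite A] [AddCommGroup C]
    [Module F C] [Finite C] (y : GV F A) (z : GV F C) : Ω :=
  (Nat.card (C →ₗ[F] A) : Ω)⁻¹ * ∑ᶠ h : C →ₗ[F] A, f.val (A × C) (ext y z h)

/-- `f` lives in degree `n` -/
def CF.IsDeg (f : CF F Ω) (n : ℕ) : Prop :=
  ∀ (V : Type) [AddCommGroup V] [Module F V] [Finite V] (x : GV F V), Module.finrank F V ≠ n →
    f.val V x = 0

/-- `φ` is invariant under conjugation -/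
def IsCls {G : Type} [Group G] (φ : G → Ω) : Prop := ∀ g h, φ (g * h * g⁻¹) = φ h

/-- the values on the standard group -/
def CF.at [Finite F] (f : CF F Ω) (n : ℕ) : Gn F n → Ω := fun x => f.val (Fin n → F) x

/-- transport of automorphisms along an isomorphism -/
def tr {V W : Type} [AddCommGroup V] [Module F V] [AddCommGroup W] [Module F W]
    (e : V ≃ₗ[F] W) (x : GV F V) : GV F W := e.symm.trans (x.trans e)

theorem tr_apply {V W : Type} [AddCommGroup V] [Module F V] [AddCommGroup W] [Module F W]
    (e : V ≃ₗ[F] W) (x : GV F V) (w : W) : tr e x w = e (x (e.symm w)) := rfl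

/-- the isomorphism `F^a × F^b ≃ F^n`, `a + b = n` -/
def pe (F : Type) [Field F] {a b n : ℕ} (h : a + b = n) :
    ((Fin a → F) × (Fin b → F)) ≃ₗ[F] (Fin n → F) :=
  (LinearEquiv.sumArrowLequivProdArrow (Fin a) (Fin b) F F).symm.trans
    (LinearEquiv.funCongrLeft F F ((finCongr h.symm).trans finSumFinEquiv.symm))

/-- transport along an isomorphism, as a group isomorphism -/
def trE {V W : Type} [AddCommGroup V] [Module F V] [AddCommGroup W] [Module F W]
    (e : V ≃ₗ[F] W) : GV F V ≃* GV F W where
  toFun := tr e
  invFun := tr e.symm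
  left_inv x := by ext v; simp [tr_apply]
  right_inv x := by ext v; simp [tr_apply]
  map_mul' x y := by
    ext v
    show e (x (y (e.symm v))) = e (x (e.symm (e (y (e.symm v)))))
    rw [LinearEquiv.symm_apply_apply]

theorem trE_apply {V W : Type} [AddCommGroup V] [Module F V] [AddCommGroup W] [Module F W]
    (e : V ≃ₗ[F] W) (x : GV F V) (w : W) : trE e x w = e (x (e.symm w)) := rfl

/-- the automorphisms of `F^a × F^b` as automorphisms of `F^n`, `a + b = n` -/
def blk (F : Type) [Field F] {a b n : ℕ} (h : a + b = n) :
    GV F ((Fin a → F) × (Fin b → F)) ≃* Gn F n := trE (pe F h)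

/-- the isomorphism with the standard space -/
def std (F : Type) [Field F] [Finite F] {V : Type} [AddCommGroup V] [Module F V] [Finite V] {n : ℕ}
    (h : Module.finrank F V = n) : V ≃ₗ[F] (Fin n → F) :=
  LinearEquiv.ofFinrankEq V (Fin n → F) (by rw [h, Module.finrank_fin_fun])

open Classical in
/-- the class function of degree `n` given by a class function on `GL_n(F)` -/
def CF.of [Finite F] {n : ℕ} (φ : Gn F n → Ω) (hφ : IsCls φ) : CF F Ω where
  val V _ _ _ x := if h : Module.finrank F V = n then φ (tr (std F h) x) else 0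
  iso V V' _ _ _ _ _ _ e x y hxy := by
    by_cases h : Module.finrank F V = n
    · have h' : Module.finrank F V' = n := by rw [← e.finrank_eq, h]
      rw [dif_pos h, dif_pos h']
      -- conjugate by `(std h').symm ∘ e ∘ std h`
      let g : Gn F n := (std F h).symm.trans (e.trans (std F h'))
      rw [← hφ g (tr (std F h) x)]
      congr 1
      ext1 v
      show (std F h') (e ((std F h).symm ((std F h) (x ((std F h).symm (g⁻¹ v)))))) =
        (std F h') (y ((std F h').symm v))
      have hg : g⁻¹ v = (std F h) (e.symm ((std F h').symm v)) := rfl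
      rw [hg, LinearEquiv.symm_apply_apply, LinearEquiv.symm_apply_apply, hxy,
        LinearEquiv.apply_symm_apply]
    · have h' : ¬ Module.finrank F V' = n := by rw [← e.finrank_eq]; exact h
      rw [dif_neg h, dif_neg h']

end

end ParkerGL
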