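import Pool.Agent.ParkerGL.A06
import Pool.Agent.Parker.P10
import Pool.Agent.Parker.P15
import Pool.Agent.Parker.P19

/-!
# MP_6c3636_al, GL_n(q), module E07: characters over a real character of a normal subgroup of odd index with
abelian quotient (helper7)

`N` normal in `G`, `|G : N|` odd, `G ⧸ N` abelian, `θ ∈ irr Ω N` real and `Γ`-fixed, `Γ` acts on the `m`-th roots of unity through a `2`-group (`Parker.Ok c m Γ`), `|G|` divides `m`.

(1) Linear characters `λ : G ⧸ N → Ω` (homomorphisms to `Ωˣ`, as functions on `G`): `∑_λ λ(g) = |G : N|` if `g ∈ N` and `0` otherwise (`G ⧸ N` finite abelian, `Ω` algebraically closed of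
characteristic `0`; Mathlib: `CommGroup` duality, `exists_apply_ne_one_of_hasEnoughRootsOfUnity`, `MonoidHom` characters, `Representation`..., or `AddChar`). So for class functions
`χ, χ'` of `G`: `ip_N (χ|N) (χ'|N) = ∑_λ ip_G (λ χ) χ'`.
(2) Let `S` be the set of `χ ∈ irr Ω G` with `ip_N (χ|N) θ ≠ 0`. It is not empty (a constituent of the induced character: the sum over `χ` of `ip_N (χ|N) θ * χ 1` is not zero; or use `Parker` Clifford
theory lemmas in P15; or: some irreducible constituent of the regular representation of `G` restricts nontrivially). For `χ, χ' ∈ S`: `ip_N (χ|N) (χ'|N) ≠ 0`? If `χ|N = e ∑ θ^g` (Clifford, P15) then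
both contain `θ`, so the inner product is a positive number and by (1) `χ' = λ χ` for some `λ`. So the group `Λ` of the `λ` acts transitively on `S`, and `|S|` divides `|Λ| = |G : N|`, odd.
Also `ip_N (χ|N) (χ|N) = #{λ : λ χ = χ}` divides `|Λ|`, odd.
(3) `Γ` and the duality act on `S` (`θ` is fixed by both), through a `2`-group (`Parker.P19` `exists_fixed_of_odd` with the group of permutations generated by them; they commute: `E = Γ × {1, du}` acts on functions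
`G → Ω`; each element has `2`-power order on `S`, as `Γ` acts on the `m`-th roots of unity, hence on characters (`Parker.char_fixed`), through a `2`-group). So there is `χ ∈ S` real and `Γ`-fixed.
(4) `e = ip_N (χ|N) θ`: `χ|N = e ∑_{θ' ∈ orbit} θ'` (Clifford), `ip_N (χ|N) (χ|N) = e ^ 2 * |orbit|` is odd, so `e` and `|orbit|` are odd. `χ(1) = e |orbit| θ(1)` is even.
-/

namespace ParkerGL

noncomputable section

open Classical

variable {Ω : Type} [Field Ω] [IsAlgClosed Ω] [CharZero Ω] {G : Type} [Group G] [Finite G]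

namespace E07_aux

/-- the group of the linear characters with `N` in the kernel -/
def KG (Ω : Type) [Field Ω] (N : Subgroup G) : Subgroup (G →* Ωˣ) where
  carrier := {l | ∀ n ∈ N, l n = 1}
  one_mem' n _ := rfl
  mul_mem' {a b} ha hb n hn := by
    rw [MonoidHom.mul_apply, ha n hn, hb n hn, mul_one]
  inv_mem' {a} ha n hn := by
    rw [MonoidHom.inv_apply, ha n hn, inv_one]

omit [IsAlgClosed Ω] [CharZero Ω] [Finite G] in
theorem mem_KG {N : Subgroup G} {l : G →* Ωˣ} : l ∈ KG Ω N ↔ ∀ n ∈ N, l n = 1 := Iff.rfl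

/-- the quotient is commutative -/
@[reducible] def qComm (N : Subgroup G) [N.Normal] (hab : ∀ x y : G, x * y * x⁻¹ * y⁻¹ ∈ N) :
    CommGroup (G ⧸ N) :=
  { (inferInstance : Group (G ⧸ N)) with
    mul_comm := by
      intro a b
      obtain ⟨x, rfl⟩ := QuotientGroup.mk_surjective a
      obtain ⟨y, rfl⟩ := QuotientGroup.mk_surjective b
      rw [← QuotientGroup.mk_mul, ← QuotientGroup.mk_mul, QuotientGroup.eq]
      have h := hab y⁻¹ x⁻¹
      have e : (x * y)⁻¹ * (y * x) = y⁻¹ * x⁻¹ * (y⁻¹)⁻¹ * (x⁻¹)⁻¹ := by group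
      rw [e]
      exact h }

/-- the linear characters with `N` in the kernel are the linear characters of the quotient -/
def eqv (Ω : Type) [Field Ω] (N : Subgroup G) [N.Normal] : ((G ⧸ N) →* Ωˣ) ≃ KG Ω N where
  toFun f := ⟨f.comp (QuotientGroup.mk' N), fun n hn => by
    rw [MonoidHom.comp_apply, QuotientGroup.mk'_apply, (QuotientGroup.eq_one_iff n).2 hn, map_one]⟩
  invFun l := QuotientGroup.lift N l.1 (fun n hn => l.2 n hn)
  left_inv f := by
    ext x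
    rfl
  right_inv l := by
    apply Subtype.ext
    ext x
    rfl

theorem exists_ne (N : Subgroup G) [N.Normal] (hab : ∀ x y : G, x * y * x⁻¹ * y⁻¹ ∈ N) {g : G}
    (hg : g ∉ N) : ∃ l ∈ KG Ω N, l g ≠ 1 := by
  let _ := qComm N hab
  have hne : (QuotientGroup.mk g : G ⧸ N) ≠ 1 := fun h => hg ((QuotientGroup.eq_one_iff g).1 h)
  have : NeZero (Monoid.exponent (G ⧸ N)) := ⟨Monoid.exponent_ne_zero_of_finite⟩
  obtain ⟨φ, hφ⟩ := CommGroup.exists_apply_ne_one_of_hasEnoughRootsOfUnity (G ⧸ N) Ω hne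
  exact ⟨(eqv Ω N φ).1, (eqv Ω N φ).2, hφ⟩

theorem fin_card (Ω : Type) [Field Ω] [IsAlgClosed Ω] [CharZero Ω] (N : Subgroup G) [N.Normal]
    (hab : ∀ x y : G, x * y * x⁻¹ * y⁻¹ ∈ N) : Finite (KG Ω N) ∧ Nat.card (KG Ω N) = N.index := by
  let _ := qComm N hab
  have : NeZero (Monoid.exponent (G ⧸ N)) := ⟨Monoid.exponent_ne_zero_of_finite⟩
  obtain ⟨e⟩ := CommGroup.monoidHom_mulEquiv_of_hasEnoughRootsOfUnity (G ⧸ N) Ω
  have : Finite ((G ⧸ N) →* Ωˣ) := Finite.of_equiv _ e.toEquiv.symm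
  refine ⟨Finite.of_equiv _ (eqv Ω N), ?_⟩
  rw [← Nat.card_congr (eqv Ω N), CommGroup.card_monoidHom_of_hasEnoughRootsOfUnity]
  rfl

end E07_aux

open E07_aux

/-- the sum of the linear characters with `N` in the kernel -/
theorem lin_sum (Ω : Type) [Field Ω] [IsAlgClosed Ω] [CharZero Ω] (N : Subgroup G) [N.Normal]
    (hab : ∀ x y : G, x * y * x⁻¹ * y⁻¹ ∈ N) :
    ∃ Λ : Finset (G →* Ωˣ), Λ.card = N.index ∧ (∀ l ∈ Λ, ∀ l' ∈ Λ, l * l' ∈ Λ) ∧
      (∀ l : G →* Ωˣ, l ∈ Λ ↔ ∀ n ∈ N, l n = 1) ∧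
      ∀ g, ∑ l ∈ Λ, ((l g : Ωˣ) : Ω) = if g ∈ N then (N.index : Ω) else 0 := by
  obtain ⟨hfin, hcard⟩ := fin_card Ω N hab
  have hS : (KG Ω N : Set (G →* Ωˣ)).Finite := Set.toFinite _
  have hmem : ∀ l : G →* Ωˣ, l ∈ hS.toFinset ↔ ∀ n ∈ N, l n = 1 := fun l =>
    (Set.Finite.mem_toFinset hS).trans mem_KG
  have hc : hS.toFinset.card = N.index := by
    rw [← hcard, ← Set.ncard_eq_toFinset_card _ hS]
    rfl
  have hmul : ∀ l ∈ hS.toFinset, ∀ l' ∈ hS.toFinset, l * l' ∈ hS.toFinset := by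
    intro l hl l' hl'
    rw [hmem] at hl hl' ⊢
    intro n hn
    rw [MonoidHom.mul_apply, hl n hn, hl' n hn, mul_one]
  refine ⟨hS.toFinset, hc, hmul, hmem, fun g => ?_⟩
  split_ifs with hg
  · rw [Finset.sum_congr rfl (g := fun _ => (1 : Ω)) (fun l hl => by
      rw [(hmem l).1 hl g hg, Units.val_one]), Finset.sum_const, hc, nsmul_eq_mul, mul_one]
  · obtain ⟨l0, hl0, hne⟩ := exists_ne (Ω := Ω) N hab hg
    have h0 : l0 ∈ hS.toFinset := (hmem l0).2 hl0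
    have h0' : l0⁻¹ ∈ hS.toFinset := (hmem _).2 ((KG Ω N).inv_mem hl0)
    have hsum : ((l0 g : Ωˣ) : Ω) * ∑ l ∈ hS.toFinset, ((l g : Ωˣ) : Ω) =
        ∑ l ∈ hS.toFinset, ((l g : Ωˣ) : Ω) := by
      rw [Finset.mul_sum]
      refine Finset.sum_nbij' (fun l => l0 * l) (fun l => l0⁻¹ * l) (fun l hl => hmul _ h0 _ hl)
        (fun l hl => hmul _ h0' _ hl) (fun l _ => inv_mul_cancel_left l0 l)
        (fun l _ => mul_inv_cancel_left l0 l) (fun l _ => ?_)
      rw [MonoidHom.mul_apply, Units.val_mul]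
    have h1 : (((l0 g : Ωˣ) : Ω) - 1) * ∑ l ∈ hS.toFinset, ((l g : Ωˣ) : Ω) = 0 := by
      rw [sub_mul, hsum, one_mul, sub_self]
    rcases mul_eq_zero.1 h1 with h2 | h2
    · exfalso
      apply hne
      apply Units.ext
      rw [Units.val_one]
      exact sub_eq_zero.1 h2
    · exact h2


namespace E07_aux

/-- twisting by a linear character -/
theorem tw_mem_irr {χ : G → Ω} (hχ : χ ∈ Parker.irr Ω G) (l : G →* Ωˣ) :
    (fun g => ((l g : Ωˣ) : Ω) * χ g) ∈ Parker.irr Ω G := by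
  obtain ⟨n, ρ, hρ, rfl⟩ := Parker.mem_irr.1 hχ
  let ρ' : Representation Ω G (Fin n → Ω) :=
    { toFun := fun g => ((l g : Ωˣ) : Ω) • ρ g
      map_one' := by rw [map_one, map_one, Units.val_one, one_smul]
      map_mul' := fun x y => by
        rw [map_mul, map_mul, Units.val_mul, smul_mul_smul_comm] }
  have hc : ρ'.character = fun g => ((l g : Ωˣ) : Ω) * ρ.character g := by
    funext g
    show LinearMap.trace Ω _ (((l g : Ωˣ) : Ω) • ρ g) = _
    rw [map_smul, smul_eq_mul]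
    rfl
  have hirr : ρ'.IsIrreducible := by
    rw [Parker.irr_iff_ip, hc]
    have h1 := (Parker.irr_iff_ip ρ).1 hρ
    rw [← h1]
    have _ := Fintype.ofFinite G
    rw [Parker.ip_eq, Parker.ip_eq]
    congr 1
    refine Finset.sum_congr rfl (fun g _ => ?_)
    have h2 : ((l g : Ωˣ) : Ω) * ((l g⁻¹ : Ωˣ) : Ω) = 1 := by
      rw [← Units.val_mul, ← map_mul, mul_inv_cancel, map_one, Units.val_one]
    linear_combination (ρ.character g * ρ.character g⁻¹) * h2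
  rw [← hc]
  exact Parker.mem_irr.2 (Parker.mem_irrSet hirr)

/-- restriction of functions -/
def rN (N : Subgroup G) (χ : G → Ω) : N → Ω := fun n => χ n

omit [IsAlgClosed Ω] [CharZero Ω] [Finite G] in
theorem sum_sub [Fintype G] (N : Subgroup G) [Fintype N] (f : G → Ω) :
    ∑ g, (if g ∈ N then f g else 0) = ∑ n : N, f n := by
  rw [← Finset.sum_filter]
  exact Finset.sum_subtype (Finset.univ.filter (· ∈ N)) (fun x => by simp) f

omit [IsAlgClosed Ω] in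
theorem ip_res {N : Subgroup G} {Λ : Finset (G →* Ωˣ)}
    (hsum : ∀ g, ∑ l ∈ Λ, ((l g : Ωˣ) : Ω) = if g ∈ N then (N.index : Ω) else 0)
    (χ χ' : G → Ω) : Parker.ip (rN N χ) (rN N χ') =
      ∑ l ∈ Λ, Parker.ip (fun g => ((l g : Ωˣ) : Ω) * χ g) χ' := by
  have _ := Fintype.ofFinite G
  have _ := Fintype.ofFinite N
  simp only [Parker.ip_eq]
  rw [← Finset.mul_sum, Finset.sum_comm]
  have h1 : ∀ g, ∑ l ∈ Λ, ((l g : Ωˣ) : Ω) * χ g * χ' g⁻¹ =
      if g ∈ N then (N.index : Ω) * (χ g * χ' g⁻¹) else 0 := by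
    intro g
    have h2 : ∑ l ∈ Λ, ((l g : Ωˣ) : Ω) * χ g * χ' g⁻¹ =
        (∑ l ∈ Λ, ((l g : Ωˣ) : Ω)) * (χ g * χ' g⁻¹) := by
      rw [Finset.sum_mul]
      exact Finset.sum_congr rfl (fun l _ => mul_assoc _ _ _)
    rw [h2, hsum g]
    split_ifs
    · rfl
    · rw [zero_mul]
  rw [Finset.sum_congr rfl (fun g _ => h1 g), sum_sub, ← Finset.mul_sum]
  have hc : (Nat.card G : Ω) = (Nat.card N : Ω) * (N.index : Ω) := by
    rw [← Nat.cast_mul, Subgroup.card_mul_index]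
  have hN : (Nat.card N : Ω) ≠ 0 := by
    rw [Nat.cast_ne_zero]; exact Nat.card_pos.ne'
  have hi : (N.index : Ω) ≠ 0 := by
    rw [Nat.cast_ne_zero]; exact Subgroup.index_ne_zero_of_finite
  rw [hc]
  have h3 : ∑ n : N, rN N χ n * rN N χ' n⁻¹ = ∑ n : N, χ n * χ' ((n : G))⁻¹ := rfl
  rw [h3]
  field_simp

theorem ip_nat {H : Type} [Group H] [Finite H] {V W : Type} [AddCommGroup V] [Module Ω V]
    [FiniteDimensional Ω V] [AddCommGroup W] [Module Ω W] [FiniteDimensional Ω W]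
    (ρ : Representation Ω H V) (τ : Representation Ω H W) :
    Parker.ip ρ.character τ.character =
      ((∑ φ ∈ Parker.irr Ω H, Parker.mul ρ.character φ * Parker.mul τ.character φ : ℕ) : Ω) := by
  conv_lhs => rw [Parker.char_eq_sum ρ]
  rw [Parker.ip_sum_left, Nat.cast_sum]
  refine Finset.sum_congr rfl (fun φ hφ => ?_)
  rw [Parker.ip_smul_left, Parker.ip_comm, ← Parker.mul_spec τ hφ, Nat.cast_mul]

theorem exists_above (N : Subgroup G) [N.Normal] {θ : N → Ω} (hθ : θ ∈ Parker.irr Ω N) :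
    ∃ χ ∈ Parker.irr Ω G, Parker.ip (rN N χ) θ ≠ 0 := by
  by_contra hcon
  push Not at hcon
  have _ := Fintype.ofFinite G
  have _ := Fintype.ofFinite N
  let θ0 : G → Ω := fun g => if h : g ∈ N then θ ⟨g, h⟩ else 0
  let Θ : G → Ω := fun x => ∑ g : G, θ0 (g * x * g⁻¹)
  have hcls : ∀ g x, Θ (g * x * g⁻¹) = Θ x := by
    intro g x
    show ∑ h, θ0 (h * (g * x * g⁻¹) * h⁻¹) = ∑ h, θ0 (h * x * h⁻¹)
    refine Fintype.sum_equiv (Equiv.mulRight g) _ _ (fun h => ?_)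
    congr 1
    simp only [Equiv.coe_mulRight]
    group
  have hsub : ∀ χ : G → Ω, ∑ y, θ0 y * χ y⁻¹ = ∑ n : N, θ n * χ ((n : G))⁻¹ := by
    intro χ
    have h1 : ∀ y : G, θ0 y * χ y⁻¹ = if y ∈ N then θ0 y * χ y⁻¹ else 0 := by
      intro y
      split_ifs with h
      · rfl
      · show (if h : y ∈ N then θ ⟨y, h⟩ else 0) * χ y⁻¹ = 0
        rw [dif_neg h, zero_mul]
    rw [Finset.sum_congr rfl (fun y _ => h1 y), sum_sub N (fun y => θ0 y * χ y⁻¹)]
    refine Finset.sum_congr rfl (fun n _ => ?_)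
    show (if h : (n : G) ∈ N then θ ⟨n, h⟩ else 0) * χ (n : G)⁻¹ = _
    rw [dif_pos n.2]
  have hip : ∀ χ ∈ Parker.irr Ω G, Parker.ip Θ χ = 0 := by
    intro χ hχ
    rw [Parker.ip_eq]
    have h2 : ∀ g, ∑ x, θ0 (g * x * g⁻¹) * χ x⁻¹ = ∑ y, θ0 y * χ y⁻¹ := by
      intro g
      refine Fintype.sum_equiv (MulAut.conj g).toEquiv _ _ (fun x => ?_)
      show θ0 (g * x * g⁻¹) * χ x⁻¹ = θ0 (g * x * g⁻¹) * χ (g * x * g⁻¹)⁻¹
      have e : (g * x * g⁻¹)⁻¹ = g * x⁻¹ * g⁻¹ := by group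
      rw [e, Parker.P15_aux.irr_class hχ]
    have h3 : ∑ y, θ0 y * χ y⁻¹ = 0 := by
      rw [hsub]
      have h4 := hcon χ hχ
      rw [Parker.ip_comm, Parker.ip_eq] at h4
      rcases mul_eq_zero.1 h4 with h5 | h5
      · exfalso
        rw [inv_eq_zero, Nat.cast_eq_zero] at h5
        exact Nat.card_pos.ne' h5
      · exact h5
    have h4 : ∑ x, Θ x * χ x⁻¹ = 0 := by
      have h5 : ∀ x, Θ x * χ x⁻¹ = ∑ g, θ0 (g * x * g⁻¹) * χ x⁻¹ := by
        intro x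
        show (∑ g, θ0 (g * x * g⁻¹)) * χ x⁻¹ = _
        rw [Finset.sum_mul]
      rw [Finset.sum_congr rfl (fun x _ => h5 x), Finset.sum_comm,
        Finset.sum_congr rfl (fun g _ => (h2 g).trans h3), Finset.sum_const_zero]
    rw [h4, mul_zero]
  have h0 := class_expand hcls 1
  rw [Finset.sum_eq_zero (fun χ hχ => by rw [hip χ hχ, zero_mul])] at h0
  have h1 : Θ 1 = (Nat.card G : Ω) * θ 1 := by
    show ∑ g : G, θ0 (g * 1 * g⁻¹) = _
    have h2 : ∀ g : G, θ0 (g * 1 * g⁻¹) = θ 1 := by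
      intro g
      rw [mul_one, mul_inv_cancel]
      show (if h : (1 : G) ∈ N then θ ⟨1, h⟩ else 0) = θ 1
      rw [dif_pos N.one_mem]
      rfl
    rw [Finset.sum_congr rfl (fun g _ => h2 g), Finset.sum_const, Finset.card_univ,
      ← Nat.card_eq_fintype_card, nsmul_eq_mul]
  rw [h1] at h0
  rcases mul_eq_zero.1 h0 with h2 | h2
  · rw [Nat.cast_eq_zero] at h2
    exact Nat.card_pos.ne' h2
  · have h3 := Parker.dg_spec hθ
    rw [← h3.1, Nat.cast_eq_zero] at h2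
    exact h3.2.ne' h2

end E07_aux


namespace E07_aux

/-- the action of the linear characters on functions -/
@[reducible] def kAct (Ω : Type) [Field Ω] (G : Type) [Group G] :
    MulAction (G →* Ωˣ) (G → Ω) where
  smul l χ := fun g => ((l g : Ωˣ) : Ω) * χ g
  one_smul χ := by
    funext g
    show ((1 : Ωˣ) : Ω) * χ g = χ g
    rw [Units.val_one, one_mul]
  mul_smul a b χ := by
    funext g
    show (((a * b) g : Ωˣ) : Ω) * χ g = ((a g : Ωˣ) : Ω) * (((b g : Ωˣ) : Ω) * χ g)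
    rw [MonoidHom.mul_apply, Units.val_mul, mul_assoc]

theorem stab_odd (N : Subgroup G) [N.Normal] (hN : Odd N.index)
    (hab : ∀ x y : G, x * y * x⁻¹ * y⁻¹ ∈ N) {Λ : Finset (G →* Ωˣ)}
    (hΛ : ∀ l : G →* Ωˣ, l ∈ Λ ↔ ∀ n ∈ N, l n = 1) (χ : G → Ω) :
    Odd (Λ.filter fun l => (fun g => ((l g : Ωˣ) : Ω) * χ g) = χ).card := by
  let _ := kAct Ω G
  let st : Subgroup (G →* Ωˣ) := MulAction.stabilizer (G →* Ωˣ) χ ⊓ KG Ω N
  have hle : st ≤ KG Ω N := inf_le_right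
  have hd := Subgroup.card_dvd_of_le hle
  rw [(fin_card Ω N hab).2] at hd
  have hset : (st : Set (G →* Ωˣ)) =
      ((Λ.filter fun l => (fun g => ((l g : Ωˣ) : Ω) * χ g) = χ : Finset (G →* Ωˣ)) :
        Set (G →* Ωˣ)) := by
    ext l
    rw [SetLike.mem_coe, Finset.mem_coe, Finset.mem_filter, hΛ, Subgroup.mem_inf,
      MulAction.mem_stabilizer_iff, mem_KG]
    exact And.comm
  have hc : Nat.card st = (Λ.filter fun l => (fun g => ((l g : Ωˣ) : Ω) * χ g) = χ).card := by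
    rw [← Set.ncard_coe_finset, ← hset]
    rfl
  rw [hc] at hd
  exact Odd.of_dvd_nat hN hd

theorem orbit_odd (N : Subgroup G) [N.Normal] (hN : Odd N.index)
    (hab : ∀ x y : G, x * y * x⁻¹ * y⁻¹ ∈ N) (S : Finset (G → Ω)) (χ0 : G → Ω)
    (h1 : ∀ χ ∈ S, ∃ l ∈ KG Ω N, (fun g => ((l g : Ωˣ) : Ω) * χ0 g) = χ)
    (h2 : ∀ l ∈ KG Ω N, (fun g => ((l g : Ωˣ) : Ω) * χ0 g) ∈ S) : Odd S.card := by
  let _ := kAct Ω G
  have horb : MulAction.orbit (KG Ω N) χ0 = (S : Set (G → Ω)) := by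
    ext χ
    constructor
    · rintro ⟨l, rfl⟩
      exact h2 l.1 l.2
    · intro hχ
      obtain ⟨l, hl, rfl⟩ := h1 χ hχ
      exact ⟨⟨l, hl⟩, rfl⟩
  have h3 := MulAction.index_stabilizer (KG Ω N) χ0
  rw [horb, Set.ncard_coe_finset] at h3
  have h4 := Subgroup.index_dvd_card (MulAction.stabilizer (KG Ω N) χ0)
  rw [h3, (fin_card Ω N hab).2] at h4
  exact Odd.of_dvd_nat hN h4

omit [IsAlgClosed Ω] [CharZero Ω] in
theorem ip_sigma {H : Type} [Group H] [Finite H] (σ : RingAut Ω) (φ : H → Ω) {θ : H → Ω}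
    (hθ : ∀ g, σ (θ g) = θ g) :
    Parker.ip (fun g => σ (φ g)) θ = σ (Parker.ip φ θ) := by
  have _ := Fintype.ofFinite H
  rw [Parker.ip_eq, Parker.ip_eq, map_mul, map_inv₀, map_natCast, map_sum]
  congr 1
  refine Finset.sum_congr rfl (fun g _ => ?_)
  rw [map_mul, hθ]

omit [IsAlgClosed Ω] [CharZero Ω] in
theorem ip_du {H : Type} [Group H] [Finite H] (φ : H → Ω) {θ : H → Ω} (hθ : Parker.du θ = θ) :
    Parker.ip (Parker.du φ) θ = Parker.ip φ θ := by
  have _ := Fintype.ofFinite H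
  conv_lhs => rw [← hθ]
  rw [Parker.ip_eq, Parker.ip_eq]
  congr 1
  exact Fintype.sum_equiv (Equiv.inv H) _ _ (fun g => rfl)

/-- the action of `Γ` and of the duality on functions -/
@[reducible] def eAct (G : Type) [Group G] (Γ : Subgroup (RingAut Ω)) :
    MulAction (Γ × ℤˣ) (G → Ω) where
  smul e χ := fun g => (e.1 : RingAut Ω) (χ (g ^ ((e.2 : ℤˣ) : ℤ)))
  one_smul χ := by
    funext g
    show χ (g ^ ((1 : ℤˣ) : ℤ)) = χ g
    rw [Units.val_one, zpow_one]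
  mul_smul a b χ := by
    funext g
    show (a.1 : RingAut Ω) ((b.1 : RingAut Ω) (χ (g ^ ((a.2 * b.2 : ℤˣ) : ℤ)))) =
      (a.1 : RingAut Ω) ((b.1 : RingAut Ω) (χ ((g ^ ((a.2 : ℤˣ) : ℤ)) ^ ((b.2 : ℤˣ) : ℤ))))
    rw [Units.val_mul, zpow_mul]

end E07_aux

theorem exists_over {c : Parker.Ctx Ω} {Γ : Subgroup (RingAut Ω)} {m : ℕ} (hm : m ≠ 0)
    (hG : Nat.card G ∣ m) (hΓ : Parker.Ok c m Γ) (N : Subgroup G) [N.Normal]
    (hN : Odd N.index) (hab : ∀ x y : G, x * y * x⁻¹ * y⁻¹ ∈ N) {θ : N → Ω}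
    (hθ : θ ∈ Parker.irr Ω N) (hr : Parker.du θ = θ) (hf : ∀ g, Parker.Fx Γ (θ g)) :
    ∃ (χ : G → Ω) (e : ℕ) (O : Finset (N → Ω)), χ ∈ Parker.irr Ω G ∧ Parker.du χ = χ ∧
      (∀ g, Parker.Fx Γ (χ g)) ∧ Odd e ∧ Odd O.card ∧ θ ∈ O ∧
      (∀ θ' ∈ O, ∃ g : G, θ' = Parker.cj N g θ) ∧
      ∀ n : N, χ n = e * ∑ θ' ∈ O, θ' n := by
  obtain ⟨Λ, -, -, hΛ, hsum⟩ := lin_sum Ω N hab
  have hchar : ∀ {n : ℕ} (ρ : Representation Ω G (Fin n → Ω)),
      rN N ρ.character = (Parker.rs N ρ).character := fun ρ => rfl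
  -- the set of the characters over `θ`
  set S : Finset (G → Ω) := (Parker.irr Ω G).filter fun χ => Parker.ip (rN N χ) θ ≠ 0 with hSdef
  have hS : ∀ χ, χ ∈ S ↔ χ ∈ Parker.irr Ω G ∧ Parker.ip (rN N χ) θ ≠ 0 := fun χ =>
    Finset.mem_filter
  have htw : ∀ χ ∈ S, ∀ l ∈ KG Ω N, (fun g => ((l g : Ωˣ) : Ω) * χ g) ∈ S := by
    intro χ hχ l hl
    rw [hS] at hχ ⊢
    refine ⟨tw_mem_irr hχ.1 l, ?_⟩
    have h1 : rN N (fun g => ((l g : Ωˣ) : Ω) * χ g) = rN N χ := by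
      funext n
      show ((l n : Ωˣ) : Ω) * χ n = χ n
      rw [mem_KG.1 hl n n.2, Units.val_one, one_mul]
    rw [h1]
    exact hχ.2
  have htrans : ∀ χ ∈ S, ∀ χ' ∈ S, ∃ l ∈ KG Ω N, (fun g => ((l g : Ωˣ) : Ω) * χ g) = χ' := by
    intro χ hχ χ' hχ'
    rw [hS] at hχ hχ'
    have hne : Parker.ip (rN N χ) (rN N χ') ≠ 0 := by
      obtain ⟨n, ρ, hρ, rfl⟩ := Parker.mem_irr.1 hχ.1
      obtain ⟨n', τ, hτ, rfl⟩ := Parker.mem_irr.1 hχ'.1
      rw [hchar, hchar, ip_nat, Nat.cast_ne_zero]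
      have h1 : Parker.mul (Parker.rs N ρ).character θ ≠ 0 := by
        intro h0
        apply hχ.2
        rw [hchar, ← Parker.mul_spec _ hθ, h0, Nat.cast_zero]
      have h2 : Parker.mul (Parker.rs N τ).character θ ≠ 0 := by
        intro h0
        apply hχ'.2
        rw [hchar, ← Parker.mul_spec _ hθ, h0, Nat.cast_zero]
      intro h0
      rw [Finset.sum_eq_zero_iff] at h0
      exact (mul_ne_zero h1 h2) (h0 θ hθ)
    rw [ip_res hsum] at hne
    obtain ⟨l, hl, hl'⟩ := Finset.exists_ne_zero_of_sum_ne_zero hne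
    refine ⟨l, (hΛ l).1 hl, ?_⟩
    rw [Parker.ip_irr (tw_mem_irr hχ.1 l) hχ'.1] at hl'
    by_contra hcon
    rw [if_neg hcon] at hl'
    exact hl' rfl
  obtain ⟨χ0, hχ0, hχ0'⟩ := exists_above N hθ
  have hχ0S : χ0 ∈ S := (hS χ0).2 ⟨hχ0, hχ0'⟩
  have hodd : Odd S.card := orbit_odd N hN hab S χ0 (fun χ hχ => htrans χ0 hχ0S χ hχ)
    (fun l hl => htw χ0 hχ0S l hl)
  have hsig : ∀ χ ∈ S, ∀ σ ∈ Γ, (fun g => σ (χ g)) ∈ S := by
    intro χ hχ σ hσ
    rw [hS] at hχ ⊢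
    refine ⟨Parker.sigma_mem_irr hχ.1 σ, ?_⟩
    have h1 : rN N (fun g => σ (χ g)) = fun n => σ (rN N χ n) := rfl
    rw [h1, ip_sigma σ (rN N χ) (fun g => hf g σ hσ)]
    intro h0
    exact hχ.2 ((map_eq_zero_iff σ σ.injective).1 h0)
  have hdu : ∀ χ ∈ S, Parker.du χ ∈ S := by
    intro χ hχ
    rw [hS] at hχ ⊢
    refine ⟨Parker.du_mem_irr hχ.1, ?_⟩
    have h1 : rN N (Parker.du χ) = Parker.du (rN N χ) := rfl
    rw [h1, ip_du (rN N χ) hr]
    exact hχ.2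
  -- a common fixed point
  obtain ⟨χ, hχS, hfix⟩ : ∃ χ ∈ S, Parker.du χ = χ ∧ ∀ σ ∈ Γ, (fun g => σ (χ g)) = χ := by
    let _ := eAct G Γ
    have hst : ∀ (e : Γ × ℤˣ), ∀ x ∈ S, e • x ∈ S := by
      rintro ⟨σ, u⟩ x hx
      rcases Int.units_eq_one_or u with rfl | rfl
      · have h1 : ((σ, 1) : Γ × ℤˣ) • x = fun g => (σ : RingAut Ω) (x g) := by
          funext g
          show (σ : RingAut Ω) (x (g ^ ((1 : ℤˣ) : ℤ))) = _
          rw [Units.val_one, zpow_one]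
        rw [h1]
        exact hsig x hx σ σ.2
      · have h1 : ((σ, -1) : Γ × ℤˣ) • x = fun g => (σ : RingAut Ω) (Parker.du x g) := by
          funext g
          show (σ : RingAut Ω) (x (g ^ ((-1 : ℤˣ) : ℤ))) = (σ : RingAut Ω) (x g⁻¹)
          rw [Units.val_neg, Units.val_one, zpow_neg_one]
        rw [h1]
        exact hsig _ (hdu x hx) σ σ.2
    have h2 : ∀ e : Γ × ℤˣ, ∃ j : ℕ, ∀ x ∈ S, (e ^ (2 ^ j)) • x = x := by
      rintro ⟨σ, u⟩
      obtain ⟨j, hj⟩ := hΓ.two σ σ.2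
      refine ⟨j + 1, fun x hx => ?_⟩
      have hu : u ^ 2 ^ (j + 1) = 1 := by
        rw [pow_succ, mul_comm, pow_mul, Int.units_sq, one_pow]
      have h1 : ((σ, u) : Γ × ℤˣ) ^ 2 ^ (j + 1) = (σ ^ 2 ^ (j + 1), 1) := by
        rw [Prod.pow_mk, hu]
      rw [h1]
      funext g
      show ((σ ^ 2 ^ (j + 1) : Γ) : RingAut Ω) (x (g ^ ((1 : ℤˣ) : ℤ))) = x g
      rw [Units.val_one, zpow_one]
      obtain ⟨n, ρ, hρ, rfl⟩ := Parker.mem_irr.1 ((hS x).1 hx).1
      have hgm : g ^ m = 1 := by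
        obtain ⟨k, rfl⟩ := hG
        rw [pow_mul, pow_card_eq_one', one_pow]
      refine Parker.char_fixed ρ hm hgm ?_
      intro ζ hζ
      have h3 : ((σ ^ 2 ^ (j + 1) : Γ) : RingAut Ω) = (σ : RingAut Ω) ^ 2 ^ j * (σ : RingAut Ω) ^ 2 ^ j := by
        rw [Subgroup.coe_pow, ← pow_add, pow_succ, mul_two]
      rw [h3]
      show ((σ : RingAut Ω) ^ 2 ^ j) (((σ : RingAut Ω) ^ 2 ^ j) ζ) = ζ
      rw [hj ζ hζ, hj ζ hζ]
    obtain ⟨x, hx, hx'⟩ := Parker.exists_fixed_of_odd S hst h2 hodd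
    refine ⟨x, hx, ?_, ?_⟩
    · have h3 := hx' (1, -1)
      funext g
      have h4 := congrFun h3 g
      have h5 : x (g ^ ((-1 : ℤˣ) : ℤ)) = x g := h4
      rw [Units.val_neg, Units.val_one, zpow_neg_one] at h5
      exact h5
    · intro σ hσ
      have h3 := hx' (⟨σ, hσ⟩, 1)
      funext g
      have h4 := congrFun h3 g
      have h5 : σ (x (g ^ ((1 : ℤˣ) : ℤ))) = x g := h4
      rw [Units.val_one, zpow_one] at h5
      exact h5
  obtain ⟨hχi, hχθ⟩ := (hS χ).1 hχS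
  obtain ⟨n, ρ, hρ, hρχ⟩ := Parker.mem_irr.1 hχi
  set e : ℕ := Parker.mul (Parker.rs N ρ).character θ with he
  have he0 : e ≠ 0 := by
    intro h0
    apply hχθ
    rw [← hρχ, hchar, ← Parker.mul_spec _ hθ, ← he, h0, Nat.cast_zero]
  set O : Finset (N → Ω) := (Parker.irr Ω N).filter
    fun φ => Parker.mul (Parker.rs N ρ).character φ ≠ 0 with hO
  have hcj : ∀ θ' ∈ O, ∃ g : G, θ' = Parker.cj N g θ := by
    intro θ' h'
    obtain ⟨h1, h2⟩ := Finset.mem_filter.1 h'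
    exact Parker.clifford_trans N hρ hθ h1 he0 h2
  have hmul : ∀ θ' ∈ O, Parker.mul (Parker.rs N ρ).character θ' = e := by
    intro θ' h'
    obtain ⟨g, rfl⟩ := hcj θ' h'
    rw [Parker.mul_cj N ρ hθ g]
  -- the parity
  have hpar : Odd (O.card * (e * e)) := by
    have h1 : Parker.ip (rN N χ) (rN N χ) =
        ((Λ.filter fun l => (fun g => ((l g : Ωˣ) : Ω) * χ g) = χ).card : Ω) := by
      rw [ip_res hsum, Finset.card_filter, Nat.cast_sum]
      refine Finset.sum_congr rfl (fun l _ => ?_)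
      rw [Parker.ip_irr (tw_mem_irr hχi l) hχi, Nat.cast_ite, Nat.cast_one, Nat.cast_zero]
    have h2 : Parker.ip (rN N χ) (rN N χ) = ((O.card * (e * e) : ℕ) : Ω) := by
      rw [← hρχ, hchar, ip_nat]
      congr 1
      rw [← Finset.sum_filter_add_sum_filter_not (Parker.irr Ω N)
        (fun φ => Parker.mul (Parker.rs N ρ).character φ ≠ 0), ← hO,
        Finset.sum_congr rfl (fun φ hφ => by rw [hmul φ hφ]), Finset.sum_const, smul_eq_mul]
      rw [Finset.sum_eq_zero, add_zero]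
      intro φ hφ
      have h3 := (Finset.mem_filter.1 hφ).2
      rw [not_not] at h3
      rw [h3, zero_mul]
    rw [h1] at h2
    rw [← Nat.cast_injective h2]
    exact stab_odd N hN hab hΛ χ
  refine ⟨χ, e, O, hχi, hfix.1, fun g σ hσ => congrFun (hfix.2 σ hσ) g, ?_, ?_, ?_, hcj, ?_⟩
  · exact (Nat.odd_mul.1 (Nat.odd_mul.1 hpar).2).1
  · exact (Nat.odd_mul.1 hpar).1
  · exact Finset.mem_filter.2 ⟨hθ, he0⟩
  · intro x
    have h1 : χ x = (Parker.rs N ρ).character x := by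
      rw [← hρχ]
      rfl
    rw [h1]
    conv_lhs => rw [Parker.char_eq_sum (Parker.rs N ρ)]
    rw [← Finset.sum_filter_add_sum_filter_not (Parker.irr Ω N)
        (fun φ => Parker.mul (Parker.rs N ρ).character φ ≠ 0), ← hO, Pi.add_apply,
        Finset.sum_apply, Finset.sum_apply, Finset.mul_sum]
    have h2 : ∑ φ ∈ (Parker.irr Ω N).filter
        (fun φ => ¬ Parker.mul (Parker.rs N ρ).character φ ≠ 0),
        (((Parker.mul (Parker.rs N ρ).character φ : ℕ) : Ω) • φ) x = 0 := by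
      refine Finset.sum_eq_zero (fun φ hφ => ?_)
      have h3 := (Finset.mem_filter.1 hφ).2
      rw [not_not] at h3
      rw [h3, Nat.cast_zero, zero_smul, Pi.zero_apply]
    rw [h2, add_zero]
    refine Finset.sum_congr rfl (fun φ hφ => ?_)
    rw [hmul φ hφ, Pi.smul_apply, smul_eq_mul]

end

end ParkerGL
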