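import Pool.Agent.ParkerGL.E06
import Pool.Agent.Parker.P29

/-!
# MP_6c3636_al, module F01: direct products (helper7)

* `rep_prod`: every irreducible representation `ρ` of `G × H` has the character of `outer u z` (E06), `u`, `z` irreducible of dimensions `a`, `b`, and its dimension is `a * b`:
  `irr_prod` (A06); the dimension is the value at `1`.
* `propA_prod`: let `ρ` be irreducible, orthogonal, of even dimension, with `Γ`-fixed character. By `rep_prod` `ρ.character (g, h) = u.character g * z.character h`.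
  `h = 1`: `u.character g = ρ.character (g, 1) / b`, so `u` is self dual with `Γ`-fixed character, same for `z`. The representation `outer u z` has the character of `ρ`, so it is
  isomorphic to `ρ`, orthogonal (`Parker` P08/P10). `good_outer` with `Parker.good_of_propA` for `u`, `z`: `outer u z` is good, so `ρ` is good (same form and operator transported; or use
  `Parker.sqV_of_good` for `outer u z` with the given `s` and `det (act ρ s) = det (act (outer u z) s)`, as both have the same character).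
* `propB_prod`: let `ρ` be irreducible of odd dimension, `γ`, `d` as in `PropB`. `ρ.character (g, h) = u.character g * z.character h`, `a`, `b` odd. `Fixes σ ρ` iff `Fixes σ u` and
  `Fixes σ z`; `γ u = u*`, `γ z = z*` (divide by the other degree). If all `σ ∈ Γ` fix `ρ`, `d` is fixed by `Γ` and `c.av d` is in `InV` by definition.
  Otherwise let `σ₀ ∈ Γ` not fix `ρ`, so it does not fix `u`, say. If `σ ∈ Γ` does not fix `ρ`, then `σ₀⁻¹ σ` fixes `d` (both change the sign, `d ≠ 0`, `2 ≠ 0`), so it fixes `ρ`, so `u`, so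
  `σ u = σ₀ u ≠ u`. So `Fixes σ u ↔ Fixes σ ρ` for all `σ ∈ Γ` and `PropB` for `G` (`Parker.propB_gen`) applies to `u` and `d`. Same for `z`.
-/

namespace ParkerGL

noncomputable section

open Classical

variable {Ω : Type} [Field Ω] [IsAlgClosed Ω] [CharZero Ω] {c : Parker.Ctx Ω}
  {G : Type} [Group G] [Finite G] {H : Type} [Group H] [Finite H]

namespace F01_aux

theorem char_one_ne {K : Type} [Group K] [Finite K] {n : ℕ} {ρ : Representation Ω K (Fin n → Ω)}
    (hρ : ρ.IsIrreducible) : ρ.character 1 ≠ 0 := by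
  rw [Representation.char_one, Nat.cast_ne_zero]
  exact (Parker.irr_pos hρ).ne'

theorem cancel_left {n a b : ℕ} {ρ : Representation Ω (G × H) (Fin n → Ω)}
    {u : Representation Ω G (Fin a → Ω)} {z : Representation Ω H (Fin b → Ω)}
    (h : ∀ p : G × H, ρ.character p = u.character p.1 * z.character p.2) (g : G) :
    ρ.character (g, 1) = u.character g * (b : Ω) := by
  rw [h]
  show u.character g * z.character 1 = _
  rw [Representation.char_one, Module.finrank_fin_fun]

theorem cancel_right {n a b : ℕ} {ρ : Representation Ω (G × H) (Fin n → Ω)}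
    {u : Representation Ω G (Fin a → Ω)} {z : Representation Ω H (Fin b → Ω)}
    (h : ∀ p : G × H, ρ.character p = u.character p.1 * z.character p.2) (g : H) :
    ρ.character (1, g) = z.character g * (a : Ω) := by
  rw [h]
  show u.character 1 * z.character g = _
  rw [Representation.char_one, Module.finrank_fin_fun, mul_comm]

theorem cast_ne {K : Type} [Group K] [Finite K] {n : ℕ} {ρ : Representation Ω K (Fin n → Ω)}
    (hρ : ρ.IsIrreducible) : (n : Ω) ≠ 0 := by
  have h := char_one_ne hρ
  rwa [Representation.char_one, Module.finrank_fin_fun] at h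

/-- data of one factor: `x` is a homomorphism `K → G × H` with `ρ.character (x k) = v.character k * m` -/
theorem factor_sd {K : Type} [Group K] [Finite K] {n l m : ℕ}
    {ρ : Representation Ω (G × H) (Fin n → Ω)} {v : Representation Ω K (Fin l → Ω)}
    (x : K →* G × H) (hm : (m : Ω) ≠ 0)
    (h : ∀ k, ρ.character (x k) = v.character k * (m : Ω)) (hS : Parker.SD ρ) :
    Parker.SD v := by
  intro k
  apply mul_right_cancel₀ hm
  rw [← h, ← h, map_inv]
  exact hS _

theorem factor_fixes {K : Type} [Group K] [Finite K] {n l m : ℕ}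
    {ρ : Representation Ω (G × H) (Fin n → Ω)} {v : Representation Ω K (Fin l → Ω)}
    (x : K →* G × H) (hm : (m : Ω) ≠ 0)
    (h : ∀ k, ρ.character (x k) = v.character k * (m : Ω)) {σ : RingAut Ω}
    (hS : Parker.Fixes σ ρ) : Parker.Fixes σ v := by
  intro k
  apply mul_right_cancel₀ hm
  rw [← h, ← hS, h, map_mul, map_natCast]

theorem factor_dual {K : Type} [Group K] [Finite K] {n l m : ℕ}
    {ρ : Representation Ω (G × H) (Fin n → Ω)} {v : Representation Ω K (Fin l → Ω)}
    (x : K →* G × H) (hm : (m : Ω) ≠ 0)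
    (h : ∀ k, ρ.character (x k) = v.character k * (m : Ω)) {σ : RingAut Ω}
    (hS : ∀ g, σ (ρ.character g) = ρ.character g⁻¹) :
    ∀ g, σ (v.character g) = v.character g⁻¹ := by
  intro k
  apply mul_right_cancel₀ hm
  rw [← h, map_inv, ← hS, h, map_mul, map_natCast]

/-- the argument of `propB_prod` for one factor -/
theorem factor_B {K : Type} [Group K] [Finite K] {n l m : ℕ}
    {ρ : Representation Ω (G × H) (Fin n → Ω)} {v : Representation Ω K (Fin l → Ω)}
    (hB : Parker.PropB c 1 K) {Γ : Subgroup (RingAut Ω)} (hΓ : Parker.Ok c 1 Γ)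
    (hv : v.IsIrreducible) (hl : Odd l)
    (x : K →* G × H) (hm : (m : Ω) ≠ 0)
    (h : ∀ k, ρ.character (x k) = v.character k * (m : Ω))
    (hγ : ∃ γ ∈ Γ, ∀ g, γ (ρ.character g) = ρ.character g⁻¹) {d : Ω} (hd : d ≠ 0)
    (hσ : ∀ σ ∈ Γ, σ d = if Parker.Fixes σ ρ then d else - d)
    {σ₀ : RingAut Ω} (h0 : σ₀ ∈ Γ) (h0v : ¬ Parker.Fixes σ₀ v) :
    Parker.InV c Γ (c.av d) := by
  have h0ρ : ¬ Parker.Fixes σ₀ ρ := fun hh => h0v (factor_fixes x hm h hh)
  have hd0 : σ₀ d = - d := by rw [hσ σ₀ h0, if_neg h0ρ]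
  have hd0' : (σ₀⁻¹ : RingAut Ω) (-d) = d := by
    rw [← hd0]
    exact RingEquiv.symm_apply_apply σ₀ d
  have hne : -d ≠ d := by
    intro hh
    have h2 : (2 : Ω) * d = 0 := by
      calc (2 : Ω) * d = d - (-d) := by ring
        _ = 0 := by rw [hh, sub_self]
    rcases mul_eq_zero.1 h2 with h3 | h3
    · exact two_ne_zero h3
    · exact hd h3
  have key : ∀ σ ∈ Γ, (Parker.Fixes σ v ↔ Parker.Fixes σ ρ) := by
    intro σ hs
    refine ⟨fun h1 => ?_, fun h1 => factor_fixes x hm h h1⟩
    by_contra hcon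
    have h3 : σ d = - d := by rw [hσ σ hs, if_neg hcon]
    have h4 : (σ₀⁻¹ * σ) ∈ Γ := Γ.mul_mem (Γ.inv_mem h0) hs
    have h5 : (σ₀⁻¹ * σ) d = d := by
      show (σ₀⁻¹ : RingAut Ω) (σ d) = d
      rw [h3, hd0']
    have h6 : Parker.Fixes (σ₀⁻¹ * σ) ρ := by
      by_contra hcon2
      have h7 := hσ _ h4
      rw [if_neg hcon2, h5] at h7
      exact hne h7.symm
    have h7 := factor_fixes x hm h h6
    apply h0v
    intro k
    have h8 : (σ₀⁻¹ : RingAut Ω) (σ (v.character k)) = v.character k := h7 k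
    rw [h1 k] at h8
    have h9 := congrArg σ₀ h8
    have h10 : σ₀ ((σ₀⁻¹ : RingAut Ω) (v.character k)) = v.character k :=
      RingEquiv.apply_symm_apply σ₀ _
    rw [h10] at h9
    exact h9.symm
  obtain ⟨γ, hγ1, hγ2⟩ := hγ
  refine Parker.propB_gen hB hΓ hv (by rw [Module.finrank_fin_fun]; exact hl)
    ⟨γ, hγ1, factor_dual x hm h hγ2⟩ hd fun σ hs => ?_
  by_cases h1 : Parker.Fixes σ ρ
  · rw [if_pos ((key σ hs).2 h1), hσ σ hs, if_pos h1]
  · rw [if_neg (fun hh => h1 ((key σ hs).1 hh)), hσ σ hs, if_neg h1]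

end F01_aux

open F01_aux

theorem rep_prod {n : ℕ} {ρ : Representation Ω (G × H) (Fin n → Ω)} (hρ : ρ.IsIrreducible) :
    ∃ (a b : ℕ) (u : Representation Ω G (Fin a → Ω)) (z : Representation Ω H (Fin b → Ω)),
      u.IsIrreducible ∧ z.IsIrreducible ∧ n = a * b ∧
      ∀ p : G × H, ρ.character p = u.character p.1 * z.character p.2 := by
  obtain ⟨φ, hφ, ψ, hψ, hχ⟩ := irr_prod (Parker.mem_irr.2 (Parker.mem_irrSet hρ))
  obtain ⟨a, u, hu, rfl⟩ := Parker.mem_irr.1 hφ
  obtain ⟨b, z, hz, rfl⟩ := Parker.mem_irr.1 hψ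
  refine ⟨a, b, u, z, hu, hz, ?_, fun p => congrFun hχ p⟩
  have h1 := congrFun hχ 1
  have h2 : ρ.character 1 = u.character 1 * z.character 1 := h1
  rw [Representation.char_one, Representation.char_one, Representation.char_one,
    Module.finrank_fin_fun, Module.finrank_fin_fun, Module.finrank_fin_fun] at h2
  exact_mod_cast h2

theorem propA_prod (hA : Parker.PropA c 1 G) (hA' : Parker.PropA c 1 H) :
    Parker.PropA c 1 (G × H) := by
  intro Γ hΓ n ρ hρ hn hO hF s hs hsk hd
  obtain ⟨a, b, u, z, hu, hz, hnab, hch⟩ := rep_prod hρ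
  have ha : (a : Ω) ≠ 0 := cast_ne hu
  have hb : (b : Ω) ≠ 0 := cast_ne hz
  have hul : ∀ k, ρ.character (MonoidHom.inl G H k) = u.character k * (b : Ω) :=
    fun k => cancel_left hch k
  have hzl : ∀ k, ρ.character (MonoidHom.inr G H k) = z.character k * (a : Ω) :=
    fun k => cancel_right hch k
  have hSD : Parker.SD ρ := Parker.sd_of_orth hO
  have huS : Parker.SD u := factor_sd _ hb hul hSD
  have hzS : Parker.SD z := factor_sd _ ha hzl hSD
  have huF : Parker.FxC Γ u := fun k σ hσ =>
    factor_fixes (σ := σ) _ hb hul (fun p => hF p σ hσ) k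
  have hzF : Parker.FxC Γ z := fun k σ hσ =>
    factor_fixes (σ := σ) _ ha hzl (fun p => hF p σ hσ) k
  have hc : (outer u z).character = ρ.character := by
    funext p
    rw [outer_char, hch]
  obtain ⟨e⟩ := Parker.equiv_of_char (outer_irr hu hz) hρ hc
  have hO' : Parker.Orth (outer u z) := Parker.equiv_orth e.symm hO
  have hgood : Parker.GoodV c Γ (outer u z) :=
    good_outer hu hz huS hzS huF hzF
      (by rw [Module.finrank_fin_fun, Module.finrank_fin_fun, ← hnab]; exact hn) hO'
      (fun he ho => Parker.good_of_propA hA hΓ hu he ho huF)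
      (fun he ho => Parker.good_of_propA hA' hΓ hz he ho hzF)
  exact Parker.sqV_of_good hρ hF (Parker.equiv_good e hgood) hs hsk hd

theorem propB_prod (hB : Parker.PropB c 1 G) (hB' : Parker.PropB c 1 H) :
    Parker.PropB c 1 (G × H) := by
  intro Γ hΓ n ρ hρ hn hγ d hd hσ
  obtain ⟨a, b, u, z, hu, hz, hnab, hch⟩ := rep_prod hρ
  have ha : (a : Ω) ≠ 0 := cast_ne hu
  have hb : (b : Ω) ≠ 0 := cast_ne hz
  have hul : ∀ k, ρ.character (MonoidHom.inl G H k) = u.character k * (b : Ω) :=
    fun k => cancel_left hch k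
  have hzl : ∀ k, ρ.character (MonoidHom.inr G H k) = z.character k * (a : Ω) :=
    fun k => cancel_right hch k
  have hodd : Odd a ∧ Odd b := by
    rw [hnab] at hn
    exact Nat.odd_mul.1 hn
  by_cases hall : ∀ σ ∈ Γ, Parker.Fixes σ ρ
  · refine Parker.inV_of_fx hd fun σ hs => ?_
    rw [hσ σ hs, if_pos (hall σ hs)]
  · push Not at hall
    obtain ⟨σ₀, h0, h0ρ⟩ := hall
    by_cases h0u : Parker.Fixes σ₀ u
    · have h0z : ¬ Parker.Fixes σ₀ z := by
        intro h0z
        apply h0ρ
        intro p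
        rw [hch, map_mul, h0u, h0z]
      exact factor_B hB' hΓ hz hodd.2 _ ha hzl hγ hd hσ h0 h0z
    · exact factor_B hB hΓ hu hodd.1 _ hb hul hγ hd hσ h0 h0u

end

end ParkerGL
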